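import Pool.Agent.SeamS.Cells

/-!
# The regions of a pattern (MP_6cce73_lc)

A pattern has finitely many regions; a pattern with convex regions admits a stacking.
-/

namespace Pool.Agent.SeamS

open Set Filter Topology Metric Pool.Agent.Hhelper79.Seam

/-- a pattern has only finitely many regions -/
theorem finite_regions {S D : Set E3} (hS : IsPolySurface S)
    (hD : ∃ T : Finset (Set E3), (∀ t ∈ T, ∃ a b : E3, t = segment ℝ a b) ∧ D = ⋃ t ∈ T, t) :
    {R : Set E3 | ∃ s ∈ S \ D, R = connectedComponentIn (S \ D) s}.Finite := by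
  obtain ⟨A1, hA1, hm1⟩ := hS.polyhedral.exists_meas
  obtain ⟨TD, hTD, hDT⟩ := hD
  obtain ⟨A2, hA2, hm2⟩ := exists_meas_sUnion (T := (TD : Set (Set E3))) TD.finite_toSet
    (fun t ht => by
      obtain ⟨a, b, rfl⟩ := hTD t ht
      exact exists_meas_segment a b)
  have hA : (A1 ∪ A2).Finite := hA1.union hA2
  have hmS : Meas (A1 ∪ A2) S := hm1.mono subset_union_left
  have hmD : Meas (A1 ∪ A2) D := by
    rw [hDT]
    exact Meas.iUnion fun t => Meas.iUnion fun ht => (hm2 t ht).mono subset_union_right
  refine ((finite_classes hA).image (fun C => ⋃ y ∈ C, connectedComponentIn (S \ D) y)).subset ?_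
  rintro R ⟨s, hs, rfl⟩
  refine ⟨Cls (A1 ∪ A2) s, mem_range_self s, ?_⟩
  have hsub : Cls (A1 ∪ A2) s ⊆ S \ D := fun y hy =>
    ⟨hmS s y hy hs.1, fun hyD => hs.2 (hmD y s hy.symm hyD)⟩
  have key : ∀ y ∈ Cls (A1 ∪ A2) s,
      connectedComponentIn (S \ D) y = connectedComponentIn (S \ D) s := by
    intro y hy
    refine (connectedComponentIn_eq ?_).symm
    exact (convex_cls (A1 ∪ A2) s).isPreconnected.subset_connectedComponentIn
      (mem_cls _ s) hsub hy
  apply Subset.antisymm
  · refine iUnion₂_subset fun y hy => ?_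
    rw [key y hy]
  · exact subset_biUnion_of_mem (u := fun y => connectedComponentIn (S \ D) y) (mem_cls _ s)

/-- If all regions of the pattern are placed convex open sets then the pattern admits a
stacking (each region is a sheet). -/
theorem stacking_of_convex {S D : Set E3}
    (h : ∀ s ∈ S \ D, ∃ (g : E2 →ᵃⁱ[ℝ] E3) (U : Set E2),
      connectedComponentIn (S \ D) s = g '' U ∧ IsOpen U ∧ Convex ℝ U) :
    ∃ same low : E3 → E3 → Prop, IsStacking S D same low := by
  have hvis : ∀ s, vis S D (fun s t => t ∈ connectedComponentIn (S \ D) s) s =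
      connectedComponentIn (S \ D) s := by
    intro s
    ext t
    constructor
    · exact fun ht => ht.2.2
    · intro ht
      have := connectedComponentIn_subset _ _ ht
      exact ⟨this.1, this.2, ht⟩
  have hcl : ∀ (U : Set E2), IsOpen U → Convex ℝ U → U.Nonempty → interior (closure U) = U := by
    intro U hU hc hne
    have := hc.interior_closure_eq_interior_of_nonempty_interior (by rwa [hU.interior_eq])
    rw [this, hU.interior_eq]
  refine ⟨fun s t => t ∈ connectedComponentIn (S \ D) s, fun _ _ => False, ?_⟩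
  constructor
  · exact fun s hs => mem_connectedComponentIn hs
  · intro s hs t ht hst
    rw [← connectedComponentIn_eq hst]
    exact mem_connectedComponentIn hs
  · intro s hs t ht u hu hst htu
    rw [connectedComponentIn_eq hst]
    exact htu
  · intro s hs
    obtain ⟨g, U, hg, hU, hc⟩ := h s hs
    have hne : U.Nonempty := by
      have := mem_connectedComponentIn hs
      rw [hg] at this
      obtain ⟨u, hu, -⟩ := this
      exact ⟨u, hu⟩
    refine ⟨⟨g, U, hg, hU, ⟨hne, hc.isPreconnected⟩, hcl U hU hc hne, ?_⟩, fun t ht => ht⟩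
    intro q hq hb
    obtain ⟨p, hp⟩ := hne
    have hqp : q ≠ p := fun h' => hq (h' ▸ subset_closure hp)
    -- the ray from `q` away from `p`
    let ray : ℝ → E2 := fun t => q + t • (q - p)
    have hray : ∀ t : ℝ, 0 ≤ t → ray t ∉ closure U := by
      intro t ht hcon
      apply hq
      have hconv : Convex ℝ (closure U) := hc.closure
      have := hconv (subset_closure hp) hcon (a := t / (1 + t)) (b := 1 / (1 + t))
        (by positivity) (by positivity) (by field_simp; ring)
      convert this using 1
      simp only [ray]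
      have h1 : (1 + t) ≠ 0 := by positivity
      rw [smul_add, smul_smul, smul_sub]
      have e1 : 1 / (1 + t) * t = t / (1 + t) := by ring
      rw [e1]
      have e2 : (t / (1 + t)) • p + ((1 / (1 + t)) • q + ((t / (1 + t)) • q - (t / (1 + t)) • p)) =
          ((1 / (1 + t)) + (t / (1 + t))) • q := by
        rw [add_smul]
        abel
      rw [e2]
      have e3 : (1 / (1 + t)) + (t / (1 + t)) = 1 := by field_simp
      rw [e3, one_smul]
    have hsub : ray '' Ici 0 ⊆ connectedComponentIn (closure U)ᶜ q := by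
      refine IsPreconnected.subset_connectedComponentIn ?_ ?_ ?_
      · exact isPreconnected_Ici.image _ (by fun_prop)
      · exact ⟨0, by simp, by simp [ray]⟩
      · rintro _ ⟨t, ht, rfl⟩
        exact hray t ht
    obtain ⟨C, hC⟩ := (hb.subset hsub).exists_norm_le
    have hpos : 0 < ‖q - p‖ := norm_pos_iff.2 (sub_ne_zero.2 hqp)
    have hC0 : 0 ≤ C := (norm_nonneg _).trans (hC (ray 0) ⟨0, by simp, rfl⟩)
    have h5 : 0 ≤ (C + ‖q‖ + 1) / ‖q - p‖ := by positivity
    have h2 := hC (ray ((C + ‖q‖ + 1) / ‖q - p‖)) ⟨_, h5, rfl⟩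
    have h3 : ‖((C + ‖q‖ + 1) / ‖q - p‖) • (q - p)‖ = C + ‖q‖ + 1 := by
      rw [norm_smul, Real.norm_of_nonneg (by positivity)]
      field_simp
    have h4 : ‖((C + ‖q‖ + 1) / ‖q - p‖) • (q - p)‖ ≤
        ‖ray ((C + ‖q‖ + 1) / ‖q - p‖)‖ + ‖q‖ := by
      have : ((C + ‖q‖ + 1) / ‖q - p‖) • (q - p) =
          ray ((C + ‖q‖ + 1) / ‖q - p‖) - q := by simp [ray]
      rw [this]
      exact norm_sub_le _ _
    linarith
  · intro s hs
    obtain ⟨g, U, hg, hU, hc⟩ := h s hs
    have hne : U.Nonempty := by
      have := mem_connectedComponentIn hs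
      rw [hg] at this
      obtain ⟨u, hu, -⟩ := this
      exact ⟨u, hu⟩
    refine ⟨g, U, (hvis s).trans hg, hU, hcl U hU hc hne, ?_, ?_⟩
    · rw [hc.convexHull_eq, ← hg]
      exact (connectedComponentIn_subset _ _).trans sdiff_subset
    · intro q hq hsub
      rw [hc.convexHull_eq] at hsub
      exact hq (subset_closure (hsub (mem_connectedComponentIn hq)))
  · exact fun _ _ _ _ _ _ _ _ _ _ h => h
  · exact fun _ _ _ _ h => h.elim
  · intro s hs t ht hne hmeet
    exfalso
    apply hne
    rw [hvis, hvis] at hmeet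
    obtain ⟨g, U, hg, hU, hc⟩ := h s hs
    obtain ⟨g', U', hg', hU', hc'⟩ := h t ht
    have c1 : Convex ℝ (connectedComponentIn (S \ D) s) := hg ▸ hc.affine_image g.toAffineMap
    have c2 : Convex ℝ (connectedComponentIn (S \ D) t) := hg' ▸ hc'.affine_image g'.toAffineMap
    rw [c1.convexHull_eq, c2.convexHull_eq] at hmeet
    obtain ⟨x, hx1, hx2⟩ := hmeet
    rw [connectedComponentIn_eq hx1, ← connectedComponentIn_eq hx2]
    exact mem_connectedComponentIn ht
  · exact fun _ _ _ _ _ _ _ h => h.elim
  · intro s hs t ht hne hmeet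
    exfalso
    apply hne
    rw [hvis] at hmeet
    obtain ⟨g, U, hg, hU, hc⟩ := h s hs
    have c1 : Convex ℝ (connectedComponentIn (S \ D) s) := hg ▸ hc.affine_image g.toAffineMap
    rwa [c1.convexHull_eq] at hmeet

end Pool.Agent.SeamS
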