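import Pool.Agent.Hhelper79.SeamP.Geo

/-!
# Arrangements of planes in space (module D1, MP_6cce73_lc)

For a finite set `A` of affine functions on space, `Cls A x` is the set of points with the same signs as
`x`. A set is `A`-measurable if it is a union of sign classes.
-/

set_option autoImplicit false

namespace Pool.Agent.SeamS

open Set Filter Topology Metric Pool.Agent.Hhelper79.Seam

/-- same signs for all functions of `A` -/
def SameSign (A : Set (E3 →ᵃ[ℝ] ℝ)) (x y : E3) : Prop :=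
  ∀ a ∈ A, SignType.sign (a x) = SignType.sign (a y)

/-- the sign class of `x` -/
def Cls (A : Set (E3 →ᵃ[ℝ] ℝ)) (x : E3) : Set E3 := {y | SameSign A x y}

/-- unions of sign classes -/
def Meas (A : Set (E3 →ᵃ[ℝ] ℝ)) (X : Set E3) : Prop := ∀ x y, SameSign A x y → x ∈ X → y ∈ X

theorem SameSign.symm {A : Set (E3 →ᵃ[ℝ] ℝ)} {x y : E3} (h : SameSign A x y) : SameSign A y x :=
  fun a ha => (h a ha).symm

theorem SameSign.trans {A : Set (E3 →ᵃ[ℝ] ℝ)} {x y z : E3} (h : SameSign A x y)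
    (h' : SameSign A y z) : SameSign A x z := fun a ha => (h a ha).trans (h' a ha)

theorem SameSign.rfl' (A : Set (E3 →ᵃ[ℝ] ℝ)) (x : E3) : SameSign A x x := fun _ _ => rfl

theorem SameSign.mono {A B : Set (E3 →ᵃ[ℝ] ℝ)} (hAB : A ⊆ B) {x y : E3} (h : SameSign B x y) :
    SameSign A x y := fun a ha => h a (hAB ha)

theorem Meas.mono {A B : Set (E3 →ᵃ[ℝ] ℝ)} (hAB : A ⊆ B) {X : Set E3} (h : Meas A X) :
    Meas B X := fun x y hxy hx => h x y (hxy.mono hAB) hx

theorem Meas.compl {A : Set (E3 →ᵃ[ℝ] ℝ)} {X : Set E3} (h : Meas A X) : Meas A Xᶜ :=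
  fun x y hxy hx hy => hx (h y x hxy.symm hy)

theorem Meas.inter {A : Set (E3 →ᵃ[ℝ] ℝ)} {X Y : Set E3} (h : Meas A X) (h' : Meas A Y) :
    Meas A (X ∩ Y) := fun x y hxy hx => ⟨h x y hxy hx.1, h' x y hxy hx.2⟩

theorem Meas.union {A : Set (E3 →ᵃ[ℝ] ℝ)} {X Y : Set E3} (h : Meas A X) (h' : Meas A Y) :
    Meas A (X ∪ Y) := fun x y hxy hx => hx.imp (h x y hxy) (h' x y hxy)

theorem Meas.iUnion {A : Set (E3 →ᵃ[ℝ] ℝ)} {ι : Sort*} {X : ι → Set E3} (h : ∀ i, Meas A (X i)) :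
    Meas A (⋃ i, X i) := by
  intro x y hxy hx
  obtain ⟨i, hi⟩ := mem_iUnion.1 hx
  exact mem_iUnion.2 ⟨i, h i x y hxy hi⟩

theorem meas_cls (A : Set (E3 →ᵃ[ℝ] ℝ)) (x : E3) : Meas A (Cls A x) :=
  fun _ _ hyz hy => SameSign.trans hy hyz

theorem mem_cls (A : Set (E3 →ᵃ[ℝ] ℝ)) (x : E3) : x ∈ Cls A x := SameSign.rfl' A x

theorem cls_eq {A : Set (E3 →ᵃ[ℝ] ℝ)} {x y : E3} (h : SameSign A x y) : Cls A x = Cls A y := by
  ext z
  exact ⟨fun hz => h.symm.trans hz, fun hz => h.trans hz⟩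

theorem cls_eq_of_mem {A : Set (E3 →ᵃ[ℝ] ℝ)} {x y z : E3} (h : z ∈ Cls A x) (h' : z ∈ Cls A y) :
    Cls A x = Cls A y := cls_eq (SameSign.trans h (SameSign.symm h'))

/-- there are finitely many sign classes -/
theorem finite_classes {A : Set (E3 →ᵃ[ℝ] ℝ)} (hA : A.Finite) : (range (Cls A)).Finite := by
  classical
  have : Finite A := hA
  have h : range (Cls A) ⊆ range fun σ : A → SignType =>
      {y | ∀ a : A, σ a = SignType.sign (a.1 y)} := by
    rintro _ ⟨x, rfl⟩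
    refine ⟨fun a => SignType.sign (a.1 x), ?_⟩
    ext y
    simp only [mem_ofPred_eq, Cls, SameSign, Subtype.forall]
  exact (Set.finite_range _).subset h

theorem aff3_lineMap (a : E3 →ᵃ[ℝ] ℝ) (x y : E3) (r : ℝ) :
    a (AffineMap.lineMap x y r) = (1 - r) * a x + r * a y := by
  rw [a.apply_lineMap, AffineMap.lineMap_apply_module]
  simp [smul_eq_mul]

theorem sign_lineMap {s t : ℝ} (h : SignType.sign s = SignType.sign t) {r : ℝ} (h0 : 0 ≤ r)
    (h1 : r ≤ 1) : SignType.sign ((1 - r) * s + r * t) = SignType.sign s := by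
  rcases lt_trichotomy s 0 with hs | hs | hs
  · rw [sign_neg hs] at h ⊢
    have ht : t < 0 := sign_eq_neg_one_iff.1 h.symm
    rw [sign_eq_neg_one_iff]
    rcases h0.eq_or_lt with h0 | h0
    · rw [← h0]
      linarith
    · have h2 : r * t < 0 := mul_neg_of_pos_of_neg h0 ht
      have h3 : (1 - r) * s ≤ 0 := mul_nonpos_of_nonneg_of_nonpos (by linarith) hs.le
      linarith
  · rw [hs, sign_zero] at h ⊢
    have ht : t = 0 := sign_eq_zero_iff.1 h.symm
    rw [ht]
    simp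
  · rw [sign_pos hs] at h ⊢
    have ht : 0 < t := sign_eq_one_iff.1 h.symm
    rw [sign_eq_one_iff]
    rcases h0.eq_or_lt with h0 | h0
    · rw [← h0]
      linarith
    · have h2 : 0 < r * t := mul_pos h0 ht
      have h3 : 0 ≤ (1 - r) * s := mul_nonneg (by linarith) hs.le
      linarith

theorem convex_cls (A : Set (E3 →ᵃ[ℝ] ℝ)) (x : E3) : Convex ℝ (Cls A x) := by
  rw [convex_iff_segment_subset]
  rintro y hy z hz w hw
  rw [segment_eq_image_lineMap] at hw
  obtain ⟨r, ⟨h0, h1⟩, rfl⟩ := hw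
  intro a ha
  rw [aff3_lineMap, sign_lineMap _ h0 h1]
  · exact hy a ha
  · exact (hy a ha).symm.trans (hz a ha)

theorem aff3_cont (a : E3 →ᵃ[ℝ] ℝ) : Continuous a := a.continuous_of_finiteDimensional

/-- the signs of the functions which do not vanish at `x` are constant near `x` -/
theorem eventually_sign {A : Set (E3 →ᵃ[ℝ] ℝ)} (hA : A.Finite) (x : E3) :
    ∀ᶠ y in 𝓝 x, ∀ a ∈ A, a x ≠ 0 → SignType.sign (a y) = SignType.sign (a x) := by
  rw [Filter.eventually_all_finite hA]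
  intro a _
  by_cases h : a x = 0
  · exact Filter.Eventually.of_forall fun y h' => absurd h h'
  · rcases lt_or_gt_of_ne h with h | h
    · filter_upwards [(aff3_cont a).continuousAt.eventually (gt_mem_nhds h)] with y hy _
      rw [sign_neg h, sign_neg hy]
    · filter_upwards [(aff3_cont a).continuousAt.eventually (lt_mem_nhds h)] with y hy _
      rw [sign_pos h, sign_pos hy]

/-- classes consisting of one point -/
def Vert (A : Set (E3 →ᵃ[ℝ] ℝ)) : Set E3 := {x | Cls A x = {x}}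

theorem finite_vert {A : Set (E3 →ᵃ[ℝ] ℝ)} (hA : A.Finite) : (Vert A).Finite := by
  apply Set.Finite.of_finite_image (f := Cls A)
  · exact (finite_classes hA).subset (image_subset_range _ _)
  · intro x hx y hy hxy
    have h1 : Cls A x = {x} := hx
    have h2 : Cls A y = {y} := hy
    rw [h1, h2] at hxy
    exact Set.singleton_injective hxy

theorem exists_other {A : Set (E3 →ᵃ[ℝ] ℝ)} {x : E3} (hx : x ∉ Vert A) :
    ∃ y ∈ Cls A x, y ≠ x := by
  by_contra hcon
  push Not at hcon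
  apply hx
  exact Set.eq_singleton_iff_unique_mem.2 ⟨mem_cls A x, hcon⟩

/-! ### Retraction onto a placed plane -/

/-- the linear part of a placement is an isometric linear map -/
theorem norm_linear (g : E2 →ᵃⁱ[ℝ] E3) (v : E2) : ‖g.toAffineMap.linear v‖ = ‖v‖ :=
  g.norm_map v

/-- coordinates in the plane of `g` -/
noncomputable def ret (g : E2 →ᵃⁱ[ℝ] E3) : E3 →ᵃ[ℝ] E2 :=
  (((g.linearIsometry.toContinuousLinearMap).adjoint : E3 →L[ℝ] E2) : E3 →ₗ[ℝ] E2).toAffineMap.comp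
    (AffineMap.id ℝ E3 - AffineMap.const ℝ E3 (g 0))

theorem ret_apply (g : E2 →ᵃⁱ[ℝ] E3) (x : E3) :
    ret g x = (g.linearIsometry.toContinuousLinearMap).adjoint (x - g 0) := rfl

theorem g_sub (g : E2 →ᵃⁱ[ℝ] E3) (u : E2) : g u - g 0 = g.linearIsometry u := by
  have h := g.map_vsub u 0
  simpa using h.symm

theorem ret_self (g : E2 →ᵃⁱ[ℝ] E3) (u : E2) : ret g (g u) = u := by
  rw [ret_apply, g_sub]
  refine ext_inner_right ℝ fun v => ?_
  rw [ContinuousLinearMap.adjoint_inner_left]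
  exact g.linearIsometry.inner_map_map u v

/-- a function which vanishes exactly on the plane of `g` -/
theorem exists_plane (g : E2 →ᵃⁱ[ℝ] E3) :
    ∃ a : E3 →ᵃ[ℝ] ℝ, ∀ x, a x = 0 ↔ x ∈ range g := by
  set K : Submodule ℝ E3 := LinearMap.range g.linearIsometry.toLinearMap with hK
  have hdim : Module.finrank ℝ K = 2 := by
    rw [hK, LinearMap.finrank_range_of_inj g.linearIsometry.injective]
    simp
  have hdim2 : Module.finrank ℝ Kᗮ = 1 := by
    have h := Submodule.finrank_add_finrank_orthogonal K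
    rw [hdim] at h
    simp at h
    omega
  obtain ⟨⟨n, hnK⟩, hn0, hn⟩ := finrank_eq_one_iff'.1 hdim2
  have hn0' : n ≠ 0 := by
    intro h
    apply hn0
    exact Subtype.ext h
  refine ⟨((innerₛₗ ℝ n : E3 →ₗ[ℝ] ℝ).toAffineMap).comp
    (AffineMap.id ℝ E3 - AffineMap.const ℝ E3 (g 0)), fun x => ?_⟩
  have hval : (((innerₛₗ ℝ n : E3 →ₗ[ℝ] ℝ).toAffineMap).comp
    (AffineMap.id ℝ E3 - AffineMap.const ℝ E3 (g 0))) x = inner ℝ n (x - g 0) := rfl
  rw [hval]
  constructor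
  · intro h
    have h1 : x - g 0 ∈ Kᗮᗮ := by
      rw [Submodule.mem_orthogonal]
      intro v hv
      obtain ⟨c, hc⟩ := hn ⟨v, hv⟩
      have hc' : c • n = v := congrArg Subtype.val hc
      rw [← hc', inner_smul_left, h]
      simp
    rw [Submodule.orthogonal_orthogonal] at h1
    obtain ⟨u, hu⟩ := h1
    refine ⟨u, ?_⟩
    have h2 := g_sub g u
    have h3 : g.linearIsometry u = x - g 0 := hu
    rw [h3] at h2
    exact sub_left_injective h2
  · rintro ⟨u, rfl⟩
    rw [g_sub]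
    rw [Submodule.mem_orthogonal] at hnK
    have := hnK (g.linearIsometry u) ⟨u, rfl⟩
    rw [real_inner_comm]
    exact this

/-! ### The arrangement in the coordinates of a placed plane -/

/-- `u` is a generic point of the plane of `g`: a function of `A` which vanishes there vanishes on the
whole plane -/
def Gen (A : Set (E3 →ᵃ[ℝ] ℝ)) (g : E2 →ᵃⁱ[ℝ] E3) (u : E2) : Prop :=
  ∀ a ∈ A, a (g u) = 0 → ∀ v, a (g v) = 0

/-- the sign class of `g u` in the coordinates of `g` -/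
def OO (A : Set (E3 →ᵃ[ℝ] ℝ)) (g : E2 →ᵃⁱ[ℝ] E3) (u : E2) : Set E2 := {v | SameSign A (g u) (g v)}

theorem mem_OO_self (A : Set (E3 →ᵃ[ℝ] ℝ)) (g : E2 →ᵃⁱ[ℝ] E3) (u : E2) : u ∈ OO A g u :=
  SameSign.rfl' A _

theorem OO_eq_preimage (A : Set (E3 →ᵃ[ℝ] ℝ)) (g : E2 →ᵃⁱ[ℝ] E3) (u : E2) :
    OO A g u = g ⁻¹' Cls A (g u) := rfl

theorem convex_OO (A : Set (E3 →ᵃ[ℝ] ℝ)) (g : E2 →ᵃⁱ[ℝ] E3) (u : E2) : Convex ℝ (OO A g u) :=
  (convex_cls A (g u)).affine_preimage g.toAffineMap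

theorem Gen.isOpen {A : Set (E3 →ᵃ[ℝ] ℝ)} (hA : A.Finite) {g : E2 →ᵃⁱ[ℝ] E3} {u : E2}
    (h : Gen A g u) : IsOpen (OO A g u) := by
  rw [isOpen_iff_mem_nhds]
  intro v hv
  have h1 := g.continuous.continuousAt.eventually (eventually_sign hA (g v))
  filter_upwards [h1] with w hw a ha
  by_cases h0 : a (g v) = 0
  · have h2 : a (g u) = 0 := by
      have h3 := hv a ha
      rw [h0, sign_zero, sign_eq_zero_iff] at h3
      exact h3
    rw [h2, h a ha h2 w]
  · rw [hw a ha h0]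
    exact hv a ha

/-- `A` contains a function which vanishes exactly on the plane of `g` -/
def Plane (A : Set (E3 →ᵃ[ℝ] ℝ)) (g : E2 →ᵃⁱ[ℝ] E3) : Prop := ∃ a ∈ A, ∀ x, a x = 0 ↔ x ∈ range g

theorem Plane.mem_range {A : Set (E3 →ᵃ[ℝ] ℝ)} {g : E2 →ᵃⁱ[ℝ] E3} (h : Plane A g) {x y : E3}
    (hxy : SameSign A x y) (hx : x ∈ range g) : y ∈ range g := by
  obtain ⟨a, ha, h⟩ := h
  rw [← h] at hx ⊢
  have := hxy a ha
  rw [hx, sign_zero] at this
  exact sign_eq_zero_iff.1 this.symm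

theorem Plane.cls_eq_image {A : Set (E3 →ᵃ[ℝ] ℝ)} {g : E2 →ᵃⁱ[ℝ] E3} (h : Plane A g) (u : E2) :
    Cls A (g u) = g '' OO A g u := by
  ext y
  constructor
  · intro hy
    obtain ⟨v, rfl⟩ := h.mem_range hy (mem_range_self u)
    exact ⟨v, hy, rfl⟩
  · rintro ⟨v, hv, rfl⟩
    exact hv

/-- the closed cell -/
def CO (A : Set (E3 →ᵃ[ℝ] ℝ)) (g : E2 →ᵃⁱ[ℝ] E3) (u : E2) : Set E2 :=
  {v | ∀ a ∈ A, a (g u) ≠ 0 → 0 ≤ a (g u) * a (g v)}

theorem mul_nonneg_of_sign {s t : ℝ} (h : SignType.sign s = SignType.sign t) : 0 ≤ s * t := by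
  rcases lt_trichotomy s 0 with hs | hs | hs
  · rw [sign_neg hs] at h
    exact (mul_pos_of_neg_of_neg hs (sign_eq_neg_one_iff.1 h.symm)).le
  · rw [hs, zero_mul]
  · rw [sign_pos hs] at h
    exact (mul_pos hs (sign_eq_one_iff.1 h.symm)).le

theorem sign_of_mul_pos {s t : ℝ} (h : 0 < s * t) : SignType.sign s = SignType.sign t := by
  rcases lt_trichotomy s 0 with hs | hs | hs
  · rw [sign_neg hs, sign_neg (neg_of_mul_pos_right h hs.le)]
  · rw [hs, zero_mul] at h
    exact absurd h (lt_irrefl _)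
  · rw [sign_pos hs, sign_pos (pos_of_mul_pos_right h hs.le)]

theorem isClosed_CO (A : Set (E3 →ᵃ[ℝ] ℝ)) (g : E2 →ᵃⁱ[ℝ] E3) (u : E2) : IsClosed (CO A g u) := by
  have h : CO A g u = ⋂ a ∈ A, ⋂ (_ : a (g u) ≠ 0), {v | 0 ≤ a (g u) * a (g v)} := by
    ext v
    simp [CO]
  rw [h]
  refine isClosed_iInter fun a => isClosed_iInter fun _ => isClosed_iInter fun _ => ?_
  exact isClosed_le continuous_const
    (continuous_const.mul ((aff3_cont a).comp g.continuous))

theorem OO_subset_CO (A : Set (E3 →ᵃ[ℝ] ℝ)) (g : E2 →ᵃⁱ[ℝ] E3) (u : E2) : OO A g u ⊆ CO A g u :=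
  fun _ hv a ha _ => mul_nonneg_of_sign (hv a ha)

theorem affg_lineMap (a : E3 →ᵃ[ℝ] ℝ) (g : E2 →ᵃⁱ[ℝ] E3) (x y : E2) (r : ℝ) :
    a (g (AffineMap.lineMap x y r)) = (1 - r) * a (g x) + r * a (g y) := by
  rw [← aff3_lineMap]
  congr 1
  exact g.toAffineMap.apply_lineMap x y r

/-- points between the centre and a point of the closed cell are in the open cell -/
theorem Gen.lineMap_mem {A : Set (E3 →ᵃ[ℝ] ℝ)} {g : E2 →ᵃⁱ[ℝ] E3} {u : E2} (h : Gen A g u)
    {v : E2} (hv : v ∈ CO A g u) {r : ℝ} (h0 : 0 ≤ r) (h1 : r < 1) :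
    AffineMap.lineMap u v r ∈ OO A g u := by
  intro a ha
  rw [affg_lineMap]
  by_cases h2 : a (g u) = 0
  · rw [h2, h a ha h2 v]
    simp
  · apply sign_of_mul_pos
    have h3 := hv a ha h2
    have h4 : 0 < a (g u) * a (g u) := mul_self_pos.2 h2
    have h5 : 0 < (1 - r) * (a (g u) * a (g u)) := mul_pos (by linarith) h4
    have h6 : 0 ≤ r * (a (g u) * a (g v)) := mul_nonneg h0 h3
    nlinarith

theorem Gen.closure_OO {A : Set (E3 →ᵃ[ℝ] ℝ)} {g : E2 →ᵃⁱ[ℝ] E3} {u : E2} (h : Gen A g u) :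
    closure (OO A g u) = CO A g u := by
  apply Set.Subset.antisymm
  · exact closure_minimal (OO_subset_CO A g u) (isClosed_CO A g u)
  · intro v hv
    have hc : Continuous fun r : ℝ => (AffineMap.lineMap u v r : E2) :=
      AffineMap.lineMap_continuous
    have h1 : Tendsto (fun r : ℝ => (AffineMap.lineMap u v r : E2)) (𝓝[<] 1) (𝓝 v) := by
      have h2 := hc.tendsto 1
      rw [AffineMap.lineMap_apply_one] at h2
      exact h2.mono_left nhdsWithin_le_nhds
    apply mem_closure_of_tendsto h1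
    have h3 : ∀ᶠ r : ℝ in 𝓝[<] 1, 0 < r :=
      nhdsWithin_le_nhds (lt_mem_nhds one_pos)
    filter_upwards [h3, self_mem_nhdsWithin] with r hr hr1
    exact h.lineMap_mem hv hr.le hr1

/-- the closed cell is a union of sign classes -/
theorem Gen.closure_sameSign {A : Set (E3 →ᵃ[ℝ] ℝ)} {g : E2 →ᵃⁱ[ℝ] E3} {u v w : E2}
    (h : Gen A g u) (hv : v ∈ closure (OO A g u)) (hvw : SameSign A (g v) (g w)) :
    w ∈ closure (OO A g u) := by
  rw [h.closure_OO] at hv ⊢
  intro a ha h0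
  have h1 := hv a ha h0
  rcases h1.eq_or_lt with h2 | h2
  · have h3 : a (g v) = 0 := (mul_eq_zero.1 h2.symm).resolve_left h0
    have h4 := hvw a ha
    rw [h3, sign_zero] at h4
    rw [sign_eq_zero_iff.1 h4.symm, mul_zero]
  · have h3 := (sign_of_mul_pos h2).trans (hvw a ha)
    exact mul_nonneg_of_sign h3

theorem Gen.of_mem {A : Set (E3 →ᵃ[ℝ] ℝ)} {g : E2 →ᵃⁱ[ℝ] E3} {u v : E2}
    (h : Gen A g u) (hv : v ∈ OO A g u) : Gen A g v := by
  intro a ha h0 w
  apply h a ha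
  have h1 := hv a ha
  rw [h0, sign_zero, sign_eq_zero_iff] at h1
  exact h1

/-- functions on the plane as affine functions -/
noncomputable def pull (g : E2 →ᵃⁱ[ℝ] E3) (a : E3 →ᵃ[ℝ] ℝ) : E2 →ᵃ[ℝ] ℝ := a.comp g.toAffineMap

theorem pull_apply (g : E2 →ᵃⁱ[ℝ] E3) (a : E3 →ᵃ[ℝ] ℝ) (v : E2) : pull g a v = a (g v) := rfl

theorem pull_linear_ne {g : E2 →ᵃⁱ[ℝ] E3} {a : E3 →ᵃ[ℝ] ℝ} {u v : E2} (hu : a (g u) = 0)
    (hv : a (g v) ≠ 0) : (pull g a).linear ≠ 0 := by
  intro h0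
  apply hv
  have h1 := Pool.Agent.Hhelper79.SeamP.aff_sub (pull g a) v u
  rw [h0, LinearMap.zero_apply, pull_apply, pull_apply, hu, sub_zero] at h1
  exact h1

/-- generic points are dense -/
theorem exists_gen {A : Set (E3 →ᵃ[ℝ] ℝ)} (hA : A.Finite) (g : E2 →ᵃⁱ[ℝ] E3) {G : Set E2}
    (hG : IsOpen G) (hne : G.Nonempty) : ∃ u ∈ G, Gen A g u := by
  classical
  set T : Finset (Set E2) := (hA.toFinset.filter fun a => ∃ v, a (g v) ≠ 0).image
    fun a => {v | a (g v) = 0} with hT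
  obtain ⟨u, hu, hu2⟩ := exists_outside hG hne T
    (by
      intro t ht
      obtain ⟨a, -, rfl⟩ := Finset.mem_image.1 ht
      exact isClosed_eq ((aff3_cont a).comp g.continuous) continuous_const)
    (by
      intro t ht
      obtain ⟨a, ha, rfl⟩ := Finset.mem_image.1 ht
      obtain ⟨-, v, hv⟩ := Finset.mem_filter.1 ha
      rw [eq_empty_iff_forall_notMem]
      intro w hw
      have hw1 : w ∈ {v | a (g v) = 0} := interior_subset hw
      have hw0 : a (g w) = 0 := hw1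
      obtain ⟨r, hr, hball⟩ := Metric.mem_nhds_iff.1 (mem_interior_iff_mem_nhds.1 hw)
      obtain ⟨x, hx, hx2⟩ := Pool.Agent.Hhelper79.SeamP.exists_pos
        (pull_linear_ne hw0 hv) w hr
      rw [pull_apply, pull_apply, hw0] at hx2
      have h3 : a (g x) = 0 := hball hx
      linarith)
  refine ⟨u, hu, fun a ha h0 v => ?_⟩
  by_contra hv
  apply hu2 {v | a (g v) = 0}
  · rw [hT, Finset.mem_image]
    exact ⟨a, Finset.mem_filter.2 ⟨hA.mem_toFinset.2 ha, v, hv⟩, rfl⟩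
  · exact h0

/-- the cell near a boundary point which is not a vertex: a half disc -/
theorem Gen.local_structure {A : Set (E3 →ᵃ[ℝ] ℝ)} (hA : A.Finite) {g : E2 →ᵃⁱ[ℝ] E3} {u v : E2}
    (h : Gen A g u) (hP : Plane A g) (hv : v ∈ closure (OO A g u)) (hvert : g v ∉ Vert A)
    (hvo : v ∉ OO A g u) :
    ∃ l : E2 →ᵃ[ℝ] ℝ, l.linear ≠ 0 ∧ (∀ w, SameSign A (g v) (g w) → l w = 0) ∧
      ∀ᶠ w in 𝓝 v, (w ∈ OO A g u ↔ 0 < l w) := by
  rw [h.closure_OO] at hv
  -- another point of the class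
  obtain ⟨y, hy, hyv⟩ := exists_other hvert
  obtain ⟨v', rfl⟩ := hP.mem_range hy (mem_range_self v)
  have hne : v ≠ v' := by
    rintro rfl
    exact hyv rfl
  -- an active function
  have hact : ∃ b ∈ A, b (g u) ≠ 0 ∧ b (g v) = 0 := by
    by_contra hcon
    push Not at hcon
    apply hvo
    intro a ha
    by_cases h0 : a (g u) = 0
    · rw [h0, h a ha h0 v]
    · apply sign_of_mul_pos
      exact lt_of_le_of_ne (hv a ha h0) (Ne.symm (mul_ne_zero h0 (hcon a ha h0)))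
  obtain ⟨b, hb, hbu, hbv⟩ := hact
  have hzero : ∀ a ∈ A, a (g v) = 0 → a (g v') = 0 := by
    intro a ha h0
    have := hy a ha
    rw [h0, sign_zero] at this
    exact sign_eq_zero_iff.1 this.symm
  have hbl : (pull g b).linear ≠ 0 := pull_linear_ne hbv hbu
  refine ⟨b (g u) • pull g b, ?_, ?_, ?_⟩
  · intro h0
    rw [AffineMap.smul_linear] at h0
    exact hbl ((smul_eq_zero.1 h0).resolve_left hbu)
  · intro w hw
    have h1 := hw b hb
    rw [hbv, sign_zero] at h1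
    have h2 : b (g w) = 0 := sign_eq_zero_iff.1 h1.symm
    have hval : (b (g u) • pull g b) w = b (g u) * b (g w) := rfl
    rw [hval, h2, mul_zero]
  · have h1 := g.continuous.continuousAt.eventually (eventually_sign hA (g v))
    filter_upwards [h1] with w hw
    have hval : (b (g u) • pull g b) w = b (g u) * b (g w) := rfl
    rw [hval]
    constructor
    · intro hwO
      exact lt_of_le_of_ne (mul_nonneg_of_sign (hwO b hb)) (Ne.symm (mul_ne_zero hbu (by
        intro h0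
        have h2 := hwO b hb
        rw [h0, sign_zero, sign_eq_zero_iff] at h2
        exact hbu h2)))
    · intro hpos a ha
      by_cases h0 : a (g u) = 0
      · rw [h0, h a ha h0 w]
      · by_cases h2 : a (g v) = 0
        · -- `a` is a multiple of `b`
          obtain ⟨c, hc, hab⟩ := Pool.Agent.Hhelper79.SeamP.proportional hbl
            (pull_linear_ne h2 h0) hne hbv (hzero b hb hbv) h2 (hzero a ha h2)
          have e1 : a (g u) = c * b (g u) := hab u
          have e2 : a (g w) = c * b (g w) := hab w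
          apply sign_of_mul_pos
          rw [e1, e2]
          have h3 : 0 < c * c := mul_self_pos.2 hc
          have h4 : 0 < (c * c) * (b (g u) * b (g w)) := mul_pos h3 hpos
          linarith
        · rw [hw a ha h2]
          exact sign_of_mul_pos (lt_of_le_of_ne (hv a ha h0) (Ne.symm (mul_ne_zero h0 h2)))

end Pool.Agent.SeamS
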