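import Pool.Agent.SeamS.Plates

/-!
# The cells of a stacking (module D3, MP_6cce73_lc)
-/

set_option autoImplicit false

namespace Pool.Agent.SeamS

open Set Filter Topology Metric Pool.Agent.Hhelper79.Seam

/-- the two-dimensional open cells of the arrangement contained in `S` -/
def IsCl (A : Set (E3 →ᵃ[ℝ] ℝ)) (S : Set E3) (c : Set E3) : Prop :=
  ∃ (g : E2 →ᵃⁱ[ℝ] E3) (u : E2), Plane A g ∧ Gen A g u ∧ g u ∈ S ∧ c = Cls A (g u)

/-- `p` is a point of the boundary of the cell `c` which is not a vertex -/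
def EdgePt (A : Set (E3 →ᵃ[ℝ] ℝ)) (c : Set E3) (p : E3) : Prop :=
  p ∈ closure c ∧ p ∉ c ∧ p ∉ Vert A

theorem exists_transition {g g' : E2 →ᵃⁱ[ℝ] E3} (h : range g ⊆ range g') :
    ∃ φ : E2 →ᵃⁱ[ℝ] E2, ∀ v, g v = g' (φ v) := by
  have key : ∀ v, g' (ret g' (g v)) = g v := by
    intro v
    obtain ⟨w, hw⟩ := h (mem_range_self v)
    rw [← hw, ret_self]
  let F : E2 →ᵃ[ℝ] E2 := (ret g').comp g.toAffineMap
  have hF : ∀ v, F v = ret g' (g v) := fun v => rfl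
  refine ⟨{ toAffineMap := F, norm_map := ?_ }, fun v => (key v).symm⟩
  intro v
  have h1 : F.linear v = F v - F 0 := by
    have := F.linearMap_vsub v 0
    simpa using this
  rw [h1, ← dist_eq_norm, ← g'.dist_map, hF, hF, key, key, g.dist_map, dist_zero_right]

theorem Gen.change {A : Set (E3 →ᵃ[ℝ] ℝ)} {g g' : E2 →ᵃⁱ[ℝ] E3} {u : E2} (h : Gen A g u)
    (hP' : Plane A g') (hx : g u ∈ range g') : ∃ u', g' u' = g u ∧ Gen A g' u' := by
  obtain ⟨n, hn, hn0⟩ := hP'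
  have h1 := h n hn ((hn0 _).2 hx)
  have h2 : range g ⊆ range g' := by
    rintro _ ⟨v, rfl⟩
    exact (hn0 _).1 (h1 v)
  obtain ⟨φ, hφ⟩ := exists_transition h2
  refine ⟨φ u, (hφ u).symm, fun a ha h0 w => ?_⟩
  obtain ⟨v, rfl⟩ := Pool.Agent.Hhelper79.SeamP.iso_surj φ w
  rw [← hφ] at h0 ⊢
  exact h a ha h0 v

theorem IsCl.rep {A : Set (E3 →ᵃ[ℝ] ℝ)} {S c : Set E3} (hc : IsCl A S c) {x : E3} (hx : x ∈ c)
    {g' : E2 →ᵃⁱ[ℝ] E3} (hP' : Plane A g') (hxg : x ∈ range g') :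
    ∃ v, g' v = x ∧ Gen A g' v ∧ c = Cls A (g' v) := by
  obtain ⟨g, u, hP, hgen, -, rfl⟩ := hc
  obtain ⟨w, rfl⟩ := hP.mem_range hx (mem_range_self u)
  have h1 : Gen A g w := hgen.of_mem hx
  obtain ⟨v, hv, hv2⟩ := h1.change hP' hxg
  exact ⟨v, hv, hv2, by rw [hv]; exact cls_eq hx⟩

theorem isClosed_range_iso (g : E2 →ᵃⁱ[ℝ] E3) : IsClosed (range g) :=
  g.isometry.isClosedEmbedding.isClosed_range

theorem Plane.closure_cls {A : Set (E3 →ᵃ[ℝ] ℝ)} {g : E2 →ᵃⁱ[ℝ] E3} (h : Plane A g) (u : E2) :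
    closure (Cls A (g u)) = g '' closure (OO A g u) := by
  rw [h.cls_eq_image u]
  exact (g.isometry.isClosedEmbedding.closure_image_eq _)

theorem IsCl.disjoint {A : Set (E3 →ᵃ[ℝ] ℝ)} (hA : A.Finite) {S c c' : Set E3} (hc : IsCl A S c)
    (hc' : IsCl A S c') (hne : c ≠ c') : Disjoint c (closure c') := by
  rw [Set.disjoint_left]
  intro x hx hx'
  obtain ⟨g', u', hP', hgen', -, rfl⟩ := hc'
  rw [hP'.closure_cls] at hx'
  obtain ⟨v, hv, rfl⟩ := hx'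
  obtain ⟨v', hv', hgen, rfl⟩ := hc.rep hx hP' (mem_range_self v)
  obtain rfl := g'.injective hv'
  have h1 : OO A g' v' ∈ 𝓝 v' := (hgen.isOpen hA).mem_nhds (mem_OO_self A g' v')
  obtain ⟨w, hw, hw'⟩ := _root_.mem_closure_iff_nhds.1 hv _ h1
  exact hne (cls_eq_of_mem (z := g' w) hw hw')

theorem IsCl.meas_closure {A : Set (E3 →ᵃ[ℝ] ℝ)} {S c : Set E3} (hc : IsCl A S c) :
    Meas A (closure c) := by
  obtain ⟨g, u, hP, hgen, -, rfl⟩ := hc
  intro x y hxy hx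
  rw [hP.closure_cls] at hx ⊢
  obtain ⟨v, hv, rfl⟩ := hx
  obtain ⟨w, rfl⟩ := hP.mem_range hxy (mem_range_self v)
  exact ⟨w, hgen.closure_sameSign hv hxy, rfl⟩

theorem IsCl.meas {A : Set (E3 →ᵃ[ℝ] ℝ)} {S c : Set E3} (hc : IsCl A S c) : Meas A c := by
  obtain ⟨g, u, -, -, -, rfl⟩ := hc
  exact meas_cls A _

theorem IsCl.nonempty {A : Set (E3 →ᵃ[ℝ] ℝ)} {S c : Set E3} (hc : IsCl A S c) : c.Nonempty := by
  obtain ⟨g, u, -, -, -, rfl⟩ := hc
  exact ⟨_, mem_cls A _⟩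

theorem IsCl.subset {A : Set (E3 →ᵃ[ℝ] ℝ)} {S c : Set E3} (hc : IsCl A S c) (hm : Meas A S) :
    c ⊆ S := by
  obtain ⟨g, u, -, -, hS, rfl⟩ := hc
  exact fun x hx => hm _ _ hx hS

theorem IsCl.subset_of_mem {A : Set (E3 →ᵃ[ℝ] ℝ)} {S c : Set E3} (hc : IsCl A S c) {X : Set E3}
    (hm : Meas A X) {x : E3} (hx : x ∈ c) (hxX : x ∈ X) : c ⊆ X := by
  obtain ⟨g, u, -, -, hS, rfl⟩ := hc
  exact fun y hy => hm _ _ (SameSign.trans (SameSign.symm hx) hy) hxX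

theorem finite_cells {A : Set (E3 →ᵃ[ℝ] ℝ)} (hA : A.Finite) (S : Set E3) :
    {c | IsCl A S c}.Finite := by
  refine (finite_classes hA).subset ?_
  rintro _ ⟨g, u, -, -, -, rfl⟩
  exact mem_range_self _

theorem EdgePt.congr {A : Set (E3 →ᵃ[ℝ] ℝ)} {S c : Set E3} (hc : IsCl A S c) {p p' : E3}
    (h : EdgePt A c p) (hp : SameSign A p p') : EdgePt A c p' := by
  refine ⟨hc.meas_closure _ _ hp h.1, fun h' => h.2.1 (hc.meas _ _ hp.symm h'), fun h' => ?_⟩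
  have h1 : Cls A p' = {p'} := h'
  have h2 : p ∈ Cls A p' := hp.symm
  rw [h1] at h2
  have h3 : p = p' := h2
  rw [← h3] at h'
  exact h.2.2 h'

/-- infinitely many admissible edge points: the class of `p` contains an open segment -/
theorem EdgePt.infinite {A : Set (E3 →ᵃ[ℝ] ℝ)} {c : Set E3} {p : E3} (h : EdgePt A c p) :
    (Cls A p).Infinite := by
  obtain ⟨q, hq, hqp⟩ := exists_other h.2.2
  have hinj : Function.Injective (fun t : ℝ => (AffineMap.lineMap p q t : E3)) :=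
    AffineMap.lineMap_injective ℝ (Ne.symm hqp)
  have h1 : (fun t : ℝ => (AffineMap.lineMap p q t : E3)) '' Icc 0 1 ⊆ Cls A p := by
    rintro _ ⟨t, ht, rfl⟩
    have h2 := (convex_cls A p).segment_subset (mem_cls A p) hq
    apply h2
    rw [segment_eq_image_lineMap]
    exact mem_image_of_mem _ ht
  exact ((Set.Icc_infinite zero_lt_one).image hinj.injOn).mono h1

/-- everything of interest is a union of sign classes of `A` -/
structure Arrg {S D : Set E3} {m : ℕ} (Pl : PlateSys S D m) (A : Set (E3 →ᵃ[ℝ] ℝ)) : Prop where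
  fin : A.Finite
  mS : Meas A S
  pS : ∃ T : Set (Set E2 × (E2 →ᵃⁱ[ℝ] E3)), T.Finite ∧ (∀ t ∈ T, IsPoly2 t.1 ∧ Plane A t.2) ∧
    S = ⋃ t ∈ T, t.2 '' t.1
  pT : ∀ k, Plane A (Pl.T k)
  mK : ∀ k, Meas A (Pl.T k '' Pl.K k)
  mI : ∀ k, Meas A (Pl.T k '' interior (Pl.K k))
  mU : ∀ k, Meas A (Pl.T k '' Pl.U k)

theorem Plane.mono {A B : Set (E3 →ᵃ[ℝ] ℝ)} (hAB : A ⊆ B) {g : E2 →ᵃⁱ[ℝ] E3} (h : Plane A g) :
    Plane B g := by
  obtain ⟨a, ha, h⟩ := h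
  exact ⟨a, hAB ha, h⟩

theorem exists_meas_poly' (g : E2 →ᵃⁱ[ℝ] E3) {C : Set E2} (hC : IsPoly2 C) :
    ∃ A : Set (E3 →ᵃ[ℝ] ℝ), A.Finite ∧ Plane A g ∧ Meas A (g '' C) ∧
      Meas A (g '' interior C) := by
  obtain ⟨n, a, ha, hCa⟩ := Pool.Agent.Hhelper79.SeamP.exists_HSet hC.1 hC.2
  obtain ⟨A1, hA1, hP1, hm1⟩ := exists_meas_poly g hC
  obtain ⟨A2, hA2, hP2, hm2⟩ := exists_meas_coords g (B := range a) (Set.finite_range a)
    (X := interior C) (by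
      intro v w h hv
      rw [hCa, Pool.Agent.Hhelper79.SeamP.interior_HSet ha] at hv ⊢
      intro i
      have h1 := h (a i) (mem_range_self i)
      rw [sign_pos (hv i)] at h1
      exact sign_eq_one_iff.1 h1.symm)
  exact ⟨A1 ∪ A2, hA1.union hA2, hP1.mono subset_union_left, hm1.mono subset_union_left,
    hm2.mono subset_union_right⟩

theorem exists_arrg {S D : Set E3} (hS : Polyhedral S) {m : ℕ} (Pl : PlateSys S D m)
    {A0 : Set (E3 →ᵃ[ℝ] ℝ)} (hA0 : A0.Finite) (hmS : Meas A0 S)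
    (hmU : ∀ k, Meas A0 (Pl.T k '' Pl.U k)) : ∃ A, A0 ⊆ A ∧ Arrg Pl A := by
  classical
  obtain ⟨T, hT, hp, hST⟩ := hS
  have hfT : Finite T := hT
  have hp' : ∀ t : T, ∃ (q : Set E2 × (E2 →ᵃⁱ[ℝ] E3)) (B : Set (E3 →ᵃ[ℝ] ℝ)), IsPoly2 q.1 ∧
      t.1 = q.2 '' q.1 ∧ B.Finite ∧ Plane B q.2 := by
    intro t
    obtain ⟨C, g, hC, hg⟩ := hp t.1 t.2
    obtain ⟨B, hB, hP, -⟩ := exists_meas_poly g hC
    exact ⟨(C, g), B, hC, hg, hB, hP⟩
  choose q B hq hqt hB hPB using hp'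
  choose B' hB' hPB' hmK hmI using fun k => exists_meas_poly' (Pl.T k) (Pl.poly k)
  refine ⟨A0 ∪ (⋃ t, B t) ∪ ⋃ k, B' k, fun a ha => Or.inl (Or.inl ha), ?_⟩
  refine { fin := ?_, mS := hmS.mono fun a ha => Or.inl (Or.inl ha), pS := ?_,
           pT := fun k => (hPB' k).mono ?_, mK := fun k => (hmK k).mono ?_,
           mI := fun k => (hmI k).mono ?_,
           mU := fun k => (hmU k).mono fun a ha => Or.inl (Or.inl ha) }
  · exact (hA0.union (Set.finite_iUnion hB)).union (Set.finite_iUnion hB')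
  · refine ⟨range q, Set.finite_range q, ?_, ?_⟩
    · rintro _ ⟨t, rfl⟩
      have hsub : B t ⊆ (A0 ∪ ⋃ t, B t) ∪ ⋃ k, B' k :=
        fun a ha => Or.inl (Or.inr (mem_iUnion.2 ⟨t, ha⟩))
      exact ⟨hq t, (hPB t).mono hsub⟩
    · rw [hST]
      ext x
      constructor
      · rintro ⟨t, ht, hx⟩
        refine mem_iUnion₂.2 ⟨q ⟨t, ht⟩, mem_range_self _, ?_⟩
        rw [← hqt ⟨t, ht⟩]
        exact hx
      · intro hx
        obtain ⟨_, ⟨t, rfl⟩, hx⟩ := mem_iUnion₂.1 hx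
        refine ⟨t.1, t.2, ?_⟩
        rw [hqt t]
        exact hx
  · exact fun a ha => Or.inr (mem_iUnion.2 ⟨k, ha⟩)
  · exact fun a ha => Or.inr (mem_iUnion.2 ⟨k, ha⟩)
  · exact fun a ha => Or.inr (mem_iUnion.2 ⟨k, ha⟩)

theorem IsPoly2.subset_closure_int {C : Set E2} (hC : IsPoly2 C) : C ⊆ closure (interior C) := by
  rw [hC.1.convex.closure_interior_eq_closure_of_nonempty_interior hC.2]
  exact subset_closure

/-- a placed polygon is covered by the closed cells it contains -/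
theorem cover_aux {A : Set (E3 →ᵃ[ℝ] ℝ)} (hA : A.Finite) {S : Set E3} {g : E2 →ᵃⁱ[ℝ] E3}
    (hP : Plane A g) {C : Set E2} (hC : IsPoly2 C) (hCS : g '' C ⊆ S) {x : E3} (hx : x ∈ g '' C)
    {X : Set E3} (hX : ∀ c, IsCl A S c → (∃ u ∈ interior C, g u ∈ c) → closure c ⊆ X)
    (hXc : IsClosed X) : x ∈ X := by
  obtain ⟨v, hv, rfl⟩ := hx
  have hv' := IsPoly2.subset_closure_int hC hv
  rw [← hXc.closure_eq, _root_.mem_closure_iff]
  intro V hV hxV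
  obtain ⟨u, ⟨hu1, hu2⟩, hgen⟩ := exists_gen hA g ((hV.preimage g.continuous).inter isOpen_interior)
    (_root_.mem_closure_iff.1 hv' _ (hV.preimage g.continuous) hxV)
  refine ⟨g u, hu1, hX (Cls A (g u)) ⟨g, u, hP, hgen, hCS (mem_image_of_mem _
    (interior_subset hu2)), rfl⟩ ⟨u, hu2, mem_cls A _⟩ (subset_closure (mem_cls A _))⟩

namespace Arrg

variable {S D : Set E3} {m : ℕ} {Pl : PlateSys S D m} {A : Set (E3 →ᵃ[ℝ] ℝ)}

theorem isClosed_iUnion_closure (h : Arrg Pl A) (P : Set E3 → Prop) :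
    IsClosed (⋃₀ (closure '' {c | IsCl A S c ∧ P c})) := by
  rw [sUnion_eq_biUnion]
  apply Set.Finite.isClosed_biUnion
  · exact ((finite_cells h.fin S).subset fun c hc => hc.1).image _
  · rintro _ ⟨c, -, rfl⟩
    exact isClosed_closure

theorem mem_cover (h : Arrg Pl A) {x : E3} (hx : x ∈ S) : ∃ c, IsCl A S c ∧ x ∈ closure c := by
  obtain ⟨T, hT, hp, hST⟩ := h.pS
  have hx' := hx
  rw [hST] at hx'
  obtain ⟨t, ht, hxt⟩ := mem_iUnion₂.1 hx'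
  have h1 := cover_aux h.fin (S := S) (hp t ht).2 (hp t ht).1 (by
    rw [hST]
    exact subset_biUnion_of_mem (u := fun t : Set E2 × (E2 →ᵃⁱ[ℝ] E3) => t.2 '' t.1) ht) hxt
    (X := ⋃₀ (closure '' {c | IsCl A S c ∧ True})) (fun c hc _ => by
      intro y hy
      exact ⟨closure c, mem_image_of_mem _ ⟨hc, trivial⟩, hy⟩) (h.isClosed_iUnion_closure _)
  obtain ⟨_, ⟨c, hc, rfl⟩, hxc⟩ := h1
  exact ⟨c, hc.1, hxc⟩

theorem isClosed_K (k : Fin m) : IsClosed (Pl.T k '' Pl.K k) :=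
  ((Pl.poly k).1.isCompact.image (Pl.T k).continuous).isClosed

theorem mem_cover_K (h : Arrg Pl A) {k : Fin m} {x : E3} (hx : x ∈ Pl.T k '' Pl.K k) :
    ∃ c, IsCl A S c ∧ c ⊆ Pl.T k '' Pl.K k ∧ x ∈ closure c := by
  have h1 := cover_aux h.fin (S := S) (h.pT k) (Pl.poly k) (Pl.sub k) hx
    (X := ⋃₀ (closure '' {c | IsCl A S c ∧ c ⊆ Pl.T k '' Pl.K k})) (fun c hc hu => by
      intro y hy
      obtain ⟨u, hu, huc⟩ := hu
      refine ⟨closure c, mem_image_of_mem _ ⟨hc, ?_⟩, hy⟩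
      exact hc.subset_of_mem (h.mK k) huc (mem_image_of_mem _ (interior_subset hu)))
      (h.isClosed_iUnion_closure _)
  obtain ⟨_, ⟨c, hc, rfl⟩, hxc⟩ := h1
  exact ⟨c, hc.1, hc.2, hxc⟩

/-- a cell contained in a plate is contained in its interior -/
theorem cell_subset_int (h : Arrg Pl A) {c : Set E3} (hc : IsCl A S c) {k : Fin m}
    (hck : c ⊆ Pl.T k '' Pl.K k) : c ⊆ Pl.T k '' interior (Pl.K k) := by
  obtain ⟨x, hx⟩ := hc.nonempty
  have hxr : x ∈ range (Pl.T k) := by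
    obtain ⟨v, -, rfl⟩ := hck hx
    exact mem_range_self v
  obtain ⟨v, rfl, hgen, rfl⟩ := hc.rep hx (h.pT k) hxr
  rw [(h.pT k).cls_eq_image]
  apply image_mono
  apply interior_maximal _ (hgen.isOpen h.fin)
  intro w hw
  obtain ⟨w', hw', he⟩ := hck (show Pl.T k w ∈ Cls A (Pl.T k v) from hw)
  rwa [(Pl.T k).injective he] at hw'

theorem interior_eq (h : Arrg Pl A) {c : Set E3} (hc : IsCl A S c) {k : Fin m} {x : E3} (hx : x ∈ c)
    (hxk : x ∈ Pl.T k '' Pl.K k) : c ⊆ Pl.T k '' interior (Pl.K k) :=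
  h.cell_subset_int hc (hc.subset_of_mem (h.mK k) hx hxk)

/-- every cell is visible for one plate -/
theorem exists_visible (h : Arrg Pl A)
    (hD : ∃ T : Finset (Set E3), (∀ t ∈ T, ∃ a b : E3, t = segment ℝ a b) ∧ D = ⋃ t ∈ T, t)
    {c : Set E3} (hc : IsCl A S c) : ∃ k, c ⊆ Pl.T k '' Pl.U k := by
  classical
  have hcS := hc.subset h.mS
  obtain ⟨T, hT, hDT⟩ := hD
  obtain ⟨g, u, hP, hgen, hgS, rfl⟩ := id hc
  obtain ⟨w, hw, hw2⟩ := exists_outside (hgen.isOpen h.fin) ⟨u, mem_OO_self A g u⟩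
    (T.image fun t => g ⁻¹' t)
    (by
      intro t ht
      obtain ⟨s, hs, rfl⟩ := Finset.mem_image.1 ht
      obtain ⟨a, b, rfl⟩ := hT s hs
      have h1 : IsClosed (segment ℝ a b) := by
        rw [← convexHull_pair]
        exact ((Set.toFinite {a, b}).isCompact_convexHull ℝ).isClosed
      exact h1.preimage g.continuous)
    (by
      intro t ht
      obtain ⟨s, hs, rfl⟩ := Finset.mem_image.1 ht
      obtain ⟨a, b, rfl⟩ := hT s hs
      exact ((lin_segment a b).preimage g).interior_eq)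
  have hwc : g w ∈ Cls A (g u) := hw
  have hwD : g w ∈ S \ D := by
    refine ⟨hcS hwc, fun h1 => ?_⟩
    rw [hDT] at h1
    obtain ⟨s, hs, hws⟩ := mem_iUnion₂.1 h1
    exact hw2 _ (Finset.mem_image_of_mem _ hs) hws
  rw [Pl.cover] at hwD
  obtain ⟨k, hk⟩ := mem_iUnion.1 hwD
  exact ⟨k, hc.subset_of_mem (h.mU k) hwc hk⟩

theorem U_subset_K (Pl : PlateSys S D m) (k : Fin m) : Pl.U k ⊆ interior (Pl.K k) := by
  rw [Pl.hull]
  exact subset_convexHull ℝ _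

end Arrg

end Pool.Agent.SeamS
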