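import Pool.Agent.SeamS.Thin

/-!
# The assembled paper: definitions (module F)

The beads `Q ⊆ ℝ²` (beads with centres `x k`, joined by thin strings `|y 1 - c' k| ≤ δ`) and their map to the target:
plate blocks `(k, 0)`, `k < m`, and facets `(k, e)`, `1 ≤ e ≤ M k`, `k + 1 < m`, of the routes `rt k`. The blocks are ordered
along the paper lexicographically. The event line `e` (`0 ≤ e ≤ M k`) of the route `k` is the interface between the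
block `(k, e)` and the block `nx k e`.
-/

namespace Pool.Agent.SeamS

open Set Filter Topology Metric Pool.Agent.Hhelper79.Seam

structure AData (c : CData) where
  /-- width of the paper -/
  W : ℝ
  /-- half length of the rectangles of the beads -/
  cc : ℝ
  /-- half width of the strings -/
  δ : ℝ
  η : ℝ
  /-- centres of the beads -/
  x : ℕ → ℝ
  y : ℕ → ℝ
  /-- heights of the strings, centres of the strings -/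
  H : ℕ → ℝ
  c' : ℕ → ℝ
  w : ℕ → List (E2 × ℝ)
  ρR : ℕ → (E2 →ᵃⁱ[ℝ] E2)
  ρL : ℕ → (E2 →ᵃⁱ[ℝ] E2)
  pk : ℕ → Fin c.m
  rt : ℕ → RData c
  Q : Set E2
  /-- the first folding `F` of the rectangle `[a₀, b₀] × [0, W]` onto `Q` -/
  a₀ : ℝ
  b₀ : ℝ
  F : E2 → E2
  upF : E2 → E2 → Prop

namespace AData

variable {c : CData} (a : AData c)

/-- centre of the bead `k` -/
noncomputable def ctr (k : ℕ) : E2 := pt (a.x k) (a.y k)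

/-- number of facets of the route `k` -/
def M (k : ℕ) : ℕ := (a.rt k).M

/-- event point of the route `k` (in the paper) -/
noncomputable def ep (k e : ℕ) : E2 := (a.rt k).p (a.H k) e

/-- signed distance from the event line `e` of the route `k` -/
noncomputable def ev (k e : ℕ) (z : E2) : ℝ := (a.rt k).val (a.H k) e z

/-- event point (in the target) -/
noncomputable def es (k e : ℕ) : E3 := (a.rt k).s (a.H k) e

/-- the rectangular paper -/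
def P : Set E2 := {z | z 0 ∈ Icc a.a₀ a.b₀ ∧ z 1 ∈ Icc 0 a.W}

/-- the bead proper -/
def bead (k : ℕ) : Set E2 := {z | z ∈ a.Q ∧ |z 0 - a.x k| ≤ a.cc + 3 * a.W}

/-- the part of the string to the right of the bead `k` which belongs to the plate block -/
def strR (k : ℕ) : Set E2 :=
  {z | k + 1 < c.m ∧ |z 1 - a.c' k| ≤ a.δ ∧ a.x k + a.cc + 3 * a.W ≤ z 0 ∧ a.ev k 0 z ≤ 0}

/-- the part of the string to the left of the bead `k` which belongs to the plate block -/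
def strL (k : ℕ) : Set E2 :=
  {z | 1 ≤ k ∧ |z 1 - a.c' (k - 1)| ≤ a.δ ∧ z 0 ≤ a.x k - a.cc - 3 * a.W ∧
    0 ≤ a.ev (k - 1) (a.M (k - 1)) z}

/-- indices of blocks -/
def Valid (φ : ℕ × ℕ) : Prop := φ.1 < c.m ∧ (φ.2 = 0 ∨ (φ.1 + 1 < c.m ∧ φ.2 ≤ a.M φ.1))

/-- the blocks -/
def R (φ : ℕ × ℕ) : Set E2 :=
  if φ.2 = 0 then a.bead φ.1 ∪ a.strR φ.1 ∪ a.strL φ.1
  else (a.rt φ.1).facet (a.H φ.1) (a.c' φ.1) a.δ φ.2

/-- the map on the block `φ` -/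
noncomputable def mp (φ : ℕ × ℕ) (z : E2) : E3 :=
  if φ.2 = 0 then c.T (a.pk φ.1) (FW (a.w φ.1) (z - a.ctr φ.1)) else (a.rt φ.1).G φ.2 z

/-- the cell of the facet `φ` -/
def ci (φ : ℕ × ℕ) : Fin c.N := (a.rt φ.1).ci φ.2

/-- the plate of the block `φ`: the facet is in the gap directly below this plate -/
def pl (φ : ℕ × ℕ) : Fin c.m := if φ.2 = 0 then a.pk φ.1 else (a.rt φ.1).pl φ.2

/-- the block following the block `(k, e)` (`e ≤ M k`) -/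
def nx (k e : ℕ) : ℕ × ℕ := if e = a.M k then (k + 1, 0) else (k, e + 1)

/-- the interface between the blocks `(k, e)` and `nx k e` -/
def IF (k e : ℕ) : Set E2 := {z | |z 1 - a.c' k| ≤ a.δ ∧ a.ev k e z = 0}

/-- the event `e` is in an open cell -/
def Turn (k e : ℕ) : Prop := 1 ≤ e ∧ e < a.M k ∧ (a.rt k).IsTurn (a.H k) e

/-- the event `e` is a cross -/
def Cross (k e : ℕ) : Prop := 1 ≤ e ∧ e < a.M k ∧ (a.rt k).IsCross (a.H k) e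

/-- position along the paper -/
def bef (φ ψ : ℕ × ℕ) : Prop := φ.1 < ψ.1 ∨ (φ.1 = ψ.1 ∧ φ.2 < ψ.2)

/-- the order of the blocks: `B φ ψ` if `φ` lies above `ψ` -/
def B (φ ψ : ℕ × ℕ) : Prop :=
  (φ.2 = 0 ∧ ψ.2 = 0 ∧ c.low (a.pk ψ.1) (a.pk φ.1)) ∨
  (φ.2 = 0 ∧ ψ.2 ≠ 0 ∧ c.Abv (a.ci ψ) (a.pl ψ) (a.pk φ.1)) ∨
  (φ.2 ≠ 0 ∧ ψ.2 = 0 ∧ c.mem (a.ci φ) (a.pk ψ.1) ∧ ¬ c.Abv (a.ci φ) (a.pl φ) (a.pk ψ.1)) ∨
  (φ.2 ≠ 0 ∧ ψ.2 ≠ 0 ∧ a.ci φ = a.ci ψ ∧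
    ((a.pl φ = a.pl ψ ∧ bef φ ψ) ∨ c.low (a.pl ψ) (a.pl φ)))

/-- the layer order inside the block `φ` -/
def up (φ : ℕ × ℕ) (z z' : E2) : Prop :=
  φ.2 = 0 ∧ upW (a.w φ.1) (z - a.ctr φ.1) (z' - a.ctr φ.1)

/-- the index type of the blocks -/
def Idx : Type := {φ : ℕ × ℕ // a.Valid φ}

open scoped Classical in
/-- the map -/
noncomputable def f (z : E2) : E3 :=
  if h : ∃ φ, a.Valid φ ∧ z ∈ a.R φ then a.mp h.choose z else 0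

end AData

/-- the properties of the data -/
structure IsAsm (S : Set E3) {c : CData} (a : AData c) : Prop where
  cx : IsComplex S c
  Wpos : 0 < a.W
  ccpos : 0 < a.cc
  δpos : 0 < a.δ
  ηpos : 0 < a.η
  ηW : a.η ≤ a.W
  pk_inj : ∀ k l, k < c.m → l < c.m → a.pk k = a.pk l → k = l
  pk_surj : ∀ q, ∃ k < c.m, a.pk k = q
  route : ∀ k, k + 1 < c.m → IsRoute (a.rt k) (a.H k)
  thin : ∀ k, k + 1 < c.m → IsThin (a.rt k) (a.H k) a.η (a.c' k) a.δ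
  cen : ∀ k, k + 1 < c.m → |a.H k - a.c' k| ≤ a.δ
  sep : ∀ k l e e', k + 1 < c.m → l + 1 < c.m → e ≤ a.M k → e' ≤ a.M l → (k, e) ≠ (l, e') →
    2 * a.η ≤ dist (a.es k e) (a.es l e')
  startpl : ∀ k, k + 1 < c.m → (a.rt k).pl 1 = a.pk k
  endpl : ∀ k, k + 1 < c.m → (a.rt k).pl (a.M k) = a.pk (k + 1)
  G0 : ∀ k, k + 1 < c.m → ∀ z, (a.rt k).G 0 z = c.T (a.pk k) (a.ρR k (z - a.ctr k))
  GM : ∀ k, k + 1 < c.m → ∀ z,
    (a.rt k).G (a.M k + 1) z = c.T (a.pk (k + 1)) (a.ρL (k + 1) (z - a.ctr (k + 1)))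
  isoR : ∀ k, k + 1 < c.m → ∀ z ∈ ball (a.ep k 0) a.η,
    FW (a.w k) (z - a.ctr k) = a.ρR k (z - a.ctr k) ∧
      (posW (a.w k) (z - a.ctr k) ↔ posW (a.w k) (a.ep k 0 - a.ctr k))
  isoL : ∀ k, k + 1 < c.m → ∀ z ∈ ball (a.ep k (a.M k)) a.η,
    FW (a.w (k + 1)) (z - a.ctr (k + 1)) = a.ρL (k + 1) (z - a.ctr (k + 1)) ∧
      (posW (a.w (k + 1)) (z - a.ctr (k + 1)) ↔
        posW (a.w (k + 1)) (a.ep k (a.M k) - a.ctr (k + 1)))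
  wmem : ∀ k < c.m, ∀ l ∈ a.w k, l ∈ c.Λ (a.pk k)
  inbead : ∀ k < c.m, ∀ z : E2, |z 0 - a.x k| ≤ a.cc + 3 * a.W → 0 ≤ z 1 → z 1 ≤ a.W →
    FW (a.w k) (z - a.ctr k) ∈ Hull (c.Λ (a.pk k))
  inR : ∀ k, k + 1 < c.m → ∀ z : E2, |z 1 - a.c' k| ≤ a.δ → a.x k ≤ z 0 → a.ev k 0 z ≤ 0 →
    FW (a.w k) (z - a.ctr k) ∈ Hull (c.Λ (a.pk k))
  inL : ∀ k, k + 1 < c.m → ∀ z : E2, |z 1 - a.c' k| ≤ a.δ → z 0 ≤ a.x (k + 1) →
    0 ≤ a.ev k (a.M k) z → FW (a.w (k + 1)) (z - a.ctr (k + 1)) ∈ Hull (c.Λ (a.pk (k + 1)))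
  posR : ∀ k, k + 1 < c.m → a.x k + a.cc + 5 * a.W ≤ (a.rt k).t 0
  posL : ∀ k, k + 1 < c.m → (a.rt k).t (a.M k) ≤ a.x (k + 1) - a.cc - 5 * a.W
  plate : ∀ k < c.m, ∀ u ∈ Hull (c.Λ (a.pk k)),
    |u 0| ≤ a.cc ∧ 0 ≤ u 1 + a.y k ∧ u 1 + a.y k ≤ a.W
  gap : ∀ k, k + 1 < c.m → a.x k + 2 * a.cc + 50 * a.W ≤ a.x (k + 1)
  Qpoly : PolySet a.Q
  Qbox : ∀ z ∈ a.Q, z 1 ∈ Icc 0 a.W ∧ a.x 0 - a.cc ≤ z 0 ∧ z 0 ≤ a.x (c.m - 1) + a.cc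
  Qrect : ∀ k < c.m, ∀ z : E2, |z 0 - a.x k| ≤ a.cc → z 1 ∈ Icc 0 a.W → z ∈ a.Q
  Qstr : ∀ k, k + 1 < c.m → ∀ z : E2, a.x k + a.cc + 3 * a.W ≤ z 0 →
    z 0 ≤ a.x (k + 1) - a.cc - 3 * a.W → (z ∈ a.Q ↔ |z 1 - a.c' k| ≤ a.δ)
  ab : a.a₀ < a.b₀
  Ffold : FoldOn a.P a.F a.upF
  Fimage : a.F '' a.P = a.Q
  Fone : ∀ k < c.m, ∃ v : E2, ∀ z ∈ a.P, |(a.F z) 0 - a.x k| ≤ a.cc → a.F z = z + v

end Pool.Agent.SeamS
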