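import Pool.Agent.SeamS.Gadget

/-!
# Beads on a string (modules B2, B3)

`exists_pinch_iter`: iterate `exists_pinch` `n` times on the string `[a, b] × [c - w, c + w]`: at step `j` the string is `[a_j, b_j]`
with half width `w_j = w / 2^j`, `a_{j+1} = a_j + 3 w_j`, `b_{j+1} = b_j - 11 w_j`, and the half containing the height `h` is kept. `b_j - a_j = b - a - 14 ∑_{i<j} w_i ≥ 100 w - 28 w ≥ 16 w_j`. The total
translation on the right is `s = ∑_{j<n} 8 w_j = 16 w (1 - 2^{-n})`. Composition: `FoldOn.comp`, `SignOn.comp` (the image `F '' X` is a `PolySet` by `Pieced.polySet_image`).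
Last two properties by induction from the outer map: `F = F_k ∘ G`. If `(F x) 0 < a + w` then, as `a + w ≤ a_k + w_k`, `F_k (G x) = G x`, so `(G x) 0 < a + w`, `G x = x`. If `(F x) 0 > b - s - w` then
(`b - s - w ≥ b_k - 9 w_k` for `k = n - 1`: the difference is `5 w - 5 w 2^{-k}`) `F_k (G x) = G x - 8 w_k`, and induction.

`exists_beads`: start with the rectangle `P = [x 0 - c, x (m-1) + c + (m-1) s] × [0, W]`, `w = W / 2`, `s = 8 W (1 - 2^{-n})`. Treat the strings `k = 0, 1, ..., m-2` one after the other with `exists_pinch_iter`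
(`a = x k + c`, `b = x (k+1) - c + s`, centre `W / 2`, height `h k`); before step `k` the part `{y 0 ≥ x k - c}` of the current set is the rectangle up to `x (m-1) + c + (m-1-k) s`. The later maps are the identity
on `{y 0 ≤ x k + c}`. All properties follow by composing.
-/

namespace Pool.Agent.SeamS

open Set Filter Topology Metric Pool.Agent.Hhelper79.Seam

namespace Beads

lemma pt_0 (a b : ℝ) : (pt a b) 0 = a := by simp [pt]
lemma pt_1 (a b : ℝ) : (pt a b) 1 = b := by simp [pt]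
lemma sub_pt_0 (y : E2) (s : ℝ) : (y - pt s 0) 0 = y 0 - s := by simp [pt]
lemma sub_pt_1 (y : E2) (s : ℝ) : (y - pt s 0) 1 = y 1 := by simp [pt]
lemma add_pt_0 (y : E2) (s : ℝ) : (y + pt s 0) 0 = y 0 + s := by simp [pt]
lemma add_pt_1 (y : E2) (s : ℝ) : (y + pt s 0) 1 = y 1 := by simp [pt]
lemma pt_00 : pt 0 0 = 0 := by
  ext i
  fin_cases i <;> simp [pt]
lemma pt_add (s t : ℝ) : pt s 0 + pt t 0 = pt (s + t) 0 := by
  ext i
  fin_cases i <;> simp [pt]

lemma pieced_id {X : Set E2} (hX : PolySet X) : Pieced X (fun y => y) := by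
  obtain ⟨T, hT, hT2, rfl⟩ := hX
  exact ⟨T, hT, hT2, rfl, fun t _ => ⟨AffineIsometry.id, fun x _ => rfl⟩⟩

end Beads

open Beads

theorem exists_pinch_iter {X : Set E2} (hX : PolySet X) {a b c w : ℝ} (hw : 0 < w)
    (hab : 100 * w ≤ b - a) (hstr : ∀ y : E2, a ≤ y 0 → y 0 ≤ b → (y ∈ X ↔ |y 1 - c| ≤ w))
    {h : ℝ} (hh : |h - c| ≤ w) (n : ℕ) {s : ℝ} (hs : s = 16 * w * (1 - 1 / 2 ^ n)) :
    ∃ (F : E2 → E2) (up : E2 → E2 → Prop) (pos : E2 → Prop) (c' : ℝ),
      FoldOn X F up ∧ SignOn X F pos ∧ |h - c'| ≤ w / 2 ^ n ∧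
      (∀ y ∈ X, y 0 ≤ a → F y = y) ∧
      (∀ y ∈ X, b ≤ y 0 → F y = y - pt s 0) ∧
      (∀ y ∈ X, a ≤ y 0 → y 0 ≤ b → a ≤ (F y) 0 ∧ (F y) 0 ≤ b - s ∧ |(F y) 1 - c| ≤ w) ∧
      (∀ y : E2, a + 6 * w ≤ y 0 → y 0 ≤ b - s - 6 * w →
        (y ∈ F '' X ↔ |y 1 - c'| ≤ w / 2 ^ n)) ∧
      (∀ x ∈ X, (F x) 0 < a + w → F x = x) ∧
      (∀ x ∈ X, b - s - w < (F x) 0 → F x = x - pt s 0) := by
  induction n generalizing X a b c w s with
  | zero =>
    have hs0 : s = 0 := by rw [hs]; norm_num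
    subst hs0
    refine ⟨fun y => y, fun _ _ => False, fun _ => True, c, FoldOn.of_injOn (pieced_id hX)
      (fun _ _ _ _ e => e), SignOn.of_injOn (fun _ _ _ _ e => e), by simpa using hh,
      fun _ _ _ => rfl, ?_, ?_, ?_, fun _ _ _ => rfl, ?_⟩
    · intro y _ _
      rw [pt_00, sub_zero]
    · intro y hy h1 h2
      refine ⟨h1, by linarith, (hstr y h1 h2).1 hy⟩
    · intro y h1 h2
      rw [Set.image_id', pow_zero, div_one]
      exact hstr y (by linarith) (by linarith)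
    · intro y _ _
      rw [pt_00, sub_zero]
  | succ n ih =>
    -- the half containing `h`
    obtain ⟨c1, hc1, hh1⟩ : ∃ c1, (c1 = c + w / 2 ∨ c1 = c - w / 2) ∧ |h - c1| ≤ w / 2 := by
      rw [abs_le] at hh
      rcases le_total c h with h1 | h1
      · exact ⟨c + w / 2, Or.inl rfl, abs_le.2 ⟨by linarith, by linarith⟩⟩
      · exact ⟨c - w / 2, Or.inr rfl, abs_le.2 ⟨by linarith, by linarith⟩⟩
    have hcc : |c1 - c| ≤ w / 2 := by
      rcases hc1 with e | e <;> rw [e, abs_le] <;> constructor <;> linarith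
    obtain ⟨F0, up0, pos0, hF0, hS0, P1, P2, P3, P4, P5, P6⟩ :=
      exists_pinch hX hw (by linarith) hstr hc1
    set s' : ℝ := 16 * (w / 2) * (1 - 1 / 2 ^ n) with hs'
    have hpow : (0 : ℝ) < 2 ^ n := by positivity
    have hss : s = 8 * w + s' := by
      rw [hs, hs', pow_succ]
      field_simp
      ring
    have hs'0 : 0 ≤ s' := by
      have : (1 : ℝ) / 2 ^ n ≤ 1 := by
        rw [div_le_one hpow]
        exact one_le_pow₀ (by norm_num)
      have h2 : 0 ≤ 1 - (1 : ℝ) / 2 ^ n := by linarith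
      positivity
    have hs'8 : s' ≤ 8 * w := by
      have : 0 < (1 : ℝ) / 2 ^ n := by positivity
      rw [hs']
      nlinarith
    obtain ⟨F', up', pos', c', hF', hS', hhc, I1, I2, I3, I4, I5, I6⟩ :=
      ih (X := F0 '' X) (a := a + 3 * w) (b := b - 11 * w) (c := c1) (w := w / 2) (s := s')
        hF0.pieces.polySet_image (by linarith) (by linarith) P4 hh1 hs'
    refine ⟨fun x => F' (F0 x), compUp F0 up0 up' pos', fun x => (pos0 x ↔ pos' (F0 x)), c',
      hF0.comp hF' hS', SignOn.comp hF0.pieces hF'.pieces hS0 hS', ?_, ?_, ?_, ?_, ?_, ?_, ?_⟩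
    · refine hhc.trans (le_of_eq ?_)
      rw [pow_succ]
      field_simp
    · intro y hy h1
      have e := P1 y hy (by linarith)
      have hm : y ∈ F0 '' X := ⟨y, hy, e⟩
      show F' (F0 y) = y
      rw [e]
      exact I1 y hm (by linarith)
    · intro y hy h1
      have e := P2 y hy (by linarith)
      have hm : y - pt (8 * w) 0 ∈ F0 '' X := ⟨y, hy, e⟩
      show F' (F0 y) = y - pt s 0
      rw [e, I2 _ hm (by rw [sub_pt_0]; linarith), sub_sub, pt_add, hss]
    · intro y hy h1 h2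
      have e := P3 y hy h1 h2
      have hm : F0 y ∈ F0 '' X := ⟨y, hy, rfl⟩
      show a ≤ (F' (F0 y)) 0 ∧ (F' (F0 y)) 0 ≤ b - s ∧ |(F' (F0 y)) 1 - c| ≤ w
      rcases le_total ((F0 y) 0) (a + 3 * w) with h3 | h3
      · rw [I1 _ hm h3]
        exact ⟨e.1, by linarith, e.2.2⟩
      rcases le_total ((F0 y) 0) (b - 11 * w) with h4 | h4
      · obtain ⟨g1, g2, g3⟩ := I3 _ hm h3 h4
        refine ⟨by linarith, by linarith, ?_⟩
        have := abs_add_le ((F' (F0 y)) 1 - c1) (c1 - c)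
        have e2 : (F' (F0 y)) 1 - c1 + (c1 - c) = (F' (F0 y)) 1 - c := by ring
        rw [e2] at this
        linarith
      · rw [I2 _ hm h4, sub_pt_0, sub_pt_1]
        exact ⟨by linarith, by linarith [e.2.1], e.2.2⟩
    · intro y h1 h2
      have e : (fun x => F' (F0 x)) '' X = F' '' (F0 '' X) := by
        rw [Set.image_image]
      rw [e]
      have e2 : w / 2 ^ (n + 1) = w / 2 / 2 ^ n := by
        rw [pow_succ]
        field_simp
      rw [e2]
      exact I4 y (by linarith) (by linarith)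
    · intro x hx h1
      have hm : F0 x ∈ F0 '' X := ⟨x, hx, rfl⟩
      have e1 : F' (F0 x) = F0 x := I5 _ hm (by
        have h1' : (F' (F0 x)) 0 < a + w := h1
        linarith)
      show F' (F0 x) = x
      have h1' : (F' (F0 x)) 0 < a + w := h1
      rw [e1] at h1' ⊢
      exact P5 x hx h1'
    · intro x hx h1
      have hm : F0 x ∈ F0 '' X := ⟨x, hx, rfl⟩
      have h1' : b - s - w < (F' (F0 x)) 0 := h1
      have e1 : F' (F0 x) = F0 x - pt s' 0 := I6 _ hm (by linarith)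
      show F' (F0 x) = x - pt s 0
      rw [e1] at h1' ⊢
      rw [sub_pt_0] at h1'
      rw [P6 x hx (by linarith), sub_sub, pt_add, hss]

namespace Beads

lemma polySet_rect {a b c d : ℝ} (hab : a < b) (hcd : c < d) :
    PolySet {y : E2 | y 0 ∈ Icc a b ∧ y 1 ∈ Icc c d} := by
  refine ⟨{{y : E2 | y 0 ∈ Icc a b ∧ y 1 ∈ Icc c d}}, Set.finite_singleton _, ?_,
    (Set.sUnion_singleton _).symm⟩
  intro t ht
  rw [Set.mem_singleton_iff] at ht
  subst ht
  refine ⟨isPoly_rect a b c d, ?_⟩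
  have hop : IsOpen {y : E2 | y 0 ∈ Ioo a b ∧ y 1 ∈ Ioo c d} := by
    have h0 : Continuous fun y : E2 => y 0 := by fun_prop
    have h1 : Continuous fun y : E2 => y 1 := by fun_prop
    exact (isOpen_Ioo.preimage h0).inter (isOpen_Ioo.preimage h1)
  refine ⟨pt ((a + b) / 2) ((c + d) / 2), ?_⟩
  refine mem_interior.2 ⟨_, ?_, hop, ?_⟩
  · intro y hy
    exact ⟨Ioo_subset_Icc_self hy.1, Ioo_subset_Icc_self hy.2⟩
  · refine ⟨?_, ?_⟩
    · rw [pt_0]
      constructor <;> linarith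
    · rw [pt_1]
      constructor <;> linarith

lemma mono_x {m : ℕ} {W c : ℝ} (hW : 0 < W) (hc : 0 < c) {x : ℕ → ℝ}
    (hx : ∀ k, k + 1 < m → x k + 2 * c + 50 * W ≤ x (k + 1)) (i j : ℕ) (hij : i ≤ j)
    (hj : j < m) : x i ≤ x j := by
  induction j, hij using Nat.le_induction with
  | base => exact le_rfl
  | succ j hij ih =>
    have h1 := ih (by omega)
    have h2 := hx j hj
    linarith

lemma beads_aux {m : ℕ} {W c : ℝ} (hW : 0 < W) (hc : 0 < c) {x h : ℕ → ℝ}
    (hh : ∀ k, k + 1 < m → 0 ≤ h k ∧ h k ≤ W)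
    (hx : ∀ k, k + 1 < m → x k + 2 * c + 50 * W ≤ x (k + 1)) (n : ℕ) {s R : ℝ}
    (hs : s = 16 * (W / 2) * (1 - 1 / 2 ^ n)) (hs0 : 0 ≤ s)
    (hR : R = x (m - 1) + c + ((m - 1 : ℕ) : ℝ) * s) (j : ℕ) (hj : j < m) :
    ∃ (F : E2 → E2) (up : E2 → E2 → Prop),
      FoldOn {y : E2 | y 0 ∈ Icc (x 0 - c) R ∧ y 1 ∈ Icc 0 W} F up ∧
      (∀ y : E2, x j - c ≤ y 0 →
        (y ∈ F '' {y : E2 | y 0 ∈ Icc (x 0 - c) R ∧ y 1 ∈ Icc 0 W} ↔
          y 0 ≤ R - j * s ∧ y 1 ∈ Icc 0 W)) ∧
      (∀ y ∈ F '' {y : E2 | y 0 ∈ Icc (x 0 - c) R ∧ y 1 ∈ Icc 0 W},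
        y 1 ∈ Icc 0 W ∧ x 0 - c ≤ y 0) ∧
      (∀ k ≤ j, ∀ y : E2, |y 0 - x k| ≤ c → y 1 ∈ Icc 0 W →
        y ∈ F '' {y : E2 | y 0 ∈ Icc (x 0 - c) R ∧ y 1 ∈ Icc 0 W}) ∧
      (∀ k < j, ∃ c' : ℝ, |h k - c'| ≤ W / 2 ^ (n + 1) ∧
        ∀ y : E2, x k + c + 3 * W ≤ y 0 → y 0 ≤ x (k + 1) - c - 3 * W →
          (y ∈ F '' {y : E2 | y 0 ∈ Icc (x 0 - c) R ∧ y 1 ∈ Icc 0 W} ↔
            |y 1 - c'| ≤ W / 2 ^ (n + 1))) ∧
      (∀ k < j, ∃ v : E2, ∀ z ∈ {y : E2 | y 0 ∈ Icc (x 0 - c) R ∧ y 1 ∈ Icc 0 W},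
        |(F z) 0 - x k| ≤ c → F z = z + v) ∧
      (∀ z ∈ {y : E2 | y 0 ∈ Icc (x 0 - c) R ∧ y 1 ∈ Icc 0 W},
        x j - c ≤ (F z) 0 → F z = z - pt (j * s) 0) := by
  have hmono := mono_x hW hc hx
  have hRR : x 0 - c < R := by
    have h1 := hmono 0 (m - 1) (Nat.zero_le _) (by omega)
    have h2 : 0 ≤ ((m - 1 : ℕ) : ℝ) * s := by positivity
    rw [hR]
    linarith
  set P : Set E2 := {y : E2 | y 0 ∈ Icc (x 0 - c) R ∧ y 1 ∈ Icc 0 W} with hP
  have hPS : PolySet P := polySet_rect hRR hW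
  induction j with
  | zero =>
    refine ⟨fun y => y, fun _ _ => False, FoldOn.of_injOn (pieced_id hPS) (fun _ _ _ _ e => e),
      ?_, ?_, ?_, ?_, ?_, ?_⟩
    · intro y h1
      rw [Set.image_id']
      constructor
      · rintro ⟨h2, h3⟩
        refine ⟨?_, h3⟩
        have := h2.2
        simpa using this
      · rintro ⟨h2, h3⟩
        refine ⟨⟨h1, ?_⟩, h3⟩
        simpa using h2
    · intro y hy
      rw [Set.image_id'] at hy
      exact ⟨hy.2, hy.1.1⟩
    · intro k hk y h1 h2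
      rw [Set.image_id']
      have hk0 : k = 0 := by omega
      subst hk0
      rw [abs_le] at h1
      refine ⟨⟨by linarith [h1.1], ?_⟩, h2⟩
      have h3 := hmono 0 (m - 1) (Nat.zero_le _) (by omega)
      have h4 : 0 ≤ ((m - 1 : ℕ) : ℝ) * s := by positivity
      rw [hR]
      linarith [h1.2]
    · intro k hk
      omega
    · intro k hk
      omega
    · intro z hz h1
      have e : ((0 : ℕ) : ℝ) * s = 0 := by simp
      rw [e, pt_00, sub_zero]
  | succ j ih =>
    obtain ⟨F, up, hF, A, B, C, D, E, E'⟩ := ih (by omega)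
    have hxj := hx j hj
    have hhj := hh j hj
    have hX : PolySet (F '' P) := hF.pieces.polySet_image
    -- comparison of the right ends
    have hright : x (j + 1) + c + s ≤ R - j * s := by
      have h1 := hmono (j + 1) (m - 1) (by omega) (by omega)
      have h2 : ((j : ℝ) + 1) ≤ ((m - 1 : ℕ) : ℝ) := by
        have : j + 1 ≤ m - 1 := by omega
        exact_mod_cast this
      have h3 : ((j : ℝ) + 1) * s ≤ ((m - 1 : ℕ) : ℝ) * s := by gcongr
      rw [hR]
      linarith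
    obtain ⟨G, upG, posG, c', hG, hSG, hhc, G1, G2, G3, G4, G5, G6⟩ :=
      exists_pinch_iter hX (a := x j + c) (b := x (j + 1) - c + s) (c := W / 2) (w := W / 2)
        (by linarith) (by linarith)
        (by
          intro y h1 h2
          rw [A y (by linarith)]
          constructor
          · rintro ⟨_, h4, h5⟩
            rw [abs_le]
            constructor <;> linarith
          · intro h3
            rw [abs_le] at h3
            exact ⟨by linarith, by linarith [h3.1], by linarith [h3.2]⟩)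
        (h := h j) (by rw [abs_le]; constructor <;> linarith [hhj.1, hhj.2]) n hs
    have hW2 : W / 2 ^ (n + 1) = W / 2 / 2 ^ n := by
      rw [pow_succ]
      field_simp
    have him : (fun z => G (F z)) '' P = G '' (F '' P) := by rw [Set.image_image]
    have hjs : (((j + 1 : ℕ) : ℝ)) * s = j * s + s := by push_cast; ring
    refine ⟨fun z => G (F z), compUp F up upG posG, hF.comp hG hSG, ?_, ?_, ?_, ?_, ?_, ?_⟩
    · intro y h1
      rw [him, hjs]
      constructor
      · rintro ⟨u, hu, rfl⟩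
        have e := G6 u hu (by linarith)
        rw [e, sub_pt_0] at h1
        have h2 := (A u (by linarith)).1 hu
        rw [e, sub_pt_0, sub_pt_1]
        exact ⟨by linarith [h2.1], h2.2⟩
      · rintro ⟨h2, h3⟩
        have hu : y + pt s 0 ∈ F '' P := by
          rw [A _ (by rw [add_pt_0]; linarith), add_pt_0, add_pt_1]
          exact ⟨by linarith, h3⟩
        refine ⟨_, hu, ?_⟩
        rw [G2 _ hu (by rw [add_pt_0]; linarith), add_sub_cancel_right]
    · intro y hy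
      rw [him] at hy
      obtain ⟨u, hu, rfl⟩ := hy
      have hBu := B u hu
      have h00 := hmono 0 j (Nat.zero_le _) (by omega)
      rcases le_total (u 0) (x j + c) with h1 | h1
      · rw [G1 u hu h1]
        exact hBu
      rcases le_total (u 0) (x (j + 1) - c + s) with h2 | h2
      · obtain ⟨g1, g2, g3⟩ := G3 u hu h1 h2
        rw [abs_le] at g3
        exact ⟨⟨by linarith [g3.1], by linarith [g3.2]⟩, by linarith⟩
      · rw [G2 u hu h2, sub_pt_0, sub_pt_1]
        exact ⟨hBu.1, by linarith⟩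
    · intro k hk y h1 h2
      rw [him]
      rcases Nat.lt_or_ge k (j + 1) with hk' | hk'
      · have h3 := C k (by omega) y h1 h2
        refine ⟨y, h3, G1 y h3 ?_⟩
        have h4 := hmono k j (by omega) (by omega)
        rw [abs_le] at h1
        linarith [h1.2]
      · have hkj : k = j + 1 := by omega
        subst hkj
        rw [abs_le] at h1
        have hu : y + pt s 0 ∈ F '' P := by
          rw [A _ (by rw [add_pt_0]; linarith [h1.1]), add_pt_0, add_pt_1]
          exact ⟨by linarith [h1.2], h2⟩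
        refine ⟨_, hu, ?_⟩
        rw [G2 _ hu (by rw [add_pt_0]; linarith [h1.1]), add_sub_cancel_right]
    · intro k hk
      rcases Nat.lt_or_ge k j with hk' | hk'
      · obtain ⟨c'', h1, h2⟩ := D k hk'
        refine ⟨c'', h1, fun y h3 h4 => ?_⟩
        rw [him, ← h2 y h3 h4]
        have h5 := hmono (k + 1) j (by omega) (by omega)
        constructor
        · rintro ⟨u, hu, rfl⟩
          have e := G5 u hu (by linarith)
          rw [e]
          exact hu
        · intro hy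
          exact ⟨y, hy, G1 y hy (by linarith)⟩
      · have hkj : k = j := by omega
        subst hkj
        refine ⟨c', by rw [hW2]; exact hhc, fun y h3 h4 => ?_⟩
        rw [him, hW2]
        exact G4 y (by linarith) (by linarith)
    · intro k hk
      rcases Nat.lt_or_ge k j with hk' | hk'
      · obtain ⟨v, hv⟩ := E k hk'
        refine ⟨v, fun z hz h1 => ?_⟩
        have h1' : |(G (F z)) 0 - x k| ≤ c := h1
        have h5 := hmono k j (by omega) (by omega)
        have h6 := (abs_le.1 h1').2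
        have e : G (F z) = F z := G5 _ ⟨z, hz, rfl⟩ (by linarith)
        show G (F z) = z + v
        rw [e] at h1' ⊢
        exact hv z hz h1'
      · have hkj : k = j := by omega
        subst hkj
        refine ⟨-pt (k * s) 0, fun z hz h1 => ?_⟩
        have h1' : |(G (F z)) 0 - x k| ≤ c := h1
        have h6 := (abs_le.1 h1').2
        have e : G (F z) = F z := G5 _ ⟨z, hz, rfl⟩ (by linarith)
        show G (F z) = z + -pt (k * s) 0
        rw [e] at h1' ⊢
        rw [← sub_eq_add_neg]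
        exact E' z hz (by linarith [(abs_le.1 h1').1])
    · intro z hz h1
      have h1' : x (j + 1) - c ≤ (G (F z)) 0 := h1
      have e : G (F z) = F z - pt s 0 := G6 _ ⟨z, hz, rfl⟩ (by linarith)
      show G (F z) = z - pt (((j + 1 : ℕ) : ℝ) * s) 0
      rw [e] at h1' ⊢
      rw [sub_pt_0] at h1'
      rw [E' z hz (by linarith), sub_sub, pt_add, hjs]

end Beads

/-- The beads: `Q = F '' P` is a chain of `m` beads with centres `x k` (abscissa), containing the full rectangles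
`[x k - c, x k + c] × [0, W]` (one layer), joined by thin strings of width `W / 2 ^ n` containing the heights `h k`. -/
theorem exists_beads {m : ℕ} (hm : 0 < m) {W c : ℝ} (hW : 0 < W) (hc : 0 < c) {x h : ℕ → ℝ}
    (hh : ∀ k, k + 1 < m → 0 ≤ h k ∧ h k ≤ W)
    (hx : ∀ k, k + 1 < m → x k + 2 * c + 50 * W ≤ x (k + 1)) (n : ℕ) :
    ∃ (a₀ b₀ : ℝ) (F : E2 → E2) (up : E2 → E2 → Prop),
      a₀ < b₀ ∧
      FoldOn {y : E2 | y 0 ∈ Icc a₀ b₀ ∧ y 1 ∈ Icc 0 W} F up ∧
      -- the image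
      (∀ y ∈ F '' {y : E2 | y 0 ∈ Icc a₀ b₀ ∧ y 1 ∈ Icc 0 W},
        y 1 ∈ Icc 0 W ∧ x 0 - c ≤ y 0 ∧ y 0 ≤ x (m - 1) + c) ∧
      (∀ k < m, ∀ y : E2, |y 0 - x k| ≤ c → y 1 ∈ Icc 0 W →
        y ∈ F '' {y : E2 | y 0 ∈ Icc a₀ b₀ ∧ y 1 ∈ Icc 0 W}) ∧
      (∀ k, k + 1 < m → ∃ c' : ℝ, |h k - c'| ≤ W / 2 ^ (n + 1) ∧
        ∀ y : E2, x k + c + 3 * W ≤ y 0 → y 0 ≤ x (k + 1) - c - 3 * W →
          (y ∈ F '' {y : E2 | y 0 ∈ Icc a₀ b₀ ∧ y 1 ∈ Icc 0 W} ↔
            |y 1 - c'| ≤ W / 2 ^ (n + 1))) ∧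
      -- one layer over the centres of the beads
      (∀ k < m, ∃ v : E2, ∀ z : E2, z 0 ∈ Icc a₀ b₀ → z 1 ∈ Icc 0 W →
        |(F z) 0 - x k| ≤ c → F z = z + v) := by
  set s : ℝ := 16 * (W / 2) * (1 - 1 / 2 ^ n) with hs
  have hs0 : 0 ≤ s := by
    have : (1 : ℝ) / 2 ^ n ≤ 1 := by
      rw [div_le_one (by positivity)]
      exact one_le_pow₀ (by norm_num)
    have h2 : 0 ≤ 1 - (1 : ℝ) / 2 ^ n := by linarith
    positivity
  set R : ℝ := x (m - 1) + c + ((m - 1 : ℕ) : ℝ) * s with hR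
  have hmono := mono_x hW hc hx
  obtain ⟨F, up, hF, A, B, C, D, E, E'⟩ :=
    beads_aux hW hc hh hx n hs hs0 hR (m - 1) (by omega)
  refine ⟨x 0 - c, R, F, up, ?_, hF, ?_, ?_, ?_, ?_⟩
  · have h1 := hmono 0 (m - 1) (Nat.zero_le _) (by omega)
    have h2 : 0 ≤ ((m - 1 : ℕ) : ℝ) * s := by positivity
    rw [hR]
    linarith
  · intro y hy
    have h1 := B y hy
    refine ⟨h1.1, h1.2, ?_⟩
    rcases le_total (x (m - 1) - c) (y 0) with h2 | h2
    · have h3 := ((A y h2).1 hy).1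
      rw [hR] at h3
      linarith
    · linarith
  · intro k hk
    exact C k (by omega)
  · intro k hk
    exact D k (by omega)
  · intro k hk
    rcases Nat.lt_or_ge k (m - 1) with hk' | hk'
    · obtain ⟨v, hv⟩ := E k hk'
      exact ⟨v, fun z h1 h2 h3 => hv z ⟨h1, h2⟩ h3⟩
    · have hkm : k = m - 1 := by omega
      refine ⟨-pt (((m - 1 : ℕ) : ℝ) * s) 0, fun z h1 h2 h3 => ?_⟩
      rw [← sub_eq_add_neg]
      refine E' z ⟨h1, h2⟩ ?_
      rw [hkm] at h3
      linarith [(abs_le.1 h3).1]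

end Pool.Agent.SeamS
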