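import Pool.Agent.SeamS.Fold

/-!
# The exit point of a string (module C4)

Situation: `C = Hull Λ` bounded convex polygon, unit normals, `c₀` strictly inside; `w` a word in `Λ` with
`FW w (closedBall 0 R) ⊆ C`. For a height `b` (`|b| < R`) consider the ray `{(x, b) | x ≥ 0}`. It starts in `closedBall 0 R ⊆ Y := (FW w)⁻¹ C`, and `Y` is bounded
(`dist_FW_ge`), so the ray leaves `Y`. For all but finitely many `b` this happens in a nice way.

Structure `ExitR Λ w R b n t ρ l` (exit to the right): `n` unit vector with `⟪n, e1⟫ > 0`, `p = (t, b)`, and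
 (far) `R < t`... (the exit point lies outside `closedBall 0 R`),
 (iso) `FW w = ρ` near `p`, `ρ` an isometry,
 (edge) `⟪l.1, ρ y⟫ - l.2 = - ⟪n, y - p⟫` for all `y`, `l ∈ Λ`: `ρ` maps the line through `p` with normal `n` to the line `l`, and the left side to the inner side,
 (int) `ρ p` is strictly inside all other half planes of `Λ`,
 (before) there is `η > 0` such that `FW w y ∈ C` for all `y` with `0 ≤ y 0`, `|y 1 - b| ≤ η`, `⟪n, y - p⟫ ≤ 0`.

Proof of `exists_exitR`. By induction on `w` there is a finite set `L` of lines (pairs `(n, c)`, unit normals) such that `FW w` is locally isometric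
off the lines of `L` and more precisely: for every point `q` lying on exactly one line `m` of `L` (up to sign), or on none, there are isometries `g₁, g₂` with `FW w = g₁` near `q` on the closed
nonnegative side of `m` and `= g₂` on the closed nonpositive side (on a sign cell of `L` the map is one isometry: for `l :: w` add the lines
`g⁻¹(l)` for the finitely many isometries `g` of the cells). Enlarge `L` by all the lines `g⁻¹(l)`, `l ∈ Λ`, `g` an isometry of a cell. Now if `q` is on no line of `L` then `FW w q` is on no line of `Λ`.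
Let `Z` be the finite set of intersection points of different lines of `L`, together with the finite set `(FW w)⁻¹ (Φ) ∩ closedBall 0 R'` (fibres are finite) and the points over which `FW w q` is on two lines of
`Λ` (these are finitely many points, in the finite set of common points of two lines of `Λ`; fibres are finite). Bad heights: the heights of the points of `Z` and of the horizontal lines of `L`, finitely many. Let `b` be good, `|b| < R`.
`t = sup {x ≥ 0 | (x', b) ∈ interior Y for all 0 ≤ x' ≤ x}` (the point `(0, b)` is in the open ball of radius `R`, which is in `interior Y`). `p = (t, b) ∈ frontier Y`, `p ∈ Y` (closed), `(x, b) ∈ interior Y` for `0 ≤ x < t`. As `closedBall 0 R ⊆ Y`, ... `t² + b² ≥ R²`.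
`FW w p ∈ frontier C` (otherwise, by continuity, a neighbourhood of `p` is in `Y`), so `p` is on a line of `L`, on exactly one line `m` (up to sign), not horizontal; let `n` be its unit normal with `⟪n, e1⟫ > 0`. Let `g₁`, `g₂` be the isometries on the right and left side near `p`.
Points near `p` strictly left of `m` are joined to points `(x, b)`, `x < t`, without crossing lines of `L`: `FW w` is there not on lines of `Λ`, so it stays in `interior C`
(inside all half planes strictly, by connectedness of the open half disc). So the left closed half disc is in `Y`. If the right one also had a point off `m` in `Y` then in the same way the whole right half disc would be in `Y`, so `p ∈ interior Y`, contradiction. So points strictly to the right of `m` are mapped outside `C`.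
`g₁ = g₂` on `m`; if `g₁ ≠ g₂` then `g₁ = g₂ ∘ refl m` (`refl_of_agree`-like argument: plane isometries agreeing on a line are equal or differ by the reflection) and the right side would have the same image as the left side, inside `C`: contradiction. So `FW w = ρ := g₁ = g₂` near `p`.
`ρ p` is in `frontier C`, on exactly one line `l` of `Λ` (by the choice of `Z`; it is on at least one), strictly inside the others: (int). Near `p`: left side of `m` goes strictly inside `l`, right side outside, so `ρ` maps `m` onto `l` and (edge) holds (two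
affine functions of norm-one gradient with the same zero line and the same sign).
(before): the compact segment `{(x, b) | 0 ≤ x ≤ t - ε}` is in the open set `interior Y`, and near `p` the closed left half disc is in `Y`; Lebesgue number / tube lemma argument.
`ρ p ∉ Φ` because `p ∉ Z`.
-/

namespace Pool.Agent.SeamS

open Set Filter Topology Metric Pool.Agent.Hhelper79.Seam

/-! The proof uses the local structure of `FW w` on a big square instead of the cell induction. -/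

namespace ExitAux

theorem inner_eq (u v : E2) : inner ℝ u v = u 0 * v 0 + u 1 * v 1 := by
  simp only [PiLp.inner_apply, Fin.sum_univ_two, RCLike.inner_apply, conj_trivial]
  ring

theorem norm_sq (u : E2) : ‖u‖ ^ 2 = u 0 ^ 2 + u 1 ^ 2 := by
  rw [EuclideanSpace.norm_sq_eq]; simp [Fin.sum_univ_two]

theorem unit_iff {u : E2} (h : ‖u‖ = 1) : u 0 ^ 2 + u 1 ^ 2 = 1 := by
  rw [← norm_sq, h]; norm_num

theorem pt0 (a b : ℝ) : (pt a b) 0 = a := by simp [pt]
theorem pt1 (a b : ℝ) : (pt a b) 1 = b := by simp [pt]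

theorem e10 : e1 0 = 1 := by simp [e1]
theorem e11 : e1 1 = 0 := by simp [e1]

theorem ext2 {u v : E2} (h0 : u 0 = v 0) (h1 : u 1 = v 1) : u = v := by
  ext i; fin_cases i
  · exact h0
  · exact h1

theorem sub0 (u v : E2) (i : Fin 2) : (u - v) i = u i - v i := by simp

theorem neg0 (u : E2) (i : Fin 2) : (-u) i = - u i := by simp

theorem dist_le (u v : E2) : dist u v ≤ |u 0 - v 0| + |u 1 - v 1| := by
  rw [dist_eq_norm]
  have h := norm_sq (u - v)
  rw [sub0, sub0] at h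
  have h0 := abs_nonneg (u 0 - v 0)
  have h1 := abs_nonneg (u 1 - v 1)
  have h2 := sq_abs (u 0 - v 0)
  have h3 := sq_abs (u 1 - v 1)
  have h4 := norm_nonneg (u - v)
  nlinarith [mul_nonneg h0 h1]

theorem abs_le_norm (u : E2) (i : Fin 2) : |u i| ≤ ‖u‖ := by
  have h := norm_sq u
  have h4 := norm_nonneg u
  apply abs_le_of_sq_le_sq _ h4
  rw [h]
  fin_cases i
  · simp; positivity
  · simp; positivity

theorem unit_par {u v : E2} (hu : ‖u‖ = 1) (hv : ‖v‖ = 1) (h : u 0 * v 1 - u 1 * v 0 = 0) :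
    u = v ∨ u = -v := by
  have h1 := unit_iff hu
  have h2 := unit_iff hv
  have h3 : (u 0 * v 0 + u 1 * v 1) ^ 2 = 1 := by nlinarith [h1, h2, h]
  have h4 : (u 0 * v 0 + u 1 * v 1 - 1) * (u 0 * v 0 + u 1 * v 1 + 1) = 0 := by nlinarith
  rcases mul_eq_zero.1 h4 with h5 | h5
  · left
    have h6 : (u 0 - v 0) ^ 2 + (u 1 - v 1) ^ 2 = 0 := by nlinarith
    apply ext2
    · nlinarith [sq_nonneg (u 0 - v 0), sq_nonneg (u 1 - v 1)]
    · nlinarith [sq_nonneg (u 0 - v 0), sq_nonneg (u 1 - v 1)]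
  · right
    have h6 : (u 0 + v 0) ^ 2 + (u 1 + v 1) ^ 2 = 0 := by nlinarith
    apply ext2
    · rw [neg0]; nlinarith [sq_nonneg (u 0 + v 0), sq_nonneg (u 1 + v 1)]
    · rw [neg0]; nlinarith [sq_nonneg (u 0 + v 0), sq_nonneg (u 1 + v 1)]

theorem perp_unit {V N₁ N₂ : E2} (hV : ‖V‖ = 1) (h1 : ‖N₁‖ = 1) (h2 : ‖N₂‖ = 1)
    (h : inner ℝ V N₁ = 0) (h' : inner ℝ V N₂ = 0) : N₁ = N₂ ∨ N₁ = -N₂ := by
  apply unit_par h1 h2
  rw [inner_eq] at h h'
  have h3 := unit_iff hV
  have h4 : V 0 * (N₁ 0 * N₂ 1 - N₁ 1 * N₂ 0) = 0 := by linear_combination N₂ 1 * h - N₁ 1 * h'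
  have h5 : V 1 * (N₁ 0 * N₂ 1 - N₁ 1 * N₂ 0) = 0 := by linear_combination N₁ 0 * h' - N₂ 0 * h
  have h6 : (V 0 ^ 2 + V 1 ^ 2) * (N₁ 0 * N₂ 1 - N₁ 1 * N₂ 0) = 0 := by
    linear_combination V 0 * h4 + V 1 * h5
  rw [h3, one_mul] at h6
  exact h6

/-- the preimage of the line `l` under the isometry `g` -/
noncomputable def pull (g : E2 →ᵃⁱ[ℝ] E2) (l : E2 × ℝ) : E2 × ℝ :=
  ((g.linearIsometry.toLinearIsometryEquiv rfl).symm l.1, l.2 - inner ℝ l.1 (g 0))

theorem map_eq (g : E2 →ᵃⁱ[ℝ] E2) (y : E2) : g y = g.linearIsometry y + g 0 := by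
  have h := g.map_vadd 0 y
  simpa using h

theorem pull_norm (g : E2 →ᵃⁱ[ℝ] E2) (l : E2 × ℝ) : ‖(pull g l).1‖ = ‖l.1‖ := by
  simp [pull]

theorem pull_spec (g : E2 →ᵃⁱ[ℝ] E2) (l : E2 × ℝ) (y : E2) :
    inner ℝ (pull g l).1 y - (pull g l).2 = inner ℝ l.1 (g y) - l.2 := by
  have h : inner ℝ ((g.linearIsometry.toLinearIsometryEquiv rfl).symm l.1) y
      = inner ℝ l.1 (g.linearIsometry y) := by
    rw [← LinearIsometryEquiv.inner_map_map (g.linearIsometry.toLinearIsometryEquiv rfl),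
      LinearIsometryEquiv.apply_symm_apply]
    rfl
  rw [map_eq g y, inner_add_right]
  show inner ℝ ((g.linearIsometry.toLinearIsometryEquiv rfl).symm l.1) y
    - (l.2 - inner ℝ l.1 (g 0)) = _
  rw [h]; ring

theorem dichotomy {m : E2 × ℝ} (hm : ‖m.1‖ = 1) {g₁ g₂ : E2 →ᵃⁱ[ℝ] E2}
    (hag : ∀ y, inner ℝ m.1 y = m.2 → g₁ y = g₂ y) :
    (∀ y, g₁ y = g₂ y) ∨ ∀ y, g₂ y = g₁ (refl m y) := by
  set v : E2 := pt (- m.1 1) (m.1 0) with hv
  have hm' := unit_iff hm
  have hv1 : ‖v‖ = 1 := by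
    have h := norm_sq v
    rw [hv, pt0, pt1] at h
    have h' : ‖v‖ ^ 2 = 1 := by rw [hv]; rw [h]; linarith
    have h4 := norm_nonneg v
    nlinarith
  have hz : ∀ y : E2, inner ℝ m.1 (y - (inner ℝ m.1 y - m.2) • m.1) = m.2 := by
    intro y
    rw [inner_sub_right, inner_smul_right, real_inner_self_eq_norm_sq, hm]; ring
  have hvm : inner ℝ m.1 v = 0 := by
    rw [inner_eq, hv, pt0, pt1]; ring
  have hlin : ∀ (g : E2 →ᵃⁱ[ℝ] E2) (z u : E2), g (u + z) = g.linearIsometry u + g z := by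
    intro g z u
    have h := g.map_vadd z u
    simpa using h
  have hz0 := hz 0
  set z₀ : E2 := (0 : E2) - (inner ℝ m.1 (0 : E2) - m.2) • m.1 with hz₀
  have hV : g₁.linearIsometry v = g₂.linearIsometry v := by
    have h1 := hag z₀ hz0
    have h2 := hag (v + z₀) (by rw [inner_add_right, hvm, hz0]; ring)
    rw [hlin, hlin, h1] at h2
    exact add_right_cancel h2
  have hN := perp_unit (V := g₁.linearIsometry v) (N₁ := g₁.linearIsometry m.1)
    (N₂ := g₂.linearIsometry m.1) (by rw [LinearIsometry.norm_map]; exact hv1)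
    (by rw [LinearIsometry.norm_map]; exact hm) (by rw [LinearIsometry.norm_map]; exact hm)
    (by rw [LinearIsometry.inner_map_map, real_inner_comm]; exact hvm)
    (by rw [hV, LinearIsometry.inner_map_map, real_inner_comm]; exact hvm)
  have hy : ∀ y : E2, y = (inner ℝ m.1 y - m.2) • m.1 + (y - (inner ℝ m.1 y - m.2) • m.1) := by
    intro y; abel
  rcases hN with hN | hN
  · left
    intro y
    rw [hy y, hlin, hlin, hag _ (hz y), map_smul, map_smul, hN]
  · right
    intro y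
    have e : refl m y = (-(inner ℝ m.1 y - m.2)) • m.1 + (y - (inner ℝ m.1 y - m.2) • m.1) := by
      unfold refl
      module
    rw [e, hlin, hag _ (hz y), map_smul, hN]
    conv_lhs => rw [hy y, hlin, map_smul]
    module

theorem finite_horizontal {S : Set (E2 × ℝ)} (hS : S.Finite) (hn : ∀ l ∈ S, ‖l.1‖ = 1) :
    {b : ℝ | ∃ l ∈ S, l.1 0 = 0 ∧ l.1 1 * b = l.2}.Finite := by
  have h : {b : ℝ | ∃ l ∈ S, l.1 0 = 0 ∧ l.1 1 * b = l.2}
      = ⋃ l ∈ S, {b : ℝ | l.1 0 = 0 ∧ l.1 1 * b = l.2} := by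
    ext b; simp only [mem_ofPred_eq, mem_iUnion, exists_prop]
  rw [h]
  apply hS.biUnion
  intro l hl
  apply Set.Subsingleton.finite
  rintro a ⟨ha, ha'⟩ b ⟨_, hb'⟩
  have h1 := unit_iff (hn l hl)
  rw [ha] at h1
  have h2 : l.1 1 ≠ 0 := by
    intro h; rw [h] at h1; norm_num at h1
  apply mul_left_cancel₀ h2
  rw [ha', hb']

theorem finite_inter {S : Set (E2 × ℝ)} (hS : S.Finite) :
    {q : E2 | ∃ l ∈ S, ∃ l' ∈ S, inner ℝ l.1 q = l.2 ∧ inner ℝ l'.1 q = l'.2 ∧
      l.1 0 * l'.1 1 - l.1 1 * l'.1 0 ≠ 0}.Finite := by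
  have h : {q : E2 | ∃ l ∈ S, ∃ l' ∈ S, inner ℝ l.1 q = l.2 ∧ inner ℝ l'.1 q = l'.2 ∧
      l.1 0 * l'.1 1 - l.1 1 * l'.1 0 ≠ 0}
      = ⋃ l ∈ S, ⋃ l' ∈ S, {q : E2 | inner ℝ l.1 q = l.2 ∧ inner ℝ l'.1 q = l'.2 ∧
      l.1 0 * l'.1 1 - l.1 1 * l'.1 0 ≠ 0} := by
    ext b; simp
  rw [h]
  apply hS.biUnion
  intro l hl
  apply hS.biUnion
  intro l' hl'
  apply Set.Subsingleton.finite
  rintro a ⟨ha, ha', hd⟩ b ⟨hb, hb', _⟩
  rw [inner_eq] at ha ha' hb hb'
  have h1 : (l.1 0 * l'.1 1 - l.1 1 * l'.1 0) * (a 0 - b 0) = 0 := by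
    linear_combination l'.1 1 * ha - l.1 1 * ha' - l'.1 1 * hb + l.1 1 * hb'
  have h2 : (l.1 0 * l'.1 1 - l.1 1 * l'.1 0) * (a 1 - b 1) = 0 := by
    linear_combination l.1 0 * ha' - l'.1 0 * ha - l.1 0 * hb' + l'.1 0 * hb
  apply ext2
  · have := (mul_eq_zero.1 h1).resolve_left hd; linarith
  · have := (mul_eq_zero.1 h2).resolve_left hd; linarith

/-- points on two different lines of `Λ` -/
theorem finite_corners {Λ : Set (E2 × ℝ)} (hΛ : Λ.Finite) (hn : ∀ l ∈ Λ, ‖l.1‖ = 1)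
    {c₀ : E2} (hc : ∀ l ∈ Λ, l.2 < inner ℝ l.1 c₀) :
    {q : E2 | ∃ l ∈ Λ, ∃ l' ∈ Λ, l' ≠ l ∧ inner ℝ l.1 q = l.2 ∧ inner ℝ l'.1 q = l'.2}.Finite := by
  apply (finite_inter hΛ).subset
  rintro q ⟨l, hl, l', hl', hne, h1, h2⟩
  refine ⟨l, hl, l', hl', h1, h2, ?_⟩
  intro hd
  rcases unit_par (hn l hl) (hn l' hl') hd with h | h
  · apply hne
    apply Prod.ext
    · exact h.symm
    · rw [← h1, ← h2, h]
  · have e1 := hc l hl
    have e2 := hc l' hl'
    rw [h, inner_neg_left] at e1 h1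
    rw [← h1] at e1
    rw [← h2] at e2
    linarith

theorem hull_closed (Λ : Set (E2 × ℝ)) : IsClosed (Hull Λ) := by
  have h : Hull Λ = ⋂ l ∈ Λ, {y : E2 | l.2 ≤ inner ℝ l.1 y} := by
    ext y; simp [Hull]
  rw [h]
  apply isClosed_biInter
  intro l _
  exact isClosed_le continuous_const (by fun_prop)

end ExitAux

/-- exit of the string of height `b` from the plate `Hull Λ` to the right -/
structure ExitR (Λ : Set (E2 × ℝ)) (w : List (E2 × ℝ)) (R b : ℝ) (n : E2) (t : ℝ)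
    (ρ : E2 →ᵃⁱ[ℝ] E2) (l : E2 × ℝ) : Prop where
  unit : ‖n‖ = 1
  dir : 0 < inner ℝ n e1
  far : R ^ 2 ≤ t ^ 2 + b ^ 2
  tpos : 0 < t
  iso : ∀ᶠ y in 𝓝 (pt t b), FW w y = ρ y
  mem : l ∈ Λ
  edge : ∀ y, inner ℝ l.1 (ρ y) - l.2 = - inner ℝ n (y - pt t b)
  int : ∀ l' ∈ Λ, l' ≠ l → l'.2 < inner ℝ l'.1 (ρ (pt t b))
  before : ∃ η > 0, ∀ y : E2, 0 ≤ y 0 → |y 1 - b| ≤ η → inner ℝ n (y - pt t b) ≤ 0 →
    FW w y ∈ Hull Λ

namespace ExitAux

theorem exit_at {Λ : Set (E2 × ℝ)} (hΛ : Λ.Finite) (hn : ∀ l ∈ Λ, ‖l.1‖ = 1)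
    {w : List (E2 × ℝ)} {R : ℝ} {b t : ℝ} (ht : 0 < t) (hfar : R ^ 2 ≤ t ^ 2 + b ^ 2)
    (hint : ∀ x, 0 ≤ x → x < t → pt x b ∈ interior (FW w ⁻¹' Hull Λ))
    {g : E2 →ᵃⁱ[ℝ] E2} (hg : ∀ᶠ y in 𝓝 (pt t b), FW w y = g y)
    {l : E2 × ℝ} (hl : l ∈ Λ) (hlp : inner ℝ l.1 (g (pt t b)) = l.2)
    (hoth : ∀ l' ∈ Λ, l' ≠ l → l'.2 < inner ℝ l'.1 (g (pt t b)))
    (hh : (pull g l).1 0 ≠ 0) : ExitR Λ w R b (-(pull g l).1) t g l := by
  have hlen : ‖-(pull g l).1‖ = 1 := by rw [norm_neg, pull_norm]; exact hn l hl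
  have hp : inner ℝ (pull g l).1 (pt t b) = (pull g l).2 := by
    have := pull_spec g l (pt t b); rw [hlp] at this; linarith
  have hedge : ∀ y, inner ℝ l.1 (g y) - l.2 = - inner ℝ (-(pull g l).1) (y - pt t b) := by
    intro y
    rw [← pull_spec g l y, inner_neg_left, neg_neg, inner_sub_right, hp]
  have hcg : Continuous g := g.continuous
  have hother : ∀ᶠ y in 𝓝 (pt t b), ∀ l' ∈ Λ, l' ≠ l → l'.2 < inner ℝ l'.1 (g y) := by
    rw [hΛ.eventually_all]
    intro l' hl'
    by_cases e : l' = l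
    · exact Filter.Eventually.of_forall (fun y h => absurd e h)
    · have h1 : Continuous fun y => inner ℝ l'.1 (g y) := by fun_prop
      have h2 := (h1.tendsto (pt t b)).eventually (lt_mem_nhds (hoth l' hl' e))
      exact h2.mono (fun y hy _ => hy)
  obtain ⟨δ, hδ, hδ'⟩ := Metric.eventually_nhds_iff.1 (hg.and hother)
  have hcase : ∀ y, dist y (pt t b) < δ → inner ℝ (-(pull g l).1) (y - pt t b) ≤ 0 →
      FW w y ∈ Hull Λ := by
    intro y hy hi l' hl'
    obtain ⟨h1, h2⟩ := hδ' hy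
    rw [h1]
    by_cases e : l' = l
    · rw [e]; have := hedge y; linarith
    · exact (h2 l' hl' e).le
  set n : E2 := -(pull g l).1 with hndef
  have hn0 : n 0 ≠ 0 := by rw [hndef, neg0]; exact neg_ne_zero.2 hh
  have hnn := unit_iff hlen
  have hni : ∀ y : E2, inner ℝ n (y - pt t b) = n 0 * (y 0 - t) + n 1 * (y 1 - b) := by
    intro y
    rw [inner_eq, sub0, sub0, pt0, pt1]
  have hpos : 0 < n 0 := by
    set x : ℝ := max 0 (t - δ / 2) with hx
    have hx0 : 0 ≤ x := le_max_left _ _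
    have hxt : x < t := by rw [hx]; exact max_lt ht (by linarith)
    have hxd : t - x ≤ δ / 2 := by have := le_max_right 0 (t - δ / 2); rw [← hx] at this; linarith
    have h1 := interior_subset (hint x hx0 hxt)
    have h2 : dist (pt x b) (pt t b) < δ := by
      have := dist_le (pt x b) (pt t b)
      rw [pt0, pt0, pt1, pt1, sub_self, abs_zero, add_zero, abs_of_nonpos (by linarith)] at this
      linarith
    have h3 := h1 l hl
    rw [(hδ' h2).1] at h3
    have h4 := hedge (pt x b)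
    rw [hni, pt0, pt1] at h4
    have h5 : 0 ≤ n 0 * (t - x) := by nlinarith
    have h6 : 0 ≤ n 0 := by
      by_contra h
      push Not at h
      nlinarith
    exact lt_of_le_of_ne h6 (Ne.symm hn0)
  refine ⟨hlen, ?_, hfar, ht, hg, hl, hedge, hoth, ?_⟩
  · rw [inner_eq, e10, e11]; linarith
  · -- the tube
    have hn1 : |n 1| ≤ 1 := by
      apply abs_le_of_sq_le_sq _ (by norm_num)
      nlinarith [sq_nonneg (n 0)]
    set K : Set E2 := (fun x : ℝ => pt x b) '' (Icc 0 (t - δ / 2)) with hK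
    have hpc : Continuous (fun x : ℝ => pt x b) := by
      unfold pt; fun_prop
    have hKc : IsCompact K := isCompact_Icc.image hpc
    have hKs : K ⊆ interior (FW w ⁻¹' Hull Λ) := by
      rintro _ ⟨x, ⟨hx0, hx1⟩, rfl⟩
      exact hint x hx0 (by linarith)
    obtain ⟨η₁, hη₁, hη₁'⟩ := hKc.exists_thickening_subset_open isOpen_interior hKs
    refine ⟨min (η₁ / 2) (min (n 0 * (δ / 2)) (δ / 4)), by positivity, ?_⟩
    intro y hy0 hy1 hy2
    have ha : |y 1 - b| ≤ η₁ / 2 := hy1.trans (min_le_left _ _)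
    have hb : |y 1 - b| ≤ n 0 * (δ / 2) := hy1.trans ((min_le_right _ _).trans (min_le_left _ _))
    have hc : |y 1 - b| ≤ δ / 4 := hy1.trans ((min_le_right _ _).trans (min_le_right _ _))
    by_cases hyt : y 0 ≤ t - δ / 2
    · have : y ∈ interior (FW w ⁻¹' Hull Λ) := by
        apply hη₁'
        rw [mem_thickening_iff]
        refine ⟨pt (y 0) b, ⟨y 0, ⟨hy0, hyt⟩, rfl⟩, ?_⟩
        have := dist_le y (pt (y 0) b)
        rw [pt0, pt1, sub_self, abs_zero, zero_add] at this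
        linarith
      exact (interior_subset this : y ∈ FW w ⁻¹' Hull Λ)
    · push Not at hyt
      apply hcase y _ hy2
      rw [hni] at hy2
      have h7 : - (n 1 * (y 1 - b)) ≤ |y 1 - b| := by
        have h8 : |n 1 * (y 1 - b)| ≤ |y 1 - b| := by
          rw [abs_mul]
          have := mul_le_mul_of_nonneg_right hn1 (abs_nonneg (y 1 - b))
          linarith
        exact (neg_le_abs _).trans h8
      have h9 : n 0 * (y 0 - t) ≤ n 0 * (δ / 2) := by linarith
      have h10 : y 0 - t ≤ δ / 2 := le_of_mul_le_mul_left h9 hpos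
      have h11 : |y 0 - t| ≤ δ / 2 := by
        rw [abs_le]; constructor
        · linarith
        · exact h10
      have := dist_le y (pt t b)
      rw [pt0, pt1] at this
      linarith

theorem fold_contra {Λ : Set (E2 × ℝ)} (hΛ : Λ.Finite) (hn : ∀ l ∈ Λ, ‖l.1‖ = 1)
    {w : List (E2 × ℝ)} {b t : ℝ} (ht : 0 < t)
    (hint : ∀ x, 0 ≤ x → x < t → pt x b ∈ interior (FW w ⁻¹' Hull Λ))
    (hpi : pt t b ∉ interior (FW w ⁻¹' Hull Λ))
    {m : E2 × ℝ} (hm : ‖m.1‖ = 1) (hmp : inner ℝ m.1 (pt t b) = m.2)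
    {g : E2 →ᵃⁱ[ℝ] E2}
    (hg1 : ∀ᶠ y in 𝓝 (pt t b), m.2 ≤ inner ℝ m.1 y → FW w y = g y)
    (hg2 : ∀ᶠ y in 𝓝 (pt t b), inner ℝ m.1 y ≤ m.2 → FW w y = g (refl m y))
    {l : E2 × ℝ} (hl : l ∈ Λ) (hlp : inner ℝ l.1 (g (pt t b)) = l.2)
    (hoth : ∀ l' ∈ Λ, l' ≠ l → l'.2 < inner ℝ l'.1 (g (pt t b)))
    (hdet : (pull g l).1 0 * m.1 1 - (pull g l).1 1 * m.1 0 = 0) : False := by
  have hp : inner ℝ (pull g l).1 (pt t b) = (pull g l).2 := by
    have := pull_spec g l (pt t b); rw [hlp] at this; linarith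
  have hun : ‖(pull g l).1‖ = 1 := by rw [pull_norm]; exact hn l hl
  have hcg : Continuous g := g.continuous
  have hcr : Continuous (refl m) := by
    unfold refl; fun_prop
  have hrp : refl m (pt t b) = pt t b := by
    unfold refl; rw [hmp]; simp
  have hother : ∀ᶠ y in 𝓝 (pt t b), ∀ l' ∈ Λ, l' ≠ l → l'.2 < inner ℝ l'.1 (g y) := by
    rw [hΛ.eventually_all]
    intro l' hl'
    by_cases e : l' = l
    · exact Filter.Eventually.of_forall (fun y h => absurd e h)
    · have h1 : Continuous fun y => inner ℝ l'.1 (g y) := by fun_prop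
      have h2 := (h1.tendsto (pt t b)).eventually (lt_mem_nhds (hoth l' hl' e))
      exact h2.mono (fun y hy _ => hy)
  have hother' : ∀ᶠ y in 𝓝 (pt t b), ∀ l' ∈ Λ, l' ≠ l →
      l'.2 < inner ℝ l'.1 (g (refl m y)) := by
    rw [hΛ.eventually_all]
    intro l' hl'
    by_cases e : l' = l
    · exact Filter.Eventually.of_forall (fun y h => absurd e h)
    · have h1 : Continuous fun y => inner ℝ l'.1 (g (refl m y)) :=
        continuous_const.inner (hcg.comp hcr)
      have h2 := (h1.tendsto (pt t b)).eventually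
        (lt_mem_nhds (by rw [hrp]; exact hoth l' hl' e))
      exact h2.mono (fun y hy _ => hy)
  rcases unit_par hun hm hdet with hpm | hpm
  · -- the neighbourhood of the point is mapped into the plate
    have hs : ∀ y, inner ℝ l.1 (g y) - l.2 = inner ℝ m.1 y - m.2 := by
      intro y
      rw [← pull_spec g l y, ← hp, ← hmp, hpm]
    apply hpi
    rw [mem_interior_iff_mem_nhds]
    have hall := (hg1.and hg2).and (hother.and hother')
    filter_upwards [hall] with y hy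
    obtain ⟨⟨h1, h2⟩, h3, h4⟩ := hy
    intro l' hl'
    rcases le_total m.2 (inner ℝ m.1 y) with h | h
    · rw [h1 h]
      by_cases e : l' = l
      · rw [e]; have := hs y; linarith
      · exact (h3 l' hl' e).le
    · rw [h2 h]
      by_cases e : l' = l
      · rw [e]; have := hs (refl m y); rw [inner_refl hm] at this; linarith
      · exact (h4 l' hl' e).le
  · have hs : ∀ y, inner ℝ l.1 (g y) - l.2 = - (inner ℝ m.1 y - m.2) := by
      intro y
      rw [← pull_spec g l y, ← hp, ← hmp, hpm, inner_neg_left, inner_neg_left]; ring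
    obtain ⟨δ, hδ, hδ'⟩ := Metric.eventually_nhds_iff.1 (hg1.and hg2)
    set x : ℝ := max 0 (t - δ / 2) with hx
    have hx0 : 0 ≤ x := le_max_left _ _
    have hxt : x < t := by rw [hx]; exact max_lt ht (by linarith)
    have hxd : t - x ≤ δ / 2 := by have := le_max_right 0 (t - δ / 2); rw [← hx] at this; linarith
    have h1 := hint x hx0 hxt
    have h2 : dist (pt x b) (pt t b) < δ := by
      have := dist_le (pt x b) (pt t b)
      rw [pt0, pt0, pt1, pt1, sub_self, abs_zero, add_zero, abs_of_nonpos (by linarith)] at this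
      linarith
    have hoff : ∀ y, dist y (pt t b) < δ → y ∈ interior (FW w ⁻¹' Hull Λ) →
        inner ℝ m.1 y = m.2 := by
      intro y hy hyi
      have h3 : FW w y ∈ Hull Λ := (interior_subset hyi : y ∈ FW w ⁻¹' Hull Λ)
      have h4 := h3 l hl
      obtain ⟨h5, h6⟩ := hδ' hy
      rcases le_total m.2 (inner ℝ m.1 y) with h | h
      · rw [h5 h] at h4
        have := hs y
        linarith
      · rw [h6 h] at h4
        have := hs (refl m y)
        rw [inner_refl hm] at this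
        linarith
    have hcε : Continuous (fun ε : ℝ => pt x b + ε • m.1) := by fun_prop
    have hε : ∀ᶠ ε in 𝓝 (0 : ℝ), pt x b + ε • m.1 ∈
        interior (FW w ⁻¹' Hull Λ) ∩ ball (pt t b) δ := by
      apply hcε.continuousAt.eventually_mem
      apply (isOpen_interior.inter isOpen_ball).mem_nhds
      simp only [zero_smul, add_zero]
      exact ⟨h1, h2⟩
    obtain ⟨ε, hε0, hε1⟩ := Metric.eventually_nhds_iff.1 hε
    have h7 := hε1 (y := ε / 2) (by rw [Real.dist_eq, sub_zero, abs_of_pos (by linarith)]; linarith)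
    have h8 := hoff _ h7.2 h7.1
    have h9 := hoff _ h2 h1
    rw [inner_add_right, h9, inner_smul_right, real_inner_self_eq_norm_sq, hm] at h8
    linarith

end ExitAux

open ExitAux in
/-- all but finitely many heights are good, and the exit point avoids a finite set -/
theorem exists_exitR {Λ : Set (E2 × ℝ)} (hΛ : Λ.Finite) (hn : ∀ l ∈ Λ, ‖l.1‖ = 1)
    (hb : Bornology.IsBounded (Hull Λ)) {c₀ : E2} (hc : ∀ l ∈ Λ, l.2 < inner ℝ l.1 c₀)
    {w : List (E2 × ℝ)} (hw : ∀ l ∈ w, l ∈ Λ) {R : ℝ} (hR : 0 < R)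
    (hwR : ∀ y ∈ closedBall (0 : E2) R, FW w y ∈ Hull Λ) (Φ : Set E2) (hΦ : Φ.Finite) :
    {b : ℝ | |b| < R ∧ ¬ ∃ n t ρ l, ExitR Λ w R b n t ρ l ∧ ρ (pt t b) ∉ Φ}.Finite := by
  have hw1 : ∀ l ∈ w, ‖l.1‖ = 1 := fun l hl => hn l (hw l hl)
  have hcont := FW_continuous hw1
  set Y : Set E2 := FW w ⁻¹' Hull Λ with hY
  have hYc : IsClosed Y := (hull_closed Λ).preimage hcont
  obtain ⟨D, hD⟩ := dist_FW_ge hw1 c₀
  obtain ⟨r, hr⟩ := hb.subset_closedBall c₀
  set M : ℝ := |D + r + ‖c₀‖| + 1 with hM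
  have hYb : ∀ y ∈ Y, ‖y‖ < M := by
    intro y hy
    have h1 := hD y
    have h2 : dist (FW w y) c₀ ≤ r := mem_closedBall.1 (hr hy)
    have h3 : ‖y‖ ≤ dist y c₀ + ‖c₀‖ := by
      rw [dist_eq_norm]
      have := norm_add_le (y - c₀) c₀
      simpa using this
    have h4 := le_abs_self (D + r + ‖c₀‖)
    rw [hM]; linarith
  have hMpos : 0 < M := by rw [hM]; positivity
  set X : Set E2 := {y | y 0 ∈ Icc (-M) M ∧ y 1 ∈ Icc (-M) M} with hXdef
  have hXn : ∀ p : E2, ‖p‖ < M → X ∈ 𝓝 p := by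
    intro p hp
    have h0 : ∀ i : Fin 2, ∀ᶠ y in 𝓝 p, y i ∈ Icc (-M) M := by
      intro i
      have hcx : Continuous (fun y : E2 => y i) := by fun_prop
      have h1 := abs_lt.1 ((abs_le_norm p i).trans_lt hp)
      exact hcx.continuousAt.eventually_mem (Icc_mem_nhds h1.1 h1.2)
    filter_upwards [h0 0, h0 1] with y h1 h2 using ⟨h1, h2⟩
  have hX2 : IsPoly2 X := ⟨isPoly_rect _ _ _ _, 0, by
    rw [mem_interior_iff_mem_nhds]; exact hXn 0 (by rw [norm_zero]; exact hMpos)⟩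
  have hXP : PolySet X := ⟨{X}, finite_singleton _, by
    intro t ht; rw [mem_singleton_iff] at ht; rw [ht]; exact hX2, by simp⟩
  have hpc := (FW_foldOn hw1 hXP).pieces
  obtain ⟨E, hE, L, hL, hL1, Γ, hΓ, hloc⟩ := hpc.local_structure
  set L' : Set (E2 × ℝ) := L ∪ (fun q : (E2 →ᵃⁱ[ℝ] E2) × (E2 × ℝ) => pull q.1 q.2) '' (Γ ×ˢ Λ)
    with hL'
  have hL'f : L'.Finite := hL.union ((hΓ.prod hΛ).image _)
  have hL'1 : ∀ l ∈ L', ‖l.1‖ = 1 := by
    rintro l (h | ⟨q, hq, rfl⟩)
    · exact hL1 l h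
    · show ‖(pull q.1 q.2).1‖ = 1
      rw [pull_norm]; exact hn _ hq.2
  set S : Set E2 := Φ ∪ {q : E2 | ∃ l ∈ Λ, ∃ l' ∈ Λ, l' ≠ l ∧ inner ℝ l.1 q = l.2 ∧
    inner ℝ l'.1 q = l'.2} with hS
  have hSf : S.Finite := hΦ.union (finite_corners hΛ hn hc)
  set Z : Set E2 := E ∪ ({q : E2 | ∃ l ∈ L', ∃ l' ∈ L', inner ℝ l.1 q = l.2 ∧
    inner ℝ l'.1 q = l'.2 ∧ l.1 0 * l'.1 1 - l.1 1 * l'.1 0 ≠ 0} ∪
      ⋃ s ∈ S, {x | x ∈ X ∧ FW w x = s}) with hZ
  have hZf : Z.Finite := hE.union ((finite_inter hL'f).union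
    (hSf.biUnion fun s _ => hpc.finite_fibre s))
  have hBf : ((fun q : E2 => q 1) '' Z ∪ {b : ℝ | ∃ l ∈ L', l.1 0 = 0 ∧ l.1 1 * b = l.2}).Finite :=
    (hZf.image _).union (finite_horizontal hL'f hL'1)
  apply hBf.subset
  rintro b ⟨hbR, hbn⟩
  by_contra hbad
  apply hbn
  rw [mem_union, not_or] at hbad
  obtain ⟨hbZ, hbH⟩ := hbad
  -- the exit point
  have hballY : ball (0 : E2) R ⊆ interior Y := by
    apply interior_maximal _ isOpen_ball
    intro y hy
    exact hwR y (ball_subset_closedBall hy)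
  set T : Set ℝ := {x | 0 ≤ x ∧ pt x b ∉ interior Y} with hT
  have hptc : Continuous (fun x : ℝ => pt x b) := by unfold pt; fun_prop
  have hTc : IsClosed T := by
    apply isClosed_Ici.inter
    exact (isOpen_interior.preimage hptc).isClosed_compl
  have hTn : T.Nonempty := by
    refine ⟨M, hMpos.le, ?_⟩
    intro h
    have h1 := hYb _ (interior_subset h)
    have h2 := abs_le_norm (pt M b) 0
    rw [pt0, abs_of_pos hMpos] at h2
    linarith
  have hTb : BddBelow T := ⟨0, fun x hx => hx.1⟩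
  set t : ℝ := sInf T with ht
  have htT : t ∈ T := hTc.csInf_mem hTn hTb
  have h0b : ∀ x : ℝ, x ^ 2 + b ^ 2 < R ^ 2 → pt x b ∈ interior Y := by
    intro x hx
    apply hballY
    rw [mem_ball_zero_iff]
    have := norm_sq (pt x b)
    rw [pt0, pt1] at this
    apply lt_of_pow_lt_pow_left₀ 2 hR.le
    rw [this]; exact hx
  have hbR2 : b ^ 2 < R ^ 2 := by
    rw [← sq_abs b]; exact pow_lt_pow_left₀ hbR (abs_nonneg b) (by norm_num)
  have htpos : 0 < t := by
    apply lt_of_le_of_ne htT.1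
    intro h
    apply htT.2
    rw [← h]
    apply h0b
    simpa using hbR2
  have hfar : R ^ 2 ≤ t ^ 2 + b ^ 2 := by
    by_contra h
    exact htT.2 (h0b t (not_le.1 h))
  have hint : ∀ x, 0 ≤ x → x < t → pt x b ∈ interior Y := by
    intro x hx0 hxt
    by_contra h
    exact absurd (csInf_le hTb (show x ∈ T from ⟨hx0, h⟩)) (not_le.2 hxt)
  have hpY : pt t b ∈ Y := by
    have h1 : t ∈ closure (Ioo 0 t) := by
      rw [closure_Ioo htpos.ne]; exact ⟨htpos.le, le_rfl⟩
    have h2 : pt t b ∈ closure ((fun x : ℝ => pt x b) '' Ioo 0 t) :=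
      image_closure_subset_closure_image hptc ⟨t, h1, rfl⟩
    have h3 : (fun x : ℝ => pt x b) '' Ioo 0 t ⊆ Y := by
      rintro _ ⟨x, hx, rfl⟩
      exact interior_subset (hint x hx.1.le hx.2)
    exact (closure_minimal h3 hYc) h2
  have hpn : ‖pt t b‖ < M := hYb _ hpY
  have hXp : X ∈ 𝓝 (pt t b) := hXn _ hpn
  have hpX : pt t b ∈ X := mem_of_mem_nhds hXp
  have hpZ : pt t b ∉ Z := fun h => hbZ ⟨pt t b, h, pt1 t b⟩
  have hpE : pt t b ∉ E := fun h => hpZ (Or.inl h)
  have hpS : FW w (pt t b) ∉ S := by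
    intro h
    apply hpZ
    right; right
    simp only [mem_iUnion]
    exact ⟨_, h, hpX, rfl⟩
  -- the line of the plate
  have hline : ∃ l ∈ Λ, inner ℝ l.1 (FW w (pt t b)) = l.2 := by
    by_contra hne
    push Not at hne
    apply htT.2
    rw [mem_interior_iff_mem_nhds]
    have h1 : ∀ᶠ y in 𝓝 (pt t b), ∀ l ∈ Λ, l.2 < inner ℝ l.1 (FW w y) := by
      rw [hΛ.eventually_all]
      intro l hl
      have h2 : Continuous fun y => inner ℝ l.1 (FW w y) := by fun_prop
      exact (h2.tendsto (pt t b)).eventually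
        (lt_mem_nhds (lt_of_le_of_ne (hpY l hl) (Ne.symm (hne l hl))))
    filter_upwards [h1] with y hy l hl using (hy l hl).le
  obtain ⟨l, hl, hlp⟩ := hline
  have hoth : ∀ l' ∈ Λ, l' ≠ l → l'.2 < inner ℝ l'.1 (FW w (pt t b)) := by
    intro l' hl' hne
    apply lt_of_le_of_ne (hpY l' hl')
    intro h
    apply hpS
    right
    exact ⟨l, hl, l', hl', hne, hlp, h.symm⟩
  -- the flat case
  have hflat : ∀ g ∈ Γ, (∀ᶠ y in 𝓝 (pt t b), FW w y = g y) →
      ∃ n t ρ l, ExitR Λ w R b n t ρ l ∧ ρ (pt t b) ∉ Φ := by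
    intro g hg hev
    have h1 : FW w (pt t b) = g (pt t b) := hev.self_of_nhds
    rw [h1] at hlp hoth hpS
    refine ⟨_, t, g, l, exit_at hΛ hn htpos hfar hint hev hl hlp hoth ?_, fun h => hpS (Or.inl h)⟩
    intro h
    apply hbH
    refine ⟨pull g l, Or.inr ⟨(g, l), ⟨hg, hl⟩, rfl⟩, h, ?_⟩
    have h2 : inner ℝ (pull g l).1 (pt t b) = (pull g l).2 := by
      have := pull_spec g l (pt t b); rw [hlp] at this; linarith
    rw [inner_eq, pt0, pt1, h] at h2
    linarith
  rcases hloc _ hpX hpE with ⟨g, hg, hf⟩ | ⟨m, hm, g₁, hg₁, g₂, hg₂, hmp, hag, hs1, hs2⟩ |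
    ⟨m, hm, g₁, hg₁, hmp, hs1, hs2⟩
  · exact hflat g hg (hf.mono fun y hy => hy.2)
  · rcases dichotomy (hL1 m hm) hag with heq | hfo
    · apply hflat g₁ hg₁
      filter_upwards [hs1, hs2] with y h1 h2
      rcases le_total m.2 (inner ℝ m.1 y) with h | h
      · exact (h1 h).2
      · rw [(h2 h).2, heq]
    · exfalso
      have h1 : FW w (pt t b) = g₁ (pt t b) := (hs1.self_of_nhds hmp.ge).2
      rw [h1] at hlp hoth
      refine fold_contra hΛ hn htpos hint htT.2 (hL1 m hm) hmp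
        (hs1.mono fun y hy h => (hy h).2) (hs2.mono fun y hy h => ?_) hl hlp hoth ?_
      · rw [(hy h).2, hfo]
      · by_contra hdet
        apply hpZ
        right; left
        refine ⟨pull g₁ l, Or.inr ⟨(g₁, l), ⟨hg₁, hl⟩, rfl⟩, m, Or.inl hm, ?_, hmp, hdet⟩
        have := pull_spec g₁ l (pt t b); rw [hlp] at this; linarith
  · exfalso
    have hcε : Continuous (fun ε : ℝ => pt t b + ε • m.1) := by fun_prop
    have h0 : ∀ᶠ y in 𝓝 (pt t b), y ∈ X ∧ (inner ℝ m.1 y < m.2 → y ∉ X) :=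
      (show ∀ᶠ y in 𝓝 (pt t b), y ∈ X from hXp).and hs2
    have hε : ∀ᶠ ε in 𝓝 (0 : ℝ), (pt t b + ε • m.1 ∈ X ∧
        (inner ℝ m.1 (pt t b + ε • m.1) < m.2 → pt t b + ε • m.1 ∉ X)) :=
      (hcε.tendsto' 0 (pt t b) (by simp)).eventually h0
    obtain ⟨ε, hε0, hε1⟩ := Metric.eventually_nhds_iff.1 hε
    have h7 := hε1 (y := -(ε / 2)) (by
      rw [Real.dist_eq, sub_zero, abs_neg, abs_of_pos (by linarith)]; linarith)
    apply h7.2 _ h7.1
    rw [inner_add_right, hmp, inner_smul_right, real_inner_self_eq_norm_sq, hL1 m hm]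
    linarith

/-- exit to the left -/
structure ExitL (Λ : Set (E2 × ℝ)) (w : List (E2 × ℝ)) (R b : ℝ) (n : E2) (t : ℝ)
    (ρ : E2 →ᵃⁱ[ℝ] E2) (l : E2 × ℝ) : Prop where
  unit : ‖n‖ = 1
  dir : 0 < inner ℝ n e1
  far : R ^ 2 ≤ t ^ 2 + b ^ 2
  tneg : t < 0
  iso : ∀ᶠ y in 𝓝 (pt t b), FW w y = ρ y
  mem : l ∈ Λ
  edge : ∀ y, inner ℝ l.1 (ρ y) - l.2 = inner ℝ n (y - pt t b)
  int : ∀ l' ∈ Λ, l' ≠ l → l'.2 < inner ℝ l'.1 (ρ (pt t b))
  before : ∃ η > 0, ∀ y : E2, y 0 ≤ 0 → |y 1 - b| ≤ η → 0 ≤ inner ℝ n (y - pt t b) →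
    FW w y ∈ Hull Λ

namespace ExitAux

/-- the reflection in the vertical axis -/
noncomputable def mir : E2 →ₗᵢ[ℝ] E2 where
  toFun y := pt (-(y 0)) (y 1)
  map_add' u v := by
    apply ext2
    · simp [pt]; ring
    · simp [pt]
  map_smul' c u := by
    apply ext2
    · simp [pt]
    · simp [pt]
  norm_map' u := by
    have h1 := norm_sq u
    have h2 := norm_sq (pt (-(u 0)) (u 1))
    rw [pt0, pt1, neg_sq, ← h1] at h2
    exact (pow_left_inj₀ (norm_nonneg _) (norm_nonneg _) (by norm_num)).1 h2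

theorem mir_apply (y : E2) : mir y = pt (-(y 0)) (y 1) := rfl

theorem mir_mir (y : E2) : mir (mir y) = y := by
  rw [mir_apply, mir_apply, pt0, pt1, neg_neg]
  apply ext2
  · rw [pt0]
  · rw [pt1]

theorem mir_pt (a b : ℝ) : mir (pt a b) = pt (-a) b := by
  rw [mir_apply, pt0, pt1]

theorem inner_mir (u v : E2) : inner ℝ (mir u) v = inner ℝ u (mir v) := by
  rw [inner_eq, inner_eq, mir_apply, mir_apply, pt0, pt1, pt0, pt1]; ring

/-- the mirrored line -/
noncomputable def mirL (l : E2 × ℝ) : E2 × ℝ := (mir l.1, l.2)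

theorem mirL_mirL (l : E2 × ℝ) : mirL (mirL l) = l := by
  unfold mirL; rw [mir_mir]

theorem refl_mir (l : E2 × ℝ) (y : E2) : refl (mirL l) (mir y) = mir (refl l y) := by
  unfold refl mirL
  rw [map_sub, map_smul, inner_mir, mir_mir]

theorem fold_mir (l : E2 × ℝ) (y : E2) : fold (mirL l) (mir y) = mir (fold l y) := by
  unfold fold
  have h : (mirL l).2 ≤ inner ℝ (mirL l).1 (mir y) ↔ l.2 ≤ inner ℝ l.1 y := by
    show l.2 ≤ inner ℝ (mir l.1) (mir y) ↔ _
    rw [inner_mir, mir_mir]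
  by_cases h1 : l.2 ≤ inner ℝ l.1 y
  · rw [if_pos h1, if_pos (h.2 h1)]
  · rw [if_neg h1, if_neg (fun h2 => h1 (h.1 h2)), refl_mir]

theorem FW_mir (w : List (E2 × ℝ)) (y : E2) : FW (w.map mirL) (mir y) = mir (FW w y) := by
  induction w with
  | nil => rfl
  | cons l w ih =>
    show fold (mirL l) (FW (w.map mirL) (mir y)) = mir (fold l (FW w y))
    rw [ih, fold_mir]

theorem hull_mir (Λ : Set (E2 × ℝ)) (y : E2) : mir y ∈ Hull (mirL '' Λ) ↔ y ∈ Hull Λ := by
  constructor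
  · intro h l hl
    have := h (mirL l) ⟨l, hl, rfl⟩
    change l.2 ≤ inner ℝ (mir l.1) (mir y) at this
    rwa [inner_mir, mir_mir] at this
  · rintro h _ ⟨l, hl, rfl⟩
    show l.2 ≤ inner ℝ (mir l.1) (mir y)
    rw [inner_mir, mir_mir]
    exact h l hl

theorem exit_mir {Λ : Set (E2 × ℝ)} {w : List (E2 × ℝ)} {R b : ℝ} {n : E2} {t : ℝ}
    {ρ : E2 →ᵃⁱ[ℝ] E2} {l : E2 × ℝ} (h : ExitR (mirL '' Λ) (w.map mirL) R b n t ρ l) :
    ExitL Λ w R b (-(mir n)) (-t) (mir.toAffineIsometry.comp (ρ.comp mir.toAffineIsometry))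
      (mirL l) := by
  have hρ : ∀ y, (mir.toAffineIsometry.comp (ρ.comp mir.toAffineIsometry)) y
      = mir (ρ (mir y)) := fun y => rfl
  have hsub : ∀ y : E2, mir y - pt t b = mir (y - pt (-t) b) := by
    intro y; rw [map_sub, mir_pt, neg_neg]
  have hmt : mir (pt (-t) b) = pt t b := by rw [mir_pt, neg_neg]
  refine ⟨?_, ?_, ?_, ?_, ?_, ?_, ?_, ?_, ?_⟩
  · rw [norm_neg, LinearIsometry.norm_map]; exact h.unit
  · have := h.dir
    rw [inner_eq, e10, e11] at this ⊢
    rw [neg0, mir_apply, pt0]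
    linarith
  · have := h.far; rw [neg_sq]; exact this
  · have := h.tpos; linarith
  · have h1 : Tendsto mir (𝓝 (pt (-t) b)) (𝓝 (pt t b)) :=
      mir.continuous.tendsto' _ _ hmt
    filter_upwards [h1.eventually h.iso] with y hy
    rw [FW_mir] at hy
    rw [hρ, ← hy, mir_mir]
  · obtain ⟨l', hl', hl''⟩ := h.mem
    rw [← hl'', mirL_mirL]; exact hl'
  · intro y
    show inner ℝ (mir l.1) ((mir.toAffineIsometry.comp (ρ.comp mir.toAffineIsometry)) y) - l.2 = _
    rw [hρ, inner_mir, mir_mir, h.edge, hsub, inner_neg_left, inner_mir]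
  · intro l' hl' hne
    have h1 := h.int (mirL l') ⟨l', hl', rfl⟩ (by
      intro h2; apply hne; rw [← h2, mirL_mirL])
    change l'.2 < inner ℝ (mir l'.1) (ρ (pt t b)) at h1
    rw [inner_mir] at h1
    rw [hρ, hmt]; exact h1
  · obtain ⟨η, hη, hη'⟩ := h.before
    refine ⟨η, hη, fun y h1 h2 h3 => ?_⟩
    have h4 := hη' (mir y) (by rw [mir_apply, pt0]; linarith) (by rw [mir_apply, pt1]; exact h2)
      (by rw [hsub, ← inner_mir]; rw [inner_neg_left] at h3; linarith)
    rw [FW_mir, hull_mir] at h4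
    exact h4

end ExitAux

open ExitAux in
/-- the mirror image: conjugate everything by the reflection `(x, y) ↦ (-x, y)`, which maps
`FW w` to `FW w'`, where `w'` is the list of mirrored lines -/
theorem exists_exitL {Λ : Set (E2 × ℝ)} (hΛ : Λ.Finite) (hn : ∀ l ∈ Λ, ‖l.1‖ = 1)
    (hb : Bornology.IsBounded (Hull Λ)) {c₀ : E2} (hc : ∀ l ∈ Λ, l.2 < inner ℝ l.1 c₀)
    {w : List (E2 × ℝ)} (hw : ∀ l ∈ w, l ∈ Λ) {R : ℝ} (hR : 0 < R)
    (hwR : ∀ y ∈ closedBall (0 : E2) R, FW w y ∈ Hull Λ) (Φ : Set E2) (hΦ : Φ.Finite) :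
    {b : ℝ | |b| < R ∧ ¬ ∃ n t ρ l, ExitL Λ w R b n t ρ l ∧ ρ (pt t b) ∉ Φ}.Finite := by
  have hb' : Bornology.IsBounded (Hull (mirL '' Λ)) := by
    rw [isBounded_iff_forall_norm_le] at hb ⊢
    obtain ⟨C, hC⟩ := hb
    refine ⟨C, fun y hy => ?_⟩
    rw [← mir_mir y, hull_mir] at hy
    have := hC _ hy
    rwa [LinearIsometry.norm_map] at this
  have h := exists_exitR (Λ := mirL '' Λ) (hΛ.image _)
    (by
      rintro _ ⟨l, hl, rfl⟩
      show ‖mir l.1‖ = 1
      rw [LinearIsometry.norm_map]; exact hn l hl) hb' (c₀ := mir c₀)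
    (by
      rintro _ ⟨l, hl, rfl⟩
      show l.2 < inner ℝ (mir l.1) (mir c₀)
      rw [inner_mir, mir_mir]; exact hc l hl) (w := w.map mirL)
    (by
      intro l hl
      rw [List.mem_map] at hl
      obtain ⟨l', hl', rfl⟩ := hl
      exact ⟨l', hw l' hl', rfl⟩) hR
    (by
      intro y hy
      rw [← mir_mir y, FW_mir, hull_mir]
      apply hwR
      rw [mem_closedBall_zero_iff, LinearIsometry.norm_map]
      exact mem_closedBall_zero_iff.1 hy) (mir '' Φ) (hΦ.image _)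
  apply h.subset
  rintro b ⟨hb1, hb2⟩
  refine ⟨hb1, ?_⟩
  rintro ⟨n, t, ρ, l, h1, h2⟩
  apply hb2
  refine ⟨_, _, _, _, exit_mir h1, ?_⟩
  intro h3
  apply h2
  refine ⟨_, h3, ?_⟩
  show mir (mir (ρ (mir (pt (-t) b)))) = _
  rw [mir_mir, mir_pt, neg_neg]

end Pool.Agent.SeamS
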