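import Pool.Agent.SeamS.Local

/-!
# The block criterion (module A4)

The paper `X` is the union of finitely many closed blocks `R i`, each of which is folded by itself
(`FoldOn (R i) f (up i)`); two blocks `i ≠ j` are ordered by a relation `B i j` (block `i` lies above block `j`).
Points in two blocks are called interface points; an interface point is a *cross* if it is `X`-regular, otherwise it is
a fold.

Hypotheses (all for `X`-regular points, i.e. `Reg X f`):
 `h3`: no point is in three blocks.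
 `hinj`: `f` is injective on each of the two blocks near an interface point.
 `hirr`, `hasymm`: irreflexivity of `up i`, asymmetry of `B`.
 `htot`, `htr`: totality and transitivity of `B` over common image points.
 `hint`: if `x ∈ R i` is regular and lies over an interface point `z ∈ R j ∩ R k`, `z ≠ x`, then `i ≠ j, k` and `B i j ↔ B i k`.
 `hcross`: if `x ∈ R i ∩ R i'` is a cross and `z ∈ R j` another point over `f x` then `j ≠ i, i'` and there is a truth value `β` such that for
   regular pairs `q` near `(x, z)` with equal images and `q.2 ∈ R j`: `B i j ↔ β` if `q.1 ∈ R i`, `B i' j ↔ β` if `q.1 ∈ R i'`.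
 `hdist`: different interface points have different images.
 `hone`: (finitely many images excepted) inside the block `i`, the germ of another point `z'` of `R i` over an interface point `z ∈ R i ∩ R j` lies on one side of the
   germ of `R i` at `z`.
Conclusion: `FoldOn X f (blockUp R up B)`.

Proof. For a point `z` let `J(z)` be the set of blocks containing `z` (one or two). Blocks are closed, so near `z` only the blocks of `J(z)` occur. A regular point
`x` in exactly one block `R i` is `R i`-regular; every regular point near a point `z` of exactly one block is in this block only.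
First, for regular `x, y` with `f x = f y`, `x ≠ y`, and `x ∈ R i`, `y ∈ R j`: if `i = j` then neither is an interface point: (if `x ∈ R i ∩ R k` apply
`hint` with the regular point `y ∈ R i` and the interface point `x`: `i ≠ i`, contradiction). So either both are in exactly the block `i` (and `blockUp x y ↔ up i x y`), or
they are in different blocks, and `blockUp x y ↔ B i j` for every choice of `i ∋ x`, `j ∋ y` (if `x` is a cross use `hcross` at `(x, y)` with `q = (x, y)`; not both are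
interface points by `hdist`). Then asymm, total, trans follow (`x = y` in asymm: `blockUp x x` is false by `hirr`, and if `x` is a cross in `R i ∩ R j` then `B i j` and ... : `blockUp x x` could hold through
`B i j`; but the axiom asks `up x x → ¬ up x x` only for regular `x`; therefore the hypothesis `hcc` says `¬ B i j` if `R i ∩ R j` contains a regular point).

tortilla at `(x, z)`, `x` regular, `z ≠ x`, `f z = f x`.
 (1) `x` and `z` both in exactly one block, the same `i`: tortilla of the block. (2) `x` in exactly one block `i`, `z` in exactly one block `j ≠ i`: if `B i j` always up, otherwise by `htot`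
 always `B j i`. (3) `x` in exactly one block `i`, `z` an interface point of `j, k`: `hint`. (4) `x` a cross: `z` is not an interface point (`hdist`), `hcross` (if `β` then up; if `¬ β` then by
 `htot` the opposite).

taco: `E` = union of the finitely many exceptional sets of the blocks, of `hcf` and of `hone`. `z ≠ z'`, `f z = f z' ∉ E`, and `a > b > a' > b'` close to `z, z', z, z'`. `a ≠ a'`, `b ≠ b'` (asymmetry, transitivity). If `z` (or
 `z'`) is a cross then `f` is injective near `z`: contradiction. So assume that `z, z'` are folds or in exactly one block, and then (by `hcf`) all the regular points `a, a', b, b'` are in exactly one block each.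
 Let `i, j, k, l` be the blocks of `a, a', b, b'`.
  - `i = j`: then `k = i` (otherwise `B i k` and `B k i`). If `l = i`: if `z` and `z'` are both in exactly one block: taco of the block. If `z` is an interface point then `a = a'` by `hinj`, contradiction; if `z'` is an interface point then `b = b'`, contradiction. If `l ≠ i` then `z'` is an interface point of `i` and `l`;
    `z` is not (hdist); `a > b > a'` in block `i` contradicts `hone` at `(z', z)`.
  - `i ≠ j`: `z` is an interface point of `R i ∩ R j`, so `z'` is in exactly one block, `k = l`. If `k = i`: `B i j` (from `b > a'`), and `a' > b'` gives `B j i`: contradiction. If `k = j`: `a > b`: `B i j`; then `b > a' > b'` in block `j`, `b, b'` near `z'`, `a'` near `z`: contradiction with `hone`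
    at `(z, z')` for the block `j`. If `k ≠ i, j`: `B k j` (from `b > a'`) and `B j k` (from `a' > b'`): contradiction.
-/

namespace Pool.Agent.SeamS

open Set Filter Topology Metric Pool.Agent.Hhelper79.Seam

/-- `x` is in no block other than `i` -/
def OnlyIn {ι : Type*} (R : ι → Set E2) (i : ι) (x : E2) : Prop := ∀ j, x ∈ R j → j = i

theorem block_near {ι : Type*} [Finite ι] {R : ι → Set E2} (hcl : ∀ i, IsClosed (R i))
    (z : E2) : ∀ᶠ y in 𝓝 z, ∀ i, y ∈ R i → z ∈ R i := by
  rw [eventually_all]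
  intro i
  by_cases h : z ∈ R i
  · exact Eventually.of_forall (fun _ _ => h)
  · filter_upwards [(hcl i).isOpen_compl.mem_nhds h] with y hy hy'
    exact absurd hy' hy

theorem OnlyIn.near {ι : Type*} [Finite ι] {R : ι → Set E2} (hcl : ∀ i, IsClosed (R i))
    {i : ι} {z : E2} (h : OnlyIn R i z) : ∀ᶠ y in 𝓝 z, OnlyIn R i y :=
  (block_near hcl z).mono (fun _ hy j hj => h j (hy j hj))

theorem onlyIn_or {ι : Type*} {R : ι → Set E2} {X : Set E2} (hX : X = ⋃ i, R i) {z : E2}
    (hz : z ∈ X) : (∃ i, z ∈ R i ∧ OnlyIn R i z) ∨ ∃ i j, i ≠ j ∧ z ∈ R i ∧ z ∈ R j := by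
  rw [hX, mem_iUnion] at hz
  obtain ⟨i, hi⟩ := hz
  by_cases h : OnlyIn R i z
  · exact Or.inl ⟨i, hi, h⟩
  · right
    unfold OnlyIn at h
    push Not at h
    obtain ⟨j, hj, hne⟩ := h
    exact ⟨i, j, hne.symm, hi, hj⟩

theorem block_two {ι : Type*} {R : ι → Set E2}
    (h3 : ∀ i j k, i ≠ j → j ≠ k → i ≠ k → R i ∩ R j ∩ R k = ∅) {i j k : ι} (hij : i ≠ j)
    {z : E2} (hi : z ∈ R i) (hj : z ∈ R j) (hk : z ∈ R k) : k = i ∨ k = j := by
  by_contra hc
  push Not at hc
  have := h3 i j k hij hc.2.symm hc.1.symm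
  exact (this ▸ (⟨⟨hi, hj⟩, hk⟩ : z ∈ R i ∩ R j ∩ R k) : z ∈ (∅ : Set E2))

section
variable {Y : Type*} [NormedAddCommGroup Y] [InnerProductSpace ℝ Y]

theorem block_mem_of_reg {X : Set E2} {f : E2 → Y} {q : E2} (h : Reg X f q) : q ∈ X := by
  obtain ⟨U, hU, hUX, _⟩ := h
  exact hUX (mem_of_mem_nhds hU)

theorem OnlyIn.mem {ι : Type*} {R : ι → Set E2} {X : Set E2} (hX : X = ⋃ i, R i) {i : ι} {z : E2}
    (h : OnlyIn R i z) (hz : z ∈ X) : z ∈ R i := by
  rw [hX, mem_iUnion] at hz
  obtain ⟨j, hj⟩ := hz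
  rw [← h j hj]; exact hj

theorem OnlyIn.reg {ι : Type*} [Finite ι] {R : ι → Set E2} {X : Set E2} {f : E2 → Y}
    (hX : X = ⋃ i, R i) (hcl : ∀ i, IsClosed (R i)) {i : ι} {x : E2} (h : OnlyIn R i x)
    (hx : Reg X f x) : Reg (R i) f x := by
  obtain ⟨U, hU, hUX, hinj⟩ := hx
  refine ⟨U ∩ {y | OnlyIn R i y}, inter_mem hU (h.near hcl), ?_, hinj.mono inter_subset_left⟩
  rintro y ⟨hyU, hyV⟩
  exact OnlyIn.mem hX hyV (hUX hyU)

section
variable {ι : Type*} {R : ι → Set E2} {up : ι → E2 → E2 → Prop} {B : ι → ι → Prop}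

theorem bu_same {x y : E2} {i : ι} (hx : OnlyIn R i x) (hy : OnlyIn R i y)
    (h : blockUp R up B x y) : up i x y := by
  rcases h with ⟨j, h1, _, h3⟩ | ⟨j, k, hne, h1, h2, _⟩
  · rw [← hx j h1]; exact h3
  · exact absurd ((hx j h1).trans (hy k h2).symm) hne

theorem bu_diff {x y : E2} {i j : ι} (hx : OnlyIn R i x) (hy : OnlyIn R j y) (hij : i ≠ j)
    (h : blockUp R up B x y) : B i j := by
  rcases h with ⟨k, h1, h2, _⟩ | ⟨k, l, _, h1, h2, h3⟩
  · exact absurd ((hx k h1).symm.trans (hy k h2)) hij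
  · rw [← hx k h1, ← hy l h2]; exact h3

end

theorem FoldOn.of_blocks {ι : Type*} [Finite ι] {R : ι → Set E2} {X : Set E2} {f : E2 → Y}
    {up : ι → E2 → E2 → Prop} {B : ι → ι → Prop}
    (hX : X = ⋃ i, R i) (hcl : ∀ i, IsClosed (R i))
    (hb : ∀ i, FoldOn (R i) f (up i))
    (h3 : ∀ i j k, i ≠ j → j ≠ k → i ≠ k → R i ∩ R j ∩ R k = ∅)
    (hinj : ∀ i j, i ≠ j → ∀ z ∈ R i ∩ R j, ∃ V ∈ 𝓝 z, InjOn f (V ∩ R i))
    (hirr : ∀ i x, ¬ up i x x)
    (hasymm : ∀ i j, B i j → ¬ B j i)
    (hcc : ∀ i j, i ≠ j → ∀ x ∈ R i ∩ R j, Reg X f x → ¬ B i j)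
    (hcf : ∃ E : Set Y, E.Finite ∧ ∀ i j, i ≠ j → ∀ z ∈ R i ∩ R j, f z ∉ E →
      Reg X f z ∨ ∀ᶠ y in 𝓝 z, y ∈ R i ∩ R j → ¬ Reg X f y)
    (htot : ∀ i j, i ≠ j → ∀ x ∈ R i, ∀ y ∈ R j, Reg X f x → Reg X f y → f x = f y →
      x ≠ y → B i j ∨ B j i)
    (htr : ∀ i j k, i ≠ j → j ≠ k → i ≠ k → ∀ x ∈ R i, ∀ y ∈ R j, ∀ z ∈ R k,
      Reg X f x → Reg X f y → Reg X f z → f x = f y → f y = f z → B i j → B j k → B i k)
    (hint : ∀ i j k, j ≠ k → ∀ x ∈ R i, Reg X f x → ∀ z ∈ R j ∩ R k, z ≠ x → f z = f x →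
      i ≠ j ∧ i ≠ k ∧ (B i j ↔ B i k) ∧ (B j i ↔ B k i))
    (hcross : ∀ i i' j, i ≠ i' → ∀ x ∈ R i ∩ R i', Reg X f x → ∀ z ∈ R j, z ≠ x → f z = f x →
      j ≠ i ∧ j ≠ i' ∧ ∃ β : Prop, ∀ᶠ q : E2 × E2 in 𝓝 (x, z), q.2 ∈ R j → Reg X f q.1 →
        Reg X f q.2 → f q.1 = f q.2 → ((q.1 ∈ R i → (B i j ↔ β)) ∧ (q.1 ∈ R i' → (B i' j ↔ β))))
    (hdist : ∀ i j k l, i ≠ j → k ≠ l → ∀ z ∈ R i ∩ R j, ∀ z' ∈ R k ∩ R l, f z = f z' → z = z')
    (hone : ∃ E : Set Y, E.Finite ∧ ∀ i j, i ≠ j → ∀ z ∈ R i ∩ R j, ∀ z' ∈ R i, z' ≠ z →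
      f z' = f z → f z ∉ E →
      (∀ᶠ q : E2 × E2 in 𝓝 (z, z'), q.1 ∈ R i → q.2 ∈ R i → Reg X f q.1 → Reg X f q.2 →
        f q.1 = f q.2 → up i q.1 q.2) ∨
      (∀ᶠ q : E2 × E2 in 𝓝 (z, z'), q.1 ∈ R i → q.2 ∈ R i → Reg X f q.1 → Reg X f q.2 →
        f q.1 = f q.2 → up i q.2 q.1)) :
    FoldOn X f (blockUp R up B) := by
  -- no regular point lies above itself
  have hself : ∀ x, Reg X f x → ¬ blockUp R up B x x := by
    rintro x hx (⟨i, _, _, h⟩ | ⟨i, j, hne, hi, hj, h⟩)
    · exact hirr i x h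
    · exact hcc i j hne x ⟨hi, hj⟩ hx h
  -- two points in a common block
  have hcommon : ∀ x y, Reg X f x → Reg X f y → f x = f y → x ≠ y → ∀ i, x ∈ R i → y ∈ R i →
      OnlyIn R i x ∧ OnlyIn R i y := by
    intro x y hx hy hf hne i hxi hyi
    constructor
    · intro k hk
      by_contra hki
      exact (hint i i k (Ne.symm hki) y hyi hy x ⟨hxi, hk⟩ hne hf).1 rfl
    · intro k hk
      by_contra hki
      exact (hint i i k (Ne.symm hki) x hxi hx y ⟨hyi, hk⟩ hne.symm hf.symm).1 rfl
  -- independence of the blocks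
  have hind : ∀ x y, Reg X f x → Reg X f y → f x = f y → x ≠ y → ∀ i j i' j', x ∈ R i → x ∈ R i' →
      y ∈ R j → y ∈ R j' → (B i j ↔ B i' j') := by
    intro x y hx hy hf hne i j i' j' hi hi' hj hj'
    by_cases h1 : i = i'
    · subst h1
      by_cases h2 : j = j'
      · rw [h2]
      · exact (hint i j j' h2 x hi hx y ⟨hj, hj'⟩ hne.symm hf.symm).2.2.1
    · by_cases h2 : j = j'
      · subst h2
        exact (hint j i i' h1 y hj hy x ⟨hi, hi'⟩ hne hf).2.2.2
      · exact absurd (hdist i i' j j' h1 h2 x ⟨hi, hi'⟩ y ⟨hj, hj'⟩ hf) hne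
  have hB : ∀ x y, Reg X f x → Reg X f y → f x = f y → x ≠ y → (∀ i, x ∈ R i → y ∉ R i) →
      ∀ i j, x ∈ R i → y ∈ R j → blockUp R up B x y → B i j := by
    intro x y hx hy hf hne hno i j hi hj h
    rcases h with ⟨k, h1, h2, _⟩ | ⟨k, l, _, h1, h2, h⟩
    · exact absurd h2 (hno k h1)
    · exact (hind x y hx hy hf hne k l i j h1 hi h2 hj).mp h
  have hBr : ∀ x y, ∀ i j, i ≠ j → x ∈ R i → y ∈ R j → B i j → blockUp R up B x y :=
    fun x y i j hne hi hj h => Or.inr ⟨i, j, hne, hi, hj, h⟩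
  have hmemX : ∀ x, x ∈ X → ∃ i, x ∈ R i := fun x hx => by
    rwa [hX, mem_iUnion] at hx
  have hasy : ∀ x y, Reg X f x → Reg X f y → f x = f y → blockUp R up B x y →
      ¬ blockUp R up B y x := by
    intro x y hx hy hf h h'
    by_cases hne : x = y
    · subst hne; exact hself x hx h
    by_cases hc : ∃ i, x ∈ R i ∧ y ∈ R i
    · obtain ⟨i, hxi, hyi⟩ := hc
      obtain ⟨ox, oy⟩ := hcommon x y hx hy hf hne i hxi hyi
      exact (hb i).asymm x y (ox.reg hX hcl hx) (oy.reg hX hcl hy) hf (bu_same ox oy h)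
        (bu_same oy ox h')
    · push Not at hc
      obtain ⟨i, hi⟩ := hmemX x (block_mem_of_reg hx)
      obtain ⟨j, hj⟩ := hmemX y (block_mem_of_reg hy)
      exact hasymm i j (hB x y hx hy hf hne hc i j hi hj h)
        (hB y x hy hx hf.symm (Ne.symm hne) (fun k hk hk' => hc k hk' hk) j i hj hi h')
  obtain ⟨Ecf, hEcf, hcf⟩ := hcf
  obtain ⟨Eo, hEo, hone⟩ := hone
  have htaco := fun i => (hb i).taco
  choose Eb hEb htaco using htaco
  refine ⟨?_, hasy, ?_, ?_, ?_, ?_⟩
  · -- pieces
    have hp := fun i => (hb i).pieces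
    choose T hT1 hT2 hT3 hT4 using hp
    refine ⟨⋃ i, T i, finite_iUnion hT1, ?_, ?_, ?_⟩
    · intro t ht
      rw [mem_iUnion] at ht
      obtain ⟨i, hi⟩ := ht
      exact hT2 i t hi
    · rw [hX, sUnion_iUnion]
      exact iUnion_congr hT3
    · intro t ht
      rw [mem_iUnion] at ht
      obtain ⟨i, hi⟩ := ht
      exact hT4 i t hi
  · -- total
    intro x y hx hy hf hne
    by_cases hc : ∃ i, x ∈ R i ∧ y ∈ R i
    · obtain ⟨i, hxi, hyi⟩ := hc
      obtain ⟨ox, oy⟩ := hcommon x y hx hy hf hne i hxi hyi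
      rcases (hb i).total x y (ox.reg hX hcl hx) (oy.reg hX hcl hy) hf hne with h | h
      · exact Or.inl (Or.inl ⟨i, hxi, hyi, h⟩)
      · exact Or.inr (Or.inl ⟨i, hyi, hxi, h⟩)
    · push Not at hc
      obtain ⟨i, hi⟩ := hmemX x (block_mem_of_reg hx)
      obtain ⟨j, hj⟩ := hmemX y (block_mem_of_reg hy)
      have hij : i ≠ j := by
        rintro rfl
        exact hc i hi hj
      rcases htot i j hij x hi y hj hx hy hf hne with h | h
      · exact Or.inl (hBr x y i j hij hi hj h)
      · exact Or.inr (hBr y x j i hij.symm hj hi h)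
  · -- trans
    intro x y z hx hy hz hfxy hfyz hxy hyz
    have hnxy : x ≠ y := by
      rintro rfl
      exact hself x hx hxy
    have hnyz : y ≠ z := by
      rintro rfl
      exact hself y hy hyz
    have hnxz : x ≠ z := by
      rintro rfl
      exact hasy x y hx hy hfxy hxy hyz
    have hfxz := hfxy.trans hfyz
    by_cases hc1 : ∃ i, x ∈ R i ∧ y ∈ R i
    · obtain ⟨i, hxi, hyi⟩ := hc1
      obtain ⟨ox, oy⟩ := hcommon x y hx hy hfxy hnxy i hxi hyi
      by_cases hc2 : ∃ k, y ∈ R k ∧ z ∈ R k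
      · obtain ⟨k, hyk, hzk⟩ := hc2
        have := oy k hyk
        subst this
        obtain ⟨_, oz⟩ := hcommon y z hy hz hfyz hnyz k hyk hzk
        exact Or.inl ⟨k, hxi, hzk, (hb k).trans x y z (ox.reg hX hcl hx) (oy.reg hX hcl hy)
          (oz.reg hX hcl hz) hfxy hfyz (bu_same ox oy hxy) (bu_same oy oz hyz)⟩
      · push Not at hc2
        obtain ⟨k, hk⟩ := hmemX z (block_mem_of_reg hz)
        have hik : i ≠ k := by
          rintro rfl
          exact hc2 i hyi hk
        exact hBr x z i k hik hxi hk (hB y z hy hz hfyz hnyz hc2 i k hyi hk hyz)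
    · push Not at hc1
      obtain ⟨i, hi⟩ := hmemX x (block_mem_of_reg hx)
      by_cases hc2 : ∃ k, y ∈ R k ∧ z ∈ R k
      · obtain ⟨k, hyk, hzk⟩ := hc2
        have hik : i ≠ k := by
          rintro rfl
          exact hc1 i hi hyk
        exact hBr x z i k hik hi hzk (hB x y hx hy hfxy hnxy hc1 i k hi hyk hxy)
      · push Not at hc2
        obtain ⟨j, hj⟩ := hmemX y (block_mem_of_reg hy)
        obtain ⟨k, hk⟩ := hmemX z (block_mem_of_reg hz)
        have h1 := hB x y hx hy hfxy hnxy hc1 i j hi hj hxy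
        have h2 := hB y z hy hz hfyz hnyz hc2 j k hj hk hyz
        have hij : i ≠ j := by
          rintro rfl
          exact hc1 i hi hj
        have hjk : j ≠ k := by
          rintro rfl
          exact hc2 j hj hk
        by_cases hik : i = k
        · subst hik
          exact absurd h2 (hasymm i j h1)
        · exact hBr x z i k hik hi hk (htr i j k hij hjk hik x hi y hj z hk hx hy hz hfxy hfyz
            h1 h2)
  · -- tortilla
    intro x z hx hz hzx hfzx
    have hne : ∀ᶠ q : E2 × E2 in 𝓝 (x, z), q.1 ≠ q.2 := by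
      have : IsOpen {q : E2 × E2 | q.1 ≠ q.2} := isOpen_ne_fun continuous_fst continuous_snd
      exact this.mem_nhds (Ne.symm hzx)
    have hfst : ∀ {P : E2 → Prop}, (∀ᶠ y in 𝓝 x, P y) → ∀ᶠ q : E2 × E2 in 𝓝 (x, z), P q.1 :=
      fun h => continuous_fst.continuousAt.eventually h
    have hsnd : ∀ {P : E2 → Prop}, (∀ᶠ y in 𝓝 z, P y) → ∀ᶠ q : E2 × E2 in 𝓝 (x, z), P q.2 :=
      fun h => continuous_snd.continuousAt.eventually h
    rcases onlyIn_or hX (block_mem_of_reg hx) with ⟨i, hxi, ox⟩ | ⟨i, i', hii, hxi, hxi'⟩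
    · rcases onlyIn_or hX hz with ⟨j, hzj, oz⟩ | ⟨j, k, hjk, hzj, hzk⟩
      · by_cases hij : i = j
        · subst hij
          rcases (hb i).tortilla x z (ox.reg hX hcl hx) hzj hzx hfzx with h | h
          · left
            filter_upwards [h, hfst (ox.near hcl), hsnd (oz.near hcl)] with q hq h1 h2 r1 r2 hf
            exact Or.inl ⟨i, h1.mem hX (block_mem_of_reg r1), h2.mem hX (block_mem_of_reg r2),
              hq (h1.reg hX hcl r1) (h2.reg hX hcl r2) hf⟩
          · right
            filter_upwards [h, hfst (ox.near hcl), hsnd (oz.near hcl)] with q hq h1 h2 r1 r2 hf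
            exact Or.inl ⟨i, h2.mem hX (block_mem_of_reg r2), h1.mem hX (block_mem_of_reg r1),
              hq (h1.reg hX hcl r1) (h2.reg hX hcl r2) hf⟩
        · by_cases hBij : B i j
          · left
            filter_upwards [hfst (ox.near hcl), hsnd (oz.near hcl)] with q h1 h2 r1 r2 hf
            exact hBr _ _ i j hij (h1.mem hX (block_mem_of_reg r1)) (h2.mem hX (block_mem_of_reg r2)) hBij
          · right
            filter_upwards [hne, hfst (ox.near hcl), hsnd (oz.near hcl)] with q hq h1 h2 r1 r2 hf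
            have m1 := h1.mem hX (block_mem_of_reg r1)
            have m2 := h2.mem hX (block_mem_of_reg r2)
            rcases htot i j hij _ m1 _ m2 r1 r2 hf hq with h | h
            · exact absurd h hBij
            · exact hBr _ _ j i (Ne.symm hij) m2 m1 h
      · obtain ⟨hij, hik, hb1, hb2⟩ := hint i j k hjk x hxi hx z ⟨hzj, hzk⟩ hzx hfzx
        by_cases hBij : B i j
        · left
          filter_upwards [hfst (ox.near hcl), hsnd (block_near hcl z)] with q h1 h2 r1 r2 hf
          have m1 := h1.mem hX (block_mem_of_reg r1)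
          obtain ⟨l, hl⟩ := hmemX q.2 (block_mem_of_reg r2)
          rcases block_two h3 hjk hzj hzk (h2 l hl) with rfl | rfl
          · exact hBr _ _ i l hij m1 hl hBij
          · exact hBr _ _ i l hik m1 hl (hb1.mp hBij)
        · right
          filter_upwards [hne, hfst (ox.near hcl), hsnd (block_near hcl z)] with q hq h1 h2 r1 r2 hf
          have m1 := h1.mem hX (block_mem_of_reg r1)
          obtain ⟨l, hl⟩ := hmemX q.2 (block_mem_of_reg r2)
          rcases block_two h3 hjk hzj hzk (h2 l hl) with rfl | rfl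
          · rcases htot i l hij _ m1 _ hl r1 r2 hf hq with h | h
            · exact absurd h hBij
            · exact hBr _ _ l i hij.symm hl m1 h
          · rcases htot i l hik _ m1 _ hl r1 r2 hf hq with h | h
            · exact absurd (hb1.mpr h) hBij
            · exact hBr _ _ l i hik.symm hl m1 h
    · rcases onlyIn_or hX hz with ⟨j, hzj, oz⟩ | ⟨j, k, hjk, hzj, hzk⟩
      · obtain ⟨hji, hji', β, hβ⟩ := hcross i i' j hii x ⟨hxi, hxi'⟩ hx z hzj hzx hfzx
        by_cases hb0 : β
        · left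
          filter_upwards [hβ, hfst (block_near hcl x), hsnd (oz.near hcl)] with q hq h1 h2 r1 r2 hf
          have m2 := h2.mem hX (block_mem_of_reg r2)
          obtain ⟨l, hl⟩ := hmemX q.1 (block_mem_of_reg r1)
          obtain ⟨c1, c2⟩ := hq m2 r1 r2 hf
          rcases block_two h3 hii hxi hxi' (h1 l hl) with rfl | rfl
          · exact hBr _ _ l j hji.symm hl m2 ((c1 hl).mpr hb0)
          · exact hBr _ _ l j hji'.symm hl m2 ((c2 hl).mpr hb0)
        · right
          filter_upwards [hne, hβ, hfst (block_near hcl x), hsnd (oz.near hcl)] with q hn hq h1 h2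
            r1 r2 hf
          have m2 := h2.mem hX (block_mem_of_reg r2)
          obtain ⟨l, hl⟩ := hmemX q.1 (block_mem_of_reg r1)
          obtain ⟨c1, c2⟩ := hq m2 r1 r2 hf
          rcases block_two h3 hii hxi hxi' (h1 l hl) with rfl | rfl
          · rcases htot l j hji.symm _ hl _ m2 r1 r2 hf hn with h | h
            · exact absurd ((c1 hl).mp h) hb0
            · exact hBr _ _ j l hji m2 hl h
          · rcases htot l j hji'.symm _ hl _ m2 r1 r2 hf hn with h | h
            · exact absurd ((c2 hl).mp h) hb0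
            · exact hBr _ _ j l hji' m2 hl h
      · exact absurd (hdist j k i i' hjk hii z ⟨hzj, hzk⟩ x ⟨hxi, hxi'⟩ hfzx) hzx
  · -- taco
    refine ⟨(⋃ i, Eb i) ∪ Ecf ∪ Eo, ((finite_iUnion hEb).union hEcf).union hEo, ?_⟩
    intro z z' hz hz' hzz hf hfE
    have hfb : ∀ i, f z ∉ Eb i := fun i h => hfE (Or.inl (Or.inl (mem_iUnion.mpr ⟨i, h⟩)))
    have hfcf : f z ∉ Ecf := fun h => hfE (Or.inl (Or.inr h))
    have hfo : f z ∉ Eo := fun h => hfE (Or.inr h)
    rcases onlyIn_or hX hz with ⟨i, hzi, oz⟩ | ⟨i, j, hij, hzi, hzj⟩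
    · rcases onlyIn_or hX hz' with ⟨m, hzm, oz'⟩ | ⟨k, l, hkl, hzk, hzl⟩
      · by_cases him : i = m
        · subst him
          obtain ⟨V, hV, V', hV', h⟩ := htaco i z z' hzi hzm hzz hf (hfb i)
          refine ⟨V ∩ {y | OnlyIn R i y}, inter_mem hV (oz.near hcl),
            V' ∩ {y | OnlyIn R i y}, inter_mem hV' (oz'.near hcl), ?_⟩
          rintro a ⟨ha, oa⟩ a' ⟨ha', oa'⟩ b ⟨hb1, ob⟩ b' ⟨hb', ob'⟩ ra ra' rb rb' f1 f2 f4
            ⟨u1, u2, u3⟩
          exact h a ha a' ha' b hb1 b' hb' (oa.reg hX hcl ra) (oa'.reg hX hcl ra')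
            (ob.reg hX hcl rb) (ob'.reg hX hcl rb') f1 f2 f4
            ⟨bu_same oa ob u1, bu_same ob oa' u2, bu_same oa' ob' u3⟩
        · refine ⟨{y | OnlyIn R i y}, oz.near hcl, {y | OnlyIn R m y}, oz'.near hcl, ?_⟩
          rintro a oa a' oa' b ob b' ob' ra ra' rb rb' f1 f2 f4 ⟨u1, u2, u3⟩
          exact hasymm i m (bu_diff oa ob him u1) (bu_diff ob oa' (Ne.symm him) u2)
      · -- `z'` is an interface point
        by_cases hreg : Reg X f z'
        · obtain ⟨U, hU, _, hUi⟩ := hreg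
          refine ⟨univ, univ_mem, U, hU, ?_⟩
          rintro a _ a' _ b hb1 b' hb' ra ra' rb rb' f1 f2 f4 ⟨u1, u2, u3⟩
          have : b' = b := hUi hb' hb1 f4
          subst this
          exact hasy _ _ rb ra' f2.symm u2 u3
        · have hcf' := (hcf k l hkl z' ⟨hzk, hzl⟩ (hf ▸ hfcf)).resolve_left hreg
          -- general statement for a block `m` of `z`
          have key : ∀ m m' : ι, m ≠ m' → z' ∈ R m → z' ∈ R m' → z ∈ R m →
              ∃ V ∈ 𝓝 z, ∃ V' ∈ 𝓝 z', ∀ a ∈ V, ∀ a' ∈ V, ∀ b ∈ V', a ∈ R m → a' ∈ R m → b ∈ R m →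
                Reg X f a → Reg X f a' → Reg X f b → f a = f b → f a' = f b →
                (up m b a ∨ up m a' b) := by
            intro m m' hm h1 h2 h0
            rcases hone m m' hm z' ⟨h1, h2⟩ z h0 hzz hf (hf ▸ hfo) with h | h
            · rw [nhds_prod_eq, eventually_prod_iff] at h
              obtain ⟨pa, hpa, pb, hpb, h⟩ := h
              refine ⟨{y | pb y}, hpb, {y | pa y}, hpa, ?_⟩
              intro a ha a' ha' b hb1 ma ma' mb ra ra' rb f1 f2
              exact Or.inl (h hb1 ha mb ma rb ra f1.symm)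
            · rw [nhds_prod_eq, eventually_prod_iff] at h
              obtain ⟨pa, hpa, pb, hpb, h⟩ := h
              refine ⟨{y | pb y}, hpb, {y | pa y}, hpa, ?_⟩
              intro a ha a' ha' b hb1 ma ma' mb ra ra' rb f1 f2
              exact Or.inr (h hb1 ha' mb ma' rb ra' f2.symm)
          have keyi : ∃ V ∈ 𝓝 z, ∃ V' ∈ 𝓝 z', ∀ a ∈ V, ∀ a' ∈ V, ∀ b ∈ V', a ∈ R i → a' ∈ R i →
              b ∈ R i → Reg X f a → Reg X f a' → Reg X f b → f a = f b → f a' = f b →
                (up i b a ∨ up i a' b) := by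
            by_cases hik' : i = k
            · subst hik'; exact key i l hkl hzk hzl hzi
            by_cases hil' : i = l
            · subst hil'; exact key i k hkl.symm hzl hzk hzi
            refine ⟨univ, univ_mem, _, block_near hcl z', ?_⟩
            intro a _ a' _ b hb1 _ _ mb
            exact absurd (block_two h3 hkl hzk hzl (hb1 i mb)) (by tauto)
          obtain ⟨V, hV, V', hV', hk⟩ := keyi
          refine ⟨V ∩ {y | OnlyIn R i y}, inter_mem hV (oz.near hcl),
            V' ∩ ({y | ∀ m, y ∈ R m → z' ∈ R m} ∩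
              {y | y ∈ R k ∩ R l → ¬ Reg X f y}),
            inter_mem hV' (inter_mem (block_near hcl z') hcf'), ?_⟩
          rintro a ⟨ha, oa⟩ a' ⟨ha', oa'⟩ b ⟨hb1, hbz, hbr⟩ b' _
            ra ra' rb rb' f1 f2 f4 ⟨u1, u2, u3⟩
          -- the block of `b`
          have honly : ∀ y, (∀ m, y ∈ R m → z' ∈ R m) → (y ∈ R k ∩ R l → ¬ Reg X f y) →
              Reg X f y → OnlyIn R k y ∨ OnlyIn R l y := by
            intro y hy1 hy2 ry
            obtain ⟨m, hm⟩ := hmemX y (block_mem_of_reg ry)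
            have hmm : ∀ m, y ∈ R m → m = k ∨ m = l := fun m hm =>
              block_two h3 hkl hzk hzl (hy1 m hm)
            rcases hmm m hm with rfl | rfl
            · left
              intro m' hm'
              rcases hmm m' hm' with h | h
              · exact h
              · subst h; exact absurd ry (hy2 ⟨hm, hm'⟩)
            · right
              intro m' hm'
              rcases hmm m' hm' with h | h
              · subst h; exact absurd ry (hy2 ⟨hm', hm⟩)
              · exact h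
          have hfin : ∀ m, OnlyIn R m b → False := by
            intro m ob
            by_cases him : i = m
            · subst him
              have h1 := bu_same oa ob u1
              have h2 := bu_same ob oa' u2
              rcases hk a ha a' ha' b hb1 (oa.mem hX (block_mem_of_reg ra)) (oa'.mem hX (block_mem_of_reg ra'))
                (ob.mem hX (block_mem_of_reg rb)) ra ra' rb f1 f2 with h | h
              · exact (hb i).asymm _ _ (oa.reg hX hcl ra) (ob.reg hX hcl rb) f1 h1 h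
              · exact (hb i).asymm _ _ (ob.reg hX hcl rb) (oa'.reg hX hcl ra') f2.symm h2 h
            · exact hasymm i m (bu_diff oa ob him u1) (bu_diff ob oa' (Ne.symm him) u2)
          rcases honly b hbz hbr rb with h | h
          · exact hfin k h
          · exact hfin l h
    · -- `z` is an interface point
      rcases onlyIn_or hX hz' with ⟨m, hzm, oz'⟩ | ⟨k, l, hkl, hzk, hzl⟩
      swap
      · exact absurd (hdist i j k l hij hkl z ⟨hzi, hzj⟩ z' ⟨hzk, hzl⟩ hf) hzz
      by_cases hreg : Reg X f z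
      · obtain ⟨U, hU, _, hUi⟩ := hreg
        refine ⟨U, hU, univ, univ_mem, ?_⟩
        rintro a ha a' ha' b _ b' _ ra ra' rb rb' f1 f2 f4 ⟨u1, u2, u3⟩
        have : a = a' := hUi ha ha' (f1.trans f2.symm)
        subst this
        exact hasy _ _ ra rb f1 u1 u2
      · have hcf' := (hcf i j hij z ⟨hzi, hzj⟩ hfcf).resolve_left hreg
        have key : ∀ n n' : ι, n ≠ n' → z ∈ R n → z ∈ R n' → z' ∈ R n →
            ∃ V ∈ 𝓝 z, ∃ V' ∈ 𝓝 z', ∀ a' ∈ V, ∀ b ∈ V', ∀ b' ∈ V', a' ∈ R n → b ∈ R n → b' ∈ R n →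
              Reg X f a' → Reg X f b → Reg X f b' → f a' = f b → f b' = f b →
              (up n a' b ∨ up n b' a') := by
          intro n n' hm h1 h2 h0
          rcases hone n n' hm z ⟨h1, h2⟩ z' h0 (Ne.symm hzz) hf.symm hfo with h | h
          · rw [nhds_prod_eq, eventually_prod_iff] at h
            obtain ⟨pa, hpa, pb, hpb, h⟩ := h
            refine ⟨{y | pa y}, hpa, {y | pb y}, hpb, ?_⟩
            intro a' ha' b hb1 b' hb' ma' mb mb' ra' rb rb' f2 f4
            exact Or.inl (h ha' hb1 ma' mb ra' rb f2)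
          · rw [nhds_prod_eq, eventually_prod_iff] at h
            obtain ⟨pa, hpa, pb, hpb, h⟩ := h
            refine ⟨{y | pa y}, hpa, {y | pb y}, hpb, ?_⟩
            intro a' ha' b hb1 b' hb' ma' mb mb' ra' rb rb' f2 f4
            exact Or.inr (h ha' hb' ma' mb' ra' rb' (f2.trans f4.symm))
        have keym : ∃ V ∈ 𝓝 z, ∃ V' ∈ 𝓝 z', ∀ a' ∈ V, ∀ b ∈ V', ∀ b' ∈ V', a' ∈ R m → b ∈ R m →
            b' ∈ R m → Reg X f a' → Reg X f b → Reg X f b' → f a' = f b → f b' = f b →
              (up m a' b ∨ up m b' a') := by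
          by_cases hmi : m = i
          · subst hmi; exact key m j hij hzi hzj hzm
          by_cases hmj : m = j
          · subst hmj; exact key m i hij.symm hzj hzi hzm
          refine ⟨_, block_near hcl z, univ, univ_mem, ?_⟩
          intro a' ha' b _ b' _ ma'
          exact absurd (block_two h3 hij hzi hzj (ha' m ma')) (by tauto)
        obtain ⟨V, hV, V', hV', hk⟩ := keym
        refine ⟨V ∩ ({y | ∀ m, y ∈ R m → z ∈ R m} ∩ {y | y ∈ R i ∩ R j → ¬ Reg X f y}),
            inter_mem hV (inter_mem (block_near hcl z) hcf'),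
            V' ∩ {y | OnlyIn R m y}, inter_mem hV' (oz'.near hcl), ?_⟩
        rintro a _ a' ⟨ha', haz', har'⟩ b ⟨hb1, ob⟩ b' ⟨hb', ob'⟩
            ra ra' rb rb' f1 f2 f4 ⟨u1, u2, u3⟩
        have honly : OnlyIn R i a' ∨ OnlyIn R j a' := by
          obtain ⟨n, hn⟩ := hmemX a' (block_mem_of_reg ra')
          have hmm : ∀ n, a' ∈ R n → n = i ∨ n = j := fun n hn =>
            block_two h3 hij hzi hzj (haz' n hn)
          rcases hmm n hn with rfl | rfl
          · left
            intro n' hn'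
            rcases hmm n' hn' with h | h
            · exact h
            · subst h; exact absurd ra' (har' ⟨hn, hn'⟩)
          · right
            intro n' hn'
            rcases hmm n' hn' with h | h
            · subst h; exact absurd ra' (har' ⟨hn', hn⟩)
            · exact h
        have hfin : ∀ n, OnlyIn R n a' → False := by
          intro n oa'
          by_cases hnm : n = m
          · subst hnm
            have h1 := bu_same ob oa' u2
            have h2 := bu_same oa' ob' u3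
            rcases hk a' ha' b hb1 b' hb' (oa'.mem hX (block_mem_of_reg ra')) (ob.mem hX (block_mem_of_reg rb))
              (ob'.mem hX (block_mem_of_reg rb')) ra' rb rb' f2 f4 with h | h
            · exact (hb n).asymm _ _ (ob.reg hX hcl rb) (oa'.reg hX hcl ra') f2.symm h1 h
            · exact (hb n).asymm _ _ (oa'.reg hX hcl ra') (ob'.reg hX hcl rb')
                (f2.trans f4.symm) h2 h
          · exact hasymm m n (bu_diff ob oa' (Ne.symm hnm) u2) (bu_diff oa' ob' hnm u3)
        rcases honly with h | h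
        · exact hfin i h
        · exact hfin j h

/-- sign of a folding composed of blocks -/
theorem SignOn.of_blocks {ι : Type*} [Finite ι] {R : ι → Set E2} {X : Set E2} {f : E2 → Y}
    {pos : ι → E2 → Prop}
    (hX : X = ⋃ i, R i) (hcl : ∀ i, IsClosed (R i))
    (hb : ∀ i, SignOn (R i) f (pos i))
    (h3 : ∀ i j k, i ≠ j → j ≠ k → i ≠ k → R i ∩ R j ∩ R k = ∅)
    (hinj : ∀ i j, i ≠ j → ∀ z ∈ R i ∩ R j, ∃ V ∈ 𝓝 z, InjOn f (V ∩ R i))
    (hreg : ∀ i j, i ≠ j → ∀ z ∈ R i ∩ R j, Reg X f z →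
      ∃ c : Prop, ∀ᶠ q in 𝓝 z, (q ∈ R i → (pos i q ↔ c)) ∧ (q ∈ R j → (pos j q ↔ c)))
    (hfold : ∃ E : Set E2, E.Finite ∧ ∀ i j, i ≠ j → ∀ z ∈ R i ∩ R j, z ∉ E → ¬ Reg X f z →
      ∃ c : Prop, ∀ᶠ q in 𝓝 z, Reg X f q → ¬ (q ∈ R i ∧ q ∈ R j) ∧
        (q ∈ R i → (pos i q ↔ c)) ∧ (q ∈ R j → (pos j q ↔ ¬ c))) :
    SignOn X f (fun x => ∃ i, x ∈ R i ∧ pos i x) := by
  obtain ⟨Ef, hEf, hfold⟩ := hfold
  have hflip := fun i => (hb i).flip
  choose Eb hEb hflip using hflip
  have honly : ∀ {i : ι} {x : E2}, OnlyIn R i x → x ∈ R i →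
      ((∃ i, x ∈ R i ∧ pos i x) ↔ pos i x) := by
    intro i x h hx
    constructor
    · rintro ⟨j, hj, hp⟩
      rw [← h j hj]; exact hp
    · exact fun hp => ⟨i, hx, hp⟩
  refine ⟨?_, ⟨(⋃ i, Eb i) ∪ Ef, (finite_iUnion hEb).union hEf, ?_⟩⟩
  · intro q hq
    have hUX : ∀ᶠ y in 𝓝 q, y ∈ X := by
      obtain ⟨U, hU, hUX, _⟩ := hq
      exact mem_of_superset hU hUX
    rcases onlyIn_or hX (block_mem_of_reg hq) with ⟨i, hqi, oq⟩ | ⟨i, j, hij, hqi, hqj⟩
    · filter_upwards [hUX, oq.near hcl, (hb i).const q (oq.reg hX hcl hq)] with y hy h1 h2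
      rw [honly h1 (h1.mem hX hy), honly oq hqi, h2]
    · obtain ⟨c, hc⟩ := hreg i j hij q ⟨hqi, hqj⟩ hq
      have h0 : ∀ᶠ y in 𝓝 q, ((∃ i, y ∈ R i ∧ pos i y) ↔ c) := by
        filter_upwards [hUX, block_near hcl q, hc] with y hy h1 h2
        constructor
        · rintro ⟨m, hm, hp⟩
          rcases block_two h3 hij hqi hqj (h1 m hm) with rfl | rfl
          · exact (h2.1 hm).mp hp
          · exact (h2.2 hm).mp hp
        · intro hcc
          rw [hX, mem_iUnion] at hy
          obtain ⟨m, hm⟩ := hy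
          rcases block_two h3 hij hqi hqj (h1 m hm) with rfl | rfl
          · exact ⟨m, hm, (h2.1 hm).mpr hcc⟩
          · exact ⟨m, hm, (h2.2 hm).mpr hcc⟩
      have h1 := h0.self_of_nhds
      filter_upwards [h0] with y hy
      rw [hy, h1]
  · intro q hq hqE
    have hqb : ∀ i, q ∉ Eb i := fun i h => hqE (Or.inl (mem_iUnion.mpr ⟨i, h⟩))
    have hqf : q ∉ Ef := fun h => hqE (Or.inr h)
    rcases onlyIn_or hX hq with ⟨i, hqi, oq⟩ | ⟨i, j, hij, hqi, hqj⟩
    · obtain ⟨V, hV, h⟩ := hflip i q hqi (hqb i)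
      refine ⟨V ∩ {y | OnlyIn R i y}, inter_mem hV (oq.near hcl), ?_⟩
      rintro a ⟨ha, oa⟩ a' ⟨ha', oa'⟩ ra ra' hne hf
      rw [honly oa (oa.mem hX (block_mem_of_reg ra)), honly oa' (oa'.mem hX (block_mem_of_reg ra'))]
      exact h a ha a' ha' (oa.reg hX hcl ra) (oa'.reg hX hcl ra') hne hf
    · by_cases hr : Reg X f q
      · obtain ⟨U, hU, _, hUi⟩ := hr
        exact ⟨U, hU, fun a ha a' ha' _ _ hne hf => absurd (hUi ha ha' hf) hne⟩
      · obtain ⟨c, hc⟩ := hfold i j hij q ⟨hqi, hqj⟩ hqf hr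
        obtain ⟨Vi, hVi, hii⟩ := hinj i j hij q ⟨hqi, hqj⟩
        obtain ⟨Vj, hVj, hjj⟩ := hinj j i hij.symm q ⟨hqj, hqi⟩
        refine ⟨_, inter_mem hc (inter_mem (block_near hcl q) (inter_mem hVi hVj)), ?_⟩
        rintro a ⟨ha, haz, hai, haj⟩ a' ⟨ha', haz', hai', haj'⟩ ra ra' hne hf
        have hpos : ∀ y, (∀ m, y ∈ R m → q ∈ R m) → Reg X f y → (Reg X f y → ¬ (y ∈ R i ∧ y ∈ R j) ∧
            (y ∈ R i → (pos i y ↔ c)) ∧ (y ∈ R j → (pos j y ↔ ¬ c))) →
            (y ∈ R i ∧ ((∃ i, y ∈ R i ∧ pos i y) ↔ c)) ∨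
            (y ∈ R j ∧ ((∃ i, y ∈ R i ∧ pos i y) ↔ ¬ c)) := by
          intro y hy ry h
          obtain ⟨h1, h2, h4⟩ := h ry
          have hyX := block_mem_of_reg ry
          rw [hX, mem_iUnion] at hyX
          obtain ⟨m, hm⟩ := hyX
          have hmm : ∀ m, y ∈ R m → m = i ∨ m = j := fun m hm =>
            block_two h3 hij hqi hqj (hy m hm)
          rcases hmm m hm with rfl | rfl
          · left
            have oy : OnlyIn R m y := by
              intro m' hm'
              rcases hmm m' hm' with h | h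
              · exact h
              · subst h; exact absurd ⟨hm, hm'⟩ h1
            exact ⟨hm, (honly oy hm).trans (h2 hm)⟩
          · right
            have oy : OnlyIn R m y := by
              intro m' hm'
              rcases hmm m' hm' with h | h
              · subst h; exact absurd ⟨hm', hm⟩ h1
              · exact h
            exact ⟨hm, (honly oy hm).trans (h4 hm)⟩
        rcases hpos a haz ra ha with ⟨m1, p1⟩ | ⟨m1, p1⟩
        · rcases hpos a' haz' ra' ha' with ⟨m2, p2⟩ | ⟨m2, p2⟩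
          · exact absurd (hii ⟨hai, m1⟩ ⟨hai', m2⟩ hf) hne
          · change (∃ i, a ∈ R i ∧ pos i a) ↔ ¬ (∃ i, a' ∈ R i ∧ pos i a')
            rw [p1, p2, not_not]
        · rcases hpos a' haz' ra' ha' with ⟨m2, p2⟩ | ⟨m2, p2⟩
          · change (∃ i, a ∈ R i ∧ pos i a) ↔ ¬ (∃ i, a' ∈ R i ∧ pos i a')
            rw [p1, p2]
          · exact absurd (hjj ⟨haj, m1⟩ ⟨haj', m2⟩ hf) hne

/-- **Level criterion**: finitely many closed regions `R 0, ..., R (k-1)` on which `f` is injective, ordered from top to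
bottom by their index, meeting only along folds.

Proof: let `J(z)` be the set of regions containing `z`. A regular point `x` is in exactly one region `R i` (`h1`). tortilla at
`(x, z)`: `i ∉ J(z)` by injectivity (`z ≠ x`); by `h3` not both `j < i` and `k > i` occur in `J(z)`; near `x` only `R i`, near `z` only
regions of `J(z)` occur. taco: `a > b > a' > b'` near `z, z', z, z'` are in regions `i < k < j < l` with `z ∈ R i ∩ R j`, `z' ∈ R k ∩ R l`
(closedness): contradiction with `h4`. -/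
theorem FoldOn.of_levels {k : ℕ} {R : Fin k → Set E2} {X : Set E2} {f : E2 → Y}
    (hp : Pieced X f) (hX : X = ⋃ i, R i) (hcl : ∀ i, IsClosed (R i))
    (hinj : ∀ i, InjOn f (R i))
    (h1 : ∀ i j, i ≠ j → ∀ x ∈ R i ∩ R j, ¬ Reg X f x)
    (h3 : ∀ i j k, j < i → i < k → ∀ x ∈ R i, Reg X f x → ∀ z ∈ R j ∩ R k, f x ≠ f z)
    (h4 : ∃ E : Set Y, E.Finite ∧ ∀ i j k l, i < k → k < j → j < l → ∀ z ∈ R i ∩ R j,
      ∀ z' ∈ R k ∩ R l, f z = f z' → f z ∈ E) :
    FoldOn X f (fun x y => ∃ i j, i < j ∧ x ∈ R i ∧ y ∈ R j) := by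
  have hmemX : ∀ x, x ∈ X → ∃ i, x ∈ R i := fun x hx => by
    rwa [hX, mem_iUnion] at hx
  have huniq : ∀ x, Reg X f x → ∀ i j, x ∈ R i → x ∈ R j → i = j := by
    intro x hx i j hi hj
    by_contra hne
    exact h1 i j hne x ⟨hi, hj⟩ hx
  refine ⟨hp, ?_, ?_, ?_, ?_, ?_⟩
  · rintro x y hx hy _ ⟨i, j, hij, hxi, hyj⟩ ⟨i', j', hij', hyi', hxj'⟩
    have e1 := huniq x hx i j' hxi hxj'
    have e2 := huniq y hy j i' hyj hyi'
    rw [e1, e2] at hij
    exact absurd hij (not_lt.mpr hij'.le)
  · intro x y hx hy hf hne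
    obtain ⟨i, hi⟩ := hmemX x (block_mem_of_reg hx)
    obtain ⟨j, hj⟩ := hmemX y (block_mem_of_reg hy)
    have hij : i ≠ j := by
      rintro rfl
      exact hne (hinj i hi hj hf)
    rcases lt_or_gt_of_ne hij with h | h
    · exact Or.inl ⟨i, j, h, hi, hj⟩
    · exact Or.inr ⟨j, i, h, hj, hi⟩
  · rintro x y z hx hy hz _ _ ⟨i, j, hij, hxi, hyj⟩ ⟨j', l, hjl, hyj', hzl⟩
    have e := huniq y hy j j' hyj hyj'
    subst e
    exact ⟨i, l, hij.trans hjl, hxi, hzl⟩
  · intro x z hx hz hzx hf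
    obtain ⟨i, hi⟩ := hmemX x (block_mem_of_reg hx)
    have hJ : ∀ j, z ∈ R j → j ≠ i := by
      rintro j hj rfl
      exact hzx (hinj j hj hi hf)
    have hfst0 : ∀ {P : E2 → Prop}, (∀ᶠ y in 𝓝 x, P y) → ∀ᶠ q : E2 × E2 in 𝓝 (x, z), P q.1 :=
      fun h => continuous_fst.continuousAt.eventually h
    have hsnd0 : ∀ {P : E2 → Prop}, (∀ᶠ y in 𝓝 z, P y) → ∀ᶠ q : E2 × E2 in 𝓝 (x, z), P q.2 :=
      fun h => continuous_snd.continuousAt.eventually h
    have hfst := hfst0 (block_near hcl x)
    have hsnd := hsnd0 (block_near hcl z)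
    by_cases hlow : ∃ j, z ∈ R j ∧ j < i
    · right
      obtain ⟨j, hj, hji⟩ := hlow
      filter_upwards [hfst, hsnd] with q h5 h6 r1 r2 _
      obtain ⟨m, hm⟩ := hmemX q.1 (block_mem_of_reg r1)
      obtain ⟨l, hl⟩ := hmemX q.2 (block_mem_of_reg r2)
      have e := huniq x hx m i (h5 m hm) hi
      subst e
      have hzl := h6 l hl
      have hlm : l < m := by
        rcases lt_or_gt_of_ne (hJ l hzl) with h | h
        · exact h
        · exact absurd hf.symm (h3 m j l hji h x hi hx z ⟨hj, hzl⟩)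
      exact ⟨l, m, hlm, hl, hm⟩
    · left
      push Not at hlow
      filter_upwards [hfst, hsnd] with q h5 h6 r1 r2 _
      obtain ⟨m, hm⟩ := hmemX q.1 (block_mem_of_reg r1)
      obtain ⟨l, hl⟩ := hmemX q.2 (block_mem_of_reg r2)
      have e := huniq x hx m i (h5 m hm) hi
      subst e
      have hzl := h6 l hl
      exact ⟨m, l, lt_of_le_of_ne (hlow l hzl) (hJ l hzl).symm, hm, hl⟩
  · obtain ⟨E, hE, h4⟩ := h4
    refine ⟨E, hE, ?_⟩
    intro z z' hz hz' hzz hf hfE
    refine ⟨_, block_near hcl z, _, block_near hcl z', ?_⟩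
    rintro a ha a' ha' b hb b' hb' ra ra' rb rb' f1 f2 f4
      ⟨⟨i, l, hil, hai, hbl⟩, ⟨l', j, hlj, hbl', haj⟩, ⟨j', m, hjm, haj', hbm⟩⟩
    have e1 := huniq b rb l l' hbl hbl'
    have e2 := huniq a' ra' j j' haj haj'
    subst e1
    subst e2
    exact hfE (h4 i j l m hil hlj hjm z ⟨ha i hai, ha' j haj⟩ z' ⟨hb l hbl, hb' m hbm⟩ hf)

end

end Pool.Agent.SeamS
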