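import Pool.Agent.SeamS.Comp
import Pool.Agent.SeamS.Block

/-!
# Simple folds and their compositions (modules C1, C2)

`fold l` keeps the half plane `l.2 ≤ ⟪l.1, y⟫` and reflects the other one (`‖l.1‖ = 1`).

`fold_foldOn`: `X` is the union of the two clipped parts; `fold l` is the identity on one and `refl l` on the other. Regular
points are the interior points of `X` off the line (an interior point of `X` on the line is not regular: points near it on
both sides have the same image). Use `FoldOn.of_levels` with `R 0 = X ∩ {l.2 ≤ ⟪l.1, y⟫}`, `R 1 = X ∩ {⟪l.1, y⟫ ≤ l.2}` (both closed), `h3`, `h4` are void for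
`k = 2`; then `FoldOn.congr`-like argument: for regular points (off the line) the order `∃ i j, i < j ∧ x ∈ R i ∧ y ∈ R j` is
the same as `foldUp l x y`; since the order only matters on regular points one may also prove the conditions directly
(fibres over regular points have at most two points, tortilla and taco are easy: for `taco`, `a, a'` near `z` with the same image as `b` near `z'`:
if `z` is off the line then `fold l` is injective near `z`, so `a = a'`, contradiction to asymmetry; if `z, z'` are on the line then `z = z'`; and if `z` is on the line then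
`fold l z' = z` implies `z' = z`).

`FW_foldOn`, `FW_signOn`: induction on the list with `FoldOn.comp`, `SignOn.comp`; `FW w '' X` is a `PolySet` by `Pieced.polySet_image`.
-/

namespace Pool.Agent.SeamS

open Set Filter Topology Metric Pool.Agent.Hhelper79.Seam

theorem inner_self_one {l : E2 × ℝ} (hl : ‖l.1‖ = 1) : inner ℝ l.1 l.1 = (1 : ℝ) := by
  rw [real_inner_self_eq_norm_sq, hl]
  norm_num

theorem inner_refl {l : E2 × ℝ} (hl : ‖l.1‖ = 1) (y : E2) :
    inner ℝ l.1 (refl l y) = 2 * l.2 - inner ℝ l.1 y := by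
  unfold refl
  rw [inner_sub_right, inner_smul_right, inner_self_one hl]
  ring

theorem refl_refl {l : E2 × ℝ} (hl : ‖l.1‖ = 1) (y : E2) : refl l (refl l y) = y := by
  have h := inner_refl hl y
  rw [refl, h, refl, sub_sub, ← add_smul]
  have h2 : 2 * (inner ℝ l.1 y - l.2) + 2 * (2 * l.2 - inner ℝ l.1 y - l.2) = 0 := by ring
  rw [h2, zero_smul, sub_zero]

theorem norm_refl_sub {l : E2 × ℝ} (hl : ‖l.1‖ = 1) (x y : E2) :
    ‖x - refl l y‖ ^ 2 = ‖x - y‖ ^ 2 +
      4 * ((inner ℝ l.1 y - l.2) * (inner ℝ l.1 x - l.2)) := by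
  have h : x - refl l y = (x - y) + (2 * (inner ℝ l.1 y - l.2)) • l.1 := by
    unfold refl
    abel
  rw [h, norm_add_sq_real, norm_smul, hl, mul_one, inner_smul_right, Real.norm_eq_abs, sq_abs,
    real_inner_comm l.1 (x - y), inner_sub_right]
  ring

/-- the reflection as an affine isometry -/
theorem exists_refl_isometry {l : E2 × ℝ} (hl : ‖l.1‖ = 1) :
    ∃ g : E2 →ᵃⁱ[ℝ] E2, ∀ y, g y = refl l y := by
  let L : E2 →ₗ[ℝ] E2 :=
    { toFun := fun v => v - (2 * inner ℝ l.1 v) • l.1
      map_add' := fun v w => by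
        rw [inner_add_right, mul_add, add_smul]
        abel
      map_smul' := fun c v => by
        rw [inner_smul_right, RingHom.id_apply, smul_sub, smul_smul]
        congr 2
        ring }
  have hL : ∀ v, L v = v - (2 * inner ℝ l.1 v) • l.1 := fun v => rfl
  refine ⟨{ toFun := refl l
            linear := L
            map_vadd' := ?_
            norm_map := ?_ }, fun y => rfl⟩
  · intro x v
    rw [vadd_eq_add, vadd_eq_add, hL]
    unfold refl
    rw [inner_add_right, show 2 * (inner ℝ l.1 v + inner ℝ l.1 x - l.2) =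
      2 * inner ℝ l.1 v + 2 * (inner ℝ l.1 x - l.2) by ring, add_smul]
    abel
  · intro v
    rw [hL, ← sq_eq_sq₀ (norm_nonneg _) (norm_nonneg _), @norm_sub_sq_real, norm_smul, hl, mul_one,
      inner_smul_right, Real.norm_eq_abs, sq_abs, real_inner_comm l.1 v]
    ring

theorem fold_pos {l : E2 × ℝ} {y : E2} (h : l.2 ≤ inner ℝ l.1 y) : fold l y = y := by
  unfold fold
  rw [if_pos h]

theorem fold_neg {l : E2 × ℝ} {y : E2} (h : inner ℝ l.1 y < l.2) : fold l y = refl l y := by
  unfold fold
  rw [if_neg (not_le.2 h)]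

theorem fold_neg' {l : E2 × ℝ} {y : E2} (h : inner ℝ l.1 y ≤ l.2) : fold l y = refl l y := by
  rcases h.lt_or_eq with h | h
  · exact fold_neg h
  · rw [fold_pos h.ge]
    unfold refl
    rw [h]
    simp

theorem le_inner_fold {l : E2 × ℝ} (hl : ‖l.1‖ = 1) (y : E2) : l.2 ≤ inner ℝ l.1 (fold l y) := by
  rcases le_or_gt l.2 (inner ℝ l.1 y) with h | h
  · rwa [fold_pos h]
  · rw [fold_neg h, inner_refl hl]
    linarith

theorem dist_refl_refl {l : E2 × ℝ} (hl : ‖l.1‖ = 1) (x y : E2) :
    dist (refl l x) (refl l y) = dist x y := by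
  obtain ⟨g, hg⟩ := exists_refl_isometry hl
  rw [← hg, ← hg, g.dist_map]

theorem dist_sq_refl {l : E2 × ℝ} (hl : ‖l.1‖ = 1) (x y : E2) :
    dist x (refl l y) ^ 2 = dist x y ^ 2 +
      4 * ((inner ℝ l.1 y - l.2) * (inner ℝ l.1 x - l.2)) := by
  rw [dist_eq_norm, dist_eq_norm, norm_refl_sub hl]

theorem dist_refl_le {l : E2 × ℝ} (hl : ‖l.1‖ = 1) {x y : E2} (hx : l.2 ≤ inner ℝ l.1 x)
    (hy : inner ℝ l.1 y ≤ l.2) : dist x (refl l y) ≤ dist x y := by
  rw [← sq_le_sq₀ dist_nonneg dist_nonneg, dist_sq_refl hl]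
  have h := mul_nonneg (sub_nonneg.2 hy) (sub_nonneg.2 hx)
  nlinarith

theorem dist_fold_le {l : E2 × ℝ} (hl : ‖l.1‖ = 1) (x y : E2) :
    dist (fold l x) (fold l y) ≤ dist x y := by
  rcases le_or_gt l.2 (inner ℝ l.1 x) with hx | hx <;>
    rcases le_or_gt l.2 (inner ℝ l.1 y) with hy | hy
  · rw [fold_pos hx, fold_pos hy]
  · rw [fold_pos hx, fold_neg hy]
    exact dist_refl_le hl hx hy.le
  · rw [fold_neg hx, fold_pos hy, dist_comm, dist_comm x y]
    exact dist_refl_le hl hy hx.le
  · rw [fold_neg hx, fold_neg hy, dist_refl_refl hl]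

/-- folding decreases the distance to the points of the half plane which is kept -/
theorem dist_fold_lt {l : E2 × ℝ} (hl : ‖l.1‖ = 1) {c y : E2} (hc : l.2 < inner ℝ l.1 c)
    (hy : inner ℝ l.1 y < l.2) : dist (fold l y) c < dist y c := by
  rw [fold_neg hy, dist_comm, dist_comm y c, ← sq_lt_sq₀ dist_nonneg dist_nonneg, dist_sq_refl hl]
  have h := mul_pos (sub_pos.2 hy) (sub_pos.2 hc)
  nlinarith

/-- fibres of the fold -/
theorem fold_eq_iff {l : E2 × ℝ} (hl : ‖l.1‖ = 1) {x z : E2} (hne : z ≠ x)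
    (h : fold l z = fold l x) :
    (l.2 < inner ℝ l.1 x ∧ inner ℝ l.1 z < l.2) ∨ (inner ℝ l.1 x < l.2 ∧ l.2 < inner ℝ l.1 z) := by
  rcases le_or_gt l.2 (inner ℝ l.1 x) with hx | hx <;>
    rcases le_or_gt l.2 (inner ℝ l.1 z) with hz | hz
  · rw [fold_pos hx, fold_pos hz] at h
    exact absurd h hne
  · left
    refine ⟨?_, hz⟩
    rw [fold_pos hx, fold_neg hz] at h
    rw [← h, inner_refl hl]
    linarith
  · right
    refine ⟨hx, ?_⟩
    rw [fold_neg hx, fold_pos hz] at h
    rw [h, inner_refl hl]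
    linarith
  · rw [fold_neg hx, fold_neg hz] at h
    have h1 := congrArg (refl l) h
    rw [refl_refl hl, refl_refl hl] at h1
    exact absurd h1 hne

/-- points of the line are not regular -/
theorem fold_reg {l : E2 × ℝ} (hl : ‖l.1‖ = 1) {X : Set E2} {x : E2} (h : Reg X (fold l) x) :
    inner ℝ l.1 x ≠ l.2 := by
  intro h0
  obtain ⟨U, hU, -, hinj⟩ := h
  obtain ⟨ε, hε, hball⟩ := Metric.mem_nhds_iff.1 hU
  have h1 : inner ℝ l.1 (x + (ε / 2) • l.1) = l.2 + ε / 2 := by
    rw [inner_add_right, inner_smul_right, inner_self_one hl, h0]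
    ring
  have hd : ‖(ε / 2) • l.1‖ = ε / 2 := by
    rw [norm_smul, hl, mul_one, Real.norm_of_nonneg (by linarith)]
  have h2 : x + (ε / 2) • l.1 ∈ U := by
    apply hball
    rw [Metric.mem_ball, dist_eq_norm, add_sub_cancel_left, hd]
    linarith
  have h3 : x - (ε / 2) • l.1 ∈ U := by
    apply hball
    rw [Metric.mem_ball, dist_eq_norm, sub_sub_cancel_left, norm_neg, hd]
    linarith
  have h4 : inner ℝ l.1 (x - (ε / 2) • l.1) = l.2 - ε / 2 := by
    rw [inner_sub_right, inner_smul_right, inner_self_one hl, h0]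
    ring
  have h5 : fold l (x + (ε / 2) • l.1) = fold l (x - (ε / 2) • l.1) := by
    rw [fold_pos (by rw [h1]; linarith), fold_neg (by rw [h4]; linarith), refl, h4, sub_sub,
      ← add_smul]
    rw [show ε / 2 + 2 * (l.2 - ε / 2 - l.2) = -(ε / 2) by ring, neg_smul, sub_neg_eq_add]
  have h6 := hinj h2 h3 h5
  have h7 : inner ℝ l.1 (x + (ε / 2) • l.1) = inner ℝ l.1 (x - (ε / 2) • l.1) := by rw [h6]
  rw [h1, h4] at h7
  linarith

theorem eventually_gt {l : E2 × ℝ} {x : E2} (h : l.2 < inner ℝ l.1 x) :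
    ∀ᶠ y in 𝓝 x, l.2 < inner ℝ l.1 y := by
  have hc : Continuous fun y : E2 => inner ℝ l.1 y := by fun_prop
  exact hc.continuousAt.eventually (lt_mem_nhds h)

theorem eventually_lt {l : E2 × ℝ} {x : E2} (h : inner ℝ l.1 x < l.2) :
    ∀ᶠ y in 𝓝 x, inner ℝ l.1 y < l.2 := by
  have hc : Continuous fun y : E2 => inner ℝ l.1 y := by fun_prop
  exact hc.continuousAt.eventually (gt_mem_nhds h)

theorem fold_pieced {l : E2 × ℝ} (hl : ‖l.1‖ = 1) {X : Set E2} (hX : PolySet X) :
    Pieced X (fold l) := by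
  apply Pieced.of_cover hX (k := 2) (Λ := ![{l}, {(-l.1, -l.2)}])
  · intro i
    fin_cases i
    · exact Set.finite_singleton _
    · exact Set.finite_singleton _
  · intro x _
    rcases le_or_gt l.2 (inner ℝ l.1 x) with h | h
    · refine mem_iUnion.2 ⟨0, ?_⟩
      rintro l' rfl
      exact h
    · refine mem_iUnion.2 ⟨1, ?_⟩
      rintro l' rfl
      simp only [inner_neg_left]
      linarith
  · intro i
    fin_cases i
    · refine ⟨AffineIsometry.id, ?_⟩
      rintro x ⟨-, hx⟩
      have h : l.2 ≤ inner ℝ l.1 x := hx l rfl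
      rw [fold_pos h]
      rfl
    · obtain ⟨g, hg⟩ := exists_refl_isometry hl
      refine ⟨g, ?_⟩
      rintro x ⟨-, hx⟩
      have h := hx (-l.1, -l.2) rfl
      simp only [inner_neg_left] at h
      rw [hg, fold_neg' (by linarith)]

theorem fold_foldOn {l : E2 × ℝ} (hl : ‖l.1‖ = 1) {X : Set E2} (hX : PolySet X) :
    FoldOn X (fold l) (foldUp l) where
  pieces := fold_pieced hl hX
  asymm x y _ _ _ h1 h2 := absurd h1.1 (not_lt.2 h2.2.le)
  total x y hx hy hxy hne := by
    rcases fold_eq_iff hl (Ne.symm hne) hxy.symm with h | h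
    · exact Or.inl h
    · exact Or.inr ⟨h.2, h.1⟩
  trans x y z _ _ _ _ _ h1 h2 := absurd h2.1 (not_lt.2 h1.2.le)
  tortilla x z hx hz hne h := by
    rcases fold_eq_iff hl hne h with ⟨h1, h2⟩ | ⟨h1, h2⟩
    · left
      filter_upwards [(eventually_gt h1).prod_nhds (eventually_lt h2)] with q hq _ _ _
      exact hq
    · right
      filter_upwards [(eventually_lt h1).prod_nhds (eventually_gt h2)] with q hq _ _ _
      exact ⟨hq.2, hq.1⟩
  taco := by
    refine ⟨∅, Set.finite_empty, fun z z' _ _ hne h _ => ?_⟩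
    rcases fold_eq_iff hl (Ne.symm hne) h.symm with ⟨h1, h2⟩ | ⟨h1, h2⟩
    · refine ⟨_, eventually_gt h1, _, eventually_lt h2, ?_⟩
      intro a _ a' _ b hb b' _ _ _ _ _ _ _ _ hup
      exact absurd hup.2.1.1 (not_lt.2 (le_of_lt hb))
    · refine ⟨_, eventually_lt h1, _, eventually_gt h2, ?_⟩
      intro a ha a' _ b _ b' _ _ _ _ _ _ _ _ hup
      exact absurd hup.1.1 (not_lt.2 (le_of_lt ha))

theorem fold_signOn {l : E2 × ℝ} (hl : ‖l.1‖ = 1) {X : Set E2} (_hX : PolySet X) :
    SignOn X (fold l) (foldPos l) where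
  const q hq := by
    rcases lt_or_gt_of_ne (fold_reg hl hq) with h | h
    · filter_upwards [eventually_lt h] with q' hq'
      exact ⟨fun h' => absurd hq' (not_lt.2 h'), fun h' => absurd h (not_lt.2 h')⟩
    · filter_upwards [eventually_gt h] with q' hq'
      exact ⟨fun _ => le_of_lt h, fun _ => le_of_lt hq'⟩
  flip := by
    refine ⟨∅, Set.finite_empty, fun q _ _ => ⟨univ, univ_mem, ?_⟩⟩
    intro a _ a' _ _ _ hne h
    rcases fold_eq_iff hl (Ne.symm hne) h.symm with ⟨h1, h2⟩ | ⟨h1, h2⟩
    · exact ⟨fun _ => not_le.2 h2, fun _ => le_of_lt h1⟩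
    · exact ⟨fun h' => absurd h1 (not_lt.2 h'), fun h' => absurd (le_of_lt h2) h'⟩

theorem fold_continuous {l : E2 × ℝ} (hl : ‖l.1‖ = 1) : Continuous (fold l) :=
  (LipschitzWith.of_dist_le_mul (K := 1) fun x y => by
    rw [NNReal.coe_one, one_mul]
    exact dist_fold_le hl x y).continuous

theorem FW_continuous {w : List (E2 × ℝ)} (hw : ∀ l ∈ w, ‖l.1‖ = 1) : Continuous (FW w) := by
  induction w with
  | nil => exact continuous_id
  | cons l w ih =>
    exact (fold_continuous (hw l List.mem_cons_self)).comp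
      (ih fun l' hl' => hw l' (List.mem_cons_of_mem _ hl'))

theorem pieced_id {X : Set E2} (hX : PolySet X) : Pieced X (fun x => x) := by
  obtain ⟨T, hT, hp, hXT⟩ := hX
  exact ⟨T, hT, hp, hXT, fun t _ => ⟨AffineIsometry.id, fun x _ => rfl⟩⟩

theorem FW_foldOn {w : List (E2 × ℝ)} (hw : ∀ l ∈ w, ‖l.1‖ = 1) {X : Set E2}
    (hX : PolySet X) : FoldOn X (FW w) (upW w) := by
  induction w with
  | nil => exact FoldOn.of_injOn (pieced_id hX) (fun x _ y _ h => h)
  | cons l w ih =>
    have hF := ih fun l' hl' => hw l' (List.mem_cons_of_mem _ hl')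
    have hl := hw l List.mem_cons_self
    have hX' := hF.pieces.polySet_image
    exact FoldOn.comp hF (fold_foldOn hl hX') (fold_signOn hl hX')

theorem FW_signOn {w : List (E2 × ℝ)} (hw : ∀ l ∈ w, ‖l.1‖ = 1) {X : Set E2}
    (hX : PolySet X) : SignOn X (FW w) (posW w) := by
  induction w with
  | nil => exact SignOn.of_injOn (fun x _ y _ h => h)
  | cons l w ih =>
    have hw' : ∀ l ∈ w, ‖l.1‖ = 1 := fun l' hl' => hw l' (List.mem_cons_of_mem _ hl')
    have hF := FW_foldOn hw' hX
    have hl := hw l List.mem_cons_self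
    have hX' := hF.pieces.polySet_image
    exact SignOn.comp (F := FW w) (G := fold l) hF.pieces (fold_pieced hl hX') (ih hw')
      (fold_signOn hl hX')

theorem upW_irrefl (w : List (E2 × ℝ)) (x : E2) : ¬ upW w x x := by
  induction w with
  | nil => exact fun h => h
  | cons l w ih =>
    rintro (⟨h, -⟩ | ⟨-, ⟨-, h⟩ | ⟨-, h⟩⟩)
    · exact h rfl
    · exact ih h
    · exact ih h

/-- points strictly inside all half planes are fixed, with positive sign, and lie on top -/
theorem FW_fixed {w : List (E2 × ℝ)} (hw : ∀ l ∈ w, ‖l.1‖ = 1) {c : E2}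
    (hc : ∀ l ∈ w, l.2 < inner ℝ l.1 c) :
    FW w c = c ∧ posW w c ∧ ∀ y, y ≠ c → FW w y = c → upW w c y := by
  induction w with
  | nil => exact ⟨rfl, trivial, fun y hy h => absurd h hy⟩
  | cons l w ih =>
    obtain ⟨h1, h2, h3⟩ := ih (fun l' hl' => hw l' (List.mem_cons_of_mem _ hl'))
      (fun l' hl' => hc l' (List.mem_cons_of_mem _ hl'))
    have hl := hw l List.mem_cons_self
    have hcl := hc l List.mem_cons_self
    refine ⟨?_, ?_, ?_⟩
    · change fold l (FW w c) = c
      rw [h1, fold_pos hcl.le]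
    · change posW w c ↔ foldPos l (FW w c)
      rw [h1]
      exact ⟨fun _ => hcl.le, fun _ => h2⟩
    · intro y hy h
      change fold l (FW w y) = c at h
      by_cases he : FW w y = c
      · right
        refine ⟨by rw [h1, he], Or.inl ⟨?_, h3 y hy he⟩⟩
        rw [h1]
        exact hcl.le
      · left
        refine ⟨by rw [h1]; exact Ne.symm he, ?_⟩
        have h4 : fold l (FW w y) = fold l c := by rw [h, fold_pos hcl.le]
        rcases fold_eq_iff hl he h4 with h5 | h5
        · rw [h1]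
          exact h5
        · exact absurd h5.1 (not_lt.2 hcl.le)

/-- points of the closed polygon are fixed -/
theorem FW_fixed' {w : List (E2 × ℝ)} {c : E2} (hc : ∀ l ∈ w, l.2 ≤ inner ℝ l.1 c) :
    FW w c = c := by
  induction w with
  | nil => rfl
  | cons l w ih =>
    change fold l (FW w c) = c
    rw [ih fun l' hl' => hc l' (List.mem_cons_of_mem _ hl'), fold_pos (hc l List.mem_cons_self)]

/-- the composition does not increase the distance, and it increases it for points of the polygon by a bounded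
amount only: a fold changes the distance to a point of `Hull Λ` by at most twice the distance of this point to the line -/
theorem dist_FW_ge {w : List (E2 × ℝ)} (hw : ∀ l ∈ w, ‖l.1‖ = 1) (c : E2) :
    ∃ D : ℝ, ∀ y, dist y c - D ≤ dist (FW w y) c := by
  induction w with
  | nil => exact ⟨0, fun y => by simp [FW]⟩
  | cons l w ih =>
    obtain ⟨D, hD⟩ := ih fun l' hl' => hw l' (List.mem_cons_of_mem _ hl')
    have hl := hw l List.mem_cons_self
    refine ⟨D + dist (refl l c) c, fun y => ?_⟩
    have h1 := hD y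
    change _ ≤ dist (fold l (FW w y)) c
    rcases le_or_gt l.2 (inner ℝ l.1 (FW w y)) with h | h
    · rw [fold_pos h]
      have := dist_nonneg (x := refl l c) (y := c)
      linarith
    · rw [fold_neg h]
      have h2 := dist_triangle (refl l (FW w y)) c (refl l c)
      rw [dist_refl_refl hl, dist_comm c] at h2
      linarith

end Pool.Agent.SeamS
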