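import Pool.Agent.SeamS.RouteDefs
import Pool.Agent.SeamS.Fold

/-!
# One visit of a cell (module E1a)

The centre line enters the cell `i` at the boundary point `G (t, h)`. It goes straight for a short time, turns (fold) towards a chosen edge
point `s'` at which a move to the node `(j, l)` is possible, reaches this point and then either folds back along the edge (`i = j`) or crosses to
the cell `j` (`i ≠ j`).

Proof. Put `p = pt t h`. `G` maps a nonempty open set into the plane `range (g i)`, so `range G ⊆ range (g i)` and `G = g i ∘ γ` with an isometry `γ` of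
the plane. Let `O = O i`, `P = γ p ∈ closure O \ O`, `d = γ.linear e1`. As `⟪n, e1⟫ > 0`, `P + σ d = γ (pt (t + σ) h) ∈ O` for small `σ > 0`.
The line `P + ℝ d` meets the boundary of the bounded open convex set `O` in only two points, so `𝓔` minus `Φ`, minus `G p` and minus these two points is nonempty; choose
`s' = g i P'` in it, `P' ∈ closure O \ O`, `P' ∉ P + ℝ d`. Choose `σ > 0` with `Q = P + σ d ∈ O` and `g i Q ∉ Φ`. Put `t1 = t + σ`, `u = (P' - Q) / ‖P' - Q‖ ≠ ± d`, `v = γ.linear⁻¹ u ≠ e1`,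
`n1 = (e1 - v) / ‖e1 - v‖`; the reflection in the line through `pt t1 h` with normal `n1` has linear part mapping `e1` to `v`, and `⟪n1, e1⟫ = (1 - ⟪v, e1⟫) / ‖e1 - v‖ > 0`. `G1 = G ∘ refl`, `G1 (pt (t1 + τ) h) = g i (Q + τ u)`;
`t2 = t1 + ‖P' - Q‖`, `G1 (pt t2 h) = s'`.
By `IsComplex.edge` at `P'` (`g i P' ∉ V`) there are `r` and the inner normal `ν`; `O ⊆ {⟪ν, y - P'⟫ > 0}` by convexity of `O` (a point `y ∈ O` with `⟪ν, y - P'⟫ ≤ 0` and a point of `O` near `P'`, close to the edge line and on the other side of ..., would give by openness and convexity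
a point of `O` near `P'` with `⟪ν, · - P'⟫ ≤ 0`). So `⟪ν, u⟫ < 0`. Write `G1 = g i ∘ γ1`; `n2 = - γ1.linear⁻¹ ν`; `⟪n2, e1⟫ = - ⟪ν, u⟫ > 0`, and `⟪n2, y - pt t2 h⟫ = - ⟪ν, γ1 y - P'⟫`.
Near `pt t2 h`: `⟪n2, ..⟫ < 0` implies `γ1 y ∈ O`. For `⟪n2, y - pt t2 h⟫ = 0`: `γ1 y` is on the edge line near `P'`, so it is in `closure O \ O`, not in `V`, `G1 y ∈ bcell i`.
The rule in `MoveAt` at `G1 y`: by `plate_edge`, `G1 y ∈ CI q ↔ mem i q ∧ ∃ j' ≠ i, G1 y ∈ ccell j' ∧ mem j' q`, and by `edge` at `P'` the possible `j'` is the same for all points near `P'` on the edge line (in the first alternative of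
`edge` there is none: `ccell j'` with `j' ≠ i` cannot touch: points of `cell j'` near `G1 y` would be in `ccell i`, contradiction to `disj`; in the second alternative it is the cell `j₀` given there: points of `cell j'` near are in `ccell i` or `ccell j₀`, so `j' = j₀`; and `G1 y ∈ ccell j₀` as a limit of points of `cell j₀`). So
`G1 y ∈ CI q ↔ s' ∈ CI q`.
Case `i = j`: `G2 = G1 ∘ refl` in the line through `pt t2 h` with normal `n2`. Right side of the line: reflected from the left side, in `cell i`.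
Case `i ≠ j`: `s' ∈ bcell j`, so `j` is the cell `j₀` of the second alternative; let `G'` be the isometry given there, `G2 = G' ∘ γ1`. It agrees with `G1` on the line, maps the right side near `pt t2 h` into `cell j`; and on the line
`G2 y ∈ ccell j` (limit), not in `cell j` (it is in `ccell i`), so in `bcell j`.
-/

namespace Pool.Agent.SeamS

open Set Filter Topology Metric Pool.Agent.Hhelper79.Seam

namespace VisitAux

section
variable {Y : Type*} [NormedAddCommGroup Y] [InnerProductSpace ℝ Y]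

theorem aff_add (f : E2 →ᵃⁱ[ℝ] Y) (p v : E2) : f (p + v) = f p + f.linearIsometry v := by
  rw [add_comm p v, ← vadd_eq_add, f.map_vadd, vadd_eq_add, add_comm]

theorem aff_sub (f : E2 →ᵃⁱ[ℝ] Y) (p q : E2) : f p - f q = f.linearIsometry (p - q) := by
  have h := aff_add f q (p - q)
  rw [add_sub_cancel] at h
  rw [h, add_sub_cancel_left]

end

theorem lin_surj (f : E2 →ᵃⁱ[ℝ] E2) (w : E2) : ∃ v, f.linearIsometry v = w :=
  (f.linearIsometry.toLinearIsometryEquiv rfl).surjective w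

theorem pt_add_e1 (t h s : ℝ) : pt (t + s) h = pt t h + s • e1 := by
  ext i
  fin_cases i <;> simp [pt, e1]

theorem norm_e1 : ‖e1‖ = 1 := by
  rw [EuclideanSpace.norm_eq]
  simp [e1, Fin.sum_univ_two]

theorem tendsto_ray (y w : E2) : Tendsto (fun s : ℝ => y + s • w) (𝓝[>] 0) (𝓝 y) := by
  have hc : Continuous fun s : ℝ => y + s • w := by fun_prop
  have h3 := hc.tendsto 0
  rw [zero_smul, add_zero] at h3
  exact h3.mono_left nhdsWithin_le_nhds

theorem mem_closure_ray {Y : Type*} [TopologicalSpace Y] {f : E2 → Y} (hf : Continuous f)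
    {A : Set Y} {P y : E2} (w : E2) {r : ℝ} (hy : y ∈ ball P r)
    (h : ∀ s : ℝ, 0 < s → y + s • w ∈ ball P r → f (y + s • w) ∈ A) : f y ∈ closure A := by
  have h2 := tendsto_ray y w
  refine mem_closure_of_tendsto ((hf.tendsto y).comp h2) ?_
  filter_upwards [h2.eventually (isOpen_ball.mem_nhds hy), self_mem_nhdsWithin] with s hs hs0
  exact h s hs0 hs

/-- two planes with a common open part are equal -/
theorem exists_plane {G a : E2 →ᵃⁱ[ℝ] E3} {p e : E2} {n : E2} (hne : 0 < inner ℝ n e)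
    (h : ∀ᶠ y in 𝓝 p, 0 < inner ℝ n (y - p) → ∃ z, a z = G y) :
    ∃ γ : E2 →ᵃⁱ[ℝ] E2, ∀ y, G y = a (γ y) := by
  -- a point in the interior
  have h0 : ∀ᶠ s in 𝓝[>] (0 : ℝ), ∀ᶠ y in 𝓝 (p + s • e), ∃ z, a z = G y := by
    filter_upwards [(tendsto_ray p e).eventually h.eventually_nhds, self_mem_nhdsWithin] with s hs hs0
    have h1 : ∀ᶠ y in 𝓝 (p + s • e), 0 < inner ℝ n (y - p) := by
      have hc : Continuous fun y : E2 => inner ℝ n (y - p) := by fun_prop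
      refine hc.continuousAt.eventually (lt_mem_nhds ?_)
      change 0 < inner ℝ n (p + s • e - p)
      rw [add_sub_cancel_left, inner_smul_right]
      exact mul_pos hs0 hne
    filter_upwards [hs, h1] with y hy1 hy2 using hy1 hy2
  obtain ⟨s0, hs0⟩ := h0.exists
  generalize p + s0 • e = q at hs0
  have hr : ∀ y, ∃ z, a z = G y := by
    intro y
    obtain ⟨s, ⟨z, hz⟩, hs0'⟩ := (((tendsto_ray q (y - q)).eventually hs0).and
      (self_mem_nhdsWithin : Ioi (0 : ℝ) ∈ 𝓝[>] (0 : ℝ))).exists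
    have hs0'' : 0 < s := hs0'
    obtain ⟨z0, hz0⟩ := hs0.self_of_nhds
    refine ⟨z0 + s⁻¹ • (z - z0), ?_⟩
    rw [aff_add, map_smul]
    have h2 : a z - a z0 = s • G.linearIsometry (y - q) := by
      rw [hz, hz0, aff_add, add_sub_cancel_left, map_smul]
    rw [aff_sub] at h2
    rw [h2, smul_smul, inv_mul_cancel₀ hs0''.ne', one_smul, hz0, ← aff_add, add_sub_cancel]
  choose f hf using hr
  have hi : Isometry f := Isometry.of_dist_eq fun x y => by
    rw [← a.dist_map, hf, hf, G.dist_map]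
  exact ⟨hi.affineIsometryOfStrictConvexSpace, fun y => (hf y).symm⟩

theorem closure_cell (c : CData) (j : Fin c.N) : closure (c.cell j) = c.ccell j :=
  (c.g j).isometry.isClosedEmbedding.closure_image_eq _

theorem near_cell {S : Set E3} {c : CData} (hc : IsComplex S c) {j : Fin c.N} {s s0 : E3}
    {r : ℝ} (hs : s ∈ c.ccell j) (hd : dist s s0 < r) :
    ∃ s' ∈ c.cell j, s' ∈ S ∧ dist s' s0 < r := by
  rw [← closure_cell] at hs
  obtain ⟨s', h1, h2⟩ := mem_closure_iff.1 hs (ball s0 r) isOpen_ball hd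
  refine ⟨s', h2, ?_, h1⟩
  rw [hc.cover]
  exact mem_iUnion.2 ⟨j, image_mono subset_closure h2⟩

theorem bcell_of {c : CData} {j : Fin c.N} {s : E3} (h1 : s ∈ c.ccell j) (h2 : s ∉ c.cell j) :
    s ∈ c.bcell j := by
  obtain ⟨w, hw, rfl⟩ := h1
  exact ⟨w, ⟨hw, fun h => h2 ⟨w, h, rfl⟩⟩, rfl⟩

theorem ccell_of {c : CData} {j : Fin c.N} {s : E3} (h1 : s ∈ c.bcell j) : s ∈ c.ccell j := by
  obtain ⟨w, hw, rfl⟩ := h1
  exact ⟨w, hw.1, rfl⟩

/-- the structure at an edge point -/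
theorem local_edge {S : Set E3} {c : CData} (hc : IsComplex S c) {i : Fin c.N} {P : E2}
    (hP : P ∈ closure (c.O i)) (hP' : P ∉ c.O i) (hV : c.g i P ∉ c.V) :
    ∃ r > 0, ∃ ν : E2, ‖ν‖ = 1 ∧ (∀ y ∈ ball P r, (y ∈ c.O i ↔ 0 < inner ℝ ν (y - P))) ∧
    (∀ y ∈ ball P r, inner ℝ ν (y - P) = 0 → c.g i y ∉ c.V ∧ c.g i y ∈ c.bcell i ∧
        (∀ j', j' ≠ i → c.g i P ∈ c.ccell j' → c.g i y ∈ c.bcell j') ∧
        (∀ j', j' ≠ i → c.g i y ∈ c.ccell j' → c.g i P ∈ c.ccell j')) ∧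
    (∀ j', j' ≠ i → c.g i P ∈ c.ccell j' → ∃ G : E2 →ᵃⁱ[ℝ] E3,
        (∀ y, inner ℝ ν (y - P) = 0 → G y = c.g i y) ∧
        (∀ y ∈ ball P r, inner ℝ ν (y - P) < 0 → G y ∈ c.cell j')) := by
  obtain ⟨r, hr, ν, hν, hO, hV', halt⟩ := hc.edge i P hP hP' hV
  have hPb : P ∈ ball P r := mem_ball_self hr
  have hνν : inner ℝ ν ν = (1 : ℝ) := by
    rw [real_inner_self_eq_norm_sq, hν]
    norm_num
  have hbd : ∀ y ∈ ball P r, inner ℝ ν (y - P) = 0 → c.g i y ∈ c.bcell i := by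
    intro y hy h0
    refine ⟨y, ⟨?_, ?_⟩, rfl⟩
    · refine mem_closure_ray (f := fun x => x) continuous_id ν hy fun s hs hb => ?_
      rw [hO _ hb, add_sub_right_comm, inner_add_right, h0, inner_smul_right, hνν]
      linarith
    · intro h
      have h1 := (hO y hy).1 h
      rw [h0] at h1
      exact lt_irrefl _ h1
  rcases halt with h1 | ⟨j0, hj0, G, hG1, hG2, -, hG3⟩
  · have no : ∀ y ∈ ball P r, ∀ j', j' ≠ i → c.g i y ∉ c.ccell j' := by
      intro y hy j' hj' h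
      obtain ⟨s, hs1, hs2, hs3⟩ := near_cell hc h (s0 := c.g i P) (r := r)
        (by rw [(c.g i).dist_map]; exact hy)
      exact Set.disjoint_left.1 (hc.disj j' i hj') hs1 (h1 s hs2 hs3)
    exact ⟨r, hr, ν, hν, hO, fun y hy h0 => ⟨hV' y hy h0, hbd y hy h0,
      fun j' hj' h => absurd h (no P hPb j' hj'), fun j' hj' h => absurd h (no y hy j' hj')⟩,
      fun j' hj' h => absurd h (no P hPb j' hj')⟩
  · have uniq : ∀ y ∈ ball P r, ∀ j', j' ≠ i → c.g i y ∈ c.ccell j' → j' = j0 := by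
      intro y hy j' hj' h
      by_contra hne
      obtain ⟨s, hs1, hs2, hs3⟩ := near_cell hc h (s0 := c.g i P) (r := r)
        (by rw [(c.g i).dist_map]; exact hy)
      rcases hG3 s hs2 hs3 with h4 | h4
      · exact Set.disjoint_left.1 (hc.disj j' i hj') hs1 h4
      · exact Set.disjoint_left.1 (hc.disj j' j0 hne) hs1 h4
    have hcl : ∀ y ∈ ball P r, inner ℝ ν (y - P) = 0 → c.g i y ∈ c.ccell j0 := by
      intro y hy h0
      rw [← hG1 y h0, ← closure_cell]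
      refine mem_closure_ray G.continuous (-ν) hy fun s hs hb => hG2 _ hb ?_
      rw [add_sub_right_comm, inner_add_right, h0, inner_smul_right, inner_neg_right, hνν]
      linarith
    refine ⟨r, hr, ν, hν, hO, fun y hy h0 => ⟨hV' y hy h0, hbd y hy h0, ?_, ?_⟩, ?_⟩
    · intro j' hj' h
      have he := uniq P hPb j' hj' h
      subst he
      refine bcell_of (hcl y hy h0) fun h5 => ?_
      exact Set.disjoint_left.1 (hc.disj _ i hj') h5 (ccell_of (hbd y hy h0))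
    · intro j' hj' h
      have he := uniq y hy j' hj' h
      subst he
      exact hcl P hPb (by rw [sub_self, inner_zero_right])
    · intro j' hj' h
      have he := uniq P hPb j' hj' h
      subst he
      exact ⟨G, hG1, hG2⟩

/-- the rule for moves is the same at all points of an edge near a given one -/
theorem moveAt_near {S : Set E3} {c : CData} (hc : IsComplex S c) {i j : Fin c.N} {P : E2}
    {k l : Fin c.m} (hP : c.MoveAt i k j l (c.g i P)) (y : E2)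
    (hy : c.g i y ∉ c.V ∧ c.g i y ∈ c.bcell i ∧
        (∀ j', j' ≠ i → c.g i P ∈ c.ccell j' → c.g i y ∈ c.bcell j') ∧
        (∀ j', j' ≠ i → c.g i y ∈ c.ccell j' → c.g i P ∈ c.ccell j')) :
    c.MoveAt i k j l (c.g i y) := by
  obtain ⟨h1, h2, h3, h4⟩ := hP
  obtain ⟨g1, g2, g3, g4⟩ := hy
  refine ⟨g1, g2, ?_, fun q hq => h4 q ?_⟩
  · by_cases hij : j = i
    · rw [hij]
      exact g2
    · exact g3 j hij (ccell_of h3)
  · obtain ⟨hmem, j', hj', h5, h6⟩ := (hc.plate_edge i _ g2 g1 q).1 hq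
    exact (hc.plate_edge i _ h2 h1 q).2 ⟨hmem, j', hj', g4 j' hj' h5, h6⟩

/-- the reflection which turns the direction `e` into `v` -/
theorem exists_turn {e v : E2} (he : ‖e‖ = 1) (hv : ‖v‖ = 1) (hne : v ≠ e) (q : E2) :
    ∃ n1 : E2, ‖n1‖ = 1 ∧ 0 < inner ℝ n1 e ∧
      ∀ s : ℝ, refl (n1, inner ℝ n1 q) (q + s • e) = q + s • v := by
  have hpos : 0 < ‖e - v‖ := norm_pos_iff.2 (sub_ne_zero.2 hne.symm)
  have h1 : inner ℝ (e - v) e = ‖e - v‖ ^ 2 / 2 := by
    rw [@norm_sub_sq_real, he, hv, inner_sub_left, real_inner_self_eq_norm_sq, he,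
      real_inner_comm]
    ring
  have h2 : inner ℝ (‖e - v‖⁻¹ • (e - v)) e = ‖e - v‖ / 2 := by
    rw [inner_smul_left, h1]
    simp only [RCLike.conj_to_real]
    field_simp
  refine ⟨‖e - v‖⁻¹ • (e - v), ?_, ?_, ?_⟩
  · rw [norm_smul, norm_inv, norm_norm, inv_mul_cancel₀ hpos.ne']
  · rw [h2]
    linarith
  · intro s
    unfold refl
    simp only
    rw [inner_add_right, add_sub_cancel_left, inner_smul_right, h2, smul_smul]
    have h3 : 2 * (s * (‖e - v‖ / 2)) * ‖e - v‖⁻¹ = s := by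
      field_simp
    rw [h3, smul_sub]
    abel

end VisitAux

open VisitAux in
theorem exists_visit {S : Set E3} {c : CData} (hc : IsComplex S c) {i j : Fin c.N}
    {k l : Fin c.m} {t h : ℝ} {n : E2} {G : E2 →ᵃⁱ[ℝ] E3} (hE : Entry c i k G n (pt t h))
    {𝓔 : Set E3} (h𝓔 : 𝓔.Infinite) (hm : ∀ s ∈ 𝓔, c.MoveAt i k j l s) (hl : c.mem j l)
    {Φ : Set E3} (hΦ : Φ.Finite) :
    ∃ (t1 t2 : ℝ) (n1 n2 : E2) (G1 G2 : E2 →ᵃⁱ[ℝ] E3),
      t < t1 ∧ t1 < t2 ∧ ‖n1‖ = 1 ∧ 0 < inner ℝ n1 e1 ∧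
      -- the turn
      G (pt t1 h) ∈ c.cell i ∧ G (pt t1 h) ∉ Φ ∧ G (pt t1 h) ≠ G (pt t h) ∧
      (∀ y, G1 y = G (refl (n1, inner ℝ n1 (pt t1 h)) y)) ∧
      -- the edge point
      G1 (pt t2 h) ∈ 𝓔 ∧ G1 (pt t2 h) ∉ Φ ∧ G1 (pt t2 h) ≠ G (pt t h) ∧
      (∀ᶠ y in 𝓝 (pt t2 h), inner ℝ n2 (y - pt t2 h) < 0 → G1 y ∈ c.cell i) ∧
      (∀ᶠ y in 𝓝 (pt t2 h), inner ℝ n2 (y - pt t2 h) = 0 → c.MoveAt i k j l (G1 y)) ∧
      (i = j → ∀ y, G2 y = G1 (refl (n2, inner ℝ n2 (pt t2 h)) y)) ∧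
      (i ≠ j → ∀ y, inner ℝ n2 (y - pt t2 h) = 0 → G2 y = G1 y) ∧
      Entry c j l G2 n2 (pt t2 h) := by
  have hO := hc.isOpen i
  have hint : interior (c.O i) = c.O i := hO.interior_eq
  obtain ⟨γ, hγ⟩ : ∃ γ : E2 →ᵃⁱ[ℝ] E2, ∀ y, G y = c.g i (γ y) := by
    refine exists_plane (p := pt t h) hE.dir ?_
    filter_upwards [hE.inside] with y hy h0
    obtain ⟨z, -, hz⟩ := hy h0
    exact ⟨z, hz⟩
  have hinj := (c.g i).injective
  obtain ⟨d, hd⟩ : ∃ d, γ.linearIsometry e1 = d := ⟨_, rfl⟩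
  have hdn : ‖d‖ = 1 := by rw [← hd, γ.linearIsometry.norm_map, norm_e1]
  obtain ⟨P, hPd⟩ : ∃ P, γ (pt t h) = P := ⟨_, rfl⟩
  have hγs : ∀ s : ℝ, γ (pt t h + s • e1) = P + s • d := by
    intro s
    rw [aff_add, map_smul, hPd, hd]
  have hGs : ∀ s : ℝ, G (pt (t + s) h) = c.g i (P + s • d) := by
    intro s
    rw [pt_add_e1, hγ, hγs]
  have hGp : G (pt t h) = c.g i P := by rw [hγ, hPd]
  have hPO : P ∉ c.O i := by
    obtain ⟨P0, ⟨-, hP0⟩, hP1⟩ := hE.bd
    rw [hGp] at hP1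
    rwa [← hinj hP1]
  have hrayO : ∀ᶠ s in 𝓝[>] (0 : ℝ), P + s • d ∈ c.O i := by
    filter_upwards [(tendsto_ray (pt t h) e1).eventually hE.inside, self_mem_nhdsWithin]
      with s hs hs0
    have h1 : G (pt t h + s • e1) ∈ c.cell i := by
      apply hs
      rw [add_sub_cancel_left, inner_smul_right]
      exact mul_pos hs0 hE.dir
    rw [hγ, hγs] at h1
    exact hinj.mem_set_image.1 h1
  have hcomb : ∀ τ s τ' : ℝ, P + s • d ∈ c.O i → P + τ' • d ∈ closure (c.O i) →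
      ∀ x y : ℝ, 0 < x → 0 ≤ y → x + y = 1 → x * s + y * τ' = τ → P + τ • d ∈ c.O i := by
    intro τ s τ' h1 h2 x y hx hy hxy he
    have h3 := (hc.convex i).combo_interior_closure_mem_interior
      (by rw [hint]; exact h1) h2 hx hy hxy
    rw [hint] at h3
    have h4 : x • (P + s • d) + y • (P + τ' • d) = P + τ • d := by
      rw [← he, add_smul, smul_add, smul_add, smul_smul, smul_smul]
      have h5 : P = x • P + y • P := by rw [← add_smul, hxy, one_smul]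
      nth_rewrite 3 [h5]
      abel
    rwa [h4] at h3
  have hneg : ∀ τ : ℝ, τ < 0 → P + τ • d ∉ closure (c.O i) := by
    intro τ hτ h1
    obtain ⟨s, hs, hs0⟩ := (hrayO.and
      (self_mem_nhdsWithin : Ioi (0 : ℝ) ∈ 𝓝[>] (0 : ℝ))).exists
    have hs0' : 0 < s := hs0
    have hst : 0 < s - τ := by linarith
    have h2 := hcomb 0 s τ hs h1 (-τ / (s - τ)) (s / (s - τ)) (div_pos (by linarith) hst)
      (div_nonneg hs0'.le hst.le) (by field_simp; ring) (by field_simp; ring)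
    rw [zero_smul, add_zero] at h2
    exact hPO h2
  have hposi : ∀ τ τ' : ℝ, 0 < τ → τ < τ' → P + τ' • d ∈ closure (c.O i) →
      P + τ • d ∈ c.O i := by
    intro τ τ' hτ hlt h1
    obtain ⟨s, hs, hs0⟩ := (hrayO.and (Ioo_mem_nhdsGT hτ)).exists
    have hs1 : 0 < s ∧ s < τ := hs0
    have hst : 0 < τ' - s := by linarith
    exact hcomb τ s τ' hs h1 ((τ' - τ) / (τ' - s)) ((τ - s) / (τ' - s))
      (div_pos (by linarith) hst) (div_nonneg (by linarith) hst.le)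
      (by rw [← add_div]; rw [div_eq_one_iff_eq hst.ne']; ring)
      (by field_simp; ring)
  -- the edge point
  have hB : {s : E3 | ∃ τ : ℝ, 0 < τ ∧ P + τ • d ∈ closure (c.O i) ∧ P + τ • d ∉ c.O i ∧
      c.g i (P + τ • d) = s}.Finite := by
    apply Set.Subsingleton.finite
    rintro s ⟨τ, h1, h2, h3, rfl⟩ s' ⟨τ', h1', h2', h3', rfl⟩
    rcases lt_trichotomy τ τ' with h4 | h4 | h4
    · exact absurd (hposi τ τ' h1 h4 h2') h3
    · rw [h4]
    · exact absurd (hposi τ' τ h1' h4 h2) h3'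
  obtain ⟨s', hs'E, hs'F⟩ := (h𝓔.sdiff ((hΦ.union (Set.finite_singleton (G (pt t h)))).union
    hB)).nonempty
  have hs'Φ : s' ∉ Φ := fun hh => hs'F (Or.inl (Or.inl hh))
  have hs'p : s' ≠ G (pt t h) := fun hh => hs'F (Or.inl (Or.inr hh))
  have hs'B : ¬ ∃ τ : ℝ, 0 < τ ∧ P + τ • d ∈ closure (c.O i) ∧ P + τ • d ∉ c.O i ∧
      c.g i (P + τ • d) = s' := fun hh => hs'F (Or.inr hh)
  have hmv := hm s' hs'E
  obtain ⟨P', ⟨hP'c, hP'O⟩, hP's⟩ := hmv.2.1
  rw [← hP's] at hmv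
  have hline : ∀ τ : ℝ, P' ≠ P + τ • d := by
    intro τ hτ
    rcases lt_trichotomy τ 0 with h4 | h4 | h4
    · exact hneg τ h4 (hτ ▸ hP'c)
    · rw [h4, zero_smul, add_zero] at hτ
      exact hs'p (by rw [hGp, ← hP's, hτ])
    · exact hs'B ⟨τ, h4, hτ ▸ hP'c, hτ ▸ hP'O, by rw [← hτ, hP's]⟩
  -- the turning point
  obtain ⟨σ, hσ0, hσO, hσΦ⟩ : ∃ σ : ℝ, 0 < σ ∧ P + σ • d ∈ c.O i ∧ c.g i (P + σ • d) ∉ Φ := by
    have hinj2 : Function.Injective fun s : ℝ => c.g i (P + s • d) := by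
      intro x y hxy
      have h1 : P + x • d = P + y • d := hinj hxy
      have h2 : (x - y) • d = 0 := by
        rw [sub_smul, sub_eq_zero]
        exact add_left_cancel h1
      rcases smul_eq_zero.1 h2 with h3 | h3
      · exact sub_eq_zero.1 h3
      · rw [h3, norm_zero] at hdn
        exact absurd hdn zero_ne_one
    have hF : ((fun s : ℝ => c.g i (P + s • d)) ⁻¹' Φ).Finite := hΦ.preimage hinj2.injOn
    have hF2 : ((fun s : ℝ => c.g i (P + s • d)) ⁻¹' Φ \ {0})ᶜ ∈ 𝓝 (0 : ℝ) :=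
      (hF.subset sdiff_subset).isClosed.isOpen_compl.mem_nhds (fun hh => hh.2 rfl)
    have hF3 : ((fun s : ℝ => c.g i (P + s • d)) ⁻¹' Φ \ {0})ᶜ ∈ 𝓝[>] (0 : ℝ) :=
      nhdsWithin_le_nhds hF2
    obtain ⟨σ, ⟨h1, h2⟩, h3⟩ := ((hrayO.and hF3).and
      (self_mem_nhdsWithin : Ioi (0 : ℝ) ∈ 𝓝[>] (0 : ℝ))).exists
    have h3' : 0 < σ := h3
    exact ⟨σ, h3', h1, fun hh => h2 ⟨hh, h3'.ne'⟩⟩
  obtain ⟨Q, hQ⟩ : ∃ Q, P + σ • d = Q := ⟨_, rfl⟩
  rw [hQ] at hσO hσΦ
  have hQP : Q ≠ P' := fun hh => hP'O (hh ▸ hσO)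
  have hρ : 0 < ‖P' - Q‖ := norm_pos_iff.2 (sub_ne_zero.2 hQP.symm)
  obtain ⟨ρ, hρd⟩ : ∃ ρ, ‖P' - Q‖ = ρ := ⟨_, rfl⟩
  rw [hρd] at hρ
  obtain ⟨v, hv⟩ := lin_surj γ (ρ⁻¹ • (P' - Q))
  have hvn : ‖v‖ = 1 := by
    rw [← γ.linearIsometry.norm_map, hv, norm_smul, hρd, norm_inv, Real.norm_of_nonneg hρ.le,
      inv_mul_cancel₀ hρ.ne']
  have hve : v ≠ e1 := by
    intro hh
    rw [hh, hd] at hv
    apply hline (σ + ρ)
    rw [add_smul, ← add_assoc, hQ, hv, smul_smul, mul_inv_cancel₀ hρ.ne', one_smul,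
      add_sub_cancel]
  obtain ⟨n1, hn1, hn1e, hturn⟩ := exists_turn norm_e1 hvn hve (pt (t + σ) h)
  obtain ⟨R, hR⟩ := exists_refl_isometry (l := (n1, inner ℝ n1 (pt (t + σ) h))) hn1
  obtain ⟨γ1, hγ1⟩ : ∃ γ1 : E2 →ᵃⁱ[ℝ] E2, ∀ y, γ1 y = γ (R y) := ⟨γ.comp R, fun y => rfl⟩
  obtain ⟨G1, hG1⟩ : ∃ G1 : E2 →ᵃⁱ[ℝ] E3, ∀ y, G1 y = c.g i (γ1 y) :=
    ⟨(c.g i).comp γ1, fun y => rfl⟩
  have hG1R : ∀ y, G1 y = G (refl (n1, inner ℝ n1 (pt (t + σ) h)) y) := by
    intro y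
    rw [hG1, hγ1, hγ, hR]
  have hQγ : γ (pt (t + σ) h) = Q := by rw [pt_add_e1, hγs, hQ]
  have hγ1s : ∀ s : ℝ, γ1 (pt (t + σ) h + s • e1) = Q + s • ρ⁻¹ • (P' - Q) := by
    intro s
    rw [hγ1, hR, hturn, aff_add, map_smul, hQγ, hv]
  have hp2 : pt (t + σ + ρ) h = pt (t + σ) h + ρ • e1 := pt_add_e1 _ _ _
  have hγ1p : γ1 (pt (t + σ + ρ) h) = P' := by
    rw [hp2, hγ1s, smul_smul, mul_inv_cancel₀ hρ.ne', one_smul, add_sub_cancel]
  have hγ1e : γ1.linearIsometry e1 = ρ⁻¹ • (P' - Q) := by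
    have h1 := hγ1s 1
    have h0 := hγ1s 0
    rw [zero_smul, zero_smul, add_zero, add_zero] at h0
    rw [one_smul, one_smul, aff_add, h0] at h1
    exact add_left_cancel h1
  have hG1p : G1 (pt (t + σ + ρ) h) = s' := by rw [hG1, hγ1p, hP's]
  -- the edge
  obtain ⟨r, hr, ν, hν, hOr, hline', hother⟩ := local_edge hc hP'c hP'O hmv.1
  have hνQ : 0 < inner ℝ ν (Q - P') := by
    by_contra hcon
    rw [not_lt] at hcon
    obtain ⟨s, hs1, hs2⟩ := (((tendsto_ray P' (Q - P')).eventually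
      (isOpen_ball.mem_nhds (mem_ball_self hr))).and (Ioo_mem_nhdsGT (zero_lt_one' ℝ))).exists
    have hs3 : 0 < s ∧ s < 1 := hs2
    have h1 := (hc.convex i).combo_interior_closure_mem_interior
      (x := Q) (y := P') (by rw [hint]; exact hσO) hP'c hs3.1 (b := 1 - s) (by linarith)
      (by ring)
    rw [hint] at h1
    have h2 : s • Q + (1 - s) • P' = P' + s • (Q - P') := by
      rw [sub_smul, one_smul, smul_sub]
      abel
    rw [h2, hOr _ hs1, add_sub_cancel_left, inner_smul_right] at h1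
    have h3 := mul_nonpos_of_nonneg_of_nonpos hs3.1.le hcon
    linarith
  obtain ⟨w, hw⟩ := lin_surj γ1 ν
  have hwn : ‖w‖ = 1 := by rw [← γ1.linearIsometry.norm_map, hw, hν]
  have hwi : ∀ y, inner ℝ (-w) (y - pt (t + σ + ρ) h) = -inner ℝ ν (γ1 y - P') := by
    intro y
    rw [inner_neg_left, ← γ1.linearIsometry.inner_map_map, hw, ← aff_sub, hγ1p]
  have hwe : 0 < inner ℝ (-w) e1 := by
    rw [inner_neg_left, ← γ1.linearIsometry.inner_map_map, hw, hγ1e, inner_smul_right]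
    have h1 : inner ℝ ν (P' - Q) = -inner ℝ ν (Q - P') := by
      rw [← inner_neg_right, neg_sub]
    rw [h1]
    have h2 := mul_pos (inv_pos.2 hρ) hνQ
    linarith
  have hnear : ∀ᶠ y in 𝓝 (pt (t + σ + ρ) h), γ1 y ∈ ball P' r := by
    have h1 := γ1.continuous.tendsto (pt (t + σ + ρ) h)
    rw [hγ1p] at h1
    exact h1.eventually (isOpen_ball.mem_nhds (mem_ball_self hr))
  have hin : ∀ᶠ y in 𝓝 (pt (t + σ + ρ) h),
      inner ℝ (-w) (y - pt (t + σ + ρ) h) < 0 → G1 y ∈ c.cell i := by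
    filter_upwards [hnear] with y hy h0
    rw [hwi] at h0
    rw [hG1]
    exact ⟨γ1 y, (hOr _ hy).2 (by linarith), rfl⟩
  have hmove : ∀ᶠ y in 𝓝 (pt (t + σ + ρ) h),
      inner ℝ (-w) (y - pt (t + σ + ρ) h) = 0 → c.MoveAt i k j l (G1 y) := by
    filter_upwards [hnear] with y hy h0
    rw [hwi] at h0
    rw [hG1]
    exact moveAt_near hc hmv _ (hline' _ hy (by linarith))
  have hnw : ‖-w‖ = 1 := by rw [norm_neg, hwn]
  have hcommon : t < t + σ ∧ t + σ < t + σ + ρ ∧ ‖n1‖ = 1 ∧ 0 < inner ℝ n1 e1 ∧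
      G (pt (t + σ) h) ∈ c.cell i ∧ G (pt (t + σ) h) ∉ Φ ∧
      G (pt (t + σ) h) ≠ G (pt t h) ∧
      (∀ y, G1 y = G (refl (n1, inner ℝ n1 (pt (t + σ) h)) y)) ∧
      G1 (pt (t + σ + ρ) h) ∈ 𝓔 ∧ G1 (pt (t + σ + ρ) h) ∉ Φ ∧
      G1 (pt (t + σ + ρ) h) ≠ G (pt t h) := by
    refine ⟨by linarith, by linarith, hn1, hn1e, ?_, ?_, ?_, hG1R, ?_, ?_, ?_⟩
    · rw [hγ, hQγ]
      exact ⟨Q, hσO, rfl⟩
    · rwa [hγ, hQγ]
    · rw [hγ, hQγ, hGp]
      intro hh
      exact hPO (hinj hh ▸ hσO)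
    · rwa [hG1p]
    · rwa [hG1p]
    · rwa [hG1p]
  obtain ⟨c1, c2, c3, c4, c5, c6, c7, c8, c9, c10, c11⟩ := hcommon
  by_cases hij : i = j
  · subst hij
    obtain ⟨R2, hR2⟩ := exists_refl_isometry
      (l := (-w, inner ℝ (-w) (pt (t + σ + ρ) h))) hnw
    have hfix : R2 (pt (t + σ + ρ) h) = pt (t + σ + ρ) h := by
      rw [hR2]
      unfold refl
      simp
    refine ⟨t + σ, t + σ + ρ, n1, -w, G1, G1.comp R2, c1, c2, c3, c4, c5, c6, c7, c8, c9, c10,
      c11, hin, hmove, ?_, fun hh => absurd rfl hh, hnw, hwe, hl, ?_, ?_⟩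
    · intro _ y
      change G1 (R2 y) = _
      rw [hR2]
    · have h1 : Tendsto R2 (𝓝 (pt (t + σ + ρ) h)) (𝓝 (pt (t + σ + ρ) h)) := by
        have h2 := R2.continuous.tendsto (pt (t + σ + ρ) h)
        rwa [hfix] at h2
      filter_upwards [h1.eventually hin] with y hy h0
      change G1 (R2 y) ∈ c.cell i
      apply hy
      rw [hR2, inner_sub_right]
      rw [inner_sub_right] at h0
      have h5 := inner_refl (l := (-w, inner ℝ (-w) (pt (t + σ + ρ) h))) hnw y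
      simp only at h5
      rw [h5]
      linarith
    · change G1 (R2 (pt (t + σ + ρ) h)) ∈ _
      rw [hfix, hG1, hγ1p]
      exact hmv.2.2.1
  · obtain ⟨G0, hG01, hG02⟩ := hother j (Ne.symm hij) (ccell_of hmv.2.2.1)
    refine ⟨t + σ, t + σ + ρ, n1, -w, G1, G0.comp γ1, c1, c2, c3, c4, c5, c6, c7, c8, c9, c10,
      c11, hin, hmove, fun hh => absurd hh hij, ?_, hnw, hwe, hl, ?_, ?_⟩
    · intro _ y h0
      rw [hwi] at h0
      change G0 (γ1 y) = _
      rw [hG1, hG01 _ (by linarith)]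
    · filter_upwards [hnear] with y hy h0
      rw [hwi] at h0
      have h5 : inner ℝ ν (γ1 y - P') < 0 := by linarith
      change G0 (γ1 y) ∈ c.cell j
      exact hG02 _ hy h5
    · change G0 (γ1 (pt (t + σ + ρ) h)) ∈ _
      rw [hγ1p, hG01 P' (by rw [sub_self, inner_zero_right])]
      exact hmv.2.2.1

end Pool.Agent.SeamS
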