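import Pool.Agent.SeamS.RouteDefs
import Pool.Agent.SeamS.Exit
import Pool.Agent.SeamS.Visit

/-!
# Ports from exits (module L1)

Proof of `portR_of_exit`. Put `s = T k (ρ (pt t b))`. `CC k = T k '' Hull (Λ k)` is the union of the closed cells `i` with `mem i k`: `Hull` is the closure of `OHull` (convex with nonempty interior), every point of `CI k` is in a closed cell (`sub`, `cover`), which is in `k` (`mem_of_CI`), and finite unions of closed sets are closed (`ccell i = g i '' closure (O i)` is closed).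
`ρ (pt t b)` is on the line `l` (`edge` at `y = pt t b`) and strictly inside the other half planes (`int`), so `s ∈ CC k`, `s ∉ CI k`. Let `i` be a cell with `s ∈ ccell i`, `mem i k`; `s ∉ cell i` (`cell i ⊆ CI k`), so `s ∈ bcell i`, `s = g i p'`, `s ∉ V`. By `IsComplex.edge` at `p'` there are `r`, a unit vector `n'` such that `O i` is near `p'` the half disc `{0 < ⟪n', y - p'⟫}`.
As `cell i ⊆ CI k ⊆ range (T k)` the planes `range (g i)` and `range (T k)` are equal (an isometric image of a nonempty open set spans the plane), `g i = T k ∘ γ` with an isometry `γ` of the plane (`γ = (T k)⁻¹ ∘ g i`); `γ` maps `O i` into `OHull (Λ k)`, in particular into the open half plane of `l`, and `γ p' = ρ (pt t b) =: P` is on the line `l`. So the linear functional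
`v ↦ ⟪l.1, γ.linear v⟫` is positive for all `v` with `0 < ⟪n', v⟫` (small `v`, so all `v`), hence it is `⟪n', v⟫` (both are unit): `γ` maps the open half disc of `O i` at `p'` onto the open half disc `{y | l.2 < ⟪l.1, y⟫}` at `P`. So all points `y'` near `P` with `l.2 < ⟪l.1, y'⟫` are in `γ '' O i`.
`inside`: `y` near `pt t b + v`, `⟪n, y - (pt t b + v)⟫ < 0`: by `edge` (of `ExitR`) `l.2 < ⟪l.1, ρ (y - v)⟫`, `ρ (y - v)` is near `P`, so `G y = T k (ρ (y - v)) ∈ cell i`. `rim`: `⟪n, ..⟫ = 0`: `ρ (y - v)` is on the line `l`, not in `OHull`, so `G y ∉ CI k` (`T k` injective), it is a limit of points of `cell i` and not in `cell i ⊆ CI k`: `bcell i` (closedness of `ccell i`); not in the finite set `V` near `s ∉ V`.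
The left exit is the same with the other sign.
-/

namespace Pool.Agent.SeamS

open Set Filter Topology Metric Pool.Agent.Hhelper79.Seam

namespace PortsAux

theorem lift {G g : E2 →ᵃⁱ[ℝ] E3} {U : Set E2} (hU : IsOpen U) (hne : U.Nonempty)
    (h : ∀ y ∈ U, G y ∈ range g) : ∃ γ : E2 →ᵃⁱ[ℝ] E2, ∀ y, G y = g (γ y) := by
  have hall : ∀ y, G y ∈ range g := by
    let R : AffineSubspace ℝ E3 := AffineSubspace.map g.toAffineMap ⊤
    have hsub : U ⊆ (R.comap G.toAffineMap : AffineSubspace ℝ E2) := by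
      intro y hy
      obtain ⟨z, hz⟩ := h y hy
      exact ⟨z, trivial, hz⟩
    have htop : affineSpan ℝ U = ⊤ := hU.affineSpan_eq_top hne
    have hle : affineSpan ℝ U ≤ R.comap G.toAffineMap := affineSpan_le.2 hsub
    intro y
    have hy : y ∈ R.comap G.toAffineMap := by
      apply hle
      rw [htop]
      exact AffineSubspace.mem_top _ _ _
    obtain ⟨z, -, hz⟩ := hy
    exact ⟨z, hz⟩
  choose f hf using hall
  have hiso : Isometry f := by
    refine Isometry.of_dist_eq fun x y => ?_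
    rw [← g.isometry.dist_eq, hf, hf, G.isometry.dist_eq]
  exact ⟨hiso.affineIsometryOfStrictConvexSpace, fun y => (hf y).symm⟩

/-- points of the half disc at a boundary point of a plate are strictly inside -/
theorem near_ohull {S : Set E3} {c : CData} (hc : IsComplex S c) {k : Fin c.m} {l : E2 × ℝ}
    {P : E2} (hint : ∀ l' ∈ c.Λ k, l' ≠ l → l'.2 < inner ℝ l'.1 P) :
    ∀ᶠ y in 𝓝 P, l.2 < inner ℝ l.1 y → y ∈ c.OHull k := by
  have h1 : ∀ᶠ y in 𝓝 P, ∀ l' ∈ c.Λ k, l' ≠ l → l'.2 < inner ℝ l'.1 y := by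
    refine (Filter.eventually_all_finite (hc.finΛ k)).2 fun l' hl' => ?_
    by_cases h : l' = l
    · exact Eventually.of_forall fun y h' => absurd h h'
    · have hcont : Continuous fun y : E2 => (inner ℝ l'.1 y : ℝ) := by fun_prop
      filter_upwards [hcont.continuousAt.eventually (lt_mem_nhds (hint l' hl' h))] with y hy _
      exact hy
  filter_upwards [h1] with y hy hl l' hl'
  by_cases h : l' = l
  · rw [h]
    exact hl
  · exact hy l' hl' h

theorem exists_cell {S : Set E3} {c : CData} (hc : IsComplex S c) {k : Fin c.m} {P : E2}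
    (hP : P ∈ closure (c.OHull k)) : ∃ i, c.mem i k ∧ c.T k P ∈ c.ccell i := by
  have h1 : c.T k P ∈ closure (c.CI k) :=
    image_closure_subset_closure_image (c.T k).continuous ⟨P, hP, rfl⟩
  have h2 : c.CI k ⊆ ⋃ i ∈ {i | c.mem i k}, c.ccell i := by
    intro s hs
    have h3 : s ∈ S := by
      refine hc.sub k ?_
      obtain ⟨y, hy, rfl⟩ := hs
      exact ⟨y, fun l hl => (hy l hl).le, rfl⟩
    rw [hc.cover] at h3
    obtain ⟨i, hi⟩ := mem_iUnion.1 h3
    exact mem_biUnion (hc.mem_of_CI i k s hi hs) hi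
  have h4 : IsClosed (⋃ i ∈ {i | c.mem i k}, c.ccell i) := by
    refine Set.Finite.isClosed_biUnion (Set.toFinite _) fun i _ => ?_
    rw [← VisitAux.closure_cell]
    exact isClosed_closure
  have h5 := closure_minimal h2 h4 h1
  rw [mem_iUnion₂] at h5
  obtain ⟨i, hi, h6⟩ := h5
  exact ⟨i, hi, h6⟩

theorem core {S : Set E3} {c : CData} (hc : IsComplex S c) {k : Fin c.m} {l : E2 × ℝ}
    (hl : l ∈ c.Λ k) {P : E2} (hPl : inner ℝ l.1 P = l.2)
    (hint : ∀ l' ∈ c.Λ k, l' ≠ l → l'.2 < inner ℝ l'.1 P) (hV : c.T k P ∉ c.V) :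
    ∃ i, c.mem i k ∧ ∀ᶠ y in 𝓝 P, (l.2 < inner ℝ l.1 y → c.T k y ∈ c.cell i) ∧
      (inner ℝ l.1 y = l.2 → c.T k y ∈ c.bcell i ∧ c.T k y ∉ c.V ∧ c.T k y ∉ c.CI k) := by
  have hlu : ‖l.1‖ = 1 := hc.unit k l hl
  have hnear := near_ohull hc (k := k) (l := l) (P := P) hint
  have hll : inner ℝ l.1 l.1 = (1 : ℝ) := by
    rw [real_inner_self_eq_norm_sq, hlu]
    norm_num
  have hcl : P ∈ closure (c.OHull k) := by
    refine mem_closure_of_tendsto (VisitAux.tendsto_ray P l.1) ?_
    filter_upwards [(VisitAux.tendsto_ray P l.1).eventually hnear, self_mem_nhdsWithin] with s h1 h2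
    refine h1 ?_
    rw [inner_add_right, inner_smul_right, hll, hPl]
    have : (0 : ℝ) < s := h2
    linarith
  obtain ⟨i, hmem, hPi⟩ := exists_cell hc hcl
  refine ⟨i, hmem, ?_⟩
  have hnCI : ∀ y, inner ℝ l.1 y = l.2 → c.T k y ∉ c.CI k := by
    rintro y hy ⟨z, hz, hz2⟩
    have : z = y := (c.T k).injective hz2
    subst this
    have := hz l hl
    rw [hy] at this
    exact lt_irrefl _ this
  have hPb : c.T k P ∈ c.bcell i :=
    VisitAux.bcell_of hPi fun h => hnCI P hPl (hmem h)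
  obtain ⟨p', ⟨hp1, hp2⟩, hp3⟩ := hPb
  have hV' : c.g i p' ∉ c.V := by
    rw [hp3]
    exact hV
  obtain ⟨r, hr, ν, hν, hO, hbd, -⟩ := VisitAux.local_edge hc hp1 hp2 hV'
  have hνν : inner ℝ ν ν = (1 : ℝ) := by
    rw [real_inner_self_eq_norm_sq, hν]
    norm_num
  obtain ⟨γ, hγ⟩ := lift (G := c.g i) (g := c.T k) (hc.isOpen i) (hc.ne i) (by
    intro y hy
    obtain ⟨z, -, hz⟩ := hmem ⟨y, hy, rfl⟩
    exact ⟨z, hz⟩)
  have hγp : γ p' = P := (c.T k).injective ((hγ p').symm.trans hp3)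
  have hγO : ∀ y ∈ c.O i, γ y ∈ c.OHull k := by
    intro y hy
    obtain ⟨z, hz, hz2⟩ := hmem ⟨y, hy, rfl⟩
    rw [hγ] at hz2
    rw [← (c.T k).injective hz2]
    exact hz
  have hpull := ExitAux.pull_spec γ l
  have hpn : ‖(ExitAux.pull γ l).1‖ = 1 := by
    rw [ExitAux.pull_norm, hlu]
  generalize ExitAux.pull γ l = m at hpull hpn
  have hm2 : m.2 = inner ℝ m.1 p' := by
    have := hpull p'
    rw [hγp, hPl] at this
    linarith
  have hmm : inner ℝ m.1 m.1 = (1 : ℝ) := by
    rw [real_inner_self_eq_norm_sq, hpn]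
    norm_num
  have hmν : m.1 = ν := by
    by_contra hne
    have h1 : inner ℝ ν m.1 < (1 : ℝ) :=
      (inner_lt_one_iff_real_of_norm_eq_one hν hpn).2 (Ne.symm hne)
    have h2 := (VisitAux.tendsto_ray p' (ν - m.1)).eventually (ball_mem_nhds p' hr)
    obtain ⟨s, hs1, hs2⟩ := (h2.and (self_mem_nhdsWithin : Ioi (0 : ℝ) ∈ 𝓝[>] (0 : ℝ))).exists
    have hs0 : (0 : ℝ) < s := hs2
    have h3 : p' + s • (ν - m.1) ∈ c.O i := by
      rw [hO _ hs1, add_sub_cancel_left, inner_smul_right, inner_sub_right, hνν]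
      exact mul_pos hs0 (by linarith)
    have h4 := hγO _ h3 l hl
    have h5 := hpull (p' + s • (ν - m.1))
    rw [hm2, ← inner_sub_right, add_sub_cancel_left, inner_smul_right, inner_sub_right, hmm,
      real_inner_comm] at h5
    nlinarith
  have hkey : ∀ y, inner ℝ l.1 (γ y) - l.2 = inner ℝ ν (y - p') := by
    intro y
    rw [← hpull y, hm2, hmν, inner_sub_right]
  have hsurj : ∀ y', ∃ y, γ y = y' := by
    intro y'
    obtain ⟨v, hv⟩ := VisitAux.lin_surj γ (y' - P)
    refine ⟨p' + v, ?_⟩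
    rw [VisitAux.aff_add, hγp, hv, add_sub_cancel]
  filter_upwards [ball_mem_nhds P hr] with y' hy'
  obtain ⟨y, rfl⟩ := hsurj y'
  have hyb : y ∈ ball p' r := by
    rw [mem_ball, ← γ.dist_map, hγp]
    exact hy'
  constructor
  · intro h
    have h1 : 0 < inner ℝ ν (y - p') := by
      rw [← hkey]
      linarith
    exact ⟨y, (hO y hyb).2 h1, hγ y⟩
  · intro h
    have h1 : inner ℝ ν (y - p') = 0 := by
      rw [← hkey]
      linarith
    obtain ⟨g1, g2, -⟩ := hbd y hyb h1
    rw [hγ] at g1 g2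
    exact ⟨g2, g1, hnCI _ h⟩

end PortsAux

theorem portR_of_exit {S : Set E3} {c : CData} (hc : IsComplex S c) {k : Fin c.m}
    {w : List (E2 × ℝ)} {R b t : ℝ} {n : E2} {ρ : E2 →ᵃⁱ[ℝ] E2} {l : E2 × ℝ}
    (hE : ExitR (c.Λ k) w R b n t ρ l) (hV : c.T k (ρ (pt t b)) ∉ c.V) (v : E2)
    (G : E2 →ᵃⁱ[ℝ] E3) (hG : ∀ z, G z = c.T k (ρ (z - v))) :
    ∃ i, PortR c k i G n (pt t b + v) := by
  have hPl : inner ℝ l.1 (ρ (pt t b)) = l.2 := by
    have := hE.edge (pt t b)
    rw [sub_self, inner_zero_right, neg_zero] at this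
    linarith
  obtain ⟨i, hmem, hnear⟩ := PortsAux.core hc hE.mem hPl hE.int hV
  have hcont : Continuous fun y : E2 => ρ (y - v) :=
    ρ.continuous.comp (continuous_id.sub continuous_const)
  have ht : Tendsto (fun y : E2 => ρ (y - v)) (𝓝 (pt t b + v)) (𝓝 (ρ (pt t b))) := by
    have := hcont.tendsto (pt t b + v)
    rwa [add_sub_cancel_right] at this
  have hev := ht.eventually hnear
  have hedge : ∀ y, inner ℝ l.1 (ρ (y - v)) - l.2 = - inner ℝ n (y - (pt t b + v)) := by
    intro y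
    rw [hE.edge (y - v), show y - v - pt t b = y - (pt t b + v) by abel]
  refine ⟨i, hE.unit, hE.dir, hmem, ?_, ?_⟩
  · filter_upwards [hev] with y hy h
    rw [hG]
    refine hy.1 ?_
    have := hedge y
    linarith
  · filter_upwards [hev] with y hy h
    rw [hG]
    refine hy.2 ?_
    have := hedge y
    linarith

theorem portL_of_exit {S : Set E3} {c : CData} (hc : IsComplex S c) {k : Fin c.m}
    {w : List (E2 × ℝ)} {R b t : ℝ} {n : E2} {ρ : E2 →ᵃⁱ[ℝ] E2} {l : E2 × ℝ}
    (hE : ExitL (c.Λ k) w R b n t ρ l) (hV : c.T k (ρ (pt t b)) ∉ c.V) (v : E2)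
    (G : E2 →ᵃⁱ[ℝ] E3) (hG : ∀ z, G z = c.T k (ρ (z - v))) :
    ∃ i, PortL c k i G n (pt t b + v) := by
  have hPl : inner ℝ l.1 (ρ (pt t b)) = l.2 := by
    have := hE.edge (pt t b)
    rw [sub_self, inner_zero_right] at this
    linarith
  obtain ⟨i, hmem, hnear⟩ := PortsAux.core hc hE.mem hPl hE.int hV
  have hcont : Continuous fun y : E2 => ρ (y - v) :=
    ρ.continuous.comp (continuous_id.sub continuous_const)
  have ht : Tendsto (fun y : E2 => ρ (y - v)) (𝓝 (pt t b + v)) (𝓝 (ρ (pt t b))) := by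
    have := hcont.tendsto (pt t b + v)
    rwa [add_sub_cancel_right] at this
  have hev := ht.eventually hnear
  have hedge : ∀ y, inner ℝ l.1 (ρ (y - v)) - l.2 = inner ℝ n (y - (pt t b + v)) := by
    intro y
    rw [hE.edge (y - v), show y - v - pt t b = y - (pt t b + v) by abel]
  refine ⟨i, hE.unit, hE.dir, hmem, ?_, ?_⟩
  · filter_upwards [hev] with y hy h
    rw [hG]
    refine hy.1 ?_
    have := hedge y
    linarith
  · filter_upwards [hev] with y hy h
    rw [hG]
    refine hy.2 ?_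
    have := hedge y
    linarith

end Pool.Agent.SeamS
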