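import Pool.Agent.SeamS.RouteDefs
import Pool.Agent.SeamS.Fold

/-!
# The last visit (module E1b)

The centre line has entered the cell `i` (gap directly below the plate `k`); it has to be led inside the open cell `i` to the port where the strip
enters the plate `k`, with the right position, direction and orientation.

Proof. As in `Visit`: `G = g i ∘ γ`, and `G' = g i ∘ γ'` (both map a nonempty open set into the plane of the cell). `P = γ (pt t h)`, `d = γ.linear e1`, `P + σ d ∈ O` for small `σ > 0`.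
`P' = γ' (pt t' b')`, `u' = e1 - 2 ⟪n', e1⟫ n'` (reflected direction), `d' = γ'.linear u'`; for small `σ > 0` the point `P' - σ d' = γ' (pt t' b' - σ u')` is in `O` because `⟪n', - σ u'⟫ = σ ⟪n', e1⟫ > 0`.
Choose `Q₁ = P + σ d`, `Q' = P' - σ' d'` in `O`, different, `g i` of them not in `Φ`. Choose a generic point `A ∈ O` (for `r = 3`) or generic points `A, B ∈ O` (for `r = 4`): not in `g i⁻¹ Φ`, all points different, and
`A` not on the line `Q₁ + ℝ d`, (`r = 3`) `A` not on the line `Q₁ Q'`, not on the line `Q' + ℝ d'`; (`r = 4`) `A` not on the line `Q₁ + ℝ d`, `B` not on the lines `Q₁ A` and `Q' + ℝ d'`, and `A, B, Q'` not collinear (a nonempty open set is not covered by finitely many lines).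
Path `P, Q₁, A, (B,) Q', P'`. Turn at each of the intermediate points: a turn at the paper point `pt τ h` from the current isometry `Γ` (with `Γ = g i ∘ γ₀`, current direction `γ₀.linear e1`) to a new unit direction `w ≠ γ₀.linear e1`: `v = γ₀.linear⁻¹ w ≠ e1`,
`ν = (e1 - v) / ‖e1 - v‖`, `⟪ν, e1⟫ > 0`, new isometry `Γ ∘ refl (ν, ⟪ν, pt τ h⟫)` with direction `w`. Each turn changes the orientation of `γ₀`. After `r` turns the centre line arrives at time `τ (r+1)` at `P'` with direction `d'`. The isometry `γ' ∘ (translation of pt (τ (r+1)) h to pt t' b') ∘ refl (n', ..)` of the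
plane also maps `pt (τ (r+1)) h` to `P'` and has linear part mapping `e1` to `γ'.linear u' = d'`. Two isometries of the plane which agree at a point and in the direction `e1` are equal or differ by the reflection in the line `y 1 = h`; they are equal iff their
orientations (signs of the determinants) agree. The parity of `r ∈ {3, 4}` is chosen such that they do.
-/

namespace Pool.Agent.SeamS

open Set Filter Topology Metric Pool.Agent.Hhelper79.Seam

namespace FinAux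

/-- rotation by 90 degrees -/
noncomputable def J (d : E2) : E2 := !₂[-(d 1), d 0]

/-- cross product -/
def cr (u v : E2) : ℝ := u 0 * v 1 - u 1 * v 0

/-- the isometry which maps `pt τ h` to `A`, `e1` to `d` and the second unit vector to `ε J d` -/
noncomputable def psi (A d : E2) (ε τ h : ℝ) (y : E2) : E2 :=
  A + (y 0 - τ) • d + (ε * (y 1 - h)) • J d

theorem J0 (d : E2) : J d 0 = -(d 1) := by simp [J]
theorem J1 (d : E2) : J d 1 = d 0 := by simp [J]

theorem pt0 (a b : ℝ) : pt a b 0 = a := by simp [pt]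
theorem pt1 (a b : ℝ) : pt a b 1 = b := by simp [pt]
theorem e10 : e1 0 = 1 := by simp [e1]
theorem e11 : e1 1 = 0 := by simp [e1]

theorem inner2 (x y : E2) : inner ℝ x y = x 0 * y 0 + x 1 * y 1 := by
  simp [PiLp.inner_apply, Fin.sum_univ_two]
  ring

theorem normsq (x : E2) : ‖x‖ ^ 2 = x 0 ^ 2 + x 1 ^ 2 := by
  rw [← real_inner_self_eq_norm_sq, inner2]
  ring

theorem ext2 {x y : E2} (h0 : x 0 = y 0) (h1 : x 1 = y 1) : x = y := by
  ext i
  fin_cases i
  · exact h0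
  · exact h1

theorem unit_iff {x : E2} (h : ‖x‖ = 1) : x 0 ^ 2 + x 1 ^ 2 = 1 := by
  rw [← normsq, h]; norm_num

theorem psi0 (A d : E2) (ε τ h : ℝ) (y : E2) :
    psi A d ε τ h y 0 = A 0 + (y 0 - τ) * d 0 - ε * (y 1 - h) * d 1 := by
  simp [psi, J0]
  ring

theorem psi1 (A d : E2) (ε τ h : ℝ) (y : E2) :
    psi A d ε τ h y 1 = A 1 + (y 0 - τ) * d 1 + ε * (y 1 - h) * d 0 := by
  simp [psi, J1]

theorem psi_isometry {A d : E2} {ε τ h : ℝ} (hd : ‖d‖ = 1) (hε : ε ^ 2 = 1) :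
    Isometry (psi A d ε τ h) := by
  refine Isometry.of_dist_eq fun x y => ?_
  have h1 : dist (psi A d ε τ h x) (psi A d ε τ h y) ^ 2 = dist x y ^ 2 := by
    rw [dist_eq_norm, dist_eq_norm, normsq, normsq]
    have := unit_iff hd
    simp only [PiLp.sub_apply, psi0, psi1]
    have h2 : (x 0 - y 0) ^ 2 * (d 0 ^ 2 + d 1 ^ 2) + ε ^ 2 * (x 1 - y 1) ^ 2 * (d 0 ^ 2 + d 1 ^ 2)
      = (x 0 - y 0) ^ 2 + (x 1 - y 1) ^ 2 := by rw [this, hε]; ring
    rw [← h2]; ring
  exact (sq_eq_sq₀ dist_nonneg dist_nonneg).1 h1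

/-- `psi` as an affine isometry -/
noncomputable def Psi {A d : E2} {ε : ℝ} (τ h : ℝ) (hd : ‖d‖ = 1) (hε : ε ^ 2 = 1) :
    E2 →ᵃⁱ[ℝ] E2 :=
  (psi_isometry (A := A) (τ := τ) (h := h) hd hε).affineIsometryOfStrictConvexSpace

theorem Psi_apply {A d : E2} {ε τ h : ℝ} (hd : ‖d‖ = 1) (hε : ε ^ 2 = 1) (y : E2) :
    Psi (A := A) τ h hd hε y = psi A d ε τ h y := rfl

/-- shift of the base point -/
theorem psi_shift (A d : E2) (ε τ τ' h : ℝ) (y : E2) :
    psi (A + (τ' - τ) • d) d ε τ' h y = psi A d ε τ h y := by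
  apply ext2
  · simp only [psi0, PiLp.add_apply, PiLp.smul_apply, smul_eq_mul]; ring
  · simp only [psi1, PiLp.add_apply, PiLp.smul_apply, smul_eq_mul]; ring

theorem psi_pt (A d : E2) (ε τ τ' h : ℝ) : psi A d ε τ h (pt τ' h) = A + (τ' - τ) • d := by
  apply ext2
  · simp only [psi0, pt0, pt1, PiLp.add_apply, PiLp.smul_apply, smul_eq_mul]; ring
  · simp only [psi1, pt0, pt1, PiLp.add_apply, PiLp.smul_apply, smul_eq_mul]; ring

/-- a general turn: reflected isometry -/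
theorem psi_refl {A d w : E2} {ε τ h : ℝ} {n : E2} (hn : ‖n‖ = 1)
    (hε : ε ^ 2 = 1)
    (hw : w = (1 - 2 * n 0 ^ 2) • d + (ε * (- 2 * n 0 * n 1)) • J d) (y : E2) :
    psi A d ε τ h (refl (n, inner ℝ n (pt τ h)) y) = psi A w (-ε) τ h y := by
  have h1 := unit_iff hn
  subst hw
  have hb : n 1 ^ 2 = 1 - n 0 ^ 2 := by linarith
  apply ext2
  · simp only [psi0, refl, inner2, pt0, pt1, PiLp.add_apply, PiLp.sub_apply, PiLp.smul_apply, smul_eq_mul, J0, J1]
    linear_combination (2 * ε * d 1 * (y 1 - h)) * h1 + (2 * n 0 * n 1 * d 0 * (y 1 - h)) * hε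
  · simp only [psi1, refl, inner2, pt0, pt1, PiLp.add_apply, PiLp.sub_apply, PiLp.smul_apply, smul_eq_mul, J0, J1]
    linear_combination (-2 * ε * d 0 * (y 1 - h)) * h1 + (2 * n 0 * n 1 * d 1 * (y 1 - h)) * hε

/-- the normal of a turn from the direction `d` to the direction `w` -/
theorem exists_turn {d w : E2} {ε : ℝ} (hd : ‖d‖ = 1) (hw : ‖w‖ = 1) (hε : ε ^ 2 = 1)
    (hne : w ≠ d) :
    ∃ n : E2, ‖n‖ = 1 ∧ 0 < inner ℝ n e1 ∧
      w = (1 - 2 * n 0 ^ 2) • d + (ε * (- 2 * n 0 * n 1)) • J d := by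
  have hd' := unit_iff hd
  have hw' := unit_iff hw
  set v0 : ℝ := w 0 * d 0 + w 1 * d 1 with hv0
  set v1 : ℝ := ε * (- w 0 * d 1 + w 1 * d 0) with hv1
  have hv : v0 ^ 2 + v1 ^ 2 = 1 := by
    have : v0 ^ 2 + v1 ^ 2 = (w 0 * d 0 + w 1 * d 1) ^ 2 + ε ^ 2 * (- w 0 * d 1 + w 1 * d 0) ^ 2 := by
      rw [hv0, hv1]; ring
    rw [this, hε]
    calc _ = (w 0 ^ 2 + w 1 ^ 2) * (d 0 ^ 2 + d 1 ^ 2) := by ring
      _ = 1 := by rw [hd', hw']; ring
  have hlt : v0 < 1 := by
    have hle : v0 ≤ 1 := by nlinarith [sq_nonneg v1]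
    rcases lt_or_eq_of_le hle with h | h
    · exact h
    · exfalso
      apply hne
      have : (w 0 - d 0) ^ 2 + (w 1 - d 1) ^ 2 = 0 := by
        have : (w 0 - d 0) ^ 2 + (w 1 - d 1) ^ 2 =
          (w 0 ^ 2 + w 1 ^ 2) + (d 0 ^ 2 + d 1 ^ 2) - 2 * v0 := by rw [hv0]; ring
        rw [this, hd', hw', h]; ring
      apply ext2
      · nlinarith [sq_nonneg (w 0 - d 0), sq_nonneg (w 1 - d 1)]
      · nlinarith [sq_nonneg (w 0 - d 0), sq_nonneg (w 1 - d 1)]
  set s : ℝ := Real.sqrt (2 * (1 - v0)) with hs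
  have hspos : 0 < s := Real.sqrt_pos.2 (by linarith)
  have hs2 : s ^ 2 = 2 * (1 - v0) := Real.sq_sqrt (by linarith)
  refine ⟨!₂[(1 - v0) / s, - v1 / s], ?_, ?_, ?_⟩
  · have : ‖(!₂[(1 - v0) / s, - v1 / s] : E2)‖ ^ 2 = 1 ^ 2 := by
      rw [normsq]
      simp only [Matrix.cons_val_zero, Matrix.cons_val_one]
      field_simp
      rw [hs2]
      nlinarith [hv]
    exact (sq_eq_sq₀ (norm_nonneg _) zero_le_one).1 this
  · rw [inner2]
    simp only [e10, e11, Matrix.cons_val_zero, Matrix.cons_val_one]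
    have : 0 < (1 - v0) / s := div_pos (by linarith) hspos
    linarith
  · have ha : (1 - 2 * ((1 - v0) / s) ^ 2) = v0 := by
      rw [div_pow, hs2]
      have : (1 - v0) ≠ 0 := by linarith
      field_simp
      ring
    have hb : -2 * ((1 - v0) / s) * (- v1 / s) = v1 := by
      have : -2 * ((1 - v0) / s) * (- v1 / s) = 2 * (1 - v0) * v1 / s ^ 2 := by
        field_simp
      rw [this, hs2]
      have : (1 - v0) ≠ 0 := by linarith
      field_simp
    simp only [Matrix.cons_val_zero, Matrix.cons_val_one]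
    rw [ha, hb]
    apply ext2
    · simp only [PiLp.add_apply, PiLp.smul_apply, smul_eq_mul, J0, J1]
      rw [hv0, hv1]
      linear_combination (-w 0) * hd' + (- d 1 * (w 0 * d 1 - w 1 * d 0)) * hε
    · simp only [PiLp.add_apply, PiLp.smul_apply, smul_eq_mul, J0, J1]
      rw [hv0, hv1]
      linear_combination (-w 1) * hd' + (d 0 * (w 0 * d 1 - w 1 * d 0)) * hε


/-- lifting an isometry through the chart of a cell -/
theorem exists_lift {G g : E2 →ᵃⁱ[ℝ] E3} {U : Set E2} (hU : IsOpen U) (hne : U.Nonempty)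
    (h : ∀ y ∈ U, G y ∈ range g) : ∃ γ : E2 →ᵃⁱ[ℝ] E2, ∀ y, G y = g (γ y) := by
  have hall : ∀ y, G y ∈ range g := by
    let R : AffineSubspace ℝ E3 := AffineSubspace.map g.toAffineMap ⊤
    have hsub : U ⊆ (R.comap G.toAffineMap : AffineSubspace ℝ E2) := by
      intro y hy
      obtain ⟨z, hz⟩ := h y hy
      exact ⟨z, trivial, hz⟩
    have htop : affineSpan ℝ U = ⊤ := hU.affineSpan_eq_top hne
    have hle : affineSpan ℝ U ≤ R.comap G.toAffineMap := affineSpan_le.2 hsub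
    intro y
    have hy : y ∈ R.comap G.toAffineMap := by
      apply hle
      rw [htop]
      exact AffineSubspace.mem_top _ _ _
    obtain ⟨z, -, hz⟩ := hy
    exact ⟨z, hz⟩
  choose f hf using hall
  have hiso : Isometry f := by
    refine Isometry.of_dist_eq fun x y => ?_
    rw [← g.isometry.dist_eq, hf, hf, G.isometry.dist_eq]
  exact ⟨hiso.affineIsometryOfStrictConvexSpace, fun y => (hf y).symm⟩

/-- normal form of an isometry of the plane -/
theorem exists_psi (γ : E2 →ᵃⁱ[ℝ] E2) : ∃ (d : E2) (ε : ℝ), ‖d‖ = 1 ∧ ε ^ 2 = 1 ∧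
    ∀ τ h y, γ y = psi (γ (pt τ h)) d ε τ h y := by
  set d : E2 := γ.linearIsometry e1 with hd
  set f : E2 := γ.linearIsometry (!₂[0, 1]) with hf
  have h1 : ‖d‖ = 1 := by
    rw [hd, LinearIsometry.norm_map]
    have : ‖e1‖ ^ 2 = 1 ^ 2 := by rw [normsq, e10, e11]; norm_num
    exact (sq_eq_sq₀ (norm_nonneg _) zero_le_one).1 this
  have h2 : f 0 ^ 2 + f 1 ^ 2 = 1 := by
    rw [← normsq, hf, LinearIsometry.norm_map, normsq]
    simp
  have h3 : d 0 * f 0 + d 1 * f 1 = 0 := by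
    rw [← inner2, hd, hf, LinearIsometry.inner_map_map, inner2, e10, e11]
    simp
  have h1' := unit_iff h1
  set ε : ℝ := - d 1 * f 0 + d 0 * f 1 with hε
  have hε2 : ε ^ 2 = 1 := by
    have : ε ^ 2 = (d 0 ^ 2 + d 1 ^ 2) * (f 0 ^ 2 + f 1 ^ 2) - (d 0 * f 0 + d 1 * f 1) ^ 2 := by
      rw [hε]; ring
    rw [this, h1', h2, h3]; norm_num
  have hf0 : f 0 = - ε * d 1 := by
    rw [hε]
    linear_combination (-f 0) * h1' + d 0 * h3
  have hf1 : f 1 = ε * d 0 := by
    rw [hε]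
    linear_combination (-f 1) * h1' + d 1 * h3
  refine ⟨d, ε, h1, hε2, fun τ h y => ?_⟩
  have hy : y = pt τ h + ((y 0 - τ) • e1 + (y 1 - h) • (!₂[0, 1] : E2)) := by
    apply ext2
    · simp [pt, e1]
    · simp [pt, e1]
  have h4 : γ y = γ (pt τ h) + ((y 0 - τ) • d + (y 1 - h) • f) := by
    conv_lhs => rw [hy]
    rw [hd, hf, ← map_smul, ← map_smul, ← map_add, add_comm (pt τ h)]
    have := γ.map_vadd (pt τ h) ((y 0 - τ) • e1 + (y 1 - h) • (!₂[0, 1] : E2))
    rw [vadd_eq_add, vadd_eq_add] at this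
    rw [this, add_comm]
  rw [h4]
  apply ext2
  · simp only [psi0, PiLp.add_apply, PiLp.smul_apply, smul_eq_mul]
    rw [hf0]; ring
  · simp only [psi1, PiLp.add_apply, PiLp.smul_apply, smul_eq_mul]
    rw [hf1]; ring

theorem cr_continuous (m X : E2) : Continuous fun y : E2 => cr m (y - X) := by
  unfold cr
  have h0 : Continuous fun y : E2 => (y - X) 0 := by fun_prop
  have h1 : Continuous fun y : E2 => (y - X) 1 := by fun_prop
  exact (continuous_const.mul h1).sub (continuous_const.mul h0)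

theorem gen_step {U : Set E2} (hU : IsOpen U) (hne : U.Nonempty) {m : E2} (hm : m ≠ 0) (X : E2) :
    (U ∩ {y | cr m (y - X) ≠ 0}).Nonempty := by
  obtain ⟨y, hy⟩ := hne
  by_cases h : cr m (y - X) = 0
  · have hc : Continuous fun s : ℝ => y + s • J m := by fun_prop
    have h1 : ∀ᶠ s in 𝓝 (0 : ℝ), y + s • J m ∈ U := by
      apply hc.continuousAt.eventually
      simp only [zero_smul, add_zero]
      exact hU.mem_nhds hy
    have h2 : ∀ᶠ s in 𝓝[≠] (0 : ℝ), y + s • J m ∈ U := h1.filter_mono nhdsWithin_le_nhds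
    obtain ⟨s, hs, hs0⟩ := (h2.and self_mem_nhdsWithin).exists
    refine ⟨y + s • J m, hs, ?_⟩
    have hm2 : 0 < m 0 ^ 2 + m 1 ^ 2 := by
      rw [← normsq]; exact pow_pos (norm_pos_iff.2 hm) 2
    have h3 : cr m (y + s • J m - X) = cr m (y - X) + s * (m 0 ^ 2 + m 1 ^ 2) := by
      simp only [cr, PiLp.add_apply, PiLp.sub_apply, PiLp.smul_apply, smul_eq_mul, J0, J1]
      ring
    show cr m (y + s • J m - X) ≠ 0
    rw [h3, h, zero_add]
    exact mul_ne_zero hs0 hm2.ne'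
  · exact ⟨y, hy, h⟩

theorem gen {U : Set E2} (hU : IsOpen U) (hne : U.Nonempty) (L : List (E2 × E2))
    (hL : ∀ l ∈ L, l.1 ≠ 0) : ∃ y ∈ U, ∀ l ∈ L, cr l.1 (y - l.2) ≠ 0 := by
  induction L generalizing U with
  | nil =>
    obtain ⟨y, hy⟩ := hne
    exact ⟨y, hy, by simp⟩
  | cons l L ih =>
    have h1 : IsOpen (U ∩ {y | cr l.1 (y - l.2) ≠ 0}) := by
      refine hU.inter ?_
      exact isOpen_ne.preimage (cr_continuous l.1 l.2)
    obtain ⟨y, hy, hy'⟩ := ih h1 (gen_step hU hne (hL l (by simp)) l.2)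
      (fun l' hl' => hL l' (by simp [hl']))
    refine ⟨y, hy.1, ?_⟩
    intro l' hl'
    rcases List.mem_cons.1 hl' with rfl | h
    · exact hy.2
    · exact hy' l' h

theorem gen' {U : Set E2} (hU : IsOpen U) (hne : U.Nonempty) (L : List (E2 × E2))
    (hL : ∀ l ∈ L, l.1 ≠ 0) {F : Set E2} (hF : F.Finite) :
    ∃ y ∈ U, y ∉ F ∧ ∀ l ∈ L, cr l.1 (y - l.2) ≠ 0 := by
  have he : e1 ≠ 0 := by
    intro h
    have := e10
    rw [h] at this
    simp at this
  obtain ⟨y, hy, hy'⟩ := gen hU hne (L ++ (hF.toFinset.toList.map fun z => (e1, z))) (by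
    intro l hl
    rcases List.mem_append.1 hl with h | h
    · exact hL l h
    · obtain ⟨z, -, rfl⟩ := List.mem_map.1 h
      exact he)
  refine ⟨y, hy, ?_, fun l hl => hy' l (List.mem_append_left _ hl)⟩
  intro hyF
  have := hy' (e1, y) (List.mem_append_right _ (List.mem_map.2 ⟨y, by simpa using hyF, rfl⟩))
  apply this
  simp [cr]

theorem exists_sigma {O : Set E2} {P d : E2} (hd : ‖d‖ = 1)
    (h : ∃ σ₀ : ℝ, 0 < σ₀ ∧ ∀ σ : ℝ, 0 < σ → σ < σ₀ → P + σ • d ∈ O) {F : Set E2} (hF : F.Finite) :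
    ∃ σ : ℝ, 0 < σ ∧ P + σ • d ∈ O ∧ P + σ • d ∉ F := by
  obtain ⟨σ₀, h0, h1⟩ := h
  have hinj : Function.Injective fun σ : ℝ => P + σ • d := by
    intro a b hab
    have h2 : (a - b) • d = 0 := by
      have : P + a • d = P + b • d := hab
      rw [sub_smul, sub_eq_zero]
      exact add_left_cancel this
    rcases smul_eq_zero.1 h2 with h | h
    · linarith
    · rw [h, norm_zero] at hd
      exact absurd hd (by norm_num)
  have hinf : ((fun σ : ℝ => P + σ • d) '' Ioo 0 σ₀).Infinite :=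
    (Ioo_infinite h0).image hinj.injOn
  obtain ⟨x, ⟨σ, hσ, rfl⟩, hx⟩ := hinf.exists_notMem_finite hF
  exact ⟨σ, hσ.1, h1 σ hσ.1 hσ.2, hx⟩


theorem cr_smul_left (a : ℝ) (u v : E2) : cr (a • u) v = a * cr u v := by
  simp only [cr, PiLp.smul_apply, smul_eq_mul]; ring
theorem cr_smul_right (a : ℝ) (u v : E2) : cr u (a • v) = a * cr u v := by
  simp only [cr, PiLp.smul_apply, smul_eq_mul]; ring

/-- the path of the centre line -/
structure Path (O : Set E2) (F : Set E2) (P d P' d' : E2) (r : ℕ) (A : ℕ → E2) : Prop where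
  zero : A 0 = P
  last : A (r + 1) = P'
  mem : ∀ e, 1 ≤ e → e ≤ r → A e ∈ O ∧ A e ∉ F
  inj : ∀ e e', 1 ≤ e → e < e' → e' ≤ r → A e ≠ A e'
  step : ∀ e ≤ r, A (e + 1) - A e ≠ 0
  turn : ∀ e, e < r → cr (A (e + 1) - A e) (A (e + 2) - A (e + 1)) ≠ 0
  first : ∃ σ : ℝ, 0 < σ ∧ A 1 - A 0 = σ • d
  final : ∃ σ : ℝ, 0 < σ ∧ A (r + 1) - A r = σ • d'

theorem exists_path {O : Set E2} (hO : IsOpen O) {P d P' d' : E2} (hd : ‖d‖ = 1) (hd' : ‖d'‖ = 1)
    (h : ∃ σ₀ : ℝ, 0 < σ₀ ∧ ∀ σ : ℝ, 0 < σ → σ < σ₀ → P + σ • d ∈ O)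
    (h' : ∃ σ₀ : ℝ, 0 < σ₀ ∧ ∀ σ : ℝ, 0 < σ → σ < σ₀ → P' + σ • (-d') ∈ O)
    {F : Set E2} (hF : F.Finite) (b : Bool) :
    ∃ A : ℕ → E2, Path O F P d P' d' (if b then 3 else 4) A := by
  obtain ⟨σ, hσ, hQ1, hQ2⟩ := exists_sigma hd h hF
  set Q : E2 := P + σ • d with hQ
  obtain ⟨σ', hσ', hR1, hR2⟩ := exists_sigma (by rw [norm_neg]; exact hd') h' (hF.insert Q)
  set R : E2 := P' + σ' • (-d') with hR
  have hR2' : R ∉ F := fun hh => hR2 (Set.mem_insert_of_mem _ hh)
  have hRQ : R ≠ Q := fun hh => hR2 (by rw [hh]; exact Set.mem_insert _ _)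
  have hd0 : d ≠ 0 := by
    intro hh; rw [hh, norm_zero] at hd; exact absurd hd (by norm_num)
  have hd0' : d' ≠ 0 := by
    intro hh; rw [hh, norm_zero] at hd'; exact absurd hd' (by norm_num)
  have hPQ : Q - P = σ • d := by rw [hQ]; abel
  have hPR : P' - R = σ' • d' := by rw [hR, smul_neg]; abel
  have hPQ0 : Q - P ≠ 0 := by rw [hPQ]; exact smul_ne_zero hσ.ne' hd0
  have hPR0 : P' - R ≠ 0 := by rw [hPR]; exact smul_ne_zero hσ'.ne' hd0'
  cases b with
  | true =>
    obtain ⟨A, hA, hAF, hAL⟩ := gen' hO ⟨Q, hQ1⟩ [(d, Q), (R - Q, Q), (d', R)] (by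
      intro l hl
      simp only [List.mem_cons, List.not_mem_nil, or_false] at hl
      rcases hl with rfl | rfl | rfl
      · exact hd0
      · exact sub_ne_zero.2 hRQ
      · exact hd0') ((hF.insert Q).insert R)
    have a1 : cr d (A - Q) ≠ 0 := hAL (d, Q) (by simp)
    have a2 : cr (R - Q) (A - Q) ≠ 0 := hAL (R - Q, Q) (by simp)
    have a3 : cr d' (A - R) ≠ 0 := hAL (d', R) (by simp)
    have hAR : A ≠ R := fun hh => hAF (by rw [hh]; exact Set.mem_insert _ _)
    have hAQ : A ≠ Q := fun hh => hAF (by rw [hh]; simp)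
    have hAF' : A ∉ F := fun hh => hAF (by simp [hh])
    refine ⟨fun e => match e with | 0 => P | 1 => Q | 2 => A | 3 => R | _ => P', ?_⟩
    refine ⟨rfl, rfl, ?_, ?_, ?_, ?_, ⟨σ, hσ, hPQ⟩, ⟨σ', hσ', hPR⟩⟩
    · intro e he he'
      simp only [if_true] at he'
      interval_cases e
      · exact ⟨hQ1, hQ2⟩
      · exact ⟨hA, hAF'⟩
      · exact ⟨hR1, hR2'⟩
    · intro e e' he hee' he'
      simp only [if_true] at he'
      interval_cases e' <;> interval_cases e
      · exact hAQ.symm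
      · exact hRQ.symm
      · exact hAR
    · intro e he
      simp only [if_true] at he
      interval_cases e
      · exact hPQ0
      · exact sub_ne_zero.2 hAQ
      · exact sub_ne_zero.2 hAR.symm
      · exact hPR0
    · intro e he
      simp only [if_true] at he
      interval_cases e
      · show cr (Q - P) (A - Q) ≠ 0
        rw [hPQ, cr_smul_left]
        exact mul_ne_zero hσ.ne' a1
      · show cr (A - Q) (R - A) ≠ 0
        have : cr (A - Q) (R - A) = - cr (R - Q) (A - Q) := by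
          simp only [cr, PiLp.sub_apply]; ring
        rw [this]
        exact neg_ne_zero.2 a2
      · show cr (R - A) (P' - R) ≠ 0
        rw [hPR, cr_smul_right]
        have : cr (R - A) d' = cr d' (A - R) := by
          simp only [cr, PiLp.sub_apply]; ring
        rw [this]
        exact mul_ne_zero hσ'.ne' a3
  | false =>
    obtain ⟨A, hA, hAF, hAL⟩ := gen' hO ⟨Q, hQ1⟩ [(d, Q)] (by
      intro l hl
      simp only [List.mem_cons, List.not_mem_nil, or_false] at hl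
      rcases hl with rfl
      exact hd0) ((hF.insert Q).insert R)
    have a1 : cr d (A - Q) ≠ 0 := hAL (d, Q) (by simp)
    have hAR : A ≠ R := fun hh => hAF (by rw [hh]; exact Set.mem_insert _ _)
    have hAQ : A ≠ Q := fun hh => hAF (by rw [hh]; simp)
    have hAF' : A ∉ F := fun hh => hAF (by simp [hh])
    obtain ⟨B, hB, hBF, hBL⟩ := gen' hO ⟨Q, hQ1⟩ [(A - Q, A), (R - A, A), (d', R)] (by
      intro l hl
      simp only [List.mem_cons, List.not_mem_nil, or_false] at hl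
      rcases hl with rfl | rfl | rfl
      · exact sub_ne_zero.2 hAQ
      · exact sub_ne_zero.2 hAR.symm
      · exact hd0') (((hF.insert Q).insert R).insert A)
    have b1 : cr (A - Q) (B - A) ≠ 0 := hBL (A - Q, A) (by simp)
    have b2 : cr (R - A) (B - A) ≠ 0 := hBL (R - A, A) (by simp)
    have b3 : cr d' (B - R) ≠ 0 := hBL (d', R) (by simp)
    have hBA : B ≠ A := fun hh => hBF (by rw [hh]; exact Set.mem_insert _ _)
    have hBR : B ≠ R := fun hh => hBF (by rw [hh]; simp)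
    have hBQ : B ≠ Q := fun hh => hBF (by rw [hh]; simp)
    have hBF' : B ∉ F := fun hh => hBF (by simp [hh])
    refine ⟨fun e => match e with | 0 => P | 1 => Q | 2 => A | 3 => B | 4 => R | _ => P', ?_⟩
    refine ⟨rfl, rfl, ?_, ?_, ?_, ?_, ⟨σ, hσ, hPQ⟩, ⟨σ', hσ', hPR⟩⟩
    · intro e he he'
      simp only [Bool.false_eq_true, if_false] at he'
      interval_cases e
      · exact ⟨hQ1, hQ2⟩
      · exact ⟨hA, hAF'⟩
      · exact ⟨hB, hBF'⟩
      · exact ⟨hR1, hR2'⟩
    · intro e e' he hee' he'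
      simp only [Bool.false_eq_true, if_false] at he'
      interval_cases e' <;> interval_cases e
      · exact hAQ.symm
      · exact hBQ.symm
      · exact hBA.symm
      · exact hRQ.symm
      · exact hAR
      · exact hBR
    · intro e he
      simp only [Bool.false_eq_true, if_false] at he
      interval_cases e
      · exact hPQ0
      · exact sub_ne_zero.2 hAQ
      · exact sub_ne_zero.2 hBA
      · exact sub_ne_zero.2 hBR.symm
      · exact hPR0
    · intro e he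
      simp only [Bool.false_eq_true, if_false] at he
      interval_cases e
      · show cr (Q - P) (A - Q) ≠ 0
        rw [hPQ, cr_smul_left]
        exact mul_ne_zero hσ.ne' a1
      · exact b1
      · show cr (B - A) (R - B) ≠ 0
        have : cr (B - A) (R - B) = - cr (R - A) (B - A) := by
          simp only [cr, PiLp.sub_apply]; ring
        rw [this]
        exact neg_ne_zero.2 b2
      · show cr (R - B) (P' - R) ≠ 0
        rw [hPR, cr_smul_right]
        have : cr (R - B) d' = cr d' (B - R) := by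
          simp only [cr, PiLp.sub_apply]; ring
        rw [this]
        exact mul_ne_zero hσ'.ne' b3

end FinAux

open FinAux

theorem exists_finish {S : Set E3} {c : CData} (hc : IsComplex S c) {i : Fin c.N}
    {k : Fin c.m} {t h : ℝ} {n : E2} {G : E2 →ᵃⁱ[ℝ] E3} (hE : Entry c i k G n (pt t h))
    {t' b' : ℝ} {n' : E2} {G' : E2 →ᵃⁱ[ℝ] E3} (hL : PortL c k i G' n' (pt t' b'))
    (hne : G (pt t h) ≠ G' (pt t' b')) {Φ : Set E3} (hΦ : Φ.Finite) :
    ∃ (r : ℕ) (τ : ℕ → ℝ) (ν : ℕ → E2) (Γ : ℕ → (E2 →ᵃⁱ[ℝ] E3)),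
      1 ≤ r ∧ τ 0 = t ∧ Γ 0 = G ∧ (∀ e ≤ r, τ e < τ (e + 1)) ∧
      (∀ e, 1 ≤ e → e ≤ r → ‖ν e‖ = 1 ∧ 0 < inner ℝ (ν e) e1 ∧
        Γ (e - 1) (pt (τ e) h) ∈ c.cell i ∧ Γ (e - 1) (pt (τ e) h) ∉ Φ ∧
        ∀ y, Γ e y = Γ (e - 1) (refl (ν e, inner ℝ (ν e) (pt (τ e) h)) y)) ∧
      (∀ e e', 1 ≤ e → e < e' → e' ≤ r →
        Γ (e - 1) (pt (τ e) h) ≠ Γ (e' - 1) (pt (τ e') h)) ∧
      (∀ y, Γ r (refl (n', inner ℝ n' (pt (τ (r + 1)) h)) y) =
        G' (y - pt (τ (r + 1)) h + pt t' b')) := by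
  set O : Set E2 := c.O i with hOdef
  set g : E2 →ᵃⁱ[ℝ] E3 := c.g i with hg
  have hO : IsOpen O := hc.isOpen i
  -- half planes near a point contain an open set
  have hhalf : ∀ {m p : E2}, ‖m‖ = 1 → ∀ {Gm : E2 →ᵃⁱ[ℝ] E3},
      (∀ᶠ y in 𝓝 p, 0 < inner ℝ m (y - p) → Gm y ∈ c.cell i) →
      (∃ γ : E2 →ᵃⁱ[ℝ] E2, ∀ y, Gm y = g (γ y)) := by
    intro m p hm Gm hev
    obtain ⟨ρ, hρ, hball⟩ := Metric.eventually_nhds_iff_ball.1 hev
    have hU : IsOpen (ball p ρ ∩ {y : E2 | 0 < inner ℝ m (y - p)}) := by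
      refine isOpen_ball.inter (isOpen_lt continuous_const ?_)
      fun_prop
    refine exists_lift hU ?_ (g := g) ?_
    · refine ⟨p + (ρ / 2) • m, ?_, ?_⟩
      · rw [mem_ball, dist_eq_norm, add_sub_cancel_left, norm_smul, hm, mul_one,
          Real.norm_eq_abs, abs_of_pos (by linarith)]
        linarith
      · show 0 < inner ℝ m (p + (ρ / 2) • m - p)
        rw [add_sub_cancel_left, inner_smul_right, real_inner_self_eq_norm_sq, hm]
        positivity
    · intro y hy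
      obtain ⟨z, -, hz⟩ := hball y hy.1 hy.2
      exact ⟨z, hz⟩
  have hray : ∀ {m p : E2} {Gm : E2 →ᵃⁱ[ℝ] E3} {γ : E2 →ᵃⁱ[ℝ] E2},
      (∀ᶠ y in 𝓝 p, 0 < inner ℝ m (y - p) → Gm y ∈ c.cell i) → (∀ y, Gm y = g (γ y)) →
      ∀ v : E2, 0 < inner ℝ m v →
      ∃ σ₀ : ℝ, 0 < σ₀ ∧ ∀ σ : ℝ, 0 < σ → σ < σ₀ → γ (p + σ • v) ∈ O := by
    intro m p Gm γ hev hγ v hv
    obtain ⟨ρ, hρ, hball⟩ := Metric.eventually_nhds_iff_ball.1 hev
    have hv0 : v ≠ 0 := by
      rintro rfl
      simp at hv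
    have hvn : 0 < ‖v‖ := norm_pos_iff.2 hv0
    refine ⟨ρ / ‖v‖, div_pos hρ hvn, fun σ h1 h2 => ?_⟩
    have h3 : Gm (p + σ • v) ∈ c.cell i := by
      apply hball
      · rw [mem_ball, dist_eq_norm, add_sub_cancel_left, norm_smul, Real.norm_eq_abs,
          abs_of_pos h1]
        exact (lt_div_iff₀ hvn).1 h2
      · rw [add_sub_cancel_left, inner_smul_right]
        exact mul_pos h1 hv
    obtain ⟨z, hz, hz'⟩ := h3
    rw [hγ] at hz'
    have := g.injective hz'
    rw [← this]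
    exact hz
  obtain ⟨γ, hγ⟩ := hhalf hE.unit hE.inside
  obtain ⟨γ', hγ'⟩ := hhalf hL.unit hL.inside
  obtain ⟨d, ε, hd, hε, hpsi⟩ := exists_psi γ
  obtain ⟨δ', ε', hδ', hε', hpsi'⟩ := exists_psi γ'
  set P : E2 := γ (pt t h) with hP
  set P' : E2 := γ' (pt t' b') with hP'
  have hn1 := unit_iff hL.unit
  set v0 : ℝ := 1 - 2 * n' 0 ^ 2 with hv0
  set v1 : ℝ := ε' * (-2 * n' 0 * n' 1) with hv1
  set d' : E2 := v0 • δ' + v1 • J δ' with hd'def
  have hδ'1 := unit_iff hδ'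
  have hv2 : v0 ^ 2 + v1 ^ 2 = 1 := by
    rw [hv0, hv1]
    linear_combination (4 * n' 0 ^ 2) * hn1 + (4 * n' 0 ^ 2 * n' 1 ^ 2) * hε'
  have hd' : ‖d'‖ = 1 := by
    have : ‖d'‖ ^ 2 = 1 ^ 2 := by
      rw [normsq, hd'def]
      simp only [PiLp.add_apply, PiLp.smul_apply, smul_eq_mul, J0, J1]
      linear_combination (v0 ^ 2 + v1 ^ 2) * hδ'1 + hv2
    exact (sq_eq_sq₀ (norm_nonneg _) zero_le_one).1 this
  have hdn : 0 < n' 0 := by
    have := hL.dir
    rw [inner2, e10, e11] at this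
    linarith
  have hray1 : ∃ σ₀ : ℝ, 0 < σ₀ ∧ ∀ σ : ℝ, 0 < σ → σ < σ₀ → P + σ • d ∈ O := by
    obtain ⟨σ₀, h0, h1⟩ := hray hE.inside hγ e1 hE.dir
    refine ⟨σ₀, h0, fun σ h2 h3 => ?_⟩
    have h4 := h1 σ h2 h3
    have h5 : γ (pt t h + σ • e1) = P + σ • d := by
      rw [hpsi t h]
      apply ext2
      · simp only [psi0, PiLp.add_apply, PiLp.smul_apply, smul_eq_mul, pt0, pt1, e10, e11]
        rw [← hP]; ring
      · simp only [psi1, PiLp.add_apply, PiLp.smul_apply, smul_eq_mul, pt0, pt1, e10, e11]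
        rw [← hP]; ring
    rwa [h5] at h4
  have hray2 : ∃ σ₀ : ℝ, 0 < σ₀ ∧ ∀ σ : ℝ, 0 < σ → σ < σ₀ → P' + σ • (-d') ∈ O := by
    have hv : 0 < inner ℝ n' (-(e1 - (2 * n' 0) • n')) := by
      rw [inner2]
      simp only [PiLp.neg_apply, PiLp.sub_apply, PiLp.smul_apply, smul_eq_mul, e10, e11]
      have : n' 0 * -(1 - 2 * n' 0 * n' 0) + n' 1 * -(0 - 2 * n' 0 * n' 1) = n' 0 := by
        linear_combination (2 * n' 0) * hn1
      rw [this]; exact hdn
    obtain ⟨σ₀, h0, h1⟩ := hray hL.inside hγ' (-(e1 - (2 * n' 0) • n')) hv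
    refine ⟨σ₀, h0, fun σ h2 h3 => ?_⟩
    have h4 := h1 σ h2 h3
    have h5 : γ' (pt t' b' + σ • -(e1 - (2 * n' 0) • n')) = P' + σ • (-d') := by
      rw [hpsi' t' b', hd'def, hv0, hv1]
      apply ext2
      · simp only [psi0, PiLp.add_apply, PiLp.neg_apply, PiLp.sub_apply, PiLp.smul_apply,
          smul_eq_mul, pt0, pt1, e10, e11, J0]
        rw [← hP']; ring
      · simp only [psi1, PiLp.add_apply, PiLp.neg_apply, PiLp.sub_apply, PiLp.smul_apply,
          smul_eq_mul, pt0, pt1, e10, e11, J1]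
        rw [← hP']; ring
    rwa [h5] at h4
  have hF : (g ⁻¹' Φ).Finite := hΦ.preimage g.injective.injOn
  have hsgn : ε = ε' ∨ ε = -ε' := by
    have : (ε - ε') * (ε + ε') = 0 := by linear_combination hε - hε'
    rcases mul_eq_zero.1 this with h | h
    · left; linarith
    · right; linarith
  obtain ⟨b, hb⟩ : ∃ b : Bool, (-1) ^ (if b then 3 else 4) * ε = -ε' := by
    rcases hsgn with h | h
    · exact ⟨true, by rw [h]; norm_num⟩
    · exact ⟨false, by rw [h]; norm_num⟩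
  obtain ⟨A, hA⟩ := exists_path hO hd hd' hray1 hray2 hF b
  set r : ℕ := if b then 3 else 4 with hr
  have hr1 : 1 ≤ r := by rw [hr]; cases b <;> simp
  clear_value r
  -- directions, times, signs
  set D : ℕ → E2 := fun e => A (e + 1) - A e with hD
  set w : ℕ → E2 := fun e => ‖D e‖⁻¹ • D e with hw
  set τ : ℕ → ℝ := fun e => t + ∑ j ∈ Finset.range e, ‖D j‖ with hτ
  set sg : ℕ → ℝ := fun e => (-1) ^ e * ε with hsg
  have hD0 : ∀ e ≤ r, D e ≠ 0 := hA.step
  have hw1 : ∀ e ≤ r, ‖w e‖ = 1 := by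
    intro e he
    rw [hw]
    simp only [norm_smul, norm_inv, norm_norm]
    exact inv_mul_cancel₀ (norm_ne_zero_iff.2 (hD0 e he))
  have hDw : ∀ e ≤ r, D e = ‖D e‖ • w e := by
    intro e he
    simp only [hw]
    rw [smul_smul, mul_inv_cancel₀ (norm_ne_zero_iff.2 (hD0 e he)), one_smul]
  have hsg1 : ∀ e, (sg e) ^ 2 = 1 := by
    intro e
    simp only [hsg]
    rw [mul_pow, hε, mul_one, ← pow_mul, mul_comm, pow_mul]
    norm_num
  have hτs : ∀ e, τ (e + 1) = τ e + ‖D e‖ := by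
    intro e
    simp only [hτ]
    rw [Finset.sum_range_succ]; ring
  have hτ0 : τ 0 = t := by simp [hτ]
  have hAs : ∀ e ≤ r, A (e + 1) = A e + (τ (e + 1) - τ e) • w e := by
    intro e he
    rw [hτs]
    have : (τ e + ‖D e‖ - τ e) • w e = D e := by
      rw [add_sub_cancel_left]; exact (hDw e he).symm
    rw [this]
    simp only [hD]
    abel
  have hwd : ∀ {v : E2} {e : ℕ}, ‖v‖ = 1 → (∃ σ : ℝ, 0 < σ ∧ D e = σ • v) → w e = v := by
    rintro v e hv ⟨σ, hσ, hσ'⟩
    simp only [hw]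
    rw [hσ', norm_smul, hv, mul_one, Real.norm_eq_abs, abs_of_pos hσ, smul_smul,
      inv_mul_cancel₀ hσ.ne', one_smul]
  have hw0 : w 0 = d := hwd hd hA.first
  have hwr : w r = d' := hwd hd' hA.final
  let Γ : ℕ → (E2 →ᵃⁱ[ℝ] E3) := fun e =>
    open scoped Classical in
    if hh : ‖w e‖ = 1 then g.comp (Psi (A := A e) (τ e) h hh (hsg1 e)) else G
  have hΓ : ∀ e ≤ r, ∀ y, Γ e y = g (psi (A e) (w e) (sg e) (τ e) h y) := by
    intro e he y
    simp only [Γ]
    rw [dif_pos (hw1 e he)]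
    rfl
  have hturn : ∀ e, ∃ m : E2, e < r → (‖m‖ = 1 ∧ 0 < inner ℝ m e1 ∧
      w (e + 1) = (1 - 2 * m 0 ^ 2) • w e + (sg e * (- 2 * m 0 * m 1)) • J (w e)) := by
    intro e
    by_cases he : e < r
    · have hne' : w (e + 1) ≠ w e := by
        intro hh
        apply hA.turn e he
        have h1 : A (e + 2) - A (e + 1) = ‖D (e + 1)‖ • w e := by
          rw [← hh]; exact hDw (e + 1) he
        have h2 : A (e + 1) - A e = ‖D e‖ • w e := hDw e he.le
        rw [h1, h2, cr_smul_left, cr_smul_right]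
        have : cr (w e) (w e) = 0 := by simp only [cr]; ring
        rw [this]; ring
      obtain ⟨m, h1, h2, h3⟩ := exists_turn (hw1 e he.le) (hw1 (e + 1) he) (hsg1 e) hne'
      exact ⟨m, fun _ => ⟨h1, h2, h3⟩⟩
    · exact ⟨0, fun hh => absurd hh he⟩
  choose N hN using hturn
  have hev : ∀ e, 1 ≤ e → e ≤ r → Γ (e - 1) (pt (τ e) h) = g (A e) := by
    intro e he he'
    obtain ⟨e, rfl⟩ : ∃ e', e = e' + 1 := ⟨e - 1, by omega⟩
    rw [Nat.add_sub_cancel, hΓ e (by omega), psi_pt, ← hAs e (by omega)]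
  refine ⟨r, τ, fun e => N (e - 1), Γ, hr1, hτ0, ?_, ?_, ?_, ?_, ?_⟩
  · ext1 y
    have hs0 : sg 0 = ε := by simp [hsg]
    rw [hΓ 0 (Nat.zero_le _), hγ, hpsi t h y, hw0, hA.zero, hτ0, hs0]
  · intro e he
    rw [hτs]
    have := norm_pos_iff.2 (hD0 e he)
    linarith
  · intro e he he'
    obtain ⟨h1, h2, h3⟩ := hN (e - 1) (by omega)
    refine ⟨h1, h2, ?_, ?_, ?_⟩
    · rw [hev e he he']
      exact ⟨A e, (hA.mem e he he').1, rfl⟩
    · rw [hev e he he']
      exact (hA.mem e he he').2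
    · intro y
      obtain ⟨e, rfl⟩ : ∃ e', e = e' + 1 := ⟨e - 1, by omega⟩
      rw [Nat.add_sub_cancel] at h1 h3 ⊢
      rw [hΓ (e + 1) he', hΓ e (by omega), ← psi_shift (A e) (w e) (sg e) (τ e) (τ (e + 1)) h,
        ← hAs e (by omega)]
      have h5 : sg (e + 1) = - sg e := by
        simp only [hsg]; rw [pow_succ]; ring
      have h4 := psi_refl (A := A (e + 1)) (τ := τ (e + 1)) (h := h) h1 (hsg1 e) h3 y
      rw [h5, ← h4]
      rfl
  · intro e e' he hee' he'
    rw [hev e he (by omega), hev e' (by omega) he']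
    intro hh
    exact hA.inj e e' he hee' he' (g.injective hh)
  · intro y
    have hsr : sg r = - ε' := by
      simp only [hsg]; exact hb
    have hδ : δ' = (1 - 2 * n' 0 ^ 2) • d' + (-ε' * (-2 * n' 0 * n' 1)) • J d' := by
      apply ext2
      · simp only [hd'def, PiLp.add_apply, PiLp.smul_apply, smul_eq_mul, J0, J1]
        rw [← hv0]
        have : -ε' * (-2 * n' 0 * n' 1) = - v1 := by rw [hv1]; ring
        rw [this]
        linear_combination (-δ' 0) * hv2
      · simp only [hd'def, PiLp.add_apply, PiLp.smul_apply, smul_eq_mul, J0, J1]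
        rw [← hv0]
        have : -ε' * (-2 * n' 0 * n' 1) = - v1 := by rw [hv1]; ring
        rw [this]
        linear_combination (-δ' 1) * hv2
    rw [hΓ r le_rfl, ← psi_shift (A r) (w r) (sg r) (τ r) (τ (r + 1)) h, ← hAs r le_rfl,
      hA.last, hwr, hsr, psi_refl hL.unit (by rw [neg_sq]; exact hε') hδ, neg_neg, hγ',
      hpsi' t' b']
    congr 1
    apply ext2
    · simp only [psi0, PiLp.add_apply, PiLp.sub_apply, pt0, pt1]
      rw [← hP']; ring
    · simp only [psi1, PiLp.add_apply, PiLp.sub_apply, pt0, pt1]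
      rw [← hP']; ring

end Pool.Agent.SeamS
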