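import Pool.Agent.SeamS.Graph
import Pool.Agent.SeamS.Visit
import Pool.Agent.SeamS.Finish

/-!
# Existence of routes (module E1c)

Start: `ci 1 = i`, `pl 1 = k`, `G 1 = G 0 ∘ refl` in the event line 0; this gives an `Entry` of the cell `i` (points to the right of the event line are reflected from the left side, which is
mapped into `cell i` by `PortR.inside`).
Take a path of moves (`graph_connected`) from the node `(i, k)` to the node `(i', k')`; for every move apply `exists_visit` (with the infinite set of move points, and `Φ` enlarged by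
all event points constructed so far, by `G0 (pt t0 h)` and `G' (pt t' b')`): it adds two events (a turn and a wrap or cross). At the end apply `exists_finish` (the entry point is different from `G' (pt t' b')`: it was avoided, or
for the empty path it is `G0 (pt t0 h)`, `hne`): it adds `r` turns and the last event `M`, a fold.
All event points are different: turn points are in open cells and avoid the earlier event points; edge points avoid the earlier event points; in `exists_finish` the turn points are different from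
each other, avoid `Φ` and are in an open cell, while the first and the last event point are on the boundary of a cell (an edge point of a cell is not in any open cell: `disj`).
`closed`/`inner`: a facet has its end points `G e (p (e-1))`, `G e (p e)`: (edge point, turn point) or (turn point, edge point) or (turn point, turn point); turn points are in the open cell;
edge points are in `bcell`. In `Entry`, `G p ∈ bcell i`.
Lists or recursion on the path may be used to build the data.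
-/

namespace Pool.Agent.SeamS

open Set Filter Topology Metric Pool.Agent.Hhelper79.Seam

namespace RtAux

variable {c : CData}

/-- append an event: the event `d.M` gets the data `t1`, `n1`; the facet `d.M + 1` gets the data `G1`, `i1`, `k1` -/
noncomputable def ext (d : RData c) (M' : ℕ) (t1 : ℝ) (n1 : E2) (G1 : E2 →ᵃⁱ[ℝ] E3)
    (i1 : Fin c.N) (k1 : Fin c.m) : RData c where
  M := M'
  t := fun e => if e < d.M then d.t e else t1
  n := fun e => if e < d.M then d.n e else n1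
  G := fun e => if e ≤ d.M then d.G e else G1
  ci := fun e => if e ≤ d.M then d.ci e else i1
  pl := fun e => if e ≤ d.M then d.pl e else k1

section
variable {d : RData c} {M' : ℕ} {t1 : ℝ} {n1 : E2} {G1 : E2 →ᵃⁱ[ℝ] E3} {i1 : Fin c.N}
  {k1 : Fin c.m} {h : ℝ}

theorem ext_t {e : ℕ} (he : e < d.M) : (ext d M' t1 n1 G1 i1 k1).t e = d.t e := if_pos he
theorem ext_t' : (ext d M' t1 n1 G1 i1 k1).t d.M = t1 := if_neg (lt_irrefl _)
theorem ext_n {e : ℕ} (he : e < d.M) : (ext d M' t1 n1 G1 i1 k1).n e = d.n e := if_pos he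
theorem ext_n' : (ext d M' t1 n1 G1 i1 k1).n d.M = n1 := if_neg (lt_irrefl _)
theorem ext_G {e : ℕ} (he : e ≤ d.M) : (ext d M' t1 n1 G1 i1 k1).G e = d.G e := if_pos he
theorem ext_G' : (ext d M' t1 n1 G1 i1 k1).G (d.M + 1) = G1 := if_neg (by omega)
theorem ext_ci {e : ℕ} (he : e ≤ d.M) : (ext d M' t1 n1 G1 i1 k1).ci e = d.ci e := if_pos he
theorem ext_ci' : (ext d M' t1 n1 G1 i1 k1).ci (d.M + 1) = i1 := if_neg (by omega)
theorem ext_pl {e : ℕ} (he : e ≤ d.M) : (ext d M' t1 n1 G1 i1 k1).pl e = d.pl e := if_pos he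
theorem ext_pl' : (ext d M' t1 n1 G1 i1 k1).pl (d.M + 1) = k1 := if_neg (by omega)

theorem ext_p {e : ℕ} (he : e < d.M) : (ext d M' t1 n1 G1 i1 k1).p h e = d.p h e := by
  unfold RData.p
  rw [ext_t he]

theorem ext_p' : (ext d M' t1 n1 G1 i1 k1).p h d.M = pt t1 h := by
  unfold RData.p
  rw [ext_t']

theorem ext_s {e : ℕ} (he : e < d.M) : (ext d M' t1 n1 G1 i1 k1).s h e = d.s h e := by
  unfold RData.s
  rw [ext_p he, ext_G he.le]

theorem ext_s' : (ext d M' t1 n1 G1 i1 k1).s h d.M = d.G d.M (pt t1 h) := by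
  unfold RData.s
  rw [ext_p', ext_G le_rfl]

theorem ext_val {e : ℕ} (he : e < d.M) (y : E2) :
    (ext d M' t1 n1 G1 i1 k1).val h e y = d.val h e y := by
  unfold RData.val
  rw [ext_p he, ext_n he]

theorem ext_val' (y : E2) :
    (ext d M' t1 n1 G1 i1 k1).val h d.M y = inner ℝ n1 (y - pt t1 h) := by
  unfold RData.val
  rw [ext_p', ext_n']

theorem ext_fold {e : ℕ} (he : e < d.M) (hf : d.IsFold h e) :
    (ext d M' t1 n1 G1 i1 k1).IsFold h e := by
  unfold RData.IsFold at hf ⊢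
  rw [ext_p he, ext_n he, ext_G he.le, ext_G (e := e + 1) he]
  exact hf

theorem ext_event {e : ℕ} (he : e < d.M)
    (hf : d.IsTurn h e ∨ d.IsWrap h e ∨ d.IsCross h e) :
    (ext d M' t1 n1 G1 i1 k1).IsTurn h e ∨ (ext d M' t1 n1 G1 i1 k1).IsWrap h e ∨
      (ext d M' t1 n1 G1 i1 k1).IsCross h e := by
  rcases hf with hf | hf | hf
  · left
    unfold RData.IsTurn at hf ⊢
    rw [ext_ci he.le, ext_ci (e := e + 1) he, ext_pl he.le, ext_pl (e := e + 1) he, ext_s he]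
    exact ⟨hf.1, hf.2.1, ext_fold he hf.2.2.1, hf.2.2.2⟩
  · right
    left
    unfold RData.IsWrap at hf ⊢
    simp only [ext_ci he.le, ext_ci (e := e + 1) he, ext_pl he.le, ext_pl (e := e + 1) he,
      ext_p he, ext_val he, ext_G he.le]
    exact ⟨hf.1, ext_fold he hf.2.1, hf.2.2⟩
  · right
    right
    unfold RData.IsCross at hf ⊢
    simp only [ext_ci he.le, ext_ci (e := e + 1) he, ext_pl he.le, ext_pl (e := e + 1) he,
      ext_p he, ext_val he, ext_G he.le, ext_G (e := e + 1) he]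
    exact hf

end

/-- a partial route: the events `0, ..., M - 1` and the facets `1, ..., M - 1` are complete; the facet `M` is entered -/
structure PRoute (d : RData c) (h : ℝ) (Φ : Set E3) (t0 : ℝ) (n0 : E2) (G0 : E2 →ᵃⁱ[ℝ] E3)
    (k : Fin c.m) (i : Fin c.N) : Prop where
  Mpos : 1 ≤ d.M
  unit : ∀ e < d.M, ‖d.n e‖ = 1
  dir : ∀ e < d.M, 0 < inner ℝ (d.n e) e1
  mono : ∀ e, e + 1 < d.M → d.t e < d.t (e + 1)
  valid : ∀ e, 1 ≤ e → e ≤ d.M → c.mem (d.ci e) (d.pl e)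
  event : ∀ e, 1 ≤ e → e < d.M → d.IsTurn h e ∨ d.IsWrap h e ∨ d.IsCross h e
  closed : ∀ e, 1 ≤ e → e < d.M →
    d.G e (d.p h (e - 1)) ∈ c.ccell (d.ci e) ∧ d.G e (d.p h e) ∈ c.ccell (d.ci e)
  innr : ∀ e, 1 ≤ e → e < d.M →
    d.G e (d.p h (e - 1)) ∈ c.cell (d.ci e) ∨ d.G e (d.p h e) ∈ c.cell (d.ci e)
  closedM : d.G d.M (d.p h (d.M - 1)) ∈ c.ccell (d.ci d.M)
  startFold : d.IsFold h 0
  startIn : ∀ᶠ y in 𝓝 (d.p h 0), 0 < d.val h 0 y → d.G 1 y ∈ c.cell (d.ci 1)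
  startRim : ∀ᶠ y in 𝓝 (d.p h 0), d.val h 0 y = 0 →
    d.G 1 y ∈ c.bcell (d.ci 1) ∧ d.G 1 y ∉ c.V ∧ d.G 1 y ∉ c.CI (d.pl 1)
  dist : ∀ e e', e < e' → e' < d.M → d.s h e ≠ d.s h e'
  av : ∀ e, 1 ≤ e → e < d.M → d.s h e ∉ Φ
  ht : d.t 0 = t0
  hn : d.n 0 = n0
  hG : d.G 0 = G0
  hpl : d.pl 1 = k
  hci : d.ci 1 = i

theorem cell_ccell {i : Fin c.N} {s : E3} (hs : s ∈ c.cell i) : s ∈ c.ccell i := by
  obtain ⟨y, hy, rfl⟩ := hs
  exact ⟨y, subset_closure hy, rfl⟩

theorem bcell_ccell {i : Fin c.N} {s : E3} (hs : s ∈ c.bcell i) : s ∈ c.ccell i := by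
  obtain ⟨y, hy, rfl⟩ := hs
  exact ⟨y, hy.1, rfl⟩

theorem cell_bcell {i : Fin c.N} {s s' : E3} (hs : s ∈ c.cell i) (hs' : s' ∈ c.bcell i) :
    s ≠ s' := by
  rintro rfl
  obtain ⟨y, hy, rfl⟩ := hs
  obtain ⟨z, hz, hzy⟩ := hs'
  rw [(c.g i).injective hzy] at hz
  exact hz.2 hy

theorem refl_self (n p : E2) : refl (n, inner ℝ n p) p = p := by
  simp [refl]

theorem inner_refl_sub {n : E2} (hn : ‖n‖ = 1) (p y : E2) :
    inner ℝ n (refl (n, inner ℝ n p) y - p) = - inner ℝ n (y - p) := by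
  have h1 := inner_refl (l := (n, inner ℝ n p)) hn y
  rw [inner_sub_right, inner_sub_right]
  simp only at h1
  rw [h1]
  ring

theorem continuous_refl (l : E2 × ℝ) : Continuous (refl l) := by
  unfold refl
  fun_prop

/-- append one event -/
theorem PRoute.step {d : RData c} {h : ℝ} {Φ : Set E3} {t0 : ℝ} {n0 : E2}
    {G0 : E2 →ᵃⁱ[ℝ] E3} {k : Fin c.m} {i : Fin c.N} (H : PRoute d h Φ t0 n0 G0 k i)
    {t1 : ℝ} {n1 : E2} {G1 : E2 →ᵃⁱ[ℝ] E3} {i1 : Fin c.N} {k1 : Fin c.m}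
    (ht1 : d.t (d.M - 1) < t1) (hn1 : ‖n1‖ = 1) (hd1 : 0 < inner ℝ n1 e1)
    (hs : d.G d.M (pt t1 h) ∈ c.ccell (d.ci d.M))
    (hin : d.G d.M (d.p h (d.M - 1)) ∈ c.cell (d.ci d.M) ∨
      d.G d.M (pt t1 h) ∈ c.cell (d.ci d.M))
    (hsΦ : d.G d.M (pt t1 h) ∉ Φ) (hdist : ∀ e < d.M, d.s h e ≠ d.G d.M (pt t1 h))
    (hmem : c.mem i1 k1)
    (hev : (ext d (d.M + 1) t1 n1 G1 i1 k1).IsTurn h d.M ∨
      (ext d (d.M + 1) t1 n1 G1 i1 k1).IsWrap h d.M ∨
      (ext d (d.M + 1) t1 n1 G1 i1 k1).IsCross h d.M)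
    (hcl : G1 (pt t1 h) ∈ c.ccell i1) :
    PRoute (ext d (d.M + 1) t1 n1 G1 i1 k1) h Φ t0 n0 G0 k i := by
  have hM := H.Mpos
  have hMM : (ext d (d.M + 1) t1 n1 G1 i1 k1).M = d.M + 1 := rfl
  refine ⟨by omega, ?_, ?_, ?_, ?_, ?_, ?_, ?_, ?_, ext_fold hM H.startFold, ?_, ?_, ?_, ?_,
    ?_, ?_, ?_, ?_, ?_⟩
  · intro e he
    rcases Nat.lt_or_eq_of_le (Nat.le_of_lt_succ he) with h1 | rfl
    · rw [ext_n h1]; exact H.unit e h1
    · rw [ext_n']; exact hn1
  · intro e he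
    rcases Nat.lt_or_eq_of_le (Nat.le_of_lt_succ he) with h1 | rfl
    · rw [ext_n h1]; exact H.dir e h1
    · rw [ext_n']; exact hd1
  · intro e he
    rcases Nat.lt_or_eq_of_le (Nat.le_of_lt_succ he) with h1 | h1
    · rw [ext_t h1, ext_t (by omega)]; exact H.mono e h1
    · rw [ext_t (by omega), h1, ext_t']
      have : e = d.M - 1 := by omega
      rw [this]
      exact ht1
  · intro e he1 he
    rcases Nat.lt_or_eq_of_le he with h1 | h1
    · rw [ext_ci (by omega), ext_pl (by omega)]; exact H.valid e he1 (by omega)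
    · rw [h1, hMM, ext_ci', ext_pl']; exact hmem
  · intro e he1 he
    rcases Nat.lt_or_eq_of_le (Nat.le_of_lt_succ he) with h1 | rfl
    · exact ext_event h1 (H.event e he1 h1)
    · exact hev
  · intro e he1 he
    rcases Nat.lt_or_eq_of_le (Nat.le_of_lt_succ he) with h1 | rfl
    · rw [ext_G h1.le, ext_p h1, ext_p (by omega), ext_ci h1.le]
      exact H.closed e he1 h1
    · rw [ext_G le_rfl, ext_p', ext_p (by omega), ext_ci le_rfl]
      exact ⟨H.closedM, hs⟩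
  · intro e he1 he
    rcases Nat.lt_or_eq_of_le (Nat.le_of_lt_succ he) with h1 | rfl
    · rw [ext_G h1.le, ext_p h1, ext_p (by omega), ext_ci h1.le]
      exact H.innr e he1 h1
    · rw [ext_G le_rfl, ext_p', ext_p (by omega), ext_ci le_rfl]
      exact hin
  · rw [hMM, ext_G', ext_ci', Nat.add_sub_cancel, ext_p']
    exact hcl
  · simp only [ext_p hM, ext_val hM, ext_G hM, ext_ci hM]
    exact H.startIn
  · simp only [ext_p hM, ext_val hM, ext_G hM, ext_ci hM, ext_pl hM]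
    exact H.startRim
  · intro e e' hee he'
    rcases Nat.lt_or_eq_of_le (Nat.le_of_lt_succ he') with h1 | rfl
    · rw [ext_s h1, ext_s (by omega)]; exact H.dist e e' hee h1
    · rw [ext_s', ext_s hee]; exact hdist e hee
  · intro e he1 he
    rcases Nat.lt_or_eq_of_le (Nat.le_of_lt_succ he) with h1 | rfl
    · rw [ext_s h1]; exact H.av e he1 h1
    · rw [ext_s']; exact hsΦ
  · rw [ext_t hM]; exact H.ht
  · rw [ext_n hM]; exact H.hn
  · rw [ext_G (Nat.zero_le _)]; exact H.hG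
  · rw [ext_pl hM]; exact H.hpl
  · rw [ext_ci hM]; exact H.hci

/-- the start -/
theorem exists_start {k : Fin c.m} {i : Fin c.N} {t0 h : ℝ} {n0 : E2} {G0 : E2 →ᵃⁱ[ℝ] E3}
    (hR : PortR c k i G0 n0 (pt t0 h)) (Φ : Set E3) :
    ∃ d : RData c, PRoute d h Φ t0 n0 G0 k i ∧
      Entry c (d.ci d.M) (d.pl d.M) (d.G d.M) (d.n (d.M - 1)) (pt (d.t (d.M - 1)) h) ∧
      d.ci d.M = i ∧ d.pl d.M = k ∧ d.M = 1 ∧ d.G d.M (pt (d.t (d.M - 1)) h) = G0 (pt t0 h) := by
  obtain ⟨ρ, hρ⟩ := exists_refl_isometry (l := (n0, inner ℝ n0 (pt t0 h))) hR.unit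
  have hcont : Tendsto (refl (n0, inner ℝ n0 (pt t0 h))) (𝓝 (pt t0 h)) (𝓝 (pt t0 h)) := by
    have := (continuous_refl (n0, inner ℝ n0 (pt t0 h))).tendsto (pt t0 h)
    rwa [refl_self] at this
  have hG1 : ∀ y, (G0.comp ρ) y = G0 (refl (n0, inner ℝ n0 (pt t0 h)) y) := by
    intro y
    rw [← hρ]
    rfl
  have hIn : ∀ᶠ y in 𝓝 (pt t0 h), 0 < inner ℝ n0 (y - pt t0 h) →
      (G0.comp ρ) y ∈ c.cell i := by
    filter_upwards [hcont.eventually hR.inside] with y hy h0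
    rw [hG1]
    apply hy
    rw [inner_refl_sub hR.unit]
    linarith
  have hRim : ∀ᶠ y in 𝓝 (pt t0 h), inner ℝ n0 (y - pt t0 h) = 0 →
      (G0.comp ρ) y ∈ c.bcell i ∧ (G0.comp ρ) y ∉ c.V ∧ (G0.comp ρ) y ∉ c.CI k := by
    filter_upwards [hcont.eventually hR.rim] with y hy h0
    rw [hG1]
    apply hy
    rw [inner_refl_sub hR.unit, h0, neg_zero]
  have hbd : (G0.comp ρ) (pt t0 h) ∈ c.bcell i := (hRim.self_of_nhds (by simp)).1
  let d : RData c :=
    { M := 1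
      t := fun _ => t0
      n := fun _ => n0
      G := fun e => if e = 0 then G0 else G0.comp ρ
      ci := fun _ => i
      pl := fun _ => k }
  have hd0 : d.G 0 = G0 := rfl
  have hd1 : d.G 1 = G0.comp ρ := rfl
  refine ⟨d, ⟨le_rfl, fun e _ => hR.unit, fun e _ => hR.dir, ?_, fun e _ _ => hR.mem, ?_, ?_,
    ?_, ?_, ?_, hIn, hRim, ?_, ?_, rfl, rfl, rfl, rfl, rfl⟩,
    ⟨hR.unit, hR.dir, hR.mem, hIn, hbd⟩, rfl, rfl, rfl, ?_⟩
  · intro e he
    exact absurd he (by show ¬ (e + 1 < 1); omega)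
  · intro e he1 he
    exact absurd he (by show ¬ (e < 1); omega)
  · intro e he1 he
    exact absurd he (by show ¬ (e < 1); omega)
  · intro e he1 he
    exact absurd he (by show ¬ (e < 1); omega)
  · exact bcell_ccell hbd
  · exact hG1
  · intro e e' hee he
    exact absurd he (by show ¬ (e' < 1); omega)
  · intro e he1 he
    exact absurd he (by show ¬ (e < 1); omega)
  · show (G0.comp ρ) (pt t0 h) = G0 (pt t0 h)
    rw [hG1, refl_self]

/-- one move -/
theorem exists_move {S : Set E3} (hc : IsComplex S c) {d : RData c} {h : ℝ} {Φ : Set E3}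
    (hΦ : Φ.Finite) {t0 : ℝ} {n0 : E2}
    {G0 : E2 →ᵃⁱ[ℝ] E3} {k : Fin c.m} {i : Fin c.N} (H : PRoute d h Φ t0 n0 G0 k i)
    (hE : Entry c (d.ci d.M) (d.pl d.M) (d.G d.M) (d.n (d.M - 1)) (pt (d.t (d.M - 1)) h))
    {b : Fin c.N × Fin c.m} (hb : c.Move (d.ci d.M, d.pl d.M) b) :
    ∃ d' : RData c, PRoute d' h Φ t0 n0 G0 k i ∧
      Entry c (d'.ci d'.M) (d'.pl d'.M) (d'.G d'.M) (d'.n (d'.M - 1)) (pt (d'.t (d'.M - 1)) h) ∧
      d'.ci d'.M = b.1 ∧ d'.pl d'.M = b.2 ∧ d'.G d'.M (pt (d'.t (d'.M - 1)) h) ∉ Φ := by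
  have hM := H.Mpos
  have hfin : (Φ ∪ ((fun e => d.s h e) '' {e | e < d.M})).Finite :=
    hΦ.union ((Set.finite_lt_nat _).image _)
  obtain ⟨t1, t2, n1, n2, G1, G2, ht1, ht2, hn1, hd1, hc1, hc1Φ, -, hf1, he2, he2Φ, -, hin2,
    hmv2, hwrap, hcross, hE2⟩ := exists_visit hc hE hb.2.2 (fun s hs => hs) hb.2.1 hfin
  have hG1 : G1 (pt t1 h) = d.G d.M (pt t1 h) := by rw [hf1, refl_self]
  have hmv : c.MoveAt (d.ci d.M) (d.pl d.M) b.1 b.2 (G1 (pt t2 h)) :=
    hmv2.self_of_nhds (by simp)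
  have H1 : PRoute (ext d (d.M + 1) t1 n1 G1 (d.ci d.M) (d.pl d.M)) h Φ t0 n0 G0 k i := by
    refine H.step ht1 hn1 hd1 (cell_ccell hc1) (Or.inr hc1) (fun hh => hc1Φ (Or.inl hh)) ?_
      hE.mem ?_ ?_
    · intro e he hee
      exact hc1Φ (Or.inr ⟨e, he, hee⟩)
    · left
      refine ⟨?_, ?_, ?_, ?_⟩
      · rw [ext_ci le_rfl, ext_ci']
      · rw [ext_pl le_rfl, ext_pl']
      · unfold RData.IsFold
        rw [ext_G', ext_G le_rfl, ext_n', ext_p']
        exact hf1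
      · rw [ext_s', ext_ci le_rfl]
        exact hc1
    · rw [hG1]
      exact cell_ccell hc1
  obtain ⟨d1, hd1e⟩ : ∃ d1, d1 = ext d (d.M + 1) t1 n1 G1 (d.ci d.M) (d.pl d.M) := ⟨_, rfl⟩
  have hM1 : d1.M = d.M + 1 := by rw [hd1e]; rfl
  have hci1 : d1.ci d1.M = d.ci d.M := by rw [hM1, hd1e, ext_ci']
  have hpl1 : d1.pl d1.M = d.pl d.M := by rw [hM1, hd1e, ext_pl']
  have hGG1 : d1.G d1.M = G1 := by rw [hM1, hd1e, ext_G']
  have htt1 : d1.t (d1.M - 1) = t1 := by rw [hM1, hd1e, Nat.add_sub_cancel, ext_t']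
  have hpp1 : d1.p h (d1.M - 1) = pt t1 h := by rw [hM1, hd1e, Nat.add_sub_cancel, ext_p']
  have hs1 : ∀ e < d.M, d1.s h e = d.s h e := fun e he => by rw [hd1e, ext_s he]
  have hs1' : d1.s h d.M = d.G d.M (pt t1 h) := by rw [hd1e, ext_s']
  rw [← hd1e] at H1
  have H2 : PRoute (ext d1 (d1.M + 1) t2 n2 G2 b.1 b.2) h Φ t0 n0 G0 k i := by
    refine H1.step (by rw [htt1]; exact ht2) hE2.unit hE2.dir ?_ ?_ ?_ ?_ hb.2.1 ?_ ?_
    · rw [hGG1, hci1]
      exact bcell_ccell hmv.2.1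
    · left
      rw [hGG1, hci1, hpp1, hG1]
      exact hc1
    · rw [hGG1]
      exact fun hh => he2Φ (Or.inl hh)
    · intro e he
      rw [hGG1]
      rcases Nat.lt_or_eq_of_le (Nat.le_of_lt_succ (hM1 ▸ he)) with h1 | rfl
      · rw [hs1 e h1]
        intro hee
        exact he2Φ (Or.inr ⟨e, h1, hee⟩)
      · rw [hs1']
        exact cell_bcell hc1 hmv.2.1
    · by_cases hij : d.ci d.M = b.1
      · right
        left
        refine ⟨?_, ?_, ?_, ?_⟩
        · rw [ext_ci le_rfl, ext_ci', hci1, hij]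
        · unfold RData.IsFold
          rw [ext_G', ext_G le_rfl, ext_n', ext_p', hGG1]
          exact hwrap hij
        · simp only [ext_p', ext_val', ext_G le_rfl, ext_ci le_rfl]
          rw [hGG1, hci1]
          exact hin2
        · simp only [ext_p', ext_val', ext_G le_rfl, ext_ci le_rfl, ext_pl le_rfl, ext_ci',
            ext_pl']
          rw [hGG1, hci1, hpl1]
          exact hmv2
      · right
        right
        refine ⟨?_, ?_, ?_, ?_, ?_⟩
        · rw [ext_ci le_rfl, ext_ci', hci1]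
          exact hij
        · simp only [ext_val', ext_G le_rfl, ext_G']
          rw [hGG1]
          exact hcross hij
        · simp only [ext_p', ext_val', ext_G le_rfl, ext_ci le_rfl]
          rw [hGG1, hci1]
          exact hin2
        · simp only [ext_p', ext_val', ext_G', ext_ci']
          exact hE2.inside
        · simp only [ext_p', ext_val', ext_G le_rfl, ext_ci le_rfl, ext_pl le_rfl, ext_ci',
            ext_pl']
          rw [hGG1, hci1, hpl1]
          exact hmv2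
    · exact bcell_ccell hE2.bd
  refine ⟨_, H2, ?_, ?_, ?_, ?_⟩
  · show Entry c ((ext d1 (d1.M + 1) t2 n2 G2 b.1 b.2).ci (d1.M + 1))
      ((ext d1 (d1.M + 1) t2 n2 G2 b.1 b.2).pl (d1.M + 1))
      ((ext d1 (d1.M + 1) t2 n2 G2 b.1 b.2).G (d1.M + 1))
      ((ext d1 (d1.M + 1) t2 n2 G2 b.1 b.2).n (d1.M + 1 - 1))
      (pt ((ext d1 (d1.M + 1) t2 n2 G2 b.1 b.2).t (d1.M + 1 - 1)) h)
    rw [ext_ci', ext_pl', ext_G', Nat.add_sub_cancel, ext_n', ext_t']
    exact hE2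
  · exact ext_ci'
  · exact ext_pl'
  · show (ext d1 (d1.M + 1) t2 n2 G2 b.1 b.2).G (d1.M + 1)
      (pt ((ext d1 (d1.M + 1) t2 n2 G2 b.1 b.2).t (d1.M + 1 - 1)) h) ∉ Φ
    rw [ext_G', Nat.add_sub_cancel, ext_t']
    have : G2 (pt t2 h) = G1 (pt t2 h) := by
      by_cases hij : d.ci d.M = b.1
      · rw [hwrap hij, refl_self]
      · exact hcross hij _ (by simp)
    rw [this]
    exact fun hh => he2Φ (Or.inl hh)

/-- the moves along a path -/
theorem exists_moves {S : Set E3} (hc : IsComplex S c) {k : Fin c.m} {i : Fin c.N}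
    {t0 h : ℝ} {n0 : E2} {G0 : E2 →ᵃⁱ[ℝ] E3}
    (hR : PortR c k i G0 n0 (pt t0 h)) {Φ : Set E3} (hΦ : Φ.Finite)
    {b : Fin c.N × Fin c.m} (hb : Relation.ReflTransGen c.Move (i, k) b) :
    ∃ d : RData c, PRoute d h Φ t0 n0 G0 k i ∧
      Entry c (d.ci d.M) (d.pl d.M) (d.G d.M) (d.n (d.M - 1)) (pt (d.t (d.M - 1)) h) ∧
      d.ci d.M = b.1 ∧ d.pl d.M = b.2 ∧
      (d.G d.M (pt (d.t (d.M - 1)) h) = G0 (pt t0 h) ∨
        d.G d.M (pt (d.t (d.M - 1)) h) ∉ Φ) := by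
  induction hb with
  | refl =>
    obtain ⟨d, h1, h2, h3, h4, -, h5⟩ := exists_start hR Φ
    exact ⟨d, h1, h2, h3, h4, Or.inl h5⟩
  | @tail b1 c1 _ hm ih =>
    obtain ⟨d, h1, h2, h3, h4, -⟩ := ih
    have hm' : c.Move (d.ci d.M, d.pl d.M) c1 := by
      rw [h3, h4]
      exact hm
    obtain ⟨d', h1', h2', h3', h4', h5'⟩ := exists_move hc hΦ h1 h2 hm'
    exact ⟨d', h1', h2', h3', h4', Or.inr h5'⟩

/-- the last turns -/
theorem exists_turns {d : RData c} {h : ℝ} {Φ : Set E3} {t0 : ℝ} {n0 : E2}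
    {G0 : E2 →ᵃⁱ[ℝ] E3} {k : Fin c.m} {i : Fin c.N} (H : PRoute d h Φ t0 n0 G0 k i)
    {r : ℕ} {τ : ℕ → ℝ} {ν : ℕ → E2} {Γ : ℕ → (E2 →ᵃⁱ[ℝ] E3)}
    (h0 : τ 0 = d.t (d.M - 1)) (hΓ0 : Γ 0 = d.G d.M)
    (hτ : ∀ e ≤ r, τ e < τ (e + 1))
    (hturn : ∀ e, 1 ≤ e → e ≤ r → ‖ν e‖ = 1 ∧ 0 < inner ℝ (ν e) e1 ∧
        Γ (e - 1) (pt (τ e) h) ∈ c.cell (d.ci d.M) ∧
        Γ (e - 1) (pt (τ e) h) ∉ Φ ∪ ((fun e => d.s h e) '' {e | e < d.M}) ∧
        ∀ y, Γ e y = Γ (e - 1) (refl (ν e, inner ℝ (ν e) (pt (τ e) h)) y))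
    (hdist : ∀ e e', 1 ≤ e → e < e' → e' ≤ r →
        Γ (e - 1) (pt (τ e) h) ≠ Γ (e' - 1) (pt (τ e') h)) (j : ℕ) (hj : j ≤ r) :
    ∃ d' : RData c, PRoute d' h Φ t0 n0 G0 k i ∧ d'.ci d'.M = d.ci d.M ∧
      d'.pl d'.M = d.pl d.M ∧ d'.G d'.M = Γ j ∧ d'.t (d'.M - 1) = τ j ∧
      (∀ e < d'.M, (d'.s h e ∈ (fun e => d.s h e) '' {e | e < d.M}) ∨
        ∃ e', 1 ≤ e' ∧ e' ≤ j ∧ d'.s h e = Γ (e' - 1) (pt (τ e') h)) ∧
      (1 ≤ j → d'.G d'.M (d'.p h (d'.M - 1)) ∈ c.cell (d.ci d.M)) := by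
  induction j with
  | zero =>
    refine ⟨d, H, rfl, rfl, hΓ0.symm, h0.symm, ?_, ?_⟩
    · intro e he
      exact Or.inl ⟨e, he, rfl⟩
    · intro h1
      exact absurd h1 (by omega)
  | succ j ih =>
    obtain ⟨d1, H1, hci, hpl, hG, ht, hs, -⟩ := ih (by omega)
    obtain ⟨hn1, hd1, hcell, hΦ1, hf⟩ := hturn (j + 1) (by omega) hj
    rw [Nat.add_sub_cancel] at hcell hΦ1 hf
    have hM := H1.Mpos
    have hnew : Γ (j + 1) (pt (τ (j + 1)) h) = Γ j (pt (τ (j + 1)) h) := by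
      rw [hf, refl_self]
    refine ⟨ext d1 (d1.M + 1) (τ (j + 1)) (ν (j + 1)) (Γ (j + 1)) (d.ci d.M) (d.pl d.M), ?_,
      ext_ci', ext_pl', ext_G', ?_, ?_, ?_⟩
    · refine H1.step ?_ hn1 hd1 ?_ ?_ ?_ ?_ ?_ ?_ ?_
      · rw [ht]
        exact hτ j (by omega)
      · rw [hG, hci]
        exact cell_ccell hcell
      · right
        rw [hG, hci]
        exact hcell
      · rw [hG]
        exact fun hh => hΦ1 (Or.inl hh)
      · intro e he
        rw [hG]
        rcases hs e he with h1 | ⟨e', he1, he2, he3⟩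
        · intro hh
          rw [hh] at h1
          exact hΦ1 (Or.inr h1)
        · rw [he3]
          have := hdist e' (j + 1) he1 (by omega) hj
          rwa [Nat.add_sub_cancel] at this
      · have := H1.valid d1.M hM le_rfl
        rwa [hci, hpl] at this
      · left
        refine ⟨?_, ?_, ?_, ?_⟩
        · rw [ext_ci le_rfl, ext_ci', hci]
        · rw [ext_pl le_rfl, ext_pl', hpl]
        · unfold RData.IsFold
          rw [ext_G', ext_G le_rfl, ext_n', ext_p', hG]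
          exact hf
        · rw [ext_s', ext_ci le_rfl, hG, hci]
          exact hcell
      · rw [hnew]
        exact cell_ccell hcell
    · show (ext d1 (d1.M + 1) (τ (j + 1)) (ν (j + 1)) (Γ (j + 1)) (d.ci d.M)
        (d.pl d.M)).t (d1.M + 1 - 1) = _
      rw [Nat.add_sub_cancel, ext_t']
    · intro e he
      rcases Nat.lt_or_eq_of_le (Nat.le_of_lt_succ he) with h1 | rfl
      · rw [ext_s h1]
        rcases hs e h1 with h2 | ⟨e', he1, he2, he3⟩
        · exact Or.inl h2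
        · exact Or.inr ⟨e', he1, by omega, he3⟩
      · right
        refine ⟨j + 1, by omega, le_rfl, ?_⟩
        rw [ext_s', hG, Nat.add_sub_cancel]
    · intro _
      show (ext d1 (d1.M + 1) (τ (j + 1)) (ν (j + 1)) (Γ (j + 1)) (d.ci d.M)
        (d.pl d.M)).G (d1.M + 1) ((ext d1 (d1.M + 1) (τ (j + 1)) (ν (j + 1)) (Γ (j + 1))
        (d.ci d.M) (d.pl d.M)).p h (d1.M + 1 - 1)) ∈ _
      rw [ext_G', Nat.add_sub_cancel, ext_p', hnew]
      exact hcell

end RtAux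

open RtAux

theorem exists_route {S : Set E3} {c : CData} (hc : IsComplex S c) {k k' : Fin c.m}
    {i i' : Fin c.N} {t0 h : ℝ} {n0 : E2} {G0 : E2 →ᵃⁱ[ℝ] E3}
    (hR : PortR c k i G0 n0 (pt t0 h)) {t' b' : ℝ} {n' : E2} {G' : E2 →ᵃⁱ[ℝ] E3}
    (hL : PortL c k' i' G' n' (pt t' b')) (hne : G0 (pt t0 h) ≠ G' (pt t' b'))
    {Φ : Set E3} (hΦ : Φ.Finite) :
    ∃ d : RData c, IsRoute d h ∧ d.t 0 = t0 ∧ d.n 0 = n0 ∧ d.G 0 = G0 ∧ d.pl 1 = k ∧
      d.ci 1 = i ∧ d.n d.M = n' ∧ d.pl d.M = k' ∧ d.ci d.M = i' ∧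
      (∀ y, d.G (d.M + 1) y = G' (y - pt (d.t d.M) h + pt t' b')) ∧
      (∀ e, 1 ≤ e → e < d.M → d.s h e ∉ Φ) := by
  classical
  obtain ⟨d, H, hE, hci, hpl, hstart⟩ := exists_moves hc hR (Φ := Φ ∪ {G' (pt t' b')})
    (hΦ.union (Set.finite_singleton _)) (graph_connected hc (a := (i, k)) (b := (i', k')) hR.mem
    hL.mem)
  simp only at hci hpl
  have hE' := hE
  rw [hci, hpl] at hE'
  have hne' : d.G d.M (pt (d.t (d.M - 1)) h) ≠ G' (pt t' b') := by
    rcases hstart with h1 | h1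
    · rw [h1]
      exact hne
    · intro hh
      exact h1 (Or.inr hh)
  obtain ⟨r, τ, ν, Γ, hr, hτ0, hΓ0, hτ, hturn, hdist, hend⟩ := exists_finish hc hE' hL hne'
    (Φ := (Φ ∪ {G' (pt t' b')}) ∪ ((fun e => d.s h e) '' {e | e < d.M}))
    ((hΦ.union (Set.finite_singleton _)).union ((Set.finite_lt_nat _).image _))
  obtain ⟨d1, H1, hci1, hpl1, hG1, ht1, hs1, hin1⟩ := exists_turns H hτ0 hΓ0 hτ
    (by rw [hci]; exact hturn) hdist r le_rfl
  rw [hci] at hci1 hin1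
  rw [hpl] at hpl1
  have hM := H1.Mpos
  have hin1' := hin1 hr
  obtain ⟨T, hT⟩ : ∃ T : E2 →ᵃⁱ[ℝ] E3, ∀ y, T y = G' (y - pt (τ (r + 1)) h + pt t' b') := by
    refine ⟨G'.comp (AffineIsometryEquiv.constVAdd ℝ E2
      (pt t' b' - pt (τ (r + 1)) h)).toAffineIsometry, fun y => ?_⟩
    have : (G'.comp (AffineIsometryEquiv.constVAdd ℝ E2
      (pt t' b' - pt (τ (r + 1)) h)).toAffineIsometry) y =
      G' ((pt t' b' - pt (τ (r + 1)) h) + y) := rfl
    rw [this]
    congr 1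
    abel
  have hun := hL.unit
  have hend2 : ∀ y, Γ r y = G' (refl (n', inner ℝ n' (pt (τ (r + 1)) h)) y
      - pt (τ (r + 1)) h + pt t' b') := by
    intro y
    rw [← hend, refl_refl (l := (n', inner ℝ n' (pt (τ (r + 1)) h))) hun]
  have hcont : Tendsto (fun y => refl (n', inner ℝ n' (pt (τ (r + 1)) h)) y
      - pt (τ (r + 1)) h + pt t' b') (𝓝 (pt (τ (r + 1)) h)) (𝓝 (pt t' b')) := by
    have h1 : Continuous (fun y => refl (n', inner ℝ n' (pt (τ (r + 1)) h)) y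
      - pt (τ (r + 1)) h + pt t' b') :=
      ((continuous_refl _).sub continuous_const).add continuous_const
    have h2 := h1.tendsto (pt (τ (r + 1)) h)
    rwa [refl_self, sub_self, zero_add] at h2
  have hIn : ∀ᶠ y in 𝓝 (pt (τ (r + 1)) h), inner ℝ n' (y - pt (τ (r + 1)) h) < 0 →
      Γ r y ∈ c.cell i' := by
    filter_upwards [hcont.eventually hL.inside] with y hy h0
    rw [hend2]
    apply hy
    rw [add_sub_cancel_right, inner_refl_sub hun]
    linarith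
  have hRim : ∀ᶠ y in 𝓝 (pt (τ (r + 1)) h), inner ℝ n' (y - pt (τ (r + 1)) h) = 0 →
      Γ r y ∈ c.bcell i' ∧ Γ r y ∉ c.V ∧ Γ r y ∉ c.CI k' := by
    filter_upwards [hcont.eventually hL.rim] with y hy h0
    rw [hend2]
    apply hy
    rw [add_sub_cancel_right, inner_refl_sub hun, h0, neg_zero]
  have hsM : Γ r (pt (τ (r + 1)) h) = G' (pt t' b') := by
    rw [hend2, refl_self, sub_self, zero_add]
  have hbd : Γ r (pt (τ (r + 1)) h) ∈ c.bcell i' := (hRim.self_of_nhds (by simp)).1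
  obtain ⟨D, hD⟩ : ∃ D, D = ext d1 d1.M (τ (r + 1)) n' T i' k' := ⟨_, rfl⟩
  have hDM : D.M = d1.M := by rw [hD]; rfl
  have hDt : ∀ e < d1.M, D.t e = d1.t e := fun e he => by rw [hD, ext_t he]
  have hDt' : D.t d1.M = τ (r + 1) := by rw [hD, ext_t']
  have hDn : ∀ e < d1.M, D.n e = d1.n e := fun e he => by rw [hD, ext_n he]
  have hDn' : D.n d1.M = n' := by rw [hD, ext_n']
  have hDG : ∀ e ≤ d1.M, D.G e = d1.G e := fun e he => by rw [hD, ext_G he]
  have hDG' : D.G (d1.M + 1) = T := by rw [hD, ext_G']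
  have hDc : ∀ e ≤ d1.M, D.ci e = d1.ci e := fun e he => by rw [hD, ext_ci he]
  have hDl : ∀ e ≤ d1.M, D.pl e = d1.pl e := fun e he => by rw [hD, ext_pl he]
  have hDp : ∀ e < d1.M, D.p h e = d1.p h e := fun e he => by rw [hD, ext_p he]
  have hDp' : D.p h d1.M = pt (τ (r + 1)) h := by rw [hD, ext_p']
  have hDs : ∀ e < d1.M, D.s h e = d1.s h e := fun e he => by rw [hD, ext_s he]
  have hDs' : D.s h d1.M = G' (pt t' b') := by rw [hD, ext_s', hG1, hsM]
  have hDv : ∀ e < d1.M, ∀ y, D.val h e y = d1.val h e y := fun e he y => by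
    rw [hD, ext_val he]
  have hDv' : ∀ y, D.val h d1.M y = inner ℝ n' (y - pt (τ (r + 1)) h) := fun y => by
    rw [hD, ext_val']
  have hDi : D.ci d1.M = i' := by rw [hDc _ le_rfl, hci1]
  have hDk : D.pl d1.M = k' := by rw [hDl _ le_rfl, hpl1]
  refine ⟨D, ⟨by rw [hDM]; exact hM, ?_, ?_, ?_, ?_, ?_, ?_, ?_, ?_, ?_, ?_, ?_, ?_, ?_, ?_⟩,
    ?_, ?_, ?_, ?_, ?_, ?_, ?_, ?_, ?_, ?_⟩
  · intro e he
    rw [hDM] at he
    rcases Nat.lt_or_eq_of_le he with h1 | rfl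
    · rw [hDn e h1]; exact H1.unit e h1
    · rw [hDn']; exact hun
  · intro e he
    rw [hDM] at he
    rcases Nat.lt_or_eq_of_le he with h1 | rfl
    · rw [hDn e h1]; exact H1.dir e h1
    · rw [hDn']; exact hL.dir
  · intro e he
    rw [hDM] at he
    rcases Nat.lt_or_eq_of_le (show e + 1 ≤ d1.M from he) with h1 | h1
    · rw [hDt e he, hDt (e + 1) h1]; exact H1.mono e h1
    · rw [hDt e he, h1, hDt']
      have : e = d1.M - 1 := by omega
      rw [this, ht1]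
      exact hτ r le_rfl
  · intro e he1 he
    rw [hDM] at he
    rw [hDc e he, hDl e he]
    exact H1.valid e he1 he
  · intro e he1 he
    rw [hDM] at he
    rw [hD]
    exact ext_event he (H1.event e he1 he)
  · intro e he1 he
    rw [hDM] at he
    rw [hDG e he, hDc e he, hDp (e - 1) (by omega)]
    rcases Nat.lt_or_eq_of_le he with h1 | rfl
    · rw [hDp e h1]
      exact H1.closed e he1 h1
    · refine ⟨H1.closedM, ?_⟩
      rw [hDp', hG1, hci1]
      exact bcell_ccell hbd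
  · intro e he1 he
    rw [hDM] at he
    rw [hDG e he, hDc e he, hDp (e - 1) (by omega)]
    rcases Nat.lt_or_eq_of_le he with h1 | rfl
    · rw [hDp e h1]
      exact H1.innr e he1 h1
    · left
      rw [hci1]
      exact hin1'
  · rw [hD]
    exact ext_fold hM H1.startFold
  · simp only [hDp 0 hM, hDv 0 hM, hDG 1 hM, hDc 1 hM]
    exact H1.startIn
  · simp only [hDp 0 hM, hDv 0 hM, hDG 1 hM, hDc 1 hM, hDl 1 hM]
    exact H1.startRim
  · intro y
    rw [hDM, hDG', hDG _ le_rfl, hDn', hDp', hG1, hT, ← hend]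
  · rw [hDM]
    simp only [hDp', hDv', hDG _ le_rfl, hDi, hG1]
    exact hIn
  · rw [hDM]
    simp only [hDp', hDv', hDG _ le_rfl, hDi, hDk, hG1]
    exact hRim
  · intro e e' hee he'
    rw [hDM] at he'
    rcases Nat.lt_or_eq_of_le he' with h1 | rfl
    · rw [hDs e (by omega), hDs e' h1]
      exact H1.dist e e' hee h1
    · rw [hDs', hDs e hee]
      rcases Nat.eq_zero_or_pos e with rfl | h2
      · have : d1.s h 0 = G0 (pt t0 h) := by
          unfold RData.s RData.p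
          rw [H1.hG, H1.ht]
        rw [this]
        exact hne
      · intro hh
        exact H1.av e h2 hee (Or.inr hh)
  · rw [hDt 0 hM]; exact H1.ht
  · rw [hDn 0 hM]; exact H1.hn
  · rw [hDG 0 (Nat.zero_le _)]; exact H1.hG
  · rw [hDl 1 hM]; exact H1.hpl
  · rw [hDc 1 hM]; exact H1.hci
  · rw [hDM]; exact hDn'
  · rw [hDM]; exact hDk
  · rw [hDM]; exact hDi
  · intro y
    rw [hDM, hDG', hT, hDt']
  · intro e he1 he
    rw [hDM] at he
    rw [hDs e he]
    exact fun hh => H1.av e he1 he (Or.inl hh)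

end Pool.Agent.SeamS
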