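import Pool.Agent.SeamS.Exits
import Pool.Agent.SeamS.Ports
import Pool.Agent.SeamS.Route

/-!
# All routes (module L3)

Proof of `exists_chain`. By induction on `j` (`j + 1 ≤ m`) there are `x` and `rt` with `x 0 = 0` such that all properties hold for the routes `k < j`, and the distinctness for `k, l < j`. Step: let `t0 = x j + t true (pk j)`, `G0 z = T (ρ true (z - pt (x j) (y j)))` (an affine isometry; `pt t0 (H j) = q true (pk j) + pt (x j) (y j)` because of `hH`), a port by `portR_of_exit`; `G' = T (pk (j+1)) ∘ ρ false (pk (j+1))`, a port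
at `q false (pk (j+1)) = pt t' b'` by `portL_of_exit` with `v = 0`. `exists_route` with `Φ` = all exit points of all plates (both sides) and all event points of the routes `k < j`; the ends are different by `IsExits.inj`. Put `rt j = d`, `x (j+1) = d.t d.M - t'` (`Function.update`); `hy` gives `y (j + 1) = H j - b false (pk (j+1))`, so `z - pt (d.t d.M) (H j) + pt t' b' = z - pt (x (j+1)) (y (j+1))`.
Event points: `s 0 = G 0 (p 0) = pnt true (pk j)`, `s M = G M (p M) = G (M+1) (p M) = pnt false (pk (j+1))` (`endFold`: the fold fixes `p M`). Distinctness: inside one route `IsRoute.dist`; for two routes: ends are exit points (different by `IsExits.inj` and `hpk`), inner event points of the new route avoid `Φ`; the inner event points of the old routes avoid all exit points (keep this in the induction hypothesis).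
-/

namespace Pool.Agent.SeamS

open Set Filter Topology Metric Pool.Agent.Hhelper79.Seam

/-- the route `d` leads from the right exit of the plate `k`, placed at `v`, to the left exit of the plate `k'`, placed at `v'` -/
structure Link {c : CData} (x : Exits c) (d : RData c) (h : ℝ) (k k' : Fin c.m) (v v' : E2) :
    Prop where
  route : IsRoute d h
  n0 : d.n 0 = x.n true k
  nM : d.n d.M = x.n false k'
  p0 : d.p h 0 = x.q true k + v
  pM : d.p h d.M = x.q false k' + v'
  G0 : ∀ z, d.G 0 z = c.T k (x.ρ true k (z - v))
  GM : ∀ z, d.G (d.M + 1) z = c.T k' (x.ρ false k' (z - v'))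
  pl0 : d.pl 1 = k
  plM : d.pl d.M = k'

namespace ChainAux

theorem e2ext {u v : E2} (h0 : u 0 = v 0) (h1 : u 1 = v 1) : u = v := by
  ext i
  fin_cases i
  · exact h0
  · exact h1

theorem pt0 (a b : ℝ) : (pt a b) 0 = a := by simp [pt]

theorem pt1 (a b : ℝ) : (pt a b) 1 = b := by simp [pt]

theorem pt_add (a b a' b' : ℝ) : pt a b + pt a' b' = pt (a + a') (b + b') := by
  apply e2ext
  · simp [pt]
  · simp [pt]

theorem refl_self {n p : E2} : refl (n, inner ℝ n p) p = p := by
  simp [refl]

/-- translation -/
noncomputable def tr (v : E2) : E2 →ᵃⁱ[ℝ] E2 :=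
  (AffineIsometryEquiv.constVAdd ℝ E2 (-v)).toAffineIsometry

theorem tr_apply (v z : E2) : tr v z = z - v := by
  simp [tr, sub_eq_add_neg, add_comm]

/-- event points of a link -/
theorem s_zero {c : CData} {x : Exits c} {d : RData c} {h : ℝ} {k k' : Fin c.m} {v v' : E2}
    (hl : Link x d h k k' v v') : d.s h 0 = x.pnt true k := by
  unfold RData.s Exits.pnt
  rw [hl.G0, hl.p0]
  simp

theorem s_last {c : CData} {x : Exits c} {d : RData c} {h : ℝ} {k k' : Fin c.m} {v v' : E2}
    (hl : Link x d h k k' v v') : d.s h d.M = x.pnt false k' := by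
  have h1 := hl.route.endFold (d.p h d.M)
  rw [refl_self, hl.GM, hl.pM] at h1
  unfold RData.s Exits.pnt
  rw [hl.pM, ← h1]
  simp

/-- one step: a route from the plate `k` to the plate `k'` -/
theorem step {S : Set E3} {c : CData} (hc : IsComplex S c) {R ε : ℝ} {x : Exits c}
    (hx : IsExits R ε x) (k k' : Fin c.m) (X y H y' : ℝ) (hH : H = y + x.b true k)
    (hy : y' = H - x.b false k') {Φ : Set E3} (hΦ : Φ.Finite) :
    ∃ (X' : ℝ) (d : RData c), Link x d H k k' (pt X y) (pt X' y') ∧
      ∀ e, 1 ≤ e → e < d.M → d.s H e ∉ Φ := by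
  obtain ⟨i, hR⟩ := portR_of_exit hc (hx.right k) (hx.notV true k) (pt X y)
    ((c.T k).comp ((x.ρ true k).comp (tr (pt X y)))) (by
      intro z
      simp [tr_apply])
  obtain ⟨i', hL⟩ := portL_of_exit hc (hx.left k') (hx.notV false k') 0
    ((c.T k').comp (x.ρ false k')) (by intro z; simp)
  have e1' : pt (x.t true k) (x.b true k) + pt X y = pt (x.t true k + X) H := by
    rw [pt_add, hH, add_comm y]
  rw [e1'] at hR
  rw [add_zero] at hL
  have hne : ((c.T k).comp ((x.ρ true k).comp (tr (pt X y)))) (pt (x.t true k + X) H) ≠
      ((c.T k').comp (x.ρ false k')) (pt (x.t false k') (x.b false k')) := by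
    have h1 : ((c.T k).comp ((x.ρ true k).comp (tr (pt X y)))) (pt (x.t true k + X) H) =
        x.pnt true k := by
      rw [← e1']
      simp [tr_apply, Exits.pnt, Exits.q]
    have h2 : ((c.T k').comp (x.ρ false k')) (pt (x.t false k') (x.b false k')) =
        x.pnt false k' := by
      simp [Exits.pnt, Exits.q]
    rw [h1, h2]
    apply hx.inj
    simp
  obtain ⟨d, hr, ht0, hn0, hG0, hpl1, hci1, hnM, hplM, hciM, hGM, hav⟩ :=
    exists_route hc hR hL hne hΦ
  have e2' : pt (x.t false k') (x.b false k') + pt (d.t d.M - x.t false k') y' =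
      pt (d.t d.M) H := by
    rw [pt_add, hy]
    congr 1 <;> ring
  refine ⟨d.t d.M - x.t false k', d, ⟨hr, hn0, hnM, ?_, ?_, ?_, ?_, hpl1, hplM⟩, hav⟩
  · unfold RData.p Exits.q
    rw [ht0, e1']
  · unfold RData.p Exits.q
    rw [e2']
  · intro z
    rw [hG0]
    simp [tr_apply]
  · intro z
    rw [hGM]
    have : z - pt (d.t d.M) H + pt (x.t false k') (x.b false k') =
        z - pt (d.t d.M - x.t false k') y' := by
      rw [← e2']
      abel
    rw [this]
    simp

end ChainAux

open ChainAux in
theorem exists_chain {S : Set E3} {c : CData} (hc : IsComplex S c) {R ε : ℝ} {x : Exits c}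
    (hx : IsExits R ε x) {pk : ℕ → Fin c.m}
    (hpk : ∀ k l, k < c.m → l < c.m → pk k = pk l → k = l) {y H : ℕ → ℝ}
    (hH : ∀ k, H k = y k + x.b true (pk k)) (hy : ∀ k, y (k + 1) = H k - x.b false (pk (k + 1))) :
    ∃ (X : ℕ → ℝ) (rt : ℕ → RData c),
      (∀ k, k + 1 < c.m → Link x (rt k) (H k) (pk k) (pk (k + 1)) (pt (X k) (y k))
        (pt (X (k + 1)) (y (k + 1)))) ∧
      (∀ k l e e', k + 1 < c.m → l + 1 < c.m → e ≤ (rt k).M → e' ≤ (rt l).M →
        (k, e) ≠ (l, e') → (rt k).s (H k) e ≠ (rt l).s (H l) e') := by
  classical
  -- all exit points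
  set Φ0 : Set E3 := range (fun sk : Bool × Fin c.m => x.pnt sk.1 sk.2) with hΦ0
  have hΦ0f : Φ0.Finite := finite_range _
  have key : ∀ j : ℕ, ∃ (X : ℕ → ℝ) (rt : ℕ → RData c),
      (∀ k, k < j → k + 1 < c.m → Link x (rt k) (H k) (pk k) (pk (k + 1)) (pt (X k) (y k))
        (pt (X (k + 1)) (y (k + 1)))) ∧
      (∀ k l e e', k < j → l < j → k + 1 < c.m → l + 1 < c.m → e ≤ (rt k).M → e' ≤ (rt l).M →
        (k, e) ≠ (l, e') → (rt k).s (H k) e ≠ (rt l).s (H l) e') ∧
      (∀ k e, k < j → k + 1 < c.m → 1 ≤ e → e < (rt k).M → (rt k).s (H k) e ∉ Φ0) := by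
    intro j
    induction j with
    | zero =>
      -- a default route
      obtain ⟨u, hu⟩ := hc.neΛ (pk 0)
      have h1 : c.T (pk 0) u ∈ c.CC (pk 0) := ⟨u, fun l hl => (hu l hl).le, rfl⟩
      have h2 := hc.sub (pk 0) h1
      rw [hc.cover] at h2
      obtain ⟨i, -⟩ := mem_iUnion.1 h2
      refine ⟨fun _ => 0, fun _ => ⟨0, fun _ => 0, fun _ => 0, fun _ => c.T (pk 0), fun _ => i,
        fun _ => pk 0⟩, ?_, ?_, ?_⟩
      · intro k hk; omega
      · intro k l e e' hk; omega
      · intro k e hk; omega
    | succ j ih =>
      obtain ⟨X, rt, hL, hD, hE⟩ := ih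
      by_cases hj : j + 1 < c.m
      swap
      · refine ⟨X, rt, ?_, ?_, ?_⟩
        · intro k hk hk1
          exact hL k (by omega) hk1
        · intro k l e e' hk hl hk1 hl1
          exact hD k l e e' (by omega) (by omega) hk1 hl1
        · intro k e hk hk1
          exact hE k e (by omega) hk1
      -- old event points
      set Φ1 : Set E3 := ⋃ k ∈ Finset.range j, ⋃ e ∈ Finset.range ((rt k).M + 1),
        {(rt k).s (H k) e} with hΦ1
      have hΦ1f : Φ1.Finite := by
        apply Set.Finite.biUnion (Finset.finite_toSet _)
        intro k _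
        apply Set.Finite.biUnion (Finset.finite_toSet _)
        intro e _
        exact finite_singleton _
      obtain ⟨X', d, hd, hav⟩ := step hc hx (pk j) (pk (j + 1)) (X j) (y j) (H j) (y (j + 1))
        (hH j) (hy j) (hΦ0f.union hΦ1f)
      have hav0 : ∀ e, 1 ≤ e → e < d.M → d.s (H j) e ∉ Φ0 := fun e he he' h =>
        hav e he he' (Or.inl h)
      have hav1 : ∀ e, 1 ≤ e → e < d.M → ∀ k e', k < j → e' ≤ (rt k).M →
          d.s (H j) e ≠ (rt k).s (H k) e' := by
        intro e he he' k e' hk hek h
        apply hav e he he'
        right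
        rw [hΦ1]
        simp only [mem_iUnion, mem_singleton_iff]
        exact ⟨k, Finset.mem_range.2 hk, e', Finset.mem_range.2 (by omega), h⟩
      -- new route against old route
      have hnew : ∀ e, e ≤ d.M → ∀ k e', k < j → k + 1 < c.m → e' ≤ (rt k).M →
          d.s (H j) e ≠ (rt k).s (H k) e' := by
        intro e he k e' hk hk1 hek
        by_cases hin : 1 ≤ e ∧ e < d.M
        · exact hav1 e hin.1 hin.2 k e' hk hek
        -- `e` is an end
        have hl := hL k hk hk1
        have hend : ∃ s q, d.s (H j) e = x.pnt s q ∧ ((s = true ∧ q = pk j) ∨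
            (s = false ∧ q = pk (j + 1))) := by
          rcases Nat.eq_zero_or_pos e with h0 | h0
          · subst h0
            exact ⟨true, pk j, s_zero hd, Or.inl ⟨rfl, rfl⟩⟩
          · have : e = d.M := by
              by_contra hne
              exact hin ⟨h0, by omega⟩
            subst this
            exact ⟨false, pk (j + 1), s_last hd, Or.inr ⟨rfl, rfl⟩⟩
        obtain ⟨s, q, hs, hsq⟩ := hend
        by_cases hin' : 1 ≤ e' ∧ e' < (rt k).M
        · intro h
          apply hE k e' hk hk1 hin'.1 hin'.2
          rw [hΦ0, ← h, hs]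
          exact ⟨(s, q), rfl⟩
        have hend' : ∃ s' q', (rt k).s (H k) e' = x.pnt s' q' ∧ ((s' = true ∧ q' = pk k) ∨
            (s' = false ∧ q' = pk (k + 1))) := by
          rcases Nat.eq_zero_or_pos e' with h0 | h0
          · subst h0
            exact ⟨true, pk k, s_zero hl, Or.inl ⟨rfl, rfl⟩⟩
          · have : e' = (rt k).M := by
              by_contra hne
              exact hin' ⟨h0, by omega⟩
            subst this
            exact ⟨false, pk (k + 1), s_last hl, Or.inr ⟨rfl, rfl⟩⟩
        obtain ⟨s', q', hs', hsq'⟩ := hend'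
        rw [hs, hs']
        apply hx.inj
        intro h
        have h1 : s = s' := congrArg Prod.fst h
        have h2 : q = q' := congrArg Prod.snd h
        rcases hsq with ⟨a1, a2⟩ | ⟨a1, a2⟩ <;> rcases hsq' with ⟨b1, b2⟩ | ⟨b1, b2⟩
        · have := hpk j k (by omega) (by omega) (by rw [← a2, ← b2, h2])
          omega
        · rw [a1, b1] at h1; exact absurd h1 (by simp)
        · rw [a1, b1] at h1; exact absurd h1 (by simp)
        · have := hpk (j + 1) (k + 1) (by omega) (by omega) (by rw [← a2, ← b2, h2])
          omega
      refine ⟨Function.update X (j + 1) X', Function.update rt j d, ?_, ?_, ?_⟩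
      · intro k hk hk1
        rcases Nat.lt_or_ge k j with h | h
        · rw [Function.update_of_ne (by omega), Function.update_of_ne (by omega),
            Function.update_of_ne (by omega)]
          exact hL k h hk1
        · have : k = j := by omega
          subst this
          rw [Function.update_self, Function.update_self, Function.update_of_ne (by omega)]
          exact hd
      · intro k l e e' hk hl hk1 hl1
        rcases Nat.lt_or_ge k j with h | h
        · rcases Nat.lt_or_ge l j with h' | h'
          · rw [Function.update_of_ne (by omega), Function.update_of_ne (by omega)]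
            exact hD k l e e' h h' hk1 hl1
          · have : l = j := by omega
            subst this
            rw [Function.update_self, Function.update_of_ne (by omega)]
            intro he he' _
            exact (hnew e' he' k e h hk1 he).symm
        · have : k = j := by omega
          subst this
          rcases Nat.lt_or_ge l k with h' | h'
          · rw [Function.update_self, Function.update_of_ne (by omega)]
            intro he he' _
            exact hnew e he l e' h' hl1 he'
          · have : l = k := by omega
            subst this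
            rw [Function.update_self]
            intro he he' hne
            rcases Nat.lt_trichotomy e e' with h1 | h1 | h1
            · exact hd.route.dist e e' h1 he'
            · exact absurd (by rw [h1]) hne
            · exact (hd.route.dist e' e h1 he).symm
      · intro k e hk hk1
        rcases Nat.lt_or_ge k j with h | h
        · rw [Function.update_of_ne (by omega)]
          exact hE k e h hk1
        · have : k = j := by omega
          subst this
          rw [Function.update_self]
          exact hav0 e
  obtain ⟨X, rt, hL, hD, -⟩ := key c.m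
  exact ⟨X, rt, fun k hk => hL k (by omega) hk,
    fun k l e e' hk hl => hD k l e e' (by omega) (by omega) hk hl⟩

end Pool.Agent.SeamS
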