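import Pool.Agent.SeamS.AsmDefs
import Pool.Agent.SeamS.Chain
import Pool.Agent.SeamS.Beads

/-!
# Existence of the assembled paper (module L4)

Proof of `exists_asm`. `m = c.m ≥ 1`, `pk k = ⟨k % m, _⟩`. Choose `r > 0` with `Hull (Λ k) ⊆ closedBall 0 r` for all `k` (`bddΛ`). `W = 4 r`, `cc = r`, `R = cc + 26 W`, `ε = r / (2 m)`. `exists_exits` gives `x`. Heights: `y 0 = 2 r`, `H k = y k + b true (pk k)`, `y (k+1) = H k - b false (pk (k+1))` (recursion). For `k < m`: `|y k - 2 r| ≤ 2 k ε ≤ r`, so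
`r ≤ y k ≤ 3 r` and `0 ≤ H k ≤ 4 r = W`. `exists_chain` gives `X`, `rt`. From `ExitR.far`: `R² ≤ t² + b²`, `|b| ≤ W ≤ R`, so `t true ≥ R - W = cc + 25 W`; same for `- t false`. `Link.p0` (first coordinate): `(rt k).t 0 = t true (pk k) + X k`, `(rt k).t M = t false (pk (k+1)) + X (k+1)`, and `t 0 < t M` (`mono`, `Mpos`): this gives `posR`, `posL` and `gap`: `X (k+1) - X k ≥ 2 (R - W) = 2 cc + 50 W`.
`η`: a positive number, at most `W`, at most half of all the distances of different event points (finitely many pairs `(k, e)`, `e ≤ (rt k).M`, `k + 1 < m`), and at most the radii `r_k` such that `FW w = ρ` and `posW w` is constant on the balls of radius `r_k` about the exit points `q true (pk k)`, `q false (pk (k+1))`: `ExitR.iso`; for the sign: `q` is a regular point of `FW w` for a big square `X'`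
(`Reg X' (FW w) q` because `FW w = ρ` near `q`), and `SignOn.const` of `FW_signOn`. Note `ep k 0 = q true (pk k) + ctr k` (`Link.p0`), `ep k M = q false (pk (k+1)) + ctr (k+1)`.
`δ = W / 2 ^ (n + 1)`, `n` so large that `δ ≤ δ0` for the `δ0` of `exists_thin` for all routes, and `2 δ ≤ η'` for all the numbers `η'` of `ExitR.before`, `ExitL.before`. `exists_beads` with these `m, W, cc, X, H, n` gives `a₀, b₀, F, upF`, `Q = F '' P`; choose the `c' k`. 
`inbead`: `|z - ctr k| ≤ (cc + 3 W) + W ≤ R` (`IsExits.ball`; norm of a vector of the plane is at most the sum of the absolute values of the coordinates). `inR`: with `u = z - ctr k`: `0 ≤ u 0`, `|u 1 - b| = |z 1 - H k| ≤ 2 δ`, `⟪n, u - pt t b⟫ = ev k 0 z ≤ 0`: `ExitR.before`. `inL` in the same way. `plate`: `|u 0|, |u 1| ≤ ‖u‖ ≤ r`.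
`Qpoly`: `FoldOn.pieces` and `Pieced.polySet_image`. `sep`: choice of `η`. `startpl`, `endpl`, `G0`, `GM`: `Link`. The rest is in `exists_beads`.
-/

namespace Pool.Agent.SeamS

open Set Filter Topology Metric Pool.Agent.Hhelper79.Seam

namespace AsmEx

/-- a condition near a point holds on all small balls -/
theorem ev_ball {p : E2} {Q : E2 → Prop} (h : ∀ᶠ z in 𝓝 p, Q z) :
    ∀ᶠ η in 𝓝[>] (0 : ℝ), ∀ z ∈ ball p η, Q z := by
  obtain ⟨r, hr, hb⟩ := Metric.eventually_nhds_iff.1 h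
  filter_upwards [Ioo_mem_nhdsGT hr] with η hη z hz
  exact hb (lt_trans hz hη.2)

theorem ev_le {d : ℝ} (h : 0 < d) : ∀ᶠ η in 𝓝[>] (0 : ℝ), η ≤ d := by
  filter_upwards [Ioo_mem_nhdsGT h] with η hη
  exact hη.2.le

theorem ev_imp {P : Prop} {Q : ℝ → Prop} (h : P → ∀ᶠ η in 𝓝[>] (0 : ℝ), Q η) :
    ∀ᶠ η in 𝓝[>] (0 : ℝ), P → Q η := by
  by_cases hP : P
  · filter_upwards [h hP] with η hη _
    exact hη
  · exact Eventually.of_forall fun _ h' => absurd h' hP

/-- the sign of a composition of folds is constant near a point where the composition is an isometry -/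
theorem pos_const {w : List (E2 × ℝ)} (hw : ∀ l ∈ w, ‖l.1‖ = 1) {p : E2} {ρ : E2 →ᵃⁱ[ℝ] E2}
    (h : ∀ᶠ y in 𝓝 p, FW w y = ρ y) : ∀ᶠ y in 𝓝 p, (posW w y ↔ posW w p) := by
  obtain ⟨X, hX⟩ : ∃ X : Set E2, X = {y : E2 | y 0 ∈ Icc (p 0 - 1) (p 0 + 1) ∧
    y 1 ∈ Icc (p 1 - 1) (p 1 + 1)} := ⟨_, rfl⟩
  have hXP : PolySet X := by
    rw [hX]
    exact Beads.polySet_rect (by linarith) (by linarith)
  have hXn : X ∈ 𝓝 p := by
    have h0 : ∀ i : Fin 2, ∀ᶠ y in 𝓝 p, y i ∈ Icc (p i - 1) (p i + 1) := by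
      intro i
      have hcx : Continuous (fun y : E2 => y i) := by fun_prop
      exact hcx.continuousAt.eventually_mem (Icc_mem_nhds (by linarith) (by linarith))
    rw [hX]
    filter_upwards [h0 0, h0 1] with y h1 h2
    exact ⟨h1, h2⟩
  have hR : Reg X (FW w) p := by
    refine ⟨X ∩ {y | FW w y = ρ y}, inter_mem hXn h, inter_subset_left, ?_⟩
    intro x hx y hy hxy
    have h1 : FW w x = ρ x := hx.2
    have h2 : FW w y = ρ y := hy.2
    rw [h1, h2] at hxy
    exact ρ.injective hxy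
  exact (FW_signOn hw hXP).const p hR

/-- a condition near `u` holds on small balls near `u + v`, for the translated point -/
theorem iso_ball {w : List (E2 × ℝ)} (hw : ∀ l ∈ w, ‖l.1‖ = 1) {u v p : E2} {ρ : E2 →ᵃⁱ[ℝ] E2}
    (h : ∀ᶠ y in 𝓝 u, FW w y = ρ y) (hp : p = u + v) :
    ∀ᶠ η in 𝓝[>] (0 : ℝ), ∀ z ∈ ball p η, FW w (z - v) = ρ (z - v) ∧
      (posW w (z - v) ↔ posW w (p - v)) := by
  apply ev_ball
  have hpu : p - v = u := by rw [hp, add_sub_cancel_right]
  have h1 : Tendsto (fun z : E2 => z - v) (𝓝 p) (𝓝 u) := by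
    have h2 : Continuous fun z : E2 => z - v := by fun_prop
    have h3 := h2.tendsto p
    rw [hpu] at h3
    exact h3
  rw [hpu]
  exact (h1.eventually h).and (h1.eventually (pos_const hw h))

theorem far_bound {R W t b : ℝ} (hW : 0 < W) (hWR : W ≤ R) (h : R ^ 2 ≤ t ^ 2 + b ^ 2) (ht : 0 < t)
    (hb : |b| ≤ W) : R - W ≤ t := by
  by_contra h1
  rw [not_le] at h1
  have h2 : b ^ 2 ≤ W ^ 2 := by
    rw [← sq_abs b]
    exact pow_le_pow_left₀ (abs_nonneg b) hb 2
  have h3 : t ^ 2 < (R - W) ^ 2 := pow_lt_pow_left₀ h1 ht.le (by norm_num)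
  nlinarith

theorem t_mono {c : CData} {d : RData c} {h : ℝ} (hd : IsRoute d h) : d.t 0 < d.t d.M := by
  have h1 : ∀ e, e < d.M → d.t 0 < d.t (e + 1) := by
    intro e
    induction e with
    | zero => intro he; exact hd.mono 0 he
    | succ e ih =>
      intro he
      exact (ih (by omega)).trans (hd.mono (e + 1) he)
  have h2 := h1 (d.M - 1) (by have := hd.Mpos; omega)
  have h3 : d.M - 1 + 1 = d.M := by have := hd.Mpos; omega
  rwa [h3] at h2

/-- the heights of the plates -/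
noncomputable def ht (r : ℝ) (b b' : ℕ → ℝ) (k : ℕ) : ℝ :=
  2 * r + ∑ i ∈ Finset.range k, (b i - b' (i + 1))

theorem ht_bound {r ε : ℝ} {b b' : ℕ → ℝ} (hb : ∀ i, |b i| ≤ ε) (hb' : ∀ i, |b' i| ≤ ε) (k : ℕ) :
    |ht r b b' k - 2 * r| ≤ 2 * k * ε := by
  have h1 : ht r b b' k - 2 * r = ∑ i ∈ Finset.range k, (b i - b' (i + 1)) := by
    rw [ht]; ring
  rw [h1]
  calc |∑ i ∈ Finset.range k, (b i - b' (i + 1))|
      ≤ ∑ i ∈ Finset.range k, |b i - b' (i + 1)| := Finset.abs_sum_le_sum_abs _ _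
    _ ≤ ∑ _i ∈ Finset.range k, 2 * ε := by
        apply Finset.sum_le_sum
        intro i _
        have h2 := abs_sub (b i) (b' (i + 1))
        linarith [hb i, hb' (i + 1)]
    _ = 2 * k * ε := by
        rw [Finset.sum_const, Finset.card_range, nsmul_eq_mul]
        ring

/-- the finite choice of the small constant `η` -/
theorem exists_eta {c : CData} {R ε W : ℝ} {x : Exits c} (hx : IsExits R ε x) (hW : 0 < W)
    (hΛ : ∀ k, ∀ l ∈ c.Λ k, ‖l.1‖ = 1) {pk : ℕ → Fin c.m} {y H X : ℕ → ℝ} {rt : ℕ → RData c}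
    (hL : ∀ k, k + 1 < c.m → Link x (rt k) (H k) (pk k) (pk (k + 1)) (pt (X k) (y k))
        (pt (X (k + 1)) (y (k + 1))))
    (hs : ∀ k l e e', k + 1 < c.m → l + 1 < c.m → e ≤ (rt k).M → e' ≤ (rt l).M →
        (k, e) ≠ (l, e') → (rt k).s (H k) e ≠ (rt l).s (H l) e') :
    ∃ η : ℝ, 0 < η ∧ η ≤ W ∧
      (∀ k l e e', k + 1 < c.m → l + 1 < c.m → e ≤ (rt k).M → e' ≤ (rt l).M →
        (k, e) ≠ (l, e') → 2 * η ≤ dist ((rt k).s (H k) e) ((rt l).s (H l) e')) ∧
      (∀ k, k + 1 < c.m → ∀ z ∈ ball ((rt k).p (H k) 0) η,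
        FW (x.w (pk k)) (z - pt (X k) (y k)) = x.ρ true (pk k) (z - pt (X k) (y k)) ∧
        (posW (x.w (pk k)) (z - pt (X k) (y k)) ↔
          posW (x.w (pk k)) ((rt k).p (H k) 0 - pt (X k) (y k)))) ∧
      (∀ k, k + 1 < c.m → ∀ z ∈ ball ((rt k).p (H k) (rt k).M) η,
        FW (x.w (pk (k + 1))) (z - pt (X (k + 1)) (y (k + 1))) =
          x.ρ false (pk (k + 1)) (z - pt (X (k + 1)) (y (k + 1))) ∧
        (posW (x.w (pk (k + 1))) (z - pt (X (k + 1)) (y (k + 1))) ↔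
          posW (x.w (pk (k + 1))) ((rt k).p (H k) (rt k).M - pt (X (k + 1)) (y (k + 1))))) := by
  have hw : ∀ k, ∀ l ∈ x.w k, ‖l.1‖ = 1 := fun k l hl => hΛ k l (hx.word k l hl)
  have h1 : ∀ᶠ η in 𝓝[>] (0 : ℝ), ∀ k ∈ Iio c.m, ∀ l ∈ Iio c.m, ∀ e ∈ Iic (rt k).M,
      ∀ e' ∈ Iic (rt l).M, (k + 1 < c.m ∧ l + 1 < c.m ∧ (k, e) ≠ (l, e')) →
        2 * η ≤ dist ((rt k).s (H k) e) ((rt l).s (H l) e') := by
    refine (Filter.eventually_all_finite (finite_Iio c.m)).2 fun k _ => ?_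
    refine (Filter.eventually_all_finite (finite_Iio c.m)).2 fun l _ => ?_
    refine (Filter.eventually_all_finite (finite_Iic _)).2 fun e he => ?_
    refine (Filter.eventually_all_finite (finite_Iic _)).2 fun e' he' => ?_
    refine ev_imp fun ⟨hk, hl, hne⟩ => ?_
    have h2 : 0 < dist ((rt k).s (H k) e) ((rt l).s (H l) e') :=
      dist_pos.2 (hs k l e e' hk hl he he' hne)
    filter_upwards [ev_le (half_pos h2)] with η hη
    linarith
  have h2 : ∀ᶠ η in 𝓝[>] (0 : ℝ), ∀ k ∈ Iio c.m, k + 1 < c.m →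
      ∀ z ∈ ball ((rt k).p (H k) 0) η,
        FW (x.w (pk k)) (z - pt (X k) (y k)) = x.ρ true (pk k) (z - pt (X k) (y k)) ∧
        (posW (x.w (pk k)) (z - pt (X k) (y k)) ↔
          posW (x.w (pk k)) ((rt k).p (H k) 0 - pt (X k) (y k))) := by
    refine (Filter.eventually_all_finite (finite_Iio c.m)).2 fun k _ => ?_
    refine ev_imp fun hk => ?_
    exact iso_ball (hw _) (hx.right (pk k)).iso (hL k hk).p0
  have h3 : ∀ᶠ η in 𝓝[>] (0 : ℝ), ∀ k ∈ Iio c.m, k + 1 < c.m →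
      ∀ z ∈ ball ((rt k).p (H k) (rt k).M) η,
        FW (x.w (pk (k + 1))) (z - pt (X (k + 1)) (y (k + 1))) =
          x.ρ false (pk (k + 1)) (z - pt (X (k + 1)) (y (k + 1))) ∧
        (posW (x.w (pk (k + 1))) (z - pt (X (k + 1)) (y (k + 1))) ↔
          posW (x.w (pk (k + 1))) ((rt k).p (H k) (rt k).M - pt (X (k + 1)) (y (k + 1)))) := by
    refine (Filter.eventually_all_finite (finite_Iio c.m)).2 fun k _ => ?_
    refine ev_imp fun hk => ?_
    exact iso_ball (hw _) (hx.left (pk (k + 1))).iso (hL k hk).pM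
  obtain ⟨η, ⟨⟨⟨h4, h5⟩, h6⟩, h7⟩, h8⟩ :=
    ((((ev_le hW).and h1).and h2).and h3 |>.and self_mem_nhdsWithin).exists
  exact ⟨η, h8, h4, fun k l e e' hk hl he he' hne =>
    h5 k (by rw [mem_Iio]; omega) l (by rw [mem_Iio]; omega) e he e' he' ⟨hk, hl, hne⟩,
    fun k hk => h6 k (by rw [mem_Iio]; omega) hk, fun k hk => h7 k (by rw [mem_Iio]; omega) hk⟩

/-- the finite choice of `n` -/
theorem exists_n {S : Set E3} {c : CData} (hc : IsComplex S c) {R ε W η : ℝ} {x : Exits c}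
    (hx : IsExits R ε x) (hW : 0 < W) (hη : 0 < η)
    {pk : ℕ → Fin c.m} {H : ℕ → ℝ} {rt : ℕ → RData c}
    (hL : ∀ k, k + 1 < c.m → IsRoute (rt k) (H k)) :
    ∃ n : ℕ, ∀ k, k + 1 < c.m →
      (∀ c' : ℝ, |H k - c'| ≤ W / 2 ^ (n + 1) → IsThin (rt k) (H k) η c' (W / 2 ^ (n + 1))) ∧
      (∀ u : E2, 0 ≤ u 0 → |u 1 - x.b true (pk k)| ≤ 2 * (W / 2 ^ (n + 1)) →
        inner ℝ (x.n true (pk k)) (u - x.q true (pk k)) ≤ 0 →
          FW (x.w (pk k)) u ∈ Hull (c.Λ (pk k))) ∧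
      (∀ u : E2, u 0 ≤ 0 → |u 1 - x.b false (pk (k + 1))| ≤ 2 * (W / 2 ^ (n + 1)) →
        0 ≤ inner ℝ (x.n false (pk (k + 1))) (u - x.q false (pk (k + 1))) →
          FW (x.w (pk (k + 1))) u ∈ Hull (c.Λ (pk (k + 1)))) := by
  have h1 : ∀ᶠ δ in 𝓝[>] (0 : ℝ), ∀ k ∈ Iio c.m, k + 1 < c.m →
      (∀ c' : ℝ, |H k - c'| ≤ δ → IsThin (rt k) (H k) η c' δ) ∧
      (∀ u : E2, 0 ≤ u 0 → |u 1 - x.b true (pk k)| ≤ 2 * δ →
        inner ℝ (x.n true (pk k)) (u - x.q true (pk k)) ≤ 0 →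
          FW (x.w (pk k)) u ∈ Hull (c.Λ (pk k))) ∧
      (∀ u : E2, u 0 ≤ 0 → |u 1 - x.b false (pk (k + 1))| ≤ 2 * δ →
        0 ≤ inner ℝ (x.n false (pk (k + 1))) (u - x.q false (pk (k + 1))) →
          FW (x.w (pk (k + 1))) u ∈ Hull (c.Λ (pk (k + 1)))) := by
    refine (Filter.eventually_all_finite (finite_Iio c.m)).2 fun k _ => ?_
    refine ev_imp fun hk => ?_
    obtain ⟨δ0, hδ0, hthin⟩ := exists_thin hc (hL k hk) hη
    obtain ⟨η1, hη1, hb1⟩ := (hx.right (pk k)).before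
    obtain ⟨η2, hη2, hb2⟩ := (hx.left (pk (k + 1))).before
    filter_upwards [ev_le hδ0, ev_le (half_pos hη1), ev_le (half_pos hη2),
      self_mem_nhdsWithin] with δ hδ1 hδ2 hδ3 hδ
    refine ⟨fun c' hc' => hthin δ c' hδ hδ1 hc', ?_, ?_⟩
    · intro u hu0 hu1 hu2
      exact hb1 u hu0 (by linarith) hu2
    · intro u hu0 hu1 hu2
      exact hb2 u hu0 (by linarith) hu2
  have h2 : Tendsto (fun n : ℕ => W / 2 ^ (n + 1)) atTop (𝓝[>] (0 : ℝ)) := by
    rw [tendsto_nhdsWithin_iff]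
    constructor
    · have h3 : Tendsto (fun n : ℕ => W * (1 / 2 : ℝ) ^ (n + 1)) atTop (𝓝 (W * 0)) :=
        ((tendsto_pow_atTop_nhds_zero_of_lt_one (by norm_num) (by norm_num)).comp
          (tendsto_add_atTop_nat 1)).const_mul W
      rw [mul_zero] at h3
      refine h3.congr fun n => ?_
      rw [one_div, inv_pow]
      rfl
    · exact Eventually.of_forall fun n => by
        rw [mem_Ioi]; positivity
  obtain ⟨n, hn⟩ := (h2.eventually h1).exists
  exact ⟨n, fun k hk => hn k (by rw [mem_Iio]; omega) hk⟩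

end AsmEx

open AsmEx

theorem exists_asm {S : Set E3} {c : CData} (hc : IsComplex S c) : ∃ a : AData c, IsAsm S a := by
  have hm := hc.mpos
  have hm' : (0 : ℝ) < (c.m : ℝ) := by exact_mod_cast hm
  -- the order of the plates
  obtain ⟨pk, hpk⟩ : ∃ pk : ℕ → Fin c.m, ∀ k, pk k = ⟨k % c.m, Nat.mod_lt _ hm⟩ := ⟨_, fun _ => rfl⟩
  have hinj : ∀ k l, k < c.m → l < c.m → pk k = pk l → k = l := by
    intro k l hk hl h
    rw [hpk, hpk, Fin.mk.injEq, Nat.mod_eq_of_lt hk, Nat.mod_eq_of_lt hl] at h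
    exact h
  have hsurj : ∀ q, ∃ k < c.m, pk k = q := by
    intro q
    refine ⟨q.1, q.2, ?_⟩
    rw [hpk]
    ext
    exact Nat.mod_eq_of_lt q.2
  -- the radius
  obtain ⟨r, hr, hrΛ⟩ : ∃ r > 0, ∀ k, Hull (c.Λ k) ⊆ closedBall (0 : E2) r := by
    have hb : Bornology.IsBounded (⋃ k, Hull (c.Λ k)) :=
      Bornology.isBounded_iUnion.2 hc.bddΛ
    obtain ⟨r, hr, hs⟩ := hb.subset_closedBall_lt 0 0
    exact ⟨r, hr, fun k => (subset_iUnion (fun k => Hull (c.Λ k)) k).trans hs⟩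
  obtain ⟨W, hW⟩ : ∃ W, W = 4 * r := ⟨_, rfl⟩
  obtain ⟨R, hR⟩ : ∃ R, R = r + 26 * W := ⟨_, rfl⟩
  obtain ⟨ε, hε⟩ : ∃ ε, ε = r / (2 * c.m) := ⟨_, rfl⟩
  have hWpos : 0 < W := by rw [hW]; positivity
  have hεpos : 0 < ε := by rw [hε]; positivity
  have hεm : 2 * c.m * ε = r := by
    rw [hε]; field_simp
  have hεr : ε ≤ r := by
    have h1 : (1 : ℝ) ≤ c.m := by exact_mod_cast hm
    nlinarith
  obtain ⟨x, hx⟩ := exists_exits hc hεpos (R := R) (by rw [hR]; linarith)
  -- the heights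
  obtain ⟨y, hydef⟩ : ∃ y : ℕ → ℝ, y = ht r (fun k => x.b true (pk k)) (fun k => x.b false (pk k)) :=
    ⟨_, rfl⟩
  obtain ⟨H, hH⟩ : ∃ H : ℕ → ℝ, ∀ k, H k = y k + x.b true (pk k) := ⟨_, fun _ => rfl⟩
  have hy : ∀ k, y (k + 1) = H k - x.b false (pk (k + 1)) := by
    intro k
    rw [hH, hydef, ht, ht, Finset.sum_range_succ]
    ring
  have hbd : ∀ k : ℕ, |y k - 2 * r| ≤ 2 * k * ε := by
    intro k
    rw [hydef]
    exact ht_bound (fun i => (hx.small true (pk i)).le) (fun i => (hx.small false (pk i)).le) k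
  have hyr : ∀ k < c.m, |y k - 2 * r| ≤ r := by
    intro k hk
    refine (hbd k).trans ?_
    rw [← hεm]
    have h1 : (k : ℝ) ≤ c.m := by exact_mod_cast hk.le
    nlinarith
  have hHr : ∀ k, k + 1 < c.m → |H k - 2 * r| ≤ r := by
    intro k hk
    have h1 : H k - 2 * r = (y k - 2 * r) + x.b true (pk k) := by rw [hH]; ring
    rw [h1]
    refine (abs_add_le _ _).trans ?_
    have h2 := hbd k
    have h3 := (hx.small true (pk k)).le
    have h4 : (k : ℝ) + 1 ≤ c.m := by exact_mod_cast hk.le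
    nlinarith
  obtain ⟨X, rt, hL, hs⟩ := exists_chain hc hx hinj hH hy
  obtain ⟨η, hη, hηW, hsep, hisoR, hisoL⟩ := exists_eta hx hWpos hc.unit hL hs
  obtain ⟨n, hn⟩ := exists_n hc hx hWpos hη (pk := pk) (fun k hk => (hL k hk).route)
  -- abscissas
  have ht0 : ∀ k, k + 1 < c.m → (rt k).t 0 = x.t true (pk k) + X k := by
    intro k hk
    have h1 := congrArg (fun u : E2 => u 0) (hL k hk).p0
    simpa [RData.p, Exits.q, pt] using h1
  have htM : ∀ k, k + 1 < c.m → (rt k).t (rt k).M = x.t false (pk (k + 1)) + X (k + 1) := by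
    intro k hk
    have h1 := congrArg (fun u : E2 => u 0) (hL k hk).pM
    simpa [RData.p, Exits.q, pt] using h1
  have hWR : W ≤ R := by rw [hR]; linarith
  have hεW : ε ≤ W := by rw [hW]; linarith
  have hfR : ∀ k, r + 25 * W ≤ x.t true k := by
    intro k
    have h1 := far_bound hWpos hWR (hx.right k).far (hx.right k).tpos
      ((hx.small true k).le.trans hεW)
    rw [hR] at h1
    linarith
  have hfL : ∀ k, r + 25 * W ≤ - x.t false k := by
    intro k
    have h1 := far_bound (t := - x.t false k) hWpos hWR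
      (by rw [neg_sq]; exact (hx.left k).far) (neg_pos.2 (hx.left k).tneg)
      ((hx.small false k).le.trans hεW)
    rw [hR] at h1
    linarith
  have hgap : ∀ k, k + 1 < c.m → X k + 2 * r + 50 * W ≤ X (k + 1) := by
    intro k hk
    have h1 := t_mono (hL k hk).route
    rw [ht0 k hk, htM k hk] at h1
    linarith [hfR (pk k), hfL (pk (k + 1))]
  obtain ⟨a₀, b₀, F, up, hab, hF, hQ1, hQ2, hQ3, hQ4⟩ :=
    exists_beads hm hWpos hr (x := X) (h := H) (fun k hk => by
      have h1 := abs_le.1 (hHr k hk)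
      rw [hW]
      constructor <;> linarith) hgap n
  choose! c' hc'1 hc'2 using hQ3
  obtain ⟨δ, hδ⟩ : ∃ δ, δ = W / 2 ^ (n + 1) := ⟨_, rfl⟩
  rw [← hδ] at hn hc'1 hc'2
  have hδpos : 0 < δ := by rw [hδ]; positivity
  have hnorm : ∀ u v : E2, ‖u - v‖ ≤ |u 0 - v 0| + |u 1 - v 1| := by
    intro u v
    rw [← dist_eq_norm]
    exact ExitAux.dist_le u v
  refine ⟨{ W := W, cc := r, δ := δ, η := η, x := X, y := y, H := H, c' := c'
            w := fun k => x.w (pk k), ρR := fun k => x.ρ true (pk k)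
            ρL := fun k => x.ρ false (pk k), pk := pk, rt := rt
            Q := F '' {y : E2 | y 0 ∈ Icc a₀ b₀ ∧ y 1 ∈ Icc 0 W}
            a₀ := a₀, b₀ := b₀, F := F, upF := up }, ?_⟩
  refine
    { cx := hc
      Wpos := hWpos
      ccpos := hr
      δpos := hδpos
      ηpos := hη
      ηW := hηW
      pk_inj := hinj
      pk_surj := hsurj
      route := fun k hk => (hL k hk).route
      thin := fun k hk => (hn k hk).1 (c' k) (hc'1 k hk)
      cen := hc'1
      sep := hsep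
      startpl := fun k hk => (hL k hk).pl0
      endpl := fun k hk => (hL k hk).plM
      G0 := fun k hk => (hL k hk).G0
      GM := fun k hk => (hL k hk).GM
      isoR := hisoR
      isoL := hisoL
      wmem := fun k _ => hx.word (pk k)
      inbead := ?_
      inR := ?_
      inL := ?_
      posR := ?_
      posL := ?_
      plate := ?_
      gap := hgap
      Qpoly := hF.pieces.polySet_image
      Qbox := hQ1
      Qrect := hQ2
      Qstr := hc'2
      ab := hab
      Ffold := hF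
      Fimage := rfl
      Fone := ?_ }
  · intro k hk z hz0 hz1 hz2
    refine hx.ball (pk k) _ ?_
    rw [mem_closedBall_zero_iff]
    refine (hnorm z (pt (X k) (y k))).trans ?_
    have h1 : (pt (X k) (y k)) 0 = X k := by simp [pt]
    have h2 : (pt (X k) (y k)) 1 = y k := by simp [pt]
    rw [h1, h2]
    have h3 := abs_le.1 (hyr k hk)
    have h4 : |z 1 - y k| ≤ W := by
      rw [abs_le, hW]
      rw [hW] at hz2
      constructor <;> linarith
    have h5 : |z 0 - X k| ≤ r + 3 * W := hz0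
    rw [hR]
    linarith
  · intro k hk z hz1 hz0 hev
    refine (hn k hk).2.1 (z - pt (X k) (y k)) ?_ ?_ ?_
    · have h1 : (z - pt (X k) (y k)) 0 = z 0 - X k := by simp [pt]
      rw [h1]
      exact sub_nonneg.2 hz0
    · have h1 : (z - pt (X k) (y k)) 1 - x.b true (pk k) = (z 1 - c' k) - (H k - c' k) := by
        have h2 : (z - pt (X k) (y k)) 1 = z 1 - y k := by simp [pt]
        rw [h2, hH]
        ring
      rw [h1]
      have h3 := abs_sub (z 1 - c' k) (H k - c' k)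
      have h4 := hc'1 k hk
      have h5 : |z 1 - c' k| ≤ δ := hz1
      linarith
    · have h1 : z - pt (X k) (y k) - x.q true (pk k) = z - (rt k).p (H k) 0 := by
        rw [(hL k hk).p0]
        abel
      rw [h1, ← (hL k hk).n0]
      exact hev
  · intro k hk z hz1 hz0 hev
    refine (hn k hk).2.2 (z - pt (X (k + 1)) (y (k + 1))) ?_ ?_ ?_
    · have h1 : (z - pt (X (k + 1)) (y (k + 1))) 0 = z 0 - X (k + 1) := by simp [pt]
      rw [h1]
      exact sub_nonpos.2 hz0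
    · have h1 : (z - pt (X (k + 1)) (y (k + 1))) 1 - x.b false (pk (k + 1)) =
          (z 1 - c' k) - (H k - c' k) := by
        have h2 : (z - pt (X (k + 1)) (y (k + 1))) 1 = z 1 - y (k + 1) := by simp [pt]
        rw [h2, hy]
        ring
      rw [h1]
      have h3 := abs_sub (z 1 - c' k) (H k - c' k)
      have h4 := hc'1 k hk
      have h5 : |z 1 - c' k| ≤ δ := hz1
      linarith
    · have h1 : z - pt (X (k + 1)) (y (k + 1)) - x.q false (pk (k + 1)) =
          z - (rt k).p (H k) (rt k).M := by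
        rw [(hL k hk).pM]
        abel
      rw [h1, ← (hL k hk).nM]
      exact hev
  · intro k hk
    show X k + r + 5 * W ≤ (rt k).t 0
    rw [ht0 k hk]
    linarith [hfR (pk k)]
  · intro k hk
    show (rt k).t (rt k).M ≤ X (k + 1) - r - 5 * W
    rw [htM k hk]
    linarith [hfL (pk (k + 1))]
  · intro k hk u hu
    have h1 : ‖u‖ ≤ r := by
      have h2 := hrΛ (pk k) hu
      rwa [mem_closedBall_zero_iff] at h2
    have h3 := ExitAux.abs_le_norm u 0
    have h4 := ExitAux.abs_le_norm u 1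
    have h5 := abs_le.1 (hyr k hk)
    have h6 := abs_le.1 (h4.trans h1)
    refine ⟨h3.trans h1, ?_, ?_⟩
    · show 0 ≤ u 1 + y k
      linarith
    · show u 1 + y k ≤ W
      rw [hW]
      linarith
  · intro k hk
    obtain ⟨v, hv⟩ := hQ4 k hk
    exact ⟨v, fun z hz => hv z hz.1 hz.2⟩

end Pool.Agent.SeamS
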