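import Pool.Agent.SeamS.AsmReg

/-!
# The blocks are folded by themselves (module G4)

`foldOn_block`: facets: `f = G e` on the facet (`f_eq`), `PolySet` (`polySet_R`), injective: `Pieced` with one map, `FoldOn.of_injOn` and `FoldOn.congr` (`up` is always false for a facet). Plate `(k, 0)`: let `g z = z - ctr k` (an isometry of the plane) and `X' = {u | u + ctr k ∈ R (k, 0)}`, a `PolySet`; `FW_foldOn` on `X'`,
`FoldOn.precomp` with `g` (`g ⁻¹' X' = R (k, 0)`), `FoldOn.postcomp` with `T (pk k)`, `FoldOn.congr` with `f_eq`. `signOn_plate` in the same way with `FW_signOn`.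
`reg_FW`: proof as in `reg_plate`: near `q` all points of `Q` are in `R (k, 0)`, where `f = T ∘ FW ∘ shift`.
`hone_block`: if `φ` is a facet then `f` is injective on `R φ` and `z' = z`, contradiction. If `φ = (k, 0)`, `e = 0` (or `φ = (k + 1, 0)`, `e = M`): let `X'` be a big square (a `PolySet`), containing a neighbourhood of all points `y - ctr`, `y ∈ R φ` (bounded). `u = z - ctr` is an `X'`-regular point of `FW w` since `FW w = ρ` near `u` (`isoR`, `IF_near`).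
By `tortilla` of `FW_foldOn` at `(u, z' - ctr)` one of the two alternatives holds for all `X'`-regular pairs near `(u, z' - ctr)`; by `reg_FW` the `(Q, f)`-regular points of `R φ` are `X'`-regular (after the shift), and `f q.1 = f q.2` implies that the `FW` images agree (`T` is injective).
-/

namespace Pool.Agent.SeamS

open Set Filter Topology Metric Pool.Agent.Hhelper79.Seam

namespace AData

variable {S : Set E3} {c : CData} {a : AData c}

theorem ap_polySet_shift {X : Set E2} (hX : PolySet X) (v : E2) :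
    PolySet {u : E2 | u + v ∈ X} := by
  obtain ⟨T, hT, hp, rfl⟩ := hX
  set g : E2 →ᵃⁱ[ℝ] E2 := (AffineIsometryEquiv.constVAdd ℝ E2 v).toAffineIsometry with hg
  have hgv : ∀ u, g u = u + v := by
    intro u
    show v +ᵥ u = u + v
    rw [vadd_eq_add, add_comm]
  refine ⟨(fun t => g ⁻¹' t) '' T, hT.image _, ?_, ?_⟩
  · rintro _ ⟨t, ht, rfl⟩
    refine ⟨IsPoly.preimage (hp t ht).1 g, ?_⟩
    obtain ⟨x, hx⟩ := (hp t ht).2
    refine ⟨x - v, ?_⟩
    have hc : Continuous (g : E2 → E2) := g.continuous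
    have hsub : g ⁻¹' (interior t) ⊆ g ⁻¹' t := preimage_mono interior_subset
    have ho : IsOpen (g ⁻¹' (interior t)) := isOpen_interior.preimage hc
    refine interior_maximal hsub ho ?_
    show g (x - v) ∈ interior t
    rw [hgv, sub_add_cancel]
    exact hx
  · ext u
    simp only [mem_setOf_eq, mem_sUnion, mem_image, exists_exists_and_eq_and, mem_preimage, hgv]

theorem ap_shift_pre (X : Set E2) (v : E2) :
    ∃ g : E2 →ᵃⁱ[ℝ] E2, (∀ u, g u = u - v) ∧ g ⁻¹' {u : E2 | u + v ∈ X} = X := by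
  refine ⟨(AffineIsometryEquiv.constVAdd ℝ E2 (-v)).toAffineIsometry, ?_, ?_⟩
  · intro u
    show -v +ᵥ u = u - v
    rw [vadd_eq_add, sub_eq_neg_add]
  · ext u
    show (-v +ᵥ u) + v ∈ X ↔ u ∈ X
    rw [vadd_eq_add, neg_add_cancel_comm]

theorem ap_unit (ha : IsAsm S a) {k : ℕ} (hk : k < c.m) : ∀ l ∈ a.w k, ‖l.1‖ = 1 :=
  fun l hl => ha.cx.unit _ l (ha.wmem k hk l hl)

theorem foldOn_block (ha : IsAsm S a) {φ : ℕ × ℕ} (hφ : a.Valid φ) :
    FoldOn (a.R φ) a.f (a.up φ) := by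
  have hP := polySet_R ha hφ
  by_cases h0 : φ.2 = 0
  · obtain ⟨k, e⟩ := φ
    simp only at h0
    subst h0
    have hk : k < c.m := hφ.1
    obtain ⟨g, hg, hpre⟩ := ap_shift_pre (a.R (k, 0)) (a.ctr k)
    have h1 := FW_foldOn (ap_unit ha hk) (ap_polySet_shift hP (a.ctr k))
    have h2 := (h1.precomp g).postcomp (c.T (a.pk k))
    rw [hpre] at h2
    refine h2.congr ?_ ?_
    · intro x hx
      rw [(img_plate' ha hk hx).1, hg]
    · intro x _ y _
      rw [hg, hg]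
      simp only [up, true_and]
  · have hf : ∀ z ∈ a.R φ, a.f z = (a.rt φ.1).G φ.2 z := by
      intro z hz
      rw [f_eq ha hφ hz]
      simp only [mp, if_neg h0]
    have hpc : Pieced (a.R φ) a.f := by
      obtain ⟨T, hT, hp, hX⟩ := hP
      refine ⟨T, hT, hp, hX, fun t ht => ⟨(a.rt φ.1).G φ.2, fun x hx => hf x ?_⟩⟩
      rw [hX]
      exact ⟨t, ht, hx⟩
    have hi : InjOn a.f (a.R φ) := by
      intro x hx y hy hxy
      rw [hf x hx, hf y hy] at hxy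
      exact ((a.rt φ.1).G φ.2).injective hxy
    refine (FoldOn.of_injOn hpc hi).congr (fun _ _ => rfl) ?_
    intro x _ y _
    simp only [up, h0, false_and]

theorem signOn_plate (ha : IsAsm S a) {k : ℕ} (hk : k < c.m) :
    SignOn (a.R (k, 0)) a.f (fun z => posW (a.w k) (z - a.ctr k)) := by
  have hP := polySet_R ha (φ := (k, 0)) ⟨hk, Or.inl rfl⟩
  obtain ⟨g, hg, hpre⟩ := ap_shift_pre (a.R (k, 0)) (a.ctr k)
  have h1 := FW_signOn (ap_unit ha hk) (ap_polySet_shift hP (a.ctr k))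
  have h2 := (h1.precomp g).postcomp (c.T (a.pk k))
  rw [hpre] at h2
  have h3 : (fun z => posW (a.w k) (z - a.ctr k)) = fun z => posW (a.w k) (g z) := by
    funext z
    rw [hg]
  rw [h3]
  refine h2.congr ?_
  intro x hx
  rw [(img_plate' ha hk hx).1, hg]

theorem up_irrefl (φ : ℕ × ℕ) (z : E2) : ¬ a.up φ z z := by
  rintro ⟨-, h⟩
  exact upW_irrefl _ _ h

theorem reg_FW (ha : IsAsm S a) {k : ℕ} (hk : k < c.m) {q : E2} (hq : q ∈ a.R (k, 0))
    (hr : Reg a.Q a.f q) : ∃ V ∈ 𝓝 (q - a.ctr k), InjOn (FW (a.w k)) V := by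
  have h1 := (reg_plate ha hk hq hr).1
  have hfin := a.finite_idx
  have hnear := block_near (R := fun φ : a.Idx => a.R φ.1) (fun φ => isClosed_R ha φ.1) q
  obtain ⟨U, hU, hUQ, hinj⟩ := hr
  have hW : U ∩ {y | ∀ φ : a.Idx, y ∈ a.R φ.1 → q ∈ a.R φ.1} ∈ 𝓝 q := inter_mem hU hnear
  have hsub : ∀ y ∈ U ∩ {y | ∀ φ : a.Idx, y ∈ a.R φ.1 → q ∈ a.R φ.1},
      y ∈ U ∧ y ∈ a.R (k, 0) := by
    intro y hy'
    refine ⟨hy'.1, ?_⟩
    have hyQ := hUQ hy'.1
    rw [iUnion_R ha] at hyQ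
    obtain ⟨φ, hφ⟩ := mem_iUnion.1 hyQ
    have := h1 φ.1 φ.2 (hy'.2 φ hφ)
    rw [← this]
    exact hφ
  have hc : Tendsto (fun u : E2 => u + a.ctr k) (𝓝 (q - a.ctr k)) (𝓝 q) := by
    have h2 : Continuous fun u : E2 => u + a.ctr k := by fun_prop
    have h3 := h2.tendsto (q - a.ctr k)
    rwa [sub_add_cancel] at h3
  refine ⟨_, hc hW, ?_⟩
  intro u hu v hv huv
  have hu' := hsub _ hu
  have hv' := hsub _ hv
  have h3 : a.f (u + a.ctr k) = a.f (v + a.ctr k) := by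
    rw [(img_plate' ha hk hu'.2).1, (img_plate' ha hk hv'.2).1, add_sub_cancel_right,
      add_sub_cancel_right, huv]
  exact add_right_cancel (hinj hu'.1 hv'.1 h3)

theorem ap_square (u u' : E2) : ∃ X : Set E2, PolySet X ∧ X ∈ 𝓝 u ∧ X ∈ 𝓝 u' := by
  obtain ⟨n, hn⟩ : ∃ n : ℝ, |u 0| < n ∧ |u 1| < n ∧ |u' 0| < n ∧ |u' 1| < n := by
    refine ⟨|u 0| + |u 1| + |u' 0| + |u' 1| + 1, ?_⟩
    have h1 := abs_nonneg (u 0)
    have h2 := abs_nonneg (u 1)
    have h3 := abs_nonneg (u' 0)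
    have h4 := abs_nonneg (u' 1)
    refine ⟨by linarith, by linarith, by linarith, by linarith⟩
  obtain ⟨h1, h2, h3, h4⟩ := hn
  have ho : IsOpen {y : E2 | |y 0| < n ∧ |y 1| < n} := by
    have c0 : Continuous fun y : E2 => |y 0| := by fun_prop
    have c1 : Continuous fun y : E2 => |y 1| := by fun_prop
    exact (isOpen_lt c0 continuous_const).inter (isOpen_lt c1 continuous_const)
  have hs : {y : E2 | |y 0| < n ∧ |y 1| < n} ⊆ {y : E2 | y 0 ∈ Icc (-n) n ∧ y 1 ∈ Icc (-n) n} := by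
    rintro y ⟨g0, g1⟩
    exact ⟨⟨(abs_lt.1 g0).1.le, (abs_lt.1 g0).2.le⟩, ⟨(abs_lt.1 g1).1.le, (abs_lt.1 g1).2.le⟩⟩
  have hm1 : {y : E2 | y 0 ∈ Icc (-n) n ∧ y 1 ∈ Icc (-n) n} ∈ 𝓝 u :=
    mem_of_superset (ho.mem_nhds ⟨h1, h2⟩) hs
  have hm2 : {y : E2 | y 0 ∈ Icc (-n) n ∧ y 1 ∈ Icc (-n) n} ∈ 𝓝 u' :=
    mem_of_superset (ho.mem_nhds ⟨h3, h4⟩) hs
  refine ⟨_, ⟨{{y : E2 | y 0 ∈ Icc (-n) n ∧ y 1 ∈ Icc (-n) n}}, finite_singleton _, ?_, ?_⟩,
    hm1, hm2⟩
  · rintro t rfl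
    exact ⟨isPoly_rect _ _ _ _, ⟨u, mem_interior_iff_mem_nhds.2 hm1⟩⟩
  · rw [sUnion_singleton]

theorem ap_hone (ha : IsAsm S a) {l : ℕ} (hl : l < c.m) {z z' : E2}
    (hz : z ∈ a.R (l, 0)) (hz' : z' ∈ a.R (l, 0)) (hne : z' ≠ z) (hf : a.f z' = a.f z)
    (hreg : ∃ V ∈ 𝓝 z, InjOn (fun y => FW (a.w l) (y - a.ctr l)) V) :
    (∀ᶠ q : E2 × E2 in 𝓝 (z, z'), q.1 ∈ a.R (l, 0) → q.2 ∈ a.R (l, 0) → Reg a.Q a.f q.1 →
      Reg a.Q a.f q.2 → a.f q.1 = a.f q.2 → a.up (l, 0) q.1 q.2) ∨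
    (∀ᶠ q : E2 × E2 in 𝓝 (z, z'), q.1 ∈ a.R (l, 0) → q.2 ∈ a.R (l, 0) → Reg a.Q a.f q.1 →
      Reg a.Q a.f q.2 → a.f q.1 = a.f q.2 → a.up (l, 0) q.2 q.1) := by
  obtain ⟨X, hX, hX1, hX2⟩ := ap_square (z - a.ctr l) (z' - a.ctr l)
  obtain ⟨V, hV, hVi⟩ := hreg
  have hR : Reg X (FW (a.w l)) (z - a.ctr l) := by
    have hc : Tendsto (fun u : E2 => u + a.ctr l) (𝓝 (z - a.ctr l)) (𝓝 z) := by
      have h2 : Continuous fun u : E2 => u + a.ctr l := by fun_prop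
      have h3 := h2.tendsto (z - a.ctr l)
      rwa [sub_add_cancel] at h3
    refine ⟨X ∩ (fun u : E2 => u + a.ctr l) ⁻¹' V, inter_mem hX1 (hc hV), inter_subset_left, ?_⟩
    intro u hu v hv huv
    have h4 := hVi hu.2 hv.2 (by simpa using huv)
    exact add_right_cancel h4
  have hT : Function.Injective (c.T (a.pk l)) := (c.T (a.pk l)).injective
  have hfF : ∀ y ∈ a.R (l, 0), ∀ y' ∈ a.R (l, 0), a.f y = a.f y' →
      FW (a.w l) (y - a.ctr l) = FW (a.w l) (y' - a.ctr l) := by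
    intro y hy y' hy' h
    rw [(img_plate' ha hl hy).1, (img_plate' ha hl hy').1] at h
    exact hT h
  have htor := (FW_foldOn (ap_unit ha hl) hX).tortilla (z - a.ctr l) (z' - a.ctr l) hR
    (mem_of_mem_nhds hX2) (fun h => hne (sub_left_injective h)) (hfF z' hz' z hz hf)
  have hc : Tendsto (fun q : E2 × E2 => (q.1 - a.ctr l, q.2 - a.ctr l)) (𝓝 (z, z'))
      (𝓝 (z - a.ctr l, z' - a.ctr l)) := by
    have h2 : Continuous fun q : E2 × E2 => (q.1 - a.ctr l, q.2 - a.ctr l) := by fun_prop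
    exact h2.tendsto (z, z')
  have hXn : ∀ᶠ p : E2 × E2 in 𝓝 (z - a.ctr l, z' - a.ctr l), X ∈ 𝓝 p.1 ∧ X ∈ 𝓝 p.2 := by
    rw [nhds_prod_eq]
    exact ((eventually_mem_nhds_iff.2 hX1).prod_inl _).and ((eventually_mem_nhds_iff.2 hX2).prod_inr _)
  have hreg' : ∀ q : E2, q ∈ a.R (l, 0) → Reg a.Q a.f q → X ∈ 𝓝 (q - a.ctr l) →
      Reg X (FW (a.w l)) (q - a.ctr l) := by
    intro q hq hr hXq
    obtain ⟨W, hW, hWi⟩ := reg_FW ha hl hq hr
    exact ⟨X ∩ W, inter_mem hXq hW, inter_subset_left, hWi.mono inter_subset_right⟩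
  rcases htor with h | h
  · left
    filter_upwards [hc.eventually h, hc.eventually hXn] with q hq hq2 r1 r2 g1 g2 g3
    exact ⟨rfl, hq (hreg' _ r1 g1 hq2.1) (hreg' _ r2 g2 hq2.2) (hfF _ r1 _ r2 g3)⟩
  · right
    filter_upwards [hc.eventually h, hc.eventually hXn] with q hq hq2 r1 r2 g1 g2 g3
    exact ⟨rfl, hq (hreg' _ r1 g1 hq2.1) (hreg' _ r2 g2 hq2.2) (hfF _ r1 _ r2 g3)⟩

theorem hone_block (ha : IsAsm S a) {k e : ℕ} (hk : k + 1 < c.m) (he : e ≤ a.M k) {z : E2}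
    (hz : z ∈ a.IF k e) {φ : ℕ × ℕ} (hφ : φ = (k, e) ∨ φ = a.nx k e) {z' : E2}
    (hz' : z' ∈ a.R φ) (hne : z' ≠ z) (hf : a.f z' = a.f z) :
    (∀ᶠ q : E2 × E2 in 𝓝 (z, z'), q.1 ∈ a.R φ → q.2 ∈ a.R φ → Reg a.Q a.f q.1 →
      Reg a.Q a.f q.2 → a.f q.1 = a.f q.2 → a.up φ q.1 q.2) ∨
    (∀ᶠ q : E2 × E2 in 𝓝 (z, z'), q.1 ∈ a.R φ → q.2 ∈ a.R φ → Reg a.Q a.f q.1 →
      Reg a.Q a.f q.2 → a.f q.1 = a.f q.2 → a.up φ q.2 q.1) := by
  have hv := valid_nx ha hk he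
  have hval : a.Valid φ := by
    rcases hφ with rfl | rfl
    · exact hv.1
    · exact hv.2.1
  have hzR : z ∈ a.R φ := by
    rcases hφ with rfl | rfl
    · exact (IF_sub ha hk he hz).1
    · exact (IF_sub ha hk he hz).2
  have hball := isOpen_ball.mem_nhds (IF_near ha hk he hz)
  by_cases h0 : φ.2 = 0
  · obtain ⟨l, e'⟩ := φ
    simp only at h0
    subst h0
    refine ap_hone ha hval.1 hzR hz' hne hf ⟨_, hball, ?_⟩
    rcases hφ with h | h
    · simp only [Prod.mk.injEq] at h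
      obtain ⟨rfl, rfl⟩ := h
      intro y hy y' hy' hyy
      simp only at hyy
      rw [(ha.isoR l hk y hy).1, (ha.isoR l hk y' hy').1] at hyy
      exact sub_left_injective ((a.ρR l).injective hyy)
    · have heM : e = a.M k := by
        by_contra hne'
        simp only [nx, if_neg hne', Prod.mk.injEq] at h
        omega
      subst heM
      simp only [nx, if_true, Prod.mk.injEq] at h
      obtain ⟨rfl, -⟩ := h
      intro y hy y' hy' hyy
      simp only at hyy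
      rw [(ha.isoL k hk y hy).1, (ha.isoL k hk y' hy').1] at hyy
      exact sub_left_injective ((a.ρL (k + 1)).injective hyy)
  · exfalso
    rw [f_eq ha hval hz', f_eq ha hval hzR] at hf
    simp only [mp, if_neg h0] at hf
    exact hne (((a.rt φ.1).G φ.2).injective hf)

end AData

end Pool.Agent.SeamS
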