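import Pool.Agent.SeamS.AsmHint
import Pool.Agent.SeamS.AsmPlate
import Pool.Agent.SeamS.Block

/-!
# The assembled map is a noncrossing folding (module G5)
-/

namespace Pool.Agent.SeamS

open Set Filter Topology Metric Pool.Agent.Hhelper79.Seam

namespace AData

variable {S : Set E3} {c : CData} {a : AData c}

/-- the layer order of the assembled map -/
def upQ (a : AData c) : E2 → E2 → Prop :=
  blockUp (fun φ : a.Idx => a.R φ.1) (fun φ => a.up φ.1) (fun φ ψ => a.B φ.1 ψ.1)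

theorem idx_ne {φ ψ : a.Idx} (h : φ ≠ ψ) : φ.1 ≠ ψ.1 := fun h' => h (Subtype.ext h')

theorem foldOn_Q (ha : IsAsm S a) : FoldOn a.Q a.f a.upQ := by
  have := a.finite_idx
  have hov : ∀ φ ψ : a.Idx, φ ≠ ψ → ∀ z ∈ a.R φ.1 ∩ a.R ψ.1, ∃ k e, k + 1 < c.m ∧ e ≤ a.M k ∧
      z ∈ a.IF k e ∧ ((φ.1 = (k, e) ∧ ψ.1 = a.nx k e) ∨ (ψ.1 = (k, e) ∧ φ.1 = a.nx k e)) :=
    fun φ ψ h z hz => overlap ha φ.2 ψ.2 (idx_ne h) hz.1 hz.2
  refine FoldOn.of_blocks (iUnion_R ha) (fun φ => isClosed_R ha φ.1)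
    (fun φ => foldOn_block ha φ.2) ?_ ?_ (fun φ z => up_irrefl φ.1 z)
    (fun φ ψ h => B_asymm ha h) ?_ ?_ ?_ ?_ ?_ ?_ ?_ ?_
  · exact fun φ ψ χ h1 h2 h3 => three ha φ.2 ψ.2 χ.2 (idx_ne h1) (idx_ne h2) (idx_ne h3)
  · intro φ ψ h z hz
    obtain ⟨k, e, hk, he, hIF, h'⟩ := hov φ ψ h z hz
    exact inj_near ha hk he hIF (h'.imp (fun h => h.1) (fun h => h.2))
  · exact fun φ ψ h x hx hr => B_cross ha φ.2 ψ.2 (idx_ne h) hx hr
  · refine ⟨a.f '' {z | ∃ k e, k + 1 < c.m ∧ e ≤ a.M k ∧ z ∈ a.IF k e ∧ |z 1 - a.c' k| = a.δ},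
      (finite_corner ha).image _, ?_⟩
    intro φ ψ h z hz hE
    obtain ⟨k, e, hk, he, hIF, h'⟩ := hov φ ψ h z hz
    by_cases hC : a.Cross k e
    · left
      refine cross_reg ha hk hC hIF (lt_of_le_of_ne hIF.1 ?_)
      intro hcor
      exact hE ⟨z, ⟨k, e, hk, he, hIF, hcor⟩, rfl⟩
    · right
      filter_upwards [near_IF ha hk he hIF] with y hy hyR
      have hyQ : y ∈ a.Q := by
        rw [iUnion_R ha]
        exact mem_iUnion.2 ⟨φ, hyR.1⟩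
      obtain ⟨h1, h2, h3⟩ := hy
      obtain ⟨h4, h5⟩ := h2 hyQ
      have hyIF : y ∈ a.IF k e := by
        refine ⟨h1.1 hyQ, le_antisymm ?_ ?_⟩
        · rcases h' with h' | h'
          · exact h4.1 (h'.1 ▸ hyR.1)
          · exact h4.1 (h'.1 ▸ hyR.2)
        · rcases h' with h' | h'
          · exact h5.1 (h'.2 ▸ hyR.2)
          · exact h5.1 (h'.2 ▸ hyR.1)
      exact fold_not_reg ha hk he hC hyIF
  · exact fun φ ψ h x hx y hy rx ry hf hxy => B_total ha φ.2 ψ.2 (idx_ne h) hx hy rx ry hf hxy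
  · exact fun φ ψ χ h12 h23 h13 x hx y hy z hz rx ry rz fxy fyz h1 h2 =>
      B_trans ha φ.2 ψ.2 χ.2 (idx_ne h12) (idx_ne h23) (idx_ne h13) hx hy hz rx ry rz fxy fyz h1 h2
  · intro φ ψ χ h x hx hr z hz hzx hf
    obtain ⟨h1, h2, h3⟩ := B_hint ha φ.2 ψ.2 χ.2 (idx_ne h) hx hr hz hzx hf
    exact ⟨fun h' => h1 (congrArg Subtype.val h'), fun h' => h2 (congrArg Subtype.val h'), h3⟩
  · intro φ φ' ψ h x hx hr z hz hzx hf
    obtain ⟨h1, h2, h3⟩ := B_hcross ha φ.2 φ'.2 ψ.2 (idx_ne h) hx hr hz hzx hf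
    exact ⟨fun h' => h1 (congrArg Subtype.val h'), fun h' => h2 (congrArg Subtype.val h'), h3⟩
  · intro φ ψ χ χ' h1 h2 z hz z' hz' hf
    obtain ⟨k, e, hk, he, hIF, -⟩ := hov φ ψ h1 z hz
    obtain ⟨k', e', hk', he', hIF', -⟩ := hov χ χ' h2 z' hz'
    exact dist_IF ha hk he hk' he' hIF hIF' hf
  · refine ⟨∅, finite_empty, ?_⟩
    intro φ ψ h z hz z' hz' hne hf _
    obtain ⟨k, e, hk, he, hIF, h'⟩ := hov φ ψ h z hz
    exact hone_block ha hk he hIF (h'.imp (fun h => h.1) (fun h => h.2)) hz' hne hf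

end AData

end Pool.Agent.SeamS
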