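import Pool.Agent.SeamS.Poly
import Pool.Agent.Lib.InvarianceOfDomain

/-!
# Local structure of piecewise isometric maps (module A2)

`Pieced.local_structure`: away from a finite set of points, a piecewise isometric map is near each
point `q` of `X` of one of the following types: flat; two half discs; one half disc (boundary of `X`).

Proof. Write each piece `t` as `Hull (Λ t)` with unit normals (`IsPoly2.exists_halfplanes`). Let `L` be the
finite set of all these `l` and their negatives `(-n, -c)`. Let `E` be the set of all points lying on two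
different lines of `L`, i.e. `⟪l.1, q⟫ = l.2`, `⟪l'.1, q⟫ = l'.2` with `l.1, l'.1` linearly independent (each
such pair of lines meets in one point, so `E` is finite). Let `q ∈ X`, `q ∉ E`. If `q` lies on no line of `L`
then every piece containing `q` contains a neighbourhood of `q`: type flat. Otherwise all lines of `L` through
`q` are equal to one line `l` (up to sign, because the normals are parallel unit vectors). Choose `r` such that the ball `B` of radius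
`r` about `q` meets no other line of `L`, and (pieces are closed) only pieces containing `q`. The open half
disc `{y ∈ B | l.2 < ⟪l.1, y⟫}` does not meet any line of `L`, so (it is convex, hence connected; or directly:
the sign of each `⟪l'.1, y⟫ - l'.2` is constant on it) it is contained in or disjoint from each piece; same for the other half disc. Since
`X` is the union of the pieces and `X ⊆ closure (interior X)`, at least one of the half discs is contained in a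
piece. If both are contained in pieces `t₁`, `t₂`: second type, with `g₁`, `g₂` the isometries of these pieces (closed half
discs by closedness). If only one: third type; choose the sign of `l` such that it is the positive side (then points of
the other open half disc are not in `X`).

`refl_of_agree`: if two isometric embeddings agree on a line and, near a point `q` of the line,
their union (`g₁` on the nonnegative side, `g₂` on the nonpositive side) is not injective then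
`g₂ = g₁ ∘ reflection`. Proof: write the linear parts; with `m ⟂ n` unit vectors, `g₁` and `g₂` agree on the line so
their linear parts agree on `m`; let `N₁, N₂` be the images of `n`; unit vectors orthogonal to the image `M` of
`m`. If `g₁ a₁ = g₂ a₂`, `a₁ ≠ a₂`, `a₁` on the nonnegative side, `a₂` on the nonpositive side, not both on the line:
`a₁ = q + α m + β n`, `a₂ = q + α' m - β' n`, `β, β' ≥ 0` gives `α = α'` (inner product with `M`), `β N₁ = - β' N₂`,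
norms: `β = β' > 0`, so `N₂ = - N₁`, which means `g₂ = g₁ ∘ refl`.
-/

namespace Pool.Agent.SeamS

open Set Filter Topology Metric Pool.Agent.Hhelper79.Seam

/-- the same line with the opposite orientation -/
def negl (l : E2 × ℝ) : E2 × ℝ := (-l.1, -l.2)

theorem inner_negl (l : E2 × ℝ) (y : E2) : inner ℝ (negl l).1 y = - inner ℝ l.1 y := by
  simp [negl, inner_neg_left]

theorem negl_negl (l : E2 × ℝ) : negl (negl l) = l := by
  simp [negl]

/-- two different lines with unit normals meet in at most one point -/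
theorem meet_unique {n n' : E2} (h : ‖n‖ = 1) (h' : ‖n'‖ = 1) (h1 : n' ≠ n) (h2 : n' ≠ -n)
    {v : E2} (hv : inner ℝ n v = 0) (hv' : inner ℝ n' v = 0) : v = 0 := by
  have e1 : n 0 ^ 2 + n 1 ^ 2 = 1 := by
    have := EuclideanSpace.norm_sq_eq n
    rw [h, Fin.sum_univ_two] at this
    simp only [Real.norm_eq_abs, sq_abs] at this
    linarith
  have e2 : n' 0 ^ 2 + n' 1 ^ 2 = 1 := by
    have := EuclideanSpace.norm_sq_eq n'
    rw [h', Fin.sum_univ_two] at this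
    simp only [Real.norm_eq_abs, sq_abs] at this
    linarith
  have e3 : n 0 * v 0 + n 1 * v 1 = 0 := by
    have := hv
    rw [PiLp.inner_apply, Fin.sum_univ_two] at this
    simp only [RCLike.inner_apply, conj_trivial] at this
    linarith
  have e4 : n' 0 * v 0 + n' 1 * v 1 = 0 := by
    have := hv'
    rw [PiLp.inner_apply, Fin.sum_univ_two] at this
    simp only [RCLike.inner_apply, conj_trivial] at this
    linarith
  have hdet : n 0 * n' 1 - n 1 * n' 0 ≠ 0 := by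
    intro hd
    obtain ⟨k, hk⟩ : ∃ k, k = n 0 * n' 0 + n 1 * n' 1 := ⟨_, rfl⟩
    have k0 : n' 0 = k * n 0 := by
      rw [hk]
      linear_combination (-n' 0) * e1 + (- n 1) * hd
    have k1 : n' 1 = k * n 1 := by
      rw [hk]
      linear_combination (-n' 1) * e1 + (n 0) * hd
    have k2 : (k - 1) * (k + 1) = 0 := by
      have : k ^ 2 * (n 0 ^ 2 + n 1 ^ 2) = 1 := by
        rw [← e2, k0, k1]
        ring
      rw [e1] at this
      linarith
    rcases mul_eq_zero.1 k2 with hk1 | hk1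
    · apply h1
      ext i
      have : k = 1 := by linarith
      fin_cases i
      · simpa [this] using k0
      · simpa [this] using k1
    · apply h2
      ext i
      have : k = -1 := by linarith
      fin_cases i
      · simpa [this] using k0
      · simpa [this] using k1
  have v0 : v 0 = 0 := by
    have : (n 0 * n' 1 - n 1 * n' 0) * v 0 = 0 := by
      linear_combination n' 1 * e3 - n 1 * e4
    exact (mul_eq_zero.1 this).resolve_left hdet
  have v1 : v 1 = 0 := by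
    have : (n 0 * n' 1 - n 1 * n' 0) * v 1 = 0 := by
      linear_combination n 0 * e4 - n' 0 * e3
    exact (mul_eq_zero.1 this).resolve_left hdet
  ext i
  fin_cases i
  · simpa using v0
  · simpa using v1

/-- a convex polygon near one of its points which lies on at most one of the lines -/
theorem near_hull {Λ : Set (E2 × ℝ)} (hΛ : Λ.Finite) {l0 : E2 × ℝ} {q : E2} (hq : q ∈ Hull Λ)
    (hth : ∀ l ∈ Λ, inner ℝ l.1 q = l.2 → l = l0 ∨ l = negl l0) :
    ∀ᶠ y in 𝓝 q, (y ∈ Hull Λ ↔ (l0 ∈ Λ → l0.2 ≤ inner ℝ l0.1 y) ∧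
      (negl l0 ∈ Λ → inner ℝ l0.1 y ≤ l0.2)) := by
  have h1 : ∀ᶠ y in 𝓝 q, ∀ l ∈ Λ, l.2 < inner ℝ l.1 q → l.2 < inner ℝ l.1 y := by
    rw [Filter.eventually_all_finite hΛ]
    intro l _
    by_cases h : l.2 < inner ℝ l.1 q
    · have hc : ContinuousAt (fun y : E2 => inner ℝ l.1 y) q := by fun_prop
      filter_upwards [hc.eventually (lt_mem_nhds h)] with y hy _
      exact hy
    · exact Filter.Eventually.of_forall fun y hy => absurd hy h
  filter_upwards [h1] with y hy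
  constructor
  · intro hyΛ
    refine ⟨fun h => hyΛ l0 h, fun h => ?_⟩
    have h2 := hyΛ _ h
    rw [inner_negl] at h2
    simp only [negl] at h2
    linarith
  · rintro ⟨ha, hb⟩ l hl
    rcases lt_or_eq_of_le (hq l hl) with h2 | h2
    · exact (hy l hl h2).le
    · rcases hth l hl h2.symm with rfl | rfl
      · exact ha hl
      · rw [inner_negl]
        have h3 := hb hl
        simp only [negl]
        linarith

theorem not_both {Λ : Set (E2 × ℝ)} {l0 : E2 × ℝ} (hl0 : ‖l0.1‖ = 1)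
    (hint : (interior (Hull Λ)).Nonempty) (h1 : l0 ∈ Λ) (h2 : negl l0 ∈ Λ) : False := by
  have hall : ∀ y ∈ Hull Λ, inner ℝ l0.1 y = l0.2 := by
    intro y hy
    have h3 := hy _ h1
    have h4 := hy _ h2
    rw [inner_negl] at h4
    simp only [negl] at h4
    linarith
  obtain ⟨y, hy⟩ := hint
  have hc : Tendsto (fun s : ℝ => y + s • l0.1) (𝓝[>] 0) (𝓝 y) := by
    have : Tendsto (fun s : ℝ => y + s • l0.1) (𝓝 0) (𝓝 (y + (0 : ℝ) • l0.1)) := by
      apply Continuous.tendsto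
      fun_prop
    rw [zero_smul, add_zero] at this
    exact this.mono_left nhdsWithin_le_nhds
  obtain ⟨s, hs, hs0⟩ := ((hc.eventually (mem_interior_iff_mem_nhds.1 hy)).and
    self_mem_nhdsWithin).exists
  have h3 := hall _ hs
  have h4 := hall _ (interior_subset hy)
  rw [inner_add_right, inner_smul_right, real_inner_self_eq_norm_sq, hl0, h4] at h3
  have : (0 : ℝ) < s := hs0
  linarith

section
variable {Y : Type*} [NormedAddCommGroup Y] [InnerProductSpace ℝ Y]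

/-- near `q` the paper is flat -/
def Flat (X : Set E2) (f : E2 → Y) (g : E2 →ᵃⁱ[ℝ] Y) (q : E2) : Prop :=
  ∀ᶠ y in 𝓝 q, y ∈ X ∧ f y = g y

/-- near `q` the paper is divided by the line `l` into two half discs, placed by `g₁`, `g₂` -/
def TwoSided (X : Set E2) (f : E2 → Y) (l : E2 × ℝ) (g₁ g₂ : E2 →ᵃⁱ[ℝ] Y) (q : E2) : Prop :=
  inner ℝ l.1 q = l.2 ∧ (∀ y, inner ℝ l.1 y = l.2 → g₁ y = g₂ y) ∧
  (∀ᶠ y in 𝓝 q, l.2 ≤ inner ℝ l.1 y → y ∈ X ∧ f y = g₁ y) ∧
  (∀ᶠ y in 𝓝 q, inner ℝ l.1 y ≤ l.2 → y ∈ X ∧ f y = g₂ y)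

/-- near `q` the paper is a half disc bounded by the line `l`, placed by `g₁` -/
def OneSided (X : Set E2) (f : E2 → Y) (l : E2 × ℝ) (g₁ : E2 →ᵃⁱ[ℝ] Y) (q : E2) : Prop :=
  inner ℝ l.1 q = l.2 ∧
  (∀ᶠ y in 𝓝 q, l.2 ≤ inner ℝ l.1 y → y ∈ X ∧ f y = g₁ y) ∧
  (∀ᶠ y in 𝓝 q, inner ℝ l.1 y < l.2 → y ∉ X)

theorem aff_comb (g : E2 →ᵃⁱ[ℝ] Y) (x u v : E2) (κ : ℝ) :
    g (x + κ • (u - v)) = g x + κ • (g u - g v) := by
  have h1 := g.map_vadd x (κ • (u - v))
  have h2 := g.map_vsub u v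
  rw [vadd_eq_add, vadd_eq_add, map_smul] at h1
  rw [vsub_eq_sub, vsub_eq_sub] at h2
  rw [add_comm x, h1, h2, add_comm]

/-- two isometric embeddings which agree near a point of a line agree on the line -/
theorem agree_line {l : E2 × ℝ} {g₁ g₂ : E2 →ᵃⁱ[ℝ] Y} {q : E2} (hq : inner ℝ l.1 q = l.2)
    (h : ∀ᶠ y in 𝓝 q, inner ℝ l.1 y = l.2 → g₁ y = g₂ y) {y : E2} (hy : inner ℝ l.1 y = l.2) :
    g₁ y = g₂ y := by
  have hc : Tendsto (fun s : ℝ => q + s • (y - q)) (𝓝[>] 0) (𝓝 q) := by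
    have : Tendsto (fun s : ℝ => q + s • (y - q)) (𝓝 0) (𝓝 (q + (0 : ℝ) • (y - q))) := by
      apply Continuous.tendsto
      fun_prop
    rw [zero_smul, add_zero] at this
    exact this.mono_left nhdsWithin_le_nhds
  obtain ⟨s, hs, hs0⟩ := ((hc.eventually h).and self_mem_nhdsWithin).exists
  have hs0' : (0 : ℝ) < s := hs0
  have hz : inner ℝ l.1 (q + s • (y - q)) = l.2 := by
    rw [inner_add_right, inner_smul_right, inner_sub_right, hq, hy]
    ring
  have h1 := hs hz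
  have h2 : g₁ q = g₂ q := h.self_of_nhds hq
  rw [aff_comb, aff_comb, h2] at h1
  have h3 := add_left_cancel h1
  have h4 := smul_right_injective Y hs0'.ne' h3
  exact sub_left_injective h4

theorem Pieced.local_structure {X : Set E2} {f : E2 → Y} (h : Pieced X f) :
    ∃ E : Set E2, E.Finite ∧ ∃ L : Set (E2 × ℝ), L.Finite ∧ (∀ l ∈ L, ‖l.1‖ = 1) ∧
      ∃ Γ : Set (E2 →ᵃⁱ[ℝ] Y), Γ.Finite ∧ ∀ q ∈ X, q ∉ E →
        (∃ g ∈ Γ, Flat X f g q) ∨
        (∃ l ∈ L, ∃ g₁ ∈ Γ, ∃ g₂ ∈ Γ, TwoSided X f l g₁ g₂ q) ∨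
        (∃ l ∈ L, ∃ g₁ ∈ Γ, OneSided X f l g₁ q) := by
  classical
  obtain ⟨T, hTf, hTp, rfl, hTg⟩ := h
  have hch : ∀ t : Set E2, ∃ Λ : Set (E2 × ℝ), t ∈ T → Λ.Finite ∧ (∀ l ∈ Λ, ‖l.1‖ = 1) ∧
      t = Hull Λ := by
    intro t
    by_cases ht : t ∈ T
    · obtain ⟨Λ, h1, h2, h3⟩ := (hTp t ht).exists_halfplanes
      exact ⟨Λ, fun _ => ⟨h1, h2, h3⟩⟩
    · exact ⟨∅, fun h => absurd h ht⟩
  choose Λ hΛ using hch
  have hcg : ∀ t : Set E2, ∃ G : Set (E2 →ᵃⁱ[ℝ] Y), G.Finite ∧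
      (t ∈ T → ∃ g ∈ G, ∀ x ∈ t, f x = g x) := by
    intro t
    by_cases ht : t ∈ T
    · obtain ⟨g, hg⟩ := hTg t ht
      exact ⟨{g}, Set.finite_singleton g, fun _ => ⟨g, rfl, hg⟩⟩
    · exact ⟨∅, Set.finite_empty, fun h => absurd h ht⟩
  choose G hG using hcg
  obtain ⟨L, hL⟩ : ∃ L, L = (⋃ t ∈ T, Λ t) ∪ negl '' (⋃ t ∈ T, Λ t) := ⟨_, rfl⟩
  have hL0 : (⋃ t ∈ T, Λ t).Finite := hTf.biUnion fun t ht => (hΛ t ht).1
  have hLfin : L.Finite := by
    rw [hL]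
    exact hL0.union (hL0.image _)
  have hLn : ∀ l ∈ L, ‖l.1‖ = 1 := by
    intro l hl
    rw [hL] at hl
    rcases hl with hl | ⟨l', hl', rfl⟩
    · obtain ⟨t, ht, hlt⟩ := Set.mem_iUnion₂.1 hl
      exact (hΛ t ht).2.1 l hlt
    · obtain ⟨t, ht, hlt⟩ := Set.mem_iUnion₂.1 hl'
      simpa [negl] using (hΛ t ht).2.1 l' hlt
  have hLm : ∀ t ∈ T, ∀ l ∈ Λ t, l ∈ L := by
    intro t ht l hl
    rw [hL]
    exact Or.inl (Set.mem_iUnion₂.2 ⟨t, ht, hl⟩)
  have hLneg : ∀ l ∈ L, negl l ∈ L := by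
    intro l hl
    rw [hL] at hl ⊢
    rcases hl with hl | ⟨l', hl', rfl⟩
    · exact Or.inr ⟨l, hl, rfl⟩
    · rw [negl_negl]
      exact Or.inl hl'
  obtain ⟨E, hE⟩ : ∃ E : Set E2, E = ⋃ l ∈ L, ⋃ l' ∈ L, {q | l'.1 ≠ l.1 ∧ l'.1 ≠ -l.1 ∧
    inner ℝ l.1 q = l.2 ∧ inner ℝ l'.1 q = l'.2} := ⟨_, rfl⟩
  refine ⟨E, ?_, L, hLfin, hLn, ⋃ t ∈ T, G t, hTf.biUnion fun t _ => (hG t).1, ?_⟩
  · rw [hE]
    refine hLfin.biUnion fun l hl => hLfin.biUnion fun l' hl' => Set.Subsingleton.finite ?_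
    rintro q ⟨h1, h2, h3, h4⟩ q' ⟨-, -, h3', h4'⟩
    have := meet_unique (hLn l hl) (hLn l' hl') h1 h2 (v := q - q')
      (by rw [inner_sub_right, h3, h3', sub_self]) (by rw [inner_sub_right, h4, h4', sub_self])
    exact sub_eq_zero.1 this
  intro q hq hqE
  -- pieces not containing q are away from q
  have hfar : ∀ᶠ y in 𝓝 q, ∀ t ∈ T, q ∉ t → y ∉ t := by
    rw [Filter.eventually_all_finite hTf]
    intro t ht
    by_cases hqt : q ∈ t
    · exact Filter.Eventually.of_forall fun y h => absurd hqt h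
    · have hcl : IsClosed t := by
        rw [(hΛ t ht).2.2]
        have : Hull (Λ t) = ⋂ l ∈ Λ t, {y : E2 | l.2 ≤ inner ℝ l.1 y} := by
          ext y
          simp [Hull]
        rw [this]
        exact isClosed_biInter fun l _ => isClosed_le continuous_const (by fun_prop)
      filter_upwards [hcl.isOpen_compl.mem_nhds hqt] with y hy _
      exact hy
  by_cases hno : ∃ l ∈ L, inner ℝ l.1 q = l.2
  swap
  · -- no line through q
    left
    push Not at hno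
    obtain ⟨t, ht, hqt⟩ := hq
    obtain ⟨g, hg, hfg⟩ := (hG t).2 ht
    refine ⟨g, Set.mem_iUnion₂.2 ⟨t, ht, hg⟩, ?_⟩
    have hqt' := hqt
    rw [(hΛ t ht).2.2] at hqt'
    have h1 := near_hull (hΛ t ht).1 (l0 := ((0 : E2), (0 : ℝ))) hqt'
      (fun l hl hlq => absurd hlq (hno l (hLm t ht l hl)))
    filter_upwards [h1] with y hy
    have hyt : y ∈ t := by
      rw [(hΛ t ht).2.2, hy]
      refine ⟨fun h => ?_, fun h => ?_⟩
      · have := (hΛ t ht).2.1 _ h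
        simp at this
      · have := (hΛ t ht).2.1 _ h
        simp [negl] at this
    exact ⟨⟨t, ht, hyt⟩, hfg y hyt⟩
  obtain ⟨l0, hl0, hl0q⟩ := hno
  have hthr : ∀ l ∈ L, inner ℝ l.1 q = l.2 → l = l0 ∨ l = negl l0 := by
    intro l hl hlq
    have h1 : ¬ (l.1 ≠ l0.1 ∧ l.1 ≠ -l0.1) := by
      rintro ⟨h1, h2⟩
      apply hqE
      rw [hE]
      exact Set.mem_iUnion₂.2 ⟨l0, hl0, Set.mem_iUnion₂.2 ⟨l, hl, h1, h2, hl0q, hlq⟩⟩
    by_cases h2 : l.1 = l0.1
    · left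
      refine Prod.ext h2 ?_
      rw [← hlq, ← hl0q, h2]
    · right
      have h3 : l.1 = -l0.1 := by
        by_contra h3
        exact h1 ⟨h2, h3⟩
      refine Prod.ext h3 ?_
      show l.2 = -l0.2
      rw [← hlq, ← hl0q, h3, inner_neg_left]
  -- description of the pieces at q
  have hnear : ∀ t ∈ T, q ∈ t → ∀ᶠ y in 𝓝 q, (y ∈ t ↔ (l0 ∈ Λ t → l0.2 ≤ inner ℝ l0.1 y) ∧
      (negl l0 ∈ Λ t → inner ℝ l0.1 y ≤ l0.2)) := by
    intro t ht hqt
    have hqt' := hqt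
    rw [(hΛ t ht).2.2] at hqt'
    have h1 := near_hull (hΛ t ht).1 (l0 := l0) hqt' (fun l hl => hthr l (hLm t ht l hl))
    filter_upwards [h1] with y hy
    rw [← hy, ← (hΛ t ht).2.2]
  have hnb : ∀ t ∈ T, l0 ∈ Λ t → negl l0 ∈ Λ t → False := by
    intro t ht
    have hint := (hTp t ht).2
    rw [(hΛ t ht).2.2] at hint
    exact not_both (hLn l0 hl0) hint
  by_cases hfull : ∃ t ∈ T, q ∈ t ∧ l0 ∉ Λ t ∧ negl l0 ∉ Λ t
  · left
    obtain ⟨t, ht, hqt, h1, h2⟩ := hfull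
    obtain ⟨g, hg, hfg⟩ := (hG t).2 ht
    refine ⟨g, Set.mem_iUnion₂.2 ⟨t, ht, hg⟩, ?_⟩
    filter_upwards [hnear t ht hqt] with y hy
    have hyt : y ∈ t := hy.2 ⟨fun h => absurd h h1, fun h => absurd h h2⟩
    exact ⟨⟨t, ht, hyt⟩, hfg y hyt⟩
  right
  have hsome : ∀ t ∈ T, q ∈ t → l0 ∈ Λ t ∨ negl l0 ∈ Λ t := by
    intro t ht hqt
    by_contra hcon
    push Not at hcon
    exact hfull ⟨t, ht, hqt, hcon.1, hcon.2⟩
  have hplus : ∀ t ∈ T, q ∈ t → l0 ∈ Λ t → ∀ᶠ y in 𝓝 q, l0.2 ≤ inner ℝ l0.1 y → y ∈ t := by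
    intro t ht hqt hl
    filter_upwards [hnear t ht hqt] with y hy h1
    exact hy.2 ⟨fun _ => h1, fun h => absurd h fun h' => hnb t ht hl h'⟩
  have hminus : ∀ t ∈ T, q ∈ t → negl l0 ∈ Λ t → ∀ᶠ y in 𝓝 q, inner ℝ l0.1 y ≤ l0.2 → y ∈ t := by
    intro t ht hqt hl
    filter_upwards [hnear t ht hqt] with y hy h1
    exact hy.2 ⟨fun h => absurd h fun h' => hnb t ht h' hl, fun _ => h1⟩
  by_cases hp : ∃ t ∈ T, q ∈ t ∧ l0 ∈ Λ t
  · obtain ⟨t₁, ht₁, hq₁, hl₁⟩ := hp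
    obtain ⟨g₁, hg₁, hf₁⟩ := (hG t₁).2 ht₁
    by_cases hm : ∃ t ∈ T, q ∈ t ∧ negl l0 ∈ Λ t
    · left
      obtain ⟨t₂, ht₂, hq₂, hl₂⟩ := hm
      obtain ⟨g₂, hg₂, hf₂⟩ := (hG t₂).2 ht₂
      have e1 := hplus t₁ ht₁ hq₁ hl₁
      have e2 := hminus t₂ ht₂ hq₂ hl₂
      refine ⟨l0, hl0, g₁, Set.mem_iUnion₂.2 ⟨t₁, ht₁, hg₁⟩, g₂, Set.mem_iUnion₂.2 ⟨t₂, ht₂, hg₂⟩,
        hl0q, fun y hy => agree_line hl0q ?_ hy, ?_, ?_⟩
      · filter_upwards [e1, e2] with z h1 h2 hz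
        rw [← hf₁ z (h1 hz.ge), ← hf₂ z (h2 hz.le)]
      · filter_upwards [e1] with z h1 hz
        exact ⟨⟨t₁, ht₁, h1 hz⟩, hf₁ z (h1 hz)⟩
      · filter_upwards [e2] with z h1 hz
        exact ⟨⟨t₂, ht₂, h1 hz⟩, hf₂ z (h1 hz)⟩
    · right
      refine ⟨l0, hl0, g₁, Set.mem_iUnion₂.2 ⟨t₁, ht₁, hg₁⟩, hl0q, ?_, ?_⟩
      · filter_upwards [hplus t₁ ht₁ hq₁ hl₁] with z h1 hz
        exact ⟨⟨t₁, ht₁, h1 hz⟩, hf₁ z (h1 hz)⟩
      · have hall : ∀ᶠ y in 𝓝 q, ∀ t ∈ T, q ∈ t → y ∈ t → l0.2 ≤ inner ℝ l0.1 y := by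
          rw [Filter.eventually_all_finite hTf]
          intro t ht
          by_cases hqt : q ∈ t
          · filter_upwards [hnear t ht hqt] with y hy _ hyt
            refine (hy.1 hyt).1 ((hsome t ht hqt).resolve_right fun h => hm ⟨t, ht, hqt, h⟩)
          · exact Filter.Eventually.of_forall fun y h => absurd h hqt
        filter_upwards [hall, hfar] with y h1 h2 hy
        rintro ⟨t, ht, hyt⟩
        by_cases hqt : q ∈ t
        · exact absurd (h1 t ht hqt hyt) (not_le.2 hy)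
        · exact h2 t ht hqt hyt
  · right
    obtain ⟨t₂, ht₂, hq₂⟩ := hq
    have hl₂ : negl l0 ∈ Λ t₂ := (hsome t₂ ht₂ hq₂).resolve_left fun h => hp ⟨t₂, ht₂, hq₂, h⟩
    obtain ⟨g₂, hg₂, hf₂⟩ := (hG t₂).2 ht₂
    refine ⟨negl l0, hLneg l0 hl0, g₂, Set.mem_iUnion₂.2 ⟨t₂, ht₂, hg₂⟩, ?_, ?_, ?_⟩
    · rw [inner_negl, hl0q]
      rfl
    · filter_upwards [hminus t₂ ht₂ hq₂ hl₂] with z h1 hz
      rw [inner_negl] at hz
      simp only [negl] at hz
      have hz' : inner ℝ l0.1 z ≤ l0.2 := by linarith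
      exact ⟨⟨t₂, ht₂, h1 hz'⟩, hf₂ z (h1 hz')⟩
    · have hall : ∀ᶠ y in 𝓝 q, ∀ t ∈ T, q ∈ t → y ∈ t → inner ℝ l0.1 y ≤ l0.2 := by
        rw [Filter.eventually_all_finite hTf]
        intro t ht
        by_cases hqt : q ∈ t
        · filter_upwards [hnear t ht hqt] with y hy _ hyt
          refine (hy.1 hyt).2 ((hsome t ht hqt).resolve_left fun h => hp ⟨t, ht, hqt, h⟩)
        · exact Filter.Eventually.of_forall fun y h => absurd h hqt
      filter_upwards [hall, hfar] with y h1 h2 hy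
      rw [inner_negl] at hy
      simp only [negl] at hy
      rintro ⟨t, ht, hyt⟩
      by_cases hqt : q ∈ t
      · have := h1 t ht hqt hyt
        linarith
      · exact h2 t ht hqt hyt

theorem refl_of_agree {l : E2 × ℝ} (hl : ‖l.1‖ = 1) {g₁ g₂ : E2 →ᵃⁱ[ℝ] Y}
    (hag : ∀ y, inner ℝ l.1 y = l.2 → g₁ y = g₂ y) {a₁ a₂ : E2}
    (h₁ : l.2 ≤ inner ℝ l.1 a₁) (h₂ : inner ℝ l.1 a₂ ≤ l.2) (hne : a₁ ≠ a₂)
    (h : g₁ a₁ = g₂ a₂) : ∀ y, g₂ y = g₁ (refl l y) := by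
  have hnn : inner ℝ l.1 l.1 = (1 : ℝ) := by
    rw [real_inner_self_eq_norm_sq, hl]
    norm_num
  obtain ⟨d₁, hd₁⟩ : ∃ d₁, d₁ = inner ℝ l.1 a₁ - l.2 := ⟨_, rfl⟩
  obtain ⟨d₂, hd₂⟩ : ∃ d₂, d₂ = l.2 - inner ℝ l.1 a₂ := ⟨_, rfl⟩
  obtain ⟨p₁, hp₁⟩ : ∃ p₁, p₁ = a₁ - d₁ • l.1 := ⟨_, rfl⟩
  obtain ⟨p₂, hp₂⟩ : ∃ p₂, p₂ = a₂ + d₂ • l.1 := ⟨_, rfl⟩
  have ha₁ : a₁ = p₁ + d₁ • l.1 := by rw [hp₁]; abel
  have ha₂ : a₂ = p₂ - d₂ • l.1 := by rw [hp₂]; abel
  have l₁ : inner ℝ l.1 p₁ = l.2 := by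
    rw [hp₁, inner_sub_right, inner_smul_right, hnn, hd₁]
    ring
  have l₂ : inner ℝ l.1 p₂ = l.2 := by
    rw [hp₂, inner_add_right, inner_smul_right, hnn, hd₂]
    ring
  have hdist : ∀ p, inner ℝ l.1 p = l.2 → ‖a₁ - p‖ = ‖a₂ - p‖ := by
    intro p hp
    have e1 : dist (g₁ a₁) (g₁ p) = dist a₁ p := g₁.dist_map _ _
    have e2 : dist (g₂ a₂) (g₂ p) = dist a₂ p := g₂.dist_map _ _
    rw [h, hag p hp, e2] at e1
    rw [← dist_eq_norm, ← dist_eq_norm, e1]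
  have horth : inner ℝ l.1 (p₁ - p₂) = (0 : ℝ) := by
    rw [inner_sub_right, l₁, l₂, sub_self]
  have sq1 : ∀ (w : E2) (d : ℝ), inner ℝ l.1 w = (0 : ℝ) → ‖w + d • l.1‖ ^ 2 = ‖w‖ ^ 2 + d ^ 2 := by
    intro w d hw
    have hw' : inner ℝ w l.1 = (0 : ℝ) := by
      rw [real_inner_comm]
      exact hw
    rw [← real_inner_self_eq_norm_sq, ← real_inner_self_eq_norm_sq, inner_add_left, inner_add_right,
      inner_add_right, inner_smul_left, inner_smul_right, inner_smul_right, inner_smul_left, hnn,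
      hw, hw']
    simp
    ring
  have q1 := hdist p₁ l₁
  have q2 := hdist p₂ l₂
  have r1 : ‖a₁ - p₁‖ ^ 2 = d₁ ^ 2 := by
    have : a₁ - p₁ = 0 + d₁ • l.1 := by rw [ha₁]; abel
    rw [this, sq1 _ _ (by simp)]
    simp
  have r2 : ‖a₂ - p₁‖ ^ 2 = ‖p₁ - p₂‖ ^ 2 + d₂ ^ 2 := by
    have : a₂ - p₁ = (-(p₁ - p₂)) + (-d₂) • l.1 := by rw [ha₂, neg_smul]; abel
    rw [this, sq1 _ _ (by rw [inner_neg_right, horth, neg_zero]), norm_neg]
    ring
  have r3 : ‖a₁ - p₂‖ ^ 2 = ‖p₁ - p₂‖ ^ 2 + d₁ ^ 2 := by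
    have : a₁ - p₂ = (p₁ - p₂) + d₁ • l.1 := by rw [ha₁]; abel
    rw [this, sq1 _ _ horth]
  have r4 : ‖a₂ - p₂‖ ^ 2 = d₂ ^ 2 := by
    have : a₂ - p₂ = 0 + (-d₂) • l.1 := by rw [ha₂, neg_smul]; abel
    rw [this, sq1 _ _ (by simp)]
    simp
  rw [q1, r2] at r1
  rw [q2, r4] at r3
  have hD : ‖p₁ - p₂‖ = 0 := by
    have h0 : ‖p₁ - p₂‖ ^ 2 = 0 := by nlinarith [sq_nonneg ‖p₁ - p₂‖]
    exact pow_eq_zero_iff (two_ne_zero) |>.1 h0
  have hpp : p₁ = p₂ := sub_eq_zero.1 (norm_eq_zero.1 hD)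
  have hdd : d₁ = d₂ := by
    have h0 : d₁ ^ 2 = d₂ ^ 2 := by
      rw [hD] at r1
      linarith
    have hn1 : 0 ≤ d₁ := by rw [hd₁]; linarith
    have hn2 : 0 ≤ d₂ := by rw [hd₂]; linarith
    nlinarith [sq_nonneg (d₁ - d₂), sq_nonneg (d₁ + d₂)]
  have hd0 : d₁ ≠ 0 := by
    intro h0
    apply hne
    rw [ha₁, ha₂, ← hdd, h0, hpp]
    simp
  intro y
  obtain ⟨κ, hκ⟩ : ∃ κ, κ = -(inner ℝ l.1 y - l.2) / d₁ := ⟨_, rfl⟩
  obtain ⟨z, hz⟩ : ∃ z, z = y - (inner ℝ l.1 y - l.2) • l.1 := ⟨_, rfl⟩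
  have hzl : inner ℝ l.1 z = l.2 := by
    rw [hz, inner_sub_right, inner_smul_right, hnn]
    ring
  have hκd : κ * d₁ = -(inner ℝ l.1 y - l.2) := by
    rw [hκ]
    field_simp
  have e1 : y = z + κ • (a₂ - p₁) := by
    rw [hz, ha₂, ← hpp, ← hdd]
    have : κ • (p₁ - d₁ • l.1 - p₁) = -((κ * d₁) • l.1) := by
      rw [mul_smul]
      simp
    rw [this, hκd, neg_smul]
    abel
  have e2 : refl l y = z + κ • (a₁ - p₁) := by
    rw [hz, ha₁]
    have : κ • (p₁ + d₁ • l.1 - p₁) = (κ * d₁) • l.1 := by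
      rw [mul_smul]
      simp
    rw [this, hκd, refl, two_mul, add_smul, neg_smul]
    abel
  rw [e2]
  conv_lhs => rw [e1]
  rw [aff_comb, aff_comb, hag z hzl, h, hag p₁ l₁]

/-- at a two-sided point either the map is injective near `q` or it is a fold -/
theorem TwoSided.reg_or_fold {X : Set E2} {f : E2 → Y} {l : E2 × ℝ} (hl : ‖l.1‖ = 1)
    {g₁ g₂ : E2 →ᵃⁱ[ℝ] Y} {q : E2} (h : TwoSided X f l g₁ g₂ q) :
    Reg X f q ∨ ∀ y, g₂ y = g₁ (refl l y) := by
  obtain ⟨hq, hag, hp, hm⟩ := h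
  by_cases hreg : InjOn f {y | (l.2 ≤ inner ℝ l.1 y → y ∈ X ∧ f y = g₁ y) ∧
      (inner ℝ l.1 y ≤ l.2 → y ∈ X ∧ f y = g₂ y)}
  · left
    refine ⟨_, hp.and hm, ?_, hreg⟩
    rintro y ⟨h1, h2⟩
    rcases le_total l.2 (inner ℝ l.1 y) with h3 | h3
    · exact (h1 h3).1
    · exact (h2 h3).1
  · right
    rw [InjOn] at hreg
    push Not at hreg
    obtain ⟨a, ha, b, hb, hab, hne⟩ := hreg
    rcases le_total l.2 (inner ℝ l.1 a) with h3 | h3 <;>
      rcases le_total l.2 (inner ℝ l.1 b) with h4 | h4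
    · exact absurd (g₁.injective (((ha.1 h3).2.symm.trans hab).trans (hb.1 h4).2)) hne
    · exact refl_of_agree hl hag h3 h4 hne (((ha.1 h3).2.symm.trans hab).trans (hb.2 h4).2)
    · exact refl_of_agree hl hag h4 h3 hne.symm
        (((hb.1 h4).2.symm.trans hab.symm).trans (ha.2 h3).2)
    · exact absurd (g₂.injective (((ha.2 h3).2.symm.trans hab).trans (hb.2 h4).2)) hne

theorem Flat.reg {X : Set E2} {f : E2 → Y} {g : E2 →ᵃⁱ[ℝ] Y} {q : E2} (h : Flat X f g q) :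
    Reg X f q := by
  refine ⟨{y | y ∈ X ∧ f y = g y}, h, fun y hy => hy.1, ?_⟩
  intro a ha b hb hab
  exact g.injective ((ha.2.symm.trans hab).trans hb.2)

theorem Reg.eventually {X : Set E2} {f : E2 → Y} {q : E2} (h : Reg X f q) :
    ∀ᶠ y in 𝓝 q, Reg X f y := by
  obtain ⟨U, hU, hUX, hinj⟩ := h
  filter_upwards [eventually_mem_nhds_iff.2 hU] with y hy
  exact ⟨U, hy, hUX, hinj⟩

theorem Reg.mem {X : Set E2} {f : E2 → Y} {q : E2} (h : Reg X f q) : q ∈ X := by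
  obtain ⟨U, hU, hUX, -⟩ := h
  exact hUX (mem_of_mem_nhds hU)

/-- regular points are dense in `X` (flat points are) -/
theorem Pieced.exists_reg {X : Set E2} {f : E2 → Y} (h : Pieced X f) {q : E2} (hq : q ∈ X)
    {V : Set E2} (hV : V ∈ 𝓝 q) : ∃ y ∈ V, Reg X f y := by
  obtain ⟨T, hTf, hTp, rfl, hTg⟩ := h
  obtain ⟨t, ht, hqt⟩ := hq
  obtain ⟨g, hg⟩ := hTg t ht
  obtain ⟨y, hyV, hyt⟩ := mem_closure_iff_nhds.1 ((hTp t ht).subset_closure_interior hqt) V hV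
  refine ⟨y, hyV, Flat.reg (g := g) ?_⟩
  filter_upwards [mem_interior_iff_mem_nhds.1 hyt] with z hz
  exact ⟨⟨t, ht, hz⟩, hg z hz⟩

/-- a planar piecewise isometric map which is injective near `q` maps neighbourhoods of `q` to
neighbourhoods of `F q` (invariance of domain, `Pool.Agent.Lib.InvarianceOfDomain`) -/
theorem Reg.image_mem_nhds {X : Set E2} {F : E2 → E2} (hF : Pieced X F) {q : E2}
    (h : Reg X F q) {V : Set E2} (hV : V ∈ 𝓝 q) : F '' V ∈ 𝓝 (F q) := by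
  obtain ⟨U, hU, hUX, hinj⟩ := h
  have hq : q ∈ interior (U ∩ V) := mem_interior_iff_mem_nhds.2 (inter_mem hU hV)
  have hsub : interior (U ∩ V) ⊆ U ∩ V := interior_subset
  have hopen := Pool.Lib.invariance_of_domain (U := interior (U ∩ V)) isOpen_interior (f := F)
    (hF.continuousOn.mono fun y hy => hUX (hsub hy).1) (hinj.mono fun y hy => (hsub hy).1)
  exact Filter.mem_of_superset (hopen.mem_nhds (mem_image_of_mem F hq))
    (image_mono fun y hy => (hsub hy).2)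

/-- regular points of a composition -/
theorem reg_comp {X : Set E2} {F : E2 → E2} {G : E2 → Y} (hF : Pieced X F)
    (hG : Pieced (F '' X) G) {q : E2} :
    Reg X (fun x => G (F x)) q ↔ (Reg X F q ∧ Reg (F '' X) G (F q)) := by
  constructor
  · rintro ⟨U, hU, hUX, hinj⟩
    have h1 : Reg X F q := ⟨U, hU, hUX, fun a ha b hb hab => hinj ha hb (congrArg G hab)⟩
    refine ⟨h1, F '' U, h1.image_mem_nhds hF hU, image_mono hUX, ?_⟩
    rintro _ ⟨a, ha, rfl⟩ _ ⟨b, hb, rfl⟩ hab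
    rw [hinj ha hb hab]
  · rintro ⟨⟨U, hU, hUX, hinj⟩, V, hV, hVX, hinjV⟩
    have hc : ContinuousAt F q := hF.continuousOn.continuousAt (Filter.mem_of_superset hU hUX)
    refine ⟨U ∩ F ⁻¹' V, inter_mem hU (hc hV), fun y hy => hUX hy.1, ?_⟩
    intro a ha b hb hab
    exact hinj ha.1 hb.1 (hinjV ha.2 hb.2 hab)

end

end Pool.Agent.SeamS
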