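import Pool.Agent.SeamS.Defs
import Pool.Agent.Hhelper79.Seam.Base

namespace Pool.Agent.SeamS

open Set Filter Topology Metric Pool.Agent.Hhelper79.Seam

namespace PolyAux

/-! ### Clipping a convex hull -/

section clip
variable {E : Type*} [AddCommGroup E] [Module ℝ E]

/-- the crossing point of `[a, b]` with the hyperplane `f = c` -/
noncomputable def zc (f : E →ₗ[ℝ] ℝ) (c : ℝ) (a b : E) : E :=
  (f a - f b)⁻¹ • ((c - f b) • a + (f a - c) • b)

theorem zc_spec (f : E →ₗ[ℝ] ℝ) (c : ℝ) {a b : E} (h : f b < f a) :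
    (f a - f b) • zc f c a b = (c - f b) • a + (f a - c) • b := by
  unfold zc
  rw [smul_inv_smul₀ (by linarith)]

theorem f_zc (f : E →ₗ[ℝ] ℝ) (c : ℝ) {a b : E} (h : f b < f a) : f (zc f c a b) = c := by
  have h1 := congrArg f (zc_spec f c h)
  rw [map_smul, map_add, map_smul, map_smul, smul_eq_mul, smul_eq_mul, smul_eq_mul] at h1
  have h2 : (f a - f b) ≠ 0 := by linarith
  apply mul_left_cancel₀ h2
  rw [h1]
  ring

theorem zc_mem_segment (f : E →ₗ[ℝ] ℝ) {c : ℝ} {a b : E} (ha : c ≤ f a) (hb : f b < c) :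
    zc f c a b ∈ segment ℝ a b := by
  have hD : 0 < f a - f b := by linarith
  refine ⟨(f a - f b)⁻¹ * (c - f b), (f a - f b)⁻¹ * (f a - c), ?_, ?_, ?_, ?_⟩
  · exact mul_nonneg (inv_nonneg.2 hD.le) (by linarith)
  · exact mul_nonneg (inv_nonneg.2 hD.le) (by linarith)
  · rw [← mul_add, show c - f b + (f a - c) = f a - f b by ring, inv_mul_cancel₀ hD.ne']
  · unfold zc
    rw [smul_add, smul_smul, smul_smul]

/-- the crossing points of hull points are in `C` -/
theorem exists_zc {f : E →ₗ[ℝ] ℝ} {c : ℝ} {A B C : Set E} (hC : Convex ℝ C)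
    (hA : ∀ a ∈ A, c ≤ f a) (hB : ∀ b ∈ B, f b < c) (hz : ∀ a ∈ A, ∀ b ∈ B, zc f c a b ∈ C)
    {a b : E} (ha : a ∈ convexHull ℝ A) (hb : b ∈ convexHull ℝ B) :
    ∃ z ∈ C, (f a - f b) • z = (c - f b) • a + (f a - c) • b := by
  have h1 : convexHull ℝ A ⊆ {a | c ≤ f a ∧ ∀ b ∈ B,
      ∃ z ∈ C, (f a - f b) • z = (c - f b) • a + (f a - c) • b} := by
    refine convexHull_min (fun a ha => ⟨hA a ha, fun b hb => ⟨_, hz a ha b hb,
      zc_spec f c (lt_of_lt_of_le (hB b hb) (hA a ha))⟩⟩) ?_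
    rintro a1 ⟨h1, h1'⟩ a2 ⟨h2, h2'⟩ l m hl hm hlm
    have e : f (l • a1 + m • a2) = l * f a1 + m * f a2 := by simp
    refine ⟨?_, fun b hb => ?_⟩
    · rw [e]
      calc c = l * c + m * c := by rw [← add_mul, hlm, one_mul]
        _ ≤ _ := add_le_add (mul_le_mul_of_nonneg_left h1 hl) (mul_le_mul_of_nonneg_left h2 hm)
    · obtain ⟨z1, hz1, e1⟩ := h1' b hb
      obtain ⟨z2, hz2, e2⟩ := h2' b hb
      have hb' := hB b hb
      have hD1 : 0 < f a1 - f b := by linarith
      have hD2 : 0 < f a2 - f b := by linarith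
      set D := l * (f a1 - f b) + m * (f a2 - f b) with hD
      have hDpos : 0 < D := by
        rcases hl.lt_or_eq with h | h
        · have := mul_pos h hD1
          have := mul_nonneg hm hD2.le
          linarith
        · have hm1 : m = 1 := by linarith
          rw [hD, ← h, hm1]
          linarith
      have hDe : f (l • a1 + m • a2) - f b = D := by
        rw [e, hD]
        have : f b = l * f b + m * f b := by rw [← add_mul, hlm, one_mul]
        linarith
      refine ⟨(l * (f a1 - f b) / D) • z1 + (m * (f a2 - f b) / D) • z2,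
        hC hz1 hz2 (by positivity) (by positivity) (by rw [← add_div, ← hD, div_self hDpos.ne']), ?_⟩
      rw [hDe, smul_add, smul_smul, smul_smul, mul_div_cancel₀ _ hDpos.ne',
        mul_div_cancel₀ _ hDpos.ne', mul_smul, mul_smul, e1, e2, e]
      have hc : c = l * c + m * c := by rw [← add_mul, hlm, one_mul]
      have h3 : l * f a1 + m * f a2 - c = l * (f a1 - c) + m * (f a2 - c) := by linarith
      rw [h3]
      module
  obtain ⟨hca, hab⟩ := h1 ha
  have h2 : convexHull ℝ B ⊆ {b | f b < c ∧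
      ∃ z ∈ C, (f a - f b) • z = (c - f b) • a + (f a - c) • b} := by
    refine convexHull_min (fun b hb => ⟨hB b hb, hab b hb⟩) ?_
    rintro b1 ⟨h1, z1, hz1, e1⟩ b2 ⟨h2, z2, hz2, e2⟩ l m hl hm hlm
    have e : f (l • b1 + m • b2) = l * f b1 + m * f b2 := by simp
    have hfb : l * f b1 + m * f b2 < c := by
      rcases hl.lt_or_eq with h | h
      · have h3 := mul_lt_mul_of_pos_left h1 h
        have h4 := mul_le_mul_of_nonneg_left h2.le hm
        calc _ < l * c + m * c := by linarith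
          _ = c := by rw [← add_mul, hlm, one_mul]
      · have hm1 : m = 1 := by linarith
        rw [← h, hm1]
        linarith
    refine ⟨by rw [e]; exact hfb, ?_⟩
    have hD1 : 0 < f a - f b1 := by linarith
    have hD2 : 0 < f a - f b2 := by linarith
    set D := l * (f a - f b1) + m * (f a - f b2) with hD
    have hfa : f a = l * f a + m * f a := by rw [← add_mul, hlm, one_mul]
    have hDe : f a - f (l • b1 + m • b2) = D := by
      rw [e, hD]
      linarith
    have hDpos : 0 < D := by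
      rw [← hDe, e]
      linarith
    refine ⟨(l * (f a - f b1) / D) • z1 + (m * (f a - f b2) / D) • z2,
      hC hz1 hz2 (by positivity) (by positivity) (by rw [← add_div, ← hD, div_self hDpos.ne']), ?_⟩
    rw [hDe, smul_add, smul_smul, smul_smul, mul_div_cancel₀ _ hDpos.ne',
      mul_div_cancel₀ _ hDpos.ne', mul_smul, mul_smul, e1, e2, e]
    have hc : c = l * c + m * c := by rw [← add_mul, hlm, one_mul]
    have h3 : c - (l * f b1 + m * f b2) = l * (c - f b1) + m * (c - f b2) := by linarith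
    rw [h3]
    have h4 : (f a - c) • (l • b1 + m • b2) = l • ((f a - c) • b1) + m • ((f a - c) • b2) := by
      module
    rw [h4]
    module
  exact (h2 hb).2

/-- the hull of `s` clipped by a half space -/
theorem clip_hull (f : E →ₗ[ℝ] ℝ) (c : ℝ) (s : Set E) :
    convexHull ℝ s ∩ {y | c ≤ f y} = convexHull ℝ ({y | y ∈ s ∧ c ≤ f y} ∪
      (fun p : E × E => zc f c p.1 p.2) '' ({y | y ∈ s ∧ c ≤ f y} ×ˢ {y | y ∈ s ∧ f y < c})) := by
  set A := {y | y ∈ s ∧ c ≤ f y} with hA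
  set B := {y | y ∈ s ∧ f y < c} with hB
  set Z := (fun p : E × E => zc f c p.1 p.2) '' (A ×ˢ B) with hZ
  apply Subset.antisymm
  · rintro x ⟨hx, hcx⟩
    have hsAB : s = A ∪ B := by
      ext y
      simp only [hA, hB, mem_union, mem_ofPred_eq]
      rcases le_or_gt c (f y) with h | h
      · simp [h]
      · simp [h]
    rw [hsAB] at hx
    rcases B.eq_empty_or_nonempty with hB0 | hB0
    · rw [hB0, union_empty] at hx
      exact convexHull_mono subset_union_left hx
    have hBlt : convexHull ℝ B ⊆ {y | f y < c} :=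
      convexHull_min (fun y hy => hy.2) (convex_halfSpace_lt f.isLinear c)
    rcases A.eq_empty_or_nonempty with hA0 | hA0
    · rw [hA0, empty_union] at hx
      have h1 : f x < c := hBlt hx
      exact absurd hcx (not_le.2 h1)
    rw [convexHull_union hA0 hB0, mem_convexJoin] at hx
    obtain ⟨a, ha, b, hb, hxs⟩ := hx
    have hC := convex_convexHull ℝ (A ∪ Z)
    obtain ⟨z, hz, hze⟩ := exists_zc (f := f) (c := c) hC (fun a ha => ha.2) (fun b hb => hb.2)
      (fun a ha b hb => subset_convexHull ℝ _ (Or.inr ⟨(a, b), ⟨ha, hb⟩, rfl⟩)) ha hb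
    have haC : a ∈ convexHull ℝ (A ∪ Z) := convexHull_mono subset_union_left ha
    have hfa : c ≤ f a := by
      have : convexHull ℝ A ⊆ {y | c ≤ f y} :=
        convexHull_min (fun y hy => hy.2) (convex_halfSpace_ge f.isLinear c)
      exact this ha
    have hfb : f b < c := hBlt hb
    obtain ⟨l, m, hl, hm, hlm, rfl⟩ := hxs
    have hcx' : c ≤ l * f a + m * f b := by
      have : c ≤ f (l • a + m • b) := hcx
      simpa using this
    rcases hfa.lt_or_eq with h | h
    · have hfac : 0 < f a - c := by linarith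
      have hl1 : l = 1 - m := by linarith
      have e1 : l • a + m • b = ((l * f a + m * f b - c) / (f a - c)) • a +
          (m * (f a - f b) / (f a - c)) • z := by
        have h1 : (f a - c) • (l • a + m • b) = (l * f a + m * f b - c) • a +
            m • ((f a - f b) • z) := by
          rw [hze, hl1]
          module
        have h2 : l • a + m • b = (f a - c)⁻¹ • ((f a - c) • (l • a + m • b)) := by
          rw [inv_smul_smul₀ hfac.ne']
        rw [h2, h1, smul_add, smul_smul, smul_smul, smul_smul]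
        congr 2
        · rw [div_eq_inv_mul]
        · rw [div_eq_inv_mul]
          ring
      rw [e1]
      refine hC haC hz (div_nonneg (by linarith) hfac.le)
        (div_nonneg (mul_nonneg hm (by linarith)) hfac.le) ?_
      rw [← add_div, div_eq_one_iff_eq hfac.ne', hl1]
      ring
    · have hm0 : m = 0 := by
        by_contra hne
        have hmpos : 0 < m := lt_of_le_of_ne hm (Ne.symm hne)
        rw [← h] at hcx'
        have h3 : c = l * c + m * c := by rw [← add_mul, hlm, one_mul]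
        have h4 := mul_lt_mul_of_pos_left hfb hmpos
        linarith
      have hl1 : l = 1 := by linarith
      rw [hm0, hl1, one_smul, zero_smul, add_zero]
      exact haC
  · refine convexHull_min ?_ ((convex_convexHull ℝ s).inter (convex_halfSpace_ge f.isLinear c))
    rintro y (hy | ⟨⟨a, b⟩, ⟨ha, hb⟩, rfl⟩)
    · exact ⟨subset_convexHull ℝ _ hy.1, hy.2⟩
    · refine ⟨?_, ?_⟩
      · exact (convex_convexHull ℝ s).segment_subset (subset_convexHull ℝ _ ha.1)
          (subset_convexHull ℝ _ hb.1) (zc_mem_segment f ha.2 hb.2)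
      · exact (f_zc f c (lt_of_lt_of_le hb.2 ha.2)).ge

end clip


/-! ### Fourier-Motzkin elimination -/

theorem exists_between {A B : Set ℝ} (hA : A.Finite) (hB : B.Finite)
    (h : ∀ a ∈ A, ∀ b ∈ B, a ≤ b) : ∃ y, (∀ a ∈ A, a ≤ y) ∧ ∀ b ∈ B, y ≤ b := by
  rcases A.eq_empty_or_nonempty with rfl | hA0
  · rcases B.eq_empty_or_nonempty with rfl | hB0
    · exact ⟨0, by simp, by simp⟩
    · obtain ⟨b0, hb0, hmin⟩ := Set.exists_min_image B id hB hB0
      exact ⟨b0, by simp, hmin⟩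
  · obtain ⟨a0, ha0, hmax⟩ := Set.exists_max_image A id hA hA0
    exact ⟨a0, hmax, fun b hb => h a0 ha0 b hb⟩

/-- the projection of a polyhedron in `E2 × ℝ` is a polyhedron -/
theorem fm {Λ : Set (E2 × ℝ × ℝ)} (hΛ : Λ.Finite) : ∃ Λ' : Set (E2 × ℝ), Λ'.Finite ∧
    {x : E2 | ∃ y : ℝ, ∀ l ∈ Λ, l.2.2 ≤ inner ℝ l.1 x + l.2.1 * y} = Hull Λ' := by
  set Z := {l ∈ Λ | l.2.1 = 0} with hZ
  set P := {l ∈ Λ | 0 < l.2.1} with hP
  set N := {l ∈ Λ | l.2.1 < 0} with hN
  have hZf : Z.Finite := hΛ.subset fun l hl => hl.1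
  have hPf : P.Finite := hΛ.subset fun l hl => hl.1
  have hNf : N.Finite := hΛ.subset fun l hl => hl.1
  refine ⟨(fun l : E2 × ℝ × ℝ => (l.1, l.2.2)) '' Z ∪
    (fun q : (E2 × ℝ × ℝ) × (E2 × ℝ × ℝ) => (q.1.2.1 • q.2.1 - q.2.2.1 • q.1.1,
      q.1.2.1 * q.2.2.2 - q.2.2.1 * q.1.2.2)) '' (P ×ˢ N),
    (hZf.image _).union ((hPf.prod hNf).image _), ?_⟩
  ext x
  constructor
  · rintro ⟨y, hy⟩ _ (⟨l, hl, rfl⟩ | ⟨⟨i, j⟩, ⟨hi, hj⟩, rfl⟩)
    · have h1 := hy l hl.1
      rw [hl.2, zero_mul, add_zero] at h1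
      exact h1
    · have h1 := hy i hi.1
      have h2 := hy j hj.1
      have hi2 : 0 < i.2.1 := hi.2
      have hj2 : j.2.1 < 0 := hj.2
      simp only [inner_sub_left, inner_smul_left, RCLike.conj_to_real]
      have h3 := mul_le_mul_of_nonneg_left h2 hi2.le
      have h4 := mul_le_mul_of_nonneg_left h1 (neg_nonneg.2 hj2.le)
      linarith
  · intro hx
    obtain ⟨y, hy1, hy2⟩ := exists_between (hPf.image fun l => (l.2.2 - inner ℝ l.1 x) / l.2.1)
      (hNf.image fun l => (l.2.2 - inner ℝ l.1 x) / l.2.1) (by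
        rintro _ ⟨i, hi, rfl⟩ _ ⟨j, hj, rfl⟩
        have hi2 : 0 < i.2.1 := hi.2
        have hj2 : j.2.1 < 0 := hj.2
        have h1 := hx _ (Or.inr ⟨(i, j), ⟨hi, hj⟩, rfl⟩)
        simp only [inner_sub_left, inner_smul_left, RCLike.conj_to_real] at h1
        simp only
        rw [div_le_iff₀ hi2, div_mul_eq_mul_div, le_div_iff_of_neg hj2]
        linarith)
    refine ⟨y, fun l hl => ?_⟩
    rcases lt_trichotomy l.2.1 0 with h | h | h
    · have h1 := hy2 _ ⟨l, ⟨hl, h⟩, rfl⟩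
      simp only at h1
      rw [le_div_iff_of_neg h] at h1
      linarith
    · have h1 := hx _ (Or.inl ⟨l, ⟨hl, h⟩, rfl⟩)
      simp only at h1
      rw [h, zero_mul, add_zero]
      exact h1
    · have h1 := hy1 _ ⟨l, ⟨hl, h⟩, rfl⟩
      simp only at h1
      rw [div_le_iff₀ h] at h1
      linarith

theorem inner_single (i : Fin 2) (x : E2) :
    inner ℝ (EuclideanSpace.single i (1 : ℝ)) x = x i := by
  rw [EuclideanSpace.inner_single_left]
  simp

/-- a point is a polyhedron -/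
theorem hull_singleton (p : E2) : ∃ Λ : Set (E2 × ℝ), Λ.Finite ∧ ({p} : Set E2) = Hull Λ := by
  refine ⟨(fun q : Fin 2 × Bool => if q.2 then (EuclideanSpace.single q.1 (1 : ℝ), p q.1)
    else (-EuclideanSpace.single q.1 (1 : ℝ), -p q.1)) '' univ, finite_univ.image _, ?_⟩
  ext x
  simp only [mem_singleton_iff, Hull, mem_ofPred_eq]
  constructor
  · rintro rfl _ ⟨⟨i, b⟩, -, rfl⟩
    cases b <;> simp [inner_single]
  · intro h
    ext i
    have h1 := h _ ⟨(i, true), mem_univ _, rfl⟩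
    have h2 := h _ ⟨(i, false), mem_univ _, rfl⟩
    simp [inner_single] at h1 h2
    exact le_antisymm h2 h1

/-- every hull of a finite set is a polyhedron -/
theorem exists_hull (s : Finset E2) :
    ∃ Λ : Set (E2 × ℝ), Λ.Finite ∧ convexHull ℝ (s : Set E2) = Hull Λ := by
  classical
  induction s using Finset.induction_on with
  | empty =>
    refine ⟨{(0, 1)}, finite_singleton _, ?_⟩
    ext x
    simp [Hull]
  | insert p s _ ih =>
    rcases s.eq_empty_or_nonempty with rfl | hne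
    · simpa using hull_singleton p
    obtain ⟨Λ, hΛ, hs⟩ := ih
    have hne' : (s : Set E2).Nonempty := hne
    obtain ⟨Λ', hΛ', h⟩ := fm (Λ := {((0 : E2), (1 : ℝ), (0 : ℝ)), ((0 : E2), (-1 : ℝ), (-1 : ℝ))} ∪
      (fun l : E2 × ℝ => (l.1, inner ℝ l.1 p - l.2, inner ℝ l.1 p)) '' Λ)
      ((Set.toFinite _).union (hΛ.image _))
    refine ⟨Λ', hΛ', ?_⟩
    rw [← h, Finset.coe_insert, convexHull_insert hne']
    ext x
    rw [mem_convexJoin]
    constructor
    · rintro ⟨q, hq, z, hz, a, b, ha, hb, hab, hx⟩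
      rw [mem_singleton_iff] at hq
      rw [hq] at hx
      subst hx
      refine ⟨b, ?_⟩
      rintro l (hl | ⟨l, hl, rfl⟩)
      · rcases hl with rfl | hl
        · simpa using hb
        · rw [mem_singleton_iff] at hl
          subst hl
          simp
          linarith
      · rw [hs] at hz
        have h1 := hz l hl
        simp only [inner_add_right, inner_smul_right]
        have h2 := mul_le_mul_of_nonneg_left h1 hb
        have h3 : (inner ℝ l.1 p : ℝ) = a * inner ℝ l.1 p + b * inner ℝ l.1 p := by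
          rw [← add_mul, hab, one_mul]
        linarith [h3]
    · rintro ⟨b, hb⟩
      have hb0 : 0 ≤ b := by
        have := hb _ (Or.inl (Or.inl rfl))
        simpa using this
      have hb1 : b ≤ 1 := by
        have := hb _ (Or.inl (Or.inr rfl))
        simp at this
        linarith
      have hl : ∀ l ∈ Λ, inner ℝ l.1 p ≤ inner ℝ l.1 x + (inner ℝ l.1 p - l.2) * b := fun l hl =>
        hb _ (Or.inr ⟨l, hl, rfl⟩)
      refine ⟨p, rfl, ?_⟩
      rcases hb0.lt_or_eq with h0 | h0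
      · refine ⟨b⁻¹ • (x - (1 - b) • p), ?_, ?_⟩
        · rw [hs]
          intro l hlm
          have h1 := hl l hlm
          rw [inner_smul_right, inner_sub_right, inner_smul_right, ← div_eq_inv_mul,
            le_div_iff₀ h0]
          linarith
        · refine ⟨1 - b, b, by linarith, hb0, by ring, ?_⟩
          rw [smul_inv_smul₀ h0.ne']
          module
      · -- the recession cone is trivial
        obtain ⟨z0, hz0⟩ := hne'
        have hz0' : z0 ∈ convexHull ℝ (s : Set E2) := subset_convexHull ℝ _ hz0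
        obtain ⟨R, hR⟩ := (s.finite_toSet.isCompact_convexHull ℝ).isBounded.exists_norm_le
        have hxp : x = p := by
          by_contra hne
          have hpos : 0 < ‖x - p‖ := norm_pos_iff.2 (sub_ne_zero.2 hne)
          have hR0 : 0 ≤ R := (norm_nonneg z0).trans (hR z0 hz0')
          set k := (R + ‖z0‖ + 1) / ‖x - p‖ with hk
          have hk0 : 0 ≤ k := by positivity
          have hmem : z0 + k • (x - p) ∈ convexHull ℝ (s : Set E2) := by
            rw [hs] at hz0' ⊢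
            intro l hlm
            have h1 := hl l hlm
            rw [← h0, mul_zero, add_zero] at h1
            have h2 := hz0' l hlm
            rw [inner_add_right, inner_smul_right, inner_sub_right]
            have h3 := mul_nonneg hk0 (sub_nonneg.2 h1)
            linarith
          have h4 := hR _ hmem
          have h5 : ‖k • (x - p)‖ ≤ ‖z0 + k • (x - p)‖ + ‖z0‖ := by
            calc ‖k • (x - p)‖ = ‖(z0 + k • (x - p)) - z0‖ := by rw [add_sub_cancel_left]
              _ ≤ _ := norm_sub_le _ _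
          rw [norm_smul, Real.norm_of_nonneg hk0, hk, div_mul_cancel₀ _ hpos.ne'] at h5
          linarith
        refine ⟨z0, hz0', 1, 0, zero_le_one, le_rfl, by norm_num, ?_⟩
        rw [hxp]
        simp


/-- clipping by finitely many half planes -/
theorem clips {t : Set E2} (ht : IsPoly t) {Λ : Set (E2 × ℝ)} (hΛ : Λ.Finite)
    (hclip : ∀ {t : Set E2}, IsPoly t → ∀ l : E2 × ℝ, IsPoly (t ∩ {y | l.2 ≤ inner ℝ l.1 y})) :
    IsPoly (t ∩ Hull Λ) := by
  induction Λ, hΛ using Set.Finite.induction_on with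
  | empty =>
    have : Hull (∅ : Set (E2 × ℝ)) = univ := by
      ext x
      simp [Hull]
    rw [this, inter_univ]
    exact ht
  | @insert l Λ _ _ ih =>
    have : t ∩ Hull (insert l Λ) = (t ∩ Hull Λ) ∩ {y | l.2 ≤ inner ℝ l.1 y} := by
      ext x
      simp only [Hull, mem_inter_iff, mem_ofPred_eq, mem_insert_iff, forall_eq_or_imp]
      tauto
    rw [this]
    exact hclip ih l

theorem isClosed_sUnion' {T : Set (Set E2)} (hT : T.Finite) (h : ∀ t ∈ T, IsClosed t) :
    IsClosed (⋃₀ T) := by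
  rw [sUnion_eq_biUnion]
  exact hT.isClosed_biUnion h

end PolyAux

open PolyAux

theorem IsPoly.clip {t : Set E2} (ht : IsPoly t) (l : E2 × ℝ) :
    IsPoly (t ∩ {y | l.2 ≤ inner ℝ l.1 y}) := by
  classical
  obtain ⟨s, rfl⟩ := ht
  have h1 := clip_hull (innerₛₗ ℝ l.1) l.2 (s : Set E2)
  set U := ({y | y ∈ (s : Set E2) ∧ l.2 ≤ (innerₛₗ ℝ l.1) y} ∪
      (fun p : E2 × E2 => zc (innerₛₗ ℝ l.1) l.2 p.1 p.2) ''
        ({y | y ∈ (s : Set E2) ∧ l.2 ≤ (innerₛₗ ℝ l.1) y} ×ˢ
          {y | y ∈ (s : Set E2) ∧ (innerₛₗ ℝ l.1) y < l.2})) with hU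
  have hf : U.Finite := by
    have hA : {y | y ∈ (s : Set E2) ∧ l.2 ≤ (innerₛₗ ℝ l.1) y}.Finite :=
      s.finite_toSet.subset fun y hy => hy.1
    have hB : {y | y ∈ (s : Set E2) ∧ (innerₛₗ ℝ l.1) y < l.2}.Finite :=
      s.finite_toSet.subset fun y hy => hy.1
    exact hA.union ((hA.prod hB).image _)
  refine ⟨hf.toFinset, ?_⟩
  rw [hf.coe_toFinset, ← h1]
  rfl


/-- an axis-parallel rectangle is a convex polygon -/
theorem isPoly_rect (a b c d : ℝ) : IsPoly {y : E2 | y 0 ∈ Icc a b ∧ y 1 ∈ Icc c d} := by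
  classical
  by_cases h : a ≤ b ∧ c ≤ d
  swap
  · refine ⟨∅, ?_⟩
    rw [Finset.coe_empty, convexHull_empty, eq_empty_iff_forall_notMem]
    rintro y ⟨⟨h1, h2⟩, h3, h4⟩
    exact h ⟨h1.trans h2, h3.trans h4⟩
  obtain ⟨hab, hcd⟩ := h
  refine ⟨{!₂[a, c], !₂[b, c], !₂[a, d], !₂[b, d]}, ?_⟩
  apply Subset.antisymm
  · rintro y ⟨⟨h1, h2⟩, h3, h4⟩
    set C := convexHull ℝ ((({!₂[a, c], !₂[b, c], !₂[a, d], !₂[b, d]} : Finset E2)) : Set E2)
      with hC
    have hconv : Convex ℝ C := convex_convexHull ℝ _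
    have hac : (!₂[a, c] : E2) ∈ C := subset_convexHull ℝ _ (by simp)
    have hbc : (!₂[b, c] : E2) ∈ C := subset_convexHull ℝ _ (by simp)
    have had : (!₂[a, d] : E2) ∈ C := subset_convexHull ℝ _ (by simp)
    have hbd : (!₂[b, d] : E2) ∈ C := subset_convexHull ℝ _ (by simp)
    -- weights
    have hw : ∀ u v x : ℝ, u ≤ x → x ≤ v → ∃ l m : ℝ, 0 ≤ l ∧ 0 ≤ m ∧ l + m = 1 ∧
        l * u + m * v = x := by
      intro u v x hux hxv
      rcases (hux.trans hxv).lt_or_eq with h | h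
      · have hpos : 0 < v - u := by linarith
        refine ⟨(v - x) / (v - u), (x - u) / (v - u), div_nonneg (by linarith) hpos.le,
          div_nonneg (by linarith) hpos.le, ?_, ?_⟩
        · rw [← add_div, div_eq_one_iff_eq hpos.ne']
          ring
        · field_simp
          ring
      · exact ⟨1, 0, zero_le_one, le_rfl, by norm_num, by linarith⟩
    obtain ⟨l, m, hl, hm, hlm, hx⟩ := hw a b (y 0) h1 h2
    obtain ⟨l', m', hl', hm', hlm', hx'⟩ := hw c d (y 1) h3 h4
    have h5 : (!₂[y 0, c] : E2) ∈ C := by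
      have := hconv hac hbc hl hm hlm
      convert this using 1
      ext i
      fin_cases i
      · simp [← hx]
      · simp [← add_mul, hlm]
    have h6 : (!₂[y 0, d] : E2) ∈ C := by
      have := hconv had hbd hl hm hlm
      convert this using 1
      ext i
      fin_cases i
      · simp [← hx]
      · simp [← add_mul, hlm]
    have h7 := hconv h5 h6 hl' hm' hlm'
    convert h7 using 1
    ext i
    fin_cases i
    · simp [← add_mul, hlm']
    · simp [← hx']
  · refine convexHull_min ?_ ?_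
    · intro y hy
      simp only [Finset.coe_insert, Finset.coe_singleton, mem_insert_iff, mem_singleton_iff] at hy
      rcases hy with rfl | rfl | rfl | rfl <;> simp [hab, hcd]
    · intro x hx y hy l m hl hm hlm
      obtain ⟨⟨x1, x2⟩, x3, x4⟩ := hx
      obtain ⟨⟨y1, y2⟩, y3, y4⟩ := hy
      have key : ∀ u : ℝ, u = l * u + m * u := fun u => by rw [← add_mul, hlm, one_mul]
      simp only [mem_ofPred_eq, PiLp.add_apply, PiLp.smul_apply, smul_eq_mul, mem_Icc]
      have ka := key a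
      have kb := key b
      have kc := key c
      have kd := key d
      refine ⟨⟨?_, ?_⟩, ?_, ?_⟩
      · nlinarith [mul_le_mul_of_nonneg_left x1 hl, mul_le_mul_of_nonneg_left y1 hm]
      · nlinarith [mul_le_mul_of_nonneg_left x2 hl, mul_le_mul_of_nonneg_left y2 hm]
      · nlinarith [mul_le_mul_of_nonneg_left x3 hl, mul_le_mul_of_nonneg_left y3 hm]
      · nlinarith [mul_le_mul_of_nonneg_left x4 hl, mul_le_mul_of_nonneg_left y4 hm]

theorem isPoly_hull {Λ : Set (E2 × ℝ)} (hΛ : Λ.Finite) (hb : Bornology.IsBounded (Hull Λ)) :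
    IsPoly (Hull Λ) := by
  obtain ⟨R, hR⟩ := hb.exists_norm_le
  have h1 : {y : E2 | y 0 ∈ Icc (-R) R ∧ y 1 ∈ Icc (-R) R} ∩ Hull Λ = Hull Λ := by
    apply inter_eq_right.2
    intro y hy
    have h2 := hR y hy
    have h3 := (PiLp.norm_apply_le y 0).trans h2
    have h4 := (PiLp.norm_apply_le y 1).trans h2
    rw [Real.norm_eq_abs] at h3 h4
    exact ⟨⟨(abs_le.1 h3).1, (abs_le.1 h3).2⟩, (abs_le.1 h4).1, (abs_le.1 h4).2⟩
  rw [← h1]
  exact clips (isPoly_rect _ _ _ _) hΛ fun ht l => IsPoly.clip ht l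

theorem IsPoly2.exists_halfplanes {t : Set E2} (ht : IsPoly2 t) :
    ∃ Λ : Set (E2 × ℝ), Λ.Finite ∧ (∀ l ∈ Λ, ‖l.1‖ = 1) ∧ t = Hull Λ := by
  obtain ⟨⟨s, hs⟩, hne⟩ := ht
  obtain ⟨Λ, hΛ, h⟩ := exists_hull s
  rw [← hs] at h
  obtain ⟨x0, hx0⟩ := hne.mono interior_subset
  refine ⟨(fun l : E2 × ℝ => (‖l.1‖⁻¹ • l.1, ‖l.1‖⁻¹ * l.2)) '' {l ∈ Λ | l.1 ≠ 0},
    (hΛ.subset fun l hl => hl.1).image _, ?_, ?_⟩
  · rintro _ ⟨l, hl, rfl⟩
    simp only
    rw [norm_smul, norm_inv, norm_norm, inv_mul_cancel₀ (norm_ne_zero_iff.2 hl.2)]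
  · rw [h]
    rw [h] at hx0
    ext x
    constructor
    · rintro hx _ ⟨l, hl, rfl⟩
      simp only [inner_smul_left, RCLike.conj_to_real]
      exact mul_le_mul_of_nonneg_left (hx l hl.1) (inv_nonneg.2 (norm_nonneg _))
    · intro hx l hl
      by_cases h0 : l.1 = 0
      · have := hx0 l hl
        rw [h0, inner_zero_left] at this ⊢
        exact this
      · have h1 := hx _ ⟨l, ⟨hl, h0⟩, rfl⟩
        simp only [inner_smul_left, RCLike.conj_to_real] at h1
        exact le_of_mul_le_mul_left h1 (inv_pos.2 (norm_pos_iff.2 h0))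

theorem IsPoly.inter {s t : Set E2} (hs : IsPoly s) (ht : IsPoly t) : IsPoly (s ∩ t) := by
  obtain ⟨u, rfl⟩ := ht
  obtain ⟨Λ, hΛ, h⟩ := exists_hull u
  rw [h]
  exact clips hs hΛ fun ht l => IsPoly.clip ht l

theorem IsPoly.image {s : Set E2} (hs : IsPoly s) (g : E2 →ᵃ[ℝ] E2) : IsPoly (g '' s) := by
  classical
  obtain ⟨u, rfl⟩ := hs
  refine ⟨u.image g, ?_⟩
  rw [Finset.coe_image, AffineMap.image_convexHull]

theorem IsPoly.preimage {s : Set E2} (hs : IsPoly s) (g : E2 →ᵃⁱ[ℝ] E2) : IsPoly (g ⁻¹' s) := by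
  have hg := IsPoly.image hs ((g.toAffineIsometryEquiv rfl).symm.toAffineEquiv : E2 →ᵃ[ℝ] E2)
  have h1 : g ⁻¹' s = (((g.toAffineIsometryEquiv rfl).symm.toAffineEquiv : E2 →ᵃ[ℝ] E2)) '' s := by
    ext x
    constructor
    · intro hx
      refine ⟨g x, hx, ?_⟩
      exact (g.toAffineIsometryEquiv rfl).symm_apply_apply x
    · rintro ⟨y, hy, rfl⟩
      rw [mem_preimage]
      have := (g.toAffineIsometryEquiv rfl).apply_symm_apply y
      have h2 : g ((g.toAffineIsometryEquiv rfl).symm y) = y := this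
      change g ((g.toAffineIsometryEquiv rfl).symm y) ∈ s
      rw [h2]
      exact hy
  rw [h1]
  exact hg

theorem isPoly_segment (a b : E2) : IsPoly (segment ℝ a b) := by
  classical
  refine ⟨{a, b}, ?_⟩
  rw [Finset.coe_insert, Finset.coe_singleton, convexHull_pair]

/-- degenerate polygons may be dropped: if `Z`, a finite union of polygons, is contained in the
closure of its interior then it is the union of the nondegenerate ones (the union `Z'` of the
nondegenerate ones is closed; if the open set `interior Z \ Z'` were nonempty, one of the degenerate ones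
would have interior points, `Hhelper79.Seam.exists_interior`). -/
theorem sUnion_nondegenerate {T : Set (Set E2)} (hT : T.Finite) (hp : ∀ t ∈ T, IsPoly t)
    (hc : ⋃₀ T ⊆ closure (interior (⋃₀ T))) :
    ⋃₀ T = ⋃₀ {t ∈ T | (interior t).Nonempty} := by
  apply Subset.antisymm
  · intro x hx
    by_contra hcon
    have hcl : IsClosed (⋃₀ {t ∈ T | (interior t).Nonempty}) :=
      isClosed_sUnion' (hT.subset fun t ht => ht.1) fun t ht => (hp t ht.1).isClosed
    have h1 : (interior (⋃₀ T) ∩ (⋃₀ {t ∈ T | (interior t).Nonempty})ᶜ).Nonempty := by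
      have := mem_closure_iff.1 (hc hx) _ hcl.isOpen_compl hcon
      rwa [inter_comm]
    have hT' : {t ∈ T | ¬ (interior t).Nonempty}.Finite := hT.subset fun t ht => ht.1
    obtain ⟨t, ht, y, hy, -⟩ := exists_interior hT'.toFinset
      (fun t ht => (hp t (hT'.mem_toFinset.1 ht).1).isClosed)
      (isOpen_interior.inter hcl.isOpen_compl) h1 (by
        rintro y ⟨hy1, hy2⟩
        obtain ⟨t, ht, hyt⟩ := interior_subset hy1
        refine mem_iUnion₂.2 ⟨t, hT'.mem_toFinset.2 ⟨ht, fun hne => hy2 ⟨t, ⟨ht, hne⟩, hyt⟩⟩, hyt⟩)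
    exact (hT'.mem_toFinset.1 ht).2 ⟨y, hy⟩
  · exact sUnion_subset_sUnion fun t ht => ht.1

theorem IsPoly2.subset_closure_interior {t : Set E2} (ht : IsPoly2 t) :
    t ⊆ closure (interior t) := by
  rw [ht.1.convex.closure_interior_eq_closure_of_nonempty_interior ht.2]
  exact subset_closure

theorem PolySet.subset_closure_interior {X : Set E2} (hX : PolySet X) :
    X ⊆ closure (interior X) := by
  obtain ⟨T, -, hp, rfl⟩ := hX
  rintro x ⟨t, ht, hx⟩
  exact closure_mono (interior_mono (subset_sUnion_of_mem ht))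
    ((hp t ht).subset_closure_interior hx)

theorem PolySet.isCompact {X : Set E2} (hX : PolySet X) : IsCompact X := by
  obtain ⟨T, hT, hp, rfl⟩ := hX
  exact hT.isCompact_sUnion fun t ht => (hp t ht).1.isCompact

theorem PolySet.union {X X' : Set E2} (hX : PolySet X) (hX' : PolySet X') :
    PolySet (X ∪ X') := by
  obtain ⟨T, hT, hp, rfl⟩ := hX
  obtain ⟨T', hT', hp', rfl⟩ := hX'
  refine ⟨T ∪ T', hT.union hT', ?_, (sUnion_union T T').symm⟩
  rintro t (ht | ht)
  · exact hp t ht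
  · exact hp' t ht

/-- clipping a `PolySet` by a convex polygon given by half planes -/
theorem PolySet.inter_hull {X : Set E2} (hX : PolySet X) {Λ : Set (E2 × ℝ)} (hΛ : Λ.Finite)
    (hc : X ∩ Hull Λ ⊆ closure (interior (X ∩ Hull Λ))) : PolySet (X ∩ Hull Λ) := by
  obtain ⟨T, hT, hp, rfl⟩ := hX
  have h1 : ⋃₀ T ∩ Hull Λ = ⋃₀ ((fun t => t ∩ Hull Λ) '' T) := by
    ext x
    simp only [mem_inter_iff, mem_sUnion, mem_image, exists_exists_and_eq_and]
    constructor
    · rintro ⟨⟨t, ht, hx⟩, hx'⟩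
      exact ⟨t, ht, hx, hx'⟩
    · rintro ⟨t, ht, hx, hx'⟩
      exact ⟨⟨t, ht, hx⟩, hx'⟩
  have h2 : ∀ t ∈ (fun t => t ∩ Hull Λ) '' T, IsPoly t := by
    rintro _ ⟨t, ht, rfl⟩
    exact clips (hp t ht).1 hΛ fun ht l => IsPoly.clip ht l
  rw [h1] at hc ⊢
  exact ⟨_, (hT.image _).subset fun t ht => ht.1, fun t ht => ⟨h2 t ht.1, ht.2⟩,
    sUnion_nondegenerate (hT.image _) h2 hc⟩

section
variable {Y : Type*} [NormedAddCommGroup Y] [InnerProductSpace ℝ Y]

/-- piecewise isometric with possibly degenerate pieces -/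
theorem PolyAux.pieced_of {X : Set E2} {f : E2 → Y} (hc : X ⊆ closure (interior X))
    {T : Set (Set E2)} (hT : T.Finite) (hp : ∀ t ∈ T, IsPoly t) (hX : X = ⋃₀ T)
    (hg : ∀ t ∈ T, ∃ g : E2 →ᵃⁱ[ℝ] Y, ∀ x ∈ t, f x = g x) : Pieced X f := by
  subst hX
  exact ⟨_, hT.subset fun t ht => ht.1, fun t ht => ⟨hp t ht.1, ht.2⟩,
    sUnion_nondegenerate hT hp hc, fun t ht => hg t ht.1⟩

theorem Pieced.polySet {X : Set E2} {f : E2 → Y} (h : Pieced X f) : PolySet X := by
  obtain ⟨T, hT, hp, hX, -⟩ := h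
  exact ⟨T, hT, hp, hX⟩

/-- A map which is isometric on each of finitely many closed sets `R i`, each a finite union of
(possibly unbounded) intersections of finitely many half planes, is piecewise isometric on every `PolySet`
`X` covered by the `R i`. -/
theorem Pieced.of_cover {X : Set E2} (hX : PolySet X) {f : E2 → Y} {k : ℕ}
    {Λ : Fin k → Set (E2 × ℝ)} (hΛ : ∀ i, (Λ i).Finite) (hXc : X ⊆ ⋃ i, Hull (Λ i))
    (hf : ∀ i, ∃ g : E2 →ᵃⁱ[ℝ] Y, ∀ x ∈ X ∩ Hull (Λ i), f x = g x) : Pieced X f := by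
  have hc := hX.subset_closure_interior
  obtain ⟨T, hT, hp, hXT⟩ := hX
  refine pieced_of hc (T := (fun q : Set E2 × Fin k => q.1 ∩ Hull (Λ q.2)) '' (T ×ˢ univ))
    ((hT.prod finite_univ).image _) ?_ ?_ ?_
  · rintro _ ⟨⟨t, i⟩, ⟨ht, -⟩, rfl⟩
    exact clips (hp t ht).1 (hΛ i) fun ht l => IsPoly.clip ht l
  · apply Subset.antisymm
    · intro x hx
      obtain ⟨i, hi⟩ := mem_iUnion.1 (hXc hx)
      rw [hXT] at hx
      obtain ⟨t, ht, hxt⟩ := hx
      exact ⟨_, ⟨(t, i), ⟨ht, mem_univ i⟩, rfl⟩, hxt, hi⟩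
    · rintro x ⟨_, ⟨⟨t, i⟩, ⟨ht, -⟩, rfl⟩, hxt, -⟩
      rw [hXT]
      exact ⟨t, ht, hxt⟩
  · rintro _ ⟨⟨t, i⟩, ⟨ht, -⟩, rfl⟩
    obtain ⟨g, hg⟩ := hf i
    refine ⟨g, fun x hx => hg x ⟨?_, hx.2⟩⟩
    rw [hXT]
    exact ⟨t, ht, hx.1⟩

theorem Pieced.continuousOn {X : Set E2} {f : E2 → Y} (h : Pieced X f) : ContinuousOn f X := by
  obtain ⟨T, hT, hp, rfl, hg⟩ := h
  induction T, hT using Set.Finite.induction_on with
  | empty => simp
  | @insert t T _ hT ih =>
    rw [sUnion_insert]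
    refine ContinuousOn.union_of_isClosed ?_ ?_ ?_ ?_
    · obtain ⟨g, hg⟩ := hg t (mem_insert t T)
      exact g.continuous.continuousOn.congr hg
    · exact ih (fun u hu => hp u (mem_insert_of_mem t hu))
        fun u hu => hg u (mem_insert_of_mem t hu)
    · exact (hp t (mem_insert t T)).1.isClosed
    · exact isClosed_sUnion' hT fun u hu => (hp u (mem_insert_of_mem t hu)).1.isClosed

/-- fibres of a piecewise isometric map are finite -/
theorem Pieced.finite_fibre {X : Set E2} {f : E2 → Y} (h : Pieced X f) (s : Y) :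
    {x | x ∈ X ∧ f x = s}.Finite := by
  obtain ⟨T, hT, -, rfl, hg⟩ := h
  have h1 : {x | x ∈ ⋃₀ T ∧ f x = s} ⊆ ⋃ t ∈ T, {x | x ∈ t ∧ f x = s} := by
    rintro x ⟨⟨t, ht, hxt⟩, hxs⟩
    exact mem_iUnion₂.mpr ⟨t, ht, hxt, hxs⟩
  refine (Set.Finite.biUnion hT fun t ht => ?_).subset h1
  obtain ⟨g, hgt⟩ := hg t ht
  refine Set.Subsingleton.finite ?_
  rintro x ⟨hx, hxs⟩ y ⟨hy, hys⟩
  apply g.injective
  rw [← hgt x hx, ← hgt y hy, hxs, hys]

theorem Pieced.mono {X X' : Set E2} {f : E2 → Y} (h : Pieced X f) (hX' : PolySet X')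
    (hs : X' ⊆ X) : Pieced X' f := by
  have hc := hX'.subset_closure_interior
  obtain ⟨T, hT, hp, rfl, hg⟩ := h
  obtain ⟨T', hT', hp', hXT'⟩ := hX'
  refine pieced_of hc (T := (fun q : Set E2 × Set E2 => q.1 ∩ q.2) '' (T ×ˢ T'))
    ((hT.prod hT').image _) ?_ ?_ ?_
  · rintro _ ⟨⟨t, t'⟩, ⟨ht, ht'⟩, rfl⟩
    exact IsPoly.inter (hp t ht).1 (hp' t' ht').1
  · apply Subset.antisymm
    · intro x hx
      obtain ⟨t, ht, hxt⟩ := hs hx
      rw [hXT'] at hx
      obtain ⟨t', ht', hxt'⟩ := hx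
      exact ⟨_, ⟨(t, t'), ⟨ht, ht'⟩, rfl⟩, hxt, hxt'⟩
    · rintro x ⟨_, ⟨⟨t, t'⟩, ⟨ht, ht'⟩, rfl⟩, hxt, hxt'⟩
      rw [hXT']
      exact ⟨t', ht', hxt'⟩
  · rintro _ ⟨⟨t, t'⟩, ⟨ht, ht'⟩, rfl⟩
    obtain ⟨g, hg⟩ := hg t ht
    exact ⟨g, fun x hx => hg x hx.1⟩

theorem Pieced.congr {X : Set E2} {f f' : E2 → Y} (h : Pieced X f) (hf : ∀ x ∈ X, f' x = f x) :
    Pieced X f' := by
  obtain ⟨T, hT, hp, rfl, hg⟩ := h
  refine ⟨T, hT, hp, rfl, fun t ht => ?_⟩
  obtain ⟨g, hg⟩ := hg t ht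
  exact ⟨g, fun x hx => (hf x ⟨t, ht, hx⟩).trans (hg x hx)⟩

/-- the image of a `PolySet` under a planar piecewise isometric map is a `PolySet` -/
theorem Pieced.polySet_image {X : Set E2} {F : E2 → E2} (h : Pieced X F) : PolySet (F '' X) := by
  obtain ⟨T, hT, hp, rfl, hg⟩ := h
  refine ⟨(fun t => F '' t) '' T, hT.image _, ?_, ?_⟩
  · rintro _ ⟨t, ht, rfl⟩
    obtain ⟨g, hg⟩ := hg t ht
    have h1 : F '' t = g '' t := image_congr hg
    simp only
    rw [h1]
    refine ⟨IsPoly.image (hp t ht).1 g.toAffineMap, ?_⟩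
    have h2 := (g.toAffineIsometryEquiv rfl).toHomeomorph.image_interior t
    have h3 : ((g.toAffineIsometryEquiv rfl).toHomeomorph : E2 → E2) = g := rfl
    rw [h3] at h2
    rw [← h2]
    exact (hp t ht).2.image _
  · rw [sUnion_image]
    ext y
    simp only [mem_image, mem_sUnion, mem_iUnion, exists_prop]
    constructor
    · rintro ⟨x, ⟨t, ht, hx⟩, rfl⟩
      exact ⟨t, ht, x, hx, rfl⟩
    · rintro ⟨t, ht, x, hx, rfl⟩
      exact ⟨x, ⟨t, ht, hx⟩, rfl⟩

theorem Pieced.comp {X : Set E2} {F : E2 → E2} {G : E2 → Y} (hF : Pieced X F)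
    (hG : Pieced (F '' X) G) : Pieced X (fun x => G (F x)) := by
  have hc := hF.polySet.subset_closure_interior
  obtain ⟨T, hT, hp, hX, hg⟩ := hF
  obtain ⟨T', hT', hp', hX', hg'⟩ := hG
  have hex : ∀ t : Set E2, ∃ g : E2 →ᵃⁱ[ℝ] E2, t ∈ T → ∀ x ∈ t, F x = g x := by
    intro t
    by_cases ht : t ∈ T
    · obtain ⟨g, hg⟩ := hg t ht
      exact ⟨g, fun _ => hg⟩
    · exact ⟨AffineIsometry.id, fun h => absurd h ht⟩
  choose g hg using hex
  refine pieced_of hc (T := (fun q : Set E2 × Set E2 => q.1 ∩ g q.1 ⁻¹' q.2) '' (T ×ˢ T'))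
    ((hT.prod hT').image _) ?_ ?_ ?_
  · rintro _ ⟨⟨t, t'⟩, ⟨ht, ht'⟩, rfl⟩
    exact IsPoly.inter (hp t ht).1 (IsPoly.preimage (hp' t' ht').1 _)
  · apply Subset.antisymm
    · intro x hx
      have hFx : F x ∈ ⋃₀ T' := by
        rw [← hX']
        exact mem_image_of_mem F hx
      obtain ⟨t', ht', hxt'⟩ := hFx
      rw [hX] at hx
      obtain ⟨t, ht, hxt⟩ := hx
      refine ⟨_, ⟨(t, t'), ⟨ht, ht'⟩, rfl⟩, hxt, ?_⟩
      rw [mem_preimage, ← hg t ht x hxt]
      exact hxt'
    · rintro x ⟨_, ⟨⟨t, t'⟩, ⟨ht, ht'⟩, rfl⟩, hxt, -⟩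
      rw [hX]
      exact ⟨t, ht, hxt⟩
  · rintro _ ⟨⟨t, t'⟩, ⟨ht, ht'⟩, rfl⟩
    obtain ⟨k, hk⟩ := hg' t' ht'
    refine ⟨k.comp (g t), fun x hx => ?_⟩
    have h1 : F x = g t x := hg t ht x hx.1
    rw [h1, hk _ hx.2]
    rfl

end

end Pool.Agent.SeamS
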