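import Pool.Agent.SeamS.AsmDefs
import Pool.Agent.SeamS.Poly
import Pool.Agent.SeamS.Local

/-!
# The blocks in the paper (module G1)

Notation: `M = a.M k`, `t e = (a.rt k).t e`, `p e = a.ep k e = pt (t e) (a.H k)`, `n e`, `ev e z = ⟪n e, z - p e⟫`. A point `z` is in the strip `k` if `|z 1 - a.c' k| ≤ a.δ`.
For a point `z` of the strip let `z*` be the point of the event line `e` at the same height: `ev e z = ⟪n e, e1⟫ (z 0 - z* 0)`; by `IsThin.near` `dist z* (p e) < η ≤ W`, so `|z* 0 - t e| < W`.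

`ev_pos`, `ev_neg`: iterate `IsThin.order` (from `e'` down to `e`); `ev_neg` is the contrapositive.
`lt_of_ev`, `lt_of_ev'`: by the remark above.
`IF_pos`, `facet_pos`: `IsRoute.mono`, `posR`, `posL`; for a facet `0 ≤ ev (e-1)` gives `0 ≤ ev 0`, and `ev e ≤ 0` gives `ev M ≤ 0`.
`iUnion_R`: `⊆`: let `z ∈ Q`; by `Qbox` and `gap` either `|z 0 - x k| ≤ cc + 3W` for some `k < m` (bead), or `x k + cc + 3W ≤ z 0 ≤ x (k+1) - cc - 3W` for some `k + 1 < m`. Then `z` is in the strip (`Qstr`); if `ev 0 z ≤ 0` it is in `strR k`; if `0 ≤ ev M z` it is in `strL (k+1)`; otherwise let `e` be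
the smallest index with `ev e z ≤ 0`: `z` is in the facet `(k, e)`. `⊇`: `strR k`: `z 0 < t 0 + W ≤ x (k+1) - cc - 3W` (`lt_of_ev'`, `mono`, `posL`), so `Qstr` applies; facets: `facet_pos` and `Qstr`.
`overlap`: abscissa ranges: points of `R (k, 0)` satisfy `z 0 < x (k+1) - cc - 4W` (if `k + 1 < m`) and `x (k-1) + cc + 4W < z 0` (if `1 ≤ k`); facets of route `k`: `x k + cc + 4W ≤ z 0 ≤ x (k+1) - cc - 4W`.
 Two plates `k < l`: then `l = k + 1` by the ranges, `z` is not in the beads, so in `strR k` and in `strL (k+1)`: `ev 0 z ≤ 0` and `0 ≤ ev M z`, contradiction to `ev_pos` (`M ≥ 1`). Plate `l`, facet `(k, e)`: `l = k` or `l = k + 1` by the ranges; `l = k`: `z ∈ strR k`, `ev 0 z ≤ 0`, `0 ≤ ev (e-1) z`, so `e = 1` and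
 `ev 0 z = 0`. `l = k + 1`: `z ∈ strL (k+1)`: `e = M`, `ev M z = 0`. Two facets: same `k` by the ranges; `e < e'`: `0 ≤ ev (e'-1)`, `ev e ≤ 0`: `e' = e + 1`, `ev e z = 0`.
`IF_sub`: from the definitions, `IF_pos`, `ev_pos`, `ev_neg`. `three`: if `z` is in three different blocks, order them along the paper (`bef`); by `overlap` two of them are `nx` of the first.
`mp_nx`: on the event line `refl (n, ⟪n, p⟫) z = z`. `e = 0`: `mp (k,0) z = T (ρR (z - ctr)) = G 0 z` (`isoR`, `near`, `G0`) and `G 1 z = G 0 z` (`startFold`). `1 ≤ e < M`: all three kinds of events give `G (e+1) z = G e z`. `e = M`: `G (M+1) z = G M z` (`endFold`), `GM`, `isoL`.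
`f_eq`: `f z = mp φ' z` for the chosen block `φ' ∋ z`; if `φ' ≠ φ` use `overlap`, `mp_nx`.
`near_IF`: by `IF_pos` points near `z` are in the zone of `Qstr`. Only blocks containing `z` occur near `z` (closed, finitely many), i.e. `(k, e)` and `nx k e`. Near `z`: `0 < ev (e-1)` (if `1 ≤ e`) and `ev (e+1) < 0` (if `e < M`), beads do not occur.
-/

namespace Pool.Agent.SeamS

open Set Filter Topology Metric Pool.Agent.Hhelper79.Seam

namespace AData

variable {S : Set E3} {c : CData} {a : AData c}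

theorem finite_idx (a : AData c) : Finite a.Idx := by
  have h : {φ : ℕ × ℕ | a.Valid φ}.Finite := by
    apply Set.Finite.subset
      (s := ⋃ k ∈ Finset.range c.m, (fun e : ℕ => (k, e)) '' (Set.Iic (a.M k)))
    · apply Set.Finite.biUnion (Finset.finite_toSet _)
      intro k _
      exact (Set.finite_Iic _).image _
    · rintro ⟨k, e⟩ ⟨h1, h2⟩
      simp only [Set.mem_iUnion]
      refine ⟨k, Finset.mem_range.2 h1, e, ?_, rfl⟩
      rcases h2 with h2 | h2
      · simp only at h2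
        rw [h2]
        exact Nat.zero_le _
      · exact h2.2
  exact h.to_subtype

theorem x_lt (ha : IsAsm S a) {k l : ℕ} (hkl : k < l) (hl : l < c.m) :
    a.x k + 2 * a.cc + 50 * a.W ≤ a.x l := by
  induction l with
  | zero => omega
  | succ n ih =>
    have hg := ha.gap n hl
    rcases Nat.lt_succ_iff_lt_or_eq.1 hkl with h | h
    · have := ih h (by omega)
      have h1 := ha.Wpos
      have h2 := ha.ccpos
      linarith
    · rw [h]
      exact hg

theorem M_pos (ha : IsAsm S a) {k : ℕ} (hk : k + 1 < c.m) : 1 ≤ a.M k :=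
  (ha.route k hk).Mpos

theorem ev_pos (ha : IsAsm S a) {k : ℕ} (hk : k + 1 < c.m) {z : E2} (hz : |z 1 - a.c' k| ≤ a.δ)
    {e e' : ℕ} (hee : e < e') (he : e' ≤ a.M k) (h : 0 ≤ a.ev k e' z) : 0 < a.ev k e z := by
  induction e' with
  | zero => omega
  | succ n ih =>
    have h1 : 0 < a.ev k n z := (ha.thin k hk).order n (by exact he) z hz h
    rcases Nat.lt_succ_iff_lt_or_eq.1 hee with h2 | h2
    · exact ih h2 (by omega) h1.le
    · rw [h2]
      exact h1

theorem ev_neg (ha : IsAsm S a) {k : ℕ} (hk : k + 1 < c.m) {z : E2} (hz : |z 1 - a.c' k| ≤ a.δ)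
    {e e' : ℕ} (hee : e < e') (he : e' ≤ a.M k) (h : a.ev k e z ≤ 0) : a.ev k e' z < 0 := by
  by_contra hcon
  exact absurd (ev_pos ha hk hz hee he (not_lt.1 hcon)) (not_lt.2 h)

theorem ag_star (ha : IsAsm S a) {k : ℕ} (hk : k + 1 < c.m) {z : E2}
    (hz : |z 1 - a.c' k| ≤ a.δ) {e : ℕ} (he : e ≤ a.M k) :
    |z 0 - a.ev k e z / (a.rt k).n e 0 - (a.rt k).t e| < a.W := by
  have hn : 0 < (a.rt k).n e 0 := by
    have := (ha.route k hk).dir e he
    rwa [th_e1] at this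
  have h0 : (pt (z 0 - a.ev k e z / (a.rt k).n e 0) (z 1)) 0 =
      z 0 - a.ev k e z / (a.rt k).n e 0 := by simp [pt]
  have h1 : (pt (z 0 - a.ev k e z / (a.rt k).n e 0) (z 1)) 1 = z 1 := by simp [pt]
  have hev : a.ev k e z = (a.rt k).n e 0 * (z 0 - (a.rt k).t e) +
      (a.rt k).n e 1 * (z 1 - a.H k) := th_val _ _ _ _
  have hval : (a.rt k).val (a.H k) e (pt (z 0 - a.ev k e z / (a.rt k).n e 0) (z 1)) = 0 := by
    rw [th_val, h0, h1]
    have : (a.rt k).n e 0 * (a.ev k e z / (a.rt k).n e 0) = a.ev k e z := by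
      field_simp
    linarith
  have hnear := (ha.thin k hk).near e he _ (by rw [h1]; exact hz) hval
  have hd : |(pt (z 0 - a.ev k e z / (a.rt k).n e 0) (z 1)) 0 - (a.rt k).p (a.H k) e 0| ≤
      dist (pt (z 0 - a.ev k e z / (a.rt k).n e 0) (z 1)) ((a.rt k).p (a.H k) e) := by
    rw [dist_eq_norm, ← Real.norm_eq_abs]
    exact PiLp.norm_apply_le
      ((pt (z 0 - a.ev k e z / (a.rt k).n e 0) (z 1)) - (a.rt k).p (a.H k) e) 0
  have hp : (a.rt k).p (a.H k) e 0 = (a.rt k).t e := by simp [RData.p, pt]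
  rw [h0, hp] at hd
  exact lt_of_lt_of_le (lt_of_le_of_lt hd hnear) ha.ηW

theorem lt_of_ev (ha : IsAsm S a) {k : ℕ} (hk : k + 1 < c.m) {z : E2}
    (hz : |z 1 - a.c' k| ≤ a.δ) {e : ℕ} (he : e ≤ a.M k) (h : 0 ≤ a.ev k e z) :
    (a.rt k).t e - a.W < z 0 := by
  have hn : 0 < (a.rt k).n e 0 := by
    have := (ha.route k hk).dir e he
    rwa [th_e1] at this
  have h1 := (abs_lt.1 (ag_star ha hk hz he)).1
  have h2 : 0 ≤ a.ev k e z / (a.rt k).n e 0 := div_nonneg h hn.le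
  linarith

theorem lt_of_ev' (ha : IsAsm S a) {k : ℕ} (hk : k + 1 < c.m) {z : E2}
    (hz : |z 1 - a.c' k| ≤ a.δ) {e : ℕ} (he : e ≤ a.M k) (h : a.ev k e z ≤ 0) :
    z 0 < (a.rt k).t e + a.W := by
  have hn : 0 < (a.rt k).n e 0 := by
    have := (ha.route k hk).dir e he
    rwa [th_e1] at this
  have h1 := (abs_lt.1 (ag_star ha hk hz he)).2
  have h2 : a.ev k e z / (a.rt k).n e 0 ≤ 0 := div_nonpos_of_nonpos_of_nonneg h hn.le
  linarith

theorem ag_t (ha : IsAsm S a) {k : ℕ} (hk : k + 1 < c.m) {e e' : ℕ} (hee : e ≤ e')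
    (he : e' ≤ a.M k) : (a.rt k).t e ≤ (a.rt k).t e' := by
  induction e' with
  | zero =>
    have : e = 0 := by omega
    rw [this]
  | succ n ih =>
    have h1 : (a.rt k).t n < (a.rt k).t (n + 1) := (ha.route k hk).mono n he
    rcases Nat.le_succ_iff.1 hee with h2 | h2
    · exact (ih h2 (by omega)).trans h1.le
    · rw [h2]

theorem IF_pos (ha : IsAsm S a) {k e : ℕ} (hk : k + 1 < c.m) (he : e ≤ a.M k) {z : E2}
    (hz : z ∈ a.IF k e) :
    a.x k + a.cc + 4 * a.W ≤ z 0 ∧ z 0 ≤ a.x (k + 1) - a.cc - 4 * a.W := by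
  have h1 := lt_of_ev ha hk hz.1 he (le_of_eq hz.2.symm)
  have h2 := lt_of_ev' ha hk hz.1 he (le_of_eq hz.2)
  have h3 := ag_t ha hk (Nat.zero_le e) he
  have h4 := ag_t ha hk he le_rfl
  have h5 := ha.posR k hk
  have h6 := ha.posL k hk
  constructor <;> linarith

theorem IF_near (ha : IsAsm S a) {k e : ℕ} (hk : k + 1 < c.m) (he : e ≤ a.M k) {z : E2}
    (hz : z ∈ a.IF k e) : z ∈ ball (a.ep k e) a.η :=
  (ha.thin k hk).near e he z hz.1 hz.2

theorem ag_facet {k e : ℕ} (he : e ≠ 0) {z : E2} : z ∈ a.R (k, e) ↔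
    |z 1 - a.c' k| ≤ a.δ ∧ 0 ≤ a.ev k (e - 1) z ∧ a.ev k e z ≤ 0 := by
  unfold R
  rw [if_neg (by exact he)]
  rfl

theorem ag_plate {k : ℕ} {z : E2} :
    z ∈ a.R (k, 0) ↔ z ∈ a.bead k ∨ z ∈ a.strR k ∨ z ∈ a.strL k := by
  unfold R
  rw [if_pos rfl]
  simp only [Set.mem_union, or_assoc]

theorem facet_pos (ha : IsAsm S a) {k e : ℕ} (hφ : a.Valid (k, e)) (he : e ≠ 0) {z : E2}
    (hz : z ∈ a.R (k, e)) :
    a.x k + a.cc + 4 * a.W ≤ z 0 ∧ z 0 ≤ a.x (k + 1) - a.cc - 4 * a.W := by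
  obtain ⟨h0, h1, h2⟩ := (ag_facet he).1 hz
  obtain ⟨hk, heM⟩ : k + 1 < c.m ∧ e ≤ a.M k := by
    rcases hφ.2 with h | h
    · exact absurd h he
    · exact h
  have h3 := lt_of_ev ha hk h0 (by omega) h1
  have h4 := lt_of_ev' ha hk h0 heM h2
  have h5 := ag_t ha hk (Nat.zero_le (e - 1)) (by omega)
  have h6 := ag_t ha hk heM le_rfl
  have h7 := ha.posR k hk
  have h8 := ha.posL k hk
  constructor <;> linarith

theorem ag_strR (ha : IsAsm S a) {k : ℕ} {z : E2} (hz : z ∈ a.strR k) :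
    k + 1 < c.m ∧ |z 1 - a.c' k| ≤ a.δ ∧ a.x k + a.cc + 3 * a.W ≤ z 0 ∧ a.ev k 0 z ≤ 0 ∧
      z 0 ≤ a.x (k + 1) - a.cc - 4 * a.W := by
  obtain ⟨hk, h1, h2, h3⟩ := hz
  refine ⟨hk, h1, h2, h3, ?_⟩
  have h4 := lt_of_ev' ha hk h1 (Nat.zero_le _) h3
  have h6 := ag_t ha hk (Nat.zero_le (a.M k)) le_rfl
  have h8 := ha.posL k hk
  linarith

theorem ag_strL (ha : IsAsm S a) {k : ℕ} (hk : k + 1 < c.m) {z : E2} (hz : z ∈ a.strL (k + 1)) :
    |z 1 - a.c' k| ≤ a.δ ∧ z 0 ≤ a.x (k + 1) - a.cc - 3 * a.W ∧ 0 ≤ a.ev k (a.M k) z ∧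
      a.x k + a.cc + 4 * a.W ≤ z 0 := by
  obtain ⟨_, h1, h2, h3⟩ := hz
  simp only [Nat.add_sub_cancel] at h1 h3
  refine ⟨h1, h2, h3, ?_⟩
  have h4 := lt_of_ev ha hk h1 le_rfl h3
  have h6 := ag_t ha hk (Nat.zero_le (a.M k)) le_rfl
  have h8 := ha.posR k hk
  linarith

theorem ag_range (ha : IsAsm S a) {φ : ℕ × ℕ} (hφ : a.Valid φ) {z : E2} (hz : z ∈ a.R φ) :
    (φ.1 + 1 < c.m → z 0 ≤ a.x (φ.1 + 1) - a.cc - 4 * a.W) ∧
    (∀ k, φ.1 = k + 1 → a.x k + a.cc + 4 * a.W ≤ z 0) ∧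
    (φ.2 ≠ 0 → a.x φ.1 + a.cc + 4 * a.W ≤ z 0) := by
  obtain ⟨l, e⟩ := φ
  have hW := ha.Wpos
  have hcc := ha.ccpos
  have hlm : l < c.m := hφ.1
  by_cases he : e = 0
  · subst he
    refine ⟨fun h => ?_, fun k hk => ?_, fun h => absurd rfl h⟩
    · simp only at h ⊢
      have hg := ha.gap l h
      rcases ag_plate.1 hz with h1 | h1 | h1
      · have := (abs_le.1 h1.2).2
        linarith
      · exact (ag_strR ha h1).2.2.2.2
      · have := h1.2.2.1
        linarith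
    · simp only at hk
      subst hk
      have hg := ha.gap k hlm
      rcases ag_plate.1 hz with h1 | h1 | h1
      · have := (abs_le.1 h1.2).1
        linarith
      · have := (ag_strR ha h1).2.2.1
        linarith
      · exact (ag_strL ha hlm h1).2.2.2
  · have h1 := facet_pos ha hφ he hz
    refine ⟨fun _ => h1.2, fun k hk => ?_, fun _ => h1.1⟩
    simp only at hk
    subst hk
    have hg := ha.gap k hlm
    have := h1.1
    linarith

/-- membership in the plate block, to the right of the bead -/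
theorem ag_right (ha : IsAsm S a) {k : ℕ} {z : E2} (h : a.x k + a.cc + 3 * a.W < z 0)
    (hz : z ∈ a.R (k, 0)) : z ∈ a.strR k := by
  have hW := ha.Wpos
  have hcc := ha.ccpos
  rcases ag_plate.1 hz with h1 | h1 | h1
  · have := (abs_le.1 h1.2).2
    linarith
  · exact h1
  · have := h1.2.2.1
    linarith

/-- membership in the plate block, to the left of the bead -/
theorem ag_left (ha : IsAsm S a) {k : ℕ} {z : E2} (h : z 0 < a.x k - a.cc - 3 * a.W)
    (hz : z ∈ a.R (k, 0)) : z ∈ a.strL k := by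
  have hW := ha.Wpos
  have hcc := ha.ccpos
  rcases ag_plate.1 hz with h1 | h1 | h1
  · have := (abs_le.1 h1.2).1
    linarith
  · have := h1.2.2.1
    linarith
  · exact h1

theorem iUnion_R (ha : IsAsm S a) : a.Q = ⋃ φ : a.Idx, a.R φ.1 := by
  classical
  have hW := ha.Wpos
  have hcc := ha.ccpos
  apply Set.Subset.antisymm
  · intro z hz
    obtain ⟨hb1, hb2, hb3⟩ := ha.Qbox z hz
    have hm := ha.cx.mpos
    -- the greatest index to the left
    obtain ⟨k, hkm, hk1, hk2⟩ : ∃ k < c.m, a.x k - a.cc - 3 * a.W ≤ z 0 ∧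
        (k + 1 < c.m → z 0 < a.x (k + 1) - a.cc - 3 * a.W) := by
      have hP0 : a.x 0 - a.cc - 3 * a.W ≤ z 0 := by linarith
      have hs := Nat.findGreatest_spec (P := fun k => a.x k - a.cc - 3 * a.W ≤ z 0)
        (n := c.m - 1) (Nat.zero_le _) hP0
      refine ⟨Nat.findGreatest (fun k => a.x k - a.cc - 3 * a.W ≤ z 0) (c.m - 1), ?_, hs, ?_⟩
      · have := Nat.findGreatest_le (P := fun k => a.x k - a.cc - 3 * a.W ≤ z 0) (c.m - 1)
        omega
      · intro h
        by_contra hcon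
        have h3 := Nat.le_findGreatest (P := fun k => a.x k - a.cc - 3 * a.W ≤ z 0)
          (n := c.m - 1) (show Nat.findGreatest (fun k => a.x k - a.cc - 3 * a.W ≤ z 0)
            (c.m - 1) + 1 ≤ c.m - 1 by omega) (not_lt.1 hcon)
        omega
    rw [Set.mem_iUnion]
    by_cases hbead : z 0 ≤ a.x k + a.cc + 3 * a.W
    · refine ⟨⟨(k, 0), hkm, Or.inl rfl⟩, ?_⟩
      apply ag_plate.2
      left
      refine ⟨hz, abs_le.2 ⟨by linarith, by linarith⟩⟩
    · push Not at hbead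
      have hkm1 : k + 1 < c.m := by
        by_contra hcon
        have hk' : k = c.m - 1 := by omega
        rw [hk'] at hbead
        linarith
      have hz2 := hk2 hkm1
      have hstrip : |z 1 - a.c' k| ≤ a.δ :=
        (ha.Qstr k hkm1 z hbead.le hz2.le).1 hz
      by_cases h0 : a.ev k 0 z ≤ 0
      · refine ⟨⟨(k, 0), hkm, Or.inl rfl⟩, ?_⟩
        apply ag_plate.2
        right
        left
        exact ⟨hkm1, hstrip, hbead.le, h0⟩
      · by_cases hM : 0 ≤ a.ev k (a.M k) z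
        · refine ⟨⟨(k + 1, 0), hkm1, Or.inl rfl⟩, ?_⟩
          apply ag_plate.2
          right
          right
          exact ⟨by omega, hstrip, hz2.le, hM⟩
        · push Not at h0 hM
          have hex : ∃ e, a.ev k e z ≤ 0 := ⟨_, hM.le⟩
          have hfs := Nat.find_spec hex
          have hfm : Nat.find hex ≤ a.M k := Nat.find_min' hex hM.le
          have hf0 : Nat.find hex ≠ 0 := by
            intro h
            rw [h] at hfs
            linarith
          refine ⟨⟨(k, Nat.find hex), hkm, Or.inr ⟨hkm1, hfm⟩⟩, ?_⟩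
          apply (ag_facet hf0).2
          refine ⟨hstrip, ?_, hfs⟩
          have := Nat.find_min hex (show Nat.find hex - 1 < Nat.find hex by omega)
          exact (not_le.1 this).le
  · intro z hz
    obtain ⟨⟨⟨k, e⟩, hv⟩, hz⟩ := Set.mem_iUnion.1 hz
    simp only at hz
    by_cases he : e = 0
    · subst he
      rcases ag_plate.1 hz with h1 | h1 | h1
      · exact h1.1
      · obtain ⟨h2, h3, h4, h5, h6⟩ := ag_strR ha h1
        exact (ha.Qstr k h2 z h4 (by linarith)).2 h3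
      · obtain ⟨l, rfl⟩ : ∃ l, k = l + 1 := ⟨k - 1, by have := h1.1; omega⟩
        obtain ⟨h3, h4, h5, h6⟩ := ag_strL ha hv.1 h1
        exact (ha.Qstr l hv.1 z (by linarith) h4).2 h3
    · have h1 := facet_pos ha hv he hz
      have hk : k + 1 < c.m := by
        rcases hv.2 with h | h
        · exact absurd h he
        · exact h.1
      have h2 := (ag_facet he).1 hz
      exact (ha.Qstr k hk z (by linarith [h1.1]) (by linarith [h1.2])).2 h2.1

theorem ag_cont (k e : ℕ) : Continuous (a.ev k e) := by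
  unfold ev RData.val
  fun_prop

theorem ag_c0 (i : Fin 2) : Continuous (fun z : E2 => z i) := by fun_prop

theorem isClosed_R (ha : IsAsm S a) (φ : ℕ × ℕ) : IsClosed (a.R φ) := by
  obtain ⟨k, e⟩ := φ
  have hc0 := ag_c0 0
  have hc1 := ag_c0 1
  by_cases he : e = 0
  · subst he
    have h1 : IsClosed (a.bead k) := by
      apply IsClosed.inter ha.Qpoly.isCompact.isClosed
      exact isClosed_le (hc0.sub continuous_const).abs continuous_const
    have h2 : IsClosed (a.strR k) := by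
      by_cases hk : k + 1 < c.m
      · have : a.strR k = {z | |z 1 - a.c' k| ≤ a.δ} ∩ ({z | a.x k + a.cc + 3 * a.W ≤ z 0} ∩
            {z | a.ev k 0 z ≤ 0}) := by
          ext z
          simp only [strR, Set.mem_ofPred_eq, Set.mem_inter_iff]
          tauto
        rw [this]
        exact (isClosed_le (hc1.sub continuous_const).abs continuous_const).inter
          ((isClosed_le continuous_const hc0).inter (isClosed_le (ag_cont k 0) continuous_const))
      · have : a.strR k = ∅ := by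
          ext z
          simp only [strR, Set.mem_ofPred_eq, Set.mem_empty_iff_false, iff_false]
          tauto
        rw [this]
        exact isClosed_empty
    have h3 : IsClosed (a.strL k) := by
      by_cases hk : 1 ≤ k
      · have : a.strL k = {z | |z 1 - a.c' (k - 1)| ≤ a.δ} ∩ ({z | z 0 ≤ a.x k - a.cc - 3 * a.W} ∩
            {z | 0 ≤ a.ev (k - 1) (a.M (k - 1)) z}) := by
          ext z
          simp only [strL, Set.mem_ofPred_eq, Set.mem_inter_iff]
          tauto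
        rw [this]
        exact (isClosed_le (hc1.sub continuous_const).abs continuous_const).inter
          ((isClosed_le hc0 continuous_const).inter
            (isClosed_le continuous_const (ag_cont (k - 1) _)))
      · have : a.strL k = ∅ := by
          ext z
          simp only [strL, Set.mem_ofPred_eq, Set.mem_empty_iff_false, iff_false]
          tauto
        rw [this]
        exact isClosed_empty
    have : a.R (k, 0) = a.bead k ∪ a.strR k ∪ a.strL k := by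
      unfold R
      rw [if_pos rfl]
    rw [this]
    exact (h1.union h2).union h3
  · have : a.R (k, e) = {z | |z 1 - a.c' k| ≤ a.δ} ∩ ({z | 0 ≤ a.ev k (e - 1) z} ∩
        {z | a.ev k e z ≤ 0}) := by
      ext z
      rw [ag_facet he]
      simp only [Set.mem_ofPred_eq, Set.mem_inter_iff]
    rw [this]
    exact (isClosed_le (hc1.sub continuous_const).abs continuous_const).inter
      ((isClosed_le continuous_const (ag_cont k _)).inter
        (isClosed_le (ag_cont k _) continuous_const))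

theorem ag_mem (ha : IsAsm S a) {k e : ℕ} (hk : k + 1 < c.m) (he : e ≤ a.M k) {y : E2}
    (hs : |y 1 - a.c' k| ≤ a.δ) (hl : a.x k + a.cc + 3 * a.W < y 0)
    (hr : y 0 < a.x (k + 1) - a.cc - 3 * a.W) (h1 : e ≠ 0 → 0 ≤ a.ev k (e - 1) y)
    (h2 : e < a.M k → a.ev k (e + 1) y ≤ 0) :
    (y ∈ a.R (k, e) ↔ a.ev k e y ≤ 0) ∧ (y ∈ a.R (a.nx k e) ↔ 0 ≤ a.ev k e y) := by
  constructor
  · by_cases h0 : e = 0
    · subst h0
      constructor
      · intro h
        exact (ag_right ha hl h).2.2.2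
      · intro h
        exact ag_plate.2 (Or.inr (Or.inl ⟨hk, hs, hl.le, h⟩))
    · rw [ag_facet h0]
      exact ⟨fun h => h.2.2, fun h => ⟨hs, h1 h0, h⟩⟩
  · unfold nx
    by_cases hM : e = a.M k
    · rw [if_pos hM, hM]
      constructor
      · intro h
        have := (ag_left ha hr h).2.2.2
        simpa only [Nat.add_sub_cancel] using this
      · intro h
        exact ag_plate.2 (Or.inr (Or.inr ⟨by omega, hs, hr.le, h⟩))
    · rw [if_neg hM, ag_facet (by omega)]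
      simp only [Nat.add_sub_cancel]
      exact ⟨fun h => h.2.1, fun h => ⟨hs, h, h2 (by omega)⟩⟩

theorem IF_sub (ha : IsAsm S a) {k e : ℕ} (hk : k + 1 < c.m) (he : e ≤ a.M k) {z : E2}
    (hz : z ∈ a.IF k e) : z ∈ a.R (k, e) ∧ z ∈ a.R (a.nx k e) := by
  have hW := ha.Wpos
  have hp := IF_pos ha hk he hz
  obtain ⟨h1, h2⟩ := ag_mem ha hk he hz.1 (by linarith [hp.1]) (by linarith [hp.2])
    (fun h0 => (ev_pos ha hk hz.1 (show e - 1 < e by omega) he (le_of_eq hz.2.symm)).le)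
    (fun h0 => (ev_neg ha hk hz.1 (show e < e + 1 by omega) (by omega) (le_of_eq hz.2)).le)
  exact ⟨h1.2 (le_of_eq hz.2), h2.2 (le_of_eq hz.2.symm)⟩

theorem valid_nx (ha : IsAsm S a) {k e : ℕ} (hk : k + 1 < c.m) (he : e ≤ a.M k) :
    a.Valid (k, e) ∧ a.Valid (a.nx k e) ∧ (k, e) ≠ a.nx k e := by
  refine ⟨⟨?_, Or.inr ⟨hk, he⟩⟩, ?_, ?_⟩
  · simp only
    omega
  · unfold nx
    split_ifs with h
    · exact ⟨hk, Or.inl rfl⟩
    · refine ⟨?_, Or.inr ⟨hk, ?_⟩⟩
      · simp only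
        omega
      · simp only
        omega
  · unfold nx
    split_ifs with h
    · intro h1
      have := congrArg Prod.fst h1
      simp at this
    · intro h1
      have := congrArg Prod.snd h1
      simp at this

theorem ag_lt (ha : IsAsm S a) {φ ψ : ℕ × ℕ} (hφ : a.Valid φ) (hψ : a.Valid ψ)
    (hb : φ.1 < ψ.1 ∨ (φ.1 = ψ.1 ∧ φ.2 < ψ.2)) {z : E2} (hz : z ∈ a.R φ) (hz' : z ∈ a.R ψ) :
    φ.1 + 1 < c.m ∧ φ.2 ≤ a.M φ.1 ∧ z ∈ a.IF φ.1 φ.2 ∧ ψ = a.nx φ.1 φ.2 := by
  have hW := ha.Wpos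
  have hcc := ha.ccpos
  obtain ⟨k, e⟩ := φ
  obtain ⟨l, e'⟩ := ψ
  obtain ⟨r1, r2, r3⟩ := ag_range ha hφ hz
  obtain ⟨s1, s2, s3⟩ := ag_range ha hψ hz'
  simp only at hb r1 r2 r3 s1 s2 s3 ⊢
  rcases hb with hkl | ⟨hkl, hee⟩
  · have hlm : l < c.m := hψ.1
    have hk : k + 1 < c.m := by omega
    have hr := r1 hk
    obtain ⟨j, rfl⟩ : ∃ j, l = j + 1 := ⟨l - 1, by omega⟩
    have hs := s2 j rfl
    have hjk : j = k := by
      by_contra hne
      have hlt : k < j := by omega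
      have hx : a.x (k + 1) ≤ a.x j := by
        rcases Nat.lt_or_ge (k + 1) j with h | h
        · have := x_lt ha h (by omega)
          linarith
        · have : k + 1 = j := by omega
          rw [this]
      linarith
    subst hjk
    have he' : e' = 0 := by
      by_contra hne
      have := s3 hne
      linarith
    subst he'
    have hL := ag_left ha (by linarith) hz'
    obtain ⟨t1, t2, t3, t4⟩ := ag_strL ha hk hL
    have hM := M_pos ha hk
    by_cases he : e = 0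
    · subst he
      have hR := ag_right ha (by linarith) hz
      have := ev_pos ha hk t1 (show 0 < a.M j by omega) le_rfl t3
      have h2 := hR.2.2.2
      linarith
    · have hf := (ag_facet he).1 hz
      have heM : e ≤ a.M j := by
        rcases hφ.2 with h | h
        · exact absurd h he
        · exact h.2
      have heM' : e = a.M j := by
        by_contra hne
        have := ev_pos ha hk t1 (show e < a.M j by omega) le_rfl t3
        linarith [hf.2.2]
      subst heM'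
      refine ⟨hk, le_rfl, ⟨t1, le_antisymm hf.2.2 t3⟩, ?_⟩
      unfold nx
      rw [if_pos rfl]
  · subst hkl
    have he' : e' ≠ 0 := by omega
    obtain ⟨hk, heM'⟩ : k + 1 < c.m ∧ e' ≤ a.M k := by
      rcases hψ.2 with h | h
      · exact absurd h he'
      · exact h
    have hf' := (ag_facet he').1 hz'
    have hp := s3 he'
    have hev : a.ev k e z ≤ 0 := by
      by_cases he : e = 0
      · subst he
        exact (ag_right ha (by linarith) hz).2.2.2
      · exact ((ag_facet he).1 hz).2.2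
    have hee1 : e' = e + 1 := by
      by_contra hne
      have := ev_pos ha hk hf'.1 (show e < e' - 1 by omega) (by omega) hf'.2.1
      linarith
    subst hee1
    have h1 := hf'.2.1
    simp only [Nat.add_sub_cancel] at h1
    refine ⟨hk, by omega, ⟨hf'.1, le_antisymm hev h1⟩, ?_⟩
    unfold nx
    rw [if_neg (by omega)]

theorem overlap (ha : IsAsm S a) {φ ψ : ℕ × ℕ} (hφ : a.Valid φ) (hψ : a.Valid ψ) (hne : φ ≠ ψ)
    {z : E2} (hz : z ∈ a.R φ) (hz' : z ∈ a.R ψ) :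
    ∃ k e, k + 1 < c.m ∧ e ≤ a.M k ∧ z ∈ a.IF k e ∧
      ((φ = (k, e) ∧ ψ = a.nx k e) ∨ (ψ = (k, e) ∧ φ = a.nx k e)) := by
  have hb : (φ.1 < ψ.1 ∨ (φ.1 = ψ.1 ∧ φ.2 < ψ.2)) ∨ (ψ.1 < φ.1 ∨ (ψ.1 = φ.1 ∧ ψ.2 < φ.2)) := by
    by_contra hcon
    push Not at hcon
    apply hne
    apply Prod.ext <;> omega
  rcases hb with hb | hb
  · obtain ⟨h1, h2, h3, h4⟩ := ag_lt ha hφ hψ hb hz hz'
    exact ⟨φ.1, φ.2, h1, h2, h3, Or.inl ⟨rfl, h4⟩⟩
  · obtain ⟨h1, h2, h3, h4⟩ := ag_lt ha hψ hφ hb hz' hz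
    exact ⟨ψ.1, ψ.2, h1, h2, h3, Or.inr ⟨rfl, h4⟩⟩

theorem three (ha : IsAsm S a) {φ ψ χ : ℕ × ℕ} (hφ : a.Valid φ) (hψ : a.Valid ψ)
    (hχ : a.Valid χ) (h1 : φ ≠ ψ) (h2 : ψ ≠ χ) (h3 : φ ≠ χ) :
    a.R φ ∩ a.R ψ ∩ a.R χ = ∅ := by
  ext z
  simp only [Set.mem_inter_iff, Set.mem_empty_iff_false, iff_false]
  rintro ⟨⟨hz1, hz2⟩, hz3⟩
  have e1 : φ.1 ≠ ψ.1 ∨ φ.2 ≠ ψ.2 := by
    by_contra hcon
    push Not at hcon
    exact h1 (Prod.ext hcon.1 hcon.2)
  have e2 : ψ.1 ≠ χ.1 ∨ ψ.2 ≠ χ.2 := by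
    by_contra hcon
    push Not at hcon
    exact h2 (Prod.ext hcon.1 hcon.2)
  have e3 : φ.1 ≠ χ.1 ∨ φ.2 ≠ χ.2 := by
    by_contra hcon
    push Not at hcon
    exact h3 (Prod.ext hcon.1 hcon.2)
  have hmin : ((φ.1 < ψ.1 ∨ (φ.1 = ψ.1 ∧ φ.2 < ψ.2)) ∧ (φ.1 < χ.1 ∨ (φ.1 = χ.1 ∧ φ.2 < χ.2))) ∨
      ((ψ.1 < φ.1 ∨ (ψ.1 = φ.1 ∧ ψ.2 < φ.2)) ∧ (ψ.1 < χ.1 ∨ (ψ.1 = χ.1 ∧ ψ.2 < χ.2))) ∨
      ((χ.1 < φ.1 ∨ (χ.1 = φ.1 ∧ χ.2 < φ.2)) ∧ (χ.1 < ψ.1 ∨ (χ.1 = ψ.1 ∧ χ.2 < ψ.2))) := by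
    omega
  rcases hmin with ⟨b1, b2⟩ | ⟨b1, b2⟩ | ⟨b1, b2⟩
  · exact h2 ((ag_lt ha hφ hψ b1 hz1 hz2).2.2.2.trans (ag_lt ha hφ hχ b2 hz1 hz3).2.2.2.symm)
  · exact h3 ((ag_lt ha hψ hφ b1 hz2 hz1).2.2.2.trans (ag_lt ha hψ hχ b2 hz2 hz3).2.2.2.symm)
  · exact h1 ((ag_lt ha hχ hφ b1 hz3 hz1).2.2.2.trans (ag_lt ha hχ hψ b2 hz3 hz2).2.2.2.symm)

/-- the blocks at an interface point, and the paper near this point -/
theorem near_IF (ha : IsAsm S a) {k e : ℕ} (hk : k + 1 < c.m) (he : e ≤ a.M k) {z : E2}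
    (hz : z ∈ a.IF k e) : ∀ᶠ y in 𝓝 z,
      (y ∈ a.Q ↔ |y 1 - a.c' k| ≤ a.δ) ∧
      (y ∈ a.Q → (y ∈ a.R (k, e) ↔ a.ev k e y ≤ 0) ∧ (y ∈ a.R (a.nx k e) ↔ 0 ≤ a.ev k e y)) ∧
      (∀ φ, a.Valid φ → y ∈ a.R φ → φ = (k, e) ∨ φ = a.nx k e) := by
  have hW := ha.Wpos
  have hp := IF_pos ha hk he hz
  have hc0 := ag_c0 0
  have E1 : ∀ᶠ y : E2 in 𝓝 z, a.x k + a.cc + 3 * a.W < y 0 :=
    (hc0.tendsto z).eventually_const_lt (by linarith [hp.1])
  have E2' : ∀ᶠ y : E2 in 𝓝 z, y 0 < a.x (k + 1) - a.cc - 3 * a.W :=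
    (hc0.tendsto z).eventually_lt_const (by linarith [hp.2])
  have E3' : ∀ᶠ y : E2 in 𝓝 z, e ≠ 0 → 0 < a.ev k (e - 1) y := by
    by_cases h0 : e = 0
    · exact Filter.Eventually.of_forall (fun y h => absurd h0 h)
    · filter_upwards [((ag_cont (a := a) k (e - 1)).tendsto z).eventually_const_lt
        (ev_pos ha hk hz.1 (show e - 1 < e by omega) he (le_of_eq hz.2.symm))] with y hy _
      exact hy
  have E4 : ∀ᶠ y : E2 in 𝓝 z, e < a.M k → a.ev k (e + 1) y < 0 := by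
    by_cases h0 : e < a.M k
    · filter_upwards [((ag_cont (a := a) k (e + 1)).tendsto z).eventually_lt_const
        (ev_neg ha hk hz.1 (show e < e + 1 by omega) (by omega) (le_of_eq hz.2))] with y hy _
      exact hy
    · exact Filter.Eventually.of_forall (fun y h => absurd h h0)
  have E5 : ∀ᶠ y : E2 in 𝓝 z, ∀ φ : a.Idx, z ∉ a.R φ.1 → y ∉ a.R φ.1 := by
    have := finite_idx a
    rw [Filter.eventually_all]
    intro φ
    by_cases h : z ∈ a.R φ.1
    · exact Filter.Eventually.of_forall (fun y h' => absurd h h')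
    · filter_upwards [(isClosed_R ha φ.1).isOpen_compl.mem_nhds h] with y hy _
      exact hy
  obtain ⟨v1, v2, v3⟩ := valid_nx ha hk he
  obtain ⟨m1, m2⟩ := IF_sub ha hk he hz
  filter_upwards [E1, E2', E3', E4, E5] with y y1 y2 y3 y4 y5
  have hQ : y ∈ a.Q ↔ |y 1 - a.c' k| ≤ a.δ := ha.Qstr k hk y y1.le y2.le
  refine ⟨hQ, fun hy => ag_mem ha hk he (hQ.1 hy) y1 y2 (fun h => (y3 h).le)
    (fun h => (y4 h).le), fun φ hφ hy => ?_⟩
  by_contra hcon
  push Not at hcon
  have hzφ : z ∈ a.R φ := by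
    by_contra h
    exact y5 ⟨φ, hφ⟩ h hy
  have h3 := three ha hφ v1 v2 hcon.1 v3 hcon.2
  have : z ∈ a.R φ ∩ a.R (k, e) ∩ a.R (a.nx k e) := ⟨⟨hzφ, m1⟩, m2⟩
  rw [h3] at this
  exact this

theorem ag_fold {k e : ℕ} {z : E2} (h : (a.rt k).IsFold (a.H k) e) (hz : a.ev k e z = 0) :
    (a.rt k).G (e + 1) z = (a.rt k).G e z := by
  rw [h z, th_refl]
  exact hz

theorem mp_nx (ha : IsAsm S a) {k e : ℕ} (hk : k + 1 < c.m) (he : e ≤ a.M k) {z : E2}
    (hz : z ∈ a.IF k e) : a.mp (k, e) z = a.mp (a.nx k e) z := by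
  have hM := M_pos ha hk
  have hr := ha.route k hk
  have hn := IF_near ha hk he hz
  have hcomm : (a.rt k).G (e + 1) z = (a.rt k).G e z := by
    by_cases h0 : e = 0
    · subst h0
      exact ag_fold hr.startFold hz.2
    · by_cases hM' : e = a.M k
      · have hef := hr.endFold
        subst hM'
        exact ag_fold hef hz.2
      · rcases hr.event e (by omega) (lt_of_le_of_ne he hM') with h | h | h
        · exact ag_fold h.2.2.1 hz.2
        · exact ag_fold h.2.1 hz.2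
        · exact h.2.1 z hz.2
  have hL : a.mp (k, e) z = (a.rt k).G e z := by
    unfold mp
    by_cases h0 : e = 0
    · subst h0
      rw [if_pos rfl, ha.G0 k hk z]
      simp only
      rw [(ha.isoR k hk z hn).1]
    · rw [if_neg (by exact h0)]
  have hR : a.mp (a.nx k e) z = (a.rt k).G (e + 1) z := by
    unfold mp nx
    by_cases hM' : e = a.M k
    · subst hM'
      rw [if_pos rfl, if_pos rfl, ha.GM k hk z]
      simp only
      rw [(ha.isoL k hk z hn).1]
    · rw [if_neg hM', if_neg (by simp)]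
  rw [hL, hR, hcomm]

theorem f_eq (ha : IsAsm S a) {φ : ℕ × ℕ} (hφ : a.Valid φ) {z : E2} (hz : z ∈ a.R φ) :
    a.f z = a.mp φ z := by
  have hex : ∃ φ, a.Valid φ ∧ z ∈ a.R φ := ⟨φ, hφ, hz⟩
  have hf : a.f z = a.mp hex.choose z := by
    unfold f
    rw [dif_pos hex]
  rw [hf]
  obtain ⟨h1, h2⟩ := hex.choose_spec
  by_cases hne : hex.choose = φ
  · rw [hne]
  · obtain ⟨k, e, hk, he, hIF, h | h⟩ := overlap ha h1 hφ hne h2 hz
    · rw [h.1, h.2]
      exact mp_nx ha hk he hIF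
    · rw [h.1, h.2]
      exact (mp_nx ha hk he hIF).symm

end AData

end Pool.Agent.SeamS
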