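import Pool.Agent.SeamS.AsmOrder

/-!
# The order of the blocks near interface points (module G3b)

`B_trans`: from `common_cell` and `B_over`.
 In `B_trans` the points need not be different: `x = y` or `y = z` contradicts `B_cross`; if `x = z` then `B_hint` for the regular point `y ∈ R ψ` and the interface point `x ∈ R φ ∩ R χ` gives `B ψ χ ↔ B ψ φ`, so `B ψ φ`, contradiction to `B_asymm`. `B_asymm`: direct, in all cases, without a common cell (plate/facet: `Abv` and `¬ Abv`; two facets: `asymm` of `low` and `bef`).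
**`hint`**: `x ∈ R φ` regular, `z ∈ IF k e`, `j, l` the two blocks `(k, e)`, `nx k e`, `z ≠ x`, `f z = f x = s`.
 `Turn`: `s ∈ cell i`, `i = ci (k, e) = ci (k, e + 1)`, same `pl`, both blocks are facets (`1 ≤ e < M`). If `φ` is a plate: `φ ≠ j, l`, and `B φ (k,e)` depends only on `ci` and `pl`; the same. If `φ` is a facet: `φ ≠ (k, e), (k, e + 1)` because `G` is injective on each facet, `x ≠ z`. `ci φ = i` (`s ∈ ccell (ci φ)`, `disj`). `bef φ (k, e) ↔ bef φ (k, e + 1)`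
 since `φ ≠ (k, e)`; and `bef (k, e) φ ↔ bef (k, e + 1) φ` since `φ ≠ (k, e + 1)`.
 Not `Turn`: `φ` is a plate `(q, 0)` (otherwise `uniq_edge` gives `x = z`). `s ∈ CI (pk q)` (`reg_plate`). Facets adjacent to `z`: `s ∈ ccell (ci ..)`, so `mem (ci ..) (pk q)` (`mem_of_CI`). `1 ≤ e < M`: both blocks are facets, `MoveAt` (`IsThin.move`) gives `Abv (ci e) (pl e) (pk q) ↔ Abv (ci (e+1)) (pl (e+1)) (pk q)`: all four relations agree. `e = 0`: blocks `(k, 0)` and
 `(k, 1)`, `pl (k, 1) = pk k`, `s ∉ CI (pk k)` (`startRim`), so `pk q ≠ pk k`, `q ≠ k`; `B (q,0) (k,0) ↔ low (pk k) (pk q)`; `B (q,0) (k,1) ↔ Abv (ci 1) (pk k) (pk q) ↔ low (pk k) (pk q)`; `B (k,0) (q,0) ↔ low (pk q) (pk k)`; `B (k,1) (q,0) ↔ ¬ (pk q = pk k ∨ low (pk k) (pk q)) ↔ low (pk q) (pk k)` by `total` (`mem (ci 1) (pk k)` by `valid`). `e = M`: the same with `endRim`, `endpl`.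
**`hcross`**: `x` regular in two blocks: by `overlap` `x ∈ IF k e`, and by `fold_not_reg` `Cross k e`; the two blocks are the facets `(k, e)`, `(k, e + 1)`, `ci (k,e) ≠ ci (k,e+1)`. `z ∈ R j`, `z ≠ x`, `f z = f x = s`. `j` is a plate `(q, 0)` by `uniq_edge`. `s ∈ CC (pk q)`. If `s ∈ CI (pk q)`: `MoveAt` as in `hint`: `B (k,e) j ↔ B (k,e+1) j`, take `β := B (k, e) j`.
 If `s ∉ CI (pk q)`: by `plate_edge` (at `s ∈ bcell (ci (k,e))`, `s ∉ V`; `s ∈ ccell (ci (k,e+1))`) not both `mem (ci (k,e)) (pk q)` and `mem (ci (k,e+1)) (pk q)`. For regular pairs `q'` with `q'.2 ∈ R j`, `f q'.1 = f q'.2` and `q'.1 ∈ R (k, e')`: `f q'.2 ∈ CI (pk q)` (`reg_plate`), `f q'.1 ∈ ccell (ci (k, e'))`, so `mem (ci (k, e')) (pk q)`. So if `mem (ci (k,e)) (pk q)` take `β := B (k,e) j`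
 (`q'.1 ∈ R (k,e+1)` is impossible), otherwise `β := B (k,e+1) j`.
-/

namespace Pool.Agent.SeamS

open Set Filter Topology Metric Pool.Agent.Hhelper79.Seam

namespace AData

variable {S : Set E3} {c : CData} {a : AData c}

theorem hh_pp {φ ψ : ℕ × ℕ} (h1 : φ.2 = 0) (h2 : ψ.2 = 0) :
    a.B φ ψ ↔ c.low (a.pk ψ.1) (a.pk φ.1) := by
  simp [B, h1, h2]

theorem hh_pf {φ ψ : ℕ × ℕ} (h1 : φ.2 = 0) (h2 : ψ.2 ≠ 0) :
    a.B φ ψ ↔ c.Abv (a.ci ψ) (a.pl ψ) (a.pk φ.1) := by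
  simp [B, h1, h2]

theorem hh_fp {φ ψ : ℕ × ℕ} (h1 : φ.2 ≠ 0) (h2 : ψ.2 = 0) :
    a.B φ ψ ↔ c.mem (a.ci φ) (a.pk ψ.1) ∧ ¬ c.Abv (a.ci φ) (a.pl φ) (a.pk ψ.1) := by
  simp [B, h1, h2]

theorem hh_ff {φ ψ : ℕ × ℕ} (h1 : φ.2 ≠ 0) (h2 : ψ.2 ≠ 0) :
    a.B φ ψ ↔ a.ci φ = a.ci ψ ∧ ((a.pl φ = a.pl ψ ∧ bef φ ψ) ∨ c.low (a.pl ψ) (a.pl φ)) := by
  simp [B, h1, h2]

theorem hh_nx {k e : ℕ} (he : e < a.M k) : a.nx k e = (k, e + 1) := by
  simp [nx, he.ne]

theorem hh_ccell {i : Fin c.N} {s : E3} (h : s ∈ c.bcell i) : s ∈ c.ccell i := by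
  obtain ⟨y, hy, rfl⟩ := h
  exact ⟨y, hy.1, rfl⟩

/-- the move at an event of edge type -/
theorem hh_move (ha : IsAsm S a) {k e : ℕ} (hk : k + 1 < c.m) (he1 : 1 ≤ e) (heM : e < a.M k)
    (hT : ¬ a.Turn k e) {z : E2} (hz : z ∈ a.IF k e) :
    c.MoveAt (a.ci (k, e)) (a.pl (k, e)) (a.ci (k, e + 1)) (a.pl (k, e + 1)) (a.f z) := by
  have hev : (a.rt k).IsWrap (a.H k) e ∨ (a.rt k).IsCross (a.H k) e := by
    rcases (ha.route k hk).event e he1 heM with h | h
    · exact absurd ⟨he1, heM, h⟩ hT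
    · exact h
  have h := (ha.thin k hk).move e he1 heM hev z hz.1 hz.2
  rw [← (f_IF ha hk heM.le hz).1] at h
  have h1 : a.pl (k, e) = (a.rt k).pl e := by
    have he0 : e ≠ 0 := by omega
    simp only [pl, he0, if_false]
  have h2 : a.pl (k, e + 1) = (a.rt k).pl (e + 1) := by
    simp [pl]
  rw [h1, h2]
  exact h

/-- both relations agree at an event of edge type -/
theorem hh_edge (ha : IsAsm S a) {k e : ℕ} (hk : k + 1 < c.m) (he1 : 1 ≤ e) (heM : e < a.M k)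
    (hT : ¬ a.Turn k e) {z : E2} (hz : z ∈ a.IF k e) {φ : ℕ × ℕ} (hφ : φ.2 = 0)
    (hCI : a.f z ∈ c.CI (a.pk φ.1)) :
    (a.B φ (k, e) ↔ a.B φ (k, e + 1)) ∧ (a.B (k, e) φ ↔ a.B (k, e + 1) φ) := by
  obtain ⟨_, hb1, hb2, hmv⟩ := hh_move ha hk he1 heM hT hz
  have h1 := hmv _ hCI
  have he0 : ((k, e) : ℕ × ℕ).2 ≠ 0 := by
    simp only [ne_eq]
    omega
  have he0' : ((k, e + 1) : ℕ × ℕ).2 ≠ 0 := by simp
  have m1 := ha.cx.mem_of_CI _ _ _ (hh_ccell hb1) hCI
  have m2 := ha.cx.mem_of_CI _ _ _ (hh_ccell hb2) hCI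
  constructor
  · rw [hh_pf hφ he0, hh_pf hφ he0']
    exact h1
  · rw [hh_fp he0 hφ, hh_fp he0' hφ]
    simp only [m1, m2, true_and]
    exact not_congr h1

theorem hh_facet_inj (ha : IsAsm S a) {φ : ℕ × ℕ} (hφ : a.Valid φ) (h0 : φ.2 ≠ 0) {x z : E2}
    (hx : x ∈ a.R φ) (hz : z ∈ a.R φ) (hf : a.f z = a.f x) : z = x := by
  rw [f_eq ha hφ hx, f_eq ha hφ hz] at hf
  simp only [mp, h0, if_false] at hf
  exact ((a.rt φ.1).G φ.2).injective hf

theorem hh_core (ha : IsAsm S a) {φ : ℕ × ℕ} (hφ : a.Valid φ) {k e : ℕ} (hk : k + 1 < c.m)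
    (he : e ≤ a.M k) {x : E2} (hx : x ∈ a.R φ) (hr : Reg a.Q a.f x) {z : E2}
    (hz : z ∈ a.IF k e) (hzx : z ≠ x) (hf : a.f z = a.f x) :
    φ ≠ (k, e) ∧ φ ≠ a.nx k e ∧ (a.B φ (k, e) ↔ a.B φ (a.nx k e)) ∧
      (a.B (k, e) φ ↔ a.B (a.nx k e) φ) := by
  by_cases hT : a.Turn k e
  · obtain ⟨he1, heM, _⟩ := id hT
    obtain ⟨hcell, hci, hpl⟩ := turn_cell ha hk hT hz
    rw [hh_nx heM]
    have he0 : ((k, e) : ℕ × ℕ).2 ≠ 0 := by
      simp only [ne_eq]
      omega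
    have he0' : ((k, e + 1) : ℕ × ℕ).2 ≠ 0 := by simp
    by_cases h0 : φ.2 = 0
    · refine ⟨?_, ?_, ?_, ?_⟩
      · rintro rfl
        exact he0 h0
      · rintro rfl
        exact he0' h0
      · rw [hh_pf h0 he0, hh_pf h0 he0', hci, hpl]
      · rw [hh_fp he0 h0, hh_fp he0' h0, hci, hpl]
    · have hzR := IF_sub ha hk he hz
      rw [hh_nx heM] at hzR
      have hval := valid_nx ha hk he
      rw [hh_nx heM] at hval
      have hne1 : φ ≠ (k, e) := by
        rintro rfl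
        exact hzx (hh_facet_inj ha hφ h0 hx hzR.1 hf)
      have hne2 : φ ≠ (k, e + 1) := by
        rintro rfl
        exact hzx (hh_facet_inj ha hφ h0 hx hzR.2 hf)
      have hb1 : bef φ (k, e) ↔ bef φ (k, e + 1) := by
        simp only [bef]
        constructor
        · rintro (h | ⟨h, h'⟩)
          · exact Or.inl h
          · exact Or.inr ⟨h, by omega⟩
        · rintro (h | ⟨h, h'⟩)
          · exact Or.inl h
          · refine Or.inr ⟨h, ?_⟩
            have : φ.2 ≠ e := fun h2 => hne1 (Prod.ext h h2)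
            omega
      have hb2 : bef (k, e) φ ↔ bef (k, e + 1) φ := by
        simp only [bef]
        constructor
        · rintro (h | ⟨h, h'⟩)
          · exact Or.inl h
          · refine Or.inr ⟨h, ?_⟩
            have : φ.2 ≠ e + 1 := fun h2 => hne2 (Prod.ext h.symm h2)
            omega
        · rintro (h | ⟨h, h'⟩)
          · exact Or.inl h
          · exact Or.inr ⟨h, by omega⟩
      refine ⟨hne1, hne2, ?_, ?_⟩
      · rw [hh_ff h0 he0, hh_ff h0 he0', hb1, hci, hpl]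
      · rw [hh_ff he0 h0, hh_ff he0' h0, hb2, hci, hpl]
  · have h0 : φ.2 = 0 := by
      by_contra h0
      exact hzx (uniq_edge ha hk he hT hz hφ h0 hx hf.symm).symm
    obtain ⟨q, q'⟩ := φ
    simp only at h0
    subst h0
    obtain ⟨_, _, hCI⟩ := reg_plate ha hφ.1 hx hr
    simp only at hCI
    rw [← hf] at hCI
    have hbc := edge_bcell ha hk he hT hz
    have hroute := ha.route k hk
    have hM := M_pos ha hk
    by_cases he0 : e = 0
    · subst he0
      have heM : 0 < a.M k := by omega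
      rw [hh_nx heM]
      have hpl : a.pl (k, 0 + 1) = a.pk k := by
        simp only [pl]
        exact ha.startpl k hk
      have hnot : a.f z ∉ c.CI (a.pk k) := by
        have h := ((ha.thin k hk).startRim z hz.1 hz.2).2.2
        have h1 := (f_IF ha hk he hz).2
        rw [zero_add] at h1
        rw [h1, ← ha.startpl k hk]
        exact h
      have hne : a.pk q ≠ a.pk k := by
        intro h
        rw [h] at hCI
        exact hnot hCI
      have hm1 : c.mem (a.ci (k, 0 + 1)) (a.pk q) :=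
        ha.cx.mem_of_CI _ _ _ (hh_ccell (hbc.2.1 heM)) hCI
      have hm2 : c.mem (a.ci (k, 0 + 1)) (a.pk k) := by
        have h := hroute.valid 1 le_rfl hM
        rw [ha.startpl k hk] at h
        exact h
      have h10 : ((k, 0 + 1) : ℕ × ℕ).2 ≠ 0 := by simp
      refine ⟨?_, ?_, ?_, ?_⟩
      · intro h
        rw [Prod.mk.injEq] at h
        exact hne (by rw [h.1])
      · intro h
        rw [Prod.mk.injEq] at h
        omega
      · rw [hh_pp rfl rfl, hh_pf rfl h10, hpl]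
        simp only [CData.Abv]
        constructor
        · exact fun h => ⟨hm1, Or.inr h⟩
        · rintro ⟨_, h | h⟩
          · exact absurd h hne
          · exact h
      · rw [hh_pp rfl rfl, hh_fp h10 rfl, hpl]
        simp only [CData.Abv]
        constructor
        · rintro h
          refine ⟨hm1, ?_⟩
          rintro ⟨_, h' | h'⟩
          · exact hne h'
          · exact ha.cx.asymm _ _ h h'
        · rintro ⟨_, h⟩
          rcases ha.cx.total _ _ _ hm1 hm2 hne with h' | h'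
          · exact h'
          · exact absurd ⟨hm1, Or.inr h'⟩ h
    · have he1 : 1 ≤ e := by omega
      by_cases heM : e = a.M k
      · have hnx : a.nx k e = (k + 1, 0) := by
          simp [nx, heM]
        rw [hnx]
        have hpl : a.pl (k, e) = a.pk (k + 1) := by
          simp only [pl, he0, if_false]
          rw [heM]
          exact ha.endpl k hk
        have hnot : a.f z ∉ c.CI (a.pk (k + 1)) := by
          have hz2 : a.ev k (a.M k) z = 0 := by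
            rw [← heM]
            exact hz.2
          have h := ((ha.thin k hk).endRim z hz.1 hz2).2.2
          have h1 := (f_IF ha hk he hz).1
          rw [h1, ← ha.endpl k hk, heM]
          exact h
        have hne : a.pk q ≠ a.pk (k + 1) := by
          intro h
          rw [h] at hCI
          exact hnot hCI
        have hm1 : c.mem (a.ci (k, e)) (a.pk q) :=
          ha.cx.mem_of_CI _ _ _ (hh_ccell (hbc.1 he1)) hCI
        have hm2 : c.mem (a.ci (k, e)) (a.pk (k + 1)) := by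
          have h := hroute.valid e he1 he
          rw [← hpl]
          simp only [pl, he0, if_false]
          exact h
        have h10 : ((k, e) : ℕ × ℕ).2 ≠ 0 := he0
        refine ⟨?_, ?_, ?_, ?_⟩
        · intro h
          rw [Prod.mk.injEq] at h
          omega
        · intro h
          rw [Prod.mk.injEq] at h
          exact hne (by rw [h.1])
        · rw [hh_pf rfl h10, hh_pp rfl rfl, hpl]
          simp only [CData.Abv]
          constructor
          · rintro ⟨_, h | h⟩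
            · exact absurd h hne
            · exact h
          · exact fun h => ⟨hm1, Or.inr h⟩
        · rw [hh_fp h10 rfl, hh_pp rfl rfl, hpl]
          simp only [CData.Abv]
          constructor
          · rintro ⟨_, h⟩
            rcases ha.cx.total _ _ _ hm1 hm2 hne with h' | h'
            · exact h'
            · exact absurd ⟨hm1, Or.inr h'⟩ h
          · rintro h
            refine ⟨hm1, ?_⟩
            rintro ⟨_, h' | h'⟩
            · exact hne h'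
            · exact ha.cx.asymm _ _ h h'
      · have heM' : e < a.M k := lt_of_le_of_ne he heM
        rw [hh_nx heM']
        obtain ⟨g1, g2⟩ := hh_edge (φ := (q, 0)) ha hk he1 heM' hT hz rfl hCI
        refine ⟨?_, ?_, g1, g2⟩
        · intro h
          rw [Prod.mk.injEq] at h
          omega
        · intro h
          rw [Prod.mk.injEq] at h
          omega

theorem B_hint (ha : IsAsm S a) {φ ψ χ : ℕ × ℕ} (hφ : a.Valid φ) (hψ : a.Valid ψ)
    (hχ : a.Valid χ) (hne : ψ ≠ χ) {x : E2} (hx : x ∈ a.R φ) (hr : Reg a.Q a.f x) {z : E2}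
    (hz : z ∈ a.R ψ ∩ a.R χ) (hzx : z ≠ x) (hf : a.f z = a.f x) :
    φ ≠ ψ ∧ φ ≠ χ ∧ (a.B φ ψ ↔ a.B φ χ) ∧ (a.B ψ φ ↔ a.B χ φ) := by
  obtain ⟨k, e, hk, he, hIF, ⟨rfl, rfl⟩ | ⟨rfl, rfl⟩⟩ := overlap ha hψ hχ hne hz.1 hz.2
  · exact hh_core ha hφ hk he hx hr hIF hzx hf
  · obtain ⟨h1, h2, h3, h4⟩ := hh_core ha hφ hk he hx hr hIF hzx hf
    exact ⟨h2, h1, h3.symm, h4.symm⟩

theorem hh_mem (ha : IsAsm S a) {i : Fin c.N} {φ : ℕ × ℕ} (hφ : a.Valid φ) (h : a.Over i φ) :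
    c.mem i (a.pl φ) := by
  rcases h with ⟨h0, h⟩ | ⟨h0, h⟩
  · simp only [pl, h0, if_true]
    exact h
  · rcases hφ.2 with h' | ⟨h', h''⟩
    · exact absurd h' h0
    · rw [← h]
      simp only [pl, h0, if_false]
      exact (ha.route φ.1 h').valid φ.2 (by omega) h''

theorem B_trans (ha : IsAsm S a) {φ ψ χ : ℕ × ℕ} (hφ : a.Valid φ) (hψ : a.Valid ψ)
    (hχ : a.Valid χ) (h12 : φ ≠ ψ) (h23 : ψ ≠ χ) (h13 : φ ≠ χ) {x y z : E2} (hx : x ∈ a.R φ)
    (hy : y ∈ a.R ψ) (hz : z ∈ a.R χ) (rx : Reg a.Q a.f x) (ry : Reg a.Q a.f y)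
    (rz : Reg a.Q a.f z) (fxy : a.f x = a.f y) (fyz : a.f y = a.f z) (h1 : a.B φ ψ)
    (h2 : a.B ψ χ) : a.B φ χ := by
  by_cases exy : x = y
  · subst exy
    exact absurd h1 (B_cross ha hφ hψ h12 ⟨hx, hy⟩ rx)
  by_cases eyz : y = z
  · subst eyz
    exact absurd h2 (B_cross ha hψ hχ h23 ⟨hy, hz⟩ ry)
  by_cases exz : x = z
  · subst exz
    have h := B_hint ha hψ hφ hχ h13 hy ry ⟨hx, hz⟩ exy fxy
    exact absurd (h.2.2.1.2 h2) (B_asymm ha h1)
  obtain ⟨i, o1, o2, o3⟩ := common_cell ha hφ hψ hχ hx hy hz rx ry rz exy eyz exz fxy fyz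
  rw [B_over ha hφ hψ o1 o2] at h1
  rw [B_over ha hψ hχ o2 o3] at h2
  rw [B_over ha hφ hχ o1 o3]
  have m1 := hh_mem ha hφ o1
  have m2 := hh_mem ha hψ o2
  have m3 := hh_mem ha hχ o3
  rcases h1 with h1 | ⟨e1, h1⟩
  · rcases h2 with h2 | ⟨e2, h2⟩
    · exact Or.inl (ha.cx.trans i _ _ _ m3 m2 m1 h2 h1)
    · rw [← e2]
      exact Or.inl h1
  · rcases h2 with h2 | ⟨e2, h2⟩
    · rw [e1]
      exact Or.inl h2
    · right
      refine ⟨e1.trans e2, ?_⟩
      have hψ0 : ψ.2 ≠ 0 := by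
        rcases h1 with h1 | h1
        · exact h1.2
        · exact h1.2.1
      have hb : χ.2 ≠ 0 ∧ bef ψ χ := by
        rcases h2 with h2 | h2
        · exact absurd h2.1 hψ0
        · exact h2.2
      rcases h1 with h1 | h1
      · exact Or.inl ⟨h1.1, hb.1⟩
      · refine Or.inr ⟨h1.1, hb.1, ?_⟩
        have b1 := h1.2.2
        have b2 := hb.2
        simp only [bef] at b1 b2 ⊢
        rcases b1 with b1 | ⟨b1, b1'⟩
        · rcases b2 with b2 | ⟨b2, b2'⟩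
          · exact Or.inl (b1.trans b2)
          · exact Or.inl (by omega)
        · rcases b2 with b2 | ⟨b2, b2'⟩
          · exact Or.inl (by omega)
          · exact Or.inr ⟨b1.trans b2, by omega⟩

theorem hh_cross (ha : IsAsm S a) {k e : ℕ} (hk : k + 1 < c.m) (hC : a.Cross k e) {ψ : ℕ × ℕ}
    (hψ : a.Valid ψ) {x : E2} (hx : x ∈ a.IF k e) {z : E2} (hz : z ∈ a.R ψ) (hzx : z ≠ x)
    (hf : a.f z = a.f x) :
    ψ.2 = 0 ∧ ∃ β : Prop, ∀ q : E2 × E2, q.2 ∈ a.R ψ → Reg a.Q a.f q.2 → a.f q.1 = a.f q.2 →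
        ((q.1 ∈ a.R (k, e) → (a.B (k, e) ψ ↔ β)) ∧
          (q.1 ∈ a.R (k, e + 1) → (a.B (k, e + 1) ψ ↔ β))) := by
  obtain ⟨he1, heM, hcr⟩ := id hC
  have hcine : a.ci (k, e) ≠ a.ci (k, e + 1) := hcr.1
  have hT : ¬ a.Turn k e := fun hT => hcr.1 hT.2.2.1
  have h0 : ψ.2 = 0 := by
    by_contra h0
    exact hzx (uniq_edge ha hk heM.le hT hx hψ h0 hz hf)
  refine ⟨h0, ?_⟩
  obtain ⟨q, q'⟩ := ψ
  simp only at h0
  subst h0
  have hval := valid_nx ha hk heM.le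
  rw [hh_nx heM] at hval
  by_cases hCI : a.f x ∈ c.CI (a.pk q)
  · refine ⟨a.B (k, e) (q, 0), fun _ _ _ _ => ⟨fun _ => Iff.rfl, fun _ => ?_⟩⟩
    exact (hh_edge (φ := (q, 0)) ha hk he1 heM hT hx rfl hCI).2.symm
  · obtain ⟨hV, hb1, hb2, _⟩ := hh_move ha hk he1 heM hT hx
    have hnot : ¬ (c.mem (a.ci (k, e)) (a.pk q) ∧ c.mem (a.ci (k, e + 1)) (a.pk q)) := by
      rintro ⟨m1, m2⟩
      exact hCI ((ha.cx.plate_edge _ _ hb1 hV _).2 ⟨m1, _, hcine.symm, hh_ccell hb2, m2⟩)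
    have key : ∀ e', e' ≠ 0 → a.Valid (k, e') → ∀ p : E2 × E2, p.2 ∈ a.R (q, 0) →
        Reg a.Q a.f p.2 → a.f p.1 = a.f p.2 → p.1 ∈ a.R (k, e') →
          c.mem (a.ci (k, e')) (a.pk q) := by
      intro e' he' hv p hp hr hfp hp1
      obtain ⟨_, _, h1⟩ := reg_plate ha hψ.1 hp hr
      rw [← hfp] at h1
      exact ha.cx.mem_of_CI _ _ _ (facet_img ha hv he' hp1).1 h1
    by_cases hm : c.mem (a.ci (k, e)) (a.pk q)
    · refine ⟨a.B (k, e) (q, 0), fun p hp hr hfp => ⟨fun _ => Iff.rfl, fun h => ?_⟩⟩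
      exact absurd ⟨hm, key (e + 1) (by omega) hval.2.1 p hp hr hfp h⟩ hnot
    · refine ⟨a.B (k, e + 1) (q, 0), fun p hp hr hfp => ⟨fun h => ?_, fun _ => Iff.rfl⟩⟩
      exact absurd (key e (by omega) hval.1 p hp hr hfp h) hm

theorem B_hcross (ha : IsAsm S a) {φ φ' ψ : ℕ × ℕ} (hφ : a.Valid φ) (hφ' : a.Valid φ')
    (hψ : a.Valid ψ) (hne : φ ≠ φ') {x : E2} (hx : x ∈ a.R φ ∩ a.R φ') (hr : Reg a.Q a.f x)
    {z : E2} (hz : z ∈ a.R ψ) (hzx : z ≠ x) (hf : a.f z = a.f x) :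
    ψ ≠ φ ∧ ψ ≠ φ' ∧ ∃ β : Prop, ∀ᶠ q : E2 × E2 in 𝓝 (x, z), q.2 ∈ a.R ψ → Reg a.Q a.f q.1 →
      Reg a.Q a.f q.2 → a.f q.1 = a.f q.2 →
        ((q.1 ∈ a.R φ → (a.B φ ψ ↔ β)) ∧ (q.1 ∈ a.R φ' → (a.B φ' ψ ↔ β))) := by
  obtain ⟨k, e, hk, he, hIF, hcase⟩ := overlap ha hφ hφ' hne hx.1 hx.2
  have hC : a.Cross k e := by
    by_contra hC
    exact fold_not_reg ha hk he hC hIF hr
  obtain ⟨he1, heM, _⟩ := id hC
  obtain ⟨h0, β, hβ⟩ := hh_cross ha hk hC hψ hIF hz hzx hf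
  rw [hh_nx heM] at hcase
  have hn1 : ψ ≠ (k, e) := by
    rintro rfl
    simp only at h0
    omega
  have hn2 : ψ ≠ (k, e + 1) := by
    rintro rfl
    simp only at h0
    omega
  rcases hcase with ⟨rfl, rfl⟩ | ⟨rfl, rfl⟩
  · exact ⟨hn1, hn2, β, Eventually.of_forall fun q h1 _ h3 h4 => hβ q h1 h3 h4⟩
  · exact ⟨hn2, hn1, β, Eventually.of_forall fun q h1 _ h3 h4 => (hβ q h1 h3 h4).symm⟩

end AData

end Pool.Agent.SeamS
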