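import Pool.Agent.SeamS.Local

/-!
# Composition of foldings (module A3)

`FoldOn.comp`: if `F` is a planar folding of `X` and `G` a folding of `F '' X` with sign `pos` then `G ∘ F` is
a folding of `X` with layer order `compUp F upF upG pos`.

Notation: `h = G ∘ F`, `X' = F '' X`; up = compUp. By `reg_comp`, `q` is `h`-regular iff `q` is `F`-regular and `F q` is
`G`-regular. Write `x > y` for `up x y`.

pieces: `Pieced.comp`.

asymm, total, trans: case distinction on `F x = F y` etc. (In `trans` with `F x = F y ≠ F z` use `G`-order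
of `(F x, F z)`; with `F x ≠ F y`, `F y ≠ F z`: `F x = F z` is impossible by asymmetry of `upG`, if
`F x = F y = F z` use transitivity of `upF`, reversed if not `pos`.)

tortilla at `(x, z)`, `x` `h`-regular, `z ∈ X`, `z ≠ x`, `h z = h x`.
 Case `F z ≠ F x`: tortilla of `G` at `(F x, F z)`, and `F` is continuous on `X` (regular points are in `X`), `F q.1 ≠ F q.2`
 for `q` near `(x, z)`.
 Case `F z = F x = p`: `p` is `G`-regular. Tortilla of `F` at `(x, z)`. For `q` near `(x, z)`, `h`-regular, with `h q.1 = h q.2`: `F q.1`, `F q.2` are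
 near `p`, `G` is injective near `p`, so `F q.1 = F q.2`; and `pos (F q.1) ↔ pos p` (`SignOn.const`). Depending on `pos p`
 we get the same or the opposite alternative.

taco. Choose finite exceptional sets: `E_F, L_F, Γ_F` from `Pieced.local_structure` of `F`, `E_G, L_G, Γ_G` from that of
`G`, `T_F ⊆ E2` and `T_G ⊆ Y` from the taco conditions, `S_G` from `SignOn.flip`. Let
 `K` = the set of all points `p` of the plane such that for some `l ∈ L_F`, `g ∈ Γ_F`, `m ∈ L_G`: `p` is on the line `m`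
 and on the line `g (l)` and these two lines are different (finite: two different lines meet in at most one point).
 `E = T_G ∪ G '' (T_F ∪ E_G ∪ S_G ∪ K) ∪ h '' E_F`.
Let `z ≠ z'` in `X`, `h z = h z' ∉ E`.
 Case `F z ≠ F z'`: taco of `G` at `(F z, F z')` with neighbourhoods `V, V'`, made disjoint; take preimages under `F` (continuity on `X`). For
 `a, a' ∈ F⁻¹ V`, `b, b' ∈ F⁻¹ V'`: `F a ≠ F b` etc., so `up` is `upG` on the images. Done.
 Case `F z = F z' = p`. Then `p ∉ E_G`, so `G` is flat, two-sided or one-sided at `p`.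
 (i) `G` injective near `p` on `X'` (flat, one-sided, or two-sided and regular): then for `a, a'` near `z`, `b, b'` near `z'` with the same
 `h`-image all `F`-images are equal, and the sign is constant near `p` on regular points (regular point: `SignOn.const`; one-sided: the open half
 disc consists of regular points and is connected, so the locally constant sign is constant; alternatively use `SignOn.flip`-free argument: convexity). Use the taco
 condition of `F` at `(z, z')` (if pos) or at `(z', z)` with `(b', b)`, `(a', a)` (if not pos: `b' > a' > b > a` in the order `upF`). Note `p ∉ T_F`.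
 (ii) `G` folds at `p` along the line `m` (two-sided, `g₂ = g₁ ∘ refl m`). Let side 1 and side 2 be the two open half discs near `p`; all their points
 are `G`-regular; the signs are constant on each side and opposite (`SignOn.flip`, `p ∉ S_G`; constant by connectedness). For `c` on side 1 near `p`, `G c = G (refl m c)`, the relation
 `upG c (refl m c)` is locally constant in `c` (tortilla of `G` at `(c, refl m c)`) so constant on side 1; by renaming the sides
 assume that side 1 is above side 2: `upG c (refl m c)` for all `c` on side 1 near `p`. (Points on `m` are not `G`-regular.)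
 Suppose `a > b > a' > b'` near `z, z', z, z'`, `h`-regular, same `h`-image. Then `F a, F b, F a', F b'` are all in `{c, refl m c}` for one `c` on side 1. The sides are
 monotone along the chain: first some on side 1, then some on side 2.
   - all on one side: taco of `F` at `(z, z')` or `(z', z)`, as in (i).
   Otherwise `a` is on side 1 and `b'` on side 2.
   CLAIM: if a point `ζ ∈ X` with `F ζ = p` has `h`-regular points arbitrarily near (or: in the chosen neighbourhood) with `F`-image on side 1, and others with `F`-image on side 2, then `ζ` is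
   `F`-regular. Proof: `ζ ∉ E_F` (as `h ζ ∉ h '' E_F`). If `F` at `ζ` is one-sided or a fold along the line `l ∈ L_F` then the image of a neighbourhood of `ζ` lies on one side of the line `g₁(l)`
   through `p`. As `p ∉ K`, `g₁(l) = m` as lines, so the image is on one side of `m`: contradiction. (Choose the neighbourhoods `V, V'` in advance such that this works: for a one-sided or folded `ζ` the neighbourhood is chosen such that its image is on one closed side of `m`.)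
   - sides (1,2,2,2): `z` has both sides so `z` is `F`-regular; `b > a' > b'` all on side 2 with the same `F`-image: contradiction with the tortilla condition of `F` at `(z, z')`.
   - sides (1,1,1,2): `z'` has both sides so it is `F`-regular; `a > b > a'` on side 1: contradiction with tortilla of `F` at `(z', z)`.
   - sides (1,1,2,2): both `z, z'` are `F`-regular; tortilla of `F` at `(z, z')`: `upF` has the same direction for `(a, b)` and `(a', b')`; the signs of the two sides are opposite, so `up` has opposite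
     directions: contradiction with `a > b`, `a' > b'`.
 The neighbourhoods `V, V'` must be chosen small enough for all these (finitely many) eventual statements.

`SignOn.comp`: sign of a composition. const: clear. flip: exceptional set
`E_F ∪ S_F ∪ {q ∈ X | F q ∈ S_G ∪ E_G ∪ K}` (finite by `Pieced.finite_fibre`). Let `q` be outside, `a ≠ a'` near `q`, `h`-regular, `h a = h a'`. If
`F a = F a'`: `posF` flips (`SignOn.flip` of `F`), `posG (F a) = posG (F a')`. If `F a ≠ F a'`: `G` is not injective near `F q`, so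
`G` folds at `F q` and `F a`, `F a'` are on different sides; by the CLAIM `q` is `F`-regular, so `posF a ↔ posF a'`; and `posG (F a) ↔ ¬ posG (F a')` by `SignOn.flip` of `G`.
-/

namespace Pool.Agent.SeamS

open Set Filter Topology Metric Pool.Agent.Hhelper79.Seam

section
variable {Y : Type*} [NormedAddCommGroup Y] [InnerProductSpace ℝ Y]

namespace CompAux

/-- a locally constant property of a convex set is constant -/
theorem const_of_convex {S : Set E2} {P : E2 → Prop} (hS : Convex ℝ S)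
    (hloc : ∀ q ∈ S, ∀ᶠ q' in 𝓝 q, (P q' ↔ P q)) : (∀ q ∈ S, P q) ∨ ∀ q ∈ S, ¬ P q := by
  have hpre := hS.isPreconnected
  have hcov : S ⊆ interior {q | P q} ∪ interior {q | ¬ P q} := by
    intro q hq
    by_cases h : P q
    · left
      rw [mem_interior_iff_mem_nhds]
      filter_upwards [hloc q hq] with y hy
      exact hy.2 h
    · right
      rw [mem_interior_iff_mem_nhds]
      filter_upwards [hloc q hq] with y hy
      exact fun h' => h (hy.1 h')
  have hdis : S ∩ (interior {q | P q} ∩ interior {q | ¬ P q}) = ∅ := by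
    rw [Set.eq_empty_iff_forall_notMem]
    rintro q ⟨-, h1, h2⟩
    exact (interior_subset h2) (interior_subset h1)
  rcases isPreconnected_iff_subset_of_disjoint.1 hpre _ _ isOpen_interior isOpen_interior hcov
    hdis with h | h
  · exact Or.inl fun q hq => interior_subset (h hq)
  · exact Or.inr fun q hq => interior_subset (h hq)

theorem inner_refl {m : E2 × ℝ} (hm : ‖m.1‖ = 1) (c : E2) :
    inner ℝ m.1 (refl m c) = 2 * m.2 - inner ℝ m.1 c := by
  have hnn : inner ℝ m.1 m.1 = (1 : ℝ) := by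
    rw [real_inner_self_eq_norm_sq, hm]
    norm_num
  rw [refl, inner_sub_right, inner_smul_right, hnn]
  ring

theorem refl_refl {m : E2 × ℝ} (hm : ‖m.1‖ = 1) (c : E2) : refl m (refl m c) = c := by
  have h1 := inner_refl hm c
  conv_lhs => rw [refl, h1]
  rw [refl]
  module

theorem dist_refl {m : E2 × ℝ} (hm : ‖m.1‖ = 1) {p : E2} (hp : inner ℝ m.1 p = m.2) (c : E2) :
    dist (refl m c) p = dist c p := by
  have hnn : inner ℝ m.1 m.1 = (1 : ℝ) := by
    rw [real_inner_self_eq_norm_sq, hm]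
    norm_num
  have h1 : refl m c - p = (c - p) - (2 * inner ℝ m.1 (c - p)) • m.1 := by
    rw [refl, inner_sub_right, hp]
    module
  have h2 : ‖refl m c - p‖ ^ 2 = ‖c - p‖ ^ 2 := by
    rw [h1, @norm_sub_sq_real, inner_smul_right, norm_smul, hm, Real.norm_eq_abs, mul_one, sq_abs,
      real_inner_comm]
    ring
  rw [dist_eq_norm, dist_eq_norm]
  exact (sq_eq_sq₀ (norm_nonneg _) (norm_nonneg _)).1 h2

theorem continuous_refl (m : E2 × ℝ) : Continuous (refl m) := by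
  unfold refl
  fun_prop

theorem refl_ne {m : E2 × ℝ} (hm : ‖m.1‖ = 1) {c : E2} (hc : inner ℝ m.1 c ≠ m.2) :
    refl m c ≠ c := by
  intro h
  have h1 := inner_refl hm c
  rw [h] at h1
  apply hc
  linarith

theorem convex_side (m : E2 × ℝ) (p : E2) (r : ℝ) :
    Convex ℝ {c | c ∈ ball p r ∧ m.2 < inner ℝ m.1 c} := by
  have h1 : {c | c ∈ ball p r ∧ m.2 < inner ℝ m.1 c} = ball p r ∩ {c | m.2 < inner ℝ m.1 c} := rfl
  rw [h1]
  refine (convex_ball p r).inter ?_
  exact convex_halfSpace_gt ((innerSL ℝ m.1).isBoundedLinearMap.toIsLinearMap) m.2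

/-- what happens near a point of the paper outside the exceptional sets -/
theorem loc {X' : Set E2} {G : E2 → Y} {pos : E2 → Prop} (hs : SignOn X' G pos)
    {E : Set E2} {L : Set (E2 × ℝ)} {Γ : Set (E2 →ᵃⁱ[ℝ] Y)} (hL : ∀ l ∈ L, ‖l.1‖ = 1)
    (hloc : ∀ q ∈ X', q ∉ E →
        (∃ g ∈ Γ, Flat X' G g q) ∨
        (∃ l ∈ L, ∃ g₁ ∈ Γ, ∃ g₂ ∈ Γ, TwoSided X' G l g₁ g₂ q) ∨
        (∃ l ∈ L, ∃ g₁ ∈ Γ, OneSided X' G l g₁ q))
    {S : Set E2} (hS : ∀ q ∈ X', q ∉ S → ∃ V ∈ 𝓝 q, ∀ a ∈ V, ∀ a' ∈ V,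
      Reg X' G a → Reg X' G a' → a ≠ a' → G a = G a' → (pos a ↔ ¬ pos a'))
    {p : E2} (hp : p ∈ X') (hpE : p ∉ E) (hpS : p ∉ S) :
    (∃ W ∈ 𝓝 p, InjOn G (W ∩ X') ∧ ∃ σ : Prop, ∀ c ∈ W, Reg X' G c → (pos c ↔ σ)) ∨
    (∃ m ∈ L, inner ℝ m.1 p = m.2 ∧ ∃ r > 0, 
      (∀ c ∈ ball p r, inner ℝ m.1 c ≠ m.2 → Reg X' G c ∧ G (refl m c) = G c) ∧
      (∀ c ∈ ball p r, Reg X' G c → inner ℝ m.1 c ≠ m.2) ∧
      (∀ c ∈ ball p r, ∀ c' ∈ ball p r, m.2 < inner ℝ m.1 c → m.2 < inner ℝ m.1 c' →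
        G c = G c' → c = c') ∧
      (∀ c ∈ ball p r, ∀ c' ∈ ball p r, inner ℝ m.1 c < m.2 → inner ℝ m.1 c' < m.2 →
        G c = G c' → c = c') ∧
      (∀ c ∈ ball p r, ∀ c' ∈ ball p r, m.2 < inner ℝ m.1 c → inner ℝ m.1 c' < m.2 →
        G c = G c' → c' = refl m c) ∧
      ∃ σ : Prop, ∀ c ∈ ball p r, (m.2 < inner ℝ m.1 c → (pos c ↔ σ)) ∧
        (inner ℝ m.1 c < m.2 → (pos c ↔ ¬ σ))) := by
  have hregcase : Reg X' G p →
      (∃ W ∈ 𝓝 p, InjOn G (W ∩ X') ∧ ∃ σ : Prop, ∀ c ∈ W, Reg X' G c → (pos c ↔ σ)) := by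
    intro hreg
    have h1 := hs.const p hreg
    obtain ⟨U, hU, hUX, hinj⟩ := hreg
    refine ⟨U ∩ {q' | pos q' ↔ pos p}, inter_mem hU h1, ?_, pos p, fun c hc _ => hc.2⟩
    exact hinj.mono fun y hy => hy.1.1
  rcases hloc p hp hpE with ⟨g, hg, hflat⟩ | ⟨m, hm, g₁, hg₁, g₂, hg₂, htwo⟩ | ⟨m, hm, g₁, hg₁, hone⟩
  · exact Or.inl (hregcase hflat.reg)
  · rcases htwo.reg_or_fold (hL m hm) with hreg | hfold
    · exact Or.inl (hregcase hreg)
    right
    obtain ⟨hpm, hag, h1, h2⟩ := htwo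
    obtain ⟨V, hV, hVf⟩ := hS p hp hpS
    obtain ⟨r, hr, hball⟩ := Metric.mem_nhds_iff.1 (inter_mem (h1.and h2) hV)
    have hm1 := hL m hm
    have hb1 : ∀ c ∈ ball p r, m.2 ≤ inner ℝ m.1 c → c ∈ X' ∧ G c = g₁ c :=
      fun c hc => (hball hc).1.1
    have hb2 : ∀ c ∈ ball p r, inner ℝ m.1 c ≤ m.2 → c ∈ X' ∧ G c = g₂ c :=
      fun c hc => (hball hc).1.2
    have hbr : ∀ c ∈ ball p r, refl m c ∈ ball p r := by
      intro c hc
      rw [mem_ball, dist_refl hm1 hpm]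
      exact hc
    have hreg1 : ∀ c ∈ ball p r, m.2 < inner ℝ m.1 c → Reg X' G c := by
      intro c hc hlt
      have hopen : IsOpen (ball p r ∩ {y : E2 | m.2 < inner ℝ m.1 y}) :=
        isOpen_ball.inter (isOpen_lt continuous_const (by fun_prop))
      refine ⟨_, hopen.mem_nhds ⟨hc, hlt⟩, fun y hy => (hb1 y hy.1 (le_of_lt hy.2)).1, ?_⟩
      intro a ha b hb hab
      rw [(hb1 a ha.1 (le_of_lt ha.2)).2, (hb1 b hb.1 (le_of_lt hb.2)).2] at hab
      exact g₁.injective hab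
    have hreg2 : ∀ c ∈ ball p r, inner ℝ m.1 c < m.2 → Reg X' G c := by
      intro c hc hlt
      have hopen : IsOpen (ball p r ∩ {y : E2 | inner ℝ m.1 y < m.2}) :=
        isOpen_ball.inter (isOpen_lt (by fun_prop) continuous_const)
      refine ⟨_, hopen.mem_nhds ⟨hc, hlt⟩, fun y hy => (hb2 y hy.1 (le_of_lt hy.2)).1, ?_⟩
      intro a ha b hb hab
      rw [(hb2 a ha.1 (le_of_lt ha.2)).2, (hb2 b hb.1 (le_of_lt hb.2)).2] at hab
      exact g₂.injective hab
    have hGr : ∀ c ∈ ball p r, G (refl m c) = G c := by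
      intro c hc
      have hi := inner_refl hm1 c
      rcases le_total m.2 (inner ℝ m.1 c) with h | h
      · rw [(hb1 c hc h).2, (hb2 _ (hbr c hc) (by rw [hi]; linarith)).2, hfold, refl_refl hm1]
      · rw [(hb2 c hc h).2, (hb1 _ (hbr c hc) (by rw [hi]; linarith)).2, hfold]
    have hsame1 : ∀ c ∈ ball p r, ∀ c' ∈ ball p r, m.2 < inner ℝ m.1 c → m.2 < inner ℝ m.1 c' →
        G c = G c' → c = c' := by
      intro c hc c' hc' h h' hG
      rw [(hb1 c hc h.le).2, (hb1 c' hc' h'.le).2] at hG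
      exact g₁.injective hG
    have hsame2 : ∀ c ∈ ball p r, ∀ c' ∈ ball p r, inner ℝ m.1 c < m.2 → inner ℝ m.1 c' < m.2 →
        G c = G c' → c = c' := by
      intro c hc c' hc' h h' hG
      rw [(hb2 c hc h.le).2, (hb2 c' hc' h'.le).2] at hG
      exact g₂.injective hG
    refine ⟨m, hm, hpm, r, hr, ?_, ?_, hsame1, hsame2, ?_, ?_⟩
    · intro c hc hne
      refine ⟨?_, hGr c hc⟩
      rcases lt_or_gt_of_ne hne with h | h
      · exact hreg2 c hc h
      · exact hreg1 c hc h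
    · intro c hc hreg hcm
      obtain ⟨U, hU, hUX, hinj⟩ := hreg
      have hc1 : Tendsto (fun s : ℝ => c + s • m.1) (𝓝[>] 0) (𝓝 c) := by
        have : Tendsto (fun s : ℝ => c + s • m.1) (𝓝 0) (𝓝 (c + (0 : ℝ) • m.1)) := by
          apply Continuous.tendsto
          fun_prop
        rw [zero_smul, add_zero] at this
        exact this.mono_left nhdsWithin_le_nhds
      have hc2 : Tendsto (fun s : ℝ => refl m (c + s • m.1)) (𝓝[>] 0) (𝓝 c) := by
        have h3 : refl m c = c := by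
          rw [refl, hcm]
          simp
        have h4 := (continuous_refl m).tendsto c
        rw [h3] at h4
        exact h4.comp hc1
      have hUb : U ∩ ball p r ∈ 𝓝 c := inter_mem hU (isOpen_ball.mem_nhds hc)
      obtain ⟨s, ⟨hs1, hs2⟩, hs0⟩ :=
        (((hc1.eventually hUb).and (hc2.eventually hUb)).and self_mem_nhdsWithin).exists
      have hs0' : (0 : ℝ) < s := hs0
      have hnn : inner ℝ m.1 m.1 = (1 : ℝ) := by
        rw [real_inner_self_eq_norm_sq, hm1]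
        norm_num
      have hne : inner ℝ m.1 (c + s • m.1) ≠ m.2 := by
        rw [inner_add_right, inner_smul_right, hnn, hcm]
        linarith
      exact refl_ne hm1 hne (hinj hs2.1 hs1.1 (hGr _ hs1.2))
    · intro c hc c' hc' h h' hG
      rw [← hGr c' hc'] at hG
      have hi := inner_refl hm1 c'
      have := hsame1 c hc _ (hbr c' hc') h (by rw [hi]; linarith) hG
      rw [this, refl_refl hm1]
    · have hσ := const_of_convex (P := pos) (convex_side m p r)
        (fun q hq => hs.const q (hreg1 q hq.1 hq.2))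
      have hopp : ∀ c ∈ ball p r, inner ℝ m.1 c < m.2 → (pos (refl m c) ↔ ¬ pos c) := by
        intro c hc h
        have hi := inner_refl hm1 c
        exact hVf _ (hball (hbr c hc)).2 c (hball hc).2 (hreg1 _ (hbr c hc) (by rw [hi]; linarith))
          (hreg2 c hc h) (refl_ne hm1 h.ne) (hGr c hc)
      rcases hσ with hσ | hσ
      · refine ⟨True, fun c hc => ⟨fun h => ⟨fun _ => trivial, fun _ => hσ c ⟨hc, h⟩⟩, fun h => ?_⟩⟩
        have h3 := hopp c hc h
        have hi := inner_refl hm1 c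
        have h4 := hσ _ ⟨hbr c hc, by rw [hi]; linarith⟩
        tauto
      · refine ⟨False, fun c hc => ⟨fun h => ⟨fun h' => hσ c ⟨hc, h⟩ h', fun h' => h'.elim⟩,
          fun h => ?_⟩⟩
        have h3 := hopp c hc h
        have hi := inner_refl hm1 c
        have h4 := hσ _ ⟨hbr c hc, by rw [hi]; linarith⟩
        tauto
  · left
    obtain ⟨hpm, h1, h2⟩ := hone
    obtain ⟨r, hr, hball⟩ := Metric.mem_nhds_iff.1 (h1.and h2)
    have hm1 := hL m hm
    have hb1 : ∀ c ∈ ball p r, m.2 ≤ inner ℝ m.1 c → c ∈ X' ∧ G c = g₁ c := fun c hc => (hball hc).1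
    have hb2 : ∀ c ∈ ball p r, inner ℝ m.1 c < m.2 → c ∉ X' := fun c hc => (hball hc).2
    have hreg1 : ∀ c ∈ ball p r, m.2 < inner ℝ m.1 c → Reg X' G c := by
      intro c hc hlt
      have hopen : IsOpen (ball p r ∩ {y : E2 | m.2 < inner ℝ m.1 y}) :=
        isOpen_ball.inter (isOpen_lt continuous_const (by fun_prop))
      refine ⟨_, hopen.mem_nhds ⟨hc, hlt⟩, fun y hy => (hb1 y hy.1 (le_of_lt hy.2)).1, ?_⟩
      intro a ha b hb hab
      rw [(hb1 a ha.1 (le_of_lt ha.2)).2, (hb1 b hb.1 (le_of_lt hb.2)).2] at hab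
      exact g₁.injective hab
    have hregline : ∀ c ∈ ball p r, Reg X' G c → m.2 < inner ℝ m.1 c := by
      intro c hc hreg
      by_contra hcon
      push Not at hcon
      rcases hcon.lt_or_eq with h | h
      · exact hb2 c hc h hreg.mem
      · obtain ⟨U, hU, hUX, -⟩ := hreg
        have hc1 : Tendsto (fun s : ℝ => c + s • (-m.1)) (𝓝[>] 0) (𝓝 c) := by
          have : Tendsto (fun s : ℝ => c + s • (-m.1)) (𝓝 0) (𝓝 (c + (0 : ℝ) • (-m.1))) := by
            apply Continuous.tendsto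
            fun_prop
          rw [zero_smul, add_zero] at this
          exact this.mono_left nhdsWithin_le_nhds
        have hUb : U ∩ ball p r ∈ 𝓝 c := inter_mem hU (isOpen_ball.mem_nhds hc)
        obtain ⟨s, hs1, hs0⟩ := ((hc1.eventually hUb).and self_mem_nhdsWithin).exists
        have hs0' : (0 : ℝ) < s := hs0
        have hnn : inner ℝ m.1 m.1 = (1 : ℝ) := by
          rw [real_inner_self_eq_norm_sq, hm1]
          norm_num
        refine hb2 _ hs1.2 ?_ (hUX hs1.1)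
        rw [inner_add_right, inner_smul_right, inner_neg_right, hnn, h]
        linarith
    have hσ := const_of_convex (P := pos) (convex_side m p r)
      (fun q hq => hs.const q (hreg1 q hq.1 hq.2))
    refine ⟨ball p r, ball_mem_nhds p hr, ?_, ?_⟩
    · rintro a ⟨ha, haX⟩ b ⟨hb, hbX⟩ hab
      have ha' : m.2 ≤ inner ℝ m.1 a := by
        by_contra hcon
        push Not at hcon
        exact hb2 a ha hcon haX
      have hb' : m.2 ≤ inner ℝ m.1 b := by
        by_contra hcon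
        push Not at hcon
        exact hb2 b hb hcon hbX
      rw [(hb1 a ha ha').2, (hb1 b hb hb').2] at hab
      exact g₁.injective hab
    · rcases hσ with hσ | hσ
      · exact ⟨True, fun c hc hreg => ⟨fun _ => trivial, fun _ => hσ c ⟨hc, hregline c hc hreg⟩⟩⟩
      · exact ⟨False, fun c hc hreg =>
          ⟨fun h' => hσ c ⟨hc, hregline c hc hreg⟩ h', fun h' => h'.elim⟩⟩

/-- the direction of the layer order across a fold is constant -/
theorem dir {X' : Set E2} {G : E2 → Y} {upG : E2 → E2 → Prop} (hG : FoldOn X' G upG)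
    {m : E2 × ℝ} (hm1 : ‖m.1‖ = 1) {p : E2} (hp : inner ℝ m.1 p = m.2) {r : ℝ}
    (h1 : ∀ c ∈ ball p r, inner ℝ m.1 c ≠ m.2 → Reg X' G c ∧ G (refl m c) = G c) :
    (∀ c ∈ ball p r, m.2 < inner ℝ m.1 c → upG c (refl m c)) ∨
    (∀ c ∈ ball p r, m.2 < inner ℝ m.1 c → upG (refl m c) c) := by
  have hbr : ∀ c ∈ ball p r, refl m c ∈ ball p r := by
    intro c hc
    rw [mem_ball, dist_refl hm1 hp]
    exact hc
  have hrr : ∀ c ∈ ball p r, m.2 < inner ℝ m.1 c → Reg X' G c ∧ Reg X' G (refl m c) ∧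
      G c = G (refl m c) ∧ refl m c ≠ c := by
    intro c hc h
    have hi := inner_refl hm1 c
    exact ⟨(h1 c hc h.ne').1, (h1 _ (hbr c hc) (by rw [hi]; linarith)).1, (h1 c hc h.ne').2.symm,
      refl_ne hm1 h.ne'⟩
  have hloc : ∀ q ∈ {c | c ∈ ball p r ∧ m.2 < inner ℝ m.1 c}, ∀ᶠ q' in 𝓝 q,
      (upG q' (refl m q') ↔ upG q (refl m q)) := by
    rintro q ⟨hq, hlt⟩
    obtain ⟨r1, r2, r3, r4⟩ := hrr q hq hlt
    have hcont : Tendsto (fun y : E2 => (y, refl m y)) (𝓝 q) (𝓝 (q, refl m q)) :=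
      (continuous_id.prodMk (continuous_refl m)).tendsto q
    have hopen : IsOpen (ball p r ∩ {y : E2 | m.2 < inner ℝ m.1 y}) :=
      isOpen_ball.inter (isOpen_lt continuous_const (by fun_prop))
    have hS := hopen.mem_nhds ⟨hq, hlt⟩
    rcases hG.tortilla q (refl m q) r1 r2.mem r4 r3.symm with h | h
    · have h5 := hcont.eventually h
      have h6 := h5.self_of_nhds r1 r2 r3
      filter_upwards [h5, hS] with y hy hyS
      obtain ⟨s1, s2, s3, s4⟩ := hrr y hyS.1 hyS.2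
      exact ⟨fun _ => h6, fun _ => hy s1 s2 s3⟩
    · have h5 := hcont.eventually h
      have h6 := h5.self_of_nhds r1 r2 r3
      filter_upwards [h5, hS] with y hy hyS
      obtain ⟨s1, s2, s3, s4⟩ := hrr y hyS.1 hyS.2
      exact ⟨fun h7 => absurd (hy s1 s2 s3) (hG.asymm _ _ s1 s2 s3 h7),
        fun h7 => absurd h6 (hG.asymm _ _ r1 r2 r3 h7)⟩
  rcases const_of_convex (convex_side m p r) hloc with h | h
  · exact Or.inl fun c hc hlt => h c ⟨hc, hlt⟩
  · right
    intro c hc hlt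
    obtain ⟨r1, r2, r3, r4⟩ := hrr c hc hlt
    exact (hG.total _ _ r1 r2 r3 r4.symm).resolve_left (h c ⟨hc, hlt⟩)

/-- the local data of `G` used in the taco condition of the composition -/
theorem loc2 {X' : Set E2} {G : E2 → Y} {upG : E2 → E2 → Prop} {pos : E2 → Prop}
    (hG : FoldOn X' G upG) (hs : SignOn X' G pos)
    {E : Set E2} {L : Set (E2 × ℝ)} {Γ : Set (E2 →ᵃⁱ[ℝ] Y)} (hL : ∀ l ∈ L, ‖l.1‖ = 1)
    (hloc : ∀ q ∈ X', q ∉ E →
        (∃ g ∈ Γ, Flat X' G g q) ∨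
        (∃ l ∈ L, ∃ g₁ ∈ Γ, ∃ g₂ ∈ Γ, TwoSided X' G l g₁ g₂ q) ∨
        (∃ l ∈ L, ∃ g₁ ∈ Γ, OneSided X' G l g₁ q))
    {S : Set E2} (hS : ∀ q ∈ X', q ∉ S → ∃ V ∈ 𝓝 q, ∀ a ∈ V, ∀ a' ∈ V,
      Reg X' G a → Reg X' G a' → a ≠ a' → G a = G a' → (pos a ↔ ¬ pos a'))
    {p : E2} (hp : p ∈ X') (hpE : p ∉ E) (hpS : p ∉ S) :
    ∃ W ∈ 𝓝 p, ∃ S₁ S₂ : E2 → Prop, ∃ σ : Prop,
      (∀ c ∈ W, Reg X' G c → S₁ c ∨ S₂ c) ∧
      (∀ c ∈ W, ∀ c' ∈ W, Reg X' G c → Reg X' G c' → S₁ c → S₁ c' → G c = G c' → c = c') ∧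
      (∀ c ∈ W, ∀ c' ∈ W, Reg X' G c → Reg X' G c' → S₂ c → S₂ c' → G c = G c' → c = c') ∧
      (∀ c ∈ W, ∀ c' ∈ W, Reg X' G c → Reg X' G c' → S₂ c → S₁ c' → G c = G c' →
        c ≠ c' ∧ ¬ upG c c') ∧
      (∀ c ∈ W, Reg X' G c → S₁ c → (pos c ↔ σ)) ∧
      (∀ c ∈ W, Reg X' G c → S₂ c → (pos c ↔ ¬ σ)) ∧
      ((∀ c, ¬ S₂ c) ∨ ∃ m ∈ L, inner ℝ m.1 p = m.2 ∧
        ((∀ c, (S₁ c → m.2 < inner ℝ m.1 c) ∧ (S₂ c → inner ℝ m.1 c < m.2)) ∨
          (∀ c, (S₂ c → m.2 < inner ℝ m.1 c) ∧ (S₁ c → inner ℝ m.1 c < m.2)))) := by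
  rcases loc hs hL hloc hS hp hpE hpS with ⟨W, hW, hinj, σ, hσ⟩ |
    ⟨m, hm, hpm, r, hr, h1, h2, hs1, hs2, hs12, σ, hσ⟩
  · refine ⟨W, hW, fun _ => True, fun _ => False, σ, fun _ _ _ => Or.inl trivial, ?_,
      fun _ _ _ _ _ _ h => h.elim, fun _ _ _ _ _ _ h => h.elim, fun c hc hr _ => hσ c hc hr,
      fun _ _ _ h => h.elim, Or.inl fun _ h => h⟩
    intro c hc c' hc' r1 r2 _ _ h
    exact hinj ⟨hc, r1.mem⟩ ⟨hc', r2.mem⟩ h
  · have hm1 := hL m hm
    have hpair : ∀ c ∈ ball p r, ∀ c' ∈ ball p r, m.2 < inner ℝ m.1 c → inner ℝ m.1 c' < m.2 →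
        c ≠ c' := by
      rintro c _ c' _ h h' rfl
      exact absurd h (not_lt.2 h'.le)
    rcases dir hG hm1 hpm h1 with hd | hd
    · refine ⟨ball p r, ball_mem_nhds p hr, fun c => m.2 < inner ℝ m.1 c,
        fun c => inner ℝ m.1 c < m.2, σ, ?_, fun c hc c' hc' _ _ => hs1 c hc c' hc',
        fun c hc c' hc' _ _ => hs2 c hc c' hc', ?_, fun c hc _ => (hσ c hc).1,
        fun c hc _ => (hσ c hc).2, Or.inr ⟨m, hm, hpm, Or.inl fun c => ⟨id, id⟩⟩⟩
      · intro c hc hr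
        exact (lt_or_gt_of_ne (h2 c hc hr)).symm
      · intro c hc c' hc' r1 r2 h h' hG'
        have h3 := hs12 c' hc' c hc h' h hG'.symm
        refine ⟨(hpair c' hc' c hc h' h).symm, fun h4 => ?_⟩
        have h5 := hd c' hc' h'
        rw [← h3] at h5
        exact hG.asymm _ _ r1 r2 hG' h4 h5
    · refine ⟨ball p r, ball_mem_nhds p hr, fun c => inner ℝ m.1 c < m.2,
        fun c => m.2 < inner ℝ m.1 c, ¬ σ, ?_, fun c hc c' hc' _ _ => hs2 c hc c' hc',
        fun c hc c' hc' _ _ => hs1 c hc c' hc', ?_, fun c hc _ => (hσ c hc).2,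
        fun c hc _ h => ?_, Or.inr ⟨m, hm, hpm, Or.inr fun c => ⟨id, id⟩⟩⟩
      · intro c hc hr
        exact lt_or_gt_of_ne (h2 c hc hr)
      · intro c hc c' hc' r1 r2 h h' hG'
        have h3 := hs12 c hc c' hc' h h' hG'
        refine ⟨hpair c hc c' hc' h h', fun h4 => ?_⟩
        have h5 := hd c hc h
        rw [← h3] at h5
        exact hG.asymm _ _ r1 r2 hG' h4 h5
      · have := (hσ c hc).1 h
        tauto

/-- near a point of the paper, the image of a fold or of a boundary point lies on one side of the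
line `m` of `G` -/
theorem claim {X : Set E2} {F : E2 → E2} {E : Set E2} {L : Set (E2 × ℝ)}
    {Γ : Set (E2 →ᵃⁱ[ℝ] E2)} (hL : ∀ l ∈ L, ‖l.1‖ = 1)
    (hloc : ∀ q ∈ X, q ∉ E →
        (∃ g ∈ Γ, Flat X F g q) ∨
        (∃ l ∈ L, ∃ g₁ ∈ Γ, ∃ g₂ ∈ Γ, TwoSided X F l g₁ g₂ q) ∨
        (∃ l ∈ L, ∃ g₁ ∈ Γ, OneSided X F l g₁ q))
    {m : E2 × ℝ} {q : E2} (hq : q ∈ X) (hqE : q ∉ E) (hp : inner ℝ m.1 (F q) = m.2)
    (hK : ∀ l ∈ L, ∀ g ∈ Γ, inner ℝ (g.linearIsometry l.1) (F q - g 0) = l.2 →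
      (g.linearIsometry l.1 = m.1 ∨ g.linearIsometry l.1 = - m.1)) :
    Reg X F q ∨ (∀ᶠ y in 𝓝 q, y ∈ X → m.2 ≤ inner ℝ m.1 (F y)) ∨
      (∀ᶠ y in 𝓝 q, y ∈ X → inner ℝ m.1 (F y) ≤ m.2) := by
  have hg0 : ∀ (g : E2 →ᵃⁱ[ℝ] E2) (l y : E2),
      inner ℝ (g.linearIsometry l) (g y - g 0) = inner ℝ l y := by
    intro g l y
    have h1 := g.map_vsub y 0
    rw [vsub_eq_sub, vsub_eq_sub, sub_zero] at h1
    rw [← h1]
    exact g.linearIsometry.inner_map_map l y
  -- common end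
  have hend : ∀ l ∈ L, ∀ g ∈ Γ, inner ℝ l.1 q = l.2 → F q = g q →
      (∀ᶠ y in 𝓝 q, y ∈ X → ∃ w, l.2 ≤ inner ℝ l.1 w ∧ F y = g w) →
      (∀ᶠ y in 𝓝 q, y ∈ X → m.2 ≤ inner ℝ m.1 (F y)) ∨
      (∀ᶠ y in 𝓝 q, y ∈ X → inner ℝ m.1 (F y) ≤ m.2) := by
    intro l hl g hg hlq hFq hev
    have h1 : inner ℝ (g.linearIsometry l.1) (F q - g 0) = l.2 := by
      rw [hFq, hg0, hlq]
    rcases hK l hl g hg h1 with h2 | h2
    · left
      filter_upwards [hev] with y hy hyX
      obtain ⟨w, hw, hFw⟩ := hy hyX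
      have h3 := hg0 g l.1 w
      rw [← hFw, h2, inner_sub_right] at h3
      rw [h2, inner_sub_right] at h1
      linarith
    · right
      filter_upwards [hev] with y hy hyX
      obtain ⟨w, hw, hFw⟩ := hy hyX
      have h3 := hg0 g l.1 w
      rw [← hFw, h2, inner_neg_left, inner_sub_right] at h3
      rw [h2, inner_neg_left, inner_sub_right] at h1
      linarith
  rcases hloc q hq hqE with ⟨g, hg, hflat⟩ | ⟨l, hl, g₁, hg₁, g₂, hg₂, htwo⟩ | ⟨l, hl, g₁, hg₁, hone⟩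
  · exact Or.inl hflat.reg
  · rcases htwo.reg_or_fold (hL l hl) with hreg | hfold
    · exact Or.inl hreg
    right
    obtain ⟨hlq, hag, h1, h2⟩ := htwo
    refine hend l hl g₁ hg₁ hlq (h1.self_of_nhds hlq.ge).2 ?_
    filter_upwards [h1, h2] with y hy1 hy2 hyX
    rcases le_total l.2 (inner ℝ l.1 y) with h | h
    · exact ⟨y, h, (hy1 h).2⟩
    · refine ⟨refl l y, ?_, ?_⟩
      · rw [inner_refl (hL l hl)]
        linarith
      · rw [(hy2 h).2, hfold]
  · right
    obtain ⟨hlq, h1, h2⟩ := hone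
    refine hend l hl g₁ hg₁ hlq (h1.self_of_nhds hlq.ge).2 ?_
    filter_upwards [h1, h2] with y hy1 hy2 hyX
    rcases le_or_gt l.2 (inner ℝ l.1 y) with h | h
    · exact ⟨y, h, (hy1 h).2⟩
    · exact absurd hyX (hy2 h)

/-- the exceptional points: two different lines meet there -/
def bad (LF : Set (E2 × ℝ)) (ΓF : Set (E2 →ᵃⁱ[ℝ] E2)) (LG : Set (E2 × ℝ)) : Set E2 :=
  ⋃ l ∈ LF, ⋃ g ∈ ΓF, ⋃ m ∈ LG, {w | g.linearIsometry l.1 ≠ m.1 ∧ g.linearIsometry l.1 ≠ -m.1 ∧
    inner ℝ m.1 w = m.2 ∧ inner ℝ (g.linearIsometry l.1) (w - g 0) = l.2}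

theorem bad_finite {LF : Set (E2 × ℝ)} {ΓF : Set (E2 →ᵃⁱ[ℝ] E2)} {LG : Set (E2 × ℝ)}
    (h1 : LF.Finite) (h2 : ΓF.Finite) (h3 : LG.Finite) (hF : ∀ l ∈ LF, ‖l.1‖ = 1)
    (hG : ∀ l ∈ LG, ‖l.1‖ = 1) : (bad LF ΓF LG).Finite := by
  refine h1.biUnion fun l hl => h2.biUnion fun g hg => h3.biUnion fun m hm =>
    Set.Subsingleton.finite ?_
  rintro w ⟨k1, k2, k3, k4⟩ w' ⟨-, -, k3', k4'⟩
  have := meet_unique (hG m hm) (n' := g.linearIsometry l.1)
    (by rw [g.linearIsometry.norm_map]; exact hF l hl) k1 k2 (v := w - w')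
    (by rw [inner_sub_right, k3, k3', sub_self])
    (by
      have e : w - w' = (w - g 0) - (w' - g 0) := by abel
      rw [e, inner_sub_right, k4, k4', sub_self])
  exact sub_eq_zero.1 this

theorem not_bad {LF : Set (E2 × ℝ)} {ΓF : Set (E2 →ᵃⁱ[ℝ] E2)} {LG : Set (E2 × ℝ)} {p : E2}
    (h : p ∉ bad LF ΓF LG) {m : E2 × ℝ} (hm : m ∈ LG) (hp : inner ℝ m.1 p = m.2) :
    ∀ l ∈ LF, ∀ g ∈ ΓF, inner ℝ (g.linearIsometry l.1) (p - g 0) = l.2 →
      (g.linearIsometry l.1 = m.1 ∨ g.linearIsometry l.1 = - m.1) := by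
  intro l hl g hg h1
  by_contra hcon
  push Not at hcon
  exact h (mem_iUnion₂.2 ⟨l, hl, mem_iUnion₂.2 ⟨g, hg, mem_iUnion₂.2
    ⟨m, hm, hcon.1, hcon.2, hp, h1⟩⟩⟩)

theorem cont_ev {X : Set E2} {F : E2 → E2} (hF : Pieced X F) {z : E2} (hz : z ∈ X)
    {P : E2 → Prop} (h : ∀ᶠ w in 𝓝 (F z), P w) : ∀ᶠ y in 𝓝 z, y ∈ X → P (F y) := by
  have h1 := (hF.continuousOn z hz).eventually h
  rwa [eventually_nhdsWithin_iff] at h1

theorem cont_ev2 {X : Set E2} {F : E2 → E2} (hF : Pieced X F) {x z : E2} (hx : x ∈ X)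
    (hz : z ∈ X) {P : E2 × E2 → Prop} (h : ∀ᶠ w in 𝓝 (F x, F z), P w) :
    ∀ᶠ q : E2 × E2 in 𝓝 (x, z), q.1 ∈ X → q.2 ∈ X → P (F q.1, F q.2) := by
  rw [nhds_prod_eq, eventually_prod_iff] at h
  obtain ⟨P1, h1, P2, h2, h3⟩ := h
  have e1 := cont_ev hF hx h1
  have e2 := cont_ev hF hz h2
  have e := e1.prod_inl_nhds z |>.and (e2.prod_inr_nhds x)
  filter_upwards [e] with q hq k1 k2
  exact h3 (hq.1 k1) (hq.2 k2)

/-- the direction of the layer order between two points, one of which is regular -/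
theorem tt {X : Set E2} {F : E2 → E2} {upF : E2 → E2 → Prop} (hF : FoldOn X F upF)
    {z z' : E2} (hz : z ∈ X) (hz' : z' ∈ X) (hne : z ≠ z') (hFz : F z = F z')
    (hr : Reg X F z ∨ Reg X F z') :
    ∃ D : Prop, ∃ V ∈ 𝓝 z, ∃ V' ∈ 𝓝 z', ∀ u ∈ V, ∀ v ∈ V', Reg X F u → Reg X F v →
      F u = F v → (upF u v ↔ D) ∧ (upF v u ↔ ¬ D) := by
  have key : ∀ D : Prop, (∀ᶠ q : E2 × E2 in 𝓝 (z, z'), Reg X F q.1 → Reg X F q.2 →
      F q.1 = F q.2 → ((D → upF q.1 q.2) ∧ (¬ D → upF q.2 q.1))) →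
      ∃ D : Prop, ∃ V ∈ 𝓝 z, ∃ V' ∈ 𝓝 z', ∀ u ∈ V, ∀ v ∈ V', Reg X F u → Reg X F v →
        F u = F v → (upF u v ↔ D) ∧ (upF v u ↔ ¬ D) := by
    intro D h
    rw [nhds_prod_eq, eventually_prod_iff] at h
    obtain ⟨P1, h1, P2, h2, h3⟩ := h
    refine ⟨D, _, h1, _, h2, fun u hu v hv ru rv huv => ?_⟩
    have h4 := h3 hu hv ru rv huv
    have h5 := hF.asymm u v ru rv huv
    have h6 := hF.asymm v u rv ru huv.symm
    tauto
  rcases hr with hr | hr
  · rcases hF.tortilla z z' hr hz' hne.symm hFz.symm with h | h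
    · refine key True ?_
      filter_upwards [h] with q hq r1 r2 r3
      exact ⟨fun _ => hq r1 r2 r3, fun h => (h trivial).elim⟩
    · refine key False ?_
      filter_upwards [h] with q hq r1 r2 r3
      exact ⟨fun h => h.elim, fun _ => hq r1 r2 r3⟩
  · have hsw : Tendsto (fun q : E2 × E2 => (q.2, q.1)) (𝓝 (z, z')) (𝓝 (z', z)) :=
      continuous_swap.tendsto (z, z')
    rcases hF.tortilla z' z hr hz hne hFz with h | h
    · refine key False ?_
      filter_upwards [hsw.eventually h] with q hq r1 r2 r3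
      exact ⟨fun h => h.elim, fun _ => hq r2 r1 r3.symm⟩
    · refine key True ?_
      filter_upwards [hsw.eventually h] with q hq r1 r2 r3
      exact ⟨fun _ => hq r2 r1 r3.symm, fun h => (h trivial).elim⟩

/-- the combinatorial core of the taco condition -/
theorem chain {F : E2 → E2} {G : E2 → Y} {upF upG : E2 → E2 → Prop} {pos : E2 → Prop}
    {R : E2 → Prop} {S₁ S₂ : E2 → Prop} {V V' : Set E2}
    (side : ∀ c, R c → S₁ c ∨ S₂ c)
    (same1 : ∀ c c', R c → R c' → S₁ c → S₁ c' → G c = G c' → c = c')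
    (same2 : ∀ c c', R c → R c' → S₂ c → S₂ c' → G c = G c' → c = c')
    (not21 : ∀ c c', R c → R c' → S₂ c → S₁ c' → G c = G c' → c ≠ c' ∧ ¬ upG c c')
    {σ : Prop} (sgn1 : ∀ c, R c → S₁ c → (pos c ↔ σ)) (sgn2 : ∀ c, R c → S₂ c → (pos c ↔ ¬ σ))
    {Q : E2 → Prop} (hQ : ∀ a, Q a → R (F a))
    (taco : ∀ a ∈ V, ∀ a' ∈ V, ∀ b ∈ V', ∀ b' ∈ V', Q a → Q a' → Q b → Q b' → F a = F b →
      F a' = F b → F b' = F b → ¬ (upF a b ∧ upF b a' ∧ upF a' b'))
    (taco' : ∀ a ∈ V', ∀ a' ∈ V', ∀ b ∈ V, ∀ b' ∈ V, Q a → Q a' → Q b → Q b' → F a = F b →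
      F a' = F b → F b' = F b → ¬ (upF a b ∧ upF b a' ∧ upF a' b'))
    (hTT : (∃ D : Prop, ∀ u ∈ V, ∀ v ∈ V', Q u → Q v → F u = F v →
        (upF u v ↔ D) ∧ (upF v u ↔ ¬ D)) ∨
      ((∀ u ∈ V, ∀ u' ∈ V, Q u → Q u' → S₁ (F u) → S₂ (F u') → False) ∧
        (∀ u ∈ V', ∀ u' ∈ V', Q u → Q u' → S₁ (F u) → S₂ (F u') → False)))
    {a a' b b' : E2} (ha : a ∈ V) (ha' : a' ∈ V) (hb : b ∈ V') (hb' : b' ∈ V') (Qa : Q a)
    (Qa' : Q a') (Qb : Q b) (Qb' : Q b')
    (h1 : G (F a) = G (F b)) (h2 : G (F a') = G (F b)) (h3 : G (F b') = G (F b))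
    (u1 : compUp F upF upG pos a b) (u2 : compUp F upF upG pos b a')
    (u3 : compUp F upF upG pos a' b') : False := by
  have mono : ∀ u v, Q u → Q v → G (F u) = G (F v) → compUp F upF upG pos u v →
      S₂ (F u) → S₁ (F v) → False := by
    intro u v Qu Qv huv hup su sv
    obtain ⟨k1, k2⟩ := not21 _ _ (hQ u Qu) (hQ v Qv) su sv huv
    rcases hup with ⟨-, h⟩ | ⟨h, -⟩
    · exact k2 h
    · exact k1 h
  have same : ∀ u v, F u = F v → compUp F upF upG pos u v →
      (pos (F v) ∧ upF u v) ∨ (¬ pos (F v) ∧ upF v u) := by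
    intro u v huv hup
    rcases hup with ⟨h, -⟩ | ⟨-, h⟩
    · exact absurd huv h
    · rwa [huv] at h
  have all : F a = F b → F a' = F b → F b' = F b → False := by
    intro e1 e2 e3
    have t1 := taco a ha a' ha' b hb b' hb' Qa Qa' Qb Qb' e1 e2 e3
    have t2 := taco' b' hb' b hb a' ha' a ha Qb' Qb Qa' Qa (e3.trans e2.symm) e2.symm
      (e1.trans e2.symm)
    have s1 := same a b e1 u1
    have s2 := same b a' e2.symm u2
    have s3 := same a' b' (e2.trans e3.symm) u3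
    rw [e2] at s2
    rw [e3] at s3
    tauto
  have e1 : ∀ u v, Q u → Q v → G (F u) = G (F v) → S₁ (F u) → S₁ (F v) → F u = F v :=
    fun u v Qu Qv h su sv => same1 _ _ (hQ u Qu) (hQ v Qv) su sv h
  have e2 : ∀ u v, Q u → Q v → G (F u) = G (F v) → S₂ (F u) → S₂ (F v) → F u = F v :=
    fun u v Qu Qv h su sv => same2 _ _ (hQ u Qu) (hQ v Qv) su sv h
  have g1 : G (F b) = G (F a') := h2.symm
  have g2 : G (F a') = G (F b') := h2.trans h3.symm
  rcases side _ (hQ a Qa) with sa | sa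
  · rcases side _ (hQ b Qb) with sb | sb
    · have eab := e1 a b Qa Qb h1 sa sb
      rcases side _ (hQ a' Qa') with sa' | sa'
      · have ea'b := e1 a' b Qa' Qb h2 sa' sb
        rcases side _ (hQ b' Qb') with sb' | sb'
        · exact all eab ea'b (e1 b' b Qb' Qb h3 sb' sb)
        · -- 1112
          rcases hTT with ⟨D, hD⟩ | ⟨-, hM⟩
          · have d1 := hD a ha b hb Qa Qb eab
            have d2 := hD a' ha' b hb Qa' Qb ea'b
            have s1 := same a b eab u1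
            have s2 := same b a' ea'b.symm u2
            rw [ea'b] at s2
            tauto
          · exact hM b hb b' hb' Qb Qb' sb sb'
      · rcases side _ (hQ b' Qb') with sb' | sb'
        · exact mono a' b' Qa' Qb' g2 u3 sa' sb'
        · -- 1122
          have ea'b' := e2 a' b' Qa' Qb' g2 sa' sb'
          rcases hTT with ⟨D, hD⟩ | ⟨-, hM⟩
          · have d1 := hD a ha b hb Qa Qb eab
            have d2 := hD a' ha' b' hb' Qa' Qb' ea'b'
            have s1 := same a b eab u1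
            have s3 := same a' b' ea'b' u3
            have p1 := sgn1 _ (hQ b Qb) sb
            have p2 := sgn2 _ (hQ b' Qb') sb'
            tauto
          · exact hM b hb b' hb' Qb Qb' sb sb'
    · rcases side _ (hQ a' Qa') with sa' | sa'
      · exact mono b a' Qb Qa' g1 u2 sb sa'
      · rcases side _ (hQ b' Qb') with sb' | sb'
        · exact mono a' b' Qa' Qb' g2 u3 sa' sb'
        · -- 1222
          have ea'b := e2 a' b Qa' Qb h2 sa' sb
          have eb'b := e2 b' b Qb' Qb h3 sb' sb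
          rcases hTT with ⟨D, hD⟩ | ⟨hM, -⟩
          · have d1 := hD a' ha' b hb Qa' Qb ea'b
            have d2 := hD a' ha' b' hb' Qa' Qb' (ea'b.trans eb'b.symm)
            have s2 := same b a' ea'b.symm u2
            have s3 := same a' b' (ea'b.trans eb'b.symm) u3
            rw [ea'b] at s2
            rw [eb'b] at s3
            tauto
          · exact hM a ha a' ha' Qa Qa' sa sa'
  · rcases side _ (hQ b Qb) with sb | sb
    · exact mono a b Qa Qb h1 u1 sa sb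
    · rcases side _ (hQ a' Qa') with sa' | sa'
      · exact mono b a' Qb Qa' g1 u2 sb sa'
      · rcases side _ (hQ b' Qb') with sb' | sb'
        · exact mono a' b' Qa' Qb' g2 u3 sa' sb'
        · exact all (e2 a b Qa Qb h1 sa sb) (e2 a' b Qa' Qb h2 sa' sb) (e2 b' b Qb' Qb h3 sb' sb)

end CompAux

open CompAux

theorem FoldOn.comp {X : Set E2} {F : E2 → E2} {G : E2 → Y} {upF upG : E2 → E2 → Prop}
    {pos : E2 → Prop} (hF : FoldOn X F upF) (hG : FoldOn (F '' X) G upG)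
    (hs : SignOn (F '' X) G pos) :
    FoldOn X (fun x => G (F x)) (compUp F upF upG pos) := by
  have hreg : ∀ q, Reg X (fun x => G (F x)) q ↔ (Reg X F q ∧ Reg (F '' X) G (F q)) :=
    fun q => reg_comp hF.pieces hG.pieces
  refine ⟨hF.pieces.comp hG.pieces, ?_, ?_, ?_, ?_, ?_⟩
  · -- asymm
    intro x y rx ry hxy h1 h2
    obtain ⟨fx, gx⟩ := (hreg x).1 rx
    obtain ⟨fy, gy⟩ := (hreg y).1 ry
    by_cases h : F x = F y
    · have k1 := hF.asymm x y fx fy h
      rcases h1 with ⟨h3, -⟩ | ⟨-, h1⟩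
      · exact h3 h
      rcases h2 with ⟨h3, -⟩ | ⟨-, h2⟩
      · exact h3 h.symm
      rw [h] at h1
      tauto
    · have k1 := hG.asymm _ _ gx gy hxy
      rcases h1 with ⟨-, h1⟩ | ⟨h3, -⟩
      · rcases h2 with ⟨-, h2⟩ | ⟨h3, -⟩
        · exact k1 h1 h2
        · exact h h3.symm
      · exact h h3
  · -- total
    intro x y rx ry hxy hne
    obtain ⟨fx, gx⟩ := (hreg x).1 rx
    obtain ⟨fy, gy⟩ := (hreg y).1 ry
    by_cases h : F x = F y
    · have k1 := hF.total x y fx fy h hne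
      by_cases hp : pos (F y)
      · rcases k1 with k1 | k1
        · exact Or.inl (Or.inr ⟨h, Or.inl ⟨by rwa [h], k1⟩⟩)
        · exact Or.inr (Or.inr ⟨h.symm, Or.inl ⟨hp, k1⟩⟩)
      · rcases k1 with k1 | k1
        · exact Or.inr (Or.inr ⟨h.symm, Or.inr ⟨hp, k1⟩⟩)
        · exact Or.inl (Or.inr ⟨h, Or.inr ⟨by rwa [h], k1⟩⟩)
    · rcases hG.total _ _ gx gy hxy h with k | k
      · exact Or.inl (Or.inl ⟨h, k⟩)
      · exact Or.inr (Or.inl ⟨fun h' => h h'.symm, k⟩)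
  · -- trans
    intro x y z rx ry rz hxy hyz h1 h2
    obtain ⟨fx, gx⟩ := (hreg x).1 rx
    obtain ⟨fy, gy⟩ := (hreg y).1 ry
    obtain ⟨fz, gz⟩ := (hreg z).1 rz
    rcases h1 with ⟨n1, h1⟩ | ⟨n1, h1⟩
    · rcases h2 with ⟨n2, h2⟩ | ⟨n2, h2⟩
      · refine Or.inl ⟨?_, hG.trans _ _ _ gx gy gz hxy hyz h1 h2⟩
        intro h
        rw [← h] at h2
        exact hG.asymm _ _ gx gy hxy h1 h2
      · refine Or.inl ⟨fun h => n1 (h.trans n2.symm), ?_⟩
        rw [← n2]
        exact h1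
    · rcases h2 with ⟨n2, h2⟩ | ⟨n2, h2⟩
      · refine Or.inl ⟨fun h => n2 (n1.symm.trans h), ?_⟩
        rw [n1]
        exact h2
      · refine Or.inr ⟨n1.trans n2, ?_⟩
        rw [← n1] at h2
        have k1 := hF.trans x y z fx fy fz n1 n2
        have k2 := hF.trans z y x fz fy fx n2.symm n1.symm
        tauto
  · -- tortilla
    intro x z rx hz hzx hhz
    obtain ⟨fx, gx⟩ := (hreg x).1 rx
    have hx : x ∈ X := fx.mem
    by_cases h : F z = F x
    · obtain ⟨U, hU, hUX, hinj⟩ := gx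
      have hev : ∀ᶠ w : E2 × E2 in 𝓝 (F x, F z), (w.1 ∈ U ∧ w.2 ∈ U) ∧ (pos w.1 ↔ pos (F x)) := by
        have hc := hs.const (F x) ⟨U, hU, hUX, hinj⟩
        have e1 : ∀ᶠ w in 𝓝 (F x), w ∈ U ∧ (pos w ↔ pos (F x)) := hc.and hU |>.mono
          fun w hw => ⟨hw.2, hw.1⟩
        have e2 : ∀ᶠ w in 𝓝 (F z), w ∈ U := by
          rw [h]
          exact hU
        filter_upwards [(e1.prod_inl_nhds (F z)).and (e2.prod_inr_nhds (F x))] with w hw
        exact ⟨⟨hw.1.1, hw.2⟩, hw.1.2⟩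
      have hev2 := cont_ev2 hF.pieces hx hz hev
      have key : ∀ q : E2 × E2, (q.1 ∈ X → q.2 ∈ X →
          ((F q.1 ∈ U ∧ F q.2 ∈ U) ∧ (pos (F q.1) ↔ pos (F x)))) →
          Reg X (fun x => G (F x)) q.1 → Reg X (fun x => G (F x)) q.2 →
          G (F q.1) = G (F q.2) → F q.1 = F q.2 ∧ Reg X F q.1 ∧ Reg X F q.2 ∧
            (pos (F q.1) ↔ pos (F x)) := by
        intro q hq r1 r2 hqq
        obtain ⟨f1, g1⟩ := (hreg _).1 r1
        obtain ⟨f2, g2⟩ := (hreg _).1 r2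
        obtain ⟨⟨k1, k2⟩, k3⟩ := hq f1.mem f2.mem
        exact ⟨hinj k1 k2 hqq, f1, f2, k3⟩
      rcases hF.tortilla x z fx hz hzx h with ht | ht
      · by_cases hp : pos (F x)
        · left
          filter_upwards [ht, hev2] with q hq hq2 r1 r2 hqq
          obtain ⟨k1, k2, k3, k4⟩ := key q hq2 r1 r2 hqq
          exact Or.inr ⟨k1, Or.inl ⟨k4.2 hp, hq k2 k3 k1⟩⟩
        · right
          filter_upwards [ht, hev2] with q hq hq2 r1 r2 hqq
          obtain ⟨k1, k2, k3, k4⟩ := key q hq2 r1 r2 hqq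
          refine Or.inr ⟨k1.symm, Or.inr ⟨fun h' => hp (k4.1 ?_), hq k2 k3 k1⟩⟩
          rwa [k1]
      · by_cases hp : pos (F x)
        · right
          filter_upwards [ht, hev2] with q hq hq2 r1 r2 hqq
          obtain ⟨k1, k2, k3, k4⟩ := key q hq2 r1 r2 hqq
          refine Or.inr ⟨k1.symm, Or.inl ⟨?_, hq k2 k3 k1⟩⟩
          rw [← k1]
          exact k4.2 hp
        · left
          filter_upwards [ht, hev2] with q hq hq2 r1 r2 hqq
          obtain ⟨k1, k2, k3, k4⟩ := key q hq2 r1 r2 hqq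
          exact Or.inr ⟨k1, Or.inr ⟨fun h' => hp (k4.1 h'), hq k2 k3 k1⟩⟩
    · have hne : ∀ᶠ w : E2 × E2 in 𝓝 (F x, F z), w.1 ≠ w.2 := by
        have hop : IsOpen {w : E2 × E2 | w.1 ≠ w.2} :=
          isOpen_ne_fun continuous_fst continuous_snd
        exact hop.mem_nhds fun h' => h h'.symm
      rcases hG.tortilla (F x) (F z) gx ⟨z, hz, rfl⟩ h hhz with ht | ht
      · left
        filter_upwards [cont_ev2 hF.pieces hx hz (ht.and hne)] with q hq r1 r2 hqq
        obtain ⟨f1, g1⟩ := (hreg _).1 r1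
        obtain ⟨f2, g2⟩ := (hreg _).1 r2
        obtain ⟨k1, k2⟩ := hq f1.mem f2.mem
        exact Or.inl ⟨k2, k1 g1 g2 hqq⟩
      · right
        filter_upwards [cont_ev2 hF.pieces hx hz (ht.and hne)] with q hq r1 r2 hqq
        obtain ⟨f1, g1⟩ := (hreg _).1 r1
        obtain ⟨f2, g2⟩ := (hreg _).1 r2
        obtain ⟨k1, k2⟩ := hq f1.mem f2.mem
        exact Or.inl ⟨fun h' => k2 h'.symm, k1 g1 g2 hqq⟩
  · -- taco
    obtain ⟨EF, hEF, LF, hLF, hLF1, ΓF, hΓF, hlocF⟩ := hF.pieces.local_structure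
    obtain ⟨EG, hEG, LG, hLG, hLG1, ΓG, hΓG, hlocG⟩ := hG.pieces.local_structure
    obtain ⟨TF, hTF, htF⟩ := hF.taco
    obtain ⟨TG, hTG, htG⟩ := hG.taco
    obtain ⟨SG, hSG, hflip⟩ := hs.flip
    have hbad := bad_finite hLF hΓF hLG hLF1 hLG1
    refine ⟨TG ∪ G '' (TF ∪ EG ∪ SG ∪ bad LF ΓF LG) ∪ (fun x => G (F x)) '' EF,
      (hTG.union ((((hTF.union hEG).union hSG).union hbad).image _)).union (hEF.image _), ?_⟩
    intro z z' hz hz' hne hzz hE
    have hzz' : G (F z) = G (F z') := hzz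
    have n1 : G (F z) ∉ TG := fun h => hE (Or.inl (Or.inl h))
    have n2 : F z ∉ TF ∪ EG ∪ SG ∪ bad LF ΓF LG := fun h =>
      hE (Or.inl (Or.inr ⟨F z, h, rfl⟩))
    have n3 : ∀ y ∈ EF, G (F y) ≠ G (F z) := fun y hy h => hE (Or.inr ⟨y, hy, h⟩)
    have nTF : F z ∉ TF := fun h => n2 (Or.inl (Or.inl (Or.inl h)))
    have nEG : F z ∉ EG := fun h => n2 (Or.inl (Or.inl (Or.inr h)))
    have nSG : F z ∉ SG := fun h => n2 (Or.inl (Or.inr h))
    have nbad : F z ∉ bad LF ΓF LG := fun h => n2 (Or.inr h)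
    by_cases hFz : F z = F z'
    · obtain ⟨W, hW, S₁, S₂, σ, side, same1, same2, not21, sgn1, sgn2, hor⟩ :=
        loc2 hG hs hLG1 hlocG hflip (mem_image_of_mem F hz) nEG nSG
      obtain ⟨V1, hV1, V1', hV1', t1⟩ := htF z z' hz hz' hne hFz nTF
      obtain ⟨V2', hV2', V2, hV2, t2⟩ := htF z' z hz' hz hne.symm hFz.symm (by rwa [← hFz])
      have hWz := cont_ev hF.pieces hz hW
      have hWz' : ∀ᶠ y in 𝓝 z', y ∈ X → F y ∈ W := by
        refine cont_ev hF.pieces hz' (P := fun w => w ∈ W) ?_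
        rw [← hFz]
        exact hW
      have hM : ∀ w ∈ X, ¬ Reg X F w → F w = F z → ∃ V ∈ 𝓝 w, ∀ u ∈ V, ∀ u' ∈ V, u ∈ X →
          u' ∈ X → S₁ (F u) → S₂ (F u') → False := by
        intro w hw hwr hFw
        rcases hor with hor | ⟨m, hm, hpm, hside⟩
        · exact ⟨univ, univ_mem, fun u _ u' _ _ _ _ h => hor _ h⟩
        · have hwE : w ∉ EF := fun h => n3 w h (by rw [hFw])
          have hcl := claim hLF1 hlocF (m := m) hw hwE (by rw [hFw]; exact hpm)
            (by rw [hFw]; exact not_bad nbad hm hpm)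
          rcases hcl with hcl | hcl | hcl
          · exact absurd hcl hwr
          · refine ⟨_, hcl, fun u hu u' hu' huX hu'X s1 s2 => ?_⟩
            have k1 := hu huX
            have k2 := hu' hu'X
            rcases hside with hside | hside
            · exact absurd ((hside _).2 s2) (not_lt.2 k2)
            · exact absurd ((hside _).2 s1) (not_lt.2 k1)
          · refine ⟨_, hcl, fun u hu u' hu' huX hu'X s1 s2 => ?_⟩
            have k1 := hu huX
            have k2 := hu' hu'X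
            rcases hside with hside | hside
            · exact absurd ((hside _).1 s1) (not_lt.2 k1)
            · exact absurd ((hside _).1 s2) (not_lt.2 k2)
      have hTT : ∃ V3 ∈ 𝓝 z, ∃ V3' ∈ 𝓝 z',
          (∃ D : Prop, ∀ u ∈ V3, ∀ v ∈ V3', Reg X F u → Reg X F v → F u = F v →
            (upF u v ↔ D) ∧ (upF v u ↔ ¬ D)) ∨
          ((∀ u ∈ V3, ∀ u' ∈ V3, u ∈ X → u' ∈ X → S₁ (F u) → S₂ (F u') → False) ∧
            (∀ u ∈ V3', ∀ u' ∈ V3', u ∈ X → u' ∈ X → S₁ (F u) → S₂ (F u') → False)) := by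
        by_cases hr : Reg X F z ∨ Reg X F z'
        · obtain ⟨D, V, hV, V', hV', h⟩ := tt hF hz hz' hne hFz hr
          exact ⟨V, hV, V', hV', Or.inl ⟨D, h⟩⟩
        · push Not at hr
          obtain ⟨V, hV, h⟩ := hM z hz hr.1 rfl
          obtain ⟨V', hV', h'⟩ := hM z' hz' hr.2 hFz.symm
          exact ⟨V, hV, V', hV', Or.inr ⟨h, h'⟩⟩
      obtain ⟨V3, hV3, V3', hV3', hTT⟩ := hTT
      refine ⟨(V1 ∩ V2) ∩ (V3 ∩ {y | y ∈ X → F y ∈ W}),
        inter_mem (inter_mem hV1 hV2) (inter_mem hV3 hWz),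
        (V1' ∩ V2') ∩ (V3' ∩ {y | y ∈ X → F y ∈ W}),
        inter_mem (inter_mem hV1' hV2') (inter_mem hV3' hWz'), ?_⟩
      intro a ha a' ha' b hb b' hb' ra ra' rb rb' h1 h2 h3
      rintro ⟨u1, u2, u3⟩
      obtain ⟨fa, ga⟩ := (hreg a).1 ra
      obtain ⟨fa', ga'⟩ := (hreg a').1 ra'
      obtain ⟨fb, gb⟩ := (hreg b).1 rb
      obtain ⟨fb', gb'⟩ := (hreg b').1 rb'
      refine chain (R := fun c => c ∈ W ∧ Reg (F '' X) G c)
        (Q := fun u => Reg X F u ∧ F u ∈ W ∧ Reg (F '' X) G (F u))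
        (V := (V1 ∩ V2) ∩ (V3 ∩ {y | y ∈ X → F y ∈ W}))
        (V' := (V1' ∩ V2') ∩ (V3' ∩ {y | y ∈ X → F y ∈ W}))
        (fun c hc => side c hc.1 hc.2)
        (fun c c' hc hc' => same1 c hc.1 c' hc'.1 hc.2 hc'.2)
        (fun c c' hc hc' => same2 c hc.1 c' hc'.1 hc.2 hc'.2)
        (fun c c' hc hc' => not21 c hc.1 c' hc'.1 hc.2 hc'.2)
        (fun c hc => sgn1 c hc.1 hc.2) (fun c hc => sgn2 c hc.1 hc.2) (fun u hu => hu.2)
        ?_ ?_ ?_ ha ha' hb hb' ⟨fa, ha.2.2 fa.mem, ga⟩ ⟨fa', ha'.2.2 fa'.mem, ga'⟩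
        ⟨fb, hb.2.2 fb.mem, gb⟩ ⟨fb', hb'.2.2 fb'.mem, gb'⟩ h1 h2 h3 u1 u2 u3
      · intro a ha a' ha' b hb b' hb' qa qa' qb qb'
        exact t1 a ha.1.1 a' ha'.1.1 b hb.1.1 b' hb'.1.1 qa.1 qa'.1 qb.1 qb'.1
      · intro a ha a' ha' b hb b' hb' qa qa' qb qb'
        exact t2 a ha.1.2 a' ha'.1.2 b hb.1.2 b' hb'.1.2 qa.1 qa'.1 qb.1 qb'.1
      · rcases hTT with ⟨D, hD⟩ | ⟨hM1, hM2⟩
        · exact Or.inl ⟨D, fun u hu v hv qu qv => hD u hu.2.1 v hv.2.1 qu.1 qv.1⟩
        · exact Or.inr ⟨fun u hu u' hu' qu qu' => hM1 u hu.2.1 u' hu'.2.1 qu.1.mem qu'.1.mem,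
            fun u hu u' hu' qu qu' => hM2 u hu.2.1 u' hu'.2.1 qu.1.mem qu'.1.mem⟩
    · obtain ⟨U, hU, U', hU', htac⟩ := htG (F z) (F z') (mem_image_of_mem F hz)
        (mem_image_of_mem F hz') hFz hzz n1
      obtain ⟨D, D', hD, hD', hDD⟩ := t2_separation_nhds hFz
      have e1 := cont_ev hF.pieces hz (P := fun w => w ∈ U ∩ D) (inter_mem hU hD)
      have e2 := cont_ev hF.pieces hz' (P := fun w => w ∈ U' ∩ D') (inter_mem hU' hD')
      refine ⟨_, e1, _, e2, ?_⟩
      intro a ha a' ha' b hb b' hb' ra ra' rb rb' h1 h2 h3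
      rintro ⟨u1, u2, u3⟩
      obtain ⟨fa, ga⟩ := (hreg a).1 ra
      obtain ⟨fa', ga'⟩ := (hreg a').1 ra'
      obtain ⟨fb, gb⟩ := (hreg b).1 rb
      obtain ⟨fb', gb'⟩ := (hreg b').1 rb'
      have ka := ha fa.mem
      have ka' := ha' fa'.mem
      have kb := hb fb.mem
      have kb' := hb' fb'.mem
      have hnq : ∀ {w w' : E2}, w ∈ D → w' ∈ D' → w ≠ w' := by
        rintro w w' hw hw' rfl
        exact Set.disjoint_left.1 hDD hw hw'
      have up : ∀ u v, F u ≠ F v → compUp F upF upG pos u v → upG (F u) (F v) := by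
        intro u v huv hup
        rcases hup with ⟨-, h⟩ | ⟨h, -⟩
        · exact h
        · exact absurd h huv
      exact htac (F a) ka.1 (F a') ka'.1 (F b) kb.1 (F b') kb'.1 ga ga' gb gb' h1 h2 h3
        ⟨up _ _ (hnq ka.2 kb.2) u1, up _ _ (hnq ka'.2 kb.2).symm u2, up _ _ (hnq ka'.2 kb'.2) u3⟩

theorem SignOn.comp {X : Set E2} {F : E2 → E2} {G : E2 → Y} {posF posG : E2 → Prop}
    (hF : Pieced X F) (hG : Pieced (F '' X) G) (hsF : SignOn X F posF)
    (hsG : SignOn (F '' X) G posG) :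
    SignOn X (fun x => G (F x)) (fun x => (posF x ↔ posG (F x))) := by
  have hreg : ∀ q, Reg X (fun x => G (F x)) q ↔ (Reg X F q ∧ Reg (F '' X) G (F q)) :=
    fun q => reg_comp hF hG
  refine ⟨?_, ?_⟩
  · intro q hq
    obtain ⟨fq, gq⟩ := (hreg q).1 hq
    have e1 := hsF.const q fq
    have e2 := cont_ev hF fq.mem (hsG.const (F q) gq)
    obtain ⟨U, hU, hUX, -⟩ := fq
    filter_upwards [e1, e2, hU] with y h1 h2 h3
    have h4 := h2 (hUX h3)
    tauto
  · obtain ⟨EF, hEF, LF, hLF, hLF1, ΓF, hΓF, hlocF⟩ := hF.local_structure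
    obtain ⟨EG, hEG, LG, hLG, hLG1, ΓG, hΓG, hlocG⟩ := hG.local_structure
    obtain ⟨SF, hSF, hflipF⟩ := hsF.flip
    obtain ⟨SG, hSG, hflip⟩ := hsG.flip
    have hbad := bad_finite hLF hΓF hLG hLF1 hLG1
    obtain ⟨Z, hZ⟩ : ∃ Z, Z = SG ∪ EG ∪ bad LF ΓF LG := ⟨_, rfl⟩
    have hZf : Z.Finite := by
      rw [hZ]
      exact (hSG.union hEG).union hbad
    refine ⟨EF ∪ SF ∪ ⋃ w ∈ Z, {x | x ∈ X ∧ F x = w},
      (hEF.union hSF).union (hZf.biUnion fun w _ => hF.finite_fibre w), ?_⟩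
    intro q hq hqE
    have nEF : q ∉ EF := fun h => hqE (Or.inl (Or.inl h))
    have nSF : q ∉ SF := fun h => hqE (Or.inl (Or.inr h))
    have nZ : F q ∉ Z := fun h => hqE (Or.inr (mem_iUnion₂.2 ⟨F q, h, hq, rfl⟩))
    rw [hZ] at nZ
    have nSG : F q ∉ SG := fun h => nZ (Or.inl (Or.inl h))
    have nEG : F q ∉ EG := fun h => nZ (Or.inl (Or.inr h))
    have nbad : F q ∉ bad LF ΓF LG := fun h => nZ (Or.inr h)
    obtain ⟨V, hV, hVf⟩ := hflipF q hq nSF
    rcases loc hsG hLG1 hlocG hflip (mem_image_of_mem F hq) nEG nSG with ⟨W, hW, hinj, -⟩ |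
      ⟨m, hm, hpm, r, hr, h1, h2, hs1, hs2, hs12, σ, hσ⟩
    · refine ⟨V ∩ {y | y ∈ X → F y ∈ W}, inter_mem hV (cont_ev hF hq hW), ?_⟩
      intro a ha a' ha' ra ra' hne haa
      obtain ⟨fa, ga⟩ := (hreg a).1 ra
      obtain ⟨fa', ga'⟩ := (hreg a').1 ra'
      have e : F a = F a' := hinj ⟨ha.2 fa.mem, ga.mem⟩ ⟨ha'.2 fa'.mem, ga'.mem⟩ haa
      have k := hVf a ha.1 a' ha'.1 fa fa' hne e
      rw [e]
      tauto
    · have hB := cont_ev hF hq (P := fun w => w ∈ ball (F q) r) (ball_mem_nhds _ hr)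
      have hcl := claim hLF1 hlocF (m := m) hq nEF hpm (not_bad nbad hm hpm)
      have hcl' : ∃ V' ∈ 𝓝 q, ∀ a ∈ V', ∀ a' ∈ V', a ∈ X → a' ∈ X →
          m.2 < inner ℝ m.1 (F a) → inner ℝ m.1 (F a') < m.2 → (posF a ↔ posF a') := by
        rcases hcl with hcl | hcl | hcl
        · refine ⟨_, hsF.const q hcl, fun a ha a' ha' _ _ _ _ => ?_⟩
          exact Iff.trans ha (Iff.symm ha')
        · refine ⟨_, hcl, fun a ha a' ha' _ haX' _ hlt => ?_⟩
          exact absurd (ha' haX') (not_le.2 hlt)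
        · refine ⟨_, hcl, fun a ha a' ha' haX _ hlt _ => ?_⟩
          exact absurd (ha haX) (not_le.2 hlt)
      obtain ⟨V', hV', hVc⟩ := hcl'
      refine ⟨(V ∩ V') ∩ {y | y ∈ X → F y ∈ ball (F q) r},
        inter_mem (inter_mem hV hV') hB, ?_⟩
      intro a ha a' ha' ra ra' hne haa
      obtain ⟨fa, ga⟩ := (hreg a).1 ra
      obtain ⟨fa', ga'⟩ := (hreg a').1 ra'
      have haa' : G (F a) = G (F a') := haa
      by_cases e : F a = F a'
      · have k := hVf a ha.1.1 a' ha'.1.1 fa fa' hne e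
        rw [e]
        tauto
      · have ba := ha.2 fa.mem
        have ba' := ha'.2 fa'.mem
        rcases lt_or_gt_of_ne (h2 _ ba ga) with k | k <;>
          rcases lt_or_gt_of_ne (h2 _ ba' ga') with k' | k'
        · exact absurd (hs2 _ ba _ ba' k k' haa') e
        · have c1 := hVc a' ha'.1.2 a ha.1.2 fa'.mem fa.mem k' k
          have c2 := (hσ _ ba).2 k
          have c3 := (hσ _ ba').1 k'
          tauto
        · have c1 := hVc a ha.1.2 a' ha'.1.2 fa.mem fa'.mem k k'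
          have c2 := (hσ _ ba).1 k
          have c3 := (hσ _ ba').2 k'
          tauto
        · exact absurd (hs1 _ ba _ ba' k k' haa') e

/-! Trivial operations. -/

theorem CompAux.reg_congr {X : Set E2} {f f' : E2 → Y} (hf : ∀ x ∈ X, f' x = f x) (x : E2) :
    Reg X f' x ↔ Reg X f x := by
  constructor
  · rintro ⟨U, hU, hUX, hinj⟩
    refine ⟨U, hU, hUX, fun a ha b hb hab => hinj ha hb ?_⟩
    rw [hf a (hUX ha), hf b (hUX hb), hab]
  · rintro ⟨U, hU, hUX, hinj⟩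
    refine ⟨U, hU, hUX, fun a ha b hb hab => hinj ha hb ?_⟩
    rw [← hf a (hUX ha), ← hf b (hUX hb), hab]

theorem FoldOn.congr {X : Set E2} {f f' : E2 → Y} {up up' : E2 → E2 → Prop}
    (h : FoldOn X f up) (hf : ∀ x ∈ X, f' x = f x)
    (hup : ∀ x ∈ X, ∀ y ∈ X, (up' x y ↔ up x y)) : FoldOn X f' up' := by
  have hr := CompAux.reg_congr hf
  refine ⟨h.pieces.congr hf, ?_, ?_, ?_, ?_, ?_⟩
  · intro x y rx ry hxy h1
    have rx' := (hr x).1 rx
    have ry' := (hr y).1 ry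
    rw [hf x rx.mem, hf y ry.mem] at hxy
    rw [hup x rx.mem y ry.mem] at h1
    rw [hup y ry.mem x rx.mem]
    exact h.asymm x y rx' ry' hxy h1
  · intro x y rx ry hxy hne
    have rx' := (hr x).1 rx
    have ry' := (hr y).1 ry
    rw [hf x rx.mem, hf y ry.mem] at hxy
    rw [hup x rx.mem y ry.mem, hup y ry.mem x rx.mem]
    exact h.total x y rx' ry' hxy hne
  · intro x y z rx ry rz hxy hyz h1 h2
    have rx' := (hr x).1 rx
    have ry' := (hr y).1 ry
    have rz' := (hr z).1 rz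
    rw [hf x rx.mem, hf y ry.mem] at hxy
    rw [hf y ry.mem, hf z rz.mem] at hyz
    rw [hup x rx.mem y ry.mem] at h1
    rw [hup y ry.mem z rz.mem] at h2
    rw [hup x rx.mem z rz.mem]
    exact h.trans x y z rx' ry' rz' hxy hyz h1 h2
  · intro x z rx hz hne hzx
    have rx' := (hr x).1 rx
    rw [hf x rx.mem, hf z hz] at hzx
    rcases h.tortilla x z rx' hz hne hzx with ht | ht
    · left
      filter_upwards [ht] with q hq r1 r2 hqq
      rw [hf _ r1.mem, hf _ r2.mem] at hqq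
      rw [hup _ r1.mem _ r2.mem]
      exact hq ((hr _).1 r1) ((hr _).1 r2) hqq
    · right
      filter_upwards [ht] with q hq r1 r2 hqq
      rw [hf _ r1.mem, hf _ r2.mem] at hqq
      rw [hup _ r2.mem _ r1.mem]
      exact hq ((hr _).1 r1) ((hr _).1 r2) hqq
  · obtain ⟨E, hE, ht⟩ := h.taco
    refine ⟨E, hE, fun z z' hz hz' hne hzz hzE => ?_⟩
    rw [hf z hz, hf z' hz'] at hzz
    rw [hf z hz] at hzE
    obtain ⟨V, hV, V', hV', hVV⟩ := ht z z' hz hz' hne hzz hzE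
    refine ⟨V, hV, V', hV', fun a ha a' ha' b hb b' hb' ra ra' rb rb' h1 h2 h3 => ?_⟩
    rw [hf a ra.mem, hf b rb.mem] at h1
    rw [hf a' ra'.mem, hf b rb.mem] at h2
    rw [hf b' rb'.mem, hf b rb.mem] at h3
    rw [hup a ra.mem b rb.mem, hup b rb.mem a' ra'.mem, hup a' ra'.mem b' rb'.mem]
    exact hVV a ha a' ha' b hb b' hb' ((hr _).1 ra) ((hr _).1 ra') ((hr _).1 rb) ((hr _).1 rb')
      h1 h2 h3

/-- an injective piecewise isometric map is a folding (no layers to compare) -/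
theorem FoldOn.of_injOn {X : Set E2} {f : E2 → Y} (h : Pieced X f) (hi : InjOn f X) :
    FoldOn X f (fun _ _ => False) := by
  refine ⟨h, fun _ _ _ _ _ h => h.elim, fun x y rx ry hxy hne => ?_,
    fun _ _ _ _ _ _ _ _ h => h.elim, fun x z rx hz hne hzx => ?_, ∅, finite_empty,
    fun z z' hz hz' hne hzz _ => ?_⟩
  · exact absurd (hi rx.mem ry.mem hxy) hne
  · exact absurd (hi hz rx.mem hzx) hne
  · exact absurd (hi hz hz' hzz) hne

theorem CompAux.reg_postcomp {Z : Type*} [NormedAddCommGroup Z] [InnerProductSpace ℝ Z]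
    {X : Set E2} {f : E2 → Y} (T : Y →ᵃⁱ[ℝ] Z) (x : E2) :
    Reg X (fun x => T (f x)) x ↔ Reg X f x := by
  constructor
  · rintro ⟨U, hU, hUX, hinj⟩
    exact ⟨U, hU, hUX, fun a ha b hb hab => hinj ha hb (congrArg T hab)⟩
  · rintro ⟨U, hU, hUX, hinj⟩
    exact ⟨U, hU, hUX, fun a ha b hb hab => hinj ha hb (T.injective hab)⟩

/-- postcomposition with an isometric embedding -/
theorem FoldOn.postcomp {Z : Type*} [NormedAddCommGroup Z] [InnerProductSpace ℝ Z]
    {X : Set E2} {f : E2 → Y} {up : E2 → E2 → Prop} (h : FoldOn X f up) (T : Y →ᵃⁱ[ℝ] Z) :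
    FoldOn X (fun x => T (f x)) up := by
  have hr : ∀ x, Reg X (fun x => T (f x)) x ↔ Reg X f x := CompAux.reg_postcomp T
  refine ⟨?_, ?_, ?_, ?_, ?_, ?_⟩
  · obtain ⟨P, hP, hp, hX, hg⟩ := h.pieces
    refine ⟨P, hP, hp, hX, fun t ht => ?_⟩
    obtain ⟨g, hg⟩ := hg t ht
    refine ⟨T.comp g, fun x hx => ?_⟩
    simp only
    rw [hg x hx]
    rfl
  · intro x y rx ry hxy h1
    exact h.asymm x y ((hr x).1 rx) ((hr y).1 ry) (T.injective hxy) h1
  · intro x y rx ry hxy hne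
    exact h.total x y ((hr x).1 rx) ((hr y).1 ry) (T.injective hxy) hne
  · intro x y z rx ry rz hxy hyz h1 h2
    exact h.trans x y z ((hr x).1 rx) ((hr y).1 ry) ((hr z).1 rz) (T.injective hxy)
      (T.injective hyz) h1 h2
  · intro x z rx hz hne hzx
    rcases h.tortilla x z ((hr x).1 rx) hz hne (T.injective hzx) with ht | ht
    · left
      filter_upwards [ht] with q hq r1 r2 hqq
      exact hq ((hr _).1 r1) ((hr _).1 r2) (T.injective hqq)
    · right
      filter_upwards [ht] with q hq r1 r2 hqq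
      exact hq ((hr _).1 r1) ((hr _).1 r2) (T.injective hqq)
  · obtain ⟨E, hE, ht⟩ := h.taco
    refine ⟨T '' E, hE.image _, fun z z' hz hz' hne hzz hzE => ?_⟩
    obtain ⟨V, hV, V', hV', hVV⟩ := ht z z' hz hz' hne (T.injective hzz)
      (fun h' => hzE (mem_image_of_mem T h'))
    refine ⟨V, hV, V', hV', fun a ha a' ha' b hb b' hb' ra ra' rb rb' h1 h2 h3 => ?_⟩
    exact hVV a ha a' ha' b hb b' hb' ((hr _).1 ra) ((hr _).1 ra') ((hr _).1 rb) ((hr _).1 rb')
      (T.injective h1) (T.injective h2) (T.injective h3)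

theorem CompAux.reg_precomp {X : Set E2} {f : E2 → Y} (g : E2 →ᵃⁱ[ℝ] E2) (x : E2) :
    Reg (g ⁻¹' X) (fun x => f (g x)) x ↔ Reg X f (g x) := by
  have he : ∀ y, (g.toAffineIsometryEquiv rfl).toHomeomorph y = g y := fun y => rfl
  have hs : Function.Surjective g := fun y =>
    ⟨(g.toAffineIsometryEquiv rfl).symm y, (g.toAffineIsometryEquiv rfl).apply_symm_apply y⟩
  constructor
  · rintro ⟨U, hU, hUX, hinj⟩
    refine ⟨g '' U, ?_, ?_, ?_⟩
    · have h1 := (g.toAffineIsometryEquiv rfl).toHomeomorph.isOpenMap.image_mem_nhds hU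
      exact h1
    · rintro _ ⟨a, ha, rfl⟩
      exact hUX ha
    · rintro _ ⟨a, ha, rfl⟩ _ ⟨b, hb, rfl⟩ hab
      rw [hinj ha hb hab]
  · rintro ⟨U, hU, hUX, hinj⟩
    refine ⟨g ⁻¹' U, g.continuous.continuousAt hU, fun y hy => hUX hy, ?_⟩
    intro a ha b hb hab
    exact g.injective (hinj ha hb hab)

/-- precomposition with an isometry of the plane -/
theorem FoldOn.precomp {X : Set E2} {f : E2 → Y} {up : E2 → E2 → Prop} (h : FoldOn X f up)
    (g : E2 →ᵃⁱ[ℝ] E2) :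
    FoldOn (g ⁻¹' X) (fun x => f (g x)) (fun x y => up (g x) (g y)) := by
  have hr : ∀ x, Reg (g ⁻¹' X) (fun x => f (g x)) x ↔ Reg X f (g x) := CompAux.reg_precomp g
  refine ⟨?_, ?_, ?_, ?_, ?_, ?_⟩
  · obtain ⟨P, hP, hp, hX, hg⟩ := h.pieces
    refine ⟨(fun t => g ⁻¹' t) '' P, hP.image _, ?_, ?_, ?_⟩
    · rintro _ ⟨t, ht, rfl⟩
      refine ⟨IsPoly.preimage (hp t ht).1 g, ?_⟩
      obtain ⟨y, hy⟩ := (hp t ht).2
      refine ⟨(g.toAffineIsometryEquiv rfl).symm y, ?_⟩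
      rw [mem_interior_iff_mem_nhds] at hy ⊢
      apply g.continuous.continuousAt
      have h1 : g ((g.toAffineIsometryEquiv rfl).symm y) = y :=
        (g.toAffineIsometryEquiv rfl).apply_symm_apply y
      rw [h1]
      exact hy
    · rw [hX]
      ext y
      simp
    · rintro _ ⟨t, ht, rfl⟩
      obtain ⟨k, hk⟩ := hg t ht
      exact ⟨k.comp g, fun x hx => hk _ hx⟩
  · intro x y rx ry hxy h1
    exact h.asymm _ _ ((hr x).1 rx) ((hr y).1 ry) hxy h1
  · intro x y rx ry hxy hne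
    exact h.total _ _ ((hr x).1 rx) ((hr y).1 ry) hxy fun h' => hne (g.injective h')
  · intro x y z rx ry rz hxy hyz h1 h2
    exact h.trans _ _ _ ((hr x).1 rx) ((hr y).1 ry) ((hr z).1 rz) hxy hyz h1 h2
  · intro x z rx hz hne hzx
    have hc : Tendsto (fun q : E2 × E2 => (g q.1, g q.2)) (𝓝 (x, z)) (𝓝 (g x, g z)) :=
      ((g.continuous.comp continuous_fst).prodMk (g.continuous.comp continuous_snd)).tendsto (x, z)
    rcases h.tortilla (g x) (g z) ((hr x).1 rx) hz (fun h' => hne (g.injective h')) hzx with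
      ht | ht
    · left
      filter_upwards [hc.eventually ht] with q hq r1 r2 hqq
      exact hq ((hr _).1 r1) ((hr _).1 r2) hqq
    · right
      filter_upwards [hc.eventually ht] with q hq r1 r2 hqq
      exact hq ((hr _).1 r1) ((hr _).1 r2) hqq
  · obtain ⟨E, hE, ht⟩ := h.taco
    refine ⟨E, hE, fun z z' hz hz' hne hzz hzE => ?_⟩
    obtain ⟨V, hV, V', hV', hVV⟩ := ht (g z) (g z') hz hz' (fun h' => hne (g.injective h')) hzz hzE
    refine ⟨g ⁻¹' V, g.continuous.continuousAt hV, g ⁻¹' V', g.continuous.continuousAt hV',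
      fun a ha a' ha' b hb b' hb' ra ra' rb rb' h1 h2 h3 => ?_⟩
    exact hVV _ ha _ ha' _ hb _ hb' ((hr _).1 ra) ((hr _).1 ra') ((hr _).1 rb) ((hr _).1 rb')
      h1 h2 h3

theorem SignOn.congr {X : Set E2} {f f' : E2 → Y} {pos : E2 → Prop}
    (h : SignOn X f pos) (hf : ∀ x ∈ X, f' x = f x) : SignOn X f' pos := by
  have hr := CompAux.reg_congr hf
  refine ⟨fun q hq => h.const q ((hr q).1 hq), ?_⟩
  obtain ⟨E, hE, ht⟩ := h.flip
  refine ⟨E, hE, fun q hq hqE => ?_⟩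
  obtain ⟨V, hV, hVf⟩ := ht q hq hqE
  refine ⟨V, hV, fun a ha a' ha' ra ra' hne haa => ?_⟩
  rw [hf a ra.mem, hf a' ra'.mem] at haa
  exact hVf a ha a' ha' ((hr _).1 ra) ((hr _).1 ra') hne haa

theorem SignOn.of_injOn {X : Set E2} {f : E2 → Y} (hi : InjOn f X) :
    SignOn X f (fun _ => True) := by
  refine ⟨fun q _ => Filter.Eventually.of_forall fun _ => Iff.rfl, ∅, finite_empty,
    fun q hq _ => ⟨univ, univ_mem, fun a _ a' _ ra ra' hne haa => ?_⟩⟩
  exact absurd (hi ra.mem ra'.mem haa) hne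

theorem SignOn.postcomp {Z : Type*} [NormedAddCommGroup Z] [InnerProductSpace ℝ Z]
    {X : Set E2} {f : E2 → Y} {pos : E2 → Prop} (h : SignOn X f pos) (T : Y →ᵃⁱ[ℝ] Z) :
    SignOn X (fun x => T (f x)) pos := by
  have hr : ∀ x, Reg X (fun x => T (f x)) x ↔ Reg X f x := CompAux.reg_postcomp T
  refine ⟨fun q hq => h.const q ((hr q).1 hq), ?_⟩
  obtain ⟨E, hE, ht⟩ := h.flip
  refine ⟨E, hE, fun q hq hqE => ?_⟩
  obtain ⟨V, hV, hVf⟩ := ht q hq hqE
  exact ⟨V, hV, fun a ha a' ha' ra ra' hne haa =>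
    hVf a ha a' ha' ((hr _).1 ra) ((hr _).1 ra') hne (T.injective haa)⟩

theorem SignOn.precomp {X : Set E2} {f : E2 → Y} {pos : E2 → Prop} (h : SignOn X f pos)
    (g : E2 →ᵃⁱ[ℝ] E2) :
    SignOn (g ⁻¹' X) (fun x => f (g x)) (fun x => pos (g x)) := by
  have hr : ∀ x, Reg (g ⁻¹' X) (fun x => f (g x)) x ↔ Reg X f (g x) := CompAux.reg_precomp g
  refine ⟨fun q hq => (g.continuous.tendsto q).eventually (h.const _ ((hr q).1 hq)), ?_⟩
  obtain ⟨E, hE, ht⟩ := h.flip
  refine ⟨g ⁻¹' E, hE.preimage g.injective.injOn, fun q hq hqE => ?_⟩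
  obtain ⟨V, hV, hVf⟩ := ht (g q) hq hqE
  exact ⟨g ⁻¹' V, g.continuous.continuousAt hV, fun a ha a' ha' ra ra' hne haa =>
    hVf _ ha _ ha' ((hr _).1 ra) ((hr _).1 ra') (fun h' => hne (g.injective h')) haa⟩

/-- changing the global sign -/
theorem SignOn.not {X : Set E2} {f : E2 → Y} {pos : E2 → Prop} (h : SignOn X f pos) :
    SignOn X f (fun x => ¬ pos x) := by
  refine ⟨fun q hq => (h.const q hq).mono fun y hy => not_congr hy, ?_⟩
  obtain ⟨E, hE, ht⟩ := h.flip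
  refine ⟨E, hE, fun q hq hqE => ?_⟩
  obtain ⟨V, hV, hVf⟩ := ht q hq hqE
  exact ⟨V, hV, fun a ha a' ha' ra ra' hne haa =>
    not_congr (hVf a ha a' ha' ra ra' hne haa)⟩

end

end Pool.Agent.SeamS
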