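import Pool.Agent.SeamS.AsmGeo
import Pool.Agent.SeamS.Fold
import Pool.Agent.SeamS.Comp

/-!
# Images of the blocks (module G2a)

`f_IF`: on the event line `e`: `f z = mp (k, e) z = G e z` for `1 ≤ e`; for `e = 0`: `mp (k, 0) z = T (FW ..) = T (ρR ..) = G 0 z` (`isoR`, `IF_near`, `G0`). `G (e + 1) z = G e z` on the event line (all kinds of events: a fold fixes the points of the line).
`dist_f_es`: `f z = G e z`, `es k e = G e (ep k e)`, `G e` is isometric, `IF_near`.
`edge_bcell`: `¬ Turn`: by `IsRoute.event`, `e = 0`, `e = M`, wrap or cross: use `IsThin.startRim`, `endRim`, `move` (`MoveAt` contains both `bcell` statements).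
`not_cell`: `f z ∈ bcell i₀` for some `i₀`; `bcell i₀ ⊆ ccell i₀`, so it is in no other open cell (`disj`), and not in `cell i₀` (`g` is injective, `bcell i₀ = g '' (closure O \ O)`).
`turn_cell`: `IsThin.turn`, definition of `IsTurn`, `a.pl (k, e) = (rt k).pl e` since `e ≠ 0`.
`facet_img`: `IsThin.cell` for the facet. In the second alternative (`ev (e-1) z = 0`, `G e (p (e-1)) ∉ cell (ci e)`): `z ∈ IF k (e-1)`; if `Turn k (e-1)` then `s (e-1) = G (e-1) (p (e-1)) = G e (p (e-1)) ∈ cell (ci (e-1)) = cell (ci e)`, contradiction. Third alternative: `z ∈ IF k e`, if `Turn k e` then `G e (p e) ∈ cell (ci e)`, contradiction.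
`uniq_edge`: `f z' = f z` is in no open cell (`not_cell`), so by `facet_img` `z' ∈ IF k' e''`, `¬ Turn k' e''`. `dist_f_es` twice: `dist (es k e) (es k' e'') < 2 η`, so `(k, e) = (k', e'')` by `sep`. `G (e + 1) z = f z = f z' = G (e + 1) z'`.
`dist_IF`: every interface point is in a facet (`(k, e)` if `1 ≤ e`, `(k, 1)` if `e = 0`). If one of the two events is not a turn use `uniq_edge`. Otherwise `f z = f z'`, `dist_f_es` and `sep` give the same event, and `G e` is injective.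
`img_plate`: `inbead` (with `Qbox`), `inR`, `inL`.
-/

namespace Pool.Agent.SeamS

open Set Filter Topology Metric Pool.Agent.Hhelper79.Seam

namespace AData

variable {S : Set E3} {c : CData} {a : AData c}

/-- on an event line the two adjacent placements agree -/
theorem G_succ (ha : IsAsm S a) {k e : ℕ} (hk : k + 1 < c.m) (he : e ≤ a.M k) {z : E2}
    (hz : a.ev k e z = 0) : (a.rt k).G (e + 1) z = (a.rt k).G e z := by
  have hr := ha.route k hk
  have hrefl : refl ((a.rt k).n e, inner ℝ ((a.rt k).n e) ((a.rt k).p (a.H k) e)) z = z :=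
    th_refl hz
  have hfold : (a.rt k).IsFold (a.H k) e → (a.rt k).G (e + 1) z = (a.rt k).G e z := by
    intro h
    rw [h z, hrefl]
  rcases Nat.eq_zero_or_pos e with h0 | h0
  · subst h0
    exact hfold hr.startFold
  · rcases Nat.lt_or_ge e (a.M k) with h1 | h1
    · rcases hr.event e h0 h1 with h | h | h
      · exact hfold h.2.2.1
      · exact hfold h.2.1
      · exact h.2.1 z hz
    · have h2 : e = (a.rt k).M := le_antisymm he h1
      subst h2
      exact hfold hr.endFold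

theorem f_IF (ha : IsAsm S a) {k e : ℕ} (hk : k + 1 < c.m) (he : e ≤ a.M k) {z : E2}
    (hz : z ∈ a.IF k e) : a.f z = (a.rt k).G e z ∧ a.f z = (a.rt k).G (e + 1) z := by
  have h1 : a.f z = (a.rt k).G e z := by
    rw [f_eq ha (valid_nx ha hk he).1 (IF_sub ha hk he hz).1]
    rcases Nat.eq_zero_or_pos e with h0 | h0
    · subst h0
      have h2 := (ha.isoR k hk z (IF_near ha hk he hz)).1
      rw [ha.G0 k hk z, ← h2]
      simp [mp]
    · have h2 : e ≠ 0 := by omega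
      simp [mp, h2]
  exact ⟨h1, h1.trans (G_succ ha hk he hz.2).symm⟩

theorem dist_f_es (ha : IsAsm S a) {k e : ℕ} (hk : k + 1 < c.m) (he : e ≤ a.M k) {z : E2}
    (hz : z ∈ a.IF k e) : dist (a.f z) (a.es k e) < a.η := by
  rw [(f_IF ha hk he hz).1]
  have h1 : dist ((a.rt k).G e z) (a.es k e) = dist z ((a.rt k).p (a.H k) e) :=
    (a.rt k).G e |>.dist_map z ((a.rt k).p (a.H k) e)
  rw [h1]
  exact IF_near ha hk he hz

theorem edge_bcell (ha : IsAsm S a) {k e : ℕ} (hk : k + 1 < c.m) (he : e ≤ a.M k)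
    (hT : ¬ a.Turn k e) {z : E2} (hz : z ∈ a.IF k e) :
    (1 ≤ e → a.f z ∈ c.bcell (a.ci (k, e))) ∧ (e < a.M k → a.f z ∈ c.bcell (a.ci (k, e + 1))) ∧
      a.f z ∉ c.V := by
  have hr := ha.route k hk
  have ht := ha.thin k hk
  obtain ⟨hf1, hf2⟩ := f_IF ha hk he hz
  rcases Nat.eq_zero_or_pos e with h0 | h0
  · subst h0
    obtain ⟨h1, h2, -⟩ := ht.startRim z hz.1 hz.2
    rw [hf2]
    exact ⟨fun h => absurd h (by omega), fun _ => h1, h2⟩
  · rcases Nat.lt_or_ge e (a.M k) with h1 | h1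
    · have h2 : (a.rt k).IsWrap (a.H k) e ∨ (a.rt k).IsCross (a.H k) e := by
        rcases hr.event e h0 h1 with h | h
        · exact absurd ⟨h0, h1, h⟩ hT
        · exact h
      obtain ⟨h3, h4, h5, -⟩ := ht.move e h0 h1 h2 z hz.1 hz.2
      rw [hf1]
      exact ⟨fun _ => h4, fun _ => h5, h3⟩
    · have h2 : e = (a.rt k).M := le_antisymm he h1
      rw [hf1]
      have hz2 : (a.rt k).val (a.H k) (a.rt k).M z = 0 := by
        rw [← h2]; exact hz.2
      obtain ⟨h3, h4, -⟩ := ht.endRim z hz.1 hz2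
      rw [← h2] at h3 h4
      exact ⟨fun _ => h3, fun h => absurd h (by omega), h4⟩

theorem not_cell (ha : IsAsm S a) {k e : ℕ} (hk : k + 1 < c.m) (he : e ≤ a.M k)
    (hT : ¬ a.Turn k e) {z : E2} (hz : z ∈ a.IF k e) (i : Fin c.N) : a.f z ∉ c.cell i := by
  obtain ⟨h1, h2, -⟩ := edge_bcell ha hk he hT hz
  have h3 : ∃ i₀, a.f z ∈ c.bcell i₀ := by
    rcases Nat.eq_zero_or_pos e with h0 | h0
    · exact ⟨_, h2 (by have := M_pos ha hk; omega)⟩
    · exact ⟨_, h1 h0⟩
  obtain ⟨i₀, h4⟩ := h3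
  intro h5
  by_cases h6 : i = i₀
  · subst h6
    exact th_disj h4 h5
  · exact Set.disjoint_left.1 (ha.cx.disj i i₀ h6) h5 (th_bc h4)

theorem turn_cell (ha : IsAsm S a) {k e : ℕ} (hk : k + 1 < c.m) (hT : a.Turn k e) {z : E2}
    (hz : z ∈ a.IF k e) : a.f z ∈ c.cell (a.ci (k, e)) ∧ a.ci (k, e) = a.ci (k, e + 1) ∧
      a.pl (k, e) = a.pl (k, e + 1) := by
  obtain ⟨h1, h2, h3⟩ := hT
  refine ⟨?_, h3.1, ?_⟩
  · rw [(f_IF ha hk h2.le hz).1]
    exact (ha.thin k hk).turn e h1 h2 h3 z hz.1 hz.2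
  · have h4 : e ≠ 0 := by omega
    have h5 : e + 1 ≠ 0 := by omega
    simp only [pl, h4, h5, if_false]
    exact h3.2.1

theorem facet_img (ha : IsAsm S a) {k e : ℕ} (hφ : a.Valid (k, e)) (he : e ≠ 0) {z : E2}
    (hz : z ∈ a.R (k, e)) : a.f z ∈ c.ccell (a.ci (k, e)) ∧ (a.f z ∈ c.cell (a.ci (k, e)) ∨
      ∃ e', (e' + 1 = e ∨ e' = e) ∧ z ∈ a.IF k e' ∧ ¬ a.Turn k e') := by
  have h1 : k + 1 < c.m ∧ e ≤ a.M k := by
    rcases hφ.2 with h | h
    · exact absurd h he
    · exact h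
  obtain ⟨hk, heM⟩ := h1
  have hf : a.f z = (a.rt k).G e z := by
    rw [f_eq ha hφ hz]
    simp [mp, he]
  have hz' : z ∈ (a.rt k).facet (a.H k) (a.c' k) a.δ e := by
    have h2 := hz
    simp only [R, he, if_false] at h2
    exact h2
  obtain ⟨h3, h4⟩ := (ha.thin k hk).cell e (by omega) heM z hz'
  rw [hf]
  refine ⟨h3, ?_⟩
  rcases h4 with h4 | ⟨h4, h5⟩ | ⟨h4, h5⟩
  · exact Or.inl h4
  · right
    refine ⟨e - 1, Or.inl (by omega), ⟨hz'.1, h4⟩, ?_⟩
    intro hT
    apply h5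
    have h6 : e - 1 + 1 = e := by omega
    have h7 := G_succ ha hk (e := e - 1) (by omega) (z := (a.rt k).p (a.H k) (e - 1))
      (th_valp (a.rt k) (a.H k) (e - 1))
    rw [h6] at h7
    rw [h7]
    have h8 := hT.2.2.2.2.2
    have h9 := hT.2.2.1
    rw [h6] at h9
    rw [← h9]
    exact h8
  · right
    refine ⟨e, Or.inr rfl, ⟨hz'.1, h4⟩, ?_⟩
    intro hT
    exact h5 hT.2.2.2.2.2

/-- interface points with the same image belong to the same event line and coincide -/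
theorem IF_inj (ha : IsAsm S a) {k e k' e' : ℕ} (hk : k + 1 < c.m) (he : e ≤ a.M k)
    (hk' : k' + 1 < c.m) (he' : e' ≤ a.M k') {z z' : E2} (hz : z ∈ a.IF k e)
    (hz' : z' ∈ a.IF k' e') (hf : a.f z = a.f z') : (k, e) = (k', e') ∧ z = z' := by
  have h1 : (k, e) = (k', e') := by
    by_contra hne
    have h2 := ha.sep k k' e e' hk hk' he he' hne
    have h3 := dist_f_es ha hk he hz
    have h4 := dist_f_es ha hk' he' hz'
    have h5 := dist_triangle_left (a.es k e) (a.es k' e') (a.f z)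
    rw [← hf] at h4
    linarith
  refine ⟨h1, ?_⟩
  obtain ⟨h2, h3⟩ := Prod.mk.inj h1
  subst h2
  subst h3
  apply ((a.rt k).G e).injective
  rw [← (f_IF ha hk he hz).1, ← (f_IF ha hk he hz').1, hf]

/-- an edge-type interface point and a facet point with the same image coincide -/
theorem uniq_edge (ha : IsAsm S a) {k e : ℕ} (hk : k + 1 < c.m) (he : e ≤ a.M k)
    (hT : ¬ a.Turn k e) {z : E2} (hz : z ∈ a.IF k e) {φ : ℕ × ℕ} (hφ : a.Valid φ)
    (hφ0 : φ.2 ≠ 0) {z' : E2} (hz' : z' ∈ a.R φ) (hf : a.f z' = a.f z) : z' = z := by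
  obtain ⟨k', e'⟩ := φ
  have h1 : k' + 1 < c.m ∧ e' ≤ a.M k' := by
    rcases hφ.2 with h | h
    · exact absurd h hφ0
    · exact h
  obtain ⟨hk', he'⟩ := h1
  obtain ⟨-, h2⟩ := facet_img ha hφ hφ0 hz'
  rcases h2 with h2 | ⟨e'', h3, h4, -⟩
  · rw [hf] at h2
    exact absurd h2 (not_cell ha hk he hT hz _)
  · exact (IF_inj ha hk' (by omega) hk he h4 hz hf).2

/-- different interface points have different images -/
theorem dist_IF (ha : IsAsm S a) {k e k' e' : ℕ} (hk : k + 1 < c.m) (he : e ≤ a.M k)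
    (hk' : k' + 1 < c.m) (he' : e' ≤ a.M k') {z z' : E2} (hz : z ∈ a.IF k e)
    (hz' : z' ∈ a.IF k' e') (hf : a.f z = a.f z') : z = z' :=
  (IF_inj ha hk he hk' he' hz hz' hf).2

theorem img_plate (ha : IsAsm S a) {k : ℕ} (hk : k < c.m) {z : E2} (hz : z ∈ a.R (k, 0)) :
    FW (a.w k) (z - a.ctr k) ∈ Hull (c.Λ (a.pk k)) := by
  have hc := ha.ccpos
  have hW := ha.Wpos
  have hz' : z ∈ a.bead k ∪ a.strR k ∪ a.strL k := by
    have h := hz
    simpa only [R, if_true] using h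
  rcases hz' with (h | h) | h
  · have h1 := (ha.Qbox z h.1).1
    exact ha.inbead k hk z h.2 h1.1 h1.2
  · obtain ⟨h1, h2, h3, h4⟩ := h
    exact ha.inR k h1 z h2 (by linarith) h4
  · obtain ⟨h1, h2, h3, h4⟩ := h
    have h5 : k - 1 + 1 = k := by omega
    have h6 := ha.inL (k - 1) (by omega) z h2 (by rw [h5]; linarith) h4
    rw [h5] at h6
    exact h6

theorem img_plate' (ha : IsAsm S a) {k : ℕ} (hk : k < c.m) {z : E2} (hz : z ∈ a.R (k, 0)) :
    a.f z = c.T (a.pk k) (FW (a.w k) (z - a.ctr k)) ∧ a.f z ∈ c.CC (a.pk k) := by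
  have h1 : a.f z = c.T (a.pk k) (FW (a.w k) (z - a.ctr k)) := by
    rw [f_eq ha ⟨hk, Or.inl rfl⟩ hz]
    simp [mp]
  refine ⟨h1, ?_⟩
  rw [h1]
  exact ⟨_, img_plate ha hk hz, rfl⟩

end AData

end Pool.Agent.SeamS
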