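import Pool.Agent.SeamS.AsmReg

/-!
# The order of the blocks (module G3a)

Everything about the relation `B`.

**Common cell.** For a block `φ` and a cell `i` let `Over i φ` be: `mem i (pk φ.1)` if `φ` is a plate, `ci φ = i` if `φ` is a facet. Then for a facet also `mem i (pl φ)` (`IsRoute.valid`).
(1) If `x ∈ R φ` is regular, `φ` a plate, `f x ∈ ccell i`, then `Over i φ` (`reg_plate`: `f x ∈ CI`, and `mem_of_CI`).
(2) If `x ∈ R φ`, `y ∈ R ψ`, `φ, ψ` facets, `x ≠ y`, `f x = f y`, then `ci φ = ci ψ`: by `facet_img` for `x` either `f x ∈ cell (ci φ)`, and as `f y ∈ ccell (ci ψ)` the cells agree by `disj`; or `x` is on an edge-type interface and `uniq_edge` gives `y = x`, contradiction.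
(3) `common_cell`: for regular points `x₁, x₂, x₃` with the same image, pairwise different, in blocks `φ₁, φ₂, φ₃`, there is `i` with `Over i φ_j` for all `j`: if one of the blocks is a facet take its cell ((1), (2)); if all are plates take a cell with `f x ∈ ccell i` (`cover`, `f x ∈ CC ⊆ S`).
**Rank.** `B_over`: if `Over i φ`, `Over i ψ`, both valid, then `B φ ψ ↔ low (pl ψ) (pl φ) ∨ (pl φ = pl ψ ∧ ((φ.2 = 0 ∧ ψ.2 ≠ 0) ∨ (φ.2 ≠ 0 ∧ ψ.2 ≠ 0 ∧ bef φ ψ)))`.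
 (plate, plate): `B` is `low (pk ψ.1) (pk φ.1)`, and the second alternative is excluded. (plate, facet): `Abv i (pl ψ) (pk φ.1) = mem i (pk φ.1) ∧ (pk φ.1 = pl ψ ∨ low (pl ψ) (pk φ.1))`. (facet, plate): `mem ∧ ¬ (pk ψ.1 = pl φ ∨ low (pl φ) (pk ψ.1))`, equivalent to `low (pk ψ.1) (pl φ)` by `total`, `asymm`. (facet, facet): definition.
`B_total`: from `B_over`: on the blocks over the cell `i`, `low` is a strict linear order of the plates, and for equal `pl` the second alternative is a strict linear order (two plates with the same `pl` are equal by `pk_inj`).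
-/

namespace Pool.Agent.SeamS

open Set Filter Topology Metric Pool.Agent.Hhelper79.Seam

namespace AData

variable {S : Set E3} {c : CData} {a : AData c}

/-- the block `φ` lies over the cell `i` -/
def Over (a : AData c) (i : Fin c.N) (φ : ℕ × ℕ) : Prop :=
  (φ.2 = 0 ∧ c.mem i (a.pk φ.1)) ∨ (φ.2 ≠ 0 ∧ a.ci φ = i)

theorem ao_facet (ha : IsAsm S a) {φ : ℕ × ℕ} (hφ : a.Valid φ) (h0 : φ.2 ≠ 0) :
    (φ.1 + 1 < c.m ∧ φ.2 ≤ a.M φ.1) ∧ c.mem (a.ci φ) (a.pl φ) := by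
  have h1 : φ.1 + 1 < c.m ∧ φ.2 ≤ a.M φ.1 := by
    rcases hφ.2 with h | h
    · exact absurd h h0
    · exact h
  refine ⟨h1, ?_⟩
  have h2 := (ha.route φ.1 h1.1).valid φ.2 (by omega) h1.2
  simp only [ci, pl, if_neg h0]
  exact h2

theorem ao_mem (ha : IsAsm S a) {i : Fin c.N} {φ : ℕ × ℕ} (hφ : a.Valid φ)
    (h : a.Over i φ) : c.mem i (a.pl φ) := by
  rcases h with ⟨h1, h2⟩ | ⟨h1, h2⟩
  · simp only [pl, if_pos h1]
    exact h2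
  · rw [← h2]
    exact (ao_facet ha hφ h1).2

theorem ao_plate (ha : IsAsm S a) {i : Fin c.N} {φ : ℕ × ℕ} (hφ : a.Valid φ) (h0 : φ.2 = 0)
    {x : E2} (hx : x ∈ a.R φ) (r : Reg a.Q a.f x) (h : a.f x ∈ c.ccell i) : a.Over i φ := by
  left
  refine ⟨h0, ?_⟩
  have h1 : φ = (φ.1, 0) := Prod.ext rfl h0
  have h2 := (reg_plate ha hφ.1 (h1 ▸ hx) r).2.2
  exact ha.cx.mem_of_CI i _ _ h h2

theorem ao_ff (ha : IsAsm S a) {φ ψ : ℕ × ℕ} (hφ : a.Valid φ) (hψ : a.Valid ψ)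
    (h0 : φ.2 ≠ 0) (h0' : ψ.2 ≠ 0) {x y : E2} (hx : x ∈ a.R φ) (hy : y ∈ a.R ψ)
    (hxy : x ≠ y) (hf : a.f x = a.f y) : a.ci φ = a.ci ψ := by
  have h1 := (ao_facet ha hφ h0).1
  obtain ⟨h2, h3⟩ := facet_img (k := φ.1) (e := φ.2) ha hφ h0 hx
  obtain ⟨h4, -⟩ := facet_img (k := ψ.1) (e := ψ.2) ha hψ h0' hy
  rcases h3 with h3 | ⟨e', h5, h6, h7⟩
  · by_contra hne
    refine Set.disjoint_left.1 (ha.cx.disj _ _ hne) h3 ?_
    rw [hf]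
    exact h4
  · exact absurd (uniq_edge ha h1.1 (by omega) h7 h6 hψ h0' hy hf.symm).symm hxy

theorem ao_over (ha : IsAsm S a) {φ ψ : ℕ × ℕ} (hφ : a.Valid φ) (hψ : a.Valid ψ)
    (h0 : φ.2 ≠ 0) {x y : E2} (hx : x ∈ a.R φ) (hy : y ∈ a.R ψ) (ry : Reg a.Q a.f y)
    (hxy : x ≠ y) (hf : a.f x = a.f y) : a.Over (a.ci φ) ψ := by
  by_cases h : ψ.2 = 0
  · refine ao_plate ha hψ h hy ry ?_
    rw [← hf]
    exact (facet_img (k := φ.1) (e := φ.2) ha hφ h0 hx).1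
  · exact Or.inr ⟨h, (ao_ff ha hφ hψ h0 h hx hy hxy hf).symm⟩

theorem ao_ccell (ha : IsAsm S a) {φ : ℕ × ℕ} (hφ : a.Valid φ) (h0 : φ.2 = 0) {x : E2}
    (hx : x ∈ a.R φ) : ∃ i, a.f x ∈ c.ccell i := by
  have h1 : φ = (φ.1, 0) := Prod.ext rfl h0
  have h2 := (img_plate' ha hφ.1 (h1 ▸ hx)).2
  have h3 := ha.cx.sub _ h2
  rw [ha.cx.cover] at h3
  exact mem_iUnion.1 h3

theorem common_cell (ha : IsAsm S a) {φ₁ φ₂ φ₃ : ℕ × ℕ} (h₁ : a.Valid φ₁) (h₂ : a.Valid φ₂)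
    (h₃ : a.Valid φ₃) {x₁ x₂ x₃ : E2} (hx₁ : x₁ ∈ a.R φ₁) (hx₂ : x₂ ∈ a.R φ₂)
    (hx₃ : x₃ ∈ a.R φ₃) (r₁ : Reg a.Q a.f x₁) (r₂ : Reg a.Q a.f x₂) (r₃ : Reg a.Q a.f x₃)
    (h12 : x₁ ≠ x₂) (h23 : x₂ ≠ x₃) (h13 : x₁ ≠ x₃) (f12 : a.f x₁ = a.f x₂)
    (f23 : a.f x₂ = a.f x₃) : ∃ i, a.Over i φ₁ ∧ a.Over i φ₂ ∧ a.Over i φ₃ := by
  by_cases z1 : φ₁.2 = 0
  · by_cases z2 : φ₂.2 = 0
    · by_cases z3 : φ₃.2 = 0
      · obtain ⟨i, hi⟩ := ao_ccell ha h₁ z1 hx₁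
        exact ⟨i, ao_plate ha h₁ z1 hx₁ r₁ hi, ao_plate ha h₂ z2 hx₂ r₂ (f12 ▸ hi),
          ao_plate ha h₃ z3 hx₃ r₃ (f23 ▸ f12 ▸ hi)⟩
      · exact ⟨a.ci φ₃, ao_over ha h₃ h₁ z3 hx₃ hx₁ r₁ h13.symm (f12.trans f23).symm,
          ao_over ha h₃ h₂ z3 hx₃ hx₂ r₂ h23.symm f23.symm, Or.inr ⟨z3, rfl⟩⟩
    · exact ⟨a.ci φ₂, ao_over ha h₂ h₁ z2 hx₂ hx₁ r₁ h12.symm f12.symm, Or.inr ⟨z2, rfl⟩,
        ao_over ha h₂ h₃ z2 hx₂ hx₃ r₃ h23 f23⟩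
  · exact ⟨a.ci φ₁, Or.inr ⟨z1, rfl⟩, ao_over ha h₁ h₂ z1 hx₁ hx₂ r₂ h12 f12,
      ao_over ha h₁ h₃ z1 hx₁ hx₃ r₃ h13 (f12.trans f23)⟩

theorem common_cell2 (ha : IsAsm S a) {φ₁ φ₂ : ℕ × ℕ} (h₁ : a.Valid φ₁) (h₂ : a.Valid φ₂)
    {x₁ x₂ : E2} (hx₁ : x₁ ∈ a.R φ₁) (hx₂ : x₂ ∈ a.R φ₂) (r₁ : Reg a.Q a.f x₁)
    (r₂ : Reg a.Q a.f x₂) (h12 : x₁ ≠ x₂) (f12 : a.f x₁ = a.f x₂) :
    ∃ i, a.Over i φ₁ ∧ a.Over i φ₂ := by
  by_cases z1 : φ₁.2 = 0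
  · by_cases z2 : φ₂.2 = 0
    · obtain ⟨i, hi⟩ := ao_ccell ha h₁ z1 hx₁
      exact ⟨i, ao_plate ha h₁ z1 hx₁ r₁ hi, ao_plate ha h₂ z2 hx₂ r₂ (f12 ▸ hi)⟩
    · exact ⟨a.ci φ₂, ao_over ha h₂ h₁ z2 hx₂ hx₁ r₁ h12.symm f12.symm, Or.inr ⟨z2, rfl⟩⟩
  · exact ⟨a.ci φ₁, Or.inr ⟨z1, rfl⟩, ao_over ha h₁ h₂ z1 hx₁ hx₂ r₂ h12 f12⟩

theorem ao_irrefl (ha : IsAsm S a) (k : Fin c.m) : ¬ c.low k k := fun h => ha.cx.asymm k k h h

theorem B_over (ha : IsAsm S a) {i : Fin c.N} {φ ψ : ℕ × ℕ} (hφ : a.Valid φ) (hψ : a.Valid ψ)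
    (h₁ : a.Over i φ) (h₂ : a.Over i ψ) : a.B φ ψ ↔ c.low (a.pl ψ) (a.pl φ) ∨
      (a.pl φ = a.pl ψ ∧ ((φ.2 = 0 ∧ ψ.2 ≠ 0) ∨ (φ.2 ≠ 0 ∧ ψ.2 ≠ 0 ∧ bef φ ψ))) := by
  have m1 := ao_mem ha hφ h₁
  have m2 := ao_mem ha hψ h₂
  by_cases z1 : φ.2 = 0
  · have p1 : a.pl φ = a.pk φ.1 := by simp only [pl, if_pos z1]
    rw [p1] at m1
    by_cases z2 : ψ.2 = 0
    · have p2 : a.pl ψ = a.pk ψ.1 := by simp only [pl, if_pos z2]
      unfold B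
      rw [p1, p2]
      simp only [z1, z2, true_and, ne_eq, not_true_eq_false, false_and, or_false, and_false]
    · have c2 : a.ci ψ = i := by
        rcases h₂ with h | h
        · exact absurd h.1 z2
        · exact h.2
      unfold B
      rw [p1]
      simp only [z1, z2, true_and, ne_eq, not_true_eq_false, false_and, or_false, and_false,
        false_or, not_false_eq_true, and_true, CData.Abv, c2, m1]
      exact or_comm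
  · have c1 : a.ci φ = i := by
      rcases h₁ with h | h
      · exact absurd h.1 z1
      · exact h.2
    by_cases z2 : ψ.2 = 0
    · have p2 : a.pl ψ = a.pk ψ.1 := by simp only [pl, if_pos z2]
      rw [p2] at m2
      unfold B
      rw [p2]
      simp only [z1, z2, true_and, ne_eq, not_true_eq_false, false_and, or_false, and_false,
        false_or, not_false_eq_true, and_true, CData.Abv, c1, m2, not_or]
      constructor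
      · rintro ⟨h3, h4⟩
        rcases ha.cx.total i _ _ m2 m1 h3 with h5 | h5
        · exact h5
        · exact absurd h5 h4
      · intro h3
        refine ⟨?_, ha.cx.asymm _ _ h3⟩
        intro h4
        rw [h4] at h3
        exact ao_irrefl ha _ h3
    · have c2 : a.ci ψ = i := by
        rcases h₂ with h | h
        · exact absurd h.1 z2
        · exact h.2
      unfold B
      simp only [z1, z2, true_and, ne_eq, false_and,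
        false_or, not_false_eq_true, c1, c2]
      exact or_comm

theorem ao_bef_asymm {φ ψ : ℕ × ℕ} (h : bef φ ψ) : ¬ bef ψ φ := by
  unfold bef at *
  omega

theorem B_asymm (ha : IsAsm S a) {φ ψ : ℕ × ℕ} (h : a.B φ ψ) : ¬ a.B ψ φ := by
  intro h'
  rcases h with ⟨z1, z2, h⟩ | ⟨z1, z2, h⟩ | ⟨z1, z2, h⟩ | ⟨z1, z2, h⟩ <;>
  rcases h' with ⟨w1, w2, h'⟩ | ⟨w1, w2, h'⟩ | ⟨w1, w2, h'⟩ | ⟨w1, w2, h'⟩ <;>
  first
  | exact absurd z1 w2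
  | exact absurd w2 z1
  | exact absurd z2 w1
  | exact absurd w1 z2
  | skip
  · exact ha.cx.asymm _ _ h h'
  · exact h'.2 h
  · exact h.2 h'
  · rcases h.2 with ⟨h1, h2⟩ | h1 <;> rcases h'.2 with ⟨h3, h4⟩ | h3
    · exact ao_bef_asymm h2 h4
    · rw [h1] at h3
      exact ao_irrefl ha _ h3
    · rw [h3] at h1
      exact ao_irrefl ha _ h1
    · exact ha.cx.asymm _ _ h1 h3

/-- adjacent blocks are not ordered at a cross -/
theorem B_cross (ha : IsAsm S a) {φ ψ : ℕ × ℕ} (hφ : a.Valid φ) (hψ : a.Valid ψ) (hne : φ ≠ ψ)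
    {x : E2} (hx : x ∈ a.R φ ∩ a.R ψ) (hr : Reg a.Q a.f x) : ¬ a.B φ ψ := by
  obtain ⟨k, e, hk, he, hIF, h⟩ := overlap ha hφ hψ hne hx.1 hx.2
  have hC : a.Cross k e := by
    by_contra hC
    exact fold_not_reg ha hk he hC hIF hr
  obtain ⟨c1, c2, c3, -⟩ := hC
  have hnx : a.nx k e = (k, e + 1) := by simp [nx, c2.ne]
  have key : (φ.2 ≠ 0 ∧ ψ.2 ≠ 0) ∧ a.ci φ ≠ a.ci ψ := by
    rcases h with ⟨rfl, rfl⟩ | ⟨rfl, rfl⟩
    · rw [hnx]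
      refine ⟨⟨?_, ?_⟩, c3⟩
      · show e ≠ 0
        omega
      · show e + 1 ≠ 0
        omega
    · rw [hnx]
      refine ⟨⟨?_, ?_⟩, Ne.symm c3⟩
      · show e + 1 ≠ 0
        omega
      · show e ≠ 0
        omega
  rintro (⟨z1, z2, h⟩ | ⟨z1, z2, h⟩ | ⟨z1, z2, h⟩ | ⟨z1, z2, h⟩)
  · exact key.1.1 z1
  · exact key.1.1 z1
  · exact key.1.2 z2
  · exact key.2 h.1

theorem B_total (ha : IsAsm S a) {φ ψ : ℕ × ℕ} (hφ : a.Valid φ) (hψ : a.Valid ψ) (hne : φ ≠ ψ)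
    {x y : E2} (hx : x ∈ a.R φ) (hy : y ∈ a.R ψ) (rx : Reg a.Q a.f x) (ry : Reg a.Q a.f y)
    (hf : a.f x = a.f y) (hxy : x ≠ y) : a.B φ ψ ∨ a.B ψ φ := by
  obtain ⟨i, h1, h2⟩ := common_cell2 ha hφ hψ hx hy rx ry hxy hf
  rw [B_over ha hφ hψ h1 h2, B_over ha hψ hφ h2 h1]
  have m1 := ao_mem ha hφ h1
  have m2 := ao_mem ha hψ h2
  by_cases hp : a.pl φ = a.pl ψ
  · by_cases z1 : φ.2 = 0
    · by_cases z2 : ψ.2 = 0
      · exfalso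
        simp only [pl, if_pos z1, if_pos z2] at hp
        have h3 := ha.pk_inj _ _ hφ.1 hψ.1 hp
        exact hne (Prod.ext h3 (z1.trans z2.symm))
      · exact Or.inl (Or.inr ⟨hp, Or.inl ⟨z1, z2⟩⟩)
    · by_cases z2 : ψ.2 = 0
      · exact Or.inr (Or.inr ⟨hp.symm, Or.inl ⟨z2, z1⟩⟩)
      · have h3 : bef φ ψ ∨ bef ψ φ := by
          have h4 : φ.1 ≠ ψ.1 ∨ φ.2 ≠ ψ.2 := by
            by_contra hcon
            push_neg at hcon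
            exact hne (Prod.ext hcon.1 hcon.2)
          unfold bef
          omega
        rcases h3 with h3 | h3
        · exact Or.inl (Or.inr ⟨hp, Or.inr ⟨z1, z2, h3⟩⟩)
        · exact Or.inr (Or.inr ⟨hp.symm, Or.inr ⟨z2, z1, h3⟩⟩)
  · rcases ha.cx.total i _ _ m1 m2 hp with h3 | h3
    · exact Or.inr (Or.inl h3)
    · exact Or.inl (Or.inl h3)

end AData

end Pool.Agent.SeamS
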