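import Pool.Agent.SeamS.AsmGeo
import Pool.Agent.SeamS.Poly

/-!
# The blocks are finite unions of polygons (module G1b)

`polySet_R`: facets: `IsThin.facet`. Plate `k`: `bead k = Q ∩ {|z 0 - x k| ≤ cc + 3W}` is a finite union of `IsPoly` sets (`IsPoly.clip`), `strR k` and `strL k` are empty or bounded intersections of finitely many half planes with nonempty interior, `IsPoly` (`isPoly_hull`). Let `Z` be the union. `Z ⊆ closure (interior Z)`: points of `strR`, `strL`: convex with nonempty interior.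
Points of the bead with `|z 0 - x k| < cc + 3W`: `Q ⊆ closure (interior Q)` (`PolySet.subset_closure_interior`). Points with `z 0 = x k + cc + 3W`: then `k + 1 < m` (`Qbox`), `z` is in the strip (`Qstr`) and `ev 0 z < 0` (`lt_of_ev`, `posR`), so `z ∈ strR k`; same on the left side. Now `sUnion_nondegenerate`.
-/

namespace Pool.Agent.SeamS

open Set Filter Topology Metric Pool.Agent.Hhelper79.Seam

theorem yp_union {B Y : Set E2} {T : Set (Set E2)} (hT : T.Finite) (hp : ∀ t ∈ T, IsPoly t)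
    (hB : B = ⋃₀ T) (hY : PolySet Y) (hc : B ⊆ closure (interior (B ∪ Y))) :
    PolySet (B ∪ Y) := by
  obtain ⟨T', hT', hp', hY'⟩ := hY
  have hall : B ∪ Y = ⋃₀ (T ∪ T') := by rw [hB, hY', sUnion_union]
  have hpoly : ∀ t ∈ T ∪ T', IsPoly t := by
    rintro t (ht | ht)
    · exact hp t ht
    · exact (hp' t ht).1
  have hY2 : Y ⊆ closure (interior (B ∪ Y)) := by
    have hYp : PolySet Y := ⟨T', hT', hp', hY'⟩
    exact hYp.subset_closure_interior.trans
      (closure_mono (interior_mono subset_union_right))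
  have hc2 : B ∪ Y ⊆ closure (interior (B ∪ Y)) := union_subset hc hY2
  have hfin : (T ∪ T').Finite := hT.union hT'
  rw [hall] at hc2
  refine ⟨{t ∈ T ∪ T' | (interior t).Nonempty}, hfin.subset fun t ht => ht.1,
    fun t ht => ⟨hpoly t ht.1, ht.2⟩, ?_⟩
  rw [hall]
  exact sUnion_nondegenerate hfin hpoly hc2

theorem yp_empty : PolySet (∅ : Set E2) :=
  ⟨∅, finite_empty, fun t ht => absurd ht (notMem_empty t), by simp⟩

namespace AData

variable {S : Set E3} {c : CData} {a : AData c}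

theorem yp_clip_neg {t : Set E2} (ht : IsPoly t) (k e : ℕ) :
    IsPoly (t ∩ {z | a.ev k e z ≤ 0}) := by
  have h := IsPoly.clip ht (-(a.rt k).n e, -inner ℝ ((a.rt k).n e) ((a.rt k).p (a.H k) e))
  have : {y : E2 | -inner ℝ ((a.rt k).n e) ((a.rt k).p (a.H k) e) ≤
      inner ℝ (-(a.rt k).n e) y} = {z | a.ev k e z ≤ 0} := by
    ext z
    simp only [mem_ofPred_eq, ev, RData.val, inner_neg_left, inner_sub_right]
    constructor <;> intro h <;> linarith
  rw [← this]
  exact h

theorem yp_clip_pos {t : Set E2} (ht : IsPoly t) (k e : ℕ) :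
    IsPoly (t ∩ {z | 0 ≤ a.ev k e z}) := by
  have h := IsPoly.clip ht ((a.rt k).n e, inner ℝ ((a.rt k).n e) ((a.rt k).p (a.H k) e))
  have : {y : E2 | inner ℝ ((a.rt k).n e) ((a.rt k).p (a.H k) e) ≤
      inner ℝ ((a.rt k).n e) y} = {z | 0 ≤ a.ev k e z} := by
    ext z
    simp only [mem_ofPred_eq, ev, RData.val, inner_sub_right]
    constructor <;> intro h <;> linarith
  rw [← this]
  exact h

theorem yp_strR (ha : IsAsm S a) (k : ℕ) : PolySet (a.strR k) := by
  by_cases hk : k + 1 < c.m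
  swap
  · have : a.strR k = ∅ := by
      apply eq_empty_of_forall_notMem
      rintro z ⟨h, -⟩
      exact hk h
    rw [this]
    exact yp_empty
  have hW := ha.Wpos
  have hδ := ha.δpos
  have hposR := ha.posR k hk
  have heq : a.strR k = {y : E2 | y 0 ∈ Icc (a.x k + a.cc + 3 * a.W) ((a.rt k).t 0 + a.W) ∧
      y 1 ∈ Icc (a.c' k - a.δ) (a.c' k + a.δ)} ∩ {z | a.ev k 0 z ≤ 0} := by
    ext z
    simp only [strR, mem_ofPred_eq, mem_inter_iff, mem_Icc]
    constructor
    · rintro ⟨-, h1, h2, h3⟩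
      have h4 := lt_of_ev' ha hk h1 (Nat.zero_le _) h3
      have h5 := abs_le.1 h1
      exact ⟨⟨⟨h2, h4.le⟩, by linarith [h5.1], by linarith [h5.2]⟩, h3⟩
    · rintro ⟨⟨⟨h1, h2⟩, h3, h4⟩, h5⟩
      exact ⟨hk, abs_le.2 ⟨by linarith, by linarith⟩, h1, h5⟩
  have hpoly : IsPoly (a.strR k) := by
    rw [heq]
    exact yp_clip_neg (isPoly_rect _ _ _ _) k 0
  have hq0 : (pt (a.x k + a.cc + 7 / 2 * a.W) (a.c' k)) 0 = a.x k + a.cc + 7 / 2 * a.W := by
    simp [pt]
  have hq1 : (pt (a.x k + a.cc + 7 / 2 * a.W) (a.c' k)) 1 = a.c' k := by simp [pt]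
  have hint : (interior (a.strR k)).Nonempty := by
    refine ⟨pt (a.x k + a.cc + 7 / 2 * a.W) (a.c' k), ?_⟩
    rw [mem_interior]
    refine ⟨{z | |z 1 - a.c' k| < a.δ} ∩ ({z | a.x k + a.cc + 3 * a.W < z 0} ∩
      {z | a.ev k 0 z < 0}), ?_, ?_, ?_⟩
    · rintro z ⟨h1, h2, h3⟩
      exact ⟨hk, le_of_lt h1, le_of_lt h2, le_of_lt h3⟩
    · exact (isOpen_lt (((ag_c0 1).sub continuous_const).abs) continuous_const).inter
        ((isOpen_lt continuous_const (ag_c0 0)).inter (isOpen_lt (ag_cont k 0) continuous_const))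
    · refine ⟨?_, ?_, ?_⟩
      · rw [mem_ofPred_eq, hq1, sub_self, abs_zero]
        exact hδ
      · rw [mem_ofPred_eq, hq0]
        linarith
      · rw [mem_ofPred_eq]
        by_contra hcon
        have h1 := lt_of_ev ha hk (z := pt (a.x k + a.cc + 7 / 2 * a.W) (a.c' k))
          (by rw [hq1, sub_self, abs_zero]; exact hδ.le) (Nat.zero_le _) (not_lt.1 hcon)
        rw [hq0] at h1
        linarith
  exact ⟨{a.strR k}, finite_singleton _, fun t ht => by
    rw [mem_singleton_iff.1 ht]; exact ⟨hpoly, hint⟩, by simp⟩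

theorem yp_strL (ha : IsAsm S a) {k : ℕ} (hkm : k < c.m) : PolySet (a.strL k) := by
  by_cases hk1 : 1 ≤ k
  swap
  · have : a.strL k = ∅ := by
      apply eq_empty_of_forall_notMem
      rintro z ⟨h, -⟩
      exact hk1 h
    rw [this]
    exact yp_empty
  obtain ⟨l, rfl⟩ : ∃ l, k = l + 1 := ⟨k - 1, by omega⟩
  have hk : l + 1 < c.m := hkm
  have hW := ha.Wpos
  have hδ := ha.δpos
  have hposL := ha.posL l hk
  have heq : a.strL (l + 1) = {y : E2 | y 0 ∈ Icc ((a.rt l).t (a.M l) - a.W)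
        (a.x (l + 1) - a.cc - 3 * a.W) ∧
      y 1 ∈ Icc (a.c' l - a.δ) (a.c' l + a.δ)} ∩ {z | 0 ≤ a.ev l (a.M l) z} := by
    ext z
    simp only [strL, mem_ofPred_eq, mem_inter_iff, mem_Icc, Nat.add_sub_cancel]
    constructor
    · rintro ⟨-, h1, h2, h3⟩
      have h4 := lt_of_ev ha hk h1 le_rfl h3
      have h5 := abs_le.1 h1
      exact ⟨⟨⟨h4.le, h2⟩, by linarith [h5.1], by linarith [h5.2]⟩, h3⟩
    · rintro ⟨⟨⟨h1, h2⟩, h3, h4⟩, h5⟩
      exact ⟨by omega, abs_le.2 ⟨by linarith, by linarith⟩, h2, h5⟩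
  have hpoly : IsPoly (a.strL (l + 1)) := by
    rw [heq]
    exact yp_clip_pos (isPoly_rect _ _ _ _) l (a.M l)
  have hq0 : (pt (a.x (l + 1) - a.cc - 7 / 2 * a.W) (a.c' l)) 0 =
      a.x (l + 1) - a.cc - 7 / 2 * a.W := by
    simp [pt]
  have hq1 : (pt (a.x (l + 1) - a.cc - 7 / 2 * a.W) (a.c' l)) 1 = a.c' l := by simp [pt]
  have hint : (interior (a.strL (l + 1))).Nonempty := by
    refine ⟨pt (a.x (l + 1) - a.cc - 7 / 2 * a.W) (a.c' l), ?_⟩
    rw [mem_interior]
    refine ⟨{z | |z 1 - a.c' l| < a.δ} ∩ ({z | z 0 < a.x (l + 1) - a.cc - 3 * a.W} ∩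
      {z | 0 < a.ev l (a.M l) z}), ?_, ?_, ?_⟩
    · rintro z ⟨h1, h2, h3⟩
      refine ⟨by omega, ?_, le_of_lt h2, ?_⟩
      · simp only [Nat.add_sub_cancel]
        exact le_of_lt h1
      · simp only [Nat.add_sub_cancel]
        exact le_of_lt h3
    · exact (isOpen_lt (((ag_c0 1).sub continuous_const).abs) continuous_const).inter
        ((isOpen_lt (ag_c0 0) continuous_const).inter
          (isOpen_lt continuous_const (ag_cont l (a.M l))))
    · refine ⟨?_, ?_, ?_⟩
      · rw [mem_ofPred_eq, hq1, sub_self, abs_zero]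
        exact hδ
      · rw [mem_ofPred_eq, hq0]
        linarith
      · rw [mem_ofPred_eq]
        by_contra hcon
        have h1 := lt_of_ev' ha hk (z := pt (a.x (l + 1) - a.cc - 7 / 2 * a.W) (a.c' l))
          (by rw [hq1, sub_self, abs_zero]; exact hδ.le) le_rfl (not_lt.1 hcon)
        rw [hq0] at h1
        linarith
  exact ⟨{a.strL (l + 1)}, finite_singleton _, fun t ht => by
    rw [mem_singleton_iff.1 ht]; exact ⟨hpoly, hint⟩, by simp⟩

theorem yp_bead_pieces (ha : IsAsm S a) (k : ℕ) : ∃ T : Set (Set E2), T.Finite ∧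
    (∀ t ∈ T, IsPoly t) ∧ a.bead k = ⋃₀ T := by
  obtain ⟨T, hT, hp, hQ⟩ := ha.Qpoly
  refine ⟨(fun t => (t ∩ {y : E2 | a.x k - (a.cc + 3 * a.W) ≤
      inner ℝ (EuclideanSpace.single (0 : Fin 2) (1 : ℝ)) y}) ∩
      {y : E2 | -(a.x k + (a.cc + 3 * a.W)) ≤
        inner ℝ (-EuclideanSpace.single (0 : Fin 2) (1 : ℝ)) y}) '' T, hT.image _, ?_, ?_⟩
  · rintro _ ⟨t, ht, rfl⟩
    exact IsPoly.clip (IsPoly.clip (hp t ht).1 (EuclideanSpace.single (0 : Fin 2) (1 : ℝ),
      a.x k - (a.cc + 3 * a.W))) (-EuclideanSpace.single (0 : Fin 2) (1 : ℝ),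
      -(a.x k + (a.cc + 3 * a.W)))
  · ext z
    simp only [bead, mem_ofPred_eq, mem_sUnion, mem_image, exists_exists_and_eq_and,
      mem_inter_iff, inner_neg_left, th_single]
    rw [hQ, mem_sUnion]
    constructor
    · rintro ⟨⟨t, ht, hz⟩, h⟩
      have h1 := abs_le.1 h
      exact ⟨t, ht, ⟨hz, by linarith [h1.1]⟩, by linarith [h1.2]⟩
    · rintro ⟨t, ht, ⟨hz, h1⟩, h2⟩
      exact ⟨⟨t, ht, hz⟩, abs_le.2 ⟨by linarith, by linarith⟩⟩

theorem yp_bead (ha : IsAsm S a) {k : ℕ} (hk : k < c.m) :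
    a.bead k ⊆ closure (interior (a.bead k ∪ (a.strR k ∪ a.strL k))) := by
  have hW := ha.Wpos
  have hcc := ha.ccpos
  have hYR : a.strR k ⊆ closure (interior (a.bead k ∪ (a.strR k ∪ a.strL k))) :=
    (yp_strR ha k).subset_closure_interior.trans (closure_mono (interior_mono
      (subset_union_left.trans subset_union_right)))
  have hYL : a.strL k ⊆ closure (interior (a.bead k ∪ (a.strR k ∪ a.strL k))) :=
    (yp_strL ha hk).subset_closure_interior.trans (closure_mono (interior_mono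
      (subset_union_right.trans subset_union_right)))
  rintro z ⟨hzQ, hz⟩
  rcases hz.lt_or_eq with hlt | heq
  · have h1 := ha.Qpoly.subset_closure_interior hzQ
    rw [_root_.mem_closure_iff] at h1 ⊢
    intro U hU hzU
    have hV : IsOpen {z : E2 | |z 0 - a.x k| < a.cc + 3 * a.W} :=
      isOpen_lt ((ag_c0 0).sub continuous_const).abs continuous_const
    obtain ⟨y, ⟨hyU, hyV⟩, hyQ⟩ := h1 (U ∩ {z : E2 | |z 0 - a.x k| < a.cc + 3 * a.W})
      (hU.inter hV) ⟨hzU, hlt⟩
    refine ⟨y, hyU, ?_⟩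
    rw [mem_interior]
    refine ⟨interior a.Q ∩ {z : E2 | |z 0 - a.x k| < a.cc + 3 * a.W}, ?_,
      isOpen_interior.inter hV, hyQ, hyV⟩
    rintro w ⟨hw1, hw2⟩
    exact Or.inl ⟨interior_subset hw1, le_of_lt hw2⟩
  · obtain ⟨hb1, hb2, hb3⟩ := ha.Qbox z hzQ
    rcases abs_eq (by linarith : (0 : ℝ) ≤ a.cc + 3 * a.W) |>.1 heq with h | h
    · have hkm : k + 1 < c.m := by
        by_contra hcon
        have : c.m - 1 = k := by omega
        rw [this] at hb3
        linarith
      have hg := ha.gap k hkm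
      have hstrip : |z 1 - a.c' k| ≤ a.δ :=
        (ha.Qstr k hkm z (by linarith) (by linarith)).1 hzQ
      apply hYR
      refine ⟨hkm, hstrip, by linarith, ?_⟩
      by_contra hcon
      have h1 := lt_of_ev ha hkm hstrip (Nat.zero_le _) (not_le.1 hcon).le
      have h2 := ha.posR k hkm
      linarith
    · have hk1 : 1 ≤ k := by
        by_contra hcon
        have : k = 0 := by omega
        subst this
        linarith
      obtain ⟨l, rfl⟩ : ∃ l, k = l + 1 := ⟨k - 1, by omega⟩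
      have hg := ha.gap l hk
      have hstrip : |z 1 - a.c' l| ≤ a.δ :=
        (ha.Qstr l hk z (by linarith) (by linarith)).1 hzQ
      apply hYL
      refine ⟨by omega, ?_, by linarith, ?_⟩
      · simp only [Nat.add_sub_cancel]
        exact hstrip
      · simp only [Nat.add_sub_cancel]
        by_contra hcon
        have h1 := lt_of_ev' ha hk hstrip le_rfl (not_le.1 hcon).le
        have h2 := ha.posL l hk
        linarith

theorem polySet_R (ha : IsAsm S a) {φ : ℕ × ℕ} (hφ : a.Valid φ) : PolySet (a.R φ) := by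
  obtain ⟨k, e⟩ := φ
  by_cases he : e = 0
  · subst he
    obtain ⟨T, hT, hp, hB⟩ := yp_bead_pieces ha k
    have hR : a.R (k, 0) = a.bead k ∪ (a.strR k ∪ a.strL k) := by
      unfold R
      rw [if_pos rfl, union_assoc]
    rw [hR]
    exact yp_union hT hp hB ((yp_strR ha k).union (yp_strL ha hφ.1)) (yp_bead ha hφ.1)
  · obtain ⟨hk, heM⟩ : k + 1 < c.m ∧ e ≤ a.M k := by
      rcases hφ.2 with h | h
      · exact absurd h he
      · exact h
    have h1 := (ha.thin k hk).facet e (by omega) heM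
    have hR : a.R (k, e) = (a.rt k).facet (a.H k) (a.c' k) a.δ e := by
      unfold R
      rw [if_neg (by exact he)]
    rw [hR]
    exact ⟨{(a.rt k).facet (a.H k) (a.c' k) a.δ e}, finite_singleton _, fun t ht => by
      rw [mem_singleton_iff.1 ht]; exact h1, by simp⟩

end AData

end Pool.Agent.SeamS
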