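import Pool.Agent.SeamS.AsmImg
import Pool.Agent.SeamS.Block
import Pool.Agent.SeamS.Fold
import Pool.Agent.SeamS.AsmPoly
import Pool.Agent.SeamS.Local

/-!
# Regular points of the assembled map (module G2b)

`fold_not_reg`: `G (e+1) y = G e (refl y)` for all `y`. Suppose `f` is injective on `U ∈ 𝓝 z`, `U ⊆ Q`. Take `y₁ = z + t • n`, `y₂ = z - t • n` (`t > 0` small): both in `U`, in the region of `near_IF` and in `ball (p e) η` (`IF_near`). `ev y₁ = t`, `ev y₂ = -t`. So `f y₁ = mp (nx k e) y₁ = G (e+1) y₁` (if `nx k e` is a plate: `isoL`, `GM`), `f y₂ = mp (k, e) y₂ = G e y₂`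
 (if `e = 0`: `isoR`, `G0`), and `refl y₁ = y₂`. So `f y₁ = f y₂`, contradiction.
`cross_reg`: a small neighbourhood `U` of `z`, in `{|y 1 - c'| < δ}` and in the region of `near_IF`, is contained in `Q`. Let `y₁, y₂ ∈ U`, `f y₁ = f y₂`. If `ev y₁, ev y₂ ≤ 0` both are in the facet `e` and `G e` is injective; same for `≥ 0`. If `ev y₁ < 0 < ev y₂`: near `z`, `0 < ev (e-1)` and `ev (e+1) < 0`, so `facet_img` gives `f y₁ ∈ cell (ci e)`, `f y₂ ∈ cell (ci (e+1))`;
 `ci e ≠ ci (e+1)` (definition of cross): contradiction to `disj`.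
`reg_plate`: if `z` is in another block then by `overlap` `z ∈ IF k' e` with `e = 0` or `e = M k'`: contradiction to `fold_not_reg`. So near `z` all points of `Q` are in `R (k, 0)` only, and `f = T ∘ FW ∘ shift` there, so `FW (w k)` is injective near `z - ctr k`, and maps a neighbourhood to a neighbourhood (`Reg.image_mem_nhds`, with `X` the translated block, `Pieced` from `FW_foldOn`); the image is
 contained in `Hull` (`img_plate`), so `FW (w k) (z - ctr k)` is in the interior of the hull, i.e. in the open half planes.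
`inj_near`: facets: `G e` is injective. Plates: `e = 0` or `e = M`; `V = ball (ep k e) η`, on it `FW` is an isometry.
`finite_corner`: an event line is not horizontal (`IsRoute.dir`), it has only two points with `|z 1 - c'| = δ`.
-/

namespace Pool.Agent.SeamS

open Set Filter Topology Metric Pool.Agent.Hhelper79.Seam

namespace AData

variable {S : Set E3} {c : CData} {a : AData c}

theorem ar_left (ha : IsAsm S a) {k e : ℕ} (hk : k + 1 < c.m) (he : e ≤ a.M k) {y : E2}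
    (hy : y ∈ a.R (k, e)) (hb : y ∈ ball (a.ep k e) a.η) : a.f y = (a.rt k).G e y := by
  have hv : a.Valid (k, e) := (valid_nx ha hk he).1
  rw [f_eq ha hv hy]
  by_cases h0 : e = 0
  · subst h0
    simp only [mp, if_true]
    rw [(ha.isoR k hk y hb).1, ha.G0 k hk]
  · simp only [mp, if_neg h0]

theorem ar_right (ha : IsAsm S a) {k e : ℕ} (hk : k + 1 < c.m) (he : e ≤ a.M k) {y : E2}
    (hy : y ∈ a.R (a.nx k e)) (hb : y ∈ ball (a.ep k e) a.η) :
    a.f y = (a.rt k).G (e + 1) y := by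
  have hv := (valid_nx ha hk he).2.1
  rw [f_eq ha hv hy]
  by_cases h0 : e = a.M k
  · subst h0
    simp only [nx, if_true, mp]
    rw [(ha.isoL k hk y hb).1, ha.GM k hk]
  · simp [nx, h0, mp]

theorem ar_cont (a : AData c) (k e : ℕ) : Continuous (a.ev k e) := by
  unfold ev RData.val
  fun_prop

theorem ar_ev_add (a : AData c) (k e : ℕ) (z : E2) (t : ℝ) (h : ‖(a.rt k).n e‖ = 1) :
    a.ev k e (z + t • (a.rt k).n e) = a.ev k e z + t := by
  have hnn : inner ℝ ((a.rt k).n e) ((a.rt k).n e) = (1 : ℝ) := by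
    rw [real_inner_self_eq_norm_sq, h]
    norm_num
  unfold ev RData.val
  rw [show z + t • (a.rt k).n e - (a.rt k).p (a.H k) e =
    (z - (a.rt k).p (a.H k) e) + t • (a.rt k).n e by abel, inner_add_right, inner_smul_right, hnn,
    mul_one]

theorem fold_not_reg (ha : IsAsm S a) {k e : ℕ} (hk : k + 1 < c.m) (he : e ≤ a.M k)
    (hC : ¬ a.Cross k e) {z : E2} (hz : z ∈ a.IF k e) : ¬ Reg a.Q a.f z := by
  rintro ⟨U, hU, hUQ, hinj⟩
  have hnorm : ‖(a.rt k).n e‖ = 1 := (ha.route k hk).unit e he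
  have hfold : (a.rt k).IsFold (a.H k) e := by
    by_cases h0 : e = 0
    · subst h0
      exact (ha.route k hk).startFold
    · by_cases hM : e = a.M k
      · rw [hM]
        exact (ha.route k hk).endFold
      · have h1 : 1 ≤ e := by omega
        have h2 : e < (a.rt k).M := lt_of_le_of_ne he hM
        rcases (ha.route k hk).event e h1 h2 with h | h | h
        · exact h.2.2.1
        · exact h.2.1
        · exact absurd ⟨h1, h2, h⟩ hC
  have hev := (Filter.eventually_mem_set.2 hU).and ((near_IF ha hk he hz).and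
    (Filter.eventually_mem_set.2 (isOpen_ball.mem_nhds (IF_near ha hk he hz))))
  have hc1 : Tendsto (fun t : ℝ => z + t • (a.rt k).n e) (𝓝[>] 0) (𝓝 z) := by
    have h1 : Continuous fun t : ℝ => z + t • (a.rt k).n e := by fun_prop
    have h2 := h1.tendsto 0
    rw [zero_smul, add_zero] at h2
    exact h2.mono_left nhdsWithin_le_nhds
  have hc2 : Tendsto (fun t : ℝ => z + (-t) • (a.rt k).n e) (𝓝[>] 0) (𝓝 z) := by
    have h1 : Continuous fun t : ℝ => z + (-t) • (a.rt k).n e := by fun_prop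
    have h2 := h1.tendsto 0
    rw [neg_zero, zero_smul, add_zero] at h2
    exact h2.mono_left nhdsWithin_le_nhds
  obtain ⟨t, ⟨⟨h1U, h1N, h1b⟩, ⟨h2U, h2N, h2b⟩⟩, ht⟩ :=
    (((hc1.eventually hev).and (hc2.eventually hev)).and self_mem_nhdsWithin).exists
  have ht0 : 0 < t := ht
  have e0 : a.ev k e z = 0 := hz.2
  have e1 : a.ev k e (z + t • (a.rt k).n e) = t := by
    rw [ar_ev_add a k e z t hnorm, e0, zero_add]
  have e2 : a.ev k e (z + (-t) • (a.rt k).n e) = -t := by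
    rw [ar_ev_add a k e z (-t) hnorm, e0, zero_add]
  have g1 := ar_right ha hk he (((h1N.2.1 (hUQ h1U)).2).2 (by rw [e1]; exact ht0.le)) h1b
  have g2 := ar_left ha hk he (((h2N.2.1 (hUQ h2U)).1).2 (by rw [e2]; linarith)) h2b
  have hr : refl ((a.rt k).n e, inner ℝ ((a.rt k).n e) ((a.rt k).p (a.H k) e))
      (z + t • (a.rt k).n e) = z + (-t) • (a.rt k).n e := by
    have h3 : inner ℝ ((a.rt k).n e) (z + t • (a.rt k).n e) -
        inner ℝ ((a.rt k).n e) ((a.rt k).p (a.H k) e) = t := by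
      rw [← inner_sub_right]
      exact e1
    unfold refl
    simp only
    rw [h3, two_mul, add_smul, neg_smul]
    abel
  have g3 : a.f (z + t • (a.rt k).n e) = a.f (z + (-t) • (a.rt k).n e) := by
    rw [g1, g2, hfold, hr]
  have g4 := hinj h1U h2U g3
  have g5 := congrArg (a.ev k e) g4
  rw [e1, e2] at g5
  linarith

theorem cross_reg (ha : IsAsm S a) {k e : ℕ} (hk : k + 1 < c.m) (hC : a.Cross k e) {z : E2}
    (hz : z ∈ a.IF k e) (hz' : |z 1 - a.c' k| < a.δ) : Reg a.Q a.f z := by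
  obtain ⟨he1, heM, hci, -⟩ := hC
  have he : e ≤ a.M k := heM.le
  have hst : |z 1 - a.c' k| ≤ a.δ := hz'.le
  have hm1 : 0 < a.ev k (e - 1) z := ev_pos ha hk hst (by omega) he hz.2.ge
  have hp1 : a.ev k (e + 1) z < 0 := ev_neg ha hk hst (by omega) heM hz.2.le
  have hU : ∀ᶠ y in 𝓝 z, ((y ∈ a.Q ↔ |y 1 - a.c' k| ≤ a.δ) ∧
      (y ∈ a.Q → (y ∈ a.R (k, e) ↔ a.ev k e y ≤ 0) ∧ (y ∈ a.R (a.nx k e) ↔ 0 ≤ a.ev k e y)) ∧
      (∀ φ, a.Valid φ → y ∈ a.R φ → φ = (k, e) ∨ φ = a.nx k e)) ∧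
      (|y 1 - a.c' k| < a.δ ∧ (0 < a.ev k (e - 1) y ∧ a.ev k (e + 1) y < 0)) := by
    have h1 : Continuous fun y : E2 => |y 1 - a.c' k| := by fun_prop
    exact (near_IF ha hk he hz).and (((h1.tendsto z).eventually (gt_mem_nhds hz')).and
      ((((ar_cont a k (e - 1)).tendsto z).eventually (lt_mem_nhds hm1)).and
        (((ar_cont a k (e + 1)).tendsto z).eventually (gt_mem_nhds hp1))))
  have hnx : a.nx k e = (k, e + 1) := by simp [nx, heM.ne]
  have hv := valid_nx ha hk he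
  have hv2 : a.Valid (k, e + 1) := hnx ▸ hv.2.1
  have hL : ∀ y, y ∈ a.R (k, e) → a.f y = (a.rt k).G e y := by
    intro y hy
    rw [f_eq ha hv.1 hy]
    simp only [mp, if_neg (show ¬ e = 0 by omega)]
  have hR : ∀ y, y ∈ a.R (k, e + 1) → a.f y = (a.rt k).G (e + 1) y := by
    intro y hy
    rw [f_eq ha hv2 hy]
    simp only [mp, if_neg (show ¬ e + 1 = 0 by omega)]
  refine ⟨_, hU, fun y hy => (hy.1.1).2 hy.2.1.le, ?_⟩
  have key : ∀ y₁ y₂ : E2, (((y₁ ∈ a.Q ↔ |y₁ 1 - a.c' k| ≤ a.δ) ∧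
      (y₁ ∈ a.Q → (y₁ ∈ a.R (k, e) ↔ a.ev k e y₁ ≤ 0) ∧
        (y₁ ∈ a.R (a.nx k e) ↔ 0 ≤ a.ev k e y₁)) ∧
      (∀ φ, a.Valid φ → y₁ ∈ a.R φ → φ = (k, e) ∨ φ = a.nx k e)) ∧
      (|y₁ 1 - a.c' k| < a.δ ∧ (0 < a.ev k (e - 1) y₁ ∧ a.ev k (e + 1) y₁ < 0))) →
      (((y₂ ∈ a.Q ↔ |y₂ 1 - a.c' k| ≤ a.δ) ∧
      (y₂ ∈ a.Q → (y₂ ∈ a.R (k, e) ↔ a.ev k e y₂ ≤ 0) ∧
        (y₂ ∈ a.R (a.nx k e) ↔ 0 ≤ a.ev k e y₂)) ∧
      (∀ φ, a.Valid φ → y₂ ∈ a.R φ → φ = (k, e) ∨ φ = a.nx k e)) ∧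
      (|y₂ 1 - a.c' k| < a.δ ∧ (0 < a.ev k (e - 1) y₂ ∧ a.ev k (e + 1) y₂ < 0))) →
      a.f y₁ = a.f y₂ → a.ev k e y₁ < 0 → 0 < a.ev k e y₂ → False := by
    intro y₁ y₂ h1 h2 hf hn hp
    have q1 : y₁ ∈ a.Q := (h1.1.1).2 h1.2.1.le
    have q2 : y₂ ∈ a.Q := (h2.1.1).2 h2.2.1.le
    have r1 : y₁ ∈ a.R (k, e) := ((h1.1.2.1 q1).1).2 hn.le
    have r2 : y₂ ∈ a.R (k, e + 1) := hnx ▸ ((h2.1.2.1 q2).2).2 hp.le
    have i1 := facet_img ha hv.1 (by omega) r1
    have i2 := facet_img ha hv2 (by omega) r2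
    have c1 : a.f y₁ ∈ c.cell (a.ci (k, e)) := by
      rcases i1.2 with h | ⟨e', he', hIF, -⟩
      · exact h
      · exfalso
        rcases he' with he' | he'
        · have : e' = e - 1 := by omega
          subst this
          exact absurd hIF.2 h1.2.2.1.ne'
        · subst he'
          exact absurd hIF.2 hn.ne
    have c2 : a.f y₂ ∈ c.cell (a.ci (k, e + 1)) := by
      rcases i2.2 with h | ⟨e', he', hIF, -⟩
      · exact h
      · exfalso
        rcases he' with he' | he'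
        · have : e' = e := by omega
          subst this
          exact absurd hIF.2 hp.ne'
        · subst he'
          exact absurd hIF.2 h2.2.2.2.ne
    have hd := ha.cx.disj (a.ci (k, e)) (a.ci (k, e + 1)) hci
    refine Set.disjoint_left.1 hd c1 ?_
    rw [hf]
    exact i2.1
  intro y₁ h1 y₂ h2 hf
  have q1 : y₁ ∈ a.Q := (h1.1.1).2 h1.2.1.le
  have q2 : y₂ ∈ a.Q := (h2.1.1).2 h2.2.1.le
  rcases lt_trichotomy (a.ev k e y₁) 0 with s1 | s1 | s1 <;>
    rcases lt_trichotomy (a.ev k e y₂) 0 with s2 | s2 | s2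
  · rw [hL y₁ (((h1.1.2.1 q1).1).2 s1.le), hL y₂ (((h2.1.2.1 q2).1).2 s2.le)] at hf
    exact ((a.rt k).G e).injective hf
  · rw [hL y₁ (((h1.1.2.1 q1).1).2 s1.le), hL y₂ (((h2.1.2.1 q2).1).2 s2.le)] at hf
    exact ((a.rt k).G e).injective hf
  · exact (key y₁ y₂ h1 h2 hf s1 s2).elim
  · rw [hL y₁ (((h1.1.2.1 q1).1).2 s1.le), hL y₂ (((h2.1.2.1 q2).1).2 s2.le)] at hf
    exact ((a.rt k).G e).injective hf
  · rw [hL y₁ (((h1.1.2.1 q1).1).2 s1.le), hL y₂ (((h2.1.2.1 q2).1).2 s2.le)] at hf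
    exact ((a.rt k).G e).injective hf
  · rw [hR y₁ (hnx ▸ ((h1.1.2.1 q1).2).2 s1.ge), hR y₂ (hnx ▸ ((h2.1.2.1 q2).2).2 s2.le)] at hf
    exact ((a.rt k).G (e + 1)).injective hf
  · exact (key y₂ y₁ h2 h1 hf.symm s2 s1).elim
  · rw [hR y₁ (hnx ▸ ((h1.1.2.1 q1).2).2 s1.le), hR y₂ (hnx ▸ ((h2.1.2.1 q2).2).2 s2.ge)] at hf
    exact ((a.rt k).G (e + 1)).injective hf
  · rw [hR y₁ (hnx ▸ ((h1.1.2.1 q1).2).2 s1.le), hR y₂ (hnx ▸ ((h2.1.2.1 q2).2).2 s2.le)] at hf
    exact ((a.rt k).G (e + 1)).injective hf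

theorem reg_plate (ha : IsAsm S a) {k : ℕ} (hk : k < c.m) {z : E2} (hz : z ∈ a.R (k, 0))
    (hr : Reg a.Q a.f z) : (∀ φ, a.Valid φ → z ∈ a.R φ → φ = (k, 0)) ∧
      FW (a.w k) (z - a.ctr k) ∈ c.OHull (a.pk k) ∧ a.f z ∈ c.CI (a.pk k) := by
  have hv : a.Valid (k, 0) := ⟨hk, Or.inl rfl⟩
  have h1 : ∀ φ, a.Valid φ → z ∈ a.R φ → φ = (k, 0) := by
    intro φ hφ hzφ
    by_contra hne
    obtain ⟨k', e, hk', he, hIF, h⟩ := overlap ha hφ hv hne hzφ hz
    refine fold_not_reg ha hk' he ?_ hIF hr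
    rintro ⟨c1, c2, -⟩
    rcases h with h | h
    · have h2 := h.2
      simp only [nx, if_neg c2.ne, Prod.mk.injEq] at h2
      omega
    · have h2 := h.1
      simp only [Prod.mk.injEq] at h2
      omega
  have himg := img_plate' ha hk hz
  have hO : FW (a.w k) (z - a.ctr k) ∈ c.OHull (a.pk k) := by
    have hfin := a.finite_idx
    have hnear := block_near (R := fun φ : a.Idx => a.R φ.1) (fun φ => isClosed_R ha φ.1) z
    obtain ⟨U, hU, hUQ, hinj⟩ := hr
    have hV : interior (U ∩ {y | ∀ φ : a.Idx, y ∈ a.R φ.1 → z ∈ a.R φ.1}) ∈ 𝓝 z :=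
      interior_mem_nhds.2 (inter_mem hU hnear)
    have hsub : ∀ y ∈ interior (U ∩ {y | ∀ φ : a.Idx, y ∈ a.R φ.1 → z ∈ a.R φ.1}),
        y ∈ U ∧ y ∈ a.R (k, 0) := by
      intro y hy
      have hy' := interior_subset hy
      refine ⟨hy'.1, ?_⟩
      have hyQ := hUQ hy'.1
      rw [iUnion_R ha] at hyQ
      obtain ⟨φ, hφ⟩ := mem_iUnion.1 hyQ
      have := h1 φ.1 φ.2 (hy'.2 φ hφ)
      rw [← this]
      exact hφ
    set V := interior (U ∩ {y | ∀ φ : a.Idx, y ∈ a.R φ.1 → z ∈ a.R φ.1}) with hVdef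
    have hVo : IsOpen V := isOpen_interior
    have hWo : IsOpen {u : E2 | u + a.ctr k ∈ V} :=
      hVo.preimage (by fun_prop : Continuous fun u : E2 => u + a.ctr k)
    have hunit : ∀ l ∈ a.w k, ‖l.1‖ = 1 := fun l hl => ha.cx.unit _ l (ha.wmem k hk l hl)
    have hopen := Pool.Lib.invariance_of_domain hWo (f := FW (a.w k))
      (FW_continuous hunit).continuousOn (by
        intro u hu v hv huv
        have hu' := hsub _ hu
        have hv' := hsub _ hv
        have h3 : a.f (u + a.ctr k) = a.f (v + a.ctr k) := by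
          rw [(img_plate' ha hk hu'.2).1, (img_plate' ha hk hv'.2).1, add_sub_cancel_right,
            add_sub_cancel_right, huv]
        exact add_right_cancel (hinj hu'.1 hv'.1 h3))
    have hmem : FW (a.w k) (z - a.ctr k) ∈ FW (a.w k) '' {u : E2 | u + a.ctr k ∈ V} := by
      refine mem_image_of_mem _ ?_
      show z - a.ctr k + a.ctr k ∈ V
      rw [sub_add_cancel]
      exact mem_of_mem_nhds hV
    have hH : FW (a.w k) '' {u : E2 | u + a.ctr k ∈ V} ⊆ Hull (c.Λ (a.pk k)) := by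
      rintro _ ⟨u, hu, rfl⟩
      have h3 := img_plate ha hk (hsub _ hu).2
      rwa [add_sub_cancel_right] at h3
    intro l hl
    have hl1 := ha.cx.unit _ l hl
    have hnhds := hopen.mem_nhds hmem
    have hc2 : Tendsto (fun t : ℝ => FW (a.w k) (z - a.ctr k) + (-t) • l.1) (𝓝[>] 0)
        (𝓝 (FW (a.w k) (z - a.ctr k))) := by
      have h1 : Continuous fun t : ℝ => FW (a.w k) (z - a.ctr k) + (-t) • l.1 := by fun_prop
      have h2 := h1.tendsto 0
      rw [neg_zero, zero_smul, add_zero] at h2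
      exact h2.mono_left nhdsWithin_le_nhds
    obtain ⟨t, ht1, ht2⟩ := ((hc2.eventually (Filter.eventually_mem_set.2 hnhds)).and
      self_mem_nhdsWithin).exists
    have ht0 : 0 < t := ht2
    have h5 := hH ht1 l hl
    rw [inner_add_right, inner_smul_right, real_inner_self_eq_norm_sq, hl1] at h5
    linarith
  refine ⟨h1, hO, ?_⟩
  rw [himg.1]
  exact mem_image_of_mem _ hO

theorem inj_near (ha : IsAsm S a) {k e : ℕ} (hk : k + 1 < c.m) (he : e ≤ a.M k) {z : E2}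
    (hz : z ∈ a.IF k e) {φ : ℕ × ℕ} (hφ : φ = (k, e) ∨ φ = a.nx k e) :
    ∃ V ∈ 𝓝 z, InjOn a.f (V ∩ a.R φ) := by
  refine ⟨ball (a.ep k e) a.η, isOpen_ball.mem_nhds (IF_near ha hk he hz), ?_⟩
  rcases hφ with rfl | rfl
  · rintro y ⟨hy, hyR⟩ y' ⟨hy', hyR'⟩ hf
    rw [ar_left ha hk he hyR hy, ar_left ha hk he hyR' hy'] at hf
    exact ((a.rt k).G e).injective hf
  · rintro y ⟨hy, hyR⟩ y' ⟨hy', hyR'⟩ hf
    rw [ar_right ha hk he hyR hy, ar_right ha hk he hyR' hy'] at hf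
    exact ((a.rt k).G (e + 1)).injective hf

theorem finite_corner (ha : IsAsm S a) :
    {z | ∃ k e, k + 1 < c.m ∧ e ≤ a.M k ∧ z ∈ a.IF k e ∧ |z 1 - a.c' k| = a.δ}.Finite := by
  have hsub : {z | ∃ k e, k + 1 < c.m ∧ e ≤ a.M k ∧ z ∈ a.IF k e ∧ |z 1 - a.c' k| = a.δ} ⊆
      ⋃ k ∈ {k | k + 1 < c.m}, ⋃ e ∈ {e | e ≤ a.M k},
        {z | z ∈ a.IF k e ∧ |z 1 - a.c' k| = a.δ} := by
    rintro z ⟨k, e, hk, he, h1, h2⟩
    exact mem_iUnion₂.2 ⟨k, hk, mem_iUnion₂.2 ⟨e, he, h1, h2⟩⟩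
  refine Set.Finite.subset ?_ hsub
  refine Set.Finite.biUnion ((finite_Iio c.m).subset fun k hk => ?_) fun k hk =>
    Set.Finite.biUnion (finite_Iic (a.M k)) fun e he => ?_
  · simp only [mem_setOf_eq] at hk
    rw [mem_Iio]
    omega
  · have hk' : k + 1 < c.m := hk
    have hd := (ha.route k hk').dir e he
    refine Set.Finite.of_finite_image (f := fun z : E2 => z 1)
      (((finite_singleton (a.c' k + a.δ)).insert (a.c' k - a.δ)).subset ?_) ?_
    · rintro _ ⟨z, ⟨-, hz⟩, rfl⟩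
      rcases abs_eq ha.δpos.le |>.1 hz with h | h
      · right
        rw [mem_singleton_iff]
        linarith
      · left
        show z 1 = _
        linarith
    · rintro z ⟨hz, -⟩ z' ⟨hz', -⟩ h
      have h1 : a.ev k e z = 0 := hz.2
      have h2 : a.ev k e z' = 0 := hz'.2
      have h3 : z 1 = z' 1 := h
      have h4 : inner ℝ ((a.rt k).n e) (z - z') = (0 : ℝ) := by
        have : z - z' = (z - (a.rt k).p (a.H k) e) - (z' - (a.rt k).p (a.H k) e) := by abel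
        rw [this, inner_sub_right]
        unfold ev RData.val at h1 h2
        rw [h1, h2, sub_zero]
      have h5 : z - z' = (z 0 - z' 0) • e1 := by
        ext i
        fin_cases i
        · simp [e1]
        · simp [e1, h3]
      rw [h5, inner_smul_right] at h4
      have h6 : z 0 - z' 0 = 0 := by
        rcases mul_eq_zero.1 h4 with h | h
        · exact h
        · exact absurd h hd.ne'
      rw [h6, zero_smul] at h5
      exact sub_eq_zero.1 h5

end AData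

end Pool.Agent.SeamS
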