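import Pool.Agent.SeamS.AsmPlate
import Pool.Agent.SeamS.Block

/-!
# Signs of the assembled map (module G6)

Proof of `exists_signOn`. Choose truth values `σ k` (`k < m`, for the plates) and `τ k e` (`1 ≤ e ≤ M k`, for the facets) recursively along the paper: `σ 0 = True`;
 `τ k 1 ↔ ¬ (posW (w k) (ep k 0 - ctr k) ↔ σ k)`; `τ k (e + 1) ↔ τ k e` if `Cross k e`, `τ k (e + 1) ↔ ¬ τ k e` otherwise; `(posW (w (k+1)) (ep k M - ctr (k+1)) ↔ σ (k+1)) ↔ ¬ τ k M`.
Put `pos (k, 0) z = (posW (w k) (z - ctr k) ↔ σ k)`, `pos (k, e) z = τ k e` for `e ≠ 0`. `SignOn (R φ) f (pos φ)`: plates: `signOn_plate`, possibly with `SignOn.not`; facets: `f` is injective: `SignOn.of_injOn`, possibly `SignOn.not`.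
Apply `SignOn.of_blocks` (with the index type `a.Idx`): `hreg`: a regular interface point is in `IF k e` with `Cross k e` (`overlap`, `fold_not_reg`), both blocks are facets, `c = τ k e`. `hfold`: `E` = the finite set of `finite_corner`. Let `z ∈ IF k e`, `z ∉ E`, not regular. Then `Cross k e` is false (`cross_reg`). Near `z` (`near_IF`, the ball `ball (ep k e) η ∋ z` by `IF_near`): a regular `q` is not in both blocks (it would be in
`IF k e`, `fold_not_reg`); `pos (k, e) q ↔ c` and `pos (nx k e) q ↔ ¬ c` with `c = τ k e` if `1 ≤ e`, and `c = (posW (w k) (ep k 0 - ctr k) ↔ σ k)` if `e = 0` (`isoR`); at `e = M` the sign of `nx k e = (k + 1, 0)` near `z` is `posW (w (k+1)) (ep k M - ctr (k+1)) ↔ σ (k+1)` (`isoL`).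
-/

namespace Pool.Agent.SeamS

open Set Filter Topology Metric Pool.Agent.Hhelper79.Seam

namespace AData

variable {S : Set E3} {c : CData} {a : AData c}

/-- signs along the route `k`, `s` the sign of the plate `k` -/
def sgT (a : AData c) (k : ℕ) (s : Prop) : ℕ → Prop
  | 0 => (posW (a.w k) (a.ep k 0 - a.ctr k) ↔ s)
  | (e + 1) => (sgT a k s e ↔ a.Cross k e)

/-- signs of the plates -/
def sgS (a : AData c) : ℕ → Prop
  | 0 => True
  | (k + 1) => (posW (a.w (k + 1)) (a.ep k (a.M k) - a.ctr (k + 1)) ↔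
      sgT a k (sgS a k) (a.M k + 1))

/-- signs of the blocks -/
def sgP (a : AData c) (φ : ℕ × ℕ) (z : E2) : Prop :=
  (φ.2 = 0 ∧ (posW (a.w φ.1) (z - a.ctr φ.1) ↔ sgS a φ.1)) ∨
    (φ.2 ≠ 0 ∧ sgT a φ.1 (sgS a φ.1) φ.2)

theorem sg_left (ha : IsAsm S a) {k e : ℕ} (hk : k + 1 < c.m) {y : E2}
    (hy : y ∈ ball (a.ep k e) a.η) : sgP a (k, e) y ↔ sgT a k (sgS a k) e := by
  unfold sgP
  by_cases h0 : e = 0
  · subst h0
    have h1 := (ha.isoR k hk y hy).2
    simp only [true_and, ne_eq, not_true_eq_false, false_and, or_false, sgT]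
    rw [h1]
  · simp only [h0, false_and, ne_eq, not_false_eq_true, true_and, false_or]

theorem sg_right (ha : IsAsm S a) {k e : ℕ} (hk : k + 1 < c.m) {y : E2}
    (hy : y ∈ ball (a.ep k e) a.η) : sgP a (a.nx k e) y ↔ sgT a k (sgS a k) (e + 1) := by
  unfold sgP
  by_cases h0 : e = a.M k
  · subst h0
    have h1 := (ha.isoL k hk y hy).2
    have h2 : a.nx k (a.M k) = (k + 1, 0) := by simp [nx]
    rw [h2]
    simp only [true_and, ne_eq, not_true_eq_false, false_and, or_false]
    rw [h1]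
    rw [show sgS a (k + 1) = (posW (a.w (k + 1)) (a.ep k (a.M k) - a.ctr (k + 1)) ↔
      sgT a k (sgS a k) (a.M k + 1)) from rfl]
    tauto
  · have h2 : a.nx k e = (k, e + 1) := by simp [nx, h0]
    rw [h2]
    simp only [Nat.succ_ne_zero, false_and, ne_eq, not_false_eq_true, true_and, false_or]

theorem sg_congr {X : Set E2} {f : E2 → E3} {pos pos' : E2 → Prop} (h : SignOn X f pos)
    (hp : ∀ x, pos' x ↔ pos x) : SignOn X f pos' := by
  have : pos' = pos := funext fun x => propext (hp x)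
  rw [this]
  exact h

theorem sg_block (ha : IsAsm S a) {φ : ℕ × ℕ} (hφ : a.Valid φ) :
    SignOn (a.R φ) a.f (sgP a φ) := by
  obtain ⟨k, e⟩ := φ
  by_cases h0 : e = 0
  · subst h0
    have h1 := signOn_plate ha hφ.1
    by_cases hs : sgS a k
    · refine sg_congr h1 fun x => ?_
      simp only [sgP, true_and, ne_eq, not_true_eq_false, false_and, or_false]
      tauto
    · refine sg_congr h1.not fun x => ?_
      simp only [sgP, true_and, ne_eq, not_true_eq_false, false_and, or_false]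
      tauto
  · have hinj : InjOn a.f (a.R (k, e)) := by
      intro y hy y' hy' hf
      rw [f_eq ha hφ hy, f_eq ha hφ hy'] at hf
      simp only [mp, if_neg h0] at hf
      exact ((a.rt k).G e).injective hf
    by_cases hs : sgT a k (sgS a k) e
    · refine sg_congr (SignOn.of_injOn hinj) fun x => ?_
      simp only [sgP, h0, false_and, ne_eq, not_false_eq_true, true_and, false_or]
      tauto
    · refine sg_congr (SignOn.of_injOn hinj).not fun x => ?_
      simp only [sgP, h0, false_and, ne_eq, not_false_eq_true, true_and, false_or]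
      tauto

theorem exists_signOn (ha : IsAsm S a) : ∃ pos : E2 → Prop, SignOn a.Q a.f pos := by
  have : Finite a.Idx := a.finite_idx
  refine ⟨_, SignOn.of_blocks (R := fun φ : a.Idx => a.R φ.1)
    (pos := fun φ : a.Idx => sgP a φ.1) (iUnion_R ha) (fun φ => isClosed_R ha φ.1)
    (fun φ => sg_block ha φ.2) ?_ ?_ ?_ ?_⟩
  · intro i j k hij hjk hik
    exact three ha i.2 j.2 k.2 (fun h => hij (Subtype.ext h)) (fun h => hjk (Subtype.ext h))
      (fun h => hik (Subtype.ext h))
  · rintro i j hij z ⟨hzi, hzj⟩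
    obtain ⟨k, e, hk, he, hIF, h⟩ := overlap ha i.2 j.2 (fun h => hij (Subtype.ext h)) hzi hzj
    refine inj_near ha hk he hIF ?_
    rcases h with h | h
    · exact Or.inl h.1
    · exact Or.inr h.2
  · rintro i j hij z ⟨hzi, hzj⟩ hr
    obtain ⟨k, e, hk, he, hIF, h⟩ := overlap ha i.2 j.2 (fun h => hij (Subtype.ext h)) hzi hzj
    have hC : a.Cross k e := by
      by_contra hC
      exact fold_not_reg ha hk he hC hIF hr
    refine ⟨sgT a k (sgS a k) e, ?_⟩
    filter_upwards [isOpen_ball.mem_nhds (IF_near ha hk he hIF)] with q hq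
    have h1 := sg_left ha hk hq
    have h2 : sgP a (a.nx k e) q ↔ sgT a k (sgS a k) e := by
      rw [sg_right ha hk hq]
      show (sgT a k (sgS a k) e ↔ a.Cross k e) ↔ _
      tauto
    rcases h with h | h
    · rw [h.1, h.2]
      exact ⟨fun _ => h1, fun _ => h2⟩
    · rw [h.1, h.2]
      exact ⟨fun _ => h2, fun _ => h1⟩
  · refine ⟨_, finite_corner ha, ?_⟩
    rintro i j hij z ⟨hzi, hzj⟩ hzE hr
    obtain ⟨k, e, hk, he, hIF, h⟩ := overlap ha i.2 j.2 (fun h => hij (Subtype.ext h)) hzi hzj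
    have hlt : |z 1 - a.c' k| < a.δ := by
      refine lt_of_le_of_ne hIF.1 fun h => hzE ?_
      exact ⟨k, e, hk, he, hIF, h⟩
    have hC : ¬ a.Cross k e := fun hC => hr (cross_reg ha hk hC hIF hlt)
    have hnot : ∀ᶠ q in 𝓝 z, Reg a.Q a.f q → ¬ (q ∈ a.R (k, e) ∧ q ∈ a.R (a.nx k e)) := by
      filter_upwards [near_IF ha hk he hIF] with q hq hrq hboth
      have hqQ : q ∈ a.Q := block_mem_of_reg hrq
      have h1 := ((hq.2.1 hqQ).1).1 hboth.1
      have h2 := ((hq.2.1 hqQ).2).1 hboth.2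
      exact fold_not_reg ha hk he hC ⟨hq.1.1 hqQ, le_antisymm h1 h2⟩ hrq
    rcases h with h | h
    · refine ⟨sgT a k (sgS a k) e, ?_⟩
      filter_upwards [isOpen_ball.mem_nhds (IF_near ha hk he hIF), hnot] with q hq hn hrq
      have h1 := sg_left ha hk hq
      have h2 : sgP a (a.nx k e) q ↔ ¬ sgT a k (sgS a k) e := by
        rw [sg_right ha hk hq]
        show (sgT a k (sgS a k) e ↔ a.Cross k e) ↔ _
        tauto
      rw [h.1, h.2]
      exact ⟨hn hrq, fun _ => h1, fun _ => h2⟩
    · refine ⟨¬ sgT a k (sgS a k) e, ?_⟩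
      filter_upwards [isOpen_ball.mem_nhds (IF_near ha hk he hIF), hnot] with q hq hn hrq
      have h1 := sg_left ha hk hq
      have h2 : sgP a (a.nx k e) q ↔ ¬ sgT a k (sgS a k) e := by
        rw [sg_right ha hk hq]
        show (sgT a k (sgS a k) e ↔ a.Cross k e) ↔ _
        tauto
      rw [h.1, h.2]
      exact ⟨fun hb => hn hrq ⟨hb.2, hb.1⟩, fun _ => h2, fun _ => by rw [h1, not_not]⟩

end AData

end Pool.Agent.SeamS
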