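import Pool.Agent.SeamS.AsmFold

/-!
# Image and top layer of the assembled map (module G7)

`flat_f`: near `u + ctr k` the points `z` satisfy `z - ctr k ∈ OHull ⊆ Hull`, so `|z 0 - x k| ≤ cc`, `0 ≤ z 1 ≤ W` (`plate`), `z ∈ Q` (`Qrect`), `z ∈ bead k ⊆ R (k, 0)`, and `FW (w k) (z - ctr k) = z - ctr k` (`FW_fixed'`, `wmem`), so `f z = T (z - ctr k)` (`f_eq`).
`image_f`: `⊆`: `img_plate'` and `IsComplex.sub`; `facet_img` and `cover`. `⊇`: `s ∈ ccell i` for some `i` (`cover`); `cell i ⊆ CI (top i) ⊆ CC (top i)` (`top_mem`), which is closed, so `s = T u` with `u ∈ Hull (Λ (top i))`, `top i = pk k` (`pk_surj`); the point `z = u + ctr k` is in `Q` and `f z = T (FW u) = T u = s`.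
`top_f`: let `x = u + ctr k`, `f x = T u`. `y ∈ Q` is in a block `φ`. `φ = (k, 0)`: `f y = T (FW (w k) (y - ctr k))`, so `FW (w k) (y - ctr k) = u`; `FW_fixed` with `c = u` (strictly inside all lines of `w k`) gives `upW (w k) u (y - ctr k)`. `φ = (q, 0)`, `q ≠ k`: `f y ∈ CI (pk q)` (`reg_plate`); choose a cell `i` with `f y ∈ ccell i`: `top i = pk k` (`hcell`), `mem i (pk q)` (`mem_of_CI`),
`pk q ≠ pk k`, so `low (pk q) (pk k)` (`top_top`), `B (k,0) (q,0)`. `φ = (l, e)` a facet: `f y ∈ ccell (ci φ)` (`facet_img`), so `top (ci φ) = pk k`; `mem (ci φ) (pl φ)` (`valid`), so `pk k = pl φ` or `low (pl φ) (pk k)` (`top_top`), with `top_mem`: `Abv (ci φ) (pl φ) (pk k)`: `B (k, 0) φ`.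
-/

namespace Pool.Agent.SeamS

open Set Filter Topology Metric Pool.Agent.Hhelper79.Seam

namespace AData

variable {S : Set E3} {c : CData} {a : AData c}

theorem at_isOpen_OHull (ha : IsAsm S a) (q : Fin c.m) : IsOpen (c.OHull q) := by
  have h : c.OHull q = ⋂ l ∈ c.Λ q, {y : E2 | l.2 < inner ℝ l.1 y} := by
    ext y
    simp [CData.OHull]
  rw [h]
  exact (ha.cx.finΛ q).isOpen_biInter fun l _ => isOpen_lt continuous_const (by fun_prop)

theorem at_isClosed_Hull (Λ : Set (E2 × ℝ)) : IsClosed (Hull Λ) := by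
  have h : Hull Λ = ⋂ l ∈ Λ, {y : E2 | l.2 ≤ inner ℝ l.1 y} := by
    ext y
    simp [Hull]
  rw [h]
  exact isClosed_biInter fun l _ => isClosed_le continuous_const (by fun_prop)

theorem at_OHull_sub (q : Fin c.m) {u : E2} (hu : u ∈ c.OHull q) : u ∈ Hull (c.Λ q) :=
  fun l hl => (hu l hl).le

/-- the points of the paper over the interior of the plate polygon -/
theorem at_base (ha : IsAsm S a) {k : ℕ} (hk : k < c.m) {v : E2}
    (hv : v ∈ Hull (c.Λ (a.pk k))) : v + a.ctr k ∈ a.Q ∧ |(v + a.ctr k) 0 - a.x k| ≤ a.cc ∧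
      v + a.ctr k ∈ a.R (k, 0) ∧ a.f (v + a.ctr k) = c.T (a.pk k) v := by
  obtain ⟨h1, h2, h3⟩ := ha.plate k hk v hv
  have e0 : (v + a.ctr k) 0 = v 0 + a.x k := by simp [ctr, pt]
  have e1 : (v + a.ctr k) 1 = v 1 + a.y k := by simp [ctr, pt]
  have h4 : |(v + a.ctr k) 0 - a.x k| ≤ a.cc := by
    rw [e0, add_sub_cancel_right]
    exact h1
  have h5 : v + a.ctr k ∈ a.Q := ha.Qrect k hk _ h4 (by rw [e1]; exact ⟨h2, h3⟩)
  have hW := ha.Wpos
  have h6 : v + a.ctr k ∈ a.R (k, 0) := by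
    have h7 : v + a.ctr k ∈ a.bead k ∪ a.strR k ∪ a.strL k :=
      Or.inl (Or.inl ⟨h5, by linarith⟩)
    simpa only [R, if_true] using h7
  refine ⟨h5, h4, h6, ?_⟩
  rw [(img_plate' ha hk h6).1, add_sub_cancel_right,
    FW_fixed' fun l hl => hv l (ha.wmem k hk l hl)]

theorem at_closed_CC (q : Fin c.m) : IsClosed (c.CC q) :=
  (c.T q).isometry.isClosedEmbedding.isClosedMap _ (at_isClosed_Hull _)

theorem at_ccell_sub (ha : IsAsm S a) {i : Fin c.N} {q : Fin c.m} (h : c.mem i q) :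
    c.ccell i ⊆ c.CC q := by
  have h1 : c.cell i ⊆ c.CC q := h.trans (image_mono fun u hu => at_OHull_sub q hu)
  have h2 : c.ccell i ⊆ closure (c.cell i) :=
    image_closure_subset_closure_image (c.g i).continuous
  exact h2.trans ((at_closed_CC q).closure_subset_iff.2 h1)

theorem flat_f (ha : IsAsm S a) {k : ℕ} (hk : k < c.m) {u : E2} (hu : u ∈ c.OHull (a.pk k)) :
    ∀ᶠ z in 𝓝 (u + a.ctr k), z ∈ a.Q ∧ |z 0 - a.x k| ≤ a.cc ∧
      a.f z = c.T (a.pk k) (z - a.ctr k) := by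
  have hc : Continuous fun z : E2 => z - a.ctr k := by fun_prop
  have h1 : (fun z : E2 => z - a.ctr k) (u + a.ctr k) ∈ c.OHull (a.pk k) := by
    simpa only [add_sub_cancel_right] using hu
  filter_upwards [hc.continuousAt.eventually ((at_isOpen_OHull ha (a.pk k)).mem_nhds h1)]
    with z hz
  have h2 := at_base ha hk (at_OHull_sub _ hz)
  rw [sub_add_cancel] at h2
  exact ⟨h2.1, h2.2.1, h2.2.2.2⟩

theorem image_f (ha : IsAsm S a) : a.f '' a.Q = S := by
  apply Subset.antisymm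
  · rintro _ ⟨z, hz, rfl⟩
    rw [iUnion_R ha] at hz
    obtain ⟨φ, hφ⟩ := mem_iUnion.1 hz
    obtain ⟨⟨k, e⟩, hv⟩ := φ
    by_cases he : e = 0
    · subst he
      exact ha.cx.sub _ (img_plate' ha hv.1 hφ).2
    · rw [ha.cx.cover]
      exact mem_iUnion.2 ⟨_, (facet_img ha hv he hφ).1⟩
  · intro s hs
    have hs' := hs
    rw [ha.cx.cover] at hs'
    obtain ⟨i, hi⟩ := mem_iUnion.1 hs'
    obtain ⟨u, hu, rfl⟩ := at_ccell_sub ha (ha.cx.top_mem i) hi
    obtain ⟨k, hk, hpk⟩ := ha.pk_surj (c.top i)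
    rw [← hpk] at hu ⊢
    have h1 := at_base ha hk hu
    exact ⟨_, h1.1, h1.2.2.2⟩

theorem top_f (ha : IsAsm S a) {k : ℕ} (hk : k < c.m) {u : E2} (hu : u ∈ c.OHull (a.pk k))
    (hcell : ∀ i, c.T (a.pk k) u ∈ c.ccell i → c.top i = a.pk k) {y : E2}
    (hy : Reg a.Q a.f y) (hne : y ≠ u + a.ctr k) (hf : a.f y = a.f (u + a.ctr k)) :
    a.upQ (u + a.ctr k) y := by
  obtain ⟨-, -, hxR, hfx⟩ := at_base ha hk (at_OHull_sub _ hu)
  have hyQ : y ∈ a.Q := Reg.mem hy
  rw [iUnion_R ha] at hyQ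
  obtain ⟨φ, hyφ⟩ := mem_iUnion.1 hyQ
  have hfy : a.f y = c.T (a.pk k) u := by rw [hf, hfx]
  have hxv : a.Valid (k, 0) := ⟨hk, Or.inl rfl⟩
  obtain ⟨⟨k', e'⟩, hv⟩ := φ
  by_cases he : e' = 0
  · subst he
    by_cases hkk : k' = k
    · subst hkk
      left
      refine ⟨⟨(k', 0), hxv⟩, hxR, hyφ, rfl, ?_⟩
      have h1 := (img_plate' ha hk hyφ).1
      rw [hfy] at h1
      have h2 := (c.T (a.pk k')).injective h1
      change upW (a.w k') (u + a.ctr k' - a.ctr k') (y - a.ctr k')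
      rw [add_sub_cancel_right]
      refine (FW_fixed (fun l hl => ha.cx.unit _ l (ha.wmem k' hk l hl))
        (fun l hl => hu l (ha.wmem k' hk l hl))).2.2 _ ?_ h2.symm
      intro h3
      apply hne
      rw [← h3, sub_add_cancel]
    · right
      refine ⟨⟨(k, 0), hxv⟩, ⟨(k', 0), hv⟩, ?_, hxR, hyφ, Or.inl ⟨rfl, rfl, ?_⟩⟩
      · intro h1
        exact hkk (congrArg (fun φ : a.Idx => φ.1.1) h1).symm
      · have h1 := (reg_plate ha hv.1 hyφ hy).2.2
        have h2 : a.f y ∈ S := ha.cx.sub _ (img_plate' ha hv.1 hyφ).2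
        rw [ha.cx.cover] at h2
        obtain ⟨i, hi⟩ := mem_iUnion.1 h2
        have h3 : c.top i = a.pk k := hcell i (by rw [← hfy]; exact hi)
        have h4 := ha.cx.mem_of_CI i _ _ hi h1
        have h5 := ha.cx.top_top i _ h4 (by
          rw [h3]
          intro h6
          exact hkk (ha.pk_inj _ _ hv.1 hk h6))
        rw [h3] at h5
        exact h5
  · right
    refine ⟨⟨(k, 0), hxv⟩, ⟨(k', e'), hv⟩, ?_, hxR, hyφ, Or.inr (Or.inl ⟨rfl, he, ?_⟩)⟩
    · intro h1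
      exact he (congrArg (fun φ : a.Idx => φ.1.2) h1).symm
    · have h1 := (facet_img ha hv he hyφ).1
      have h3 : c.top (a.ci (k', e')) = a.pk k := hcell _ (by rw [← hfy]; exact h1)
      have h4 : k' + 1 < c.m ∧ e' ≤ a.M k' := by
        rcases hv.2 with h | h
        · exact absurd h he
        · exact h
      have h5 : c.mem (a.ci (k', e')) (a.pl (k', e')) := by
        have h6 := (ha.route k' h4.1).valid e' (Nat.one_le_iff_ne_zero.2 he) h4.2
        have h7 : a.pl (k', e') = (a.rt k').pl e' := by simp [pl, he]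
        rw [h7]
        exact h6
      have h8 := ha.cx.top_mem (a.ci (k', e'))
      rw [h3] at h8
      refine ⟨h8, ?_⟩
      by_cases h9 : a.pk k = a.pl (k', e')
      · exact Or.inl h9
      · right
        have h10 := ha.cx.top_top _ _ h5 (by rw [h3]; exact Ne.symm h9)
        rw [h3] at h10
        exact h10

end AData

end Pool.Agent.SeamS
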