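import Pool.Agent.SeamS.Defs

/-!
# Cell complexes with plates: definitions

A `Complex S` is a decomposition of the target `S` into 2-cells, together with the plates (the closed
convex hulls of the visible parts of the sheets of a stacking) and their order.
-/

namespace Pool.Agent.SeamS

open Set Filter Topology Metric Pool.Agent.Hhelper79.Seam

/-- the raw data of a complex: `N` cells with charts `g i` and open convex sets `O i`, a finite set `V` of vertices,
`m` plates with charts `T k` and half planes `Λ k`, the order `low` of the plates, the visible plate `top i` of each cell -/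
structure CData where
  N : ℕ
  g : Fin N → (E2 →ᵃⁱ[ℝ] E3)
  O : Fin N → Set E2
  V : Set E3
  m : ℕ
  T : Fin m → (E2 →ᵃⁱ[ℝ] E3)
  Λ : Fin m → Set (E2 × ℝ)
  low : Fin m → Fin m → Prop
  top : Fin N → Fin m

namespace CData

variable (c : CData)

/-- open cell -/
def cell (i : Fin c.N) : Set E3 := c.g i '' c.O i

/-- closed cell -/
def ccell (i : Fin c.N) : Set E3 := c.g i '' closure (c.O i)

/-- boundary of a cell -/
def bcell (i : Fin c.N) : Set E3 := c.g i '' (closure (c.O i) \ c.O i)

/-- the open half planes: interior of the plate polygon -/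
def OHull (k : Fin c.m) : Set E2 := {y | ∀ l ∈ c.Λ k, l.2 < inner ℝ l.1 y}

/-- interior of the plate `k` -/
def CI (k : Fin c.m) : Set E3 := c.T k '' c.OHull k

/-- the plate `k` -/
def CC (k : Fin c.m) : Set E3 := c.T k '' Hull (c.Λ k)

/-- the cell `i` is contained in the plate `k` -/
def mem (i : Fin c.N) (k : Fin c.m) : Prop := c.cell i ⊆ c.CI k

/-- `q` is one of the plates over the gap directly below the plate `k` at the cell `i` -/
def Abv (i : Fin c.N) (k q : Fin c.m) : Prop := c.mem i q ∧ (q = k ∨ c.low k q)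

/-- at the edge point `s` one can pass, hidden, from the gap below `k` at the cell `i` to the gap below `l` at the cell
`j` (`i = j`: by folding back along the edge; `i ≠ j`: by crossing the edge) -/
def MoveAt (i : Fin c.N) (k : Fin c.m) (j : Fin c.N) (l : Fin c.m) (s : E3) : Prop :=
  s ∉ c.V ∧ s ∈ c.bcell i ∧ s ∈ c.bcell j ∧ ∀ q, s ∈ c.CI q → (c.Abv i k q ↔ c.Abv j l q)

/-- common edge -/
def Adj (i j : Fin c.N) : Prop := i ≠ j ∧ {s | s ∉ c.V ∧ s ∈ c.bcell i ∧ s ∈ c.bcell j}.Infinite

end CData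

/-- the axioms of a complex with plates on the target `S` -/
structure IsComplex (S : Set E3) (c : CData) : Prop where
  mpos : 0 < c.m
  isOpen : ∀ i, IsOpen (c.O i)
  convex : ∀ i, Convex ℝ (c.O i)
  ne : ∀ i, (c.O i).Nonempty
  bdd : ∀ i, Bornology.IsBounded (c.O i)
  fin : c.V.Finite
  cover : S = ⋃ i, c.ccell i
  disj : ∀ i j, i ≠ j → Disjoint (c.cell i) (c.ccell j)
  /-- structure at an edge point `g i p`, `p` on the boundary of `O i`: near `p` the cell is a half disc with inner normal `n`, and either it is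
  the whole target near this point or there is exactly one further cell `j`, placed by `G` beyond the edge -/
  edge : ∀ i, ∀ p ∈ closure (c.O i), p ∉ c.O i → c.g i p ∉ c.V → ∃ r > 0, ∃ n : E2, ‖n‖ = 1 ∧
    (∀ y ∈ ball p r, (y ∈ c.O i ↔ 0 < inner ℝ n (y - p))) ∧
    (∀ y ∈ ball p r, inner ℝ n (y - p) = 0 → c.g i y ∉ c.V) ∧
    ((∀ s ∈ S, dist s (c.g i p) < r → s ∈ c.ccell i) ∨
      ∃ j, j ≠ i ∧ ∃ G : E2 →ᵃⁱ[ℝ] E3, (∀ y, inner ℝ n (y - p) = 0 → G y = c.g i y) ∧
        (∀ y ∈ ball p r, inner ℝ n (y - p) < 0 → G y ∈ c.cell j) ∧ range G = range (c.g j) ∧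
        (∀ s ∈ S, dist s (c.g i p) < r → s ∈ c.ccell i ∨ s ∈ c.ccell j))
  /-- the plates -/
  unit : ∀ k, ∀ l ∈ c.Λ k, ‖l.1‖ = 1
  finΛ : ∀ k, (c.Λ k).Finite
  bddΛ : ∀ k, Bornology.IsBounded (Hull (c.Λ k))
  neΛ : ∀ k, (c.OHull k).Nonempty
  sub : ∀ k, c.CC k ⊆ S
  plate : ∀ i k, c.mem i k ∨ Disjoint (c.cell i) (c.CC k)
  /-- `CI k` is open in `S`, so cells touching a point of `CI k` are in `k` -/
  mem_of_CI : ∀ i k s, s ∈ c.ccell i → s ∈ c.CI k → c.mem i k
  /-- an edge point is in the interior of a plate iff the cells on both sides are in the plate -/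
  plate_edge : ∀ i, ∀ s ∈ c.bcell i, s ∉ c.V → ∀ k,
    (s ∈ c.CI k ↔ c.mem i k ∧ ∃ j, j ≠ i ∧ s ∈ c.ccell j ∧ c.mem j k)
  /-- the order of the plates -/
  asymm : ∀ k l, c.low k l → ¬ c.low l k
  total : ∀ i k l, c.mem i k → c.mem i l → k ≠ l → c.low k l ∨ c.low l k
  trans : ∀ i k l q, c.mem i k → c.mem i l → c.mem i q → c.low k l → c.low l q → c.low k q
  top_mem : ∀ i, c.mem i (c.top i)
  top_top : ∀ i k, c.mem i k → k ≠ c.top i → c.low k (c.top i)
  /-- the target is connected through edges -/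
  conn : ∀ i j, Relation.ReflTransGen c.Adj i j
  /-- every plate is connected through edges -/
  conn_plate : ∀ k i j, c.mem i k → c.mem j k →
    Relation.ReflTransGen (fun a b => c.Adj a b ∧ c.mem a k ∧ c.mem b k) i j
  /-- no islands: from a cell `i` where the plate `k` is hidden one reaches, through cells where `k` is hidden, the rim of `k` -/
  hidden : ∀ k i, c.mem i k → c.top i ≠ k → ∃ r, c.mem r k ∧ c.top r ≠ k ∧
    Relation.ReflTransGen (fun a b => c.Adj a b ∧ (c.mem a k ∧ c.top a ≠ k) ∧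
      (c.mem b k ∧ c.top b ≠ k)) i r ∧
    {s | s ∉ c.V ∧ s ∈ c.bcell r ∧ s ∉ c.CI k}.Infinite

end Pool.Agent.SeamS
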