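import Pool.Agent.SeamS.Gaps

/-!
# The structure of the complex at an edge point (module D5, MP_6cce73_lc)
-/

set_option autoImplicit false

namespace Pool.Agent.SeamS

open Set Filter Topology Metric Pool.Agent.Hhelper79.Seam

variable {S D : Set E3} {m : ℕ}

/-- a function on space which vanishes on an open part of a placed plane vanishes on the plane -/
theorem zero_of_open {g : E2 →ᵃⁱ[ℝ] E3} {a : E3 →ᵃ[ℝ] ℝ} {W : Set E2} (hW : IsOpen W)
    (hne : W.Nonempty) (h : ∀ w ∈ W, a (g w) = 0) (v : E2) : a (g v) = 0 := by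
  by_contra hv
  obtain ⟨w, hw⟩ := hne
  obtain ⟨r, hr, hball⟩ := Metric.isOpen_iff.1 hW w hw
  obtain ⟨x, hx, hx2⟩ := Pool.Agent.Hhelper79.SeamP.exists_pos
    (pull_linear_ne (h w hw) hv) w hr
  rw [pull_apply, pull_apply, h w hw, h x (hball hx)] at hx2
  exact lt_irrefl _ hx2

theorem range_subset_of_open {g g' : E2 →ᵃⁱ[ℝ] E3} {W : Set E2} (hW : IsOpen W)
    (hne : W.Nonempty) (h : ∀ w ∈ W, g w ∈ range g') : range g ⊆ range g' := by
  obtain ⟨n, hn⟩ := exists_plane g'
  rintro _ ⟨v, rfl⟩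
  rw [← hn]
  exact zero_of_open hW hne (fun w hw => (hn _).2 (h w hw)) v

theorem range_eq_of_subset {g g' : E2 →ᵃⁱ[ℝ] E3} (h : range g ⊆ range g') :
    range g = range g' := by
  apply h.antisymm
  obtain ⟨φ, hφ⟩ := exists_transition h
  rintro _ ⟨v, rfl⟩
  obtain ⟨w, rfl⟩ := Pool.Agent.Hhelper79.SeamP.iso_surj φ v
  exact ⟨w, hφ w⟩

/-- near an edge point, the cell in a chart of its plane -/
theorem EdgePt.half {A : Set (E3 →ᵃ[ℝ] ℝ)} (hA : A.Finite) {c : Set E3} {g : E2 →ᵃⁱ[ℝ] E3}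
    {v u : E2} (hgen : Gen A g u) (hP : Plane A g) (hc : c = Cls A (g u)) (h : EdgePt A c (g v)) :
    ∃ l : E2 →ᵃ[ℝ] ℝ, l.linear ≠ 0 ∧ (∀ w, SameSign A (g v) (g w) → l w = 0) ∧
      (∀ᶠ w in 𝓝 v, (g w ∈ c ↔ 0 < l w)) ∧ ∀ᶠ w in 𝓝 v, (g w ∈ closure c ↔ 0 ≤ l w) := by
  subst hc
  have hv : v ∈ closure (OO A g u) := by
    have h1 := h.1
    rw [hP.closure_cls] at h1
    obtain ⟨v', hv', he⟩ := h1
    rwa [g.injective he] at hv'
  obtain ⟨l, hl, hl0, hl1⟩ := hgen.local_structure hA hP hv h.2.2 h.2.1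
  refine ⟨l, hl, hl0, hl1, ?_⟩
  obtain ⟨r, hr, hball⟩ := Metric.eventually_nhds_iff.1 hl1
  filter_upwards [ball_mem_nhds v hr] with w hw
  rw [hP.closure_cls]
  have hlc : Continuous l := l.continuous_of_finiteDimensional
  constructor
  · rintro ⟨w', hw', he⟩
    obtain rfl := g.injective he
    by_contra hneg
    push Not at hneg
    obtain ⟨y, ⟨hy1, hy2⟩, hy3⟩ := _root_.mem_closure_iff.1 hw' _
      (isOpen_ball.inter (isOpen_Iio.preimage hlc)) ⟨hw, hneg⟩
    exact absurd ((hball hy1).1 hy3) (not_lt.2 (le_of_lt hy2))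
  · intro h0
    refine ⟨w, ?_, rfl⟩
    rw [_root_.mem_closure_iff]
    intro V hV hwV
    obtain ⟨t, ht, htb⟩ := Metric.isOpen_iff.1 (hV.inter (isOpen_ball (x := v) (ε := r))) w
      ⟨hwV, hw⟩
    obtain ⟨y, hy, hy2⟩ := Pool.Agent.Hhelper79.SeamP.exists_pos hl w ht
    have hyb := htb hy
    exact ⟨y, hyb.1, (hball hyb.2).2 (by linarith)⟩

namespace Arrg

variable {Pl : PlateSys S D m} {A : Set (E3 →ᵃ[ℝ] ℝ)}

/-- near a point of `S` only the closed cells through this point are seen -/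
theorem eventually_cells (h : Arrg Pl A) (s : E3) :
    ∀ᶠ x in 𝓝 s, ∀ c, IsCl A S c → x ∈ closure c → s ∈ closure c := by
  have h1 : ∀ᶠ y in 𝓝 s, ∀ e ∈ {e | IsCl A S e}, y ∈ closure e → s ∈ closure e := by
    rw [Filter.eventually_all_finite (finite_cells h.fin S)]
    intro e _
    by_cases he : s ∈ closure e
    · exact Filter.Eventually.of_forall fun _ _ => he
    · filter_upwards [isClosed_closure.isOpen_compl.mem_nhds he] with y hy hy'
      exact absurd hy' hy
  filter_upwards [h1] with y hy c hc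
  exact hy c hc

/-- two cells in the same plane at an edge point: opposite half discs -/
theorem opposite (h : Arrg Pl A) {a b : Set E3} (ha : IsCl A S a) (hb : IsCl A S b) (hab : a ≠ b)
    {g : E2 →ᵃⁱ[ℝ] E3} (hP : Plane A g) {v : E2} (hag : a ⊆ range g) (hbg : b ⊆ range g)
    (hea : EdgePt A a (g v)) (heb : EdgePt A b (g v)) :
    ∃ l : E2 →ᵃ[ℝ] ℝ, l.linear ≠ 0 ∧ l v = 0 ∧
      (∀ᶠ w in 𝓝 v, (g w ∈ a ↔ 0 < l w)) ∧ (∀ᶠ w in 𝓝 v, (g w ∈ closure a ↔ 0 ≤ l w)) ∧
      (∀ᶠ w in 𝓝 v, (g w ∈ b ↔ l w < 0)) ∧ (∀ᶠ w in 𝓝 v, (g w ∈ closure b ↔ l w ≤ 0)) := by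
  obtain ⟨x, hx⟩ := ha.nonempty
  obtain ⟨u, rfl, hgu, hau⟩ := ha.rep hx hP (hag hx)
  obtain ⟨y, hy⟩ := hb.nonempty
  obtain ⟨u', rfl, hgu', hbu'⟩ := hb.rep hy hP (hbg hy)
  obtain ⟨l, hl, hl0, hl1, hl2⟩ := hea.half h.fin hgu hP hau
  obtain ⟨k, hk, hk0, hk1, hk2⟩ := heb.half h.fin hgu' hP hbu'
  -- the lines agree
  obtain ⟨z, hz, hzv⟩ := exists_other hea.2.2
  obtain ⟨v', rfl⟩ := hP.mem_range hz (mem_range_self v)
  have hne : v ≠ v' := by
    rintro rfl
    exact hzv rfl
  have hlv := hl0 v (SameSign.rfl' A _)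
  have hkv := hk0 v (SameSign.rfl' A _)
  obtain ⟨c, hc, hkl⟩ := Pool.Agent.Hhelper79.SeamP.proportional hl hk hne hlv (hl0 v' hz) hkv
    (hk0 v' hz)
  have hcneg : c < 0 := by
    by_contra hcon
    have hcpos : 0 < c := lt_of_le_of_ne (not_lt.1 hcon) (Ne.symm hc)
    obtain ⟨r, hr, hball⟩ := Metric.eventually_nhds_iff.1 (hl1.and hk1)
    obtain ⟨w, hw, hw2⟩ := Pool.Agent.Hhelper79.SeamP.exists_pos hl v hr
    rw [hlv] at hw2
    have h1 := (hball hw).1.2 hw2
    have h2 := (hball hw).2.2 (by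
      rw [hkl]
      exact mul_pos hcpos hw2)
    exact Set.disjoint_left.1 (ha.disjoint h.fin hb hab) h1 (subset_closure h2)
  refine ⟨l, hl, hlv, hl1, hl2, ?_, ?_⟩
  · filter_upwards [hk1] with w hw
    rw [hw, hkl]
    constructor
    · intro h3
      by_contra h4
      have := mul_nonpos_of_nonpos_of_nonneg hcneg.le (not_lt.1 h4)
      linarith
    · intro h3
      exact mul_pos_of_neg_of_neg hcneg h3
  · filter_upwards [hk2] with w hw
    rw [hw, hkl]
    constructor
    · intro h3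
      by_contra h4
      have := mul_neg_of_neg_of_pos hcneg (not_le.1 h4)
      linarith
    · intro h3
      exact mul_nonneg_of_nonpos_of_nonpos hcneg.le h3

/-- two cells in the same plane at an edge point: the target is flat there -/
theorem flat_of_two (h : Arrg Pl A) (hT : IsTarget S) {a b : Set E3} (ha : IsCl A S a)
    (hb : IsCl A S b) (hab : a ≠ b) {g : E2 →ᵃⁱ[ℝ] E3} (hP : Plane A g) {v : E2}
    (hag : a ⊆ range g) (hbg : b ⊆ range g) (hea : EdgePt A a (g v)) (heb : EdgePt A b (g v)) :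
    ∀ᶠ s in 𝓝[S] (g v), s ∈ range g := by
  obtain ⟨l, hl, hlv, h1, h2, h3, h4⟩ := h.opposite ha hb hab hP hag hbg hea heb
  obtain ⟨r, hr, hball⟩ := Metric.eventually_nhds_iff.1 (h2.and h4)
  have hsub : g '' ball v r ⊆ S := by
    rintro _ ⟨w, hw, rfl⟩
    have hcS : ∀ c, IsCl A S c → closure c ⊆ S := by
      intro c hc
      apply closure_minimal (hc.subset h.mS)
      obtain ⟨T, hT, hp, hST⟩ := h.pS
      rw [hST]
      apply hT.isClosed_biUnion
      intro t ht
      exact ((hp t ht).1.1.isCompact.image t.2.continuous).isClosed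
    rcases le_total 0 (l w) with h5 | h5
    · exact hcS a ha ((hball hw).1.2 h5)
    · exact hcS b hb ((hball hw).2.2 h5)
  filter_upwards [hT g v r hr hsub] with s hs
  obtain ⟨w, -, rfl⟩ := hs
  exact mem_range_self w

theorem plane_of_mem (_h : Arrg Pl A) {c : Set E3} (hc : IsCl A S c) {g : E2 →ᵃⁱ[ℝ] E3}
    (hP : Plane A g) {x : E3} (hx : x ∈ c) (hxg : x ∈ range g) : c ⊆ range g := by
  intro y hy
  obtain ⟨g', u, -, -, -, rfl⟩ := hc
  exact hP.mem_range (SameSign.trans (SameSign.symm hx) hy) hxg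

/-- at most two cells meet at an edge point where the target is contained in two planes -/
theorem edge_two (h : Arrg Pl A) (hT : IsTarget S) {s : E3}
    (hs : ∃ γ γ' : E2 →ᵃⁱ[ℝ] E3, ∀ᶠ x in 𝓝 s, x ∈ S → x ∈ range γ ∪ range γ')
    {a b c : Set E3} (ha : IsCl A S a) (hb : IsCl A S b) (hc : IsCl A S c) (hab : a ≠ b)
    (hac : a ≠ c) (hbc : b ≠ c) (hea : EdgePt A a s) (heb : EdgePt A b s) (hec : EdgePt A c s) :
    False := by
  obtain ⟨γ, γ', hγ⟩ := hs
  -- each cell is in one of the two planes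
  have hplane : ∀ d, IsCl A S d → EdgePt A d s → ∃ g : E2 →ᵃⁱ[ℝ] E3, ∃ v, Plane A g ∧ g v = s ∧
      d ⊆ range g ∧ (range g = range γ ∨ range g = range γ') := by
    intro d hd hed
    obtain ⟨g, u, hP, hgen, hgS, hdu⟩ := id hd
    have hsr : s ∈ range g := by
      have h1 := hed.1
      rw [hdu, hP.closure_cls] at h1
      obtain ⟨v, -, rfl⟩ := h1
      exact mem_range_self v
    obtain ⟨v, rfl⟩ := hsr
    refine ⟨g, v, hP, rfl, ?_, ?_⟩
    · rw [hdu, hP.cls_eq_image]
      exact image_subset_range _ _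
    · obtain ⟨l, hl, hl0, hl1, -⟩ := hed.half h.fin hgen hP hdu
      have h2 := g.continuous.continuousAt.eventually hγ
      obtain ⟨r, hr, hball⟩ := Metric.eventually_nhds_iff.1 (hl1.and h2)
      have hlc : Continuous l := l.continuous_of_finiteDimensional
      set W : Set E2 := ball v r ∩ l ⁻¹' Ioi 0 with hW
      have hWo : IsOpen W := isOpen_ball.inter (isOpen_Ioi.preimage hlc)
      have hWne : W.Nonempty := by
        obtain ⟨w, hw, hw2⟩ := Pool.Agent.Hhelper79.SeamP.exists_pos hl v hr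
        rw [hl0 v (SameSign.rfl' A _)] at hw2
        exact ⟨w, hw, hw2⟩
      have hcov : ∀ w ∈ W, g w ∈ range γ ∪ range γ' := by
        intro w hw
        exact (hball hw.1).2 (hd.subset h.mS ((hball hw.1).1.2 hw.2))
      classical
      obtain ⟨t, ht, htn⟩ := exists_interior {g ⁻¹' range γ, g ⁻¹' range γ'} (by
          intro t ht
          rw [Finset.mem_insert, Finset.mem_singleton] at ht
          rcases ht with rfl | rfl
          · exact (isClosed_range_iso γ).preimage g.continuous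
          · exact (isClosed_range_iso γ').preimage g.continuous) hWo hWne (by
          intro w hw
          rcases hcov w hw with h3 | h3
          · exact mem_iUnion₂.2 ⟨g ⁻¹' range γ, by simp, h3⟩
          · exact mem_iUnion₂.2 ⟨g ⁻¹' range γ', by simp, h3⟩)
      rw [Finset.mem_insert, Finset.mem_singleton] at ht
      rcases ht with rfl | rfl
      · left
        exact range_eq_of_subset (range_subset_of_open isOpen_interior (htn.mono inter_subset_left)
          fun w hw => (interior_subset hw : w ∈ g ⁻¹' range γ))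
      · right
        exact range_eq_of_subset (range_subset_of_open isOpen_interior (htn.mono inter_subset_left)
          fun w hw => (interior_subset hw : w ∈ g ⁻¹' range γ'))
  -- two in the same plane, then the third as well
  have key : ∀ a b c, IsCl A S a → IsCl A S b → IsCl A S c → a ≠ b → a ≠ c → b ≠ c →
      EdgePt A a s → EdgePt A b s → EdgePt A c s → ∀ g : E2 →ᵃⁱ[ℝ] E3, ∀ v, Plane A g → g v = s →
      a ⊆ range g → b ⊆ range g → False := by
    intro a b c ha hb hc hab hac hbc hea heb hec g v hP hgv hag hbg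
    subst hgv
    have h1 := h.flat_of_two hT ha hb hab hP hag hbg hea heb
    have hcg : c ⊆ range g := by
      have h2 : ∀ᶠ x in 𝓝 (g v), x ∈ S → x ∈ range g := eventually_nhdsWithin_iff.1 h1
      obtain ⟨x, hx, hx2⟩ := _root_.mem_closure_iff_nhds.1 hec.1 _ h2
      exact h.plane_of_mem hc hP hx2 (hx (hc.subset h.mS hx2))
    obtain ⟨l, hl, hlv, h3, h4, h5, h6⟩ := h.opposite ha hb hab hP hag hbg hea heb
    obtain ⟨k, hk, hkv, h3', h4', h5', h6'⟩ := h.opposite ha hc hac hP hag hcg hea hec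
    obtain ⟨r, hr, hball⟩ := Metric.eventually_nhds_iff.1 (h5.and (h6'.and (h3.and h3')))
    obtain ⟨w, hw, hw2⟩ := Pool.Agent.Hhelper79.SeamP.exists_pos (a := -l) (by
      rw [AffineMap.neg_linear]
      exact neg_ne_zero.2 hl) v hr
    have hw3 : l w < 0 := by
      have e1 : (-l) v = -l v := rfl
      have e2 : (-l) w = -l w := rfl
      rw [e1, e2, hlv] at hw2
      linarith
    have h7 := hball hw
    have hwb : g w ∈ b := h7.1.2 hw3
    have hwa : g w ∉ a := fun h8 => absurd (h7.2.2.1.1 h8) (not_lt.2 hw3.le)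
    have hkw : k w ≤ 0 := by
      by_contra h9
      exact hwa (h7.2.2.2.2 (not_le.1 h9))
    have hwc : g w ∈ closure c := h7.2.1.2 hkw
    exact Set.disjoint_left.1 (hb.disjoint h.fin hc hbc) hwb hwc
  obtain ⟨ga, va, hPa, hva, haa, hca⟩ := hplane a ha hea
  obtain ⟨gb, vb, hPb, hvb, hbb, hcb⟩ := hplane b hb heb
  obtain ⟨gc, vc, hPc, hvc, hcc, hccc⟩ := hplane c hc hec
  rcases hca with h1 | h1 <;> rcases hcb with h2 | h2 <;> rcases hccc with h3 | h3
  · exact key a b c ha hb hc hab hac hbc hea heb hec ga va hPa hva haa (by rw [h1, ← h2]; exact hbb)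
  · exact key a b c ha hb hc hab hac hbc hea heb hec ga va hPa hva haa (by rw [h1, ← h2]; exact hbb)
  · exact key a c b ha hc hb hac hab (Ne.symm hbc) hea hec heb ga va hPa hva haa
      (by rw [h1, ← h3]; exact hcc)
  · exact key b c a hb hc ha hbc (Ne.symm hab) (Ne.symm hac) heb hec hea gb vb hPb hvb hbb
      (by rw [h2, ← h3]; exact hcc)
  · exact key b c a hb hc ha hbc (Ne.symm hab) (Ne.symm hac) heb hec hea gb vb hPb hvb hbb
      (by rw [h2, ← h3]; exact hcc)
  · exact key a c b ha hc hb hac hab (Ne.symm hbc) hea hec heb ga va hPa hva haa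
      (by rw [h1, ← h3]; exact hcc)
  · exact key a b c ha hb hc hab hac hbc hea heb hec ga va hPa hva haa (by rw [h1, ← h2]; exact hbb)
  · exact key a b c ha hb hc hab hac hbc hea heb hec ga va hPa hva haa (by rw [h1, ← h2]; exact hbb)

end Arrg

/-- the isometry of the plane mapping one orthonormal frame to another one -/
theorem exists_frame {m n m' n' : E2} (hm : ‖m‖ = 1) (hn : ‖n‖ = 1) (hmn : inner ℝ m n = (0 : ℝ))
    (hm' : ‖m'‖ = 1) (hn' : ‖n'‖ = 1) (hmn' : inner ℝ m' n' = (0 : ℝ)) (p p' : E2) :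
    ∃ φ : E2 →ᵃⁱ[ℝ] E2, ∀ y, φ y = p' + (inner ℝ m (y - p) • m' + inner ℝ n (y - p) • n') := by
  let L : E2 →ₗ[ℝ] E2 :=
    { toFun := fun v => inner ℝ m v • m' + inner ℝ n v • n'
      map_add' := fun v w => by
        rw [inner_add_right, inner_add_right, add_smul, add_smul]
        abel
      map_smul' := fun c v => by
        rw [inner_smul_right, inner_smul_right, RingHom.id_apply, smul_add, smul_smul, smul_smul] }
  have hL : ∀ v, L v = inner ℝ m v • m' + inner ℝ n v • n' := fun v => rfl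
  -- the frame is a basis
  have hbasis : ∀ v : E2, ‖v‖ ^ 2 = inner ℝ m v ^ 2 + inner ℝ n v ^ 2 := by
    intro v
    have e1 := Pool.Agent.Hhelper79.SeamP.inner_e2 m v
    have e2 := Pool.Agent.Hhelper79.SeamP.inner_e2 n v
    have e3 := Pool.Agent.Hhelper79.SeamP.inner_e2 m n
    have e4 := Pool.Agent.Hhelper79.SeamP.inner_e2 m m
    have e5 := Pool.Agent.Hhelper79.SeamP.inner_e2 n n
    have e6 := Pool.Agent.Hhelper79.SeamP.inner_e2 v v
    rw [real_inner_self_eq_norm_sq] at e4 e5 e6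
    rw [hm, one_pow] at e4
    rw [hn, one_pow] at e5
    rw [hmn] at e3
    rw [e1, e2, e6]
    set a := m 0
    set b := m 1
    set c := n 0
    set d := n 1
    obtain ⟨δ, hδ⟩ : ∃ δ, δ = a * d - b * c := ⟨_, rfl⟩
    have hd : d = a * δ := by
      rw [hδ]
      linear_combination d * e4 - b * e3
    have hc : c = -(b * δ) := by
      rw [hδ]
      linear_combination c * e4 - a * e3
    have hδ2 : δ * δ = 1 := by
      rw [hδ]
      linear_combination -(a * a + b * b) * e5 - e4 + (a * c + b * d) * e3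
    rw [hd, hc]
    linear_combination ((v 0) ^ 2 + (v 1) ^ 2) * e4 - (a * v 1 - b * v 0) ^ 2 * hδ2
  refine ⟨{ toFun := fun y => p' + (inner ℝ m (y - p) • m' + inner ℝ n (y - p) • n')
            linear := L
            map_vadd' := ?_
            norm_map := ?_ }, fun y => rfl⟩
  · intro x v
    simp only [vadd_eq_add, hL]
    rw [add_sub_assoc, inner_add_right, inner_add_right, add_smul, add_smul]
    abel
  · intro v
    rw [hL, ← sq_eq_sq₀ (norm_nonneg _) (norm_nonneg _), hbasis v, @norm_add_sq_real, norm_smul,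
      norm_smul, hm', hn', mul_one, mul_one, inner_smul_left, inner_smul_right, hmn',
      Real.norm_eq_abs, Real.norm_eq_abs, sq_abs, sq_abs]
    simp

/-- a unit normal for an affine function with a zero at `p` -/
theorem exists_normal {l : E2 →ᵃ[ℝ] ℝ} (hl : l.linear ≠ 0) {p : E2} (hp : l p = 0) :
    ∃ (n : E2) (c : ℝ), ‖n‖ = 1 ∧ 0 < c ∧ ∀ y, l y = c * inner ℝ n (y - p) := by
  have hg := Pool.Agent.Hhelper79.SeamP.grad_ne hl
  have hlin := Pool.Agent.Hhelper79.SeamP.linear_eq l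
  obtain ⟨g, hgd⟩ : ∃ g, g = Pool.Agent.Hhelper79.SeamP.grad l := ⟨_, rfl⟩
  rw [← hgd] at hg
  simp only [← hgd] at hlin
  have hgn : 0 < ‖g‖ := norm_pos_iff.2 hg
  refine ⟨(1 / ‖g‖) • g, ‖g‖, ?_, hgn, fun y => ?_⟩
  · rw [norm_smul, Real.norm_of_nonneg (by positivity)]
    field_simp
  · have h1 := Pool.Agent.Hhelper79.SeamP.aff_sub l y p
    rw [hp, sub_zero, hlin] at h1
    rw [h1, inner_smul_left]
    simp only [conj_trivial]
    field_simp

/-- a unit vector orthogonal to `n` -/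
theorem exists_perp {n : E2} (hn : ‖n‖ = 1) : ∃ m : E2, ‖m‖ = 1 ∧ inner ℝ m n = (0 : ℝ) ∧
    ∀ v : E2, inner ℝ n v = (0 : ℝ) → v = (inner ℝ m v : ℝ) • m := by
  have e5 := Pool.Agent.Hhelper79.SeamP.inner_e2 n n
  rw [real_inner_self_eq_norm_sq, hn, one_pow] at e5
  refine ⟨!₂[-n 1, n 0], ?_, ?_, ?_⟩
  · rw [← sq_eq_sq₀ (norm_nonneg _) zero_le_one, ← real_inner_self_eq_norm_sq,
      Pool.Agent.Hhelper79.SeamP.inner_e2]
    simp
    linarith
  · rw [Pool.Agent.Hhelper79.SeamP.inner_e2]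
    simp
    ring
  · intro v hv
    rw [Pool.Agent.Hhelper79.SeamP.inner_e2] at hv
    rw [Pool.Agent.Hhelper79.SeamP.inner_e2]
    apply Pool.Agent.Hhelper79.SeamP.e2_ext
    · simp
      linear_combination (v 0) * e5 + n 0 * hv
    · simp
      linear_combination (v 1) * e5 + n 1 * hv

theorem lin_iso (g : E2 →ᵃⁱ[ℝ] E3) (x v : E2) : g (x + v) = g x + g.linearIsometry v := by
  have h := g.map_vadd x v
  rw [vadd_eq_add, vadd_eq_add, add_comm v x] at h
  rw [h, add_comm]

namespace Arrg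

variable {Pl : PlateSys S D m} {A : Set (E3 →ᵃ[ℝ] ℝ)}

theorem isClosed_S (h : Arrg Pl A) : IsClosed S := by
  obtain ⟨T, hT, hp, hST⟩ := h.pS
  rw [hST]
  apply hT.isClosed_biUnion
  intro t ht
  exact ((hp t ht).1.1.isCompact.image t.2.continuous).isClosed

theorem closure_subset_S (h : Arrg Pl A) {c : Set E3} (hc : IsCl A S c) : closure c ⊆ S :=
  closure_minimal (hc.subset h.mS) h.isClosed_S

/-- the structure of the target at an edge point -/
theorem edge_structure (h : Arrg Pl A) (hT : IsTarget S) {V : Set E3} (hV : V.Finite)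
    (hVA : Vert A ⊆ V)
    (hbook : ∀ s ∈ S, s ∉ V → ∃ γ γ' : E2 →ᵃⁱ[ℝ] E3, ∀ᶠ x in 𝓝 s, x ∈ S → x ∈ range γ ∪ range γ')
    {c : Set E3} (hc : IsCl A S c) {g : E2 →ᵃⁱ[ℝ] E3} {u : E2} (hP : Plane A g)
    (hgen : Gen A g u) (hcu : c = Cls A (g u)) {p : E2} (hp : p ∈ closure (OO A g u))
    (hpo : p ∉ OO A g u) (hpV : g p ∉ V) :
    ∃ r > 0, ∃ n : E2, ‖n‖ = 1 ∧
      (∀ y ∈ ball p r, (y ∈ OO A g u ↔ 0 < inner ℝ n (y - p))) ∧
      (∀ y ∈ ball p r, inner ℝ n (y - p) = 0 → g y ∉ V) ∧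
      ((∀ s ∈ S, dist s (g p) < r → s ∈ closure c) ∨
        ∃ c', IsCl A S c' ∧ c' ≠ c ∧ ∃ G : E2 →ᵃⁱ[ℝ] E3,
          (∀ y, inner ℝ n (y - p) = 0 → G y = g y) ∧
          (∀ y ∈ ball p r, inner ℝ n (y - p) < 0 → G y ∈ c') ∧ c' ⊆ range G ∧
          (∀ s ∈ S, dist s (g p) < r → s ∈ closure c ∨ s ∈ closure c')) := by
  have hsc : g p ∈ closure c := by
    rw [hcu, hP.closure_cls]
    exact mem_image_of_mem _ hp
  have hsnc : g p ∉ c := by
    rw [hcu]
    exact hpo
  have hvA : g p ∉ Vert A := fun h1 => hpV (hVA h1)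
  have hedge : EdgePt A c (g p) := ⟨hsc, hsnc, hvA⟩
  obtain ⟨l, hl, hl0, hl1, -⟩ := hedge.half h.fin hgen hP hcu
  have hlp : l p = 0 := hl0 p (SameSign.rfl' A _)
  obtain ⟨n, a, hn, ha, hla⟩ := exists_normal hl hlp
  have hev1 : ∀ᶠ y in 𝓝 p, (y ∈ OO A g u ↔ 0 < inner ℝ n (y - p)) := by
    filter_upwards [hl1] with y hy
    have h1 : y ∈ OO A g u ↔ g y ∈ c := by
      rw [hcu]
      rfl
    rw [h1, hy, hla]
    exact ⟨fun h2 => pos_of_mul_pos_right h2 ha.le, fun h2 => mul_pos ha h2⟩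
  have hev2 : ∀ᶠ y in 𝓝 p, g y ∉ V :=
    g.continuous.continuousAt.eventually (hV.isClosed.isOpen_compl.mem_nhds hpV)
  have hev3 := h.eventually_cells (g p)
  have hsS : g p ∈ S := h.closure_subset_S hc hsc
  by_cases hex : ∃ c', IsCl A S c' ∧ c' ≠ c ∧ g p ∈ closure c'
  · obtain ⟨c', hc', hne, hsc'⟩ := hex
    have hedge' : EdgePt A c' (g p) := h.edgePt hc' hc hne hsc' hsc hvA
    obtain ⟨g', u', hP', hgen', -, hcu'⟩ := id hc'
    have hpr : g p ∈ range g' := by
      rw [hcu', hP'.closure_cls] at hsc'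
      obtain ⟨v, -, hv⟩ := hsc'
      exact ⟨v, hv⟩
    obtain ⟨p', hp'⟩ := hpr
    rw [← hp'] at hedge'
    obtain ⟨l', hl', hl0', hl1', -⟩ := hedge'.half h.fin hgen' hP' hcu'
    have hlp' : l' p' = 0 := hl0' p' (SameSign.rfl' A _)
    obtain ⟨n', a', hn', ha', hla'⟩ := exists_normal hl' hlp'
    -- another point of the edge
    obtain ⟨z, hz, hzp⟩ := exists_other hvA
    obtain ⟨q, rfl⟩ := hP.mem_range hz (mem_range_self p)
    have hz' : SameSign A (g' p') (g q) := by
      rw [hp']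
      exact hz
    obtain ⟨q', hq'⟩ := hP'.mem_range hz' (mem_range_self p')
    have hqp : q ≠ p := by
      rintro rfl
      exact hzp rfl
    obtain ⟨m, hm, hmn, hmv⟩ := exists_perp hn
    have hnq : inner ℝ n (q - p) = (0 : ℝ) := by
      have h1 := hl0 q hz
      rw [hla] at h1
      exact (mul_eq_zero.1 h1).resolve_left ha.ne'
    have hnq' : inner ℝ n' (q' - p') = (0 : ℝ) := by
      have h1 := hl0' q' (by rw [hq']; exact hz')
      rw [hla'] at h1
      exact (mul_eq_zero.1 h1).resolve_left ha'.ne'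
    obtain ⟨t, ht⟩ : ∃ t : ℝ, t = inner ℝ m (q - p) := ⟨_, rfl⟩
    have hqt : q - p = t • m := by
      rw [ht]
      exact hmv _ hnq
    have ht0 : t ≠ 0 := by
      rintro rfl
      rw [zero_smul, sub_eq_zero] at hqt
      exact hqp hqt
    obtain ⟨m', hm'⟩ : ∃ m' : E2, m' = (1 / t) • (q' - p') := ⟨_, rfl⟩
    have hlin : g'.linearIsometry (q' - p') = g.linearIsometry (q - p) := by
      have h1 := lin_iso g p (q - p)
      have h2 := lin_iso g' p' (q' - p')
      rw [add_sub_cancel] at h1 h2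
      rw [hq', hp', h1] at h2
      exact (add_left_cancel h2).symm
    have hlinm : g'.linearIsometry m' = g.linearIsometry m := by
      rw [hm', map_smul, hlin, hqt, map_smul, smul_smul]
      rw [one_div, inv_mul_cancel₀ ht0, one_smul]
    have hm'1 : ‖m'‖ = 1 := by
      rw [← g'.linearIsometry.norm_map, hlinm, g.linearIsometry.norm_map, hm]
    have hmn' : inner ℝ m' n' = (0 : ℝ) := by
      rw [hm', inner_smul_left, real_inner_comm, hnq']
      simp
    obtain ⟨φ, hφ⟩ := exists_frame hm hn hmn hm'1 (n' := -n') (by rw [norm_neg, hn'])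
      (by rw [inner_neg_right, hmn', neg_zero]) p p'
    have hφp : φ p = p' := by
      rw [hφ, sub_self, inner_zero_right, inner_zero_right, zero_smul, zero_smul, add_zero,
        add_zero]
    have hn'φ : ∀ y, inner ℝ n' (φ y - p') = -(inner ℝ n (y - p) : ℝ) := by
      intro y
      rw [hφ, add_sub_cancel_left, inner_add_right, inner_smul_right, inner_smul_right,
        inner_neg_right, real_inner_self_eq_norm_sq, hn', real_inner_comm m' n', hmn']
      ring
    have hev4 : ∀ᶠ y in 𝓝 p, inner ℝ n (y - p) < 0 → g' (φ y) ∈ c' := by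
      have h1 : Tendsto φ (𝓝 p) (𝓝 p') := by
        rw [← hφp]
        exact φ.continuous.tendsto p
      filter_upwards [h1.eventually hl1'] with y hy hneg
      rw [hy, hla', hn'φ]
      exact mul_pos ha' (by linarith)
    obtain ⟨r, hr, hball⟩ := Metric.eventually_nhds_iff.1 (hev1.and (hev2.and hev4))
    obtain ⟨r', hr', hball'⟩ := Metric.eventually_nhds_iff.1 hev3
    refine ⟨min r r', lt_min hr hr', n, hn, fun y hy => ?_, fun y hy _ => ?_, Or.inr ⟨c', hc', hne,
      g'.comp φ, fun y hy => ?_, fun y hy hneg => ?_, ?_, fun s hs hsd => ?_⟩⟩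
    · exact (hball (lt_of_lt_of_le hy (min_le_left _ _))).1
    · exact (hball (lt_of_lt_of_le hy (min_le_left _ _))).2.1
    · change g' (φ y) = g y
      have h1 : φ y = p' + (inner ℝ m (y - p) : ℝ) • m' := by
        rw [hφ, hy, zero_smul, add_zero]
      have h2 : y = p + (inner ℝ m (y - p) : ℝ) • m := by
        rw [← hmv _ hy]
        abel
      rw [h1, lin_iso, hp', map_smul, hlinm]
      conv_rhs => rw [h2, lin_iso, map_smul]
    · exact (hball (lt_of_lt_of_le hy (min_le_left _ _))).2.2 hneg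
    · intro x hx
      rw [hcu'] at hx
      obtain ⟨w, rfl⟩ := hP'.mem_range hx (mem_range_self u')
      obtain ⟨y, rfl⟩ := Pool.Agent.Hhelper79.SeamP.iso_surj φ w
      exact ⟨y, rfl⟩
    · obtain ⟨d, hd, hsd'⟩ := h.mem_cover hs
      have hpd := hball' (lt_of_lt_of_le hsd (min_le_right _ _)) d hd hsd'
      by_cases h1 : d = c
      · left
        rw [← h1]
        exact hsd'
      · by_cases h2 : d = c'
        · right
          rw [← h2]
          exact hsd'
        · exfalso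
          refine h.edge_two hT (hbook _ hsS hpV) hc hc' hd (Ne.symm hne) (Ne.symm h1) (Ne.symm h2)
            hedge ?_ (h.edgePt hd hc h1 hpd hsc hvA)
          rw [← hp']
          exact hedge'
  · obtain ⟨r, hr, hball⟩ := Metric.eventually_nhds_iff.1 (hev1.and hev2)
    obtain ⟨r', hr', hball'⟩ := Metric.eventually_nhds_iff.1 hev3
    refine ⟨min r r', lt_min hr hr', n, hn, fun y hy => ?_, fun y hy _ => ?_,
      Or.inl fun s hs hsd => ?_⟩
    · exact (hball (lt_of_lt_of_le hy (min_le_left _ _))).1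
    · exact (hball (lt_of_lt_of_le hy (min_le_left _ _))).2
    · obtain ⟨d, hd, hsd'⟩ := h.mem_cover hs
      have hpd := hball' (lt_of_lt_of_le hsd (min_le_right _ _)) d hd hsd'
      by_cases h1 : d = c
      · rw [← h1]
        exact hsd'
      · exact absurd ⟨d, hd, h1, hpd⟩ hex

/-- the interior of a plate is open in the target -/
theorem mem_of_int (h : Arrg Pl A) (hT : IsTarget S) {c : Set E3} (hc : IsCl A S c) {k : Fin m}
    {s : E3} (hs : s ∈ closure c) (hsk : s ∈ Pl.T k '' interior (Pl.K k)) :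
    c ⊆ Pl.T k '' interior (Pl.K k) := by
  obtain ⟨v, hv, rfl⟩ := hsk
  obtain ⟨r, hr, hball⟩ := Metric.isOpen_iff.1 isOpen_interior v hv
  have h1 := hT (Pl.T k) v r hr (fun x hx => by
    obtain ⟨w, hw, rfl⟩ := hx
    exact Pl.sub k (mem_image_of_mem _ (interior_subset (hball hw))))
  obtain ⟨x, hx, hx2⟩ := _root_.mem_closure_iff_nhds.1 hs _ (eventually_nhdsWithin_iff.1 h1)
  obtain ⟨w, hw, rfl⟩ := hx (hc.subset h.mS hx2)
  exact hc.subset_of_mem (h.mI k) hx2 (mem_image_of_mem _ (hball hw))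

/-- the visible parts are open in the target -/
theorem visible_of_closure (h : Arrg Pl A) (hT : IsTarget S) {c : Set E3} (hc : IsCl A S c)
    {k : Fin m} {s : E3} (hs : s ∈ closure c) (hsk : s ∈ Pl.T k '' Pl.U k) :
    c ⊆ Pl.T k '' Pl.U k := by
  obtain ⟨v, hv, rfl⟩ := hsk
  obtain ⟨r, hr, hball⟩ := Metric.isOpen_iff.1 (Pl.openU k) v hv
  have h1 := hT (Pl.T k) v r hr (fun x hx => by
    obtain ⟨w, hw, rfl⟩ := hx
    exact Pl.sub k (mem_image_of_mem _ (interior_subset (U_subset_K Pl k (hball hw)))))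
  obtain ⟨x, hx, hx2⟩ := _root_.mem_closure_iff_nhds.1 hs _ (eventually_nhdsWithin_iff.1 h1)
  obtain ⟨w, hw, rfl⟩ := hx (hc.subset h.mS hx2)
  exact hc.subset_of_mem (h.mU k) hx2 (mem_image_of_mem _ (hball hw))

/-- an edge point is in the interior of a plate iff the cells on both sides are in the plate -/
theorem plate_edge (h : Arrg Pl A) (hT : IsTarget S) {c : Set E3} (hc : IsCl A S c) {s : E3}
    (hedge : EdgePt A c s) (k : Fin m) :
    s ∈ Pl.T k '' interior (Pl.K k) ↔ c ⊆ Pl.T k '' interior (Pl.K k) ∧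
      ∃ c', IsCl A S c' ∧ c' ≠ c ∧ s ∈ closure c' ∧ c' ⊆ Pl.T k '' interior (Pl.K k) := by
  constructor
  · intro hs
    have hck := h.mem_of_int hT hc hedge.1 hs
    refine ⟨hck, ?_⟩
    obtain ⟨v, hv, rfl⟩ := hs
    obtain ⟨x, hx⟩ := hc.nonempty
    obtain ⟨u, rfl, hgen, hcu⟩ := hc.rep hx (h.pT k) (by
      obtain ⟨w, -, hw⟩ := hck hx
      exact ⟨w, hw⟩)
    obtain ⟨l, hl, hl0, hl1, hl2⟩ := hedge.half h.fin hgen (h.pT k) hcu
    have hev := (Pl.T k).continuous.continuousAt.eventually (h.eventually_cells (Pl.T k v))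
    obtain ⟨r, hr, hball⟩ := Metric.eventually_nhds_iff.1
      (hl2.and (hev.and (isOpen_interior.mem_nhds hv)))
    obtain ⟨w, hw, hw2⟩ := Pool.Agent.Hhelper79.SeamP.exists_pos (a := -l) (by
      rw [AffineMap.neg_linear]
      exact neg_ne_zero.2 hl) v hr
    have hw3 : l w < 0 := by
      have e1 : (-l) v = -l v := rfl
      have e2 : (-l) w = -l w := rfl
      rw [e1, e2, hl0 v (SameSign.rfl' A _)] at hw2
      linarith
    obtain ⟨h1, h2, h3⟩ := hball hw
    have hwK : Pl.T k w ∈ Pl.T k '' Pl.K k := mem_image_of_mem _ (interior_subset h3)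
    obtain ⟨d, hd, hdk, hwd⟩ := h.mem_cover_K hwK
    refine ⟨d, hd, ?_, h2 d hd hwd, h.cell_subset_int hd hdk⟩
    rintro rfl
    exact absurd (h1.1 hwd) (not_le.2 hw3)
  · rintro ⟨hck, c', hc', hne, hsc', hck'⟩
    have hcl := closure_subset_K (hck.trans (image_mono interior_subset))
    obtain ⟨v, hv, rfl⟩ := hcl hedge.1
    have hedge' := h.edgePt hc' hc hne hsc' hedge.1 hedge.2.2
    obtain ⟨l, hl, hlv, h1, h2, h3, h4⟩ := h.opposite hc hc' (Ne.symm hne) (h.pT k)
      (hck.trans (image_subset_range _ _)) (hck'.trans (image_subset_range _ _)) hedge hedge'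
    refine mem_image_of_mem _ ?_
    rw [mem_interior_iff_mem_nhds]
    filter_upwards [h2, h4] with w hw hw'
    have h5 : Pl.T k w ∈ Pl.T k '' Pl.K k := by
      rcases le_total 0 (l w) with h6 | h6
      · exact hcl (hw.2 h6)
      · exact closure_subset_K (hck'.trans (image_mono interior_subset)) (hw'.2 h6)
    obtain ⟨w', hw', he⟩ := h5
    rwa [(Pl.T k).injective he] at hw'

end Arrg

end Pool.Agent.SeamS
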