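import Pool.Agent.SeamS.Surface
import Pool.Agent.SeamS.Complex
import Pool.Agent.SeamS.Poly
import Pool.Agent.SeamS.EdgeStr

/-!
# From a stacking to a complex with plates (module D)

Proof of `exists_complex`.

**Functionals.** For a finite set `A` of affine functions `E3 → ℝ` the *sign cells* of `A` are the nonempty sets of points with a given sign vector. A set is `A`-measurable if it is a union of sign cells. A placed
polygon `g '' C`, `C = {y | ∀ l ∈ Λ, l.2 ≤ ⟪l.1, y⟫}`, is measurable for the functions `x ↦ ⟪l.1, g* (x - g 0)⟫ - l.2` and `x ↦ ⟪ν, x - g 0⟫` (`ν` normal to the plane). A segment is measurable for finitely many functions. So there is a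
finite `A` such that `S` and `D` are `A`-measurable. Every sign cell is convex; if it meets the region `connectedComponentIn (S \ D) s` it is contained in it, so every region, and every set `vis s`, is a union of sign cells, there are only finitely many regions
and classes. By `sheet`, `vis s = g '' U`, `U` open, bounded, a finite union of traces of sign cells, so the closed convex hull of `U` is the convex hull of finitely many points (closures of bounded sign cells are polytopes; or: the closure of a trace in the plane
is a bounded polyhedron, use `Poly`), a convex polygon `{y | ∀ l ∈ Λ, l.2 ≤ ⟪l.1, y⟫}` with `‖l.1‖ = 1`, `Λ` finite and interior `{y | ∀ l ∈ Λ, l.2 < ⟪l.1, y⟫} = convexHull U` (the hull of an open set is open, and is the interior of its closure). Enlarge `A` to `A'` such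
that all the placed hulls are measurable as well.

**Cells** = the 2-dimensional sign cells of `A'` contained in `S`. Such a cell spans a plane `range (g i)`, it is relatively open there, convex, bounded: `cell i = g i '' O i`. `V` = the exceptional set of `book`, and the 0-dimensional sign cells of `A'` contained in `S`.
(A sign cell of a finite set of affine functions is relatively open in its affine span; no 3-dimensional one is contained in `S`.) For a point `s` let `Z(s)` be the set of functions in `A'` vanishing at `s`. Near `s` the other functions do not change sign.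

`disj`: Let `s ∈ cell i ∩ ccell j`, `i ≠ j`. Near `s`, `range (g i)` is contained in `cell i ⊆ S`; by `IsTarget` `S` is contained in `range (g i)` near `s`, so there are points of `cell j` near `s` in `cell i`. Contradiction.
`cover`: `⊇` because `S` is closed. `⊆`: `s ∈ g '' C`, a piece of `S`; the points of `g '' interior C` where no function of `A'`, which is not constant zero on `range g`, vanishes, are dense in `g '' C`, and they are in 2-dimensional sign cells; finitely many closed sets.
`edge`: `s = g i p`, `p ∈ closure (O i) \ O i`, `s ∉ V`. The sign cell `τ` of `s` is contained in `S`, it is not 0-dimensional (`s ∉ V`) and not 2-dimensional (`disj`). So it is 1-dimensional, contained in a line `ℓ`, all functions in `Z(s)` vanish on `ℓ`. In the plane `range (g i)` a function of `Z(s)` is identically zero or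
vanishes exactly on `ℓ` (`ℓ ⊆ range (g i)`: all functions of `Z(s)` vanishing on `range (g i)`..., direct: `s ∈ closure (cell i)`, the functions vanishing on `cell i` are those vanishing on `range (g i)`, and the intersection of the kernels of these functions is `range (g i)` near `cell i`, as `cell i` is relatively open in this
intersection; these functions are in `Z(s)`, so they vanish on `ℓ`, so `ℓ ⊆ range (g i)`). So near `s`, `cell i` is an open half disc of `range (g i)` bounded by `ℓ`: this gives `n`. `V` is finite, `s ∉ V`: take `r` small. The same argument shows: (*) if an open half disc with centre `s` and diameter in `ℓ` is contained in `S`, then near `s` it is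
contained in one sign cell, a cell `j`. Now use `book` at `s`: `S` near `s` is a half disc `h₁` or the union of two half discs `h₁, h₂` with common diameter in a line `ℓ'`. If all of `S` near `s` is contained in one plane, then it is `range (g i)`, and `S` near `s` is either a half disc with `s` on its diameter, which must be
the closure of that of `cell i`: first alternative; or it is a full disc: second alternative with (*) and `G = g i`. Otherwise the planes of `h₁` and `h₂` are different, `cell i` near `s` is contained in one of them, say `h₁` (else in `h₂`), `ℓ = ℓ'`; (*) for `h₂` gives `j`; if `g₁` places `h₁` and `g₂` places `h₂` (`book`) with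
`g₁ = g₂` on the line, then `G = g₂ ∘ (g₁⁻¹ ∘ g i)`.
**Plates** = classes, `T k = g.comp φ` from `sheet` and `hQ`, `U k`, `Λ k` as above.
`sub`: `S` closed. `plate`: `CC k` is measurable; if `cell i ⊆ CC k`, then `cell i` is open in the plane `range (T k)`, so contained in `T k '' interior (Hull (Λ k)) = CI k`. `mem_of_CI`: `CI k ⊆ S` is a flat open set, by `IsTarget` it is open in `S`, so there are points of `cell i` in `CI k` near `s`.
`plate_edge`: `→`: `mem_of_CI`; in the first alternative of `edge`, `S` near `s` would be a half disc with `s` on its diameter, but `CI k` is open in `S` and a flat open set. `←`: in the second alternative of `edge` (the first is impossible, since `s ∈ ccell j`: points of `cell j` near `s` would be in `ccell i`, `disj`), near `s`, `S` is contained in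
`ccell i ∪ ccell j₀`, so `j = j₀` (`disj`), both are contained in `CC k`, in the plane `range (T k)`, near `s` they are the two closed half discs of a disc with centre `s`; so `s ∈ CI k`.
Order: `low k l ↔ low (rep k) (rep l)`. `total`, `trans`: points of `cell i` are in the hulls `T k '' convexHull (U k) = convexHull (vis ..)`. `D` is `A'`-measurable and contains no 2-dimensional sign cell, so `cell i ⊆ S \ D`, it is connected, contained in one region: `top i` is the class of the region. `top_mem`: `vis ⊆ CI`. `top_top`: `IsStacking.top` and `congr`.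
`conn`: let `H` be the set of cells reachable from `i`, `H'` its complement. `S \ V` is the union of the two relatively closed sets `⋃_H ccell \ V` and `⋃_H' ccell \ V`. If `H' ≠ ∅` there is a common point `s` (both are nonempty, `S \ V` is preconnected), `s ∈ ccell a ∩ ccell b`, `a ∈ H`, `b ∈ H'`; `disj`: `s ∈ bcell a ∩ bcell b`, by `edge` at `s` for `a` all points of the edge line near `s` are
in both closed cells, and not in `V`: infinitely many, so `Adj a b`. Contradiction.
`conn_plate`: the same for `CC k \ V`, which is preconnected (nondegenerate convex set minus a finite set), `CC k = ⋃_{mem i k} ccell i`.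
`hidden`: Let `q` be a point of `cell i` in the chart `T k`. Note: a cell `a` with `mem a k` is contained in `vis (rep k)` iff `top a = k`; `closure (U k)` is (in the chart) the union of the closed cells `a` with `top a = k`. So `q ∉ closure (U k)`. Let `C` be the component of `(closure (U k))ᶜ` containing `q`: open, connected, and by `sheet` not contained in `convexHull (U k) = OHull k`.
Let `H` be the set of the cells reachable from `i` as in `hidden` and suppose that none of them is a rim cell. Let `A` be the union of the closed cells in `H` (in the chart), `V' = T k ⁻¹' V`. `C \ V'` is connected (open connected minus a finite set). `(C \ V') ∩ A` is closed in `C \ V'`; it is open: let `y` be in it, `y` in the closed cell `a ∈ H`. If `y ∈ cell a`: clear. Otherwise `y ∈ bcell a`, not a vertex.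
If `T k y ∉ CI k`, then by `plate_edge` and `edge` all points of the edge line near `y` are not in `CI k`, so `a` is a rim cell, contradiction. So `T k y ∈ CI k`, and by `plate_edge`, `edge` there is `b` with `mem b k`, and near `y` the chart is contained in `ccell a ∪ ccell b`. `top b = k` is impossible because `y ∉ closure (U k)`. So `b ∈ H` and `A` contains a neighbourhood of `y`. Hence `C \ V' ⊆ A ⊆ Hull (Λ k)`,
`C ⊆ interior (Hull (Λ k)) = OHull k`, contradiction.
-/

namespace Pool.Agent.SeamS

open Set Filter Topology Metric Pool.Agent.Hhelper79.Seam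

theorem interior_Hull {Λ : Set (E2 × ℝ)} (hΛ : Λ.Finite) (hu : ∀ l ∈ Λ, ‖l.1‖ = 1) :
    interior (Hull Λ) = {y | ∀ l ∈ Λ, l.2 < inner ℝ l.1 y} := by
  apply Set.Subset.antisymm
  · intro y hy l hl
    have hyH : y ∈ Hull Λ := interior_subset hy
    apply lt_of_le_of_ne (hyH l hl)
    intro he
    have hc : Continuous fun t : ℝ => y - t • l.1 := by fun_prop
    have hev : ∀ᶠ t : ℝ in 𝓝 0, y - t • l.1 ∈ Hull Λ := by
      apply hc.continuousAt.eventually
      have : (fun t : ℝ => y - t • l.1) 0 = y := by simp
      rw [this]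
      exact mem_interior_iff_mem_nhds.1 hy
    obtain ⟨ε, hε, hball⟩ := Metric.eventually_nhds_iff.1 hev
    have h1 := hball (y := ε / 2) (by
      rw [Real.dist_eq, sub_zero, abs_of_pos (by linarith)]
      linarith) l hl
    rw [inner_sub_right, inner_smul_right, real_inner_self_eq_norm_sq, hu l hl, ← he] at h1
    linarith
  · apply interior_maximal
    · intro y hy l hl
      exact (hy l hl).le
    · have h : {y : E2 | ∀ l ∈ Λ, l.2 < inner ℝ l.1 y} = ⋂ l ∈ Λ, {y | l.2 < inner ℝ l.1 y} := by
        ext y
        simp
      rw [h]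
      apply hΛ.isOpen_biInter
      intro l _
      exact isOpen_lt continuous_const (by fun_prop)

theorem IsPolySurface.polyhedral {S : Set E3} (hS : IsPolySurface S) : Polyhedral S := by
  obtain ⟨T, hT, hp, hST⟩ := hS.pieces
  refine ⟨T, hT, fun t ht => ?_, hST⟩
  obtain ⟨g, C, hC, hg⟩ := hp t ht
  exact ⟨C, g, hC, hg⟩

/-- off finitely many points the target is locally contained in two planes -/
theorem IsPolySurface.two_planes {S : Set E3} (hS : IsPolySurface S) :
    ∃ V : Set E3, V.Finite ∧ ∀ s ∈ S, s ∉ V → ∃ γ γ' : E2 →ᵃⁱ[ℝ] E3,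
      ∀ᶠ x in 𝓝 s, x ∈ S → x ∈ range γ ∪ range γ' := by
  obtain ⟨V, hV, hb⟩ := hS.book
  refine ⟨V, hV, fun s hs hsV => ?_⟩
  obtain ⟨r, g, g', n, p, hr, -, -, -, hor⟩ := hb s hs hsV
  refine ⟨g, g', ?_⟩
  filter_upwards [ball_mem_nhds s hr] with x hx hxS
  rcases hor with h1 | h1
  · have h2 : x ∈ S ∩ ball s r := ⟨hxS, hx⟩
    rw [h1] at h2
    obtain ⟨y, -, rfl⟩ := h2
    exact Or.inl (mem_range_self y)
  · have h2 : x ∈ S ∩ ball s r := ⟨hxS, hx⟩
    rw [h1] at h2
    rcases h2 with ⟨y, -, rfl⟩ | ⟨y, -, rfl⟩
    · exact Or.inl (mem_range_self y)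
    · exact Or.inr (mem_range_self y)

theorem exists_complex {S D : Set E3} (hS : IsPolySurface S) (hT : IsTarget S)
    (hD : ∃ T : Finset (Set E3), (∀ t ∈ T, ∃ a b : E3, t = segment ℝ a b) ∧ D = ⋃ t ∈ T, t)
    (hDS : D ⊆ S) {same low : E3 → E3 → Prop} (hst : IsStacking S D same low)
    (Q : E3 → (E2 →ᵃⁱ[ℝ] E3) → Prop)
    (hQ : ∀ s ∈ S \ D, ∀ (g : E2 →ᵃⁱ[ℝ] E3) (U : Set E2), IsOpen U → U.Nonempty →
      vis S D same s = g '' U → ∃ φ : E2 ≃ᵃⁱ[ℝ] E2, Q s (g.comp φ.toAffineIsometry)) :
    ∃ (c : CData) (rep : Fin c.m → E3) (U : Fin c.m → Set E2), IsComplex S c ∧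
      (∀ k, rep k ∈ S \ D) ∧ (∀ k, Q (rep k) (c.T k)) ∧
      (∀ s ∈ S \ D, ∃ k, same (rep k) s) ∧
      (∀ k, vis S D same (rep k) = c.T k '' U k ∧ IsOpen (U k) ∧
        interior (closure (U k)) = U k ∧ U k ⊆ c.OHull k) ∧
      (∀ k, ∀ s ∈ vis S D same (rep k), ∀ i, s ∈ c.ccell i → c.top i = k) := by
  classical
  obtain ⟨m, Pl, rep, A0, hrep, hvis, hA0, hmS, -, hmU, hQs⟩ :=
    exists_plates hS.polyhedral hD hst Q hQ
  obtain ⟨A, -, h⟩ := exists_arrg hS.polyhedral Pl hA0 hmS hmU
  obtain ⟨Vb, hVb, hbook⟩ := hS.two_planes
  have hA := h.fin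
  -- the cells
  have hfin : {c | IsCl A S c}.Finite := finite_cells hA S
  let e := hfin.toFinset.equivFin
  let cl : Fin hfin.toFinset.card → Set E3 := fun i => (e.symm i).1
  have hcl : ∀ i, IsCl A S (cl i) := fun i => by
    have := (e.symm i).2
    rw [Set.Finite.mem_toFinset] at this
    exact this
  have hclinj : ∀ i j, cl i = cl j → i = j := fun i j hij => e.symm.injective (Subtype.ext hij)
  have hclsurj : ∀ c, IsCl A S c → ∃ i, cl i = c := by
    intro c hc
    have hc' : c ∈ hfin.toFinset := by
      rw [Set.Finite.mem_toFinset]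
      exact hc
    refine ⟨e ⟨c, hc'⟩, ?_⟩
    simp only [cl, Equiv.symm_apply_apply]
  have hch : ∀ i, ∃ (g : E2 →ᵃⁱ[ℝ] E3) (u : E2), Plane A g ∧ Gen A g u ∧ g u ∈ S ∧
      cl i = Cls A (g u) := hcl
  choose g u hP hgen hgS hcu using hch
  choose Λ hΛf hΛu hΛK using fun k => IsPoly2.exists_halfplanes (Pl.poly k)
  choose top htop using fun i => h.exists_visible hD (hcl i)
  set V : Set E3 := Vert A ∪ Vb with hVdef
  have hV : V.Finite := (finite_vert hA).union hVb
  let c : CData :=
    { N := hfin.toFinset.card, g := g, O := fun i => OO A (g i) (u i), V := V, m := m,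
      T := Pl.T, Λ := Λ, low := Pl.low, top := top }
  -- translation
  have hcell : ∀ i, c.cell i = cl i := by
    intro i
    rw [hcu i]
    exact ((hP i).cls_eq_image (u i)).symm
  have hccell : ∀ i, c.ccell i = closure (cl i) := by
    intro i
    rw [hcu i, (hP i).closure_cls]
    rfl
  have hbcell : ∀ i s, s ∈ c.bcell i ↔ s ∈ closure (cl i) ∧ s ∉ cl i := by
    intro i s
    rw [hcu i]
    constructor
    · rintro ⟨y, ⟨hy1, hy2⟩, rfl⟩
      refine ⟨?_, hy2⟩
      rw [(hP i).closure_cls]
      exact mem_image_of_mem _ hy1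
    · rintro ⟨h1, h2⟩
      rw [(hP i).closure_cls] at h1
      obtain ⟨y, hy, rfl⟩ := h1
      exact ⟨y, ⟨hy, h2⟩, rfl⟩
  have hOH : ∀ k, c.OHull k = interior (Pl.K k) := by
    intro k
    rw [hΛK k, interior_Hull (hΛf k) (hΛu k)]
    rfl
  have hCI : ∀ k, c.CI k = Pl.T k '' interior (Pl.K k) := by
    intro k
    change Pl.T k '' c.OHull k = _
    rw [hOH k]
  have hCC : ∀ k, c.CC k = Pl.T k '' Pl.K k := by
    intro k
    rw [hΛK k]
    rfl
  have hmem : ∀ i k, c.mem i k ↔ cl i ⊆ Pl.T k '' interior (Pl.K k) := by
    intro i k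
    change c.cell i ⊆ c.CI k ↔ _
    rw [hcell, hCI]
  have hmemK : ∀ i k, cl i ⊆ Pl.T k '' Pl.K k → c.mem i k := by
    intro i k hik
    rw [hmem]
    exact h.cell_subset_int (hcl i) hik
  have hKmem : ∀ i k, c.mem i k → cl i ⊆ Pl.T k '' Pl.K k := by
    intro i k hik
    rw [hmem] at hik
    exact hik.trans (image_mono interior_subset)
  have htopmem : ∀ i, c.mem i (top i) := by
    intro i
    rw [hmem]
    exact (htop i).trans (image_mono (Arrg.U_subset_K Pl _))
  have htopeq : ∀ i k, cl i ⊆ Pl.T k '' Pl.U k → top i = k := by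
    intro i k hik
    by_contra hne
    obtain ⟨x, hx⟩ := (hcl i).nonempty
    exact Set.disjoint_left.1 (Pl.disj _ _ hne) (htop i hx) (hik hx)
  have hedge : ∀ i s, s ∈ closure (cl i) → s ∉ cl i → s ∉ V → EdgePt A (cl i) s :=
    fun i s h1 h2 h3 => ⟨h1, h2, fun h4 => h3 (Or.inl h4)⟩
  -- infinitely many edge points
  have hinf : ∀ {i : Fin hfin.toFinset.card} {p : E3}, EdgePt A (cl i) p →
      (Cls A p \ V).Infinite := fun hp => hp.infinite.sdiff hV
  have hAdj : ∀ {i j : Fin hfin.toFinset.card} {p : E3}, i ≠ j → EdgePt A (cl i) p →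
      EdgePt A (cl j) p → c.Adj i j := by
    intro i j p hij hi hj
    refine ⟨hij, (hinf hi).mono ?_⟩
    rintro q ⟨hq, hqV⟩
    have h1 := hi.congr (hcl i) hq
    have h2 := hj.congr (hcl j) hq
    exact ⟨hqV, (hbcell i q).2 ⟨h1.1, h1.2.1⟩, (hbcell j q).2 ⟨h2.1, h2.2.1⟩⟩
  -- chains of cells give chains of indices
  have hchain : ∀ (Z : Set E3) (P : Set E3 → Prop), IsPreconnected (Z \ V) →
      (∀ x ∈ Z, ∃ d, IsCl A S d ∧ P d ∧ x ∈ closure d) →
      (∀ d, IsCl A S d → P d → d ⊆ Z) → ∀ i j, P (cl i) → P (cl j) →
      Relation.ReflTransGen (fun a b => c.Adj a b ∧ P (cl a) ∧ P (cl b)) i j := by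
    intro Z P hZ hcov hsub i j hi hj
    have h1 := chain_lemma hZ (G := {d | IsCl A S d ∧ P d}) (hfin.subset fun d hd => hd.1)
      (by
        rintro x ⟨hx, -⟩
        obtain ⟨d, hd, hPd, hxd⟩ := hcov x hx
        exact ⟨_, ⟨d, ⟨hd, hPd⟩, rfl⟩, hxd⟩)
      (by
        rintro d ⟨hd, hPd⟩
        obtain ⟨i, rfl⟩ := hclsurj d hd
        have h2 : (OO A (g i) (u i) \ (g i) ⁻¹' V).Nonempty := by
          obtain ⟨y, hy, hy2⟩ := ((hV.preimage (g i).injective.injOn).countable.dense_compl
            ℝ).inter_open_nonempty _ ((hgen i).isOpen hA) ⟨u i, mem_OO_self A _ _⟩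
          exact ⟨y, hy, hy2⟩
        obtain ⟨y, hy, hyV⟩ := h2
        have hyc : g i y ∈ cl i := by
          rw [hcu i]
          exact hy
        exact ⟨g i y, ⟨hsub _ hd hPd hyc, hyV⟩, subset_closure hyc⟩)
      (R := fun d d' => (IsCl A S d ∧ P d) ∧ (IsCl A S d' ∧ P d') ∧
        (d ≠ d' → ∃ p, EdgePt A d p ∧ EdgePt A d' p))
      (by
        rintro d hd d' hd' p ⟨-, hpV⟩ hpd hpd'
        refine ⟨hd, hd', fun hne => ⟨p, h.edgePt hd.1 hd'.1 hne hpd hpd' (fun h4 =>
          hpV (Or.inl h4)), h.edgePt hd'.1 hd.1 (Ne.symm hne) hpd' hpd (fun h4 =>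
          hpV (Or.inl h4))⟩⟩)
      (c := cl i) (c' := cl j) ⟨hcl i, hi⟩ ⟨hcl j, hj⟩
    have h2 : ∀ d, Relation.ReflTransGen (fun d d' => (IsCl A S d ∧ P d) ∧ (IsCl A S d' ∧ P d') ∧
        (d ≠ d' → ∃ p, EdgePt A d p ∧ EdgePt A d' p)) (cl i) d → ∀ j, cl j = d →
        Relation.ReflTransGen (fun a b => c.Adj a b ∧ P (cl a) ∧ P (cl b)) i j := by
      intro d hd
      induction hd with
      | refl =>
        intro j hj
        rw [hclinj j i hj]
      | tail _ h4 ih =>
        intro j hj
        obtain ⟨l, hl⟩ := hclsurj _ h4.1.1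
        have h5 := ih l hl
        by_cases hlj : l = j
        · rw [← hlj]
          exact h5
        · obtain ⟨p, hp, hp'⟩ := h4.2.2 (by
            rw [← hl, ← hj]
            exact fun h6 => hlj (hclinj _ _ h6))
          rw [← hl] at hp
          rw [← hj] at hp'
          refine h5.tail ⟨hAdj hlj hp hp', ?_, ?_⟩
          · rw [hl]
            exact h4.1.2
          · rw [hj]
            exact h4.2.1.2
    exact h2 _ h1 j rfl
  -- the hidden relation
  have hHid : ∀ k i, Arrg.Hid' A Pl k (cl i) ↔ c.mem i k ∧ top i ≠ k := by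
    intro k i
    constructor
    · rintro ⟨-, h1, h2⟩
      refine ⟨hmemK i k h1, ?_⟩
      rintro rfl
      obtain ⟨x, hx⟩ := (hcl i).nonempty
      exact Set.disjoint_left.1 h2 hx (htop i hx)
    · rintro ⟨h1, h2⟩
      refine ⟨hcl i, hKmem i k h1, ?_⟩
      rw [Set.disjoint_left]
      intro x hx hxk
      exact Set.disjoint_left.1 (Pl.disj _ _ h2) (htop i hx) hxk
  refine ⟨c, rep, Pl.U, ?_, hrep, hQs, ?_, ?_, ?_⟩
  · refine { mpos := ?_, isOpen := fun i => (hgen i).isOpen hA, convex := fun i => convex_OO A _ _,
             ne := fun i => ⟨u i, mem_OO_self A _ _⟩, bdd := ?_, fin := hV, cover := ?_, disj := ?_,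
             edge := ?_, unit := hΛu, finΛ := hΛf, bddΛ := ?_, neΛ := ?_, sub := ?_, plate := ?_,
             mem_of_CI := ?_, plate_edge := ?_, asymm := Pl.asymm, total := ?_, trans := ?_,
             top_mem := htopmem, top_top := ?_, conn := ?_, conn_plate := ?_, hidden := ?_ }
    · -- mpos
      obtain ⟨s, hs⟩ := hS.nonempty
      obtain ⟨d, hd, -⟩ := h.mem_cover hs
      obtain ⟨i, -⟩ := hclsurj d hd
      exact (top i).pos
    · -- bdd
      intro i
      have h1 : g i '' OO A (g i) (u i) ⊆ S := by
        rw [← (hP i).cls_eq_image, ← hcu i]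
        exact (hcl i).subset h.mS
      have h2 := (hS.polyhedral.isCompact.isBounded).subset h1
      rw [Metric.isBounded_iff] at h2 ⊢
      obtain ⟨r, hr⟩ := h2
      refine ⟨r, fun x hx y hy => ?_⟩
      have := hr (mem_image_of_mem _ hx) (mem_image_of_mem _ hy)
      rwa [(g i).dist_map] at this
    · -- cover
      ext s
      constructor
      · intro hs
        obtain ⟨d, hd, hsd⟩ := h.mem_cover hs
        obtain ⟨i, rfl⟩ := hclsurj d hd
        refine mem_iUnion.2 ⟨i, ?_⟩
        rw [hccell]
        exact hsd
      · intro hs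
        obtain ⟨i, hi⟩ := mem_iUnion.1 hs
        rw [hccell] at hi
        exact h.closure_subset_S (hcl i) hi
    · -- disj
      intro i j hij
      rw [hcell, hccell]
      exact (hcl i).disjoint hA (hcl j) fun h1 => hij (hclinj i j h1)
    · -- edge
      intro i p hp hpo hpV
      obtain ⟨r, hr, n, hn, h1, h2, h3⟩ := h.edge_structure hT hV (fun x hx => Or.inl hx)
        (fun s hs hsV => hbook s hs fun h1 => hsV (Or.inr h1)) (hcl i) (hP i) (hgen i) (hcu i)
        hp hpo hpV
      refine ⟨r, hr, n, hn, h1, h2, ?_⟩
      rcases h3 with h3 | ⟨c', hc', hne, G, hG1, hG2, hG3, hG4⟩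
      · left
        intro s hs hsd
        rw [hccell]
        exact h3 s hs hsd
      · right
        obtain ⟨j, rfl⟩ := hclsurj c' hc'
        refine ⟨j, fun hji => hne (by rw [hji]), G, hG1, ?_, ?_, ?_⟩
        · intro y hy hneg
          rw [hcell]
          exact hG2 y hy hneg
        · symm
          apply range_eq_of_subset
          apply range_subset_of_open ((hgen j).isOpen hA) ⟨u j, mem_OO_self A _ _⟩
          intro w hw
          apply hG3
          rw [hcu j]
          exact hw
        · intro s hs hsd
          rw [hccell, hccell]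
          exact hG4 s hs hsd
    · -- bddΛ
      intro k
      change Bornology.IsBounded (Hull (Λ k))
      rw [← hΛK k]
      exact (Pl.poly k).1.isCompact.isBounded
    · intro k
      rw [hOH]
      exact (Pl.poly k).2
    · intro k
      rw [hCC]
      exact Pl.sub k
    · -- plate
      intro i k
      by_cases h1 : (cl i ∩ Pl.T k '' Pl.K k).Nonempty
      · left
        obtain ⟨x, hx, hxk⟩ := h1
        exact hmemK i k ((hcl i).subset_of_mem (h.mK k) hx hxk)
      · right
        rw [hcell, hCC]
        exact Set.disjoint_iff_inter_eq_empty.2 (Set.not_nonempty_iff_eq_empty.1 h1)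
    · -- mem_of_CI
      intro i k s hs hsk
      rw [hccell] at hs
      rw [hCI] at hsk
      rw [hmem]
      exact h.mem_of_int hT (hcl i) hs hsk
    · -- plate_edge
      intro i s hs hsV k
      rw [hbcell] at hs
      rw [hCI, h.plate_edge hT (hcl i) (hedge i s hs.1 hs.2 hsV) k, hmem]
      refine and_congr Iff.rfl ?_
      constructor
      · rintro ⟨c', hc', hne, h1, h2⟩
        obtain ⟨j, rfl⟩ := hclsurj c' hc'
        refine ⟨j, fun hji => hne (by rw [hji]), ?_, ?_⟩
        · rw [hccell]
          exact h1
        · rw [hmem]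
          exact h2
      · rintro ⟨j, hj, h1, h2⟩
        rw [hccell] at h1
        rw [hmem] at h2
        exact ⟨cl j, hcl j, fun h3 => hj (hclinj j i h3), h1, h2⟩
    · intro i k l hk hl hkl
      exact h.total (hcl i) (hKmem i k hk) (hKmem i l hl) hkl
    · intro i k l q hk hl hq h1 h2
      exact h.trans (hcl i) (hKmem i k hk) (hKmem i l hl) (hKmem i q hq) h1 h2
    · -- top_top
      intro i k hk hne
      obtain ⟨x, hx⟩ := (hcl i).nonempty
      refine Pl.top k (top i) hne ⟨x, ?_, htop i hx⟩
      rw [hmem] at hk
      exact hk hx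
    · -- conn
      intro i j
      have h1 := hchain S (fun _ => True) (hS.conn V hV) (fun x hx => by
        obtain ⟨d, hd, hxd⟩ := h.mem_cover hx
        exact ⟨d, hd, trivial, hxd⟩) (fun d hd _ => hd.subset h.mS) i j trivial trivial
      clear hchain hHid
      induction h1 with
      | refl => exact Relation.ReflTransGen.refl
      | tail _ h2 ih => exact ih.tail h2.1
    · -- conn_plate
      intro k i j hi hj
      have hpre : IsPreconnected ((Pl.T k '' Pl.K k) \ V) := by
        have h1 : IsPreconnected (Pl.K k \ (Pl.T k ⁻¹' V)) :=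
          preconnected_diff (Pl.poly k).1.convex (Pl.poly k).2
            (hV.preimage (Pl.T k).injective.injOn)
        have h2 := h1.image (Pl.T k) (Pl.T k).continuous.continuousOn
        rwa [Set.image_sdiff_preimage] at h2
      have h1 := hchain (Pl.T k '' Pl.K k) (fun d => d ⊆ Pl.T k '' Pl.K k) hpre (fun x hx => by
        obtain ⟨d, hd, hdk, hxd⟩ := h.mem_cover_K hx
        exact ⟨d, hd, hdk, hxd⟩) (fun d _ hd => hd) i j (hKmem i k hi) (hKmem j k hj)
      clear hchain hHid hj
      induction h1 with
      | refl => exact Relation.ReflTransGen.refl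
      | tail _ h2 ih => exact ih.tail ⟨h2.1, hmemK _ k h2.2.1, hmemK _ k h2.2.2⟩
    · -- hidden
      intro k i hi hne
      obtain ⟨d, hd, hid, p, hp, hpk⟩ := h.exists_outer ((hHid k i).2 ⟨hi, hne⟩)
      obtain ⟨r, rfl⟩ := hclsurj d hd.1
      obtain ⟨h1, h2⟩ := (hHid k r).1 hd
      refine ⟨r, h1, h2, ?_, ?_⟩
      · have h3 : ∀ d, Relation.ReflTransGen (Arrg.Adj' A Pl k) (cl i) d → ∀ r, cl r = d →
            Relation.ReflTransGen (fun a b => c.Adj a b ∧ (c.mem a k ∧ c.top a ≠ k) ∧
              (c.mem b k ∧ c.top b ≠ k)) i r := by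
          intro d hd
          induction hd with
          | refl =>
            intro r hr
            rw [hclinj r i hr]
          | tail _ h4 ih =>
            intro r hr
            obtain ⟨l, hl⟩ := hclsurj _ h4.1.1
            have h5 := ih l hl
            obtain ⟨q, hq, hq'⟩ := h4.2.2.2
            have hlr : l ≠ r := by
              rintro rfl
              exact h4.2.2.1 (hl.symm.trans hr)
            have h6 := (hHid k l).1 (by rw [hl]; exact h4.1)
            have h7 := (hHid k r).1 (by rw [hr]; exact h4.2.1)
            rw [← hl] at hq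
            rw [← hr] at hq'
            exact h5.tail ⟨hAdj hlr hq hq', h6, h7⟩
        exact h3 _ hid r rfl
      · refine (hinf hp).mono ?_
        rintro q ⟨hq, hqV⟩
        have h4 := hp.congr (hcl r) hq
        refine ⟨hqV, (hbcell r q).2 ⟨h4.1, h4.2.1⟩, ?_⟩
        rw [hCI]
        intro h5
        exact hpk (h.mI k _ _ (SameSign.symm hq) h5)
  · -- covering by classes
    intro s hs
    have hs' := hs
    rw [Pl.cover] at hs'
    obtain ⟨k, hk⟩ := mem_iUnion.1 hs'
    rw [hvis] at hk
    exact ⟨k, hk.2.2⟩
  · intro k
    refine ⟨(hvis k).symm, Pl.openU k, Pl.regU k, ?_⟩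
    rw [hOH]
    exact Arrg.U_subset_K Pl k
  · intro k s hs i hi
    rw [← hvis k] at hs
    rw [hccell] at hi
    exact htopeq i k (h.visible_of_closure hT (hcl i) hi hs)

end Pool.Agent.SeamS
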