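import Pool.Agent.SeamS.Main
import Pool.Agent.Hhelper79.Seam.Region

/-!
# The characterisation (MP_6cce73_lc): uncoloured and coloured case from `exists_folding`
-/

namespace Pool.Agent.SeamS

open Set Filter Topology Metric Pool.Agent.Hhelper79.Seam

/-- the determinant in the definition of `Shows` -/
noncomputable def dt (g : E2 →ᵃⁱ[ℝ] E3) (v : E3) : ℝ :=
  Matrix.det (Matrix.of ![fun i => (g (EuclideanSpace.single 0 1) - g 0) i,
    fun i => (g (EuclideanSpace.single 1 1) - g 0) i, fun i => v i])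

theorem shows_iff (g : E2 →ᵃⁱ[ℝ] E3) (v : E3) : Shows g v ↔ 0 < dt g v := Iff.rfl

/-- exchange of the two coordinates -/
noncomputable def swp : E2 ≃ᵃⁱ[ℝ] E2 :=
  (LinearIsometryEquiv.piLpCongrLeft 2 ℝ ℝ (Equiv.swap (0 : Fin 2) 1)).toAffineIsometryEquiv

theorem swp_zero : swp 0 = 0 := by
  simp [swp]

theorem swp_single0 : swp (EuclideanSpace.single 0 1) = EuclideanSpace.single 1 1 := by
  simp [swp, LinearIsometryEquiv.piLpCongrLeft_single]

theorem swp_single1 : swp (EuclideanSpace.single 1 1) = EuclideanSpace.single 0 1 := by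
  simp [swp, LinearIsometryEquiv.piLpCongrLeft_single]

theorem dt_swp (g : E2 →ᵃⁱ[ℝ] E3) (v : E3) : dt (g.comp swp.toAffineIsometry) v = - dt g v := by
  unfold dt
  have h0 : (g.comp swp.toAffineIsometry) 0 = g 0 := by
    change g (swp 0) = g 0
    rw [swp_zero]
  have h1 : (g.comp swp.toAffineIsometry) (EuclideanSpace.single 0 1) =
      g (EuclideanSpace.single 1 1) := by
    change g (swp _) = _
    rw [swp_single0]
  have h2 : (g.comp swp.toAffineIsometry) (EuclideanSpace.single 1 1) =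
      g (EuclideanSpace.single 0 1) := by
    change g (swp _) = _
    rw [swp_single1]
  rw [h0, h1, h2, Matrix.det_fin_three, Matrix.det_fin_three]
  simp only [Matrix.of_apply, Matrix.cons_val]
  ring

theorem dt_shift {g T : E2 →ᵃⁱ[ℝ] E3} {w : E2} (h : ∀ z, g z = T (z - w)) (v : E3) :
    dt g v = dt T v := by
  have key : ∀ z, g z - g 0 = T z - T 0 := by
    intro z
    rw [h z, h 0]
    have h1 : T.linearIsometry ((z - w) -ᵥ (0 - w)) = T (z - w) -ᵥ T (0 - w) :=
      T.map_vsub _ _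
    have h2 : T.linearIsometry (z -ᵥ 0) = T z -ᵥ T 0 := T.map_vsub _ _
    simp only [vsub_eq_sub] at h1 h2
    rw [← h1, ← h2]
    congr 1
    abel
  unfold dt
  rw [key, key]

theorem normal_const {S : Set E3} {ν : E3 → E3} (hν : IsNormal S ν) {C : Set E2} (hC : IsOpen C)
    (hconv : Convex ℝ C) {T : E2 →ᵃⁱ[ℝ] E3} (hT : T '' C ⊆ S) {x y : E2} (hx : x ∈ C)
    (hy : y ∈ C) : ν (T x) = ν (T y) := by
  refine IsPreconnected.induction₂ (s := C) hconv.isPreconnected
    (fun x y => ν (T x) = ν (T y)) ?_ ?_ ?_ hx hy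
  · intro z hz
    obtain ⟨r, hr, hball⟩ := Metric.isOpen_iff.1 hC z hz
    refine mem_nhdsWithin_of_mem_nhds ?_
    filter_upwards [ball_mem_nhds z hr] with y hy
    exact (hν T z r hr ((image_mono hball).trans hT) y hy).symm
  · exact fun _ _ _ _ _ _ h1 h2 => h1.trans h2
  · exact fun _ _ _ _ h => h.symm

theorem realisable_of_stacking {S D : Set E3} (hS : IsPolySurface S) (hT : IsTarget S)
    (hD : ∃ T : Finset (Set E3), (∀ t ∈ T, ∃ a b : E3, t = segment ℝ a b) ∧ D = ⋃ t ∈ T, t)
    (hDS : D ⊆ S) {same low : E3 → E3 → Prop} (hst : IsStacking S D same low) :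
    Realisable S D := by
  obtain ⟨P, F, hF, -⟩ := exists_folding hS hT hD hDS hst (fun _ _ => True)
    (fun _ _ _ _ _ _ _ => ⟨AffineIsometryEquiv.refl ℝ E2, trivial⟩)
  exact ⟨P, F, hF⟩

theorem realisableCol_of_stacking {S D : Set E3} (hS : IsPolySurface S) (hT : IsTarget S)
    (hD : ∃ T : Finset (Set E3), (∀ t ∈ T, ∃ a b : E3, t = segment ℝ a b) ∧ D = ⋃ t ∈ T, t)
    (hDS : D ⊆ S) {ν : E3 → E3} {red : Set E3} (hν : IsNormal S ν) (hν' : IsTransversal S ν)
    {same low : E3 → E3 → Prop} (hst : IsStacking S D same low)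
    (hcol : ∀ s ∈ S \ D, ∀ t ∈ S \ D, same s t → (s ∈ red ↔ t ∈ red)) :
    RealisableCol S ν red D := by
  obtain ⟨P, F, hF, h⟩ := exists_folding hS hT hD hDS hst
    (fun s g => s ∈ red ↔ Shows g (ν s)) (by
      intro s hs g U hU _ hv
      have hsv : s ∈ g '' U := by
        rw [← hv]
        exact ⟨hs.1, hs.2, hst.refl s hs⟩
      obtain ⟨u, hu, rfl⟩ := hsv
      obtain ⟨r, hr, hball⟩ := Metric.isOpen_iff.1 hU u hu
      have hne : dt g (ν (g u)) ≠ 0 := by
        refine hν' g u r hr ?_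
        refine (image_mono hball).trans ?_
        rw [← hv]
        exact fun t ht => ht.1
      by_cases hc : g u ∈ red ↔ Shows g (ν (g u))
      · refine ⟨AffineIsometryEquiv.refl ℝ E2, ?_⟩
        have e : g.comp (AffineIsometryEquiv.refl ℝ E2).toAffineIsometry = g := by
          ext z
          rfl
        rw [e]
        exact hc
      · refine ⟨swp, ?_⟩
        rw [shows_iff, dt_swp]
        rw [shows_iff] at hc
        constructor
        · intro hr'
          have : ¬ 0 < dt g (ν (g u)) := fun h' => hc ⟨fun _ => h', fun _ => hr'⟩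
          have h2 := lt_of_le_of_ne (not_lt.1 this) hne
          linarith
        · intro h'
          by_contra hr'
          exact hc ⟨fun h2 => absurd h2 hr', fun h2 => by linarith⟩)
  refine ⟨P, F, hF, ?_⟩
  intro x g hg htop
  obtain ⟨hxD, s, T, w, C, hs, hQ, hgT, hsame, hC, hconv, hTC, ⟨u, hu, hus⟩, ⟨u', hu', hus'⟩⟩ :=
    h x g hg htop
  have hxS : F.f x ∈ S := hus' ▸ hTC ⟨u', hu', rfl⟩
  have e1 : ν s = ν (F.f x) := by
    rw [← hus, ← hus']
    exact normal_const hν hC hconv hTC hu hu'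
  rw [← hcol s hs (F.f x) ⟨hxS, hxD⟩ hsame, hQ, shows_iff, shows_iff, dt_shift hgT, e1]

end Pool.Agent.SeamS
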