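import Mathlib
import Pool.Agent.Hhelper79.Seam.Defs

/-!
# Seam patterns, sufficiency (MP_6cce73_lc): basic definitions

Foldings of arbitrary polygonal pieces of paper into a Euclidean space, their composition, blocks.
`FoldOn X f up` is the notion of folding of `Hhelper79.Seam.Folding` for an arbitrary finite union
`X` of nondegenerate convex polygons, with values in an arbitrary inner product space `Y`.
-/

namespace Pool.Agent.SeamS

open Set Filter Topology Metric Pool.Agent.Hhelper79.Seam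

/-- nondegenerate convex polygon -/
def IsPoly2 (t : Set E2) : Prop := IsPoly t ∧ (interior t).Nonempty

/-- finite union of nondegenerate convex polygons -/
def PolySet (X : Set E2) : Prop :=
  ∃ T : Set (Set E2), T.Finite ∧ (∀ t ∈ T, IsPoly2 t) ∧ X = ⋃₀ T

section
variable {Y : Type*} [NormedAddCommGroup Y] [InnerProductSpace ℝ Y]

/-- `x` is an interior point of `X` near which `f` is injective -/
def Reg (X : Set E2) (f : E2 → Y) (x : E2) : Prop :=
  ∃ U ∈ 𝓝 x, U ⊆ X ∧ InjOn f U

/-- `f` is piecewise isometric on the finite union `X` of nondegenerate convex polygons -/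
def Pieced (X : Set E2) (f : E2 → Y) : Prop :=
  ∃ T : Set (Set E2), T.Finite ∧ (∀ t ∈ T, IsPoly2 t) ∧ X = ⋃₀ T ∧
    ∀ t ∈ T, ∃ g : E2 →ᵃⁱ[ℝ] Y, ∀ x ∈ t, f x = g x

/-- A noncrossing folding `f` of the paper `X`, with layer order `up` (`up x y`: the layer at `x`
lies above the layer at `y`). Same conditions as in `Hhelper79.Seam.Folding`. -/
structure FoldOn (X : Set E2) (f : E2 → Y) (up : E2 → E2 → Prop) : Prop where
  pieces : Pieced X f
  asymm : ∀ x y, Reg X f x → Reg X f y → f x = f y → up x y → ¬ up y x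
  total : ∀ x y, Reg X f x → Reg X f y → f x = f y → x ≠ y → up x y ∨ up y x
  trans : ∀ x y z, Reg X f x → Reg X f y → Reg X f z → f x = f y → f y = f z →
    up x y → up y z → up x z
  tortilla : ∀ x z, Reg X f x → z ∈ X → z ≠ x → f z = f x →
    (∀ᶠ q : E2 × E2 in 𝓝 (x, z), Reg X f q.1 → Reg X f q.2 → f q.1 = f q.2 → up q.1 q.2) ∨
    (∀ᶠ q : E2 × E2 in 𝓝 (x, z), Reg X f q.1 → Reg X f q.2 → f q.1 = f q.2 → up q.2 q.1)
  taco : ∃ E : Set Y, E.Finite ∧ ∀ z z', z ∈ X → z' ∈ X → z ≠ z' → f z = f z' → f z ∉ E →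
    ∃ V ∈ 𝓝 z, ∃ V' ∈ 𝓝 z', ∀ a ∈ V, ∀ a' ∈ V, ∀ b ∈ V', ∀ b' ∈ V',
      Reg X f a → Reg X f a' → Reg X f b → Reg X f b' → f a = f b → f a' = f b →
      f b' = f b → ¬ (up a b ∧ up b a' ∧ up a' b')

/-- `pos` records which side of the paper is up: it is constant across regular points and changes
across creases. -/
structure SignOn (X : Set E2) (f : E2 → Y) (pos : E2 → Prop) : Prop where
  const : ∀ q, Reg X f q → ∀ᶠ q' in 𝓝 q, (pos q' ↔ pos q)
  flip : ∃ E : Set E2, E.Finite ∧ ∀ q ∈ X, q ∉ E → ∃ V ∈ 𝓝 q, ∀ a ∈ V, ∀ a' ∈ V,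
    Reg X f a → Reg X f a' → a ≠ a' → f a = f a' → (pos a ↔ ¬ pos a')

/-- the layer order of a composition `G ∘ F` -/
def compUp (F : E2 → E2) (upF upG : E2 → E2 → Prop) (pos : E2 → Prop) (x y : E2) : Prop :=
  (F x ≠ F y ∧ upG (F x) (F y)) ∨
    (F x = F y ∧ ((pos (F x) ∧ upF x y) ∨ (¬ pos (F x) ∧ upF y x)))

/-- the layer order of a folding composed of blocks -/
def blockUp {ι : Type*} (R : ι → Set E2) (up : ι → E2 → E2 → Prop) (B : ι → ι → Prop)
    (x y : E2) : Prop :=
  (∃ i, x ∈ R i ∧ y ∈ R i ∧ up i x y) ∨ ∃ i j, i ≠ j ∧ x ∈ R i ∧ y ∈ R j ∧ B i j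

end

/-! ### Reflections and simple folds of the plane -/

/-- reflection across the line `⟪n, y⟫ = c` (`n` a unit vector) -/
noncomputable def refl (l : E2 × ℝ) (y : E2) : E2 :=
  y - (2 * (inner ℝ l.1 y - l.2)) • l.1

/-- the simple fold along the line `⟪n, y⟫ = c`: the half plane `c ≤ ⟪n, y⟫` stays fixed, the
other one is reflected -/
noncomputable def fold (l : E2 × ℝ) (y : E2) : E2 :=
  open scoped Classical in if l.2 ≤ inner ℝ l.1 y then y else refl l y

/-- layer order of the simple fold: the reflected flap lies below -/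
def foldUp (l : E2 × ℝ) (x y : E2) : Prop := l.2 < inner ℝ l.1 x ∧ inner ℝ l.1 y < l.2

/-- sign of the simple fold -/
def foldPos (l : E2 × ℝ) (x : E2) : Prop := l.2 ≤ inner ℝ l.1 x

/-- composition of simple folds; the head of the list is applied last -/
noncomputable def FW : List (E2 × ℝ) → E2 → E2
  | [] => fun x => x
  | l :: w => fun x => fold l (FW w x)

/-- layer order of a composition of simple folds -/
def upW : List (E2 × ℝ) → E2 → E2 → Prop
  | [] => fun _ _ => False
  | l :: w => compUp (FW w) (upW w) (foldUp l) (foldPos l)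

/-- sign of a composition of simple folds -/
def posW : List (E2 × ℝ) → E2 → Prop
  | [] => fun _ => True
  | l :: w => fun x => (posW w x ↔ foldPos l (FW w x))

/-- the convex polygon given by half planes -/
def Hull (Λ : Set (E2 × ℝ)) : Set E2 := {y | ∀ l ∈ Λ, l.2 ≤ inner ℝ l.1 y}

/-- the point with coordinates `a`, `b` -/
noncomputable def pt (a b : ℝ) : E2 := !₂[a, b]

/-- the horizontal unit vector -/
noncomputable def e1 : E2 := !₂[1, 0]

end Pool.Agent.SeamS
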