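import Pool.Agent.SeamS.Surface
import Pool.Agent.SeamS.Poly
import Pool.Agent.SeamS.Local
import Pool.Agent.SeamS.Cells
import Pool.Agent.Hhelper79.Seam.Generic

/-!
# Examples of polyhedral targets (MP_6cce73_lc): sanity checks of the definitions

`example_polygon`: pieces: one piece. `conn`: a nondegenerate convex set in the plane minus a finite set is preconnected (`Hhelper79.Seam.Generic`, or `preconnected_open_diff` and closure). `book`: `C = Hull Λ`, `Λ` finite, unit normals (`IsPoly2.exists_halfplanes`); `V` = the images of the points of `C` which are on the lines of two elements of `Λ` with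
different normals up to sign (finite: two different non-parallel lines meet in one point; parallel different lines do not meet; `(n, c)` and `(-n, -c)` cannot both be in `Λ` because `C` has interior points). An interior point: two half discs with `g' = g`. A point on exactly one line: a half disc with the inner normal. `IsTarget`: `Hhelper79.Seam.isTarget_of_planar`.
`example_cube`: six square faces; `V` = the eight vertices. `IsTarget`: a flat open disc in the surface of the cube is contained in one face plane (its plane meets the surface ...; a flat disc of radius `r` in the union of six planes has its plane among them), and by openness it is in the relative interior of the face or it would cross the edge: at a point of an edge no flat disc fits.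
Connectedness: the union of the faces minus a finite set; neighbouring faces share an edge minus finitely many points.
-/

namespace Pool.Agent.SeamS

open Set Filter Topology Metric Pool.Agent.Hhelper79.Seam

namespace ExamplesAux

theorem range_eq {g h : E2 →ᵃⁱ[ℝ] E3} {x : E2} {r : ℝ} (hr : 0 < r)
    (hg : g '' ball x r ⊆ range h) : range g = range h := by
  have hle : (⊤ : AffineSubspace ℝ E2).map g.toAffineMap ≤
      (⊤ : AffineSubspace ℝ E2).map h.toAffineMap := by
    have h1 : affineSpan ℝ (ball x r) = ⊤ := isOpen_ball.affineSpan_eq_top ⟨x, mem_ball_self hr⟩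
    rw [← h1, AffineSubspace.map_span, affineSpan_le]
    rintro _ ⟨y, hy, rfl⟩
    obtain ⟨z, hz⟩ := hg ⟨y, hy, rfl⟩
    rw [h1]
    exact ⟨z, trivial, hz⟩
  have hdir : ∀ k : E2 →ᵃⁱ[ℝ] E3,
      Module.finrank ℝ ((⊤ : AffineSubspace ℝ E2).map k.toAffineMap).direction = 2 := by
    intro k
    rw [AffineSubspace.map_direction, AffineSubspace.direction_top, Submodule.map_top,
      LinearMap.finrank_range_of_inj]
    · simp
    · exact k.toAffineMap.linear_injective_iff.mpr k.injective
  have heq : (⊤ : AffineSubspace ℝ E2).map g.toAffineMap =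
      (⊤ : AffineSubspace ℝ E2).map h.toAffineMap := by
    refine AffineSubspace.eq_of_direction_eq_of_nonempty_of_le ?_ ⟨g x, x, trivial, rfl⟩ hle
    exact Submodule.eq_of_le_of_finrank_eq (AffineSubspace.direction_le hle)
      ((hdir g).trans (hdir h).symm)
  have key : ∀ k : E2 →ᵃⁱ[ℝ] E3, range k =
      (((⊤ : AffineSubspace ℝ E2).map k.toAffineMap : AffineSubspace ℝ E3) : Set E3) := by
    intro k
    ext z
    constructor
    · rintro ⟨y, rfl⟩
      exact ⟨y, trivial, rfl⟩
    · rintro ⟨y, -, hy⟩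
      exact ⟨y, hy⟩
  rw [key, key, heq]

theorem mem_image_ball {g : E2 →ᵃⁱ[ℝ] E3} {x : E2} {r : ℝ} {s : E3} (hs : s ∈ range g)
    (hd : dist s (g x) < r) : s ∈ g '' ball x r := by
  obtain ⟨y, rfl⟩ := hs
  rw [g.dist_map] at hd
  exact ⟨y, hd, rfl⟩

theorem isTarget_image {C : Set E2} (g : E2 →ᵃⁱ[ℝ] E3) : IsTarget (g '' C) := by
  intro h x r hr hh
  have h1 := range_eq hr (hh.trans (image_subset_range g C))
  filter_upwards [self_mem_nhdsWithin, mem_nhdsWithin_of_mem_nhds (ball_mem_nhds (h x) hr)]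
    with s hs hs2
  apply mem_image_ball _ hs2
  rw [h1]
  exact image_subset_range g C hs

theorem image_inter_ball (g : E2 →ᵃⁱ[ℝ] E3) (p : E2) (r : ℝ) (C : Set E2) :
    g '' C ∩ ball (g p) r = g '' (C ∩ ball p r) := by
  ext s
  constructor
  · rintro ⟨⟨y, hy, rfl⟩, hs⟩
    rw [mem_ball, g.dist_map] at hs
    exact ⟨y, ⟨hy, hs⟩, rfl⟩
  · rintro ⟨y, ⟨hy, hs⟩, rfl⟩
    refine ⟨⟨y, hy, rfl⟩, ?_⟩
    rw [mem_ball, g.dist_map]
    exact hs

theorem norm_e1 : ‖e1‖ = 1 := by
  rw [e1, EuclideanSpace.norm_eq]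
  simp

theorem inner_e1 (y : E2) : inner ℝ e1 y = y 0 := by
  rw [e1]
  simp [EuclideanSpace.inner_eq_star_dotProduct, Fin.sum_univ_two, dotProduct]

theorem conn_image {C : Set E2} (hC : IsPoly2 C) (g : E2 →ᵃⁱ[ℝ] E3) {V : Set E3} (hV : V.Finite) :
    IsPreconnected (g '' C \ V) := by
  have h1 : g '' C \ V = g '' (C \ g ⁻¹' V) := by
    ext s
    constructor
    · rintro ⟨⟨y, hy, rfl⟩, hs⟩
      exact ⟨y, ⟨hy, hs⟩, rfl⟩
    · rintro ⟨y, ⟨hy, hs⟩, rfl⟩
      exact ⟨⟨y, hy, rfl⟩, hs⟩
  rw [h1]
  exact (preconnected_diff hC.1.convex hC.2 (hV.preimage g.injective.injOn)).image _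
    g.continuous.continuousOn

end ExamplesAux

open ExamplesAux

/-- every placed nondegenerate convex polygon is a polyhedral target -/
theorem example_polygon {C : Set E2} (hC : IsPoly2 C) (g : E2 →ᵃⁱ[ℝ] E3) :
    IsPolySurface (g '' C) ∧ IsTarget (g '' C) := by
  refine ⟨⟨?_, ?_, ?_, ?_⟩, isTarget_image g⟩
  · exact ⟨{g '' C}, finite_singleton _, fun t ht => ⟨g, C, hC, ht⟩, (sUnion_singleton _).symm⟩
  · exact (hC.2.mono interior_subset).image _
  · intro V hV
    exact conn_image hC g hV
  · obtain ⟨Λ, hΛ, hun, hCΛ⟩ := hC.exists_halfplanes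
    set W : Set E2 := ⋃ l ∈ Λ, ⋃ l' ∈ Λ, {x | l'.1 ≠ l.1 ∧ l'.1 ≠ -l.1 ∧ inner ℝ l.1 x = l.2 ∧
      inner ℝ l'.1 x = l'.2} with hW
    have hWf : W.Finite := by
      refine hΛ.biUnion fun l hl => hΛ.biUnion fun l' hl' => Set.Subsingleton.finite ?_
      rintro x ⟨h1, h2, h3, h4⟩ y ⟨-, -, h5, h6⟩
      rw [← sub_eq_zero]
      apply meet_unique (hun l hl) (hun l' hl') h1 h2
      · rw [inner_sub_right, h3, h5, sub_self]
      · rw [inner_sub_right, h4, h6, sub_self]
    refine ⟨g '' W, hWf.image _, ?_⟩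
    rintro _ ⟨p, hp, rfl⟩ hpW
    have hpW' : p ∉ W := fun h => hpW ⟨p, h, rfl⟩
    have hint : (interior (Hull Λ)).Nonempty := hCΛ ▸ hC.2
    have hpΛ : p ∈ Hull Λ := hCΛ ▸ hp
    by_cases hact : ∃ l ∈ Λ, inner ℝ l.1 p = l.2
    · obtain ⟨l0, hl0, hlp⟩ := hact
      have hth : ∀ l ∈ Λ, inner ℝ l.1 p = l.2 → l = l0 ∨ l = negl l0 := by
        intro l hl hlp'
        by_contra hcon
        apply hpW'
        refine mem_iUnion₂.mpr ⟨l0, hl0, mem_iUnion₂.mpr ⟨l, hl, ?_, ?_, hlp, hlp'⟩⟩
        · intro h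
          apply hcon
          left
          refine Prod.ext h ?_
          rw [← hlp', ← hlp, h]
        · intro h
          apply hcon
          right
          refine Prod.ext h ?_
          show l.2 = - l0.2
          rw [← hlp', ← hlp, h, inner_neg_left]
      have hnn : negl l0 ∉ Λ := fun h => not_both (hun l0 hl0) hint hl0 h
      obtain ⟨r, hr, hball⟩ := Metric.eventually_nhds_iff_ball.mp (near_hull hΛ hpΛ hth)
      refine isBook_of ⟨r, g, g, l0.1, p, hr, hun l0 hl0, rfl, fun _ _ => rfl, Or.inl ?_⟩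
      rw [image_inter_ball]
      congr 1
      ext y
      constructor
      · rintro ⟨h1, h2⟩
        rw [hCΛ, hball y h2] at h1
        refine ⟨h2, ?_⟩
        rw [inner_sub_right, hlp]
        linarith [h1.1 hl0]
      · rintro ⟨h1, h2⟩
        refine ⟨?_, h1⟩
        rw [hCΛ, hball y h1]
        rw [inner_sub_right, hlp] at h2
        exact ⟨fun _ => by linarith, fun h => absurd h hnn⟩
    · push Not at hact
      have hmem : C ∈ 𝓝 p := by
        have h1 : ∀ᶠ y in 𝓝 p, ∀ l ∈ Λ, l.2 ≤ inner ℝ l.1 y := by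
          rw [Filter.eventually_all_finite hΛ]
          intro l hl
          have hc : ContinuousAt (fun y : E2 => inner ℝ l.1 y) p := by fun_prop
          filter_upwards [hc.eventually (lt_mem_nhds
            (lt_of_le_of_ne (hpΛ l hl) (hact l hl).symm))] with y hy
          exact hy.le
        rw [hCΛ]
        exact h1
      obtain ⟨r, hr, hball⟩ := Metric.mem_nhds_iff.mp hmem
      refine isBook_of ⟨r, g, g, e1, p, hr, norm_e1, rfl, fun _ _ => rfl, Or.inr ?_⟩
      rw [image_inter_ball, ← image_union]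
      congr 1
      ext y
      constructor
      · rintro ⟨h1, h2⟩
        rcases le_total 0 (inner ℝ e1 (y - p)) with h | h
        · exact Or.inl ⟨h2, h⟩
        · exact Or.inr ⟨h2, h⟩
      · rintro (⟨h1, -⟩ | ⟨h1, -⟩)
        · exact ⟨hball h1, h1⟩
        · exact ⟨hball h1, h1⟩

/-- the surface of the unit cube -/
def cubeSurface : Set E3 := {x | (∀ i, x i ∈ Icc (0 : ℝ) 1) ∧ ∃ i, x i = 0 ∨ x i = 1}

namespace ExamplesAux

theorem exists_place (a u v : E3) (hu : ‖u‖ = 1) (hv : ‖v‖ = 1) (huv : inner ℝ u v = 0) :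
    ∃ g : E2 →ᵃⁱ[ℝ] E3, ∀ y, g y = a + (y 0 • u + y 1 • v) := by
  let L : E2 →ₗᵢ[ℝ] E3 :=
    { toFun := fun y => y 0 • u + y 1 • v
      map_add' := by
        intro x y
        simp only [PiLp.add_apply, add_smul]
        abel
      map_smul' := by
        intro c x
        simp only [PiLp.smul_apply, smul_eq_mul, RingHom.id_apply, smul_add, smul_smul]
      norm_map' := by
        intro x
        have h1 : ‖x 0 • u + x 1 • v‖ ^ 2 = ‖x‖ ^ 2 := by
          rw [@norm_add_sq_real, norm_smul, norm_smul, hu, hv, real_inner_smul_left,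
            real_inner_smul_right, huv, EuclideanSpace.norm_sq_eq x, Fin.sum_univ_two]
          simp
        exact (sq_eq_sq₀ (norm_nonneg _) (norm_nonneg _)).mp h1 }
  refine ⟨(AffineIsometryEquiv.constVAdd ℝ E3 a).toAffineIsometry.comp L.toAffineIsometry, ?_⟩
  intro y
  rfl

theorem third : ∀ i j k : Fin 3, i ≠ j → i ≠ k → j ≠ k → ∀ l, l = i ∨ l = j ∨ l = k := by
  decide

theorem exists_third : ∀ i k : Fin 3, i ≠ k → ∃ j, i ≠ j ∧ j ≠ k := by
  decide

/-- the placement with coordinates `a i`, `a j + σ * y 0`, `a k + y 1` -/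
theorem exists_place' {i j k : Fin 3} (hij : i ≠ j) (hik : i ≠ k) (hjk : j ≠ k) (a : E3) (σ : ℝ)
    (hσ : |σ| = 1) : ∃ g : E2 →ᵃⁱ[ℝ] E3, ∀ y, g y i = a i ∧ g y j = a j + σ * y 0 ∧
      g y k = a k + y 1 := by
  obtain ⟨g, hg⟩ := exists_place a (EuclideanSpace.single j σ) (EuclideanSpace.single k 1)
    (by rw [EuclideanSpace.norm_single, Real.norm_eq_abs, hσ])
    (by rw [EuclideanSpace.norm_single, norm_one])
    (by
      rw [EuclideanSpace.inner_single_left]
      simp [hjk])
  refine ⟨g, fun y => ?_⟩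
  rw [hg]
  simp only [PiLp.add_apply, PiLp.smul_apply, EuclideanSpace.single_apply, smul_eq_mul]
  refine ⟨?_, ?_, ?_⟩
  · simp [hij, hik]
  · simp [hjk, mul_comm]
  · simp [hjk.symm]

/-- the face of the unit cube in the plane `x i = ε` -/
def Face (i : Fin 3) (ε : ℝ) : Set E3 := {x | (∀ l, x l ∈ Icc (0 : ℝ) 1) ∧ x i = ε}

/-- the unit square -/
def Sq : Set E2 := {y | y 0 ∈ Icc (0 : ℝ) 1 ∧ y 1 ∈ Icc (0 : ℝ) 1}

theorem isPoly2_sq : IsPoly2 Sq := by
  refine ⟨isPoly_rect 0 1 0 1, ⟨!₂[1 / 2, 1 / 2], ?_⟩⟩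
  rw [mem_interior_iff_mem_nhds]
  have h0 : ∀ᶠ y : E2 in 𝓝 !₂[1 / 2, 1 / 2], y 0 ∈ Ioo (0 : ℝ) 1 := by
    have hc : ContinuousAt (fun y : E2 => y 0) !₂[1 / 2, 1 / 2] := by fun_prop
    refine hc.eventually (isOpen_Ioo.mem_nhds ?_)
    norm_num
  have h1 : ∀ᶠ y : E2 in 𝓝 !₂[1 / 2, 1 / 2], y 1 ∈ Ioo (0 : ℝ) 1 := by
    have hc : ContinuousAt (fun y : E2 => y 1) !₂[1 / 2, 1 / 2] := by fun_prop
    refine hc.eventually (isOpen_Ioo.mem_nhds ?_)
    norm_num
  filter_upwards [h0, h1] with y hy0 hy1
  exact ⟨Ioo_subset_Icc_self hy0, Ioo_subset_Icc_self hy1⟩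

theorem ext3 {i j k : Fin 3} (hij : i ≠ j) (hik : i ≠ k) (hjk : j ≠ k) {x y : E3}
    (hi : x i = y i) (hj : x j = y j) (hk : x k = y k) : x = y := by
  ext l
  rcases third i j k hij hik hjk l with rfl | rfl | rfl
  · exact hi
  · exact hj
  · exact hk

theorem exists_others : ∀ i : Fin 3, ∃ j k, i ≠ j ∧ i ≠ k ∧ j ≠ k := by
  decide

/-- the plane `x i = ε` -/
theorem exists_plane (i : Fin 3) (ε : ℝ) : ∃ g : E2 →ᵃⁱ[ℝ] E3, range g = {x | x i = ε} ∧
    Face i ε ⊆ g '' Sq ∧ (ε ∈ Icc (0 : ℝ) 1 → g '' Sq ⊆ Face i ε) := by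
  obtain ⟨j, k, hij, hik, hjk⟩ := exists_others i
  obtain ⟨g, hg⟩ := exists_place' hij hik hjk (EuclideanSpace.single i ε) 1 (by simp)
  have hg' : ∀ y, g y i = ε ∧ g y j = y 0 ∧ g y k = y 1 := by
    intro y
    obtain ⟨h1, h2, h3⟩ := hg y
    rw [h1, h2, h3]
    simp [hij.symm, hik.symm]
  have hinv : ∀ x : E3, x i = ε → g !₂[x j, x k] = x := by
    intro x hx
    obtain ⟨h1, h2, h3⟩ := hg' !₂[x j, x k]
    exact ext3 hij hik hjk (h1.trans hx.symm) h2 h3
  refine ⟨g, ?_, ?_, ?_⟩
  · ext x
    constructor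
    · rintro ⟨y, rfl⟩
      exact (hg' y).1
    · intro hx
      exact ⟨_, hinv x hx⟩
  · rintro x ⟨hx, hxi⟩
    exact ⟨_, ⟨hx j, hx k⟩, hinv x hxi⟩
  · rintro hε _ ⟨y, ⟨hy0, hy1⟩, rfl⟩
    obtain ⟨h1, h2, h3⟩ := hg' y
    refine ⟨fun l => ?_, h1⟩
    rcases third i j k hij hik hjk l with rfl | rfl | rfl
    · rw [h1]
      exact hε
    · rw [h2]
      exact hy0
    · rw [h3]
      exact hy1

/-- `0` or `1` -/
noncomputable def bv (b : Bool) : ℝ := if b then 1 else 0

theorem bv_cases (b : Bool) : bv b = 0 ∨ bv b = 1 := by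
  cases b <;> simp [bv]

theorem bv_mem (b : Bool) : bv b ∈ Icc (0 : ℝ) 1 := by
  rcases bv_cases b with h | h <;> rw [h] <;> simp

theorem exists_bv {ε : ℝ} (h : ε = 0 ∨ ε = 1) : ∃ b, ε = bv b := by
  rcases h with h | h
  · exact ⟨false, by simp [bv, h]⟩
  · exact ⟨true, by simp [bv, h]⟩

theorem cube_eq : cubeSurface = ⋃ q : Fin 3 × Bool, Face q.1 (bv q.2) := by
  ext x
  constructor
  · rintro ⟨hx, i, hi⟩
    obtain ⟨b, hb⟩ := exists_bv hi
    exact mem_iUnion.mpr ⟨(i, b), hx, hb⟩
  · intro hx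
    obtain ⟨⟨i, b⟩, h1, h2⟩ := mem_iUnion.mp hx
    refine ⟨h1, i, ?_⟩
    rw [show x i = bv b from h2]
    exact bv_cases b

theorem face_eq (i : Fin 3) (b : Bool) : ∃ g : E2 →ᵃⁱ[ℝ] E3, Face i (bv b) = g '' Sq := by
  obtain ⟨g, -, h1, h2⟩ := exists_plane i (bv b)
  exact ⟨g, Subset.antisymm h1 (h2 (bv_mem b))⟩

theorem edge_infinite {i j : Fin 3} (hij : i ≠ j) (b c : Bool) :
    (Face i (bv b) ∩ Face j (bv c)).Infinite := by
  obtain ⟨k, hik, hkj⟩ := exists_third i j hij
  have hinj : Function.Injective (fun t : ℝ => (EuclideanSpace.single i (bv b) +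
      EuclideanSpace.single j (bv c) + EuclideanSpace.single k t : E3)) := by
    intro s t hst
    have h1 := congrArg (fun x : E3 => x k) hst
    simpa [hik.symm, hkj] using h1
  refine ((Icc_infinite (zero_lt_one (α := ℝ))).image hinj.injOn).mono ?_
  rintro _ ⟨t, ht, rfl⟩
  have hi : (EuclideanSpace.single i (bv b) + EuclideanSpace.single j (bv c) +
      EuclideanSpace.single k t : E3) i = bv b := by
    simp [hij, hik]
  have hj : (EuclideanSpace.single i (bv b) + EuclideanSpace.single j (bv c) +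
      EuclideanSpace.single k t : E3) j = bv c := by
    simp [hij.symm, hkj.symm]
  have hk : (EuclideanSpace.single i (bv b) + EuclideanSpace.single j (bv c) +
      EuclideanSpace.single k t : E3) k = t := by
    simp [hik.symm, hkj]
  have hall : ∀ l, (EuclideanSpace.single i (bv b) + EuclideanSpace.single j (bv c) +
      EuclideanSpace.single k t : E3) l ∈ Icc (0 : ℝ) 1 := by
    intro l
    rcases third i j k hij hik hkj.symm l with rfl | rfl | rfl
    · rw [hi]
      exact bv_mem b
    · rw [hj]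
      exact bv_mem c
    · rw [hk]
      exact ht
  exact ⟨⟨hall, hi⟩, hall, hj⟩

theorem conn_cube {V : Set E3} (hV : V.Finite) : IsPreconnected (cubeSurface \ V) := by
  have h1 : cubeSurface \ V = ⋃ q : Fin 3 × Bool, (Face q.1 (bv q.2) \ V) := by
    rw [cube_eq, iUnion_diff]
  rw [h1]
  have hstep : ∀ (q q' : Fin 3 × Bool), q.1 ≠ q'.1 →
      ((Face q.1 (bv q.2) \ V) ∩ (Face q'.1 (bv q'.2) \ V)).Nonempty := by
    intro q q' hq
    obtain ⟨x, hx, hxV⟩ := (edge_infinite hq q.2 q'.2).exists_notMem_finite hV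
    exact ⟨x, ⟨hx.1, hxV⟩, hx.2, hxV⟩
  refine IsPreconnected.iUnion_of_reflTransGen ?_ ?_
  · intro q
    obtain ⟨g, hg⟩ := face_eq q.1 q.2
    rw [hg]
    exact conn_image isPoly2_sq g hV
  · intro q q'
    by_cases hq : q.1 = q'.1
    · obtain ⟨j, -, hij, -, -⟩ := exists_others q.1
      exact (Relation.ReflTransGen.single (hstep q (j, true) hij)).tail
        (hstep (j, true) q' (by
          rw [← hq]
          exact hij.symm))
    · exact Relation.ReflTransGen.single (hstep q q' hq)

theorem abs_coord_lt {x s : E3} {r : ℝ} (h : dist x s < r) (l : Fin 3) : |x l - s l| < r := by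
  refine lt_of_le_of_lt ?_ h
  rw [dist_eq_norm, ← Real.norm_eq_abs]
  exact PiLp.norm_apply_le (x - s) l

theorem abs_coord_lt2 {x s : E2} {r : ℝ} (h : dist x s < r) (l : Fin 2) : |x l - s l| < r := by
  refine lt_of_le_of_lt ?_ h
  rw [dist_eq_norm, ← Real.norm_eq_abs]
  exact PiLp.norm_apply_le (x - s) l

theorem vertices_finite : {x : E3 | ∀ l, x l = 0 ∨ x l = 1}.Finite := by
  refine (finite_range (fun b : Fin 3 → Bool => (WithLp.toLp 2 fun l => bv (b l) : E3))).subset ?_
  intro x hx
  choose b hb using fun l => exists_bv (hx l)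
  refine ⟨b, ?_⟩
  ext l
  exact (hb l).symm

theorem eq_of_near {a b : ℝ} (ha : a = 0 ∨ a = 1) (hb : b = 0 ∨ b = 1) (h : |a - b| < 1) :
    a = b := by
  rw [abs_lt] at h
  rcases ha with rfl | rfl <;> rcases hb with rfl | rfl <;> linarith [h.1, h.2]

theorem not_bv_of_near {a b r : ℝ} (h : |a - b| < r) (h1 : r ≤ b) (h2 : r ≤ 1 - b) :
    0 < a ∧ a < 1 := by
  rw [abs_lt] at h
  constructor <;> linarith [h.1, h.2]

theorem book_cube (s : E3) (hs : s ∈ cubeSurface) (hsV : s ∉ {x : E3 | ∀ l, x l = 0 ∨ x l = 1}) :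
    ∃ (r : ℝ) (g g' : E2 →ᵃⁱ[ℝ] E3) (n p : E2), 0 < r ∧ ‖n‖ = 1 ∧ g p = s ∧
      (∀ y, inner ℝ n (y - p) = 0 → g' y = g y) ∧
      (cubeSurface ∩ ball s r = g '' {y | y ∈ ball p r ∧ 0 ≤ inner ℝ n (y - p)} ∨
        cubeSurface ∩ ball s r = g '' {y | y ∈ ball p r ∧ 0 ≤ inner ℝ n (y - p)} ∪
          g' '' {y | y ∈ ball p r ∧ inner ℝ n (y - p) ≤ 0}) := by
  obtain ⟨hsI, i, hi⟩ := hs
  have hsV' : ∃ k, ¬ (s k = 0 ∨ s k = 1) := by
    by_contra hcon
    apply hsV
    intro l
    by_contra h
    exact hcon ⟨l, h⟩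
  obtain ⟨k, hk⟩ := hsV'
  have hik : i ≠ k := by
    rintro rfl
    exact hk hi
  obtain ⟨j, hij, hjk⟩ := exists_third i k hik
  have hk0 : 0 < s k := lt_of_le_of_ne (hsI k).1 fun h => hk (Or.inl h.symm)
  have hk1 : 0 < 1 - s k := by
    have := lt_of_le_of_ne (hsI k).2 fun h => hk (Or.inr h)
    linarith
  by_cases hj : s j = 0 ∨ s j = 1
  · -- a point on an edge
    obtain ⟨g, hg⟩ := exists_place' hij hik hjk (EuclideanSpace.single i (s i) +
      EuclideanSpace.single j (s j)) (1 - 2 * s j) (by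
        rcases hj with h | h <;> rw [h] <;> norm_num)
    obtain ⟨g', hg'⟩ := exists_place' hij.symm hjk hik (EuclideanSpace.single i (s i) +
      EuclideanSpace.single j (s j)) (-(1 - 2 * s i)) (by
        rcases hi with h | h <;> rw [h] <;> norm_num)
    have hgc : ∀ y, g y i = s i ∧ g y j = s j + (1 - 2 * s j) * y 0 ∧ g y k = y 1 := by
      intro y
      obtain ⟨h1, h2, h3⟩ := hg y
      rw [h1, h2, h3]
      simp [hij, hij.symm, hik.symm, hjk.symm]
    have hgc' : ∀ y, g' y j = s j ∧ g' y i = s i - (1 - 2 * s i) * y 0 ∧ g' y k = y 1 := by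
      intro y
      obtain ⟨h1, h2, h3⟩ := hg' y
      rw [h1, h2, h3]
      simp only [PiLp.add_apply, EuclideanSpace.single_apply]
      simp [hij, hij.symm, hik.symm, hjk.symm]
      ring
    have hp : g !₂[0, s k] = s := by
      obtain ⟨h1, h2, h3⟩ := hgc !₂[0, s k]
      refine ext3 hij hik hjk h1 ?_ h3
      rw [h2]
      simp
    have hp' : g' !₂[0, s k] = s := by
      obtain ⟨h1, h2, h3⟩ := hgc' !₂[0, s k]
      refine ext3 hij.symm hjk hik h1 ?_ h3
      rw [h2]
      simp
    have hin : ∀ y : E2, inner ℝ e1 (y - !₂[0, s k]) = y 0 := by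
      intro y
      rw [inner_e1]
      simp
    set r := min (s k) (1 - s k) with hr
    have hr0 : 0 < r := lt_min hk0 hk1
    have hr1 : r ≤ s k := min_le_left _ _
    have hr2 : r ≤ 1 - s k := min_le_right _ _
    refine ⟨r, g, g', e1, !₂[0, s k], hr0, norm_e1, hp, ?_, Or.inr ?_⟩
    · intro y hy
      rw [hin] at hy
      obtain ⟨h1, h2, h3⟩ := hgc y
      obtain ⟨h1', h2', h3'⟩ := hgc' y
      refine ext3 hij hik hjk ?_ ?_ ?_
      · rw [h1, h2', hy]
        ring
      · rw [h2, h1', hy]
        ring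
      · rw [h3, h3']
    · simp only [hin]
      ext x
      constructor
      · rintro ⟨⟨hxI, l, hl⟩, hxb⟩
        have hxb' : dist x s < r := hxb
        have hxk := not_bv_of_near (abs_coord_lt hxb' k) hr1 hr2
        rcases third i j k hij hik hjk l with rfl | rfl | rfl
        · have hxi := eq_of_near hl hi ((abs_coord_lt hxb' l).trans_le (by linarith))
          have hgx : g !₂[(1 - 2 * s j) * (x j - s j), x k] = x := by
            obtain ⟨h1, h2, h3⟩ := hgc !₂[(1 - 2 * s j) * (x j - s j), x k]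
            refine ext3 hij hik hjk (h1.trans hxi.symm) ?_ h3
            rw [h2]
            show s j + (1 - 2 * s j) * ((1 - 2 * s j) * (x j - s j)) = x j
            rcases hj with h | h <;> rw [h] <;> ring
          refine Or.inl ⟨_, ⟨?_, ?_⟩, hgx⟩
          · rw [mem_ball, ← g.dist_map, hgx, hp]
            exact hxb'
          · rcases hj with h | h <;> rw [h] <;> simp
            · exact (hxI j).1
            · have := (hxI j).2
              nlinarith
        · have hxj := eq_of_near hl hj ((abs_coord_lt hxb' l).trans_le (by linarith))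
          have hgx : g' !₂[-(1 - 2 * s i) * (x i - s i), x k] = x := by
            obtain ⟨h1, h2, h3⟩ := hgc' !₂[-(1 - 2 * s i) * (x i - s i), x k]
            refine ext3 hij.symm hjk hik (h1.trans hxj.symm) ?_ h3
            rw [h2]
            show s i - (1 - 2 * s i) * (-(1 - 2 * s i) * (x i - s i)) = x i
            rcases hi with h | h <;> rw [h] <;> ring
          refine Or.inr ⟨_, ⟨?_, ?_⟩, hgx⟩
          · rw [mem_ball, ← g'.dist_map, hgx, hp']
            exact hxb'
          · rcases hi with h | h <;> rw [h] <;> simp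
            · exact (hxI i).1
            · have := (hxI i).2
              nlinarith
        · rcases hl with h | h
          · linarith [hxk.1]
          · linarith [hxk.2]
      · rintro (⟨y, ⟨hyb, hy0⟩, rfl⟩ | ⟨y, ⟨hyb, hy0⟩, rfl⟩)
        · have hyb' : dist (g y) s < r := by
            rw [← hp, g.dist_map]
            exact hyb
          obtain ⟨h1, h2, h3⟩ := hgc y
          have ha := abs_coord_lt2 (mem_ball.mp hyb) 0
          have hb := abs_coord_lt2 (mem_ball.mp hyb) 1
          simp at ha hb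
          rw [abs_lt] at ha hb
          refine ⟨⟨fun l => ?_, i, ?_⟩, hyb'⟩
          · rcases third i j k hij hik hjk l with rfl | rfl | rfl
            · rw [h1]
              exact hsI _
            · rw [h2]
              rcases hj with h | h <;> rw [h] <;> constructor <;> linarith [ha.1, ha.2]
            · rw [h3]
              constructor <;> linarith [hb.1, hb.2]
          · rw [h1]
            exact hi
        · have hyb' : dist (g' y) s < r := by
            rw [← hp', g'.dist_map]
            exact hyb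
          obtain ⟨h1, h2, h3⟩ := hgc' y
          have ha := abs_coord_lt2 (mem_ball.mp hyb) 0
          have hb := abs_coord_lt2 (mem_ball.mp hyb) 1
          simp at ha hb
          rw [abs_lt] at ha hb
          refine ⟨⟨fun l => ?_, j, ?_⟩, hyb'⟩
          · rcases third i j k hij hik hjk l with rfl | rfl | rfl
            · rw [h2]
              rcases hi with h | h <;> rw [h] <;> constructor <;> linarith [ha.1, ha.2]
            · rw [h1]
              exact hsI _
            · rw [h3]
              constructor <;> linarith [hb.1, hb.2]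
          · rw [h1]
            exact hj
  · -- a point in the interior of a face
    have hj0 : 0 < s j := lt_of_le_of_ne (hsI j).1 fun h => hj (Or.inl h.symm)
    have hj1 : 0 < 1 - s j := by
      have := lt_of_le_of_ne (hsI j).2 fun h => hj (Or.inr h)
      linarith
    obtain ⟨g, hg⟩ := exists_place' hij hik hjk (EuclideanSpace.single i (s i)) 1 (by simp)
    have hgc : ∀ y, g y i = s i ∧ g y j = y 0 ∧ g y k = y 1 := by
      intro y
      obtain ⟨h1, h2, h3⟩ := hg y
      rw [h1, h2, h3]
      simp [hij.symm, hik.symm]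
    have hinv : ∀ x : E3, x i = s i → g !₂[x j, x k] = x := by
      intro x hx
      obtain ⟨h1, h2, h3⟩ := hgc !₂[x j, x k]
      exact ext3 hij hik hjk (h1.trans hx.symm) h2 h3
    set r := min (min (s k) (1 - s k)) (min (s j) (1 - s j)) with hr
    have hr0 : 0 < r := lt_min (lt_min hk0 hk1) (lt_min hj0 hj1)
    have hr1 : r ≤ s k := (min_le_left _ _).trans (min_le_left _ _)
    have hr2 : r ≤ 1 - s k := (min_le_left _ _).trans (min_le_right _ _)
    have hr3 : r ≤ s j := (min_le_right _ _).trans (min_le_left _ _)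
    have hr4 : r ≤ 1 - s j := (min_le_right _ _).trans (min_le_right _ _)
    refine ⟨r, g, g, e1, !₂[s j, s k], hr0, norm_e1, hinv s rfl, fun _ _ => rfl, Or.inr ?_⟩
    rw [← image_union]
    ext x
    constructor
    · rintro ⟨⟨hxI, l, hl⟩, hxb⟩
      have hxb' : dist x s < r := hxb
      have hxk := not_bv_of_near (abs_coord_lt hxb' k) hr1 hr2
      have hxj := not_bv_of_near (abs_coord_lt hxb' j) hr3 hr4
      have hxi : x i = s i := by
        rcases third i j k hij hik hjk l with rfl | rfl | rfl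
        · exact eq_of_near hl hi ((abs_coord_lt hxb' l).trans_le (by linarith))
        · rcases hl with h | h
          · linarith [hxj.1]
          · linarith [hxj.2]
        · rcases hl with h | h
          · linarith [hxk.1]
          · linarith [hxk.2]
      refine ⟨_, ?_, hinv x hxi⟩
      have hb : (!₂[x j, x k] : E2) ∈ ball (!₂[s j, s k] : E2) r := by
        rw [mem_ball, ← g.dist_map, hinv x hxi, hinv s rfl]
        exact hxb'
      rcases le_total 0 (inner ℝ e1 ((!₂[x j, x k] : E2) - !₂[s j, s k])) with h | h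
      · exact Or.inl ⟨hb, h⟩
      · exact Or.inr ⟨hb, h⟩
    · rintro ⟨y, hy, rfl⟩
      have hyb : y ∈ ball (!₂[s j, s k] : E2) r := by
        rcases hy with h | h
        · exact h.1
        · exact h.1
      have hyb' : dist (g y) s < r := by
        rw [← hinv s rfl, g.dist_map]
        exact hyb
      obtain ⟨h1, h2, h3⟩ := hgc y
      refine ⟨⟨fun l => ?_, i, ?_⟩, hyb'⟩
      · rcases third i j k hij hik hjk l with rfl | rfl | rfl
        · rw [h1]
          exact hsI _
        · have := not_bv_of_near (abs_coord_lt hyb' l) hr3 hr4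
          exact ⟨this.1.le, this.2.le⟩
        · have := not_bv_of_near (abs_coord_lt hyb' l) hr1 hr2
          exact ⟨this.1.le, this.2.le⟩
      · rw [h1]
        exact hi

theorem isTarget_cube : IsTarget cubeSurface := by
  classical
  intro g x r hr hg
  -- the plane of the disc is the plane of a face
  obtain ⟨i, b, hib⟩ : ∃ (i : Fin 3) (b : Bool), range g = {z | z i = bv b} := by
    obtain ⟨t, ht, z, hz1, hz2⟩ := exists_interior
      ((Finset.univ : Finset (Fin 3 × Bool)).image (fun q => {y : E2 | g y q.1 = bv q.2}))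
      (by
        intro t ht
        obtain ⟨q, -, rfl⟩ := Finset.mem_image.mp ht
        have hc : Continuous fun y : E2 => g y q.1 := by
          have := g.continuous
          fun_prop
        exact isClosed_eq hc continuous_const) isOpen_ball ⟨x, mem_ball_self hr⟩ (by
        intro y hy
        have h1 := hg ⟨y, hy, rfl⟩
        rw [cube_eq] at h1
        obtain ⟨q, hq⟩ := mem_iUnion.mp h1
        exact mem_iUnion₂.mpr ⟨_, Finset.mem_image.mpr ⟨q, Finset.mem_univ _, rfl⟩, hq.2⟩)
    obtain ⟨q, -, rfl⟩ := Finset.mem_image.mp ht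
    obtain ⟨ρ, hρ, hball⟩ := Metric.mem_nhds_iff.mp (mem_interior_iff_mem_nhds.mp hz1)
    obtain ⟨h, hh, -⟩ := exists_plane q.1 (bv q.2)
    refine ⟨q.1, q.2, ?_⟩
    rw [← hh]
    refine range_eq (x := z) hρ ?_
    rw [hh]
    rintro _ ⟨y, hy, rfl⟩
    exact hball hy
  have hxi : g x i = bv b := by
    have : g x ∈ range g := ⟨x, rfl⟩
    rw [hib] at this
    exact this
  have hbound : ∀ j, j ≠ i → r / 2 ≤ g x j ∧ g x j ≤ 1 - r / 2 := by
    intro j hji
    have key : ∀ t : ℝ, |t| < r → g x j + t ∈ Icc (0 : ℝ) 1 := by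
      intro t ht
      have h1 : g x + EuclideanSpace.single j t ∈ range g := by
        rw [hib]
        show (g x + EuclideanSpace.single j t) i = bv b
        simp [hji.symm, hxi]
      have h2 : g x + EuclideanSpace.single j t ∈ g '' ball x r := by
        apply mem_image_ball h1
        rw [dist_eq_norm, add_sub_cancel_left, EuclideanSpace.norm_single]
        exact ht
      have h3 := (hg h2).1 j
      simpa using h3
    have h1 := key (-(r / 2)) (by
      rw [abs_neg, abs_of_pos (by linarith)]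
      linarith)
    have h2 := key (r / 2) (by
      rw [abs_of_pos (by linarith)]
      linarith)
    constructor
    · linarith [h1.1]
    · linarith [h2.2]
  filter_upwards [self_mem_nhdsWithin, mem_nhdsWithin_of_mem_nhds
    (ball_mem_nhds (g x) (show 0 < min (r / 2) (1 / 2) by positivity))] with s hs hsb
  have hd : dist s (g x) < min (r / 2) (1 / 2) := hsb
  have hd1 : min (r / 2) (1 / 2) ≤ r / 2 := min_le_left _ _
  have hd2 : min (r / 2) (1 / 2) ≤ 1 / 2 := min_le_right _ _
  have hsi : s i = bv b := by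
    obtain ⟨l, hl⟩ := hs.2
    by_cases hli : l = i
    · subst hli
      have h1 := abs_coord_lt hd l
      rw [hxi] at h1
      exact eq_of_near hl (bv_cases b) (by linarith)
    · exfalso
      obtain ⟨h2, h3⟩ := hbound l hli
      have h1 := not_bv_of_near (abs_coord_lt hd l) (by linarith) (by linarith)
      rcases hl with h | h
      · linarith [h1.1]
      · linarith [h1.2]
  apply mem_image_ball
  · rw [hib]
    exact hsi
  · linarith

end ExamplesAux

/-- the surface of the cube is a polyhedral target -/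
theorem example_cube : IsPolySurface cubeSurface ∧ IsTarget cubeSurface := by
  refine ⟨⟨?_, ?_, ?_, ?_⟩, isTarget_cube⟩
  · refine ⟨range fun q : Fin 3 × Bool => Face q.1 (bv q.2), finite_range _, ?_, ?_⟩
    · rintro _ ⟨q, rfl⟩
      obtain ⟨g, hg⟩ := face_eq q.1 q.2
      exact ⟨g, Sq, isPoly2_sq, hg⟩
    · rw [cube_eq, sUnion_range]
  · exact ⟨0, fun i => by simp, 0, by simp⟩
  · intro V hV
    exact conn_cube hV
  · exact ⟨_, vertices_finite, fun s hs hsV => isBook_of (book_cube s hs hsV)⟩

end Pool.Agent.SeamS
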