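import Pool.Agent.SeamS.Fold

/-!
# Termination (module C3)

Let `Λ` be a finite set of unit normal half planes with a point `c₀` strictly inside `Hull Λ`. Then for every bounded
set `B` there is a word `w` in `Λ` such that `FW w` maps `B` into `Hull Λ`.

Proof (induction on the number of elements of `Λ`). All words act by `1`-Lipschitz maps which fix the points of
`C = Hull Λ`.
(A) If `K` is compact, invariant under all words, and every `y ∈ K` has a neighbourhood which is mapped into `C` by some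
word, then some word maps `K` into `C` (Lebesgue number, finite cover by balls, `1`-Lipschitz).
(B) The closure of the orbit of every point meets `C`: minimise the distance to `c₀` on the closure of the orbit.
(C) If `z ∈ C` and not all lines pass through `z` then by induction some word in the half planes whose lines pass
through `z` maps a small ball about `z` into `C`.
If no point lies on all lines then (A), (B), (C) give the theorem. If all lines pass through `z₀` then all words preserve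
the distance to `z₀` and commute with homotheties with centre `z₀`, so one works on the unit circle about `z₀`.
-/

namespace Pool.Agent.SeamS

open Set Filter Topology Metric Pool.Agent.Hhelper79.Seam

theorem FW_append (a b : List (E2 × ℝ)) (y : E2) : FW (a ++ b) y = FW a (FW b y) := by
  induction a with
  | nil => rfl
  | cons l a ih =>
    change fold l (FW (a ++ b) y) = fold l (FW a (FW b y))
    rw [ih]

theorem dist_FW_le {w : List (E2 × ℝ)} (hw : ∀ l ∈ w, ‖l.1‖ = 1) (x y : E2) :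
    dist (FW w x) (FW w y) ≤ dist x y := by
  induction w with
  | nil => exact le_refl _
  | cons l w ih =>
    exact (dist_fold_le (hw l List.mem_cons_self) _ _).trans
      (ih fun l' hl' => hw l' (List.mem_cons_of_mem _ hl'))

/-- (A) -/
theorem word_of_local {Λ : Set (E2 × ℝ)} (hn : ∀ l ∈ Λ, ‖l.1‖ = 1) {K : Set E2}
    (hK : IsCompact K) (hinv : ∀ w : List (E2 × ℝ), (∀ l ∈ w, l ∈ Λ) → ∀ y ∈ K, FW w y ∈ K)
    (hloc : ∀ y ∈ K, ∃ w : List (E2 × ℝ), (∀ l ∈ w, l ∈ Λ) ∧ ∀ᶠ x in 𝓝 y, FW w x ∈ Hull Λ) :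
    ∃ w : List (E2 × ℝ), (∀ l ∈ w, l ∈ Λ) ∧ ∀ y ∈ K, FW w y ∈ Hull Λ := by
  obtain ⟨δ, hδ, hleb⟩ := lebesgue_number_lemma_of_metric
    (c := fun w : {w : List (E2 × ℝ) // ∀ l ∈ w, l ∈ Λ} => interior {x | FW w.1 x ∈ Hull Λ}) hK
    (fun w => isOpen_interior) (fun y hy => by
      obtain ⟨w, hw, h⟩ := hloc y hy
      exact mem_iUnion.2 ⟨⟨w, hw⟩, mem_interior_iff_mem_nhds.2 h⟩)
  obtain ⟨t, htK, htf, hcov⟩ := hK.finite_cover_balls hδ
  have key : ∀ s : Finset E2, (↑s : Set E2) ⊆ t → ∃ w : List (E2 × ℝ), (∀ l ∈ w, l ∈ Λ) ∧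
      ∀ y ∈ s, ∀ x ∈ ball y δ, FW w x ∈ Hull Λ := by
    classical
    intro s
    induction s using Finset.induction_on with
    | empty => exact fun _ => ⟨[], by simp, by simp⟩
    | insert y₀ s _ ih =>
      intro hs
      obtain ⟨w, hw, h⟩ := ih (fun x hx => hs (Finset.mem_insert_of_mem hx))
      have hy₀ : y₀ ∈ K := htK (hs (Finset.mem_insert_self _ _))
      obtain ⟨⟨w', hw'⟩, h'⟩ := hleb _ (hinv w hw y₀ hy₀)
      refine ⟨w' ++ w, fun l hl => ?_, fun y hy x hx => ?_⟩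
      · rcases List.mem_append.1 hl with hl | hl
        · exact hw' l hl
        · exact hw l hl
      · rw [FW_append]
        rcases Finset.mem_insert.1 hy with rfl | hy
        · have h1 : FW w x ∈ ball (FW w y) δ :=
            lt_of_le_of_lt (dist_FW_le (fun l hl => hn l (hw l hl)) x y) hx
          have h2 := h' h1
          exact interior_subset (s := {x | FW w' x ∈ Hull Λ}) h2
        · have h1 := h y hy x hx
          rw [FW_fixed' fun l hl => h1 l (hw' l hl)]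
          exact h1
  obtain ⟨w, hw, h⟩ := key htf.toFinset (by simp)
  refine ⟨w, hw, fun y hy => ?_⟩
  obtain ⟨z, hz, hyz⟩ := mem_iUnion₂.1 (hcov hy)
  exact h z (htf.mem_toFinset.2 hz) y hyz

/-- (B) -/
theorem exists_mem_closure {Λ : Set (E2 × ℝ)} (hn : ∀ l ∈ Λ, ‖l.1‖ = 1) {c₀ : E2}
    (hc : ∀ l ∈ Λ, l.2 < inner ℝ l.1 c₀) (y : E2) :
    ∃ z ∈ Hull Λ, z ∈ closure {x | ∃ w : List (E2 × ℝ), (∀ l ∈ w, l ∈ Λ) ∧ FW w y = x} := by
  set O : Set E2 := {x | ∃ w : List (E2 × ℝ), (∀ l ∈ w, l ∈ Λ) ∧ FW w y = x} with hO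
  have hyO : y ∈ O := ⟨[], by simp, rfl⟩
  have hsub : O ⊆ closedBall c₀ (dist y c₀) := by
    rintro x ⟨w, hw, rfl⟩
    have h1 := dist_FW_le (fun l hl => hn l (hw l hl)) y c₀
    rw [FW_fixed' fun l hl => (hc l (hw l hl)).le] at h1
    exact h1
  have hcomp : IsCompact (closure O) :=
    (isCompact_closedBall c₀ (dist y c₀)).of_isClosed_subset isClosed_closure
      (closure_minimal hsub isClosed_closedBall)
  obtain ⟨z, hz, hmin⟩ := hcomp.exists_isMinOn ⟨y, subset_closure hyO⟩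
    (f := fun x => dist x c₀) (by fun_prop)
  refine ⟨z, fun l hl => ?_, hz⟩
  by_contra hlt
  rw [not_le] at hlt
  have h1 : fold l z ∈ closure O := by
    have hmaps : MapsTo (fold l) O O := by
      rintro x ⟨w, hw, rfl⟩
      refine ⟨l :: w, fun l' hl' => ?_, rfl⟩
      rcases List.mem_cons.1 hl' with rfl | hl'
      · exact hl
      · exact hw l' hl'
    exact (hmaps.closure (fold_continuous (hn l hl))) hz
  exact absurd (hmin h1) (not_le.2 (dist_fold_lt (hn l hl) (hc l hl) hlt))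

/-- from (B) and a word which works near the points of `Hull Λ` -/
theorem eventually_of_hull {Λ : Set (E2 × ℝ)} (hn : ∀ l ∈ Λ, ‖l.1‖ = 1) {c₀ : E2}
    (hc : ∀ l ∈ Λ, l.2 < inner ℝ l.1 c₀) (y : E2)
    (h : ∀ z ∈ Hull Λ, z ∈ closure {x | ∃ w : List (E2 × ℝ), (∀ l ∈ w, l ∈ Λ) ∧ FW w y = x} →
      ∃ r > 0, ∃ w : List (E2 × ℝ), (∀ l ∈ w, l ∈ Λ) ∧ ∀ x ∈ ball z r, FW w x ∈ Hull Λ) :
    ∃ w : List (E2 × ℝ), (∀ l ∈ w, l ∈ Λ) ∧ ∀ᶠ x in 𝓝 y, FW w x ∈ Hull Λ := by
  obtain ⟨z, hz, hcl⟩ := exists_mem_closure hn hc y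
  obtain ⟨r, hr, w, hw, hball⟩ := h z hz hcl
  obtain ⟨_, ⟨a, ha, rfl⟩, hdist⟩ := Metric.mem_closure_iff.1 hcl (r / 2) (by linarith)
  refine ⟨w ++ a, fun l hl => ?_, ?_⟩
  · rcases List.mem_append.1 hl with hl | hl
    · exact hw l hl
    · exact ha l hl
  · filter_upwards [Metric.ball_mem_nhds y (show (0 : ℝ) < r / 2 by linarith)] with x hx
    rw [FW_append]
    apply hball
    rw [mem_ball]
    have h1 := dist_FW_le (fun l hl => hn l (ha l hl)) x y
    have h2 := dist_triangle (FW a x) (FW a y) z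
    rw [dist_comm (FW a y) z] at h2
    rw [mem_ball] at hx
    linarith

theorem dist_fold_eq {l : E2 × ℝ} (hl : ‖l.1‖ = 1) {z₀ : E2} (hz : inner ℝ l.1 z₀ = l.2)
    (y : E2) : dist (fold l y) z₀ = dist y z₀ := by
  rcases le_or_gt l.2 (inner ℝ l.1 y) with h | h
  · rw [fold_pos h]
  · rw [fold_neg h, dist_comm, dist_comm y z₀, ← sq_eq_sq₀ dist_nonneg dist_nonneg,
      dist_sq_refl hl, hz, sub_self, mul_zero, mul_zero, add_zero]

theorem dist_FW_eq {w : List (E2 × ℝ)} (hw : ∀ l ∈ w, ‖l.1‖ = 1) {z₀ : E2}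
    (hz : ∀ l ∈ w, inner ℝ l.1 z₀ = l.2) (y : E2) : dist (FW w y) z₀ = dist y z₀ := by
  induction w with
  | nil => rfl
  | cons l w ih =>
    change dist (fold l (FW w y)) z₀ = dist y z₀
    rw [dist_fold_eq (hw l List.mem_cons_self) (hz l List.mem_cons_self),
      ih (fun l' hl' => hw l' (List.mem_cons_of_mem _ hl'))
        (fun l' hl' => hz l' (List.mem_cons_of_mem _ hl'))]

theorem inner_homothety {l : E2 × ℝ} {z₀ : E2} (hz : inner ℝ l.1 z₀ = l.2) (t : ℝ) (y : E2) :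
    inner ℝ l.1 (z₀ + t • (y - z₀)) = l.2 + t * (inner ℝ l.1 y - l.2) := by
  rw [inner_add_right, inner_smul_right, inner_sub_right, hz]

theorem fold_homothety {l : E2 × ℝ} {z₀ : E2} (hz : inner ℝ l.1 z₀ = l.2) {t : ℝ} (ht : 0 < t)
    (y : E2) : fold l (z₀ + t • (y - z₀)) = z₀ + t • (fold l y - z₀) := by
  rcases le_or_gt l.2 (inner ℝ l.1 y) with h | h
  · rw [fold_pos h, fold_pos]
    rw [inner_homothety hz]
    have := mul_nonneg ht.le (sub_nonneg.2 h)
    linarith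
  · rw [fold_neg h, fold_neg, refl, refl, inner_homothety hz]
    · rw [add_sub_cancel_left, add_sub_assoc]
      congr 1
      rw [sub_right_comm, smul_sub t (y - z₀), smul_smul]
      congr 2
      ring
    · rw [inner_homothety hz]
      have := mul_neg_of_pos_of_neg ht (sub_neg.2 h)
      linarith

theorem FW_homothety {w : List (E2 × ℝ)} {z₀ : E2} (hz : ∀ l ∈ w, inner ℝ l.1 z₀ = l.2) {t : ℝ}
    (ht : 0 < t) (y : E2) : FW w (z₀ + t • (y - z₀)) = z₀ + t • (FW w y - z₀) := by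
  induction w with
  | nil => rfl
  | cons l w ih =>
    change fold l (FW w (z₀ + t • (y - z₀))) = z₀ + t • (fold l (FW w y) - z₀)
    rw [ih (fun l' hl' => hz l' (List.mem_cons_of_mem _ hl')),
      fold_homothety (hz l List.mem_cons_self) ht]

/-- (C) -/
theorem local_of_subset {Λ : Set (E2 × ℝ)} (hΛ : Λ.Finite) (hn : ∀ l ∈ Λ, ‖l.1‖ = 1)
    (ih : ∀ Λ' : Set (E2 × ℝ), Λ' ⊂ Λ → ∀ B : Set E2, Bornology.IsBounded B →
      ∃ w : List (E2 × ℝ), (∀ l ∈ w, l ∈ Λ') ∧ ∀ y ∈ B, FW w y ∈ Hull Λ')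
    {z : E2} (hz : z ∈ Hull Λ) {l₀ : E2 × ℝ} (hl₀ : l₀ ∈ Λ) (hz₀ : inner ℝ l₀.1 z ≠ l₀.2) :
    ∃ r > 0, ∃ w : List (E2 × ℝ), (∀ l ∈ w, l ∈ Λ) ∧ ∀ x ∈ ball z r, FW w x ∈ Hull Λ := by
  set Λ' : Set (E2 × ℝ) := {l ∈ Λ | inner ℝ l.1 z = l.2} with hΛ'
  have hsub : Λ' ⊂ Λ := by
    refine ⟨fun l hl => hl.1, fun h => hz₀ (h hl₀).2⟩
  have hev : ∀ᶠ x in 𝓝 z, ∀ l ∈ Λ \ Λ', l.2 < inner ℝ l.1 x := by
    rw [Filter.eventually_all_finite (hΛ.subset sdiff_subset)]
    intro l hl
    apply eventually_gt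
    refine lt_of_le_of_ne (hz l hl.1) fun h => hl.2 ⟨hl.1, h.symm⟩
  obtain ⟨r, hr, hball⟩ := Metric.eventually_nhds_iff_ball.1 hev
  obtain ⟨w, hw, h⟩ := ih Λ' hsub (ball z r) isBounded_ball
  refine ⟨r, hr, w, fun l hl => (hw l hl).1, fun x hx l hl => ?_⟩
  by_cases hl' : l ∈ Λ'
  · exact h x hx l hl'
  · have h1 := dist_FW_le (fun l hl => hn l (hw l hl).1) x z
    rw [FW_fixed' fun l hl => hz l (hw l hl).1] at h1
    exact (hball _ (lt_of_le_of_lt h1 hx) l ⟨hl, hl'⟩).le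

/-- two half planes with unit normals, the same boundary line and a common point strictly inside are equal -/
theorem eq_of_line {l l' : E2 × ℝ} (hl : ‖l.1‖ = 1) (hl' : ‖l'.1‖ = 1) {c₀ z y : E2}
    (hc : l.2 < inner ℝ l.1 c₀) (hc' : l'.2 < inner ℝ l'.1 c₀) (hz : inner ℝ l.1 z = l.2)
    (hz' : inner ℝ l'.1 z = l'.2) (hy : inner ℝ l.1 y = l.2) (hy' : inner ℝ l'.1 y = l'.2)
    (hne : y ≠ z) : l = l' := by
  have h1 : inner ℝ l.1 (y - z) = 0 := by rw [inner_sub_right, hz, hy, sub_self]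
  have h2 : inner ℝ l'.1 (y - z) = 0 := by rw [inner_sub_right, hz', hy', sub_self]
  have h3 : 0 < inner ℝ l.1 (c₀ - z) := by rw [inner_sub_right, hz]; linarith
  have h4 : 0 < inner ℝ l'.1 (c₀ - z) := by rw [inner_sub_right, hz']; linarith
  have e0 : y 0 - z 0 ≠ 0 ∨ y 1 - z 1 ≠ 0 := by
    by_contra hcon
    rw [not_or, not_not, not_not] at hcon
    apply hne
    ext i
    fin_cases i
    · simpa using sub_eq_zero.1 hcon.1
    · simpa using sub_eq_zero.1 hcon.2
  have n1 : l.1 0 ^ 2 + l.1 1 ^ 2 = 1 := by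
    have := EuclideanSpace.norm_sq_eq l.1
    rw [hl, Fin.sum_univ_two] at this
    simpa using this.symm
  have n2 : l'.1 0 ^ 2 + l'.1 1 ^ 2 = 1 := by
    have := EuclideanSpace.norm_sq_eq l'.1
    rw [hl', Fin.sum_univ_two] at this
    simpa using this.symm
  simp only [PiLp.inner_apply, Fin.sum_univ_two, PiLp.sub_apply, RCLike.inner_apply,
    conj_trivial] at h1 h2 h3 h4
  have key : l.1 0 = l'.1 0 ∧ l.1 1 = l'.1 1 := by
    set a := l.1 0
    set b := l.1 1
    set a' := l'.1 0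
    set b' := l'.1 1
    set u := y 0 - z 0
    set v := y 1 - z 1
    have hab : a * b' = b * a' := by
      rcases e0 with h | h
      · apply mul_left_cancel₀ h
        linear_combination b' * h1 - b * h2
      · apply mul_left_cancel₀ h
        linear_combination (-a') * h1 + a * h2
    -- a' = s a, b' = s b with s = a a' + b b', s ^ 2 = 1
    set s := a * a' + b * b'
    have ha : a' = s * a := by
      simp only [s]
      linear_combination (-a') * n1 - b * hab
    have hb : b' = s * b := by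
      simp only [s]
      linear_combination (-b') * n1 + a * hab
    have hs : s ^ 2 = 1 := by
      have : (s * a) ^ 2 + (s * b) ^ 2 = 1 := by rw [← ha, ← hb]; exact n2
      linear_combination this - s ^ 2 * n1
    have hs1 : s = 1 := by
      have h5 : (s - 1) * (s + 1) = 0 := by linear_combination hs
      rcases mul_eq_zero.1 h5 with h | h
      · linarith
      · exfalso
        have h6 : s = -1 := by linarith
        rw [ha, hb, h6] at h4
        nlinarith
    rw [ha, hb, hs1]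
    simp
  have e1 : l.1 = l'.1 := by
    ext i
    fin_cases i
    · exact key.1
    · exact key.2
  refine Prod.ext e1 ?_
  rw [← hz, ← hz', e1]

theorem exists_word_aux : ∀ (n : ℕ) {Λ : Set (E2 × ℝ)} (_ : Λ.Finite) (_ : Λ.ncard = n)
    (_ : ∀ l ∈ Λ, ‖l.1‖ = 1) {c₀ : E2} (_ : ∀ l ∈ Λ, l.2 < inner ℝ l.1 c₀)
    {B : Set E2} (_ : Bornology.IsBounded B),
    ∃ w : List (E2 × ℝ), (∀ l ∈ w, l ∈ Λ) ∧ ∀ y ∈ B, FW w y ∈ Hull Λ := by
  intro n
  induction n using Nat.strong_induction_on with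
  | _ n IH =>
  intro Λ hΛ hcard hn c₀ hc B hB
  have ih : ∀ Λ' : Set (E2 × ℝ), Λ' ⊂ Λ → ∀ B : Set E2, Bornology.IsBounded B →
      ∃ w : List (E2 × ℝ), (∀ l ∈ w, l ∈ Λ') ∧ ∀ y ∈ B, FW w y ∈ Hull Λ' := by
    intro Λ' hsub B hB
    exact IH _ (hcard ▸ Set.ncard_lt_ncard hsub hΛ) (hΛ.subset hsub.1) rfl
      (fun l hl => hn l (hsub.1 hl)) (fun l hl => hc l (hsub.1 hl)) hB
  by_cases hz₀ : ∃ z₀ : E2, ∀ l ∈ Λ, inner ℝ l.1 z₀ = l.2
  · obtain ⟨z₀, hz₀⟩ := hz₀
    rcases Set.eq_empty_or_nonempty Λ with rfl | ⟨l₀, hl₀⟩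
    · exact ⟨[], by simp, fun y _ l hl => absurd hl (notMem_empty l)⟩
    by_cases hone : ∀ l ∈ Λ, l = l₀
    · refine ⟨[l₀], by simpa using hl₀, fun y _ l hl => ?_⟩
      rw [hone l hl]
      exact le_inner_fold (hn l₀ hl₀) y
    · rw [not_forall₂] at hone
      obtain ⟨l₁, hl₁, hne⟩ := hone
      have hinv : ∀ w : List (E2 × ℝ), (∀ l ∈ w, l ∈ Λ) → ∀ y ∈ sphere z₀ 1,
          FW w y ∈ sphere z₀ 1 := by
        intro w hw y hy
        rw [mem_sphere, dist_FW_eq (fun l hl => hn l (hw l hl)) (fun l hl => hz₀ l (hw l hl))]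
        exact hy
      obtain ⟨w, hw, h⟩ := word_of_local hn (isCompact_sphere z₀ 1) hinv (fun y hy => by
        apply eventually_of_hull hn hc
        intro z hz hcl
        have hzs : z ∈ sphere z₀ 1 := by
          refine closure_minimal ?_ isClosed_sphere hcl
          rintro x ⟨w, hw, rfl⟩
          exact hinv w hw y hy
        have hzne : z ≠ z₀ := by
          rintro rfl
          rw [mem_sphere, dist_self] at hzs
          exact zero_ne_one hzs
        by_cases h0 : inner ℝ l₀.1 z = l₀.2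
        · refine local_of_subset hΛ hn ih hz hl₁ fun h1 => hne ?_
          exact eq_of_line (hn l₁ hl₁) (hn l₀ hl₀) (hc l₁ hl₁) (hc l₀ hl₀) (hz₀ l₁ hl₁)
            (hz₀ l₀ hl₀) h1 h0 hzne
        · exact local_of_subset hΛ hn ih hz hl₀ h0)
      refine ⟨w, hw, fun y _ => ?_⟩
      have hz₀' : ∀ l ∈ w, inner ℝ l.1 z₀ = l.2 := fun l hl => hz₀ l (hw l hl)
      rcases eq_or_ne y z₀ with rfl | hy
      · rw [FW_fixed' fun l hl => (hz₀' l hl).ge]
        exact fun l hl => (hz₀ l hl).ge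
      · have ht : 0 < ‖y - z₀‖ := norm_pos_iff.2 (sub_ne_zero.2 hy)
        set u : E2 := z₀ + ‖y - z₀‖⁻¹ • (y - z₀) with hu
        have hus : u ∈ sphere z₀ 1 := by
          rw [mem_sphere, dist_eq_norm, hu, add_sub_cancel_left, norm_smul, norm_inv, norm_norm,
            inv_mul_cancel₀ ht.ne']
        have hyu : y = z₀ + ‖y - z₀‖ • (u - z₀) := by
          rw [hu, add_sub_cancel_left, smul_smul, mul_inv_cancel₀ ht.ne', one_smul,
            add_sub_cancel]
        rw [hyu, FW_homothety hz₀' ht]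
        intro l hl
        rw [inner_homothety (hz₀ l hl)]
        have := mul_nonneg ht.le (sub_nonneg.2 (h u hus l hl))
        linarith
  · rw [not_exists] at hz₀
    obtain ⟨R, hR⟩ := hB.subset_closedBall c₀
    have hinv : ∀ w : List (E2 × ℝ), (∀ l ∈ w, l ∈ Λ) → ∀ y ∈ closedBall c₀ R,
        FW w y ∈ closedBall c₀ R := by
      intro w hw y hy
      have h1 := dist_FW_le (fun l hl => hn l (hw l hl)) y c₀
      rw [FW_fixed' fun l hl => (hc l (hw l hl)).le] at h1
      exact h1.trans hy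
    obtain ⟨w, hw, h⟩ := word_of_local hn (isCompact_closedBall c₀ R) hinv (fun y _ => by
      apply eventually_of_hull hn hc
      intro z hz _
      have h1 := hz₀ z
      rw [not_forall₂] at h1
      obtain ⟨l₀, hl₀, hne⟩ := h1
      exact local_of_subset hΛ hn ih hz hl₀ hne)
    exact ⟨w, hw, fun y hy => h y (hR hy)⟩

theorem exists_word {Λ : Set (E2 × ℝ)} (hΛ : Λ.Finite) (hn : ∀ l ∈ Λ, ‖l.1‖ = 1)
    (hb : Bornology.IsBounded (Hull Λ)) {c₀ : E2} (hc : ∀ l ∈ Λ, l.2 < inner ℝ l.1 c₀)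
    {B : Set E2} (hB : Bornology.IsBounded B) :
    ∃ w : List (E2 × ℝ), (∀ l ∈ w, l ∈ Λ) ∧ ∀ y ∈ B, FW w y ∈ Hull Λ := by
  let _ := hb
  exact exists_word_aux _ hΛ rfl hn hc hB

end Pool.Agent.SeamS
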