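import Pool.Agent.SeamS.Complex
import Pool.Agent.SeamS.Exit
import Pool.Agent.SeamS.Term

/-!
# Words and exits of all plates (module L2)

Proof of `exists_exits`. Words: `exists_word` with `B = closedBall 0 R` for every plate. Let `ι = Bool × Fin m`. For every `(s, k)` and every finite set `Φ ⊆ E3` there are a height `b`, `|b| < ε`, and exit data (`ExitR` for `s = true`, `ExitL` for `s = false`) with `T k (ρ (pt t b)) ∉ Φ ∪ V`: `exists_exitR`, `exists_exitL` with the finite set `(T k) ⁻¹' (Φ ∪ V)` (`T k` is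
injective): the set of bad heights is finite and the interval `(-ε, ε)` is infinite. Choosing successively (induction over the finite type `ι`, or a general lemma: if for every `i` and every finite `Φ` there is a choice with value outside `Φ` then there is a choice function with injective values) we get pairwise different exit points.
-/

namespace Pool.Agent.SeamS

open Set Filter Topology Metric Pool.Agent.Hhelper79.Seam

/-- words and exits for all plates -/
structure Exits (c : CData) where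
  w : Fin c.m → List (E2 × ℝ)
  /-- `true`: to the right, `false`: to the left -/
  b : Bool → Fin c.m → ℝ
  t : Bool → Fin c.m → ℝ
  n : Bool → Fin c.m → E2
  ρ : Bool → Fin c.m → (E2 →ᵃⁱ[ℝ] E2)
  l : Bool → Fin c.m → E2 × ℝ

namespace Exits

variable {c : CData} (x : Exits c)

/-- the exit point in plate coordinates -/
noncomputable def q (s : Bool) (k : Fin c.m) : E2 := pt (x.t s k) (x.b s k)

/-- the exit point in the target -/
noncomputable def pnt (s : Bool) (k : Fin c.m) : E3 := c.T k (x.ρ s k (x.q s k))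

end Exits

structure IsExits {c : CData} (R ε : ℝ) (x : Exits c) : Prop where
  word : ∀ k, ∀ l ∈ x.w k, l ∈ c.Λ k
  ball : ∀ k, ∀ y ∈ closedBall (0 : E2) R, FW (x.w k) y ∈ Hull (c.Λ k)
  small : ∀ s k, |x.b s k| < ε
  right : ∀ k, ExitR (c.Λ k) (x.w k) R (x.b true k) (x.n true k) (x.t true k) (x.ρ true k)
    (x.l true k)
  left : ∀ k, ExitL (c.Λ k) (x.w k) R (x.b false k) (x.n false k) (x.t false k) (x.ρ false k)
    (x.l false k)
  notV : ∀ s k, x.pnt s k ∉ c.V
  inj : ∀ s k s' k', (s, k) ≠ (s', k') → x.pnt s k ≠ x.pnt s' k'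

/-- successive choice with pairwise different values -/
theorem exists_choice_inj {ι α β : Type*} [Finite ι] (P : ι → α → Prop) (v : ι → α → β)
    (h : ∀ i, ∀ Φ : Set β, Φ.Finite → ∃ a, P i a ∧ v i a ∉ Φ) :
    ∃ f : ι → α, (∀ i, P i (f i)) ∧ ∀ i j, i ≠ j → v i (f i) ≠ v j (f j) := by
  classical
  have := Fintype.ofFinite ι
  have key : ∀ s : Finset ι, ∃ f : ι → α, (∀ i ∈ s, P i (f i)) ∧
      ∀ i ∈ s, ∀ j ∈ s, i ≠ j → v i (f i) ≠ v j (f j) := by
    intro s
    induction s using Finset.induction_on with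
    | empty =>
      choose f _ using fun i => h i ∅ Set.finite_empty
      exact ⟨f, by simp, by simp⟩
    | insert a s has ih =>
      obtain ⟨f, hf1, hf2⟩ := ih
      obtain ⟨y, hy1, hy2⟩ := h a ((fun j => v j (f j)) '' (s : Set ι))
        (s.finite_toSet.image _)
      have hne : ∀ j ∈ s, v a y ≠ v j (f j) := by
        intro j hj he
        exact hy2 ⟨j, Finset.mem_coe.2 hj, he.symm⟩
      refine ⟨Function.update f a y, ?_, ?_⟩
      · intro i hi
        rcases Finset.mem_insert.1 hi with rfl | hi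
        · rw [Function.update_self]; exact hy1
        · have hia : i ≠ a := fun hh => has (hh ▸ hi)
          rw [Function.update_of_ne hia]; exact hf1 i hi
      · intro i hi0 j hj0 hij
        rcases Finset.mem_insert.1 hi0 with rfl | hi
        · rcases Finset.mem_insert.1 hj0 with rfl | hj
          · exact absurd rfl hij
          · have hja : j ≠ i := fun hh => has (hh ▸ hj)
            rw [Function.update_self, Function.update_of_ne hja]
            exact hne j hj
        · rcases Finset.mem_insert.1 hj0 with rfl | hj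
          · have hia : i ≠ j := fun hh => has (hh ▸ hi)
            rw [Function.update_self, Function.update_of_ne hia]
            exact (hne i hi).symm
          · have hia : i ≠ a := fun hh => has (hh ▸ hi)
            have hja : j ≠ a := fun hh => has (hh ▸ hj)
            rw [Function.update_of_ne hia, Function.update_of_ne hja]
            exact hf2 i hi j hj hij
  obtain ⟨f, h1, h2⟩ := key Finset.univ
  exact ⟨f, fun i => h1 i (Finset.mem_univ _), fun i j =>
    h2 i (Finset.mem_univ _) j (Finset.mem_univ _)⟩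

theorem exists_exits {S : Set E3} {c : CData} (hc : IsComplex S c) {R ε : ℝ} (hε : 0 < ε)
    (hR : ε < R) : ∃ x : Exits c, IsExits R ε x := by
  have hword : ∀ k, ∃ w : List (E2 × ℝ), (∀ l ∈ w, l ∈ c.Λ k) ∧
      ∀ y ∈ closedBall (0 : E2) R, FW w y ∈ Hull (c.Λ k) := by
    intro k
    obtain ⟨c₀, hc₀⟩ := hc.neΛ k
    exact exists_word (hc.finΛ k) (hc.unit k) (hc.bddΛ k) (c₀ := c₀) hc₀ isBounded_closedBall
  choose w hw1 hw2 using hword
  have hR0 : 0 < R := hε.trans hR
  have hinf : (Ioo (-ε) ε).Infinite := Set.Ioo_infinite (by linarith)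
  obtain ⟨f, hf1, hf2⟩ := exists_choice_inj
    (ι := Bool × Fin c.m) (α := ℝ × ℝ × E2 × (E2 →ᵃⁱ[ℝ] E2) × (E2 × ℝ)) (β := E3)
    (fun i a => |a.1| < ε ∧
      (i.1 = true → ExitR (c.Λ i.2) (w i.2) R a.1 a.2.2.1 a.2.1 a.2.2.2.1 a.2.2.2.2) ∧
      (i.1 = false → ExitL (c.Λ i.2) (w i.2) R a.1 a.2.2.1 a.2.1 a.2.2.2.1 a.2.2.2.2) ∧
      c.T i.2 (a.2.2.2.1 (pt a.2.1 a.1)) ∉ c.V)
    (fun i a => c.T i.2 (a.2.2.2.1 (pt a.2.1 a.1))) (by
      rintro ⟨s, k⟩ Φ hΦ
      obtain ⟨c₀, hc₀⟩ := hc.neΛ k
      have hfin : ((c.T k) ⁻¹' (Φ ∪ c.V)).Finite :=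
        (hΦ.union hc.fin).preimage ((c.T k).injective.injOn)
      cases s with
      | true =>
        have h1 := exists_exitR (hc.finΛ k) (hc.unit k) (hc.bddΛ k) (c₀ := c₀) hc₀ (hw1 k) hR0
          (hw2 k) _ hfin
        obtain ⟨b, hb1, hb2⟩ := hinf.exists_notMem_finite h1
        have hb3 : |b| < ε := abs_lt.2 hb1
        have hb4 : ∃ n t ρ l, ExitR (c.Λ k) (w k) R b n t ρ l ∧
            ρ (pt t b) ∉ (c.T k) ⁻¹' (Φ ∪ c.V) := by
          by_contra hcon
          exact hb2 ⟨hb3.trans hR, hcon⟩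
        obtain ⟨n, t, ρ, l, h2, h3⟩ := hb4
        refine ⟨(b, t, n, ρ, l), ⟨hb3, fun _ => h2, fun hh => absurd hh (by simp), ?_⟩, ?_⟩
        · exact fun hh => h3 (Or.inr hh)
        · exact fun hh => h3 (Or.inl hh)
      | false =>
        have h1 := exists_exitL (hc.finΛ k) (hc.unit k) (hc.bddΛ k) (c₀ := c₀) hc₀ (hw1 k) hR0
          (hw2 k) _ hfin
        obtain ⟨b, hb1, hb2⟩ := hinf.exists_notMem_finite h1
        have hb3 : |b| < ε := abs_lt.2 hb1
        have hb4 : ∃ n t ρ l, ExitL (c.Λ k) (w k) R b n t ρ l ∧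
            ρ (pt t b) ∉ (c.T k) ⁻¹' (Φ ∪ c.V) := by
          by_contra hcon
          exact hb2 ⟨hb3.trans hR, hcon⟩
        obtain ⟨n, t, ρ, l, h2, h3⟩ := hb4
        refine ⟨(b, t, n, ρ, l), ⟨hb3, fun hh => absurd hh (by simp), fun _ => h2, ?_⟩, ?_⟩
        · exact fun hh => h3 (Or.inr hh)
        · exact fun hh => h3 (Or.inl hh))
  refine ⟨⟨w, fun s k => (f (s, k)).1, fun s k => (f (s, k)).2.1, fun s k => (f (s, k)).2.2.1,
    fun s k => (f (s, k)).2.2.2.1, fun s k => (f (s, k)).2.2.2.2⟩, ?_⟩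
  exact
    { word := hw1
      ball := hw2
      small := fun s k => (hf1 (s, k)).1
      right := fun k => (hf1 (true, k)).2.1 rfl
      left := fun k => (hf1 (false, k)).2.2.1 rfl
      notV := fun s k => (hf1 (s, k)).2.2.2
      inj := fun s k s' k' hne => hf2 (s, k) (s', k') hne }

end Pool.Agent.SeamS
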