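import Pool.Agent.SeamS.AsmTop
import Pool.Agent.SeamS.AsmSign
import Pool.Agent.SeamS.AsmExists
import Pool.Agent.SeamS.Comp

/-!
# The folding of the rectangle onto the target (module F1)

Let `a` be an assembled paper, `Fone`: for `k < m` there is `v k` with `F z = z + v k` for all `z ∈ P` with `|(F z) 0 - x k| ≤ cc`. Put `th k u = u + ctr k - v k`.
`th_mem`: for `u ∈ Hull (Λ (pk k))`: the point `u + ctr k` is in `Q = F '' P` (`plate`, `Qrect`), so it is `F z` with `z ∈ P`, and `|(F z) 0 - x k| ≤ cc`, so `z + v k = u + ctr k`, `z = th k u`. Also uniqueness: if `z ∈ P`, `F z = u + ctr k`, then `z = th k u`.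
`th_flat`: for `u ∈ OHull`: all points near `th k u` are of the form `th k u'`, `u' ∈ OHull`, so they are in `P`, `F z = z + v k`, and with `flat_f` `a.f (F z) = T (z + v k - ctr k)`.
`th_top`: let `u ∈ OHull` with (`hcell`) `top i = pk k` for all cells with `T u ∈ ccell i`, `y ≠ th k u` a regular point of the composition, `a.f (F y) = T u`. Then `F y ≠ F (th k u)` (uniqueness), `F y` is a regular point of `a.f` on `Q` (`reg_comp`), so `upQ (u + ctr k) (F y)` by `top_f`, so `compUp .. (th k u) y` (first alternative).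
`th_sep`: `th k u = th l u'` for `u ∈ Hull`, `u' ∈ Hull` implies `k = l`: `F (th k u) = u + ctr k` has abscissa within `cc` of `x k`, and `x k + 2 cc < x l` for `k < l` (`x_lt`).
`exists_comp`: `FoldOn.comp` with `Ffold`, `foldOn_Q`, `exists_signOn` (rewrite `F '' P = Q`), image: `image_f`.
-/

namespace Pool.Agent.SeamS

open Set Filter Topology Metric Pool.Agent.Hhelper79.Seam

namespace AData

variable {S : Set E3} {c : CData} {a : AData c}

/-- the placed plates in the rectangular paper -/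
noncomputable def th (a : AData c) (v : ℕ → E2) (k : ℕ) (u : E2) : E2 := u + a.ctr k - v k

/-- the property of the vectors `v k` -/
def IsShift (a : AData c) (v : ℕ → E2) : Prop :=
  ∀ k < c.m, ∀ z ∈ a.P, |(a.F z) 0 - a.x k| ≤ a.cc → a.F z = z + v k

theorem exists_shift (ha : IsAsm S a) : ∃ v, a.IsShift v := by
  classical
  refine ⟨fun k => if h : k < c.m then (ha.Fone k h).choose else 0, ?_⟩
  intro k hk z hz hzx
  simp only [dif_pos hk]
  exact (ha.Fone k hk).choose_spec z hz hzx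

theorem Fin_add_ctr (k : ℕ) (u : E2) :
    (u + a.ctr k) 0 = u 0 + a.x k ∧ (u + a.ctr k) 1 = u 1 + a.y k := by
  constructor <;> simp [ctr, pt]

theorem Fin_sub (k : Fin c.m) {u : E2} (hu : u ∈ c.OHull k) : u ∈ Hull (c.Λ k) :=
  fun l hl => (hu l hl).le

theorem th_mem (ha : IsAsm S a) {v : ℕ → E2} (hv : a.IsShift v) {k : ℕ} (hk : k < c.m) {u : E2}
    (hu : u ∈ Hull (c.Λ (a.pk k))) : a.th v k u ∈ a.P ∧ a.F (a.th v k u) = u + a.ctr k ∧
      ∀ z ∈ a.P, a.F z = u + a.ctr k → z = a.th v k u := by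
  obtain ⟨h1, h2, h3⟩ := ha.plate k hk u hu
  obtain ⟨e0, e1⟩ := Fin_add_ctr (a := a) k u
  have hx : |(u + a.ctr k) 0 - a.x k| ≤ a.cc := by
    rw [e0, add_sub_cancel_right]
    exact h1
  have hQ : u + a.ctr k ∈ a.Q := by
    refine ha.Qrect k hk _ hx ?_
    rw [e1]
    exact ⟨h2, h3⟩
  have huniq : ∀ z ∈ a.P, a.F z = u + a.ctr k → z = a.th v k u := by
    intro z hz hFz
    have h4 := hv k hk z hz (by rw [hFz]; exact hx)
    unfold th
    rw [← hFz, h4, add_sub_cancel_right]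
  rw [← ha.Fimage] at hQ
  obtain ⟨z, hz, hFz⟩ := hQ
  have h5 := huniq z hz hFz
  rw [← h5]
  exact ⟨hz, hFz, fun z' hz' h' => (huniq z' hz' h').trans h5.symm⟩

theorem th_flat (ha : IsAsm S a) {v : ℕ → E2} (hv : a.IsShift v) {k : ℕ} (hk : k < c.m) {u : E2}
    (hu : u ∈ c.OHull (a.pk k)) : ∀ᶠ z in 𝓝 (a.th v k u), z ∈ a.P ∧
      a.f (a.F z) = c.T (a.pk k) (z + v k - a.ctr k) := by
  have h1 := flat_f ha hk hu
  have h2 : a.th v k u + v k = u + a.ctr k := by
    unfold th
    rw [sub_add_cancel]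
  have h3 : Tendsto (fun z : E2 => z + v k) (𝓝 (a.th v k u)) (𝓝 (u + a.ctr k)) := by
    rw [← h2]
    exact (continuous_id.add continuous_const).tendsto _
  filter_upwards [h3.eventually h1] with z hz
  obtain ⟨hQ, hx, hf⟩ := hz
  rw [← ha.Fimage] at hQ
  obtain ⟨z', hz', hFz'⟩ := hQ
  have h4 := hv k hk z' hz' (by rw [hFz']; exact hx)
  have h5 : z' = z := by
    rw [hFz'] at h4
    exact (add_right_cancel h4).symm
  subst h5
  refine ⟨hz', ?_⟩
  rw [hFz']
  exact hf

theorem th_sep (ha : IsAsm S a) {v : ℕ → E2} (hv : a.IsShift v) {k l : ℕ} (hk : k < c.m)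
    (hl : l < c.m) {u u' : E2} (hu : u ∈ Hull (c.Λ (a.pk k))) (hu' : u' ∈ Hull (c.Λ (a.pk l)))
    (h : a.th v k u = a.th v l u') : k = l := by
  obtain ⟨-, h1, -⟩ := th_mem ha hv hk hu
  obtain ⟨-, h2, -⟩ := th_mem ha hv hl hu'
  rw [h, h2] at h1
  have h3 := (ha.plate k hk u hu).1
  have h4 := (ha.plate l hl u' hu').1
  have h5 : u' 0 + a.x l = u 0 + a.x k := by
    rw [← (Fin_add_ctr (a := a) l u').1, ← (Fin_add_ctr (a := a) k u).1, h1]
  have hW := ha.Wpos
  rw [abs_le] at h3 h4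
  rcases lt_trichotomy k l with h6 | h6 | h6
  · have := x_lt ha h6 hl
    linarith [h3.1, h3.2, h4.1, h4.2]
  · exact h6
  · have := x_lt ha h6 hk
    linarith [h3.1, h3.2, h4.1, h4.2]

/-- the composed folding, with the visible layers -/
theorem exists_comp (ha : IsAsm S a) : ∃ up : E2 → E2 → Prop,
    FoldOn a.P (fun z => a.f (a.F z)) up ∧ (fun z => a.f (a.F z)) '' a.P = S ∧
    ∀ v, a.IsShift v → ∀ k < c.m, ∀ u ∈ c.OHull (a.pk k),
      (∀ i, c.T (a.pk k) u ∈ c.ccell i → c.top i = a.pk k) →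
      ∀ y, Reg a.P (fun z => a.f (a.F z)) y → y ≠ a.th v k u →
        a.f (a.F y) = a.f (a.F (a.th v k u)) → up (a.th v k u) y := by
  obtain ⟨pos, hpos⟩ := exists_signOn ha
  have hQ : FoldOn (a.F '' a.P) a.f a.upQ := by
    rw [ha.Fimage]
    exact foldOn_Q ha
  have hs : SignOn (a.F '' a.P) a.f pos := by
    rw [ha.Fimage]
    exact hpos
  refine ⟨compUp a.F a.upF a.upQ pos, FoldOn.comp ha.Ffold hQ hs, ?_, ?_⟩
  · rw [← image_f ha, ← ha.Fimage, ← Set.image_comp]
    rfl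
  · intro v hv k hk u hu hcell y hy hne hf
    obtain ⟨h1, h2, h3⟩ := th_mem ha hv hk (Fin_sub _ hu)
    have hne' : a.F y ≠ u + a.ctr k := fun h => hne (h3 y hy.mem h)
    have hreg := ((reg_comp ha.Ffold.pieces hQ.pieces).1 hy).2
    rw [ha.Fimage] at hreg
    rw [h2] at hf
    left
    rw [h2]
    exact ⟨hne'.symm, top_f ha hk hu hcell hreg hne' hf⟩

end AData

end Pool.Agent.SeamS
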