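import Pool.Agent.SeamS.Comp
import Pool.Agent.SeamS.Block

/-!
# The pinch gadget (module B1)

`X` contains the string `[a, b] × [c - w, c + w]`: for `a ≤ y 0 ≤ b`, `y ∈ X ↔ |y 1 - c| ≤ w`. We fold `X` such that in the middle of
the string only the upper half `[c, c + w]` (or the lower half `[c - w, c]`) remains, everything to the left is fixed
and everything to the right is translated by `8 w` to the left.

By a translation (`FoldOn.precomp`, `FoldOn.postcomp`) and, for the lower half, the reflection `y 1 ↦ -y 1`, we may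
assume `a = 0`, `c = 0`, upper half; put `M = b ≥ 16 w`. Write `x = y 0`, `y = y 1`. Regions of the paper and the map:
  A  : x ≤ 0, or 0 ≤ x ≤ 3w and x ≤ 3w + y             identity
  C  : |x - 3w| ≤ -y                                     (x,y) ↦ (3w + y, x - 3w)
  D1 : y ≤ 0, 3w - y ≤ x ≤ 5w                           (6w - x, -y)
  B1 : y ≥ 0, 3w ≤ x ≤ 5w                               (6w - x, y)
  B2 : y ≥ 0, 5w ≤ x ≤ M - 5w                           (x - 4w, y)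
  D2 : y ≤ 0, 5w ≤ x ≤ M - 5w                           (x - 4w, -y)
  B1': y ≥ 0, M - 5w ≤ x ≤ M - 3w                       (2M - 14w - x, y)
  D1': y ≤ 0, M - 5w ≤ x ≤ M - 3w + y                   (2M - 14w - x, -y)
  C' : |M - 3w - x| ≤ -y                                 (M - 11w - y, M - 3w - x)
  A' : x ≥ M, or M - 3w ≤ x ≤ M and M - x ≤ 3w + y       (x - 8w, y)
(the right half is the mirror image of the left half). The maps agree on common boundaries. Order from top to bottom: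
  A, C, D1, B1, A', C', D1', B1', B2, D2   (levels 0, ..., 9), use `FoldOn.of_levels`.
Images: A: x' ≤ 3w; C: 2w ≤ x' ≤ 3w, |y'| ≤ 3w - x'; D1: w ≤ x' ≤ 3w - y', y' ≥ 0; B1: w ≤ x' ≤ 3w, y' ≥ 0; B2, D2: w ≤ x' ≤ M - 9w, y' ≥ 0;
B1': M - 11w ≤ x' ≤ M - 9w, y' ≥ 0; D1': M - 11w + y' ≤ x' ≤ M - 9w, y' ≥ 0; C': M - 11w ≤ x' ≤ M - 10w, |y'| ≤ x' - (M - 11w); A': x' ≥ M - 11w.
Common points: A∩C: image the segment from (3w,0) to (2w,-w); A∩B1: x' = 3w, 0 ≤ y' ≤ w; C∩D1: image from (3w,0) to (2w, w); D1∩B1: y' = 0, w ≤ x' ≤ 3w;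
B1∩B2: x' = w, y' ≥ 0; D1∩D2: x' = w, y' ≥ 0; B2∩D2: y' = 0, w ≤ x' ≤ M - 9w; and mirror images B1'∩B2, D1'∩D2 (x' = M - 9w), etc.; the point (3w, 0) (paper) is common to A, C, D1, B1; the
point (5w, 0) to D1, B1, B2, D2.
`h1`: every common point is on a fold line (points on the two sides have the same image), so it is not regular.
`h3`: chords (A,B1) = (0,3): a regular point of C or D1 does not lie over x' = 3w (there only the vertex); (B1,B2) = (3,8) at x' = w: regular points of A', C', D1', B1' are at x' > w; (D1,D2) = (2,9) at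
x' = w: regular points of B1 have x' > w (5w > x), of B2 have x' > w (x > 5w); the others as before; (A',B1') = (4,7), (B1',B2) = (7,8), (D1',D2) = (6,9): mirror images. The other chords are between consecutive levels.
`h4`: interleaving pairs i < k < j < l of chords: (0,3) with (2,9): x' = 3w versus x' = w: no common image; (3,8) with (6,9): x' = w versus x' = M - 9w; (3,8) with (4,..),(7,8): no; (4,7) with (6,9): x' = M - 11w versus M - 9w. So `E = ∅`
(check also the four-region vertices).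
`Pieced`: `Pieced.of_cover` with the (convex) regions above (A and A' consist of two convex parts each).
Signs: pos = True on A, D1, B2, D1', A'; False on C, B1, D2, C', B1' (the orientation of the map): const and flip are clear since all common points are folds with
opposite orientations (exceptional points: the vertices).
-/

namespace Pool.Agent.SeamS

open Set Filter Topology Metric Pool.Agent.Hhelper79.Seam

section Gadget

@[simp] private theorem pt_zero (α β : ℝ) : (pt α β) 0 = α := by simp [pt]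
@[simp] private theorem pt_one (α β : ℝ) : (pt α β) 1 = β := by simp [pt]

private theorem e2ext {x y : E2} (h0 : x 0 = y 0) (h1 : x 1 = y 1) : x = y := by
  ext i; fin_cases i
  · exact h0
  · exact h1

private theorem pt_eta (p : E2) : pt (p 0) (p 1) = p := e2ext (by simp) (by simp)

private theorem inner_pt (α β : ℝ) (p : E2) : inner ℝ (pt α β) p = α * p 0 + β * p 1 := by
  rw [PiLp.inner_apply, Fin.sum_univ_two]
  simp [pt]
  ring

private theorem cont0 : Continuous (fun p : E2 => p 0) := by fun_prop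
private theorem cont1 : Continuous (fun p : E2 => p 1) := by fun_prop

private theorem cont_pt {A : Type*} [TopologicalSpace A] {f g : A → ℝ} (hf : Continuous f) (hg : Continuous g) :
    Continuous (fun a => pt (f a) (g a)) := by
  unfold pt
  fun_prop

/-- plane isometries in coordinates -/
private theorem exists_iso (p q r s t0 t1 : ℝ) (h1 : p ^ 2 + r ^ 2 = 1) (h2 : q ^ 2 + s ^ 2 = 1)
    (h3 : p * q + r * s = 0) :
    ∃ g : E2 →ᵃⁱ[ℝ] E2, ∀ y, g y = pt (p * y 0 + q * y 1 + t0) (r * y 0 + s * y 1 + t1) := by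
  let L : E2 →ₗ[ℝ] E2 :=
    { toFun := fun y => pt (p * y 0 + q * y 1) (r * y 0 + s * y 1)
      map_add' := fun x y => e2ext (by simp; ring) (by simp; ring)
      map_smul' := fun c x => e2ext (by simp; ring) (by simp; ring) }
  let Li : E2 →ₗᵢ[ℝ] E2 :=
    { toLinearMap := L
      norm_map' := fun y => by
        have h : ‖L y‖ ^ 2 = ‖y‖ ^ 2 := by
          rw [EuclideanSpace.norm_sq_eq, EuclideanSpace.norm_sq_eq, Fin.sum_univ_two,
            Fin.sum_univ_two]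
          simp only [L, LinearMap.coe_mk, AddHom.coe_mk, pt_zero, pt_one, Real.norm_eq_abs,
            sq_abs]
          linear_combination (y 0) ^ 2 * h1 + (y 1) ^ 2 * h2 + 2 * (y 0) * (y 1) * h3
        exact (sq_eq_sq₀ (norm_nonneg _) (norm_nonneg _)).1 h }
  refine ⟨(AffineIsometryEquiv.constVAdd ℝ E2 (pt t0 t1)).toAffineIsometry.comp
    Li.toAffineIsometry, fun y => ?_⟩
  have : (AffineIsometryEquiv.constVAdd ℝ E2 (pt t0 t1)).toAffineIsometry.comp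
    Li.toAffineIsometry y = pt t0 t1 + pt (p * y 0 + q * y 1) (r * y 0 + s * y 1) := rfl
  rw [this]
  exact e2ext (by simp; ring) (by simp; ring)

/-! ### levels -/

private def cnd (w M : ℝ) : ℕ → ℝ → ℝ → Prop
  | 0, x, y => x ≤ 0 ∨ (x ≤ 3 * w ∧ x ≤ 3 * w + y)
  | 1, x, y => 2 * w ≤ x ∧ x ≤ 4 * w ∧ 3 * w + y ≤ x ∧ x ≤ 3 * w - y
  | 2, x, y => y ≤ 0 ∧ 3 * w - y ≤ x ∧ x ≤ 5 * w
  | 3, x, y => 0 ≤ y ∧ 3 * w ≤ x ∧ x ≤ 5 * w
  | 4, x, y => M ≤ x ∨ (M - 3 * w ≤ x ∧ M - 3 * w - y ≤ x)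
  | 5, x, y => M - 4 * w ≤ x ∧ x ≤ M - 2 * w ∧ M - 3 * w + y ≤ x ∧ x ≤ M - 3 * w - y
  | 6, x, y => y ≤ 0 ∧ M - 5 * w ≤ x ∧ x ≤ M - 3 * w + y
  | 7, x, y => 0 ≤ y ∧ M - 5 * w ≤ x ∧ x ≤ M - 3 * w
  | 8, x, y => 0 ≤ y ∧ 5 * w ≤ x ∧ x ≤ M - 5 * w
  | 9, x, y => y ≤ 0 ∧ 5 * w ≤ x ∧ x ≤ M - 5 * w
  | _, _, _ => False

private def gx (w M : ℝ) : ℕ → ℝ → ℝ → ℝ
  | 0, x, _ => x
  | 1, _, y => 3 * w + y
  | 2, x, _ => 6 * w - x
  | 3, x, _ => 6 * w - x
  | 4, x, _ => x - 8 * w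
  | 5, _, y => M - 11 * w - y
  | 6, x, _ => 2 * M - 14 * w - x
  | 7, x, _ => 2 * M - 14 * w - x
  | 8, x, _ => x - 4 * w
  | _, x, _ => x - 4 * w

private def gy (w M : ℝ) : ℕ → ℝ → ℝ → ℝ
  | 0, _, y => y
  | 1, x, _ => x - 3 * w
  | 2, _, y => -y
  | 3, _, y => y
  | 4, _, y => y
  | 5, x, _ => M - 3 * w - x
  | 6, _, y => -y
  | 7, _, y => y
  | 8, _, y => y
  | _, _, y => -y

private theorem cnd_lt {w M : ℝ} {i : ℕ} {x y : ℝ} (h : cnd w M i x y) : i < 10 := by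
  by_contra hc
  obtain ⟨k, rfl⟩ : ∃ k, i = k + 10 := ⟨i - 10, by omega⟩
  exact h

private theorem cnd_agree_lt {w M : ℝ} (hw : 0 < w) (hM : 16 * w ≤ M) {i j : ℕ} {x y : ℝ}
    (hij : i < j) (hi : cnd w M i x y) (hj : cnd w M j x y) :
    gx w M i x y = gx w M j x y ∧ gy w M i x y = gy w M j x y := by
  have h2 := cnd_lt hj
  interval_cases j <;> interval_cases i <;> simp only [cnd] at hi hj <;> simp only [gx, gy] <;>
    casesm* _ ∧ _, _ ∨ _ <;> constructor <;> first | trivial | linarith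

private theorem cnd_agree {w M : ℝ} (hw : 0 < w) (hM : 16 * w ≤ M) {i j : ℕ} {x y : ℝ}
    (hi : cnd w M i x y) (hj : cnd w M j x y) :
    gx w M i x y = gx w M j x y ∧ gy w M i x y = gy w M j x y := by
  rcases lt_trichotomy i j with h | rfl | h
  · exact cnd_agree_lt hw hM h hi hj
  · exact ⟨rfl, rfl⟩
  · obtain ⟨h1, h2⟩ := cnd_agree_lt hw hM h hj hi
    exact ⟨h1.symm, h2.symm⟩

private noncomputable def gad (w M : ℝ) (p : E2) : E2 :=
  open scoped Classical in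
  if h : ∃ i, cnd w M i (p 0) (p 1) then
    pt (gx w M h.choose (p 0) (p 1)) (gy w M h.choose (p 0) (p 1)) else p

private theorem gad_eq {w M : ℝ} (hw : 0 < w) (hM : 16 * w ≤ M) {i : ℕ} {p : E2}
    (hi : cnd w M i (p 0) (p 1)) :
    gad w M p = pt (gx w M i (p 0) (p 1)) (gy w M i (p 0) (p 1)) := by
  have h : ∃ i, cnd w M i (p 0) (p 1) := ⟨i, hi⟩
  have h' := cnd_agree hw hM h.choose_spec hi
  simp only [gad, h, dif_pos]
  rw [h'.1, h'.2]

private theorem cover {w M x y : ℝ} (hw : 0 < w)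
    (hs : 0 ≤ x → x ≤ M → -w ≤ y ∧ y ≤ w) : ∃ i : ℕ, cnd w M i x y := by
  rcases le_total x 0 with h | h0
  · exact ⟨0, Or.inl h⟩
  rcases le_total M x with h | hM'
  · exact ⟨4, Or.inl h⟩
  obtain ⟨hy1, hy2⟩ := hs h0 hM'
  rcases le_total x (3 * w) with h3 | h3
  · rcases le_total x (3 * w + y) with h | h
    · exact ⟨0, Or.inr ⟨h3, h⟩⟩
    · exact ⟨1, by linarith, by linarith, by linarith, by linarith⟩
  rcases le_total x (5 * w) with h5 | h5
  · rcases le_total 0 y with h | h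
    · exact ⟨3, h, h3, h5⟩
    · rcases le_total x (3 * w - y) with h' | h'
      · exact ⟨1, by linarith, by linarith, by linarith, by linarith⟩
      · exact ⟨2, h, h', h5⟩
  rcases le_total x (M - 5 * w) with h6 | h6
  · rcases le_total 0 y with h | h
    · exact ⟨8, h, h5, h6⟩
    · exact ⟨9, h, h5, h6⟩
  rcases le_total x (M - 3 * w) with h7 | h7
  · rcases le_total 0 y with h | h
    · exact ⟨7, h, h6, h7⟩
    · rcases le_total x (M - 3 * w + y) with h' | h'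
      · exact ⟨6, h, h6, h'⟩
      · exact ⟨5, by linarith, by linarith, by linarith, by linarith⟩
  · rcases le_total (M - 3 * w - y) x with h | h
    · exact ⟨4, Or.inr ⟨h7, h⟩⟩
    · exact ⟨5, by linarith, by linarith, by linarith, by linarith⟩

private theorem iso_level (w M : ℝ) {i : ℕ} (hi : i < 10) :
    ∃ g : E2 →ᵃⁱ[ℝ] E2, ∀ y, g y = pt (gx w M i (y 0) (y 1)) (gy w M i (y 0) (y 1)) := by
  have key : ∀ p q r s t0 t1 : ℝ, p ^ 2 + r ^ 2 = 1 → q ^ 2 + s ^ 2 = 1 → p * q + r * s = 0 →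
      (∀ x y, gx w M i x y = p * x + q * y + t0) → (∀ x y, gy w M i x y = r * x + s * y + t1) →
      ∃ g : E2 →ᵃⁱ[ℝ] E2, ∀ y, g y = pt (gx w M i (y 0) (y 1)) (gy w M i (y 0) (y 1)) := by
    intro p q r s t0 t1 h1 h2 h3 h4 h5
    obtain ⟨g, hg⟩ := exists_iso p q r s t0 t1 h1 h2 h3
    exact ⟨g, fun y => by rw [hg, h4, h5]⟩
  interval_cases i
  · exact key 1 0 0 1 0 0 (by norm_num) (by norm_num) (by norm_num)
      (fun x y => by simp [gx]) (fun x y => by simp [gy])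
  · exact key 0 1 1 0 (3 * w) (-(3 * w)) (by norm_num) (by norm_num) (by norm_num)
      (fun x y => by simp only [gx]; ring) (fun x y => by simp only [gy]; ring)
  · exact key (-1) 0 0 (-1) (6 * w) 0 (by norm_num) (by norm_num) (by norm_num)
      (fun x y => by simp only [gx]; ring) (fun x y => by simp only [gy]; ring)
  · exact key (-1) 0 0 1 (6 * w) 0 (by norm_num) (by norm_num) (by norm_num)
      (fun x y => by simp only [gx]; ring) (fun x y => by simp only [gy]; ring)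
  · exact key 1 0 0 1 (-(8 * w)) 0 (by norm_num) (by norm_num) (by norm_num)
      (fun x y => by simp only [gx]; ring) (fun x y => by simp only [gy]; ring)
  · exact key 0 (-1) (-1) 0 (M - 11 * w) (M - 3 * w) (by norm_num) (by norm_num) (by norm_num)
      (fun x y => by simp only [gx]; ring) (fun x y => by simp only [gy]; ring)
  · exact key (-1) 0 0 (-1) (2 * M - 14 * w) 0 (by norm_num) (by norm_num) (by norm_num)
      (fun x y => by simp only [gx]; ring) (fun x y => by simp only [gy]; ring)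
  · exact key (-1) 0 0 1 (2 * M - 14 * w) 0 (by norm_num) (by norm_num) (by norm_num)
      (fun x y => by simp only [gx]; ring) (fun x y => by simp only [gy]; ring)
  · exact key 1 0 0 1 (-(4 * w)) 0 (by norm_num) (by norm_num) (by norm_num)
      (fun x y => by simp only [gx]; ring) (fun x y => by simp only [gy]; ring)
  · exact key 1 0 0 (-1) (-(4 * w)) 0 (by norm_num) (by norm_num) (by norm_num)
      (fun x y => by simp only [gx]; ring) (fun x y => by simp only [gy]; ring)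

private theorem closed_level (w M : ℝ) (i : ℕ) : IsClosed {p : E2 | cnd w M i (p 0) (p 1)} := by
  by_cases hi : i < 10
  · interval_cases i <;> simp only [cnd, Set.ofPred_and, Set.ofPred_or] <;>
      repeat' first | apply IsClosed.union | apply IsClosed.inter
    all_goals exact isClosed_le (by fun_prop) (by fun_prop)
  · have : {p : E2 | cnd w M i (p 0) (p 1)} = ∅ := by
      ext p
      simp only [Set.mem_ofPred_eq, mem_empty_iff_false, iff_false]
      exact fun h => hi (cnd_lt h)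
    rw [this]
    exact isClosed_empty

/-! ### fold lines -/

private theorem not_reg_of {X : Set E2} {w M : ℝ} (hw : 0 < w) (hM : 16 * w ≤ M) {p : E2}
    (v0 v1 u0 u1 : ℝ) (hne : v0 ≠ u0 ∨ v1 ≠ u1) (i j : ℕ) {δ : ℝ} (hδ : 0 < δ)
    (h : ∀ ε, 0 < ε → ε < δ → cnd w M i (p 0 + ε * v0) (p 1 + ε * v1) ∧
      cnd w M j (p 0 + ε * u0) (p 1 + ε * u1) ∧
      gx w M i (p 0 + ε * v0) (p 1 + ε * v1) = gx w M j (p 0 + ε * u0) (p 1 + ε * u1) ∧
      gy w M i (p 0 + ε * v0) (p 1 + ε * v1) = gy w M j (p 0 + ε * u0) (p 1 + ε * u1)) :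
    ¬ Reg X (gad w M) p := by
  rintro ⟨U, hU, hUX, hinj⟩
  have ht : ∀ a b : ℝ, Tendsto (fun ε : ℝ => pt (p 0 + ε * a) (p 1 + ε * b)) (𝓝[>] 0) (𝓝 p) := by
    intro a b
    have h1 : Continuous (fun ε : ℝ => pt (p 0 + ε * a) (p 1 + ε * b)) :=
      cont_pt (by fun_prop) (by fun_prop)
    have h2 := h1.tendsto 0
    simp only [zero_mul, add_zero, pt_eta] at h2
    exact h2.mono_left nhdsWithin_le_nhds
  have e1 := (ht v0 v1).eventually hU
  have e2 := (ht u0 u1).eventually hU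
  have e3 : ∀ᶠ ε : ℝ in 𝓝[>] 0, 0 < ε ∧ ε < δ := Ioo_mem_nhdsGT hδ
  obtain ⟨ε, h1, h2, h3, h4⟩ := (e1.and (e2.and e3)).exists
  obtain ⟨c1, c2, c3, c4⟩ := h ε h3 h4
  have h5 := hinj h1 h2 (by
    rw [gad_eq hw hM (i := i) (by simpa using c1), gad_eq hw hM (i := j) (by simpa using c2)]
    simp [c3, c4])
  have h6 := congrArg (fun q : E2 => q 0) h5
  have h7 := congrArg (fun q : E2 => q 1) h5
  simp only [pt_zero, pt_one] at h6 h7
  rcases hne with hne | hne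
  · exact hne (mul_left_cancel₀ h3.ne' (add_left_cancel h6))
  · exact hne (mul_left_cancel₀ h3.ne' (add_left_cancel h7))

private def OnF (w M x y : ℝ) : Prop :=
  (x = 3 * w + y ∧ y ≤ 0) ∨ (x = 3 * w - y ∧ y < 0) ∨ (x = 3 * w ∧ 0 ≤ y) ∨
  (y = 0 ∧ 3 * w < x ∧ x ≤ 5 * w) ∨ x = 5 * w ∨ (y = 0 ∧ 5 * w ≤ x ∧ x ≤ M - 5 * w) ∨
  x = M - 5 * w ∨ (y = 0 ∧ M - 5 * w ≤ x ∧ x < M - 3 * w) ∨ (x = M - 3 * w ∧ 0 ≤ y) ∨
  (x = M - 3 * w + y ∧ y < 0) ∨ (x = M - 3 * w - y ∧ y ≤ 0)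

private theorem OnF.not_reg {X : Set E2} {w M : ℝ} (hw : 0 < w) (hM : 16 * w ≤ M) {p : E2}
    (hs : -w ≤ p 1 ∧ p 1 ≤ w) (h : OnF w M (p 0) (p 1)) : ¬ Reg X (gad w M) p := by
  obtain ⟨hs1, hs2⟩ := hs
  rcases h with ⟨h, h'⟩ | ⟨h, h'⟩ | ⟨h, h'⟩ | ⟨h, h', h''⟩ | h | ⟨h, h', h''⟩ | h | ⟨h, h', h''⟩ |
    ⟨h, h'⟩ | ⟨h, h'⟩ | ⟨h, h'⟩
  · refine not_reg_of hw hM (-1) 1 1 (-1) (Or.inl (by norm_num)) 0 1 hw fun ε h1 h2 => ?_
    simp only [cnd, gx, gy]
    refine ⟨Or.inr ⟨?_, ?_⟩, ⟨?_, ?_, ?_, ?_⟩, ?_, ?_⟩ <;> first | trivial | linarith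
  · refine not_reg_of hw hM (-1) (-1) 1 1 (Or.inl (by norm_num)) 1 2 (δ := -(p 1)) (by linarith)
      fun ε h1 h2 => ?_
    simp only [cnd, gx, gy]
    refine ⟨⟨?_, ?_, ?_, ?_⟩, ⟨?_, ?_, ?_⟩, ?_, ?_⟩ <;> first | trivial | linarith
  · refine not_reg_of hw hM (-1) 0 1 0 (Or.inl (by norm_num)) 0 3 hw fun ε h1 h2 => ?_
    simp only [cnd, gx, gy]
    refine ⟨Or.inr ⟨?_, ?_⟩, ⟨?_, ?_, ?_⟩, ?_, ?_⟩ <;> first | trivial | linarith
  · refine not_reg_of hw hM 0 (-1) 0 1 (Or.inr (by norm_num)) 2 3 (δ := p 0 - 3 * w) (by linarith)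
      fun ε h1 h2 => ?_
    simp only [cnd, gx, gy]
    refine ⟨⟨?_, ?_, ?_⟩, ⟨?_, ?_, ?_⟩, ?_, ?_⟩ <;> first | trivial | linarith
  · rcases le_total 0 (p 1) with h0 | h0
    · refine not_reg_of hw hM (-1) 0 1 0 (Or.inl (by norm_num)) 3 8 hw fun ε h1 h2 => ?_
      simp only [cnd, gx, gy]
      refine ⟨⟨?_, ?_, ?_⟩, ⟨?_, ?_, ?_⟩, ?_, ?_⟩ <;> first | trivial | linarith
    · refine not_reg_of hw hM (-1) 0 1 0 (Or.inl (by norm_num)) 2 9 hw fun ε h1 h2 => ?_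
      simp only [cnd, gx, gy]
      refine ⟨⟨?_, ?_, ?_⟩, ⟨?_, ?_, ?_⟩, ?_, ?_⟩ <;> first | trivial | linarith
  · refine not_reg_of hw hM 0 (-1) 0 1 (Or.inr (by norm_num)) 9 8 hw fun ε h1 h2 => ?_
    simp only [cnd, gx, gy]
    refine ⟨⟨?_, ?_, ?_⟩, ⟨?_, ?_, ?_⟩, ?_, ?_⟩ <;> first | trivial | linarith
  · rcases le_total 0 (p 1) with h0 | h0
    · refine not_reg_of hw hM (-1) 0 1 0 (Or.inl (by norm_num)) 8 7 hw fun ε h1 h2 => ?_
      simp only [cnd, gx, gy]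
      refine ⟨⟨?_, ?_, ?_⟩, ⟨?_, ?_, ?_⟩, ?_, ?_⟩ <;> first | trivial | linarith
    · refine not_reg_of hw hM (-1) 0 1 0 (Or.inl (by norm_num)) 9 6 hw fun ε h1 h2 => ?_
      simp only [cnd, gx, gy]
      refine ⟨⟨?_, ?_, ?_⟩, ⟨?_, ?_, ?_⟩, ?_, ?_⟩ <;> first | trivial | linarith
  · refine not_reg_of hw hM 0 (-1) 0 1 (Or.inr (by norm_num)) 6 7 (δ := M - 3 * w - p 0)
      (by linarith) fun ε h1 h2 => ?_
    simp only [cnd, gx, gy]
    refine ⟨⟨?_, ?_, ?_⟩, ⟨?_, ?_, ?_⟩, ?_, ?_⟩ <;> first | trivial | linarith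
  · refine not_reg_of hw hM (-1) 0 1 0 (Or.inl (by norm_num)) 7 4 hw fun ε h1 h2 => ?_
    simp only [cnd, gx, gy]
    refine ⟨⟨?_, ?_, ?_⟩, Or.inr ⟨?_, ?_⟩, ?_, ?_⟩ <;> first | trivial | linarith
  · refine not_reg_of hw hM 1 (-1) (-1) 1 (Or.inl (by norm_num)) 5 6 (δ := -(p 1)) (by linarith)
      fun ε h1 h2 => ?_
    simp only [cnd, gx, gy]
    refine ⟨⟨?_, ?_, ?_, ?_⟩, ⟨?_, ?_, ?_⟩, ?_, ?_⟩ <;> first | trivial | linarith
  · refine not_reg_of hw hM 1 1 (-1) (-1) (Or.inl (by norm_num)) 4 5 hw fun ε h1 h2 => ?_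
    simp only [cnd, gx, gy]
    refine ⟨Or.inr ⟨?_, ?_⟩, ⟨?_, ?_, ?_, ?_⟩, ?_, ?_⟩ <;> first | trivial | linarith

/-- the common points of two levels -/
private theorem adj {w M x y : ℝ} (hw : 0 < w) (hM : 16 * w ≤ M) {i j : ℕ} (hij : i < j)
    (hi : cnd w M i x y) (hj : cnd w M j x y) :
    (i = 0 ∧ j = 1 ∧ x = 3 * w + y ∧ y ≤ 0) ∨ (i = 0 ∧ j = 2 ∧ x = 3 * w ∧ y = 0) ∨
    (i = 0 ∧ j = 3 ∧ x = 3 * w ∧ 0 ≤ y) ∨ (i = 1 ∧ j = 2 ∧ x = 3 * w - y ∧ y ≤ 0) ∨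
    (i = 1 ∧ j = 3 ∧ x = 3 * w ∧ y = 0) ∨ (i = 2 ∧ j = 3 ∧ y = 0 ∧ 3 * w ≤ x ∧ x ≤ 5 * w) ∨
    (i = 2 ∧ j = 8 ∧ x = 5 * w ∧ y = 0) ∨ (i = 2 ∧ j = 9 ∧ x = 5 * w ∧ y ≤ 0) ∨
    (i = 3 ∧ j = 8 ∧ x = 5 * w ∧ 0 ≤ y) ∨ (i = 3 ∧ j = 9 ∧ x = 5 * w ∧ y = 0) ∨
    (i = 8 ∧ j = 9 ∧ y = 0 ∧ 5 * w ≤ x ∧ x ≤ M - 5 * w) ∨
    (i = 4 ∧ j = 5 ∧ x = M - 3 * w - y ∧ y ≤ 0) ∨ (i = 4 ∧ j = 6 ∧ x = M - 3 * w ∧ y = 0) ∨
    (i = 4 ∧ j = 7 ∧ x = M - 3 * w ∧ 0 ≤ y) ∨ (i = 5 ∧ j = 6 ∧ x = M - 3 * w + y ∧ y ≤ 0) ∨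
    (i = 5 ∧ j = 7 ∧ x = M - 3 * w ∧ y = 0) ∨
    (i = 6 ∧ j = 7 ∧ y = 0 ∧ M - 5 * w ≤ x ∧ x ≤ M - 3 * w) ∨
    (i = 6 ∧ j = 8 ∧ x = M - 5 * w ∧ y = 0) ∨ (i = 6 ∧ j = 9 ∧ x = M - 5 * w ∧ y ≤ 0) ∨
    (i = 7 ∧ j = 8 ∧ x = M - 5 * w ∧ 0 ≤ y) ∨ (i = 7 ∧ j = 9 ∧ x = M - 5 * w ∧ y = 0) := by
  have h2 := cnd_lt hj
  interval_cases j <;> interval_cases i <;> simp only [cnd] at hi hj <;>
    casesm* _ ∧ _, _ ∨ _ <;>
    first
    | (exfalso; linarith)
    | (norm_num; refine ⟨?_, ?_⟩ <;> linarith)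
    | (norm_num; refine ⟨?_, ?_, ?_⟩ <;> linarith)

private theorem adj_range {w M x y : ℝ} (hw : 0 < w) (hM : 16 * w ≤ M) {i j : ℕ} (hij : i < j)
    (hi : cnd w M i x y) (hj : cnd w M j x y) : 0 ≤ x ∧ x ≤ M := by
  have h2 := cnd_lt hj
  have h4 : j ≠ 4 := by
    rintro rfl
    rcases adj hw hM hij hi hj with h | h | h | h | h | h | h | h | h | h | h | h | h | h | h | h |
      h | h | h | h | h <;> omega
  interval_cases j <;> simp only [cnd] at hj <;> first | omega | (constructor <;> linarith)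

private theorem adj_onF {w M x y : ℝ} (hw : 0 < w) (hM : 16 * w ≤ M) {i j : ℕ} (hij : i < j)
    (hi : cnd w M i x y) (hj : cnd w M j x y) : OnF w M x y := by
  unfold OnF
  rcases adj hw hM hij hi hj with ⟨-, -, h, h'⟩ | ⟨-, -, h, h'⟩ | ⟨-, -, h, h'⟩ | ⟨-, -, h, h'⟩ |
    ⟨-, -, h, h'⟩ | ⟨-, -, h, h', h''⟩ | ⟨-, -, h, h'⟩ | ⟨-, -, h, h'⟩ | ⟨-, -, h, h'⟩ |
    ⟨-, -, h, h'⟩ | ⟨-, -, h, h', h''⟩ | ⟨-, -, h, h'⟩ | ⟨-, -, h, h'⟩ | ⟨-, -, h, h'⟩ |
    ⟨-, -, h, h'⟩ | ⟨-, -, h, h'⟩ | ⟨-, -, h, h', h''⟩ | ⟨-, -, h, h'⟩ | ⟨-, -, h, h'⟩ |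
    ⟨-, -, h, h'⟩ | ⟨-, -, h, h'⟩
  · exact Or.inl ⟨h, h'⟩
  · exact Or.inl ⟨by linarith, by linarith⟩
  · exact Or.inr (Or.inr (Or.inl ⟨h, h'⟩))
  · rcases h'.lt_or_eq with h0 | h0
    · exact Or.inr (Or.inl ⟨h, h0⟩)
    · exact Or.inl ⟨by linarith, by linarith⟩
  · exact Or.inl ⟨by linarith, by linarith⟩
  · rcases h'.lt_or_eq with h0 | h0
    · exact Or.inr (Or.inr (Or.inr (Or.inl ⟨h, h0, h''⟩)))
    · exact Or.inl ⟨by linarith, by linarith⟩
  · exact Or.inr (Or.inr (Or.inr (Or.inr (Or.inl h))))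
  · exact Or.inr (Or.inr (Or.inr (Or.inr (Or.inl h))))
  · exact Or.inr (Or.inr (Or.inr (Or.inr (Or.inl h))))
  · exact Or.inr (Or.inr (Or.inr (Or.inr (Or.inl h))))
  · exact Or.inr (Or.inr (Or.inr (Or.inr (Or.inr (Or.inl ⟨h, h', h''⟩)))))
  · iterate 10 apply Or.inr
    exact ⟨h, h'⟩
  · iterate 10 apply Or.inr
    exact ⟨by linarith, by linarith⟩
  · iterate 8 apply Or.inr
    exact Or.inl ⟨h, h'⟩
  · rcases h'.lt_or_eq with h0 | h0
    · iterate 9 apply Or.inr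
      exact Or.inl ⟨h, h0⟩
    · iterate 10 apply Or.inr
      exact ⟨by linarith, by linarith⟩
  · iterate 10 apply Or.inr
    exact ⟨by linarith, by linarith⟩
  · rcases h''.lt_or_eq with h0 | h0
    · iterate 7 apply Or.inr
      exact Or.inl ⟨h, h', h0⟩
    · iterate 10 apply Or.inr
      exact ⟨by linarith, by linarith⟩
  · iterate 6 apply Or.inr
    exact Or.inl h
  · iterate 6 apply Or.inr
    exact Or.inl h
  · iterate 6 apply Or.inr
    exact Or.inl h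
  · iterate 6 apply Or.inr
    exact Or.inl h

private theorem lev3 {w M x y a b : ℝ} (hw : 0 < w) (hM : 16 * w ≤ M) {i j k : ℕ} (hji : j < i)
    (hik : i < k) (hi : cnd w M i x y) (hj : cnd w M j a b) (hk : cnd w M k a b)
    (h0 : gx w M i x y = gx w M j a b) (h1 : gy w M i x y = gy w M j a b) :
    (0 ≤ x ∧ x ≤ M) ∧ OnF w M x y := by
  have key : (x = 3 * w ∧ y = 0) ∨ x = 5 * w ∨ x = M - 5 * w ∨ (x = M - 3 * w ∧ y = 0) := by
    rcases adj hw hM (hji.trans hik) hj hk with ⟨e1, e2, h, h'⟩ | ⟨e1, e2, h, h'⟩ |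
      ⟨e1, e2, h, h'⟩ | ⟨e1, e2, h, h'⟩ | ⟨e1, e2, h, h'⟩ | ⟨e1, e2, h, h', h''⟩ |
      ⟨e1, e2, h, h'⟩ | ⟨e1, e2, h, h'⟩ | ⟨e1, e2, h, h'⟩ | ⟨e1, e2, h, h'⟩ |
      ⟨e1, e2, h, h', h''⟩ | ⟨e1, e2, h, h'⟩ | ⟨e1, e2, h, h'⟩ | ⟨e1, e2, h, h'⟩ |
      ⟨e1, e2, h, h'⟩ | ⟨e1, e2, h, h'⟩ | ⟨e1, e2, h, h', h''⟩ | ⟨e1, e2, h, h'⟩ |
      ⟨e1, e2, h, h'⟩ | ⟨e1, e2, h, h'⟩ | ⟨e1, e2, h, h'⟩ <;> subst e1 <;> subst e2 <;>
      first
      | (exfalso; omega)
      | (clear hj hk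
         interval_cases i <;> simp only [cnd] at hi <;> simp only [gx, gy] at h0 h1 <;>
           casesm* _ ∧ _, _ ∨ _ <;>
           first
           | (exfalso; linarith)
           | (left; constructor <;> linarith)
           | (right; left; linarith)
           | (right; right; left; linarith)
           | (right; right; right; constructor <;> linarith))
  refine ⟨by rcases key with ⟨h, h'⟩ | h | h | ⟨h, h'⟩ <;> constructor <;> linarith, ?_⟩
  unfold OnF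
  rcases key with ⟨h, h'⟩ | h | h | ⟨h, h'⟩
  · exact Or.inl ⟨by linarith, by linarith⟩
  · exact Or.inr (Or.inr (Or.inr (Or.inr (Or.inl h))))
  · iterate 6 apply Or.inr
    exact Or.inl h
  · iterate 10 apply Or.inr
    exact ⟨by linarith, by linarith⟩

private theorem lev4 {w M x y a b : ℝ} (hw : 0 < w) (hM : 16 * w ≤ M) {i j k l : ℕ}
    (hik : i < k) (hkj : k < j) (hjl : j < l) (hi : cnd w M i x y) (hj : cnd w M j x y)
    (hk : cnd w M k a b) (hl : cnd w M l a b)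
    (h0 : gx w M i x y = gx w M k a b) (h1 : gy w M i x y = gy w M k a b) :
    (gx w M i x y = 3 * w ∨ gx w M i x y = w ∨ gx w M i x y = M - 11 * w ∨
      gx w M i x y = M - 9 * w) ∧ gy w M i x y = 0 := by
  rcases adj hw hM (hik.trans hkj) hi hj with ⟨e1, e2, h, h'⟩ | ⟨e1, e2, h, h'⟩ |
      ⟨e1, e2, h, h'⟩ | ⟨e1, e2, h, h'⟩ | ⟨e1, e2, h, h'⟩ | ⟨e1, e2, h, h', h''⟩ |
      ⟨e1, e2, h, h'⟩ | ⟨e1, e2, h, h'⟩ | ⟨e1, e2, h, h'⟩ | ⟨e1, e2, h, h'⟩ |
      ⟨e1, e2, h, h', h''⟩ | ⟨e1, e2, h, h'⟩ | ⟨e1, e2, h, h'⟩ | ⟨e1, e2, h, h'⟩ |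
      ⟨e1, e2, h, h'⟩ | ⟨e1, e2, h, h'⟩ | ⟨e1, e2, h, h', h''⟩ | ⟨e1, e2, h, h'⟩ |
      ⟨e1, e2, h, h'⟩ | ⟨e1, e2, h, h'⟩ | ⟨e1, e2, h, h'⟩ <;> subst e1 <;> subst e2 <;>
    first
    | (exfalso; omega)
    | (rcases adj hw hM (hkj.trans hjl) hk hl with ⟨e1, e2, g, g'⟩ | ⟨e1, e2, g, g'⟩ |
        ⟨e1, e2, g, g'⟩ | ⟨e1, e2, g, g'⟩ | ⟨e1, e2, g, g'⟩ | ⟨e1, e2, g, g', g''⟩ |
        ⟨e1, e2, g, g'⟩ | ⟨e1, e2, g, g'⟩ | ⟨e1, e2, g, g'⟩ | ⟨e1, e2, g, g'⟩ |
        ⟨e1, e2, g, g', g''⟩ | ⟨e1, e2, g, g'⟩ | ⟨e1, e2, g, g'⟩ | ⟨e1, e2, g, g'⟩ |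
        ⟨e1, e2, g, g'⟩ | ⟨e1, e2, g, g'⟩ | ⟨e1, e2, g, g', g''⟩ | ⟨e1, e2, g, g'⟩ |
        ⟨e1, e2, g, g'⟩ | ⟨e1, e2, g, g'⟩ | ⟨e1, e2, g, g'⟩ <;> subst e1 <;> subst e2 <;>
        first
        | (exfalso; omega)
        | (clear hi hj hk hl
           simp only [gx, gy] at h0 h1 ⊢
           first
           | (exfalso; linarith)
           | (refine ⟨Or.inl ?_, ?_⟩ <;> linarith)
           | (refine ⟨Or.inr (Or.inl ?_), ?_⟩ <;> linarith)
           | (refine ⟨Or.inr (Or.inr (Or.inl ?_)), ?_⟩ <;> linarith)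
           | (refine ⟨Or.inr (Or.inr (Or.inr ?_)), ?_⟩ <;> linarith)))

/-! ### convex pieces -/

private def hl (l : List (ℝ × ℝ × ℝ)) : Set (E2 × ℝ) := {m | ∃ t ∈ l, m = (pt t.1 t.2.1, t.2.2)}

private theorem hl_finite (l : List (ℝ × ℝ × ℝ)) : (hl l).Finite := by
  have : hl l = (fun t : ℝ × ℝ × ℝ => (pt t.1 t.2.1, t.2.2)) '' {t | t ∈ l} := by
    ext m
    simp only [hl, Set.mem_ofPred_eq, mem_image, eq_comm]
  rw [this]
  exact (List.finite_toSet l).image _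

private theorem mem_hull_hl (l : List (ℝ × ℝ × ℝ)) (p : E2) :
    p ∈ Hull (hl l) ↔ ∀ t ∈ l, t.2.2 ≤ t.1 * p 0 + t.2.1 * p 1 := by
  constructor
  · intro h t ht
    have := h (pt t.1 t.2.1, t.2.2) ⟨t, ht, rfl⟩
    simpa only [inner_pt] using this
  · rintro h _ ⟨t, ht, rfl⟩
    simpa only [inner_pt] using h t ht

private def pcs (w M : ℝ) : ℕ → List (ℝ × ℝ × ℝ)
  | 0 => [(-1, 0, 0)]
  | 1 => [(-1, 0, -(3 * w)), (-1, 1, -(3 * w))]
  | 2 => [(1, 0, 2 * w), (-1, 0, -(4 * w)), (1, -1, 3 * w), (-1, -1, -(3 * w))]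
  | 3 => [(0, -1, 0), (1, 1, 3 * w), (-1, 0, -(5 * w))]
  | 4 => [(0, 1, 0), (1, 0, 3 * w), (-1, 0, -(5 * w))]
  | 5 => [(1, 0, M)]
  | 6 => [(1, 0, M - 3 * w), (1, 1, M - 3 * w)]
  | 7 => [(1, 0, M - 4 * w), (-1, 0, -(M - 2 * w)), (1, -1, M - 3 * w), (-1, -1, -(M - 3 * w))]
  | 8 => [(0, -1, 0), (1, 0, M - 5 * w), (-1, 1, -(M - 3 * w))]
  | 9 => [(0, 1, 0), (1, 0, M - 5 * w), (-1, 0, -(M - 3 * w))]
  | 10 => [(0, 1, 0), (1, 0, 5 * w), (-1, 0, -(M - 5 * w))]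
  | _ => [(0, -1, 0), (1, 0, 5 * w), (-1, 0, -(M - 5 * w))]

private theorem pcs_level (w M : ℝ) {i : ℕ} (hi : i < 12) :
    ∃ j < 10, ∀ p ∈ Hull (hl (pcs w M i)), cnd w M j (p 0) (p 1) := by
  have key : ∀ j, j < 10 → (∀ x y : ℝ, (∀ t ∈ pcs w M i, t.2.2 ≤ t.1 * x + t.2.1 * y) →
      cnd w M j x y) → ∃ j < 10, ∀ p ∈ Hull (hl (pcs w M i)), cnd w M j (p 0) (p 1) :=
    fun j hj h => ⟨j, hj, fun p hp => h _ _ ((mem_hull_hl _ p).1 hp)⟩
  interval_cases i
  · refine key 0 (by norm_num) fun x y h => ?_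
    simp only [pcs, List.forall_mem_cons, List.not_mem_nil, false_imp_iff, implies_true,
      and_true] at h
    exact Or.inl (by linarith)
  · refine key 0 (by norm_num) fun x y h => ?_
    simp only [pcs, List.forall_mem_cons, List.not_mem_nil, false_imp_iff, implies_true,
      and_true] at h
    exact Or.inr ⟨by linarith, by linarith⟩
  · refine key 1 (by norm_num) fun x y h => ?_
    simp only [pcs, List.forall_mem_cons, List.not_mem_nil, false_imp_iff, implies_true,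
      and_true] at h
    exact ⟨by linarith, by linarith, by linarith, by linarith⟩
  · refine key 2 (by norm_num) fun x y h => ?_
    simp only [pcs, List.forall_mem_cons, List.not_mem_nil, false_imp_iff, implies_true,
      and_true] at h
    exact ⟨by linarith, by linarith, by linarith⟩
  · refine key 3 (by norm_num) fun x y h => ?_
    simp only [pcs, List.forall_mem_cons, List.not_mem_nil, false_imp_iff, implies_true,
      and_true] at h
    exact ⟨by linarith, by linarith, by linarith⟩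
  · refine key 4 (by norm_num) fun x y h => ?_
    simp only [pcs, List.forall_mem_cons, List.not_mem_nil, false_imp_iff, implies_true,
      and_true] at h
    exact Or.inl (by linarith)
  · refine key 4 (by norm_num) fun x y h => ?_
    simp only [pcs, List.forall_mem_cons, List.not_mem_nil, false_imp_iff, implies_true,
      and_true] at h
    exact Or.inr ⟨by linarith, by linarith⟩
  · refine key 5 (by norm_num) fun x y h => ?_
    simp only [pcs, List.forall_mem_cons, List.not_mem_nil, false_imp_iff, implies_true,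
      and_true] at h
    exact ⟨by linarith, by linarith, by linarith, by linarith⟩
  · refine key 6 (by norm_num) fun x y h => ?_
    simp only [pcs, List.forall_mem_cons, List.not_mem_nil, false_imp_iff, implies_true,
      and_true] at h
    exact ⟨by linarith, by linarith, by linarith⟩
  · refine key 7 (by norm_num) fun x y h => ?_
    simp only [pcs, List.forall_mem_cons, List.not_mem_nil, false_imp_iff, implies_true,
      and_true] at h
    exact ⟨by linarith, by linarith, by linarith⟩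
  · refine key 8 (by norm_num) fun x y h => ?_
    simp only [pcs, List.forall_mem_cons, List.not_mem_nil, false_imp_iff, implies_true,
      and_true] at h
    exact ⟨by linarith, by linarith, by linarith⟩
  · refine key 9 (by norm_num) fun x y h => ?_
    simp only [pcs, List.forall_mem_cons, List.not_mem_nil, false_imp_iff, implies_true,
      and_true] at h
    exact ⟨by linarith, by linarith, by linarith⟩

private theorem level_pcs {w M : ℝ} {j : ℕ} {p : E2} (h : cnd w M j (p 0) (p 1)) :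
    ∃ i : Fin 12, p ∈ Hull (hl (pcs w M i)) := by
  have hj := cnd_lt h
  have key : ∀ i, i < 12 → (∀ t ∈ pcs w M i, t.2.2 ≤ t.1 * p 0 + t.2.1 * p 1) →
      ∃ i : Fin 12, p ∈ Hull (hl (pcs w M i)) :=
    fun i hi h => ⟨⟨i, hi⟩, (mem_hull_hl _ p).2 h⟩
  interval_cases j <;> simp only [cnd] at h
  · rcases h with h | ⟨h, h'⟩
    · refine key 0 (by norm_num) ?_
      simp only [pcs, List.forall_mem_cons, List.not_mem_nil, false_imp_iff, implies_true,
        and_true]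
      linarith
    · refine key 1 (by norm_num) ?_
      simp only [pcs, List.forall_mem_cons, List.not_mem_nil, false_imp_iff, implies_true,
        and_true]
      constructor <;> linarith
  · obtain ⟨h1, h2, h3, h4⟩ := h
    refine key 2 (by norm_num) ?_
    simp only [pcs, List.forall_mem_cons, List.not_mem_nil, false_imp_iff, implies_true,
      and_true]
    refine ⟨?_, ?_, ?_, ?_⟩ <;> linarith
  · obtain ⟨h1, h2, h3⟩ := h
    refine key 3 (by norm_num) ?_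
    simp only [pcs, List.forall_mem_cons, List.not_mem_nil, false_imp_iff, implies_true,
      and_true]
    refine ⟨?_, ?_, ?_⟩ <;> linarith
  · obtain ⟨h1, h2, h3⟩ := h
    refine key 4 (by norm_num) ?_
    simp only [pcs, List.forall_mem_cons, List.not_mem_nil, false_imp_iff, implies_true,
      and_true]
    refine ⟨?_, ?_, ?_⟩ <;> linarith
  · rcases h with h | ⟨h, h'⟩
    · refine key 5 (by norm_num) ?_
      simp only [pcs, List.forall_mem_cons, List.not_mem_nil, false_imp_iff, implies_true,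
        and_true]
      linarith
    · refine key 6 (by norm_num) ?_
      simp only [pcs, List.forall_mem_cons, List.not_mem_nil, false_imp_iff, implies_true,
        and_true]
      constructor <;> linarith
  · obtain ⟨h1, h2, h3, h4⟩ := h
    refine key 7 (by norm_num) ?_
    simp only [pcs, List.forall_mem_cons, List.not_mem_nil, false_imp_iff, implies_true,
      and_true]
    refine ⟨?_, ?_, ?_, ?_⟩ <;> linarith
  · obtain ⟨h1, h2, h3⟩ := h
    refine key 8 (by norm_num) ?_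
    simp only [pcs, List.forall_mem_cons, List.not_mem_nil, false_imp_iff, implies_true,
      and_true]
    refine ⟨?_, ?_, ?_⟩ <;> linarith
  · obtain ⟨h1, h2, h3⟩ := h
    refine key 9 (by norm_num) ?_
    simp only [pcs, List.forall_mem_cons, List.not_mem_nil, false_imp_iff, implies_true,
      and_true]
    refine ⟨?_, ?_, ?_⟩ <;> linarith
  · obtain ⟨h1, h2, h3⟩ := h
    refine key 10 (by norm_num) ?_
    simp only [pcs, List.forall_mem_cons, List.not_mem_nil, false_imp_iff, implies_true,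
      and_true]
    refine ⟨?_, ?_, ?_⟩ <;> linarith
  · obtain ⟨h1, h2, h3⟩ := h
    refine key 11 (by norm_num) ?_
    simp only [pcs, List.forall_mem_cons, List.not_mem_nil, false_imp_iff, implies_true,
      and_true]
    refine ⟨?_, ?_, ?_⟩ <;> linarith

/-! ### signs of levels -/

private theorem near_levels {k : ℕ} {R : Fin k → Set E2} (hcl : ∀ i, IsClosed (R i)) (z : E2) :
    ∀ᶠ y in 𝓝 z, ∀ i, y ∈ R i → z ∈ R i := by
  rw [eventually_all]
  intro i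
  by_cases h : z ∈ R i
  · exact Eventually.of_forall fun y _ => h
  · filter_upwards [(hcl i).isOpen_compl.mem_nhds h] with y hy hy'
    exact absurd hy' hy

private theorem signOn_levels {Y : Type*} [NormedAddCommGroup Y] [InnerProductSpace ℝ Y]
    {k : ℕ} {R : Fin k → Set E2} {X : Set E2} {f : E2 → Y} (sgn : Fin k → Prop)
    (hX : X = ⋃ i, R i) (hcl : ∀ i, IsClosed (R i)) (hinj : ∀ i, InjOn f (R i))
    (h1 : ∀ i j, i ≠ j → ∀ x ∈ R i ∩ R j, ¬ Reg X f x)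
    (hE : ∃ E : Set E2, E.Finite ∧ ∀ i j, i ≠ j → ∀ x ∈ R i ∩ R j, x ∉ E → (sgn i ↔ ¬ sgn j)) :
    SignOn X f (fun x => ∃ i, x ∈ R i ∧ sgn i) := by
  have hsg : ∀ {x i}, Reg X f x → x ∈ R i → ((∃ i, x ∈ R i ∧ sgn i) ↔ sgn i) := by
    intro x i hx hi
    constructor
    · rintro ⟨j, hj, hs⟩
      by_cases hij : i = j
      · exact hij ▸ hs
      · exact absurd hx (h1 i j hij x ⟨hi, hj⟩)
    · exact fun h => ⟨i, hi, h⟩
  have hmem : ∀ {x}, Reg X f x → ∃ i, x ∈ R i := by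
    intro x hx
    have : x ∈ ⋃ i, R i := hX ▸ hx.mem
    exact mem_iUnion.1 this
  refine ⟨fun q hq => ?_, ?_⟩
  · obtain ⟨i, hi⟩ := hmem hq
    filter_upwards [near_levels hcl q, hq.eventually] with q' h2 h3
    obtain ⟨j, hj⟩ := hmem h3
    have hij : j = i := by
      by_contra hne
      exact h1 j i hne q ⟨h2 j hj, hi⟩ hq
    subst hij
    rw [hsg hq hi, hsg h3 hj]
  · obtain ⟨E, hEf, hE⟩ := hE
    refine ⟨E, hEf, fun q _ hqE => ⟨_, near_levels hcl q, fun a ha a' ha' hra hra' hne hf => ?_⟩⟩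
    obtain ⟨i, hi⟩ := hmem hra
    obtain ⟨j, hj⟩ := hmem hra'
    have hij : i ≠ j := by
      rintro rfl
      exact hne (hinj i hi hj hf)
    rw [hsg hra hi, hsg hra' hj]
    exact hE i j hij q ⟨ha i hi, ha' j hj⟩ hqE

/-! ### the normalised gadget -/

private theorem pinch0 {X : Set E2} (hX : PolySet X) {M w : ℝ} (hw : 0 < w)
    (hM : 16 * w ≤ M) (hstr : ∀ y : E2, 0 ≤ y 0 → y 0 ≤ M → (y ∈ X ↔ |y 1| ≤ w)) :
    ∃ (F : E2 → E2) (up : E2 → E2 → Prop) (pos : E2 → Prop),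
      FoldOn X F up ∧ SignOn X F pos ∧
      (∀ y ∈ X, y 0 ≤ w → F y = y) ∧
      (∀ y ∈ X, M - w ≤ y 0 → F y = y - pt (8 * w) 0) ∧
      (∀ y ∈ X, 0 ≤ y 0 → y 0 ≤ M → 0 ≤ (F y) 0 ∧ (F y) 0 ≤ M - 8 * w ∧ |(F y) 1| ≤ w) ∧
      (∀ y : E2, 3 * w ≤ y 0 → y 0 ≤ M - 11 * w → (y ∈ F '' X ↔ 0 ≤ y 1 ∧ y 1 ≤ w)) ∧
      (∀ x ∈ X, (F x) 0 < w → F x = x) ∧
      (∀ x ∈ X, M - 9 * w < (F x) 0 → F x = x - pt (8 * w) 0) := by
  have hs : ∀ p ∈ X, 0 ≤ p 0 → p 0 ≤ M → -w ≤ p 1 ∧ p 1 ≤ w := fun p hp h1 h2 =>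
    abs_le.1 ((hstr p h1 h2).1 hp)
  have hcov : ∀ p ∈ X, ∃ i : ℕ, cnd w M i (p 0) (p 1) := fun p hp => cover hw (hs p hp)
  set R : Fin 10 → Set E2 := fun i => X ∩ {p | cnd w M i (p 0) (p 1)} with hR
  have hXR : X = ⋃ i, R i := by
    ext p
    simp only [mem_iUnion]
    constructor
    · intro hp
      obtain ⟨i, hi⟩ := hcov p hp
      exact ⟨⟨i, cnd_lt hi⟩, hp, hi⟩
    · rintro ⟨i, hp, -⟩
      exact hp
  have hcl : ∀ i, IsClosed (R i) := fun i => hX.isCompact.isClosed.inter (closed_level w M i)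
  have hgad : ∀ i : Fin 10, ∀ p ∈ R i,
      gad w M p = pt (gx w M i (p 0) (p 1)) (gy w M i (p 0) (p 1)) :=
    fun i p hp => gad_eq hw hM hp.2
  have hinj : ∀ i, InjOn (gad w M) (R i) := by
    intro i p hp q hq h
    obtain ⟨g, hg⟩ := iso_level w M i.2
    rw [hgad i p hp, hgad i q hq, ← hg, ← hg] at h
    exact g.injective h
  have hpc : Pieced X (gad w M) := by
    refine Pieced.of_cover hX (Λ := fun i : Fin 12 => hl (pcs w M i)) (fun i => hl_finite _) ?_ ?_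
    · intro p hp
      obtain ⟨j, hj⟩ := hcov p hp
      exact mem_iUnion.2 (level_pcs hj)
    · intro i
      obtain ⟨j, hj, h⟩ := pcs_level w M i.2
      obtain ⟨g, hg⟩ := iso_level w M hj
      exact ⟨g, fun p hp => by rw [gad_eq hw hM (h p hp.2), hg]⟩
  have hnr : ∀ {p : E2}, p ∈ X → (0 ≤ p 0 ∧ p 0 ≤ M) → OnF w M (p 0) (p 1) →
      ¬ Reg X (gad w M) p := fun hp hb hO => OnF.not_reg hw hM (hs _ hp hb.1 hb.2) hO
  have h1' : ∀ i j : Fin 10, i < j → ∀ x ∈ R i ∩ R j, ¬ Reg X (gad w M) x :=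
    fun i j hij x hx => hnr hx.1.1 (adj_range hw hM hij hx.1.2 hx.2.2)
      (adj_onF hw hM hij hx.1.2 hx.2.2)
  have h1 : ∀ i j : Fin 10, i ≠ j → ∀ x ∈ R i ∩ R j, ¬ Reg X (gad w M) x := by
    intro i j hij x hx
    rcases lt_or_gt_of_ne hij with h | h
    · exact h1' i j h x hx
    · exact h1' j i h x ⟨hx.2, hx.1⟩
  have hcoord : ∀ {i j : Fin 10} {x z : E2}, x ∈ R i → z ∈ R j → gad w M x = gad w M z →
      gx w M i (x 0) (x 1) = gx w M j (z 0) (z 1) ∧ gy w M i (x 0) (x 1) = gy w M j (z 0) (z 1) := by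
    intro i j x z hx hz h
    rw [hgad i x hx, hgad j z hz] at h
    exact ⟨by simpa using congrArg (fun q : E2 => q 0) h, by simpa using congrArg (fun q : E2 => q 1) h⟩
  have hfold : FoldOn X (gad w M) (fun x y => ∃ i j : Fin 10, i < j ∧ x ∈ R i ∧ y ∈ R j) := by
    refine FoldOn.of_levels hpc hXR hcl hinj h1 ?_ ?_
    · intro i j k hji hik x hx hreg z hz he
      obtain ⟨e0, e1⟩ := hcoord hx hz.1 he
      obtain ⟨hb, hO⟩ := lev3 hw hM hji hik hx.2 hz.1.2 hz.2.2 e0 e1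
      exact hnr hx.1 hb hO hreg
    · refine ⟨{pt (3 * w) 0, pt w 0, pt (M - 11 * w) 0, pt (M - 9 * w) 0}, by simp, ?_⟩
      intro i j k l hik hkj hjl z hz z' hz' he
      obtain ⟨e0, e1⟩ := hcoord hz.1 hz'.1 he
      obtain ⟨h, h'⟩ := lev4 hw hM hik hkj hjl hz.1.2 hz.2.2 hz'.1.2 hz'.2.2 e0 e1
      rw [hgad i z hz.1, h']
      rcases h with h | h | h | h <;> simp [h]
  have hsign : SignOn X (gad w M) (fun x => ∃ i : Fin 10, x ∈ R i ∧ i.val % 2 = 0) := by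
    refine signOn_levels (fun i : Fin 10 => i.val % 2 = 0) hXR hcl hinj h1
      ⟨{pt (3 * w) 0, pt (5 * w) 0, pt (M - 3 * w) 0, pt (M - 5 * w) 0}, by simp, ?_⟩
    have key : ∀ i j : Fin 10, i < j → ∀ x ∈ R i ∩ R j,
        x ∉ ({pt (3 * w) 0, pt (5 * w) 0, pt (M - 3 * w) 0, pt (M - 5 * w) 0} : Set E2) →
        (i.val % 2 = 0 ↔ ¬ j.val % 2 = 0) := by
      intro i j hij x hx hE
      have hv : ∀ {α : ℝ}, x 0 = α → x 1 = 0 → x = pt α 0 := fun h h' =>
        e2ext (by simpa using h) (by simpa using h')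
      have h3 := adj hw hM hij hx.1.2 hx.2.2
      simp only [mem_insert_iff, mem_singleton_iff, not_or] at hE
      obtain ⟨n1, n2, n3, n4⟩ := hE
      rcases h3 with ⟨e1, e2, h, h'⟩ | ⟨e1, e2, h, h'⟩ |
        ⟨e1, e2, h, h'⟩ | ⟨e1, e2, h, h'⟩ | ⟨e1, e2, h, h'⟩ | ⟨e1, e2, h, h', h''⟩ |
        ⟨e1, e2, h, h'⟩ | ⟨e1, e2, h, h'⟩ | ⟨e1, e2, h, h'⟩ | ⟨e1, e2, h, h'⟩ |
        ⟨e1, e2, h, h', h''⟩ | ⟨e1, e2, h, h'⟩ | ⟨e1, e2, h, h'⟩ | ⟨e1, e2, h, h'⟩ |
        ⟨e1, e2, h, h'⟩ | ⟨e1, e2, h, h'⟩ | ⟨e1, e2, h, h', h''⟩ | ⟨e1, e2, h, h'⟩ |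
        ⟨e1, e2, h, h'⟩ | ⟨e1, e2, h, h'⟩ | ⟨e1, e2, h, h'⟩ <;>
        first
        | omega
        | exact absurd (hv h h') n1
        | exact absurd (hv h h') n2
        | exact absurd (hv h h') n3
        | exact absurd (hv h h') n4
    intro i j hij x hx hE
    rcases lt_or_gt_of_ne hij with h | h
    · exact key i j h x hx hE
    · have := key j i h x ⟨hx.2, hx.1⟩ hE
      omega
  refine ⟨gad w M, _, _, hfold, hsign, ?_, ?_, ?_, ?_, ?_, ?_⟩
  · intro y hy h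
    have hc : cnd w M 0 (y 0) (y 1) := by
      by_cases h0 : y 0 ≤ 0
      · exact Or.inl h0
      · have := hs y hy (by linarith) (by linarith)
        exact Or.inr ⟨by linarith, by linarith⟩
    rw [gad_eq hw hM hc]
    exact e2ext (by simp [gx]) (by simp [gy])
  · intro y hy h
    have hc : cnd w M 4 (y 0) (y 1) := by
      by_cases h0 : M ≤ y 0
      · exact Or.inl h0
      · have := hs y hy (by linarith) (by linarith)
        exact Or.inr ⟨by linarith, by linarith⟩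
    rw [gad_eq hw hM hc]
    exact e2ext (by simp [gx]) (by simp [gy])
  · intro y hy h0 h0'
    obtain ⟨hy1, hy2⟩ := hs y hy h0 h0'
    obtain ⟨i, hi⟩ := hcov y hy
    have hi10 := cnd_lt hi
    rw [gad_eq hw hM hi, pt_zero, pt_one, abs_le]
    interval_cases i <;> simp only [cnd] at hi <;> simp only [gx, gy] <;>
      casesm* _ ∧ _, _ ∨ _ <;> refine ⟨?_, ?_, ?_, ?_⟩ <;> linarith
  · intro y h0 h0'
    constructor
    · rintro ⟨p, hp, rfl⟩
      obtain ⟨i, hi⟩ := hcov p hp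
      have hi10 := cnd_lt hi
      rw [gad_eq hw hM hi, pt_zero] at h0 h0'
      rw [gad_eq hw hM hi, pt_one]
      have hb : 0 ≤ p 0 ∧ p 0 ≤ M := by
        interval_cases i <;> simp only [cnd] at hi <;> simp only [gx] at h0 h0' <;>
          casesm* _ ∧ _, _ ∨ _ <;> constructor <;> linarith
      obtain ⟨hp1, hp2⟩ := hs p hp hb.1 hb.2
      interval_cases i <;> simp only [cnd] at hi <;> simp only [gx] at h0 h0' <;>
        simp only [gy] <;> casesm* _ ∧ _, _ ∨ _ <;> constructor <;> linarith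
    · rintro ⟨h1, h2⟩
      refine ⟨pt (y 0 + 4 * w) (y 1), ?_, ?_⟩
      · rw [hstr _ (by simp; linarith) (by simp; linarith), pt_one, abs_le]
        constructor <;> linarith
      · rw [gad_eq hw hM (i := 8) (by
          simp only [pt_zero, pt_one, cnd]
          exact ⟨h1, by linarith, by linarith⟩)]
        exact e2ext (by simp [gx]) (by simp [gy])
  · intro x hx h
    obtain ⟨i, hi⟩ := hcov x hx
    have hi10 := cnd_lt hi
    rw [gad_eq hw hM hi, pt_zero] at h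
    rw [gad_eq hw hM hi]
    interval_cases i <;> simp only [cnd] at hi <;> simp only [gx] at h <;>
      first
      | (exfalso; casesm* _ ∧ _, _ ∨ _ <;> linarith)
      | (exfalso
         have hb : 0 ≤ x 0 ∧ x 0 ≤ M := by constructor <;> linarith
         have := hs x hx hb.1 hb.2
         linarith)
      | (apply e2ext <;> simp [gx, gy])
  · intro x hx h
    obtain ⟨i, hi⟩ := hcov x hx
    have hi10 := cnd_lt hi
    rw [gad_eq hw hM hi, pt_zero] at h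
    rw [gad_eq hw hM hi]
    interval_cases i <;> simp only [cnd] at hi <;> simp only [gx] at h <;>
      first
      | (exfalso; casesm* _ ∧ _, _ ∨ _ <;> linarith)
      | (exfalso
         have hb : 0 ≤ x 0 ∧ x 0 ≤ M := by constructor <;> linarith
         have := hs x hx hb.1 hb.2
         linarith)
      | (apply e2ext <;> simp [gx, gy])

end Gadget

theorem exists_pinch {X : Set E2} (hX : PolySet X) {a b c w : ℝ} (hw : 0 < w)
    (hab : 16 * w ≤ b - a) (hstr : ∀ y : E2, a ≤ y 0 → y 0 ≤ b → (y ∈ X ↔ |y 1 - c| ≤ w))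
    {c' : ℝ} (hc' : c' = c + w / 2 ∨ c' = c - w / 2) :
    ∃ (F : E2 → E2) (up : E2 → E2 → Prop) (pos : E2 → Prop),
      FoldOn X F up ∧ SignOn X F pos ∧
      (∀ y ∈ X, y 0 ≤ a + w → F y = y) ∧
      (∀ y ∈ X, b - w ≤ y 0 → F y = y - pt (8 * w) 0) ∧
      (∀ y ∈ X, a ≤ y 0 → y 0 ≤ b → a ≤ (F y) 0 ∧ (F y) 0 ≤ b - 8 * w ∧ |(F y) 1 - c| ≤ w) ∧
      (∀ y : E2, a + 3 * w ≤ y 0 → y 0 ≤ b - 11 * w → (y ∈ F '' X ↔ |y 1 - c'| ≤ w / 2)) ∧
      (∀ x ∈ X, (F x) 0 < a + w → F x = x) ∧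
      (∀ x ∈ X, b - 9 * w < (F x) 0 → F x = x - pt (8 * w) 0) := by
  obtain ⟨σ, hσ, hσc⟩ : ∃ σ : ℝ, σ ^ 2 = 1 ∧ c' = c + σ * (w / 2) := by
    rcases hc' with h | h
    · exact ⟨1, by norm_num, by rw [h]; ring⟩
    · exact ⟨-1, by norm_num, by rw [h]; ring⟩
  have hσ' : σ = 1 ∨ σ = -1 := by
    have : (σ - 1) * (σ + 1) = 0 := by linear_combination hσ
    rcases mul_eq_zero.1 this with h | h
    · exact Or.inl (by linarith)
    · exact Or.inr (by linarith)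
  obtain ⟨T, hT⟩ := exists_iso 1 0 0 σ (-a) (-(σ * c)) (by norm_num) (by simpa using hσ)
    (by norm_num)
  obtain ⟨S, hS⟩ := exists_iso 1 0 0 σ a c (by norm_num) (by simpa using hσ) (by norm_num)
  have hT0 : ∀ y, (T y) 0 = y 0 - a := fun y => by rw [hT]; simp; ring
  have hT1 : ∀ y, (T y) 1 = σ * (y 1 - c) := fun y => by rw [hT]; simp; ring
  have hS0 : ∀ y, (S y) 0 = y 0 + a := fun y => by rw [hS]; simp
  have hS1 : ∀ y, (S y) 1 = σ * y 1 + c := fun y => by rw [hS]; simp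
  have hST : ∀ y, S (T y) = y := fun y => e2ext (by rw [hS0, hT0]; ring)
    (by rw [hS1, hT1]; linear_combination (y 1 - c) * hσ)
  have hTS : ∀ y, T (S y) = y := fun y => e2ext (by rw [hT0, hS0]; ring)
    (by rw [hT1, hS1]; linear_combination (y 1) * hσ)
  have habs : ∀ t : ℝ, |σ * t| = |t| := by
    intro t
    rcases hσ' with h | h <;> simp [h]
  have hTX : T '' X = S ⁻¹' X := by
    ext z
    constructor
    · rintro ⟨y, hy, rfl⟩
      rw [mem_preimage, hST]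
      exact hy
    · exact fun hz => ⟨S z, hz, hTS z⟩
  have hX' : PolySet (S ⁻¹' X) := by
    rw [← hTX]
    obtain ⟨𝒯, h1, h2, h3⟩ := hX
    exact Pieced.polySet_image (F := fun y => T y) ⟨𝒯, h1, h2, h3, fun t _ => ⟨T, fun x _ => rfl⟩⟩
  have hpre : T ⁻¹' (S ⁻¹' X) = X := by
    ext y
    rw [mem_preimage, mem_preimage, hST]
  have hstr' : ∀ z : E2, 0 ≤ z 0 → z 0 ≤ b - a → (z ∈ S ⁻¹' X ↔ |z 1| ≤ w) := by
    intro z h0 h1
    rw [mem_preimage, hstr _ (by rw [hS0]; linarith) (by rw [hS0]; linarith), hS1,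
      show σ * z 1 + c - c = σ * z 1 by ring, habs]
  obtain ⟨F, up, pos, hF, hsg, p1, p2, p3, p4, p5, p6⟩ := pinch0 hX' hw hab hstr'
  have hmem : ∀ {y}, y ∈ X → T y ∈ S ⁻¹' X := by
    intro y hy
    rw [mem_preimage, hST]
    exact hy
  have hfix : ∀ {y : E2}, F (T y) = T y → S (F (T y)) = y := by
    intro y h
    rw [h, hST]
  have hmov : ∀ {y : E2}, F (T y) = T y - pt (8 * w) 0 → S (F (T y)) = y - pt (8 * w) 0 := by
    intro y h
    rw [h]
    refine e2ext ?_ ?_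
    · rw [hS0]
      simp only [PiLp.sub_apply, pt_zero, hT0]
      ring
    · rw [hS1]
      simp only [PiLp.sub_apply, pt_one, hT1]
      linear_combination (y 1 - c) * hσ
  refine ⟨fun y => S (F (T y)), fun x y => up (T x) (T y), fun x => pos (T x), ?_, ?_, ?_, ?_, ?_,
    ?_, ?_, ?_⟩
  · have := (hF.postcomp S).precomp T
    rwa [hpre] at this
  · have := (hsg.postcomp S).precomp T
    rwa [hpre] at this
  · intro y hy h
    exact hfix (p1 _ (hmem hy) (by rw [hT0]; linarith))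
  · intro y hy h
    exact hmov (p2 _ (hmem hy) (by rw [hT0]; linarith))
  · intro y hy h h'
    obtain ⟨q1, q2, q3⟩ := p3 _ (hmem hy) (by rw [hT0]; linarith) (by rw [hT0]; linarith)
    simp only [hS0, hS1]
    refine ⟨by linarith, by linarith, ?_⟩
    rwa [show σ * F (T y) 1 + c - c = σ * F (T y) 1 by ring, habs]
  · intro y h h'
    have q := p4 (T y) (by rw [hT0]; linarith) (by rw [hT0]; linarith)
    have hiff : y ∈ (fun y => S (F (T y))) '' X ↔ T y ∈ F '' (S ⁻¹' X) := by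
      constructor
      · rintro ⟨x, hx, rfl⟩
        exact ⟨T x, hmem hx, by simp only [hTS]⟩
      · rintro ⟨z, hz, he⟩
        exact ⟨S z, hz, by simp only [hTS, he, hST]⟩
    rw [hiff, q, hT1, hσc, abs_le]
    rcases hσ' with h1 | h1 <;> rw [h1] <;> constructor <;> rintro ⟨q1, q2⟩ <;> constructor <;>
      linarith
  · intro x hx h
    simp only [hS0] at h
    exact hfix (p5 _ (hmem hx) (by linarith))
  · intro x hx h
    simp only [hS0] at h
    exact hmov (p6 _ (hmem hx) (by linarith))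

end Pool.Agent.SeamS
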