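import Pool.Agent.SeamS.ArrCells

/-!
# Connectedness of the cell complex (module D4, MP_6cce73_lc)

`chain_lemma`: connected unions of closed cells; `Arrg.exists_outer`: a plate has no islands, so a hidden cell is
connected, through hidden cells, with an edge of the plate.
-/

set_option autoImplicit false

namespace Pool.Agent.SeamS

open Set Filter Topology Metric Pool.Agent.Hhelper79.Seam

variable {S D : Set E3} {m : ℕ}

/-- a connected set covered by finitely many closed sets -/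
theorem chain_lemma {Z : Set E3} (hY : IsPreconnected Z) {G : Set (Set E3)} (hfin : G.Finite)
    (hcov : Z ⊆ ⋃₀ (closure '' G)) (hne : ∀ c ∈ G, (Z ∩ closure c).Nonempty)
    {R : Set E3 → Set E3 → Prop}
    (hR : ∀ c ∈ G, ∀ c' ∈ G, ∀ p ∈ Z, p ∈ closure c → p ∈ closure c' → R c c')
    {c c' : Set E3} (hc : c ∈ G) (hc' : c' ∈ G) : Relation.ReflTransGen R c c' := by
  by_contra hcon
  have hcl : ∀ P : Set E3 → Prop, IsClosed (⋃₀ (closure '' {d | d ∈ G ∧ P d})) := by
    intro P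
    rw [sUnion_eq_biUnion]
    apply Set.Finite.isClosed_biUnion
    · exact (hfin.subset fun d hd => hd.1).image _
    · rintro _ ⟨d, -, rfl⟩
      exact isClosed_closure
  have h1 := isPreconnected_closed_iff.1 hY _ _ (hcl fun d => Relation.ReflTransGen R c d)
    (hcl fun d => ¬ Relation.ReflTransGen R c d) (by
      intro x hx
      obtain ⟨_, ⟨d, hd, rfl⟩, hxd⟩ := hcov hx
      by_cases h : Relation.ReflTransGen R c d
      · exact Or.inl ⟨_, ⟨d, ⟨hd, h⟩, rfl⟩, hxd⟩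
      · exact Or.inr ⟨_, ⟨d, ⟨hd, h⟩, rfl⟩, hxd⟩)
    (by
      obtain ⟨x, hx, hxc⟩ := hne c hc
      exact ⟨x, hx, _, ⟨c, ⟨hc, Relation.ReflTransGen.refl⟩, rfl⟩, hxc⟩)
    (by
      obtain ⟨x, hx, hxc⟩ := hne c' hc'
      exact ⟨x, hx, _, ⟨c', ⟨hc', hcon⟩, rfl⟩, hxc⟩)
  obtain ⟨p, hp, ⟨_, ⟨d, ⟨hd, hcd⟩, rfl⟩, hpd⟩, ⟨_, ⟨d', ⟨hd', hcd'⟩, rfl⟩, hpd'⟩⟩ := h1
  exact hcd' (hcd.tail (hR d hd d' hd' p hp hpd hpd'))

/-- an open connected set of the plane stays connected when finitely many points are removed -/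
theorem preconnected_open_diff {W : Set E2} (hW : IsOpen W) (hc : IsPreconnected W) {F : Set E2}
    (hF : F.Finite) : IsPreconnected (W \ F) := by
  have hball : ∀ x ∈ W, ∃ r > 0, ball x r ⊆ W := fun x hx => Metric.isOpen_iff.1 hW x hx
  have hbp : ∀ (x : E2) (r : ℝ), 0 < r → IsPreconnected (ball x r \ F) := by
    intro x r hr
    apply preconnected_diff (convex_ball x r) _ hF
    rw [isOpen_ball.interior_eq]
    exact ⟨x, mem_ball_self hr⟩
  have hbn : ∀ (x : E2) (r : ℝ), 0 < r → (ball x r \ F).Nonempty := by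
    intro x r hr
    obtain ⟨y, hy, hy2⟩ := (hF.countable.dense_compl ℝ).inter_open_nonempty _ isOpen_ball
      ⟨x, mem_ball_self hr⟩
    exact ⟨y, hy, hy2⟩
  intro u v hu hv hcov hxu hyv
  by_contra hempty
  rw [Set.not_nonempty_iff_eq_empty] at hempty
  have hno : ∀ x, x ∈ W → x ∉ F → x ∈ u → x ∈ v → False := by
    intro x h1 h2 h3 h4
    have : x ∈ (W \ F) ∩ (u ∩ v) := ⟨⟨h1, h2⟩, h3, h4⟩
    rw [hempty] at this
    exact this
  set G : Set E2 → Set E2 := fun u => {x | ∃ r > 0, ball x r ⊆ W ∧ ball x r \ F ⊆ u} with hG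
  have hGo : ∀ u, IsOpen (G u) := by
    intro u
    rw [Metric.isOpen_iff]
    rintro x ⟨r, hr, h1, h2⟩
    refine ⟨r, hr, fun y hy => ⟨r - dist y x, sub_pos.2 hy, ?_, ?_⟩⟩
    · exact (ball_subset_ball' (by linarith)).trans h1
    · exact (sdiff_subset_sdiff_left (ball_subset_ball' (by linarith))).trans h2
  have hcase : ∀ x ∈ W, x ∈ G u ∨ x ∈ G v := by
    intro x hx
    obtain ⟨r, hr, hrW⟩ := hball x hx
    have h1 : ball x r \ F ⊆ u ∪ v := fun y hy => hcov ⟨hrW hy.1, hy.2⟩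
    have h2 := hbp x r hr
    by_cases h3 : ((ball x r \ F) ∩ v).Nonempty
    · right
      refine ⟨r, hr, hrW, fun y hy => ?_⟩
      by_contra hyv
      have hyu : y ∈ u := (h1 hy).resolve_right hyv
      obtain ⟨z, hz, hz2⟩ := h2 u v hu hv h1 ⟨y, hy, hyu⟩ h3
      exact hno z (hrW hz.1) hz.2 hz2.1 hz2.2
    · left
      refine ⟨r, hr, hrW, fun y hy => ?_⟩
      rcases h1 hy with h4 | h4
      · exact h4
      · exact absurd ⟨y, hy, h4⟩ h3
  have hself : ∀ (w w' : Set E2), (∀ x, x ∈ W → x ∉ F → x ∈ w → x ∈ w' → False) →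
      ∀ x ∈ W \ F, x ∈ w → x ∈ G w' → False := by
    rintro w w' hww x hx hxw ⟨r, hr, -, h2⟩
    exact hww x hx.1 hx.2 hxw (h2 ⟨mem_ball_self hr, hx.2⟩)
  obtain ⟨x, hx, hxu⟩ := hxu
  obtain ⟨y, hy, hyv⟩ := hyv
  have hxG : x ∈ G u := (hcase x hx.1).resolve_right fun h => hself u v hno x hx hxu h
  have hyG : y ∈ G v := (hcase y hy.1).resolve_left fun h =>
    hself v u (fun z h1 h2 h3 h4 => hno z h1 h2 h4 h3) y hy hyv h
  obtain ⟨z, -, ⟨r, hr, h1, h2⟩, ⟨r', hr', -, h4⟩⟩ := hc _ _ (hGo u) (hGo v)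
    (fun x hx => hcase x hx) ⟨x, hx.1, hxG⟩ ⟨y, hy.1, hyG⟩
  obtain ⟨t, ht, htF⟩ := hbn z (min r r') (lt_min hr hr')
  have ht1 : t ∈ ball z r := ball_subset_ball (min_le_left _ _) ht
  have ht2 : t ∈ ball z r' := ball_subset_ball (min_le_right _ _) ht
  exact hno t (h1 ht1) htF (h2 ⟨ht1, htF⟩) (h4 ⟨ht2, htF⟩)

theorem IsCl.not_vert {A : Set (E3 →ᵃ[ℝ] ℝ)} (hA : A.Finite) {S c : Set E3} (hc : IsCl A S c)
    {x : E3} (hx : x ∈ c) : x ∉ Vert A := by
  intro hv
  obtain ⟨g, u, hP, hgen, -, rfl⟩ := hc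
  obtain ⟨w, rfl⟩ := hP.mem_range hx (mem_range_self u)
  have h1 : Gen A g w := hgen.of_mem hx
  have h2 : OO A g w = {w} := by
    ext y
    constructor
    · intro hy
      have h3 : g y ∈ Cls A (g w) := hy
      rw [show Cls A (g w) = {g w} from hv] at h3
      exact g.injective h3
    · rintro rfl
      exact mem_OO_self A g _
  have h3 := h1.isOpen hA
  rw [h2] at h3
  exact not_isOpen_singleton w h3

namespace Arrg

variable {Pl : PlateSys S D m} {A : Set (E3 →ᵃ[ℝ] ℝ)}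

theorem edgePt (h : Arrg Pl A) {c c' : Set E3} (hc : IsCl A S c) (hc' : IsCl A S c') (hne : c ≠ c')
    {p : E3} (hp : p ∈ closure c) (hp' : p ∈ closure c') (hv : p ∉ Vert A) : EdgePt A c p :=
  ⟨hp, fun h1 => Set.disjoint_left.1 (hc.disjoint h.fin hc' hne) h1 hp', hv⟩

theorem closure_subset_K {c : Set E3} {k : Fin m} (hck : c ⊆ Pl.T k '' Pl.K k) :
    closure c ⊆ Pl.T k '' Pl.K k := closure_minimal hck (isClosed_K k)

/-- hidden cells of the plate `k` -/
def Hid' (A : Set (E3 →ᵃ[ℝ] ℝ)) (Pl : PlateSys S D m) (k : Fin m) (d : Set E3) : Prop :=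
  IsCl A S d ∧ d ⊆ Pl.T k '' Pl.K k ∧ Disjoint d (Pl.T k '' Pl.U k)

/-- adjacent hidden cells -/
def Adj' (A : Set (E3 →ᵃ[ℝ] ℝ)) (Pl : PlateSys S D m) (k : Fin m) (d d' : Set E3) : Prop :=
  Hid' A Pl k d ∧ Hid' A Pl k d' ∧ d ≠ d' ∧ ∃ p, EdgePt A d p ∧ EdgePt A d' p

/-- no islands: a hidden cell is connected by hidden cells to an edge of the plate -/
theorem exists_outer (h : Arrg Pl A) {k : Fin m} {c : Set E3} (hc : Hid' A Pl k c) :
    ∃ d, Hid' A Pl k d ∧ Relation.ReflTransGen (Adj' A Pl k) c d ∧ ∃ p, EdgePt A d p ∧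
      p ∉ Pl.T k '' interior (Pl.K k) := by
  by_contra hno
  push Not at hno
  have hA := h.fin
  set T := Pl.T k with hT
  obtain ⟨x, hx⟩ := hc.1.nonempty
  obtain ⟨v, rfl, hgen, hcv⟩ := hc.1.rep hx (h.pT k) (by
    obtain ⟨v, -, rfl⟩ := hc.2.1 hx
    exact mem_range_self v)
  have hvU : v ∉ closure (Pl.U k) := by
    intro hv
    obtain ⟨w, hw, hw'⟩ := _root_.mem_closure_iff_nhds.1 hv _
      ((hgen.isOpen hA).mem_nhds (mem_OO_self A T v))
    exact Set.disjoint_left.1 hc.2.2 (show T w ∈ c by rw [hcv]; exact hw) (mem_image_of_mem _ hw')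
  set W := connectedComponentIn (closure (Pl.U k))ᶜ v with hW
  have hWo : IsOpen W := isClosed_closure.isOpen_compl.connectedComponentIn
  have hWp : IsPreconnected W := isPreconnected_connectedComponentIn
  have hWU : W ⊆ (closure (Pl.U k))ᶜ := connectedComponentIn_subset _ _
  have hvW : v ∈ W := mem_connectedComponentIn hvU
  set F : Set E2 := T ⁻¹' Vert A with hF
  have hFf : F.Finite := (finite_vert hA).preimage T.injective.injOn
  set G : Set (Set E3) := {d | Hid' A Pl k d ∧ Relation.ReflTransGen (Adj' A Pl k) c d} with hG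
  have hGf : G.Finite := (finite_cells hA S).subset fun d hd => hd.1.1
  set X : Set E2 := ⋃ d ∈ G, T ⁻¹' closure d with hX
  have hXc : IsClosed X := by
    apply hGf.isClosed_biUnion
    intro d _
    exact isClosed_closure.preimage T.continuous
  have hXK : X ⊆ Pl.K k := by
    intro w hw
    obtain ⟨d, hd, hwd⟩ := mem_iUnion₂.1 hw
    obtain ⟨w', hw', he⟩ := closure_subset_K hd.1.2.1 hwd
    rwa [T.injective he] at hw'
  -- `X` is open in `W \ F`
  have hloc : ∀ w ∈ W \ F, w ∈ X → w ∈ interior X := by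
    rintro w ⟨hwW, hwF⟩ hwX
    rw [mem_interior_iff_mem_nhds]
    obtain ⟨d, hd, hwd⟩ := mem_iUnion₂.1 hwX
    have hwd' : T w ∈ closure d := hwd
    by_cases hp : T w ∈ d
    · obtain ⟨w', hw', hgen', hdc⟩ := hd.1.1.rep hp (h.pT k) (mem_range_self w)
      obtain rfl := T.injective hw'
      filter_upwards [(hgen'.isOpen hA).mem_nhds (mem_OO_self A T w')] with y hy
      refine mem_iUnion₂.2 ⟨d, hd, subset_closure ?_⟩
      rw [hdc]
      exact hy
    · have hedge : EdgePt A d (T w) := ⟨hwd', hp, hwF⟩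
      have hint : w ∈ interior (Pl.K k) := by
        obtain ⟨w', hw', he⟩ := hno d hd.1 hd.2 _ hedge
        rwa [T.injective he] at hw'
      have h1 : ∀ᶠ y in 𝓝 w, ∀ e ∈ {e | IsCl A S e}, T y ∈ closure e → T w ∈ closure e := by
        rw [Filter.eventually_all_finite (finite_cells hA S)]
        intro e _
        by_cases he : T w ∈ closure e
        · exact Filter.Eventually.of_forall fun _ _ => he
        · filter_upwards [T.continuous.continuousAt.eventually
            (isClosed_closure.isOpen_compl.mem_nhds he)] with y hy hy'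
          exact absurd hy' hy
      filter_upwards [h1, isOpen_interior.mem_nhds hint] with y hy hyK
      obtain ⟨e, he, heK, hye⟩ := h.mem_cover_K (mem_image_of_mem T (interior_subset hyK))
      have hwe := hy e he hye
      have heH : Hid' A Pl k e := by
        refine ⟨he, heK, ?_⟩
        rw [Set.disjoint_left]
        intro z hz hzU
        have h2 : e ⊆ T '' Pl.U k := he.subset_of_mem (h.mU k) hz hzU
        have h3 : T w ∈ T '' closure (Pl.U k) := by
          rw [← T.isometry.isClosedEmbedding.closure_image_eq]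
          exact closure_mono h2 hwe
        obtain ⟨w', hw', he'⟩ := h3
        rw [T.injective he'] at hw'
        exact hWU hwW hw'
      refine mem_iUnion₂.2 ⟨e, ?_, hye⟩
      by_cases hed : d = e
      · rw [← hed]
        exact hd
      · exact ⟨heH, hd.2.tail ⟨hd.1, heH, hed, T w, hedge,
          h.edgePt he hd.1.1 (Ne.symm hed) hwe hwd' hwF⟩⟩
  have hvX : v ∈ X := by
    refine mem_iUnion₂.2 ⟨c, ⟨hc, Relation.ReflTransGen.refl⟩, subset_closure hx⟩
  have hvF : v ∉ F := hc.1.not_vert hA hx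
  have h2 : W \ F ⊆ X := by
    intro w hw
    by_contra hwX
    obtain ⟨z, hz, hz2, hz3⟩ := preconnected_open_diff hWo hWp hFf (interior X) Xᶜ isOpen_interior
      hXc.isOpen_compl (by
        intro y hy
        by_cases hyX : y ∈ X
        · exact Or.inl (hloc y hy hyX)
        · exact Or.inr hyX) ⟨v, ⟨hvW, hvF⟩, hloc v ⟨hvW, hvF⟩ hvX⟩ ⟨w, hw, hwX⟩
    exact hz3 (interior_subset hz2)
  have h3 : W ⊆ X := by
    intro w hw
    rw [← hXc.closure_eq, _root_.mem_closure_iff]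
    intro V hV hwV
    obtain ⟨y, ⟨hy1, hy2⟩, hy3⟩ := (hFf.countable.dense_compl ℝ).inter_open_nonempty _
      (hV.inter hWo) ⟨w, hwV, hw⟩
    exact ⟨y, hy1, h2 ⟨hy2, hy3⟩⟩
  exact Pl.noisland k v hvU (interior_maximal (h3.trans hXK) hWo)

theorem total (h : Arrg Pl A) {c : Set E3} (hc : IsCl A S c) {k k' : Fin m}
    (hk : c ⊆ Pl.T k '' Pl.K k) (hk' : c ⊆ Pl.T k' '' Pl.K k') (hne : k ≠ k') :
    Pl.low k k' ∨ Pl.low k' k := by
  apply Pl.total k k' hne
  obtain ⟨x, hx⟩ := hc.nonempty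
  exact ⟨x, h.cell_subset_int hc hk hx, h.cell_subset_int hc hk' hx⟩

theorem trans (h : Arrg Pl A) {c : Set E3} (hc : IsCl A S c) {k k' k'' : Fin m}
    (hk : c ⊆ Pl.T k '' Pl.K k) (hk' : c ⊆ Pl.T k' '' Pl.K k') (hk'' : c ⊆ Pl.T k'' '' Pl.K k'')
    (h1 : Pl.low k k') (h2 : Pl.low k' k'') : Pl.low k k'' := by
  apply Pl.trans k k' k'' _ h1 h2
  obtain ⟨x, hx⟩ := hc.nonempty
  exact ⟨x, ⟨h.cell_subset_int hc hk hx, h.cell_subset_int hc hk' hx⟩,
    h.cell_subset_int hc hk'' hx⟩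

end Arrg

end Pool.Agent.SeamS
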