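import Pool.Agent.SeamS.Complex

/-!
# All gaps are connected (module D3)

A node is a pair `(i, k)` with `mem i k`: the gap directly below the plate `k` over the cell `i`.

Proof of `graph_connected`. All relations used are symmetric (`Adj`, `MoveAt`), so reachability is symmetric.
(alpha) `mem i k`, `mem j k`, `Adj i j`: the node `(i, k)` moves to `(j, k)` at each of the infinitely many common edge points `s ∉ V`: if `s ∈ CI q` then `mem i q` and `mem j q`
(`mem_of_CI`, `bcell ⊆ ccell`), so `Abv i k q ↔ (q = k ∨ low k q) ↔ Abv j k q`. With `conn_plate`: all nodes `(i, k)` with the same `k` are connected.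
(beta) Let `(i, k)` be a node and suppose that there is `l` with `mem i l`, `low l k`. Take the highest such `l` (finite linear order on the plates containing `i`): every `q` with `mem i q` and `low l q` satisfies `q = k ∨ low k q`.
 Claim: `(i, k)` is connected to `(i, l)`. `top i ≠ l` (since `low l k` and otherwise `k = top i` or `low k (top i)`). By `hidden` for `l` there is a chain `i = i₀, ..., i_r` of cells where `l` is hidden, with
 `Adj i_t i_{t+1}`, and a rim at `i_r`. For every cell `a` where `l` is hidden let `k_a` be the lowest plate above `l` at `a` (exists because `low l (top a)`): for `mem a q`: `low l q ↔ (q = k_a ∨ low k_a q)`. So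
 `Abv a k_a q ↔ mem a q ∧ low l q`. For `i` we may take `k_i = k` (it has the same property). Moves `(a, k_a) → (b, k_b)` at common edge points `s`: if `s ∈ CI q` then `mem a q, mem b q`, both sides are `low l q`. At the rim of `i_r`, `s ∉ CI l`: move
 `(i_r, k_{i_r}) → (i_r, l)`: if `s ∈ CI q` then `q ≠ l`, `Abv i_r l q ↔ mem ∧ (q = l ∨ low l q) ↔ mem ∧ low l q`. Then (alpha) from `(i_r, l)` to `(i, l)`.
 By induction on the number of plates below `k` at `i`, every node `(i, k)` is connected to `(i, b_i)` with `b_i` the lowest plate at `i`.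
(gamma) `Adj i j`: `(i, b_i)` moves to `(j, b_j)`: `Abv i b_i q ↔ mem i q`. With `conn` all nodes are connected.
-/

namespace Pool.Agent.SeamS

open Set Filter Topology Metric Pool.Agent.Hhelper79.Seam

/-- a move between nodes, possible at infinitely many edge points -/
def CData.Move (c : CData) (a b : Fin c.N × Fin c.m) : Prop :=
  c.mem a.1 a.2 ∧ c.mem b.1 b.2 ∧ {s | c.MoveAt a.1 a.2 b.1 b.2 s}.Infinite

theorem CData.Move.symm' {c : CData} {a b : Fin c.N × Fin c.m} (h : c.Move a b) : c.Move b a := by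
  refine ⟨h.2.1, h.1, h.2.2.mono ?_⟩
  rintro s ⟨h1, h2, h3, h4⟩
  exact ⟨h1, h3, h2, fun q hq => (h4 q hq).symm⟩

theorem gr_rtg_symm {c : CData} {a b : Fin c.N × Fin c.m} (h : Relation.ReflTransGen c.Move a b) :
    Relation.ReflTransGen c.Move b a := by
  induction h with
  | refl => exact .refl
  | tail _ h2 ih => exact Relation.ReflTransGen.head h2.symm' ih

theorem gr_bcell_sub {c : CData} {i : Fin c.N} {s : E3} (h : s ∈ c.bcell i) : s ∈ c.ccell i := by
  obtain ⟨y, hy, rfl⟩ := h
  exact ⟨y, hy.1, rfl⟩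

/-- a move across a common edge -/
theorem gr_move_adj {S : Set E3} {c : CData} (hc : IsComplex S c) {i j : Fin c.N} {k l : Fin c.m}
    (hi : c.mem i k) (hj : c.mem j l) (hij : c.Adj i j)
    (h : ∀ q, c.mem i q → c.mem j q → ((q = k ∨ c.low k q) ↔ (q = l ∨ c.low l q))) :
    c.Move (i, k) (j, l) := by
  refine ⟨hi, hj, hij.2.mono ?_⟩
  rintro s ⟨h1, h2, h3⟩
  refine ⟨h1, h2, h3, fun q hq => ?_⟩
  have hiq := hc.mem_of_CI i q s (gr_bcell_sub h2) hq
  have hjq := hc.mem_of_CI j q s (gr_bcell_sub h3) hq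
  constructor
  · rintro ⟨_, h4⟩
    exact ⟨hjq, (h q hiq hjq).1 h4⟩
  · rintro ⟨_, h4⟩
    exact ⟨hiq, (h q hiq hjq).2 h4⟩

/-- (alpha) -/
theorem gr_plate_conn {S : Set E3} {c : CData} (hc : IsComplex S c) {i j : Fin c.N} {k : Fin c.m}
    (hi : c.mem i k) (hj : c.mem j k) : Relation.ReflTransGen c.Move (i, k) (j, k) := by
  have h := hc.conn_plate k i j hi hj
  clear hj
  induction h with
  | refl => exact .refl
  | tail _ h2 ih =>
    exact ih.tail (gr_move_adj hc h2.2.1 h2.2.2 h2.1 (fun q _ _ => Iff.rfl))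

theorem gr_low_irrefl {S : Set E3} {c : CData} (hc : IsComplex S c) (k : Fin c.m) : ¬ c.low k k :=
  fun h => hc.asymm k k h h

/-- existence of a lowest element -/
theorem gr_exists_low {S : Set E3} {c : CData} (hc : IsComplex S c) (i : Fin c.N)
    (P : Fin c.m → Prop) (hP : ∃ q, c.mem i q ∧ P q) :
    ∃ k, c.mem i k ∧ P k ∧ ∀ q, c.mem i q → P q → q = k ∨ c.low k q := by
  let r : {q // c.mem i q} → {q // c.mem i q} → Prop := fun x y => c.low x.1 y.1
  have : IsTrans _ r := ⟨fun x y z h1 h2 => hc.trans i x.1 y.1 z.1 x.2 y.2 z.2 h1 h2⟩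
  have : Std.Irrefl r := ⟨fun x => gr_low_irrefl hc x.1⟩
  have hwf : WellFounded r := Finite.wellFounded_of_trans_of_irrefl r
  obtain ⟨q0, hq0, hPq0⟩ := hP
  obtain ⟨k, hk, hmin⟩ := hwf.has_min {x | P x.1} ⟨⟨q0, hq0⟩, hPq0⟩
  refine ⟨k.1, k.2, hk, fun q hq hPq => ?_⟩
  by_cases hqk : q = k.1
  · exact Or.inl hqk
  · right
    rcases hc.total i q k.1 hq k.2 hqk with h | h
    · exact absurd h (hmin ⟨q, hq⟩ hPq)
    · exact h

/-- `k` is the lowest plate above `l` at `a` -/
def GrSucc (c : CData) (a : Fin c.N) (l k : Fin c.m) : Prop :=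
  c.mem a k ∧ c.low l k ∧ ∀ q, c.mem a q → c.low l q → q = k ∨ c.low k q

theorem gr_exists_succ {S : Set E3} {c : CData} (hc : IsComplex S c) {a : Fin c.N} {l : Fin c.m}
    (hl : c.mem a l) (ht : c.top a ≠ l) : ∃ k, GrSucc c a l k := by
  obtain ⟨k, h1, h2, h3⟩ := gr_exists_low hc a (fun q => c.low l q)
    ⟨c.top a, hc.top_mem a, hc.top_top a l hl (Ne.symm ht)⟩
  exact ⟨k, h1, h2, h3⟩

theorem gr_succ_unique {S : Set E3} {c : CData} (hc : IsComplex S c) {a : Fin c.N} {l k k' : Fin c.m}
    (h : GrSucc c a l k) (h' : GrSucc c a l k') : k' = k := by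
  rcases h.2.2 k' h'.1 h'.2.1 with h1 | h1
  · exact h1
  · rcases h'.2.2 k h.1 h.2.1 with h2 | h2
    · exact h2.symm
    · exact absurd h2 (hc.asymm _ _ h1)

theorem gr_succ_iff {S : Set E3} {c : CData} (hc : IsComplex S c) {a : Fin c.N} {l k : Fin c.m}
    (hl : c.mem a l) (h : GrSucc c a l k) {q : Fin c.m} (hq : c.mem a q) :
    (q = k ∨ c.low k q) ↔ c.low l q := by
  constructor
  · rintro (rfl | h1)
    · exact h.2.1
    · exact hc.trans a l k q hl h.1 hq h.2.1 h1
  · exact h.2.2 q hq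

/-- (beta) -/
theorem gr_succ_conn {S : Set E3} {c : CData} (hc : IsComplex S c) {i : Fin c.N} {l k : Fin c.m}
    (hl : c.mem i l) (hk : GrSucc c i l k) : Relation.ReflTransGen c.Move (i, k) (i, l) := by
  have ht : c.top i ≠ l := by
    intro h
    by_cases hkl : k = c.top i
    · rw [hkl, h] at hk
      exact gr_low_irrefl hc _ hk.2.1
    · have := hc.top_top i k hk.1 hkl
      rw [h] at this
      exact hc.asymm _ _ hk.2.1 this
  obtain ⟨r, hr, hrt, hchain, hrim⟩ := hc.hidden l i hl ht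
  have key : ∀ kr, GrSucc c r l kr → Relation.ReflTransGen c.Move (i, k) (r, kr) := by
    clear hrim hr hrt
    induction hchain with
    | refl =>
      intro kr hkr
      rw [gr_succ_unique hc hk hkr]
    | tail _ h2 ih =>
      rename_i a b _
      intro kb hkb
      obtain ⟨hadj, ⟨ha, hta⟩, ⟨hb, htb⟩⟩ := h2
      obtain ⟨ka, hka⟩ := gr_exists_succ hc ha hta
      refine (ih ka hka).tail (gr_move_adj hc hka.1 hkb.1 hadj (fun q hqa hqb => ?_))
      rw [gr_succ_iff hc ha hka hqa, gr_succ_iff hc hb hkb hqb]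
  obtain ⟨kr, hkr⟩ := gr_exists_succ hc hr hrt
  refine ((key kr hkr).tail ?_).trans (gr_plate_conn hc hr hl)
  refine ⟨hkr.1, hr, hrim.mono ?_⟩
  rintro s ⟨h1, h2, h3⟩
  refine ⟨h1, h2, h2, fun q hq => ?_⟩
  have hql : q ≠ l := by
    rintro rfl
    exact h3 hq
  have hrq := hc.mem_of_CI r q s (gr_bcell_sub h2) hq
  constructor
  · rintro ⟨_, h4⟩
    exact ⟨hrq, Or.inr ((gr_succ_iff hc hr hkr hrq).1 h4)⟩
  · rintro ⟨_, h4⟩
    exact ⟨hrq, (gr_succ_iff hc hr hkr hrq).2 (h4.resolve_left hql)⟩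

/-- every node is connected to the top node of its cell -/
theorem gr_top_conn {S : Set E3} {c : CData} (hc : IsComplex S c) (i : Fin c.N) :
    ∀ k, c.mem i k → Relation.ReflTransGen c.Move (i, k) (i, c.top i) := by
  let r : {q // c.mem i q} → {q // c.mem i q} → Prop := fun x y => c.low y.1 x.1
  have : IsTrans _ r := ⟨fun x y z h1 h2 => hc.trans i z.1 y.1 x.1 z.2 y.2 x.2 h2 h1⟩
  have : Std.Irrefl r := ⟨fun x => gr_low_irrefl hc x.1⟩
  have hwf : WellFounded r := Finite.wellFounded_of_trans_of_irrefl r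
  have key : ∀ x : {q // c.mem i q}, Relation.ReflTransGen c.Move (i, x.1) (i, c.top i) := by
    intro x
    induction x using hwf.induction with
    | _ x ih =>
      by_cases hx : c.top i = x.1
      · rw [hx]
      · obtain ⟨k, hk⟩ := gr_exists_succ hc x.2 hx
        exact (gr_rtg_symm (gr_succ_conn hc x.2 hk)).trans (ih ⟨k, hk.1⟩ hk.2.1)
  exact fun k hk => key ⟨k, hk⟩

theorem graph_connected {S : Set E3} {c : CData} (hc : IsComplex S c)
    {a b : Fin c.N × Fin c.m} (ha : c.mem a.1 a.2) (hb : c.mem b.1 b.2) :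
    Relation.ReflTransGen c.Move a b := by
  obtain ⟨i, k⟩ := a
  obtain ⟨j, l⟩ := b
  have key : Relation.ReflTransGen c.Move (i, c.top i) (j, c.top j) := by
    have h := hc.conn i j
    clear ha hb
    induction h with
    | refl => exact .refl
    | tail _ h2 ih =>
      rename_i p q _
      obtain ⟨kp, hp1, _, hp3⟩ := gr_exists_low hc p (fun _ => True) ⟨c.top p, hc.top_mem p, trivial⟩
      obtain ⟨kq, hq1, _, hq3⟩ := gr_exists_low hc q (fun _ => True) ⟨c.top q, hc.top_mem q, trivial⟩
      refine (ih.trans (gr_rtg_symm (gr_top_conn hc p kp hp1))).trans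
        (Relation.ReflTransGen.head ?_ (gr_top_conn hc q kq hq1))
      exact gr_move_adj hc hp1 hq1 h2 (fun x hx1 hx2 =>
        ⟨fun _ => hq3 x hx2 trivial, fun _ => hp3 x hx1 trivial⟩)
  exact ((gr_top_conn hc i k ha).trans key).trans (gr_rtg_symm (gr_top_conn hc j l hb))

end Pool.Agent.SeamS
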