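import Pool.Agent.SeamS.Final
import Pool.Agent.SeamS.Cells
import Pool.Agent.Hhelper79.Seam.Generic

/-!
# A stacking gives a folding with the prescribed seams (module F2)

Let `c, rep, U` be given by `exists_complex`, `a` by `exists_asm`, `v` by `exists_shift`, `up` by `exists_comp`; `f z = a.f (a.F z)`. The folding `F₀ : Folding P S`: `P = a.P` is a rectangle (`isPoly_rect`, interior nonempty by `ab`, `Wpos`), the fields are those of `FoldOn` (`RegAt P f x` and `Reg P f x` are the same by definition), `pieces` from `Pieced`, `image` from `exists_comp`.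
For `k < m` write `T = c.T (pk k)`, `U' k = U (pk k) ⊆ OHull (pk k)`, `th k u` as in `Final`.
(a) For `u ∈ U' k`: `FlatAt P f g (th k u)` with `g z = T (z + v k - ctr k)` (`th_flat`), `f (th k u) = T u ∈ vis (rep (pk k))`. The layer at `th k u` is above all other regular points with the same image (`exists_comp`; the cells containing `T u` have `top i = pk k` by the last statement of `exists_complex`); and `TopAt (th k u)` since all points near `th k u` are of the form `th k u'`, `u' ∈ U' k` (open).
(b) `s ∈ S \ D` is not a seam: `same (rep q) s` for some `q = pk k`, so `s ∈ vis (rep q) = T '' U q`, `s = T u = f (th k u)`.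
(c) Let `x, g` with `FlatAt P f g x`, `TopAt x`, and `f x ∉ D` (`f x ∈ S` by `image`). Then `x = th k u` for some `k < m`, `u ∈ U' k`: `f x = T u` as in (b); `x` and `th k u` are both regular (`FlatAt` gives `RegAt`: `g` is injective) and both are above all other regular points over `f x`: if they were different, contradiction to `asymm`.
(d) Let `x, g` with `FlatAt P f g x`, `TopAt x`. Then `f x ∉ D`: suppose `f x ∈ D`. There is an open neighbourhood `N` of `x` such that every `x' ∈ N` satisfies `FlatAt P f g x'` and `TopAt x'` (`eventually_eventually_nhds`). `{x' ∈ N | g x' ∉ D}` is dense in `N`: `g ⁻¹' D` is a closed set with empty interior (a finite union of subsets of segments; an isometric image of a ball is not contained in finitely many segments: see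
 `Hhelper79.Seam.Generic` for a lemma, or Baire / `exists_interior` of a finite union of closed sets). By (c) these points are in `⋃_k th k '' U' k`. So `N ⊆ ⋃_k th k '' closure (U' k)` (finitely many closed sets), `closure (U' k) ⊆ Hull`. By `th_sep` these closed sets are disjoint, so there is one `k` and a smaller neighbourhood `N'` of `x` with `N' ⊆ th k '' closure (U' k)`, hence
 `x ∈ th k '' interior (closure (U' k)) = th k '' U' k` (`th k` is a translation), so `f x = T u ∈ vis`, `f x ∉ D`. Contradiction.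
So `seams = D`: if `s ∈ D` then `s ∈ S` and it is a seam by (d); if `s ∉ D` is a seam then `s ∈ S`, contradiction to (b).
Last statement: for `x, g` flat and top, by (d) and (c) `x = th k u`, `u ∈ U' k`; take `s = rep (pk k)`, `T`, `C = OHull (pk k)` (open, convex as an intersection of finitely many open half planes), `T '' C = CI ⊆ CC ⊆ S`; `rep (pk k) ∈ vis (rep (pk k)) = T '' U' k` (by `IsStacking.refl`) is in `T '' C`. `g` and `z ↦ T (z + v k - ctr k)` agree near `x` (`FlatAt`, `th_flat`), so everywhere (affine maps which agree on a nonempty open set).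
-/

namespace Pool.Agent.SeamS

open Set Filter Topology Metric Pool.Agent.Hhelper79.Seam

/-- a translate of a plate chart -/
noncomputable def shiftIso (T : E2 →ᵃⁱ[ℝ] E3) (w : E2) : E2 →ᵃⁱ[ℝ] E3 :=
  T.comp (AffineIsometryEquiv.constVAdd ℝ E2 w).toAffineIsometry

theorem shiftIso_apply (T : E2 →ᵃⁱ[ℝ] E3) (w z : E2) : shiftIso T w z = T (w + z) := rfl

theorem exists_folding {S D : Set E3} (hS : IsPolySurface S) (hT : IsTarget S)
    (hD : ∃ T : Finset (Set E3), (∀ t ∈ T, ∃ a b : E3, t = segment ℝ a b) ∧ D = ⋃ t ∈ T, t)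
    (hDS : D ⊆ S) {same low : E3 → E3 → Prop} (hst : IsStacking S D same low)
    (Q : E3 → (E2 →ᵃⁱ[ℝ] E3) → Prop)
    (hQ : ∀ s ∈ S \ D, ∀ (g : E2 →ᵃⁱ[ℝ] E3) (U : Set E2), IsOpen U → U.Nonempty →
      vis S D same s = g '' U → ∃ φ : E2 ≃ᵃⁱ[ℝ] E2, Q s (g.comp φ.toAffineIsometry)) :
    ∃ (P : Set E2) (F : Folding P S), F.seams = D ∧
      ∀ (x : E2) (g : E2 →ᵃⁱ[ℝ] E3), FlatAt P F.f g x → F.TopAt x →
        F.f x ∉ D ∧ ∃ (s : E3) (T : E2 →ᵃⁱ[ℝ] E3) (v : E2) (C : Set E2), s ∈ S \ D ∧ Q s T ∧
          (∀ z, g z = T (z - v)) ∧ same s (F.f x) ∧ IsOpen C ∧ Convex ℝ C ∧ T '' C ⊆ S ∧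
          s ∈ T '' C ∧ F.f x ∈ T '' C := by
  classical
  obtain ⟨c, rep, U, hc, hrep, hQrep, hsame, hvis, htop⟩ :=
    exists_complex hS hT hD hDS hst Q hQ
  obtain ⟨a, ha⟩ := exists_asm hc
  obtain ⟨v, hv⟩ := AData.exists_shift ha
  obtain ⟨up, hup, himg, hupt⟩ := AData.exists_comp ha
  -- the folding
  have hpaper : IsPoly a.P ∧ (interior a.P).Nonempty := by
    refine ⟨isPoly_rect a.a₀ a.b₀ 0 a.W, ?_⟩
    have hab := ha.ab
    have hW := ha.Wpos
    refine ⟨pt ((a.a₀ + a.b₀) / 2) (a.W / 2), ?_⟩
    have hop : IsOpen {z : E2 | z 0 ∈ Ioo a.a₀ a.b₀ ∧ z 1 ∈ Ioo 0 a.W} := by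
      have h0 : Continuous fun z : E2 => z 0 := by fun_prop
      have h1 : Continuous fun z : E2 => z 1 := by fun_prop
      exact (isOpen_Ioo.preimage h0).inter (isOpen_Ioo.preimage h1)
    refine interior_maximal ?_ hop ?_
    · intro z hz
      exact ⟨Ioo_subset_Icc_self hz.1, Ioo_subset_Icc_self hz.2⟩
    · refine ⟨?_, ?_⟩
      · simp only [pt]
        refine ⟨?_, ?_⟩
        · show a.a₀ < (a.a₀ + a.b₀) / 2
          linarith
        · show (a.a₀ + a.b₀) / 2 < a.b₀
          linarith
      · refine ⟨?_, ?_⟩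
        · show 0 < a.W / 2
          linarith
        · show a.W / 2 < a.W
          linarith
  obtain ⟨T0, hT0, hT0p, hT0P, hT0g⟩ := hup.pieces
  let F : Folding a.P S :=
    { f := fun z => a.f (a.F z)
      up := up
      paper := hpaper
      pieces := ⟨hT0.toFinset, fun t ht => (hT0p t (hT0.mem_toFinset.1 ht)).1, by
        rw [hT0P, sUnion_eq_biUnion]
        simp, fun t ht => hT0g t (hT0.mem_toFinset.1 ht)⟩
      image := himg
      asymm := hup.asymm
      total := hup.total
      trans := hup.trans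
      tortilla := hup.tortilla
      taco := hup.taco }
  have hFf : ∀ z, F.f z = a.f (a.F z) := fun z => rfl
  -- the placed plates
  have hUop : ∀ k, IsOpen (U k) := fun k => (hvis k).2.1
  have hUO : ∀ k, U k ⊆ c.OHull k := fun k => (hvis k).2.2.2
  have hOH : ∀ k, c.OHull k ⊆ Hull (c.Λ k) := fun k y hy l hl => (hy l hl).le
  have hthf : ∀ k < c.m, ∀ u ∈ c.OHull (a.pk k), F.f (a.th v k u) = c.T (a.pk k) u := by
    intro k hk u hu
    have h1 := (AData.th_flat ha hv hk hu).self_of_nhds.2
    rw [hFf, h1]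
    congr 1
    simp only [AData.th]
    abel
  have hflat : ∀ k < c.m, ∀ u ∈ c.OHull (a.pk k),
      FlatAt a.P F.f (shiftIso (c.T (a.pk k)) (v k - a.ctr k)) (a.th v k u) := by
    intro k hk u hu
    filter_upwards [AData.th_flat ha hv hk hu] with z hz
    refine ⟨hz.1, ?_⟩
    rw [hFf, hz.2, shiftIso_apply]
    congr 1
    abel
  have habove : ∀ k < c.m, ∀ u ∈ U (a.pk k), ∀ y, RegAt a.P F.f y → y ≠ a.th v k u →
      F.f y = F.f (a.th v k u) → F.up (a.th v k u) y := by
    intro k hk u hu y hy hne hfy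
    refine hupt v hv k hk u (hUO _ hu) ?_ y hy hne hfy
    intro i hi
    refine htop (a.pk k) _ ?_ i hi
    rw [(hvis (a.pk k)).1]
    exact mem_image_of_mem _ hu
  have htopat : ∀ k < c.m, ∀ u ∈ U (a.pk k), F.TopAt (a.th v k u) := by
    intro k hk u hu
    have hcont : Continuous fun z : E2 => z - a.ctr k + v k := by fun_prop
    have hin : (a.th v k u) - a.ctr k + v k = u := by
      simp only [AData.th]
      abel
    have hev : ∀ᶠ z in 𝓝 (a.th v k u), z - a.ctr k + v k ∈ U (a.pk k) := by
      apply hcont.continuousAt.eventually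
      show ∀ᶠ y in 𝓝 (a.th v k u - a.ctr k + v k), y ∈ U (a.pk k)
      rw [hin]
      exact (hUop _).mem_nhds hu
    filter_upwards [hev] with z hz
    have hzth : a.th v k (z - a.ctr k + v k) = z := by
      simp only [AData.th]
      abel
    have := habove k hk _ hz
    rw [hzth] at this
    exact this
  -- points of `S \ D`
  have hlift : ∀ s ∈ S \ D, ∃ k < c.m, ∃ u ∈ U (a.pk k), s = c.T (a.pk k) u := by
    intro s hs
    obtain ⟨q, hq⟩ := hsame s hs
    obtain ⟨k, hk, rfl⟩ := ha.pk_surj q
    have h1 : s ∈ vis S D same (rep (a.pk k)) := ⟨hs.1, hs.2, hq⟩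
    rw [(hvis (a.pk k)).1] at h1
    obtain ⟨u, hu, rfl⟩ := h1
    exact ⟨k, hk, u, hu, rfl⟩
  have hTU : ∀ k, ∀ u ∈ U (a.pk k), c.T (a.pk k) u ∈ vis S D same (rep (a.pk k)) := by
    intro k u hu
    rw [(hvis (a.pk k)).1]
    exact mem_image_of_mem _ hu
  -- (c)
  have hC : ∀ (x : E2) (g : E2 →ᵃⁱ[ℝ] E3), FlatAt a.P F.f g x → F.TopAt x → F.f x ∉ D →
      ∃ k < c.m, ∃ u ∈ U (a.pk k), x = a.th v k u := by
    intro x g hx hxt hxD
    have hxS : F.f x ∈ S := by
      have h0 : F.f x ∈ F.f '' a.P := mem_image_of_mem _ hx.mem.1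
      have h1 : F.f '' a.P = S := F.image
      rw [Set.ext_iff] at h1
      exact (h1 _).1 h0
    obtain ⟨k, hk, u, hu, hxu⟩ := hlift _ ⟨hxS, hxD⟩
    refine ⟨k, hk, u, hu, ?_⟩
    by_contra hne
    have hfeq : F.f x = F.f (a.th v k u) := by
      rw [hthf k hk u (hUO _ hu), hxu]
    have hreg := (hflat k hk u (hUO _ hu)).regAt
    have h1 : F.up (a.th v k u) x := habove k hk u hu x hx.regAt hne hfeq
    have h2 : F.up x (a.th v k u) := hxt.self_of_nhds _ hreg (Ne.symm hne) hfeq.symm
    exact F.asymm _ _ hx.regAt hreg hfeq h2 h1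
  obtain ⟨TD, hTD, hDT⟩ := hD
  -- (d)
  have hmain : ∀ (x : E2) (g : E2 →ᵃⁱ[ℝ] E3), FlatAt a.P F.f g x → F.TopAt x →
      ∃ k < c.m, ∃ u ∈ U (a.pk k), x = a.th v k u := by
    intro x g hx hxt
    have hev : ∀ᶠ x' in 𝓝 x, FlatAt a.P F.f g x' ∧ F.TopAt x' :=
      hx.eventually.and (eventually_eventually_nhds.mpr hxt)
    obtain ⟨N, hN, hNop, hxN⟩ := _root_.eventually_nhds_iff.1 hev
    let K : ℕ → Set E2 := fun k => a.th v k '' closure (U (a.pk k))
    have hth : ∀ k, Continuous (a.th v k) := by
      intro k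
      show Continuous fun u : E2 => u + a.ctr k - v k
      fun_prop
    have hKeq : ∀ k, K k = (fun z : E2 => z - a.ctr k + v k) ⁻¹' closure (U (a.pk k)) := by
      intro k
      ext z
      constructor
      · rintro ⟨u, hu, rfl⟩
        show a.th v k u - a.ctr k + v k ∈ closure (U (a.pk k))
        have : a.th v k u - a.ctr k + v k = u := by
          simp only [AData.th]
          abel
        rw [this]
        exact hu
      · intro hz
        refine ⟨z - a.ctr k + v k, hz, ?_⟩
        simp only [AData.th]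
        abel
    have hcon : ∀ k, Continuous fun z : E2 => z - a.ctr k + v k := fun k => by fun_prop
    have hKcl : ∀ k, IsClosed (K k) := by
      intro k
      rw [hKeq]
      exact isClosed_closure.preimage (hcon k)
    have hclH : ∀ k, closure (U (a.pk k)) ⊆ Hull (c.Λ (a.pk k)) := by
      intro k
      refine closure_minimal ((hUO _).trans (hOH _)) ?_
      have h1 : Hull (c.Λ (a.pk k)) = ⋂ l ∈ c.Λ (a.pk k), {y : E2 | l.2 ≤ inner ℝ l.1 y} := by
        ext y
        simp [Hull]
      rw [h1]
      refine isClosed_biInter fun l _ => ?_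
      exact isClosed_le continuous_const (by fun_prop)
    have hNK : N ⊆ ⋃ k ∈ Finset.range c.m, K k := by
      intro x' hx'
      by_contra hx'K
      have hclosed : IsClosed (⋃ k ∈ Finset.range c.m, K k) :=
        isClosed_biUnion_finset fun k _ => hKcl k
      have hG : IsOpen (N \ ⋃ k ∈ Finset.range c.m, K k) := hNop.sdiff hclosed
      obtain ⟨y, hy, hyT⟩ := exists_outside hG ⟨x', hx', hx'K⟩ (TD.image fun t => g ⁻¹' t)
        (by
          intro t ht
          obtain ⟨t', ht', rfl⟩ := Finset.mem_image.1 ht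
          obtain ⟨p, q, rfl⟩ := hTD t' ht'
          have h0 : IsClosed (segment ℝ p q) := by
            rw [← convexHull_pair]
            exact ((Set.toFinite {p, q}).isCompact_convexHull ℝ).isClosed
          exact h0.preimage g.continuous)
        (by
          intro t ht
          obtain ⟨t', ht', rfl⟩ := Finset.mem_image.1 ht
          obtain ⟨p, q, rfl⟩ := hTD t' ht'
          exact ((lin_segment p q).preimage g).interior_eq)
      have hyN := hN y hy.1
      have hyD : F.f y ∉ D := by
        rw [hyN.1.mem.2, hDT]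
        intro hmem
        obtain ⟨t, ht, hyt⟩ := mem_iUnion₂.1 hmem
        exact hyT _ (Finset.mem_image_of_mem _ ht) hyt
      obtain ⟨k, hk, u, hu, rfl⟩ := hC y g hyN.1 hyN.2 hyD
      apply hy.2
      exact mem_iUnion₂.2 ⟨k, Finset.mem_range.2 hk, u, subset_closure hu, rfl⟩
    obtain ⟨k, hk, u, hu, hxu⟩ := mem_iUnion₂.1 (hNK hxN)
    have hk' := Finset.mem_range.1 hk
    refine ⟨k, hk', u, ?_, hxu.symm⟩
    -- the other closed sets do not contain `x`
    have hother : ∀ l ∈ Finset.range c.m, l ≠ k → x ∉ K l := by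
      rintro l hl hlk ⟨u', hu', hxu'⟩
      exact hlk (AData.th_sep ha hv hk' (Finset.mem_range.1 hl) (hclH _ hu) (hclH _ hu')
        (hxu.trans hxu'.symm)).symm
    have hev2 : ∀ᶠ z in 𝓝 x, ∀ l ∈ Finset.range c.m, l ≠ k → z ∉ K l := by
      rw [Filter.eventually_all_finset]
      intro l hl
      by_cases hlk : l = k
      · exact Eventually.of_forall fun z hz => absurd hlk hz
      · filter_upwards [(hKcl l).isOpen_compl.mem_nhds (hother l hl hlk)] with z hz _
        exact hz
    have hev3 : ∀ᶠ z in 𝓝 x, z - a.ctr k + v k ∈ closure (U (a.pk k)) := by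
      filter_upwards [hev2, hNop.mem_nhds hxN] with z hz hzN
      obtain ⟨l, hl, hzl⟩ := mem_iUnion₂.1 (hNK hzN)
      by_cases hlk : l = k
      · subst hlk
        rw [hKeq] at hzl
        exact hzl
      · exact absurd hzl (hz l hl hlk)
    have hxk : x = a.th v k u := hxu.symm
    have hint : u ∈ interior (closure (U (a.pk k))) := by
      rw [mem_interior_iff_mem_nhds]
      have hu1 : Tendsto (a.th v k) (𝓝 u) (𝓝 x) := by
        rw [hxk]
        exact (hth k).continuousAt
      filter_upwards [hu1.eventually hev3] with w hw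
      have : a.th v k w - a.ctr k + v k = w := by
        simp only [AData.th]
        abel
      rw [this] at hw
      exact hw
    rw [(hvis (a.pk k)).2.2.1] at hint
    exact hint
  refine ⟨a.P, F, ?_, ?_⟩
  · -- the seams
    ext s
    constructor
    · rintro ⟨hsS, hs⟩
      by_contra hsD
      apply hs
      obtain ⟨k, hk, u, hu, rfl⟩ := hlift s ⟨hsS, hsD⟩
      exact ⟨a.th v k u, _, hthf k hk u (hUO _ hu), hflat k hk u (hUO _ hu), htopat k hk u hu⟩
    · intro hs
      refine ⟨hDS hs, ?_⟩
      rintro ⟨x, g, rfl, hx, hxt⟩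
      obtain ⟨k, hk, u, hu, rfl⟩ := hmain x g hx hxt
      rw [hthf k hk u (hUO _ hu)] at hs
      exact (hTU k u hu).2.1 hs
  · intro x g hx hxt
    obtain ⟨k, hk, u, hu, rfl⟩ := hmain x g hx hxt
    have hfx := hthf k hk u (hUO _ hu)
    refine ⟨?_, rep (a.pk k), c.T (a.pk k), a.ctr k - v k, c.OHull (a.pk k), hrep _, hQrep _,
      ?_, ?_, ?_, ?_, ?_, ?_, ?_⟩
    · rw [hfx]
      exact (hTU k u hu).2.1
    · have h1 := hflat k hk u (hUO _ hu)
      obtain ⟨N, hN, hNop, hxN⟩ := _root_.eventually_nhds_iff.1 (Filter.Eventually.and hx h1)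
      have h2 : g = shiftIso (c.T (a.pk k)) (v k - a.ctr k) := by
        refine aff_ext hNop ⟨_, hxN⟩ fun z hz => ?_
        have h3 := hN z hz
        rw [← h3.1.2, ← h3.2.2]
      intro z
      rw [h2, shiftIso_apply]
      congr 1
      abel
    · rw [hfx]
      exact (hTU k u hu).2.2
    · have h1 : c.OHull (a.pk k) =
          ⋂ l ∈ c.Λ (a.pk k), {y : E2 | l.2 < inner ℝ l.1 y} := by
        ext y
        simp [CData.OHull]
      rw [h1]
      refine (hc.finΛ _).isOpen_biInter fun l _ => ?_
      exact isOpen_lt continuous_const (by fun_prop)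
    · intro y hy z hz α β hα hβ hαβ l hl
      have h1 := hy l hl
      have h2 := hz l hl
      rw [inner_add_right, inner_smul_right, inner_smul_right]
      rcases hα.eq_or_lt with h | h
      · subst h
        have : β = 1 := by linarith
        subst this
        simpa using h2
      · have h3 : l.2 = α * l.2 + β * l.2 := by
          rw [← add_mul, hαβ, one_mul]
        rw [h3]
        have h4 : α * l.2 < α * inner ℝ l.1 y := mul_lt_mul_of_pos_left h1 h
        have h5 : β * l.2 ≤ β * inner ℝ l.1 z := mul_le_mul_of_nonneg_left h2.le hβ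
        linarith
    · exact (image_mono (hOH _)).trans (hc.sub _)
    · have h1 : rep (a.pk k) ∈ vis S D same (rep (a.pk k)) :=
        ⟨(hrep _).1, (hrep _).2, hst.refl _ (hrep _)⟩
      rw [(hvis (a.pk k)).1] at h1
      exact image_mono (hUO _) h1
    · rw [hfx]
      exact mem_image_of_mem _ (hUO _ hu)

end Pool.Agent.SeamS
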