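import Pool.Agent.SeamS.Defs
import Pool.Agent.SeamS.Arr

/-!
# The plates of a stacking (module D2, MP_6cce73_lc)

From `IsStacking S D same low` on a polyhedral target `S` we get finitely many plates: placed convex
polygons, with their visible parts and their order.
-/

set_option autoImplicit false

namespace Pool.Agent.SeamS

open Set Filter Topology Metric Pool.Agent.Hhelper79.Seam

/-- a finite union of placed nondegenerate convex polygons -/
def Polyhedral (S : Set E3) : Prop :=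
  ∃ T : Set (Set E3), T.Finite ∧ (∀ t ∈ T, ∃ (C : Set E2) (g : E2 →ᵃⁱ[ℝ] E3), IsPoly2 C ∧
    t = g '' C) ∧ S = ⋃₀ T

/-- a set of the placed plane described by finitely many signs is measurable for a finite set of
functions on space -/
theorem exists_meas_coords (g : E2 →ᵃⁱ[ℝ] E3) {B : Set (E2 →ᵃ[ℝ] ℝ)} (hB : B.Finite) {X : Set E2}
    (hX : ∀ v w, (∀ b ∈ B, SignType.sign (b v) = SignType.sign (b w)) → v ∈ X → w ∈ X) :
    ∃ A : Set (E3 →ᵃ[ℝ] ℝ), A.Finite ∧ Plane A g ∧ Meas A (g '' X) := by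
  obtain ⟨n, hn⟩ := exists_plane g
  have hP : Plane (insert n ((fun b : E2 →ᵃ[ℝ] ℝ => b.comp (ret g)) '' B)) g :=
    ⟨n, mem_insert _ _, hn⟩
  refine ⟨insert n ((fun b : E2 →ᵃ[ℝ] ℝ => b.comp (ret g)) '' B), (hB.image _).insert _, hP, ?_⟩
  rintro _ y hxy ⟨v, hv, rfl⟩
  obtain ⟨w, rfl⟩ := hP.mem_range hxy (mem_range_self v)
  refine ⟨w, hX v w (fun b hb => ?_) hv, rfl⟩
  have h := hxy _ (mem_insert_of_mem _ (mem_image_of_mem _ hb))
  have e : ∀ u, (b.comp (ret g)) (g u) = b u := fun u => by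
    rw [AffineMap.comp_apply, ret_self]
  rw [e, e] at h
  exact h

theorem exists_meas_poly (g : E2 →ᵃⁱ[ℝ] E3) {C : Set E2} (hC : IsPoly2 C) :
    ∃ A : Set (E3 →ᵃ[ℝ] ℝ), A.Finite ∧ Plane A g ∧ Meas A (g '' C) := by
  obtain ⟨n, a, -, rfl⟩ := Pool.Agent.Hhelper79.SeamP.exists_HSet hC.1 hC.2
  refine exists_meas_coords g (B := range a) (Set.finite_range a) ?_
  intro v w h hv i
  have h1 := hv i
  have h2 := h (a i) (mem_range_self i)
  by_contra hneg
  push Not at hneg
  rw [sign_neg hneg, sign_eq_neg_one_iff] at h2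
  linarith

/-- the function `x ↦ ⟪v, x⟫ - c` on space -/
noncomputable def innAff (v : E3) (c : ℝ) : E3 →ᵃ[ℝ] ℝ :=
  ((innerₛₗ ℝ v : E3 →ₗ[ℝ] ℝ).toAffineMap) - AffineMap.const ℝ E3 c

theorem innAff_apply (v : E3) (c : ℝ) (x : E3) : innAff v c x = inner ℝ v x - c := rfl

theorem sign_nonneg_iff' {s t : ℝ} (h : SignType.sign s = SignType.sign t) (hs : 0 ≤ s) : 0 ≤ t := by
  by_contra hneg
  push Not at hneg
  rw [sign_neg hneg, sign_eq_neg_one_iff] at h
  linarith

theorem exists_meas_segment (p q : E3) :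
    ∃ A : Set (E3 →ᵃ[ℝ] ℝ), A.Finite ∧ Meas A (segment ℝ p q) := by
  -- distance from the line through the coordinates
  let d : E3 := q - p
  let cr : Fin 3 → Fin 3 → E3 →ᵃ[ℝ] ℝ := fun i j =>
    innAff (d j • EuclideanSpace.single i 1 - d i • EuclideanSpace.single j 1)
      (inner ℝ (d j • EuclideanSpace.single i 1 - d i • EuclideanSpace.single j (1 : ℝ)) p)
  have hcr : ∀ i j x, cr i j x = d j * (x i - p i) - d i * (x j - p j) := by
    intro i j x
    simp only [cr, innAff_apply]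
    rw [← inner_sub_right, inner_sub_left, inner_smul_left, inner_smul_left]
    simp [EuclideanSpace.inner_single_left]
  by_cases hpq : p = q
  · subst hpq
    rw [segment_same]
    refine ⟨range fun i : Fin 3 => innAff (EuclideanSpace.single i 1) (p i), Set.finite_range _, ?_⟩
    intro x y hxy hx
    rw [mem_singleton_iff] at hx ⊢
    ext i
    have h := hxy _ (mem_range_self i)
    simp only [innAff_apply, hx] at h
    rw [EuclideanSpace.inner_single_left, EuclideanSpace.inner_single_left] at h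
    simp only [map_one, one_mul, sub_self, sign_zero] at h
    have := sign_eq_zero_iff.1 h.symm
    linarith
  · have hd : d ≠ 0 := sub_ne_zero.2 (Ne.symm hpq)
    refine ⟨(range fun t : Fin 3 × Fin 3 => cr t.1 t.2) ∪
      {innAff d (inner ℝ d p), innAff (-d) (inner ℝ (-d) q)}, (Set.finite_range _).union (by simp),
      ?_⟩
    intro x y hxy hx
    rw [segment_eq_image_lineMap] at hx ⊢
    obtain ⟨t, ⟨ht0, ht1⟩, rfl⟩ := hx
    set x : E3 := AffineMap.lineMap p q t with hxdef
    have hxp : ∀ i, x i - p i = t * d i := by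
      intro i
      rw [hxdef, AffineMap.lineMap_apply]
      simp [d]
    have hcr0 : ∀ i j, d j * (y i - p i) = d i * (y j - p j) := by
      intro i j
      have h := hxy (cr i j) (Or.inl ⟨(i, j), rfl⟩)
      rw [hcr, hcr, hxp, hxp] at h
      rw [show d j * (t * d i) - d i * (t * d j) = 0 by ring, sign_zero] at h
      have := sign_eq_zero_iff.1 h.symm
      linarith
    obtain ⟨i, hi⟩ : ∃ i, d i ≠ 0 := by
      by_contra hcon
      push Not at hcon
      apply hd
      ext i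
      simpa using hcon i
    set s := (y i - p i) / d i with hs
    have hy : ∀ j, y j - p j = s * d j := by
      intro j
      have h := hcr0 i j
      rw [hs]
      field_simp
      linarith
    have hyl : y = AffineMap.lineMap p q s := by
      ext j
      rw [AffineMap.lineMap_apply]
      have := hy j
      simp [d] at this ⊢
      linarith
    have hdd : 0 < inner ℝ d d := real_inner_self_pos.2 hd
    have hyp : y - p = s • d := by
      ext j
      have := hy j
      simpa using this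
    have hyq : y - q = (s - 1) • d := by
      ext j
      have := hy j
      simp [d] at this ⊢
      linarith
    have hxp' : x - p = t • d := by
      ext j
      have := hxp j
      simpa using this
    have hxq' : x - q = (t - 1) • d := by
      ext j
      have := hxp j
      simp [d] at this ⊢
      linarith
    refine ⟨s, ⟨?_, ?_⟩, hyl.symm⟩
    · have h := hxy (innAff d (inner ℝ d p)) (Or.inr (Or.inl rfl))
      rw [innAff_apply, innAff_apply, ← inner_sub_right, ← inner_sub_right, hyp, hxp',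
        inner_smul_right, inner_smul_right] at h
      have h2 := sign_nonneg_iff' h (mul_nonneg ht0 hdd.le)
      exact nonneg_of_mul_nonneg_left h2 hdd
    · have h := hxy (innAff (-d) (inner ℝ (-d) q)) (Or.inr (Or.inr rfl))
      rw [innAff_apply, innAff_apply, ← inner_sub_right, ← inner_sub_right, hyq, hxq',
        inner_smul_right, inner_smul_right, inner_neg_left] at h
      have h2 := sign_nonneg_iff' h (by nlinarith)
      have h3 : 0 ≤ (1 - s) * inner ℝ d d := by linarith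
      have := nonneg_of_mul_nonneg_left h3 hdd
      linarith

/-- combine finitely many sets of functions -/
theorem exists_meas_sUnion {T : Set (Set E3)} (hT : T.Finite)
    (h : ∀ t ∈ T, ∃ A : Set (E3 →ᵃ[ℝ] ℝ), A.Finite ∧ Meas A t) :
    ∃ A : Set (E3 →ᵃ[ℝ] ℝ), A.Finite ∧ ∀ t ∈ T, Meas A t := by
  choose! A hA hm using h
  refine ⟨⋃ t ∈ T, A t, hT.biUnion hA, fun t ht => (hm t ht).mono ?_⟩
  exact subset_biUnion_of_mem ht

theorem Polyhedral.isCompact {S : Set E3} (hS : Polyhedral S) : IsCompact S := by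
  obtain ⟨T, hT, hp, rfl⟩ := hS
  refine hT.isCompact_sUnion fun t ht => ?_
  obtain ⟨C, g, hC, rfl⟩ := hp t ht
  exact hC.1.isCompact.image g.continuous

theorem Polyhedral.exists_meas {S : Set E3} (hS : Polyhedral S) :
    ∃ A : Set (E3 →ᵃ[ℝ] ℝ), A.Finite ∧ Meas A S := by
  obtain ⟨T, hT, hp, rfl⟩ := hS
  obtain ⟨A, hA, hm⟩ := exists_meas_sUnion hT (fun t ht => by
    obtain ⟨C, g, hC, rfl⟩ := hp t ht
    obtain ⟨A, hA, -, hm⟩ := exists_meas_poly g hC
    exact ⟨A, hA, hm⟩)
  refine ⟨A, hA, ?_⟩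
  rw [sUnion_eq_biUnion]
  exact Meas.iUnion fun t => Meas.iUnion fun ht => hm t ht

/-- the hull of finitely many polygons is a polygon -/
theorem isPoly_convexHull_sUnion {T : Set (Set E2)} (hT : T.Finite) (h : ∀ t ∈ T, IsPoly t) :
    IsPoly (convexHull ℝ (⋃₀ T)) := by
  classical
  choose! s hs using h
  refine ⟨hT.toFinset.biUnion s, ?_⟩
  apply Set.Subset.antisymm
  · apply convexHull_min _ (convex_convexHull ℝ _)
    intro x hx
    obtain ⟨t, ht, hxt⟩ := hx
    rw [hs t ht] at hxt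
    refine convexHull_mono ?_ hxt
    intro y hy
    simp only [Finset.coe_biUnion, mem_iUnion]
    exact ⟨t, by simpa using ht, hy⟩
  · apply convexHull_min _ (convex_convexHull ℝ _)
    intro y hy
    simp only [Finset.coe_biUnion, mem_iUnion] at hy
    obtain ⟨t, ht, hyt⟩ := hy
    have ht' : t ∈ T := by simpa using ht
    apply subset_convexHull ℝ _
    refine ⟨t, ht', ?_⟩
    rw [hs t ht']
    exact subset_convexHull ℝ _ hyt

/-- a bounded closed cell is a convex polygon -/
theorem Gen.isPoly_closure {A : Set (E3 →ᵃ[ℝ] ℝ)} (hA : A.Finite) {g : E2 →ᵃⁱ[ℝ] E3} {u : E2}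
    (h : Gen A g u) (hb : Bornology.IsBounded (OO A g u)) : IsPoly (closure (OO A g u)) := by
  have hfin : Finite {a : E3 →ᵃ[ℝ] ℝ // a ∈ A ∧ a (g u) ≠ 0} :=
    (hA.subset fun a ha => ha.1 : {a : E3 →ᵃ[ℝ] ℝ | a ∈ A ∧ a (g u) ≠ 0}.Finite)
  have he : closure (OO A g u) = Pool.Agent.Hhelper79.SeamP.HSet
      (fun a : {a : E3 →ᵃ[ℝ] ℝ // a ∈ A ∧ a (g u) ≠ 0} => a.1 (g u) • pull g a.1) := by
    rw [h.closure_OO]
    ext v
    constructor
    · intro hv a
      exact hv a.1 a.2.1 a.2.2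
    · intro hv a ha h0
      exact hv ⟨a, ha, h0⟩
  have hb' := hb.closure
  rw [he] at hb' ⊢
  exact Pool.Agent.Hhelper79.SeamP.isPoly_HSet _ hb'

theorem Gen.isPoly2_closure {A : Set (E3 →ᵃ[ℝ] ℝ)} (hA : A.Finite) {g : E2 →ᵃⁱ[ℝ] E3} {u : E2}
    (h : Gen A g u) (hb : Bornology.IsBounded (OO A g u)) : IsPoly2 (closure (OO A g u)) :=
  ⟨h.isPoly_closure hA hb, ⟨u, interior_mono subset_closure
    ((h.isOpen hA).interior_eq.symm ▸ mem_OO_self A g u)⟩⟩

/-- cells in the plane of `g` -/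
theorem finite_OO {A : Set (E3 →ᵃ[ℝ] ℝ)} (hA : A.Finite) (g : E2 →ᵃⁱ[ℝ] E3) :
    (range (OO A g)).Finite := by
  refine ((finite_classes hA).image fun c => g ⁻¹' c).subset ?_
  rintro _ ⟨u, rfl⟩
  exact ⟨_, mem_range_self (g u), rfl⟩

/-- an open set of the plane which is a union of sign classes is, up to closure, the union of the generic cells in it -/
theorem closure_eq_cells {A : Set (E3 →ᵃ[ℝ] ℝ)} (hA : A.Finite) (g : E2 →ᵃⁱ[ℝ] E3) {U : Set E2}
    (hU : IsOpen U) (hm : Meas A (g '' U)) :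
    closure U = ⋃₀ {t | ∃ u ∈ U, Gen A g u ∧ t = closure (OO A g u)} ∧
      {t | ∃ u ∈ U, Gen A g u ∧ t = closure (OO A g u)}.Finite ∧ ∀ u ∈ U, OO A g u ⊆ U := by
  have hsub : ∀ u ∈ U, OO A g u ⊆ U := by
    intro u hu v hv
    obtain ⟨w, hw, hwv⟩ := hm _ _ hv (mem_image_of_mem g hu)
    rwa [g.injective hwv] at hw
  have hfin : {t | ∃ u ∈ U, Gen A g u ∧ t = closure (OO A g u)}.Finite := by
    refine ((finite_OO hA g).image closure).subset ?_
    rintro _ ⟨u, -, -, rfl⟩
    exact ⟨_, mem_range_self u, rfl⟩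
  refine ⟨?_, hfin, hsub⟩
  apply Set.Subset.antisymm
  · have hcl : IsClosed (⋃₀ {t | ∃ u ∈ U, Gen A g u ∧ t = closure (OO A g u)}) := by
      rw [sUnion_eq_biUnion]
      apply hfin.isClosed_biUnion
      rintro _ ⟨u, -, -, rfl⟩
      exact isClosed_closure
    intro x hx
    rw [← hcl.closure_eq, _root_.mem_closure_iff]
    intro V hV hxV
    rw [_root_.mem_closure_iff] at hx
    obtain ⟨u, ⟨huV, huU⟩, hgen⟩ := exists_gen hA g (hV.inter hU) (by
      obtain ⟨y, hy⟩ := hx V hV hxV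
      exact ⟨y, hy⟩)
    exact ⟨u, huV, _, ⟨u, huU, hgen, rfl⟩, subset_closure (mem_OO_self A g u)⟩
  · rintro x ⟨_, ⟨u, hu, -, rfl⟩, hx⟩
    exact closure_mono (hsub u hu) hx

theorem hull_isPoly2 {A : Set (E3 →ᵃ[ℝ] ℝ)} (hA : A.Finite) (g : E2 →ᵃⁱ[ℝ] E3) {U : Set E2}
    (hU : IsOpen U) (hne : U.Nonempty) (hb : Bornology.IsBounded U) (hm : Meas A (g '' U)) :
    IsPoly2 (convexHull ℝ (closure U)) ∧
      interior (convexHull ℝ (closure U)) = convexHull ℝ U := by
  obtain ⟨h1, h2, h3⟩ := closure_eq_cells hA g hU hm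
  have hop : IsOpen (convexHull ℝ U) := hU.convexHull
  have hsub : convexHull ℝ U ⊆ convexHull ℝ (closure U) := convexHull_mono subset_closure
  have hint : convexHull ℝ U ⊆ interior (convexHull ℝ (closure U)) := interior_maximal hsub hop
  refine ⟨⟨?_, ?_⟩, ?_⟩
  · rw [h1]
    apply isPoly_convexHull_sUnion h2
    rintro _ ⟨u, hu, hgen, rfl⟩
    exact hgen.isPoly_closure hA (hb.subset (h3 u hu))
  · exact (hne.mono (subset_convexHull ℝ U)).mono hint
  · apply Set.Subset.antisymm _ hint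
    have h4 : convexHull ℝ (closure U) ⊆ closure (convexHull ℝ U) :=
      convexHull_min (closure_mono (subset_convexHull ℝ U)) (convex_convexHull ℝ U).closure
    have h5 := interior_mono h4
    rw [(convex_convexHull ℝ U).interior_closure_eq_interior_of_nonempty_interior (by
      rw [hop.interior_eq]
      exact hne.mono (subset_convexHull ℝ U)), hop.interior_eq] at h5
    exact h5

/-- the plates of a stacking -/
structure PlateSys (S D : Set E3) (m : ℕ) where
  /-- placements -/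
  T : Fin m → E2 →ᵃⁱ[ℝ] E3
  /-- visible parts -/
  U : Fin m → Set E2
  /-- closed hulls -/
  K : Fin m → Set E2
  /-- `low k k'`: plate `k` lies below plate `k'` -/
  low : Fin m → Fin m → Prop
  openU : ∀ k, IsOpen (U k)
  nonemptyU : ∀ k, (U k).Nonempty
  regU : ∀ k, interior (closure (U k)) = U k
  poly : ∀ k, IsPoly2 (K k)
  hK : ∀ k, K k = convexHull ℝ (closure (U k))
  hull : ∀ k, interior (K k) = convexHull ℝ (U k)
  sub : ∀ k, T k '' K k ⊆ S
  cover : S \ D = ⋃ k, T k '' U k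
  disj : ∀ k k', k ≠ k' → Disjoint (T k '' U k) (T k' '' U k')
  asymm : ∀ k k', low k k' → ¬ low k' k
  total : ∀ k k', k ≠ k' → (T k '' interior (K k) ∩ T k' '' interior (K k')).Nonempty →
    low k k' ∨ low k' k
  trans : ∀ k k' k'', (T k '' interior (K k) ∩ T k' '' interior (K k') ∩
    T k'' '' interior (K k'')).Nonempty → low k k' → low k' k'' → low k k''
  top : ∀ k k', k ≠ k' → (T k '' interior (K k) ∩ T k' '' U k').Nonempty → low k k'
  noisland : ∀ k, ∀ q ∉ closure (U k),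
    ¬ connectedComponentIn (closure (U k))ᶜ q ⊆ interior (K k)

theorem vis_congr {S D : Set E3} {same low : E3 → E3 → Prop} (h : IsStacking S D same low)
    {s t : E3} (hs : s ∈ S \ D) (ht : t ∈ S \ D) (hst : same s t) :
    vis S D same s = vis S D same t := by
  ext x
  constructor
  · rintro ⟨h1, h2, h3⟩
    exact ⟨h1, h2, h.trans t ht s hs x ⟨h1, h2⟩ (h.symm s hs t ht hst) h3⟩
  · rintro ⟨h1, h2, h3⟩
    exact ⟨h1, h2, h.trans s hs t ht x ⟨h1, h2⟩ hst h3⟩

theorem same_of_cls {S D : Set E3} {same low : E3 → E3 → Prop} (h : IsStacking S D same low)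
    {A : Set (E3 →ᵃ[ℝ] ℝ)} (hmS : Meas A S) (hmD : Meas A D) {s t : E3} (hs : s ∈ S \ D)
    (hst : SameSign A s t) : t ∈ S \ D ∧ same s t := by
  have hcl : ∀ x, x ∈ Cls A s → x ∈ S \ D := by
    intro x hx
    exact ⟨hmS _ _ hx hs.1, hmD.compl _ _ hx hs.2⟩
  refine ⟨hcl t hst, (h.region s hs).2 t ?_⟩
  exact (convex_cls A s).isPreconnected.subset_connectedComponentIn (mem_cls A s) hcl hst

theorem meas_vis {S D : Set E3} {same low : E3 → E3 → Prop} (h : IsStacking S D same low)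
    {A : Set (E3 →ᵃ[ℝ] ℝ)} (hmS : Meas A S) (hmD : Meas A D) {s : E3} (hs : s ∈ S \ D) :
    Meas A (vis S D same s) := by
  intro x y hxy hx
  obtain ⟨h1, h2⟩ := same_of_cls h hmS hmD (s := x) ⟨hx.1, hx.2.1⟩ hxy
  exact ⟨h1.1, h1.2, h.trans s hs x ⟨hx.1, hx.2.1⟩ y h1 hx.2.2 h2⟩

theorem finite_vis {S D : Set E3} {same low : E3 → E3 → Prop} (h : IsStacking S D same low)
    {A : Set (E3 →ᵃ[ℝ] ℝ)} (hA : A.Finite) (hmS : Meas A S) (hmD : Meas A D) :
    (vis S D same '' (S \ D)).Finite := by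
  classical
  have h1 : vis S D same '' (S \ D) ⊆ (fun c : Set E3 =>
      if hc : ∃ s, s ∈ c ∧ s ∈ S \ D then vis S D same hc.choose else ∅) '' range (Cls A) := by
    rintro _ ⟨s, hs, rfl⟩
    refine ⟨Cls A s, mem_range_self s, ?_⟩
    have hc : ∃ t, t ∈ Cls A s ∧ t ∈ S \ D := ⟨s, mem_cls A s, hs⟩
    simp only [dif_pos hc]
    have h2 := same_of_cls h hmS hmD hs hc.choose_spec.1
    exact (vis_congr h hs h2.1 h2.2).symm
  exact ((finite_classes hA).image _).subset h1

/-- change of the coordinates of a sheet -/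
theorem sheet_twist {S : Set E3} {g : E2 →ᵃⁱ[ℝ] E3} {U : Set E2} (φ : E2 ≃ᵃⁱ[ℝ] E2)
    (hUo : IsOpen U) (hUr : interior (closure U) = U) (hUS : g '' convexHull ℝ U ⊆ S)
    (hUi : ∀ q ∉ closure U, ¬ connectedComponentIn (closure U)ᶜ q ⊆ convexHull ℝ U) :
    g.comp φ.toAffineIsometry '' (φ ⁻¹' U) = g '' U ∧ IsOpen (φ ⁻¹' U) ∧
      interior (closure (φ ⁻¹' U)) = φ ⁻¹' U ∧
      g.comp φ.toAffineIsometry '' convexHull ℝ (φ ⁻¹' U) ⊆ S ∧
      ∀ q ∉ closure (φ ⁻¹' U),
        ¬ connectedComponentIn (closure (φ ⁻¹' U))ᶜ q ⊆ convexHull ℝ (φ ⁻¹' U) := by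
  have hcomp : ∀ x, g.comp φ.toAffineIsometry x = g (φ x) := fun x => rfl
  have himg : ∀ X : Set E2, g.comp φ.toAffineIsometry '' (φ ⁻¹' X) = g '' X := by
    intro X
    ext y
    constructor
    · rintro ⟨x, hx, rfl⟩
      exact ⟨φ x, hx, rfl⟩
    · rintro ⟨x, hx, rfl⟩
      obtain ⟨z, rfl⟩ := φ.surjective x
      exact ⟨z, hx, rfl⟩
  have hcl : ∀ X : Set E2, closure (φ ⁻¹' X) = φ ⁻¹' closure X :=
    fun X => (φ.toHomeomorph.preimage_closure X).symm
  have hin : ∀ X : Set E2, interior (φ ⁻¹' X) = φ ⁻¹' interior X :=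
    fun X => (φ.toHomeomorph.preimage_interior X).symm
  have hhull : convexHull ℝ (φ ⁻¹' U) = φ ⁻¹' convexHull ℝ U := by
    have h1 : φ ⁻¹' U = φ.symm '' U := by
      ext x
      constructor
      · intro hx
        exact ⟨φ x, hx, φ.symm_apply_apply x⟩
      · rintro ⟨y, hy, rfl⟩
        change φ (φ.symm y) ∈ U
        rwa [φ.apply_symm_apply]
    have h2 : φ ⁻¹' convexHull ℝ U = φ.symm '' convexHull ℝ U := by
      ext x
      constructor
      · intro hx
        exact ⟨φ x, hx, φ.symm_apply_apply x⟩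
      · rintro ⟨y, hy, rfl⟩
        change φ (φ.symm y) ∈ convexHull ℝ U
        rwa [φ.apply_symm_apply]
    rw [h1, h2]
    exact ((φ.symm.toAffineIsometry.toAffineMap).image_convexHull U).symm
  refine ⟨himg U, hUo.preimage φ.continuous, ?_, ?_, ?_⟩
  · rw [hcl, hin, hUr]
  · rw [hhull, himg]
    exact hUS
  · intro q hq hsub
    rw [hcl] at hq hsub
    rw [hhull] at hsub
    apply hUi (φ q) hq
    have h1 := φ.toHomeomorph.image_connectedComponentIn (s := (φ ⁻¹' closure U)ᶜ) (x := q) hq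
    have h2 : φ.toHomeomorph '' (φ ⁻¹' closure U)ᶜ = (closure U)ᶜ := by
      ext y
      constructor
      · rintro ⟨x, hx, rfl⟩
        exact hx
      · intro hy
        obtain ⟨z, rfl⟩ := φ.surjective y
        exact ⟨z, hy, rfl⟩
    rw [h2] at h1
    have h3 : φ.toHomeomorph q = φ q := rfl
    rw [h3] at h1
    rw [← h1]
    rintro _ ⟨x, hx, rfl⟩
    exact hsub hx

theorem exists_plates {S D : Set E3} (hS : Polyhedral S)
    (hD : ∃ T : Finset (Set E3), (∀ t ∈ T, ∃ a b : E3, t = segment ℝ a b) ∧ D = ⋃ t ∈ T, t)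
    {same low : E3 → E3 → Prop} (h : IsStacking S D same low)
    (Q : E3 → (E2 →ᵃⁱ[ℝ] E3) → Prop)
    (hQ : ∀ s ∈ S \ D, ∀ (g : E2 →ᵃⁱ[ℝ] E3) (U : Set E2), IsOpen U → U.Nonempty →
      vis S D same s = g '' U → ∃ φ : E2 ≃ᵃⁱ[ℝ] E2, Q s (g.comp φ.toAffineIsometry)) :
    ∃ (m : ℕ) (Pl : PlateSys S D m) (s : Fin m → E3) (A : Set (E3 →ᵃ[ℝ] ℝ)),
      (∀ k, s k ∈ S \ D) ∧ (∀ k, Pl.T k '' Pl.U k = vis S D same (s k)) ∧
      A.Finite ∧ Meas A S ∧ Meas A D ∧ (∀ k, Meas A (Pl.T k '' Pl.U k)) ∧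
      ∀ k, Q (s k) (Pl.T k) := by
  classical
  obtain ⟨A1, hA1, hm1⟩ := hS.exists_meas
  obtain ⟨TD, hTD, hDT⟩ := hD
  obtain ⟨A2, hA2, hm2⟩ := exists_meas_sUnion (T := (TD : Set (Set E3))) TD.finite_toSet
    (fun t ht => by
      obtain ⟨a, b, rfl⟩ := hTD t ht
      exact exists_meas_segment a b)
  have hA : (A1 ∪ A2).Finite := hA1.union hA2
  set A := A1 ∪ A2 with hAdef
  have hmS : Meas A S := hm1.mono subset_union_left
  have hmD : Meas A D := by
    rw [hDT]
    exact Meas.iUnion fun t => Meas.iUnion fun ht => (hm2 t ht).mono subset_union_right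
  have hfin := finite_vis h hA hmS hmD
  let e := hfin.toFinset.equivFin
  have hrep : ∀ k : Fin hfin.toFinset.card, ∃ s ∈ S \ D, vis S D same s = (e.symm k).1 := by
    intro k
    have := (e.symm k).2
    rw [Set.Finite.mem_toFinset] at this
    exact this
  choose s hs hsv using hrep
  have hsheet : ∀ k, ∃ (g : E2 →ᵃⁱ[ℝ] E3) (U : Set E2), vis S D same (s k) = g '' U ∧ IsOpen U ∧
      interior (closure U) = U ∧ g '' convexHull ℝ U ⊆ S ∧
      (∀ q ∉ closure U, ¬ connectedComponentIn (closure U)ᶜ q ⊆ convexHull ℝ U) ∧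
      Q (s k) g := by
    intro k
    obtain ⟨g, U, hg, hUo, hUr, hUS, hUi⟩ := h.sheet (s k) (hs k)
    have hne : U.Nonempty := by
      have h0 : s k ∈ vis S D same (s k) := ⟨(hs k).1, (hs k).2, h.refl _ (hs k)⟩
      rw [hg] at h0
      obtain ⟨u, hu, -⟩ := h0
      exact ⟨u, hu⟩
    obtain ⟨φ, hφ⟩ := hQ (s k) (hs k) g U hUo hne hg
    obtain ⟨h1, h2, h3, h4, h5⟩ := sheet_twist φ hUo hUr hUS hUi
    exact ⟨_, _, hg.trans h1.symm, h2, h3, h4, h5, hφ⟩
  choose T U hTU hUo hUr hUS hUi hTQ using hsheet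
  have hUne : ∀ k, (U k).Nonempty := by
    intro k
    have : s k ∈ vis S D same (s k) := ⟨(hs k).1, (hs k).2, h.refl _ (hs k)⟩
    rw [hTU] at this
    obtain ⟨u, hu, -⟩ := this
    exact ⟨u, hu⟩
  have hUb : ∀ k, Bornology.IsBounded (U k) := by
    intro k
    have h1 : T k '' U k ⊆ S := by
      rw [← hTU k]
      exact fun x hx => hx.1
    have h2 : Bornology.IsBounded (T k '' U k) := hS.isCompact.isBounded.subset h1
    rw [Metric.isBounded_iff] at h2 ⊢
    obtain ⟨r, hr⟩ := h2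
    refine ⟨r, fun x hx y hy => ?_⟩
    have := hr (mem_image_of_mem _ hx) (mem_image_of_mem _ hy)
    rwa [(T k).dist_map] at this
  have hmU : ∀ k, Meas A (T k '' U k) := by
    intro k
    rw [← hTU k]
    exact meas_vis h hmS hmD (hs k)
  have hpoly := fun k => hull_isPoly2 hA (T k) (hUo k) (hUne k) (hUb k) (hmU k)
  have hvis : ∀ k, convexHull ℝ (vis S D same (s k)) =
      T k '' interior (convexHull ℝ (closure (U k))) := by
    intro k
    rw [hTU k, (hpoly k).2]
    exact ((T k).toAffineMap.image_convexHull (U k)).symm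
  have hns : ∀ k k', k ≠ k' → ¬ same (s k) (s k') := by
    intro k k' hkk hsame
    apply hkk
    have h1 := vis_congr h (hs k) (hs k') hsame
    rw [hsv, hsv] at h1
    exact e.symm.injective (Subtype.ext h1)
  refine ⟨_, { T := T, U := U, K := fun k => convexHull ℝ (closure (U k)),
               low := fun k k' => low (s k) (s k'),
               openU := hUo, nonemptyU := hUne, regU := hUr, poly := fun k => (hpoly k).1,
               hK := fun _ => rfl, hull := fun k => (hpoly k).2, sub := ?_, cover := ?_,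
               disj := ?_, asymm := ?_, total := ?_, trans := ?_, top := ?_, noisland := ?_ },
    s, A, hs, fun k => (hTU k).symm, hA, hmS, hmD, hmU, hTQ⟩
  · intro k
    rintro _ ⟨x, hx, rfl⟩
    have h4 : convexHull ℝ (closure (U k)) ⊆ closure (convexHull ℝ (U k)) :=
      convexHull_min (closure_mono (subset_convexHull ℝ _)) (convex_convexHull ℝ _).closure
    have h5 : T k x ∈ closure (T k '' convexHull ℝ (U k)) :=
      image_closure_subset_closure_image (T k).continuous (mem_image_of_mem _ (h4 hx))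
    exact closure_minimal (hUS k) hS.isCompact.isClosed h5
  · ext x
    constructor
    · intro hx
      have h1 : vis S D same x ∈ hfin.toFinset := by
        rw [Set.Finite.mem_toFinset]
        exact mem_image_of_mem _ hx
      refine mem_iUnion.2 ⟨e ⟨_, h1⟩, ?_⟩
      rw [← hTU, hsv, Equiv.symm_apply_apply]
      exact ⟨hx.1, hx.2, h.refl x hx⟩
    · intro hx
      obtain ⟨k, hk⟩ := mem_iUnion.1 hx
      rw [← hTU] at hk
      exact ⟨hk.1, hk.2.1⟩
  · intro k k' hkk
    rw [← hTU, ← hTU, Set.disjoint_left]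
    rintro x ⟨h1, h2, h3⟩ ⟨-, -, h4⟩
    exact hns k k' hkk (h.trans _ (hs k) x ⟨h1, h2⟩ _ (hs k') h3
      (h.symm _ (hs k') x ⟨h1, h2⟩ h4))
  · intro k k' hkk
    exact h.asymm _ (hs k) _ (hs k') hkk
  · intro k k' hkk hne
    apply h.total _ (hs k) _ (hs k') (hns k k' hkk)
    rw [hvis, hvis]
    exact hne
  · intro k k' k'' hne h1 h2
    apply h.low_trans _ (hs k) _ (hs k') _ (hs k'') _ h1 h2
    rw [hvis, hvis, hvis]
    exact hne
  · rintro k k' hkk ⟨x, hx, hx'⟩
    rw [← hTU] at hx'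
    have hxD : x ∈ S \ D := ⟨hx'.1, hx'.2.1⟩
    have hsx : same (s k') x := hx'.2.2
    have hnsx : ¬ same (s k) x := by
      intro h1
      exact hns k k' hkk (h.trans _ (hs k) x hxD _ (hs k') h1 (h.symm _ (hs k') x hxD hsx))
    have h1 := h.top (s k) (hs k) x hxD hnsx (by
      rw [hvis]
      exact hx)
    exact h.congr _ (hs k) x hxD _ (hs k) _ (hs k') (h.refl _ (hs k))
      (h.symm _ (hs k') x hxD hsx) h1
  · intro k q hq
    rw [(hpoly k).2]
    exact hUi k q hq

end Pool.Agent.SeamS
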