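import Pool.Agent.SeamS.Complex

/-!
# Routes of hidden strips: definitions

A strip around the line `y 1 = h` of the paper is cut by *event lines* `e = 0, ..., M` (through the points `p e = (t e, h)`,
with unit normals `n e`, `⟪n e, e1⟫ > 0`) into facets `1, ..., M`; facet `e` lies between the event lines `e - 1` and `e`, is placed by
the isometry `G e` into the closed cell `ci e`, in the gap directly below the plate `pl e`. `G 0` and `G (M + 1)` are the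
placements of the plates at the two ends.
-/

namespace Pool.Agent.SeamS

open Set Filter Topology Metric Pool.Agent.Hhelper79.Seam

structure RData (c : CData) where
  M : ℕ
  t : ℕ → ℝ
  n : ℕ → E2
  G : ℕ → (E2 →ᵃⁱ[ℝ] E3)
  ci : ℕ → Fin c.N
  pl : ℕ → Fin c.m

namespace RData

variable {c : CData} (d : RData c) (h : ℝ)

/-- event point on the centre line -/
noncomputable def p (e : ℕ) : E2 := pt (d.t e) h

/-- signed distance from the event line `e` -/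
noncomputable def val (e : ℕ) (y : E2) : ℝ := inner ℝ (d.n e) (y - d.p h e)

/-- the event point in the target -/
noncomputable def s (e : ℕ) : E3 := d.G e (d.p h e)

/-- the next facet is folded back along the event line `e` -/
def IsFold (e : ℕ) : Prop :=
  ∀ y, d.G (e + 1) y = d.G e (refl (d.n e, inner ℝ (d.n e) (d.p h e)) y)

/-- turn: a fold inside the open cell -/
def IsTurn (e : ℕ) : Prop :=
  d.ci e = d.ci (e + 1) ∧ d.pl e = d.pl (e + 1) ∧ d.IsFold h e ∧ d.s h e ∈ c.cell (d.ci e)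

/-- wrap: a fold along an edge of the cell, changing the gap -/
def IsWrap (e : ℕ) : Prop :=
  d.ci e = d.ci (e + 1) ∧ d.IsFold h e ∧
  (∀ᶠ y in 𝓝 (d.p h e), d.val h e y < 0 → d.G e y ∈ c.cell (d.ci e)) ∧
  (∀ᶠ y in 𝓝 (d.p h e), d.val h e y = 0 →
    c.MoveAt (d.ci e) (d.pl e) (d.ci (e + 1)) (d.pl (e + 1)) (d.G e y))

/-- cross: the strip crosses a common edge of two different cells, without fold (flat or along a bend of the target) -/
def IsCross (e : ℕ) : Prop :=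
  d.ci e ≠ d.ci (e + 1) ∧ (∀ y, d.val h e y = 0 → d.G (e + 1) y = d.G e y) ∧
  (∀ᶠ y in 𝓝 (d.p h e), d.val h e y < 0 → d.G e y ∈ c.cell (d.ci e)) ∧
  (∀ᶠ y in 𝓝 (d.p h e), 0 < d.val h e y → d.G (e + 1) y ∈ c.cell (d.ci (e + 1))) ∧
  (∀ᶠ y in 𝓝 (d.p h e), d.val h e y = 0 →
    c.MoveAt (d.ci e) (d.pl e) (d.ci (e + 1)) (d.pl (e + 1)) (d.G e y))

end RData

/-- `d` is a route along the line `y 1 = h`. -/
structure IsRoute {c : CData} (d : RData c) (h : ℝ) : Prop where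
  Mpos : 1 ≤ d.M
  unit : ∀ e ≤ d.M, ‖d.n e‖ = 1
  dir : ∀ e ≤ d.M, 0 < inner ℝ (d.n e) e1
  mono : ∀ e < d.M, d.t e < d.t (e + 1)
  valid : ∀ e, 1 ≤ e → e ≤ d.M → c.mem (d.ci e) (d.pl e)
  event : ∀ e, 1 ≤ e → e < d.M → d.IsTurn h e ∨ d.IsWrap h e ∨ d.IsCross h e
  closed : ∀ e, 1 ≤ e → e ≤ d.M →
    d.G e (d.p h (e - 1)) ∈ c.ccell (d.ci e) ∧ d.G e (d.p h e) ∈ c.ccell (d.ci e)
  inner : ∀ e, 1 ≤ e → e ≤ d.M →
    d.G e (d.p h (e - 1)) ∈ c.cell (d.ci e) ∨ d.G e (d.p h e) ∈ c.cell (d.ci e)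
  startFold : d.IsFold h 0
  startIn : ∀ᶠ y in 𝓝 (d.p h 0), 0 < d.val h 0 y → d.G 1 y ∈ c.cell (d.ci 1)
  startRim : ∀ᶠ y in 𝓝 (d.p h 0), d.val h 0 y = 0 →
    d.G 1 y ∈ c.bcell (d.ci 1) ∧ d.G 1 y ∉ c.V ∧ d.G 1 y ∉ c.CI (d.pl 1)
  endFold : d.IsFold h d.M
  endIn : ∀ᶠ y in 𝓝 (d.p h d.M), d.val h d.M y < 0 → d.G d.M y ∈ c.cell (d.ci d.M)
  endRim : ∀ᶠ y in 𝓝 (d.p h d.M), d.val h d.M y = 0 →
    d.G d.M y ∈ c.bcell (d.ci d.M) ∧ d.G d.M y ∉ c.V ∧ d.G d.M y ∉ c.CI (d.pl d.M)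
  dist : ∀ e e', e < e' → e' ≤ d.M → d.s h e ≠ d.s h e'

/-- the strip may leave the plate `k`, placed by `G`, to the right at the point `p` (event line with normal `n`); the cell on the plate side of
the edge is `i` -/
structure PortR (c : CData) (k : Fin c.m) (i : Fin c.N) (G : E2 →ᵃⁱ[ℝ] E3) (n p : E2) :
    Prop where
  unit : ‖n‖ = 1
  dir : 0 < inner ℝ n e1
  mem : c.mem i k
  inside : ∀ᶠ y in 𝓝 p, inner ℝ n (y - p) < 0 → G y ∈ c.cell i
  rim : ∀ᶠ y in 𝓝 p, inner ℝ n (y - p) = 0 → G y ∈ c.bcell i ∧ G y ∉ c.V ∧ G y ∉ c.CI k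

/-- the strip may enter the plate `k` from the left at the point `p` -/
structure PortL (c : CData) (k : Fin c.m) (i : Fin c.N) (G : E2 →ᵃⁱ[ℝ] E3) (n p : E2) :
    Prop where
  unit : ‖n‖ = 1
  dir : 0 < inner ℝ n e1
  mem : c.mem i k
  inside : ∀ᶠ y in 𝓝 p, 0 < inner ℝ n (y - p) → G y ∈ c.cell i
  rim : ∀ᶠ y in 𝓝 p, inner ℝ n (y - p) = 0 → G y ∈ c.bcell i ∧ G y ∉ c.V ∧ G y ∉ c.CI k

/-- the centre line enters the cell `i` at the boundary point `G p`, in the direction of increasing abscissa -/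
structure Entry (c : CData) (i : Fin c.N) (k : Fin c.m) (G : E2 →ᵃⁱ[ℝ] E3) (n p : E2) :
    Prop where
  unit : ‖n‖ = 1
  dir : 0 < inner ℝ n e1
  mem : c.mem i k
  inside : ∀ᶠ y in 𝓝 p, 0 < inner ℝ n (y - p) → G y ∈ c.cell i
  bd : G p ∈ c.bcell i

end Pool.Agent.SeamS
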