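import Pool.Agent.SeamS.Defs

/-!
# Polyhedral targets (MP_6cce73_lc)
-/

namespace Pool.Agent.SeamS

open Set Filter Topology Metric Pool.Agent.Hhelper79.Seam

/-- a flat half disc placed in space by `g`: centre `p`, radius `r`, inner normal of the diameter `n` -/
def halfDisc (g : E2 →ᵃⁱ[ℝ] E3) (n p : E2) (r : ℝ) : Set E3 :=
  g '' {y | y ∈ ball p r ∧ 0 ≤ inner ℝ n (y - p)}

/-- Near the point `s` the set `S` is a flat half disc (`s` is on the boundary of `S`) or it consists of two flat half
discs with common diameter (`s` is in the interior of a face or on an edge between two faces). -/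
def IsBook (S : Set E3) (s : E3) : Prop :=
  ∃ (r : ℝ) (g g' : E2 →ᵃⁱ[ℝ] E3) (n p : E2), 0 < r ∧ ‖n‖ = 1 ∧ g p = s ∧
    (∀ y, inner ℝ n (y - p) = 0 → g' y = g y) ∧
    (S ∩ ball s r = halfDisc g n p r ∨ S ∩ ball s r = halfDisc g n p r ∪ halfDisc g' (-n) p r)

/-- `S` is a polygon or the surface of a polyhedron: a finite union of nondegenerate convex polygons placed in space, which is
connected even after removing finitely many points, and such that near all but finitely many points it is a flat half disc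
(the point is on the boundary of `S`) or it consists of two flat half discs with common diameter (the point is in the interior
of a face or on an edge between two faces). -/
structure IsPolySurface (S : Set E3) : Prop where
  pieces : ∃ T : Set (Set E3), T.Finite ∧
    (∀ t ∈ T, ∃ (g : E2 →ᵃⁱ[ℝ] E3) (C : Set E2), IsPoly2 C ∧ t = g '' C) ∧ S = ⋃₀ T
  nonempty : S.Nonempty
  conn : ∀ V : Set E3, V.Finite → IsPreconnected (S \ V)
  book : ∃ V : Set E3, V.Finite ∧ ∀ s ∈ S, s ∉ V → IsBook S s

/-- `ν` is nowhere tangent to `S`: for a flat open disc in `S`, placed by `g`, the two coordinate vectors of the disc and `ν`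
are linearly independent (so `ν` selects one of the two sides of the disc). -/
def IsTransversal (S : Set E3) (ν : E3 → E3) : Prop :=
  ∀ (g : E2 →ᵃⁱ[ℝ] E3) (x : E2) (r : ℝ), 0 < r → g '' ball x r ⊆ S →
    Matrix.det (Matrix.of ![fun i => (g (EuclideanSpace.single 0 1) - g 0) i,
      fun i => (g (EuclideanSpace.single 1 1) - g 0) i, fun i => ν (g x) i]) ≠ 0

theorem isBook_of {S : Set E3} {s : E3}
    (h : ∃ (r : ℝ) (g g' : E2 →ᵃⁱ[ℝ] E3) (n p : E2), 0 < r ∧ ‖n‖ = 1 ∧ g p = s ∧
      (∀ y, inner ℝ n (y - p) = 0 → g' y = g y) ∧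
      (S ∩ ball s r = g '' {y | y ∈ ball p r ∧ 0 ≤ inner ℝ n (y - p)} ∨
        S ∩ ball s r = g '' {y | y ∈ ball p r ∧ 0 ≤ inner ℝ n (y - p)} ∪
          g' '' {y | y ∈ ball p r ∧ inner ℝ n (y - p) ≤ 0})) : IsBook S s := by
  obtain ⟨r, g, g', n, p, hr, hn, hp, hgg, h⟩ := h
  refine ⟨r, g, g', n, p, hr, hn, hp, hgg, ?_⟩
  rcases h with h | h
  · exact Or.inl h
  · right
    rw [h]
    unfold halfDisc
    congr 2
    ext y
    simp only [mem_ofPred_eq, inner_neg_left, Left.nonneg_neg_iff]

end Pool.Agent.SeamS
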