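import Pool.Agent.SeamS.RouteDefs
import Pool.Agent.SeamS.Poly

/-!
# Thin strips (module E2)

All conditions of a route are satisfied along a whole strip `|y 1 - c'| ≤ δ` containing the line `y 1 = h`, if it is thin enough.

Proof of `exists_thin`. Points of the strip satisfy `|y 1 - h| ≤ 2 δ`. The event line `e` meets the height `u` at the point `X_e u = pt (t e - ⟪n e, pt 0 (u - h)⟫ / ⟪n e, e1⟫) u`, and
`val e y = ⟪n e, e1⟫ * (y 0 - (X_e (y 1)) 0)`; `|X_e u 0 - t e| ≤ K_e |u - h|`, where `K_e = 1 / ⟪n e, e1⟫`. There are only finitely many `e ≤ M`.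
`near`: points on the event line `e` in the strip satisfy `dist y (p e) ≤ (1 + K_e) 2 δ < η`.
`order`: for `e < M`, `t e < t (e + 1)`: for `δ` small `X_e u 0 < X_(e+1) u 0` for all `|u - h| ≤ 2 δ`.
`move`, `turn`, `startRim`, `endRim`: the conditions `∀ᶠ y in 𝓝 (p e)` hold on a ball about `p e`, take `δ` small so that `near` holds with its radius. (`turn`: `s e ∈ cell (ci e)`; `G e` maps a neighbourhood of `p e` into `cell (ci e)`, because `cell i = g i '' O i`, `O i` open, and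
`range (G e) = range (g (ci e))`, see below.)
`cell`: (i) `range (G e) = range (g (ci e))` for `1 ≤ e ≤ M`, by induction: `e = 1`: by `startIn` `G 1` maps a nonempty open set (an open half disc, `⟪n 0, e1⟫ > 0`) into `range (g (ci 1))`; an affine isometry of the plane which maps a nonempty open set into a plane has this plane as range. Step `e → e + 1`: after a turn or wrap `ci` is the same and
`G (e + 1) = G e ∘ refl`, the range is the same. After a cross `G (e + 1)` maps an open half disc into `cell (ci (e + 1))`.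
(ii) Let `1 ≤ e ≤ M`, `G e = g i ∘ γ`, `i = ci e`, `γ` an isometry of the plane. Both `X_(e-1) u` and `X_e u` are mapped by `γ` into `closure (O i)` for `u` near `h`: if the event is a turn, into `O i` by continuity; if it is a wrap or cross or the start or end: into `closure (O i) \ O i` (`bcell`; note that `G (e-1) = G e` on the
event line `e - 1`, `MoveAt` contains both `bcell (ci (e - 1))` and `bcell (ci e)`; and `refl` fixes the points of the line). By `inner` at least one of the two events is such that the point is in the open cell, and (openness) it is for `u` near `h`. For `y` in the facet, `y` is on the segment from `X_(e-1) (y 1)` to `X_e (y 1)`: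
`closure (O i)` is convex so `G e y ∈ ccell i`; if `y` is strictly between the two points then `γ y ∈ O i` (`Convex.openSegment_interior_closure_subset_interior`, `O i` open). If `y = X_(e-1) (y 1)`, i.e. `val (e-1) y = 0`: `G e y ∈ cell i` if `G e (p (e-1)) ∈ cell i` (openness), otherwise it is the second alternative. Same for `y = X_e (y 1)`.
`facet`: the facet is `{y | -δ ≤ y 1 - c' ≤ δ, 0 ≤ val (e-1) y, val e y ≤ 0}`, a bounded `Hull Λ` with `Λ` finite; its interior contains the midpoint of `X_(e-1) c'`, `X_e c'` by `order`. `IsPoly2` from `isPoly_hull`.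
-/

namespace Pool.Agent.SeamS

open Set Filter Topology Metric Pool.Agent.Hhelper79.Seam

/-- the facet `e` of the route in the strip `|y 1 - c'| ≤ δ` -/
def RData.facet {c : CData} (d : RData c) (h c' δ : ℝ) (e : ℕ) : Set E2 :=
  {y | |y 1 - c'| ≤ δ ∧ 0 ≤ d.val h (e - 1) y ∧ d.val h e y ≤ 0}

/-- the strip `|y 1 - c'| ≤ δ` is thin enough for the route `d` along `y 1 = h` -/
structure IsThin {c : CData} (d : RData c) (h η c' δ : ℝ) : Prop where
  order : ∀ e < d.M, ∀ y : E2, |y 1 - c'| ≤ δ → 0 ≤ d.val h (e + 1) y → 0 < d.val h e y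
  near : ∀ e ≤ d.M, ∀ y : E2, |y 1 - c'| ≤ δ → d.val h e y = 0 → dist y (d.p h e) < η
  cell : ∀ e, 1 ≤ e → e ≤ d.M → ∀ y ∈ d.facet h c' δ e,
    d.G e y ∈ c.ccell (d.ci e) ∧ (d.G e y ∈ c.cell (d.ci e) ∨
      (d.val h (e - 1) y = 0 ∧ d.G e (d.p h (e - 1)) ∉ c.cell (d.ci e)) ∨
      (d.val h e y = 0 ∧ d.G e (d.p h e) ∉ c.cell (d.ci e)))
  turn : ∀ e, 1 ≤ e → e < d.M → d.IsTurn h e → ∀ y : E2, |y 1 - c'| ≤ δ → d.val h e y = 0 →
    d.G e y ∈ c.cell (d.ci e)
  move : ∀ e, 1 ≤ e → e < d.M → d.IsWrap h e ∨ d.IsCross h e → ∀ y : E2, |y 1 - c'| ≤ δ →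
    d.val h e y = 0 → c.MoveAt (d.ci e) (d.pl e) (d.ci (e + 1)) (d.pl (e + 1)) (d.G e y)
  startRim : ∀ y : E2, |y 1 - c'| ≤ δ → d.val h 0 y = 0 →
    d.G 1 y ∈ c.bcell (d.ci 1) ∧ d.G 1 y ∉ c.V ∧ d.G 1 y ∉ c.CI (d.pl 1)
  endRim : ∀ y : E2, |y 1 - c'| ≤ δ → d.val h d.M y = 0 →
    d.G d.M y ∈ c.bcell (d.ci d.M) ∧ d.G d.M y ∉ c.V ∧ d.G d.M y ∉ c.CI (d.pl d.M)
  facet : ∀ e, 1 ≤ e → e ≤ d.M → IsPoly2 (d.facet h c' δ e)

theorem th_e1 (n : E2) : inner ℝ n e1 = n 0 := by
  simp [e1, PiLp.inner_apply, Fin.sum_univ_two]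

theorem th_single (i : Fin 2) (x : E2) :
    inner ℝ (EuclideanSpace.single i (1 : ℝ)) x = x i := by
  rw [EuclideanSpace.inner_single_left]
  simp

theorem th_val {c : CData} (d : RData c) (h : ℝ) (e : ℕ) (y : E2) :
    d.val h e y = d.n e 0 * (y 0 - d.t e) + d.n e 1 * (y 1 - h) := by
  simp [RData.val, RData.p, pt, PiLp.inner_apply, Fin.sum_univ_two]
  ring

theorem th_coord {n : E2} (hn : ‖n‖ = 1) (i : Fin 2) : |n i| ≤ 1 := by
  rw [← hn, ← Real.norm_eq_abs]
  exact PiLp.norm_apply_le n i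

theorem th_dist (y : E2) (a b : ℝ) : dist y (pt a b) ≤ |y 0 - a| + |y 1 - b| := by
  rw [EuclideanSpace.dist_eq, Fin.sum_univ_two]
  have h0 : pt a b 0 = a := by simp [pt]
  have h1 : pt a b 1 = b := by simp [pt]
  rw [h0, h1, Real.dist_eq, Real.dist_eq]
  apply Real.sqrt_le_iff.2
  constructor
  · positivity
  · nlinarith [abs_nonneg (y 0 - a), abs_nonneg (y 1 - b)]

/-- conditions on the event line near the event point hold in a thin strip -/
theorem th_near {c : CData} {d : RData c} {h : ℝ} {e : ℕ} (hu : ‖d.n e‖ = 1)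
    (hdir : 0 < inner ℝ (d.n e) e1) {Q : E2 → Prop}
    (hQ : ∀ᶠ y in 𝓝 (d.p h e), d.val h e y = 0 → Q y) :
    ∀ᶠ ε in 𝓝[>] (0 : ℝ), ∀ y : E2, |y 1 - h| ≤ ε → d.val h e y = 0 → Q y := by
  rw [th_e1] at hdir
  obtain ⟨r, hr, hball⟩ := Metric.eventually_nhds_iff.1 hQ
  have hlim : Tendsto (fun ε : ℝ => (d.n e 0)⁻¹ * ε + ε) (𝓝[>] 0) (𝓝 ((d.n e 0)⁻¹ * 0 + 0)) := by
    apply Tendsto.mono_left _ nhdsWithin_le_nhds
    exact ((continuous_const.mul continuous_id).add continuous_id).tendsto 0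
  have hev := hlim.eventually_lt_const (show (d.n e 0)⁻¹ * 0 + 0 < r by simpa using hr)
  filter_upwards [hev] with ε hε y hy hval
  refine hball ?_ hval
  rw [th_val] at hval
  have h1 : |y 0 - d.t e| ≤ (d.n e 0)⁻¹ * ε := by
    have h2 : y 0 - d.t e = -((d.n e 0)⁻¹ * (d.n e 1 * (y 1 - h))) := by
      field_simp
      linarith
    rw [h2, abs_neg, abs_mul, abs_mul, abs_of_pos (inv_pos.2 hdir)]
    apply mul_le_mul_of_nonneg_left _ (inv_pos.2 hdir).le
    have h3 := th_coord hu 1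
    nlinarith [abs_nonneg (y 1 - h), abs_nonneg (d.n e 1)]
  calc dist y (d.p h e) ≤ |y 0 - d.t e| + |y 1 - h| := th_dist y _ _
    _ ≤ (d.n e 0)⁻¹ * ε + ε := add_le_add h1 hy
    _ < r := hε

theorem th_order {c : CData} {d : RData c} {h : ℝ} {e : ℕ} (hu : ‖d.n e‖ = 1)
    (hdir : 0 < inner ℝ (d.n e) e1) (hu' : ‖d.n (e + 1)‖ = 1)
    (hdir' : 0 < inner ℝ (d.n (e + 1)) e1) (ht : d.t e < d.t (e + 1)) :
    ∀ᶠ ε in 𝓝[>] (0 : ℝ), ∀ y : E2, |y 1 - h| ≤ ε → 0 ≤ d.val h (e + 1) y →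
      0 < d.val h e y := by
  rw [th_e1] at hdir hdir'
  have hlim : Tendsto (fun ε : ℝ => d.n e 0 * (d.t (e + 1) - d.t e - (d.n (e + 1) 0)⁻¹ * ε) - ε)
      (𝓝[>] 0) (𝓝 (d.n e 0 * (d.t (e + 1) - d.t e - (d.n (e + 1) 0)⁻¹ * 0) - 0)) := by
    apply Tendsto.mono_left _ nhdsWithin_le_nhds
    exact ((continuous_const.mul (continuous_const.sub
      (continuous_const.mul continuous_id))).sub continuous_id).tendsto 0
  have hpos : 0 < d.n e 0 * (d.t (e + 1) - d.t e - (d.n (e + 1) 0)⁻¹ * 0) - 0 := by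
    have : 0 < d.t (e + 1) - d.t e := by linarith
    simpa using mul_pos hdir this
  filter_upwards [hlim.eventually_const_lt hpos] with ε hε y hy hval
  rw [th_val] at hval ⊢
  have h3 := th_coord hu 1
  have h3' := th_coord hu' 1
  have h4 : |d.n e 1 * (y 1 - h)| ≤ ε := by
    rw [abs_mul]
    nlinarith [abs_nonneg (y 1 - h), abs_nonneg (d.n e 1)]
  have h4' : |d.n (e + 1) 1 * (y 1 - h)| ≤ ε := by
    rw [abs_mul]
    nlinarith [abs_nonneg (y 1 - h), abs_nonneg (d.n (e + 1) 1)]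
  have h5 : -((d.n (e + 1) 0)⁻¹ * ε) ≤ y 0 - d.t (e + 1) := by
    have h6 : -ε ≤ d.n (e + 1) 0 * (y 0 - d.t (e + 1)) := by
      have := (abs_le.1 h4').2
      linarith
    have h7 := mul_le_mul_of_nonneg_left h6 (inv_pos.2 hdir').le
    rw [inv_mul_cancel_left₀ hdir'.ne'] at h7
    linarith
  have h8 := (abs_le.1 h4).1
  have h9 : d.n e 0 * (d.t (e + 1) - d.t e - (d.n (e + 1) 0)⁻¹ * ε) ≤
      d.n e 0 * (y 0 - d.t e) := mul_le_mul_of_nonneg_left (by linarith) hdir.le
  linarith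

theorem th_range_half {c : CData} {i : Fin c.N} {G : E2 →ᵃⁱ[ℝ] E3} {n p : E2} (hn : ‖n‖ = 1)
    (h : ∀ᶠ y in 𝓝 p, 0 < inner ℝ n (y - p) → G y ∈ c.cell i) :
    range G ⊆ range (c.g i) := by
  obtain ⟨r, hr, hball⟩ := Metric.eventually_nhds_iff.1 h
  have hopen : IsOpen {y : E2 | dist y p < r ∧ 0 < inner ℝ n (y - p)} := by
    have h1 : Continuous fun y : E2 => dist y p := continuous_id.dist continuous_const
    have h2 : Continuous fun y : E2 => (inner ℝ n (y - p) : ℝ) :=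
      continuous_const.inner (continuous_id.sub continuous_const)
    exact (isOpen_lt h1 continuous_const).inter (isOpen_lt continuous_const h2)
  have hne : {y : E2 | dist y p < r ∧ 0 < inner ℝ n (y - p)}.Nonempty := by
    refine ⟨p + (r / 2) • n, ?_, ?_⟩
    · rw [dist_eq_norm, add_sub_cancel_left, norm_smul, hn, mul_one, Real.norm_eq_abs,
        abs_of_pos (by positivity)]
      linarith
    · rw [add_sub_cancel_left, inner_smul_right, real_inner_self_eq_norm_sq, hn]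
      positivity
  have hspan := hopen.affineSpan_eq_top hne
  have hle : affineSpan ℝ {y : E2 | dist y p < r ∧ 0 < inner ℝ n (y - p)} ≤
      ((⊤ : AffineSubspace ℝ E2).map (c.g i).toAffineMap).comap G.toAffineMap := by
    rw [affineSpan_le]
    rintro y ⟨hy1, hy2⟩
    obtain ⟨z, hz, hz2⟩ := hball hy1 hy2
    rw [AffineSubspace.coe_comap]
    exact ⟨z, trivial, hz2⟩
  rw [hspan] at hle
  rintro _ ⟨y, rfl⟩
  have := hle (show y ∈ (⊤ : AffineSubspace ℝ E2) from trivial)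
  rw [AffineSubspace.mem_comap] at this
  obtain ⟨z, -, hz⟩ := this
  exact ⟨z, hz⟩

theorem th_range {S : Set E3} {c : CData} (_hc : IsComplex S c) {d : RData c} {h : ℝ}
    (hd : IsRoute d h) : ∀ e, 1 ≤ e → e ≤ d.M → range (d.G e) ⊆ range (c.g (d.ci e)) := by
  intro e he
  induction e, he using Nat.le_induction with
  | base =>
    intro _
    exact th_range_half (hd.unit 0 (by omega)) hd.startIn
  | succ e he ih =>
    intro heM
    have ih := ih (by omega)
    rcases hd.event e he (by omega) with ht | ht | ht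
    · rintro _ ⟨y, rfl⟩
      rw [ht.2.2.1 y, ← ht.1]
      exact ih ⟨_, rfl⟩
    · rintro _ ⟨y, rfl⟩
      rw [ht.2.1 y, ← ht.1]
      exact ih ⟨_, rfl⟩
    · exact th_range_half (hd.unit e (by omega)) ht.2.2.2.1

theorem th_open {S : Set E3} {c : CData} (hc : IsComplex S c) {i : Fin c.N}
    {G : E2 →ᵃⁱ[ℝ] E3} (hG : range G ⊆ range (c.g i)) {p : E2} (hp : G p ∈ c.cell i) :
    ∀ᶠ y in 𝓝 p, G y ∈ c.cell i := by
  obtain ⟨z0, hz0, hz0'⟩ := hp
  obtain ⟨r, hr, hball⟩ := Metric.isOpen_iff.1 (hc.isOpen i) z0 hz0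
  rw [Metric.eventually_nhds_iff]
  refine ⟨r, hr, fun y hy => ?_⟩
  obtain ⟨z, hz⟩ := hG ⟨y, rfl⟩
  refine ⟨z, hball ?_, hz⟩
  rw [mem_ball, ← (c.g i).dist_map, hz, hz0', G.dist_map]
  exact hy

theorem th_refl {n p y : E2} (h : inner ℝ n (y - p) = 0) : refl (n, inner ℝ n p) y = y := by
  rw [inner_sub_right] at h
  simp [refl, h]

theorem th_disj {c : CData} {i : Fin c.N} {s : E3} (h : s ∈ c.bcell i) : s ∉ c.cell i := by
  rintro ⟨z, hz, hz2⟩
  obtain ⟨w, hw, hw2⟩ := h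
  have : w = z := (c.g i).injective (hw2.trans hz2.symm)
  exact hw.2 (this ▸ hz)

theorem th_bc {c : CData} {i : Fin c.N} {s : E3} (h : s ∈ c.bcell i) : s ∈ c.ccell i := by
  obtain ⟨w, hw, hw2⟩ := h
  exact ⟨w, hw.1, hw2⟩

theorem th_cc {c : CData} {i : Fin c.N} {s : E3} (h : s ∈ c.cell i) : s ∈ c.ccell i := by
  obtain ⟨w, hw, hw2⟩ := h
  exact ⟨w, subset_closure hw, hw2⟩

theorem th_valp {c : CData} (d : RData c) (h : ℝ) (e : ℕ) : d.val h e (d.p h e) = 0 := by
  simp [RData.val]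

/-- the two alternatives on an event line `f` for the facet `e` -/
def ThLD {c : CData} (d : RData c) (h : ℝ) (e f : ℕ) : Prop :=
  (∀ᶠ y in 𝓝 (d.p h f), d.val h f y = 0 → d.G e y ∈ c.cell (d.ci e)) ∨
    (∀ᶠ y in 𝓝 (d.p h f), d.val h f y = 0 → d.G e y ∈ c.bcell (d.ci e))

theorem th_left {S : Set E3} {c : CData} (hc : IsComplex S c) {d : RData c} {h : ℝ}
    (hd : IsRoute d h) (e : ℕ) (he : e < d.M) : ThLD d h (e + 1) e := by
  rcases Nat.eq_zero_or_pos e with rfl | hpos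
  · right
    filter_upwards [hd.startRim] with y hy hv
    exact (hy hv).1
  · rcases hd.event e hpos he with ht | ht | ht
    · left
      have h1 : d.G (e + 1) (d.p h e) ∈ c.cell (d.ci (e + 1)) := by
        rw [ht.2.2.1, th_refl (by simp), ← ht.1]
        exact ht.2.2.2
      filter_upwards [th_open hc (th_range hc hd (e + 1) (by omega) he) h1] with y hy _
      exact hy
    · right
      filter_upwards [ht.2.2.2] with y hy hv
      have h2 := (hy hv).2.2.1
      rw [ht.2.1, th_refl hv]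
      exact h2
    · right
      filter_upwards [ht.2.2.2.2] with y hy hv
      have h2 := (hy hv).2.2.1
      rw [ht.2.1 y hv]
      exact h2

theorem th_right {S : Set E3} {c : CData} (hc : IsComplex S c) {d : RData c} {h : ℝ}
    (hd : IsRoute d h) (e : ℕ) (he1 : 1 ≤ e) (he : e ≤ d.M) : ThLD d h e e := by
  rcases Nat.lt_or_eq_of_le he with hlt | heq
  · rcases hd.event e he1 hlt with ht | ht | ht
    · left
      filter_upwards [th_open hc (th_range hc hd e he1 he) ht.2.2.2] with y hy _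
      exact hy
    · right
      filter_upwards [ht.2.2.2] with y hy hv
      exact (hy hv).2.1
    · right
      filter_upwards [ht.2.2.2.2] with y hy hv
      exact (hy hv).2.1
  · right
    subst heq
    filter_upwards [hd.endRim] with y hy hv
    exact (hy hv).1

/-- the strip version of `ThLD` -/
theorem th_strip {c : CData} {d : RData c} {h : ℝ} (hd : IsRoute d h) {e f : ℕ}
    (hf : f ≤ d.M) (hL : ThLD d h e f) : ∀ᶠ ε in 𝓝[>] (0 : ℝ),
      (∀ y : E2, |y 1 - h| ≤ ε → d.val h f y = 0 → d.G e y ∈ c.ccell (d.ci e)) ∧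
      (d.G e (d.p h f) ∈ c.cell (d.ci e) →
        ∀ y : E2, |y 1 - h| ≤ ε → d.val h f y = 0 → d.G e y ∈ c.cell (d.ci e)) := by
  rcases hL with hL | hL
  · filter_upwards [th_near (hd.unit f hf) (hd.dir f hf) hL] with ε hε
    exact ⟨fun y hy hv => th_cc (hε y hy hv), fun _ => hε⟩
  · filter_upwards [th_near (hd.unit f hf) (hd.dir f hf) hL] with ε hε
    refine ⟨fun y hy hv => th_bc (hε y hy hv), fun hp => ?_⟩
    exact absurd hp (th_disj (hL.self_of_nhds (th_valp d h f)))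

/-- the cell condition from the conditions on the two lines -/
theorem th_cell {S : Set E3} {c : CData} (hc : IsComplex S c) {d : RData c} {h : ℝ}
    (hd : IsRoute d h) {e : ℕ} (he : e < d.M) {ε : ℝ}
    (hord : ∀ y : E2, |y 1 - h| ≤ ε → 0 ≤ d.val h (e + 1) y → 0 < d.val h e y)
    (hl1 : ∀ y : E2, |y 1 - h| ≤ ε → d.val h e y = 0 → d.G (e + 1) y ∈ c.ccell (d.ci (e + 1)))
    (hl2 : d.G (e + 1) (d.p h e) ∈ c.cell (d.ci (e + 1)) →
        ∀ y : E2, |y 1 - h| ≤ ε → d.val h e y = 0 → d.G (e + 1) y ∈ c.cell (d.ci (e + 1)))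
    (hr1 : ∀ y : E2, |y 1 - h| ≤ ε → d.val h (e + 1) y = 0 →
      d.G (e + 1) y ∈ c.ccell (d.ci (e + 1)))
    (hr2 : d.G (e + 1) (d.p h (e + 1)) ∈ c.cell (d.ci (e + 1)) →
        ∀ y : E2, |y 1 - h| ≤ ε → d.val h (e + 1) y = 0 →
          d.G (e + 1) y ∈ c.cell (d.ci (e + 1)))
    {y : E2} (hy : |y 1 - h| ≤ ε) (hv : 0 ≤ d.val h e y) (hv' : d.val h (e + 1) y ≤ 0) :
    d.G (e + 1) y ∈ c.ccell (d.ci (e + 1)) ∧ (d.G (e + 1) y ∈ c.cell (d.ci (e + 1)) ∨
      (d.val h e y = 0 ∧ d.G (e + 1) (d.p h e) ∉ c.cell (d.ci (e + 1))) ∨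
      (d.val h (e + 1) y = 0 ∧ d.G (e + 1) (d.p h (e + 1)) ∉ c.cell (d.ci (e + 1)))) := by
  have ha : 0 < d.n e 0 := by
    have := hd.dir e he.le
    rwa [th_e1] at this
  have hb : 0 < d.n (e + 1) 0 := by
    have := hd.dir (e + 1) he
    rwa [th_e1] at this
  set X : E2 := pt (d.t e - (d.n e 0)⁻¹ * (d.n e 1 * (y 1 - h))) (y 1) with hX
  set Z : E2 := pt (d.t (e + 1) - (d.n (e + 1) 0)⁻¹ * (d.n (e + 1) 1 * (y 1 - h))) (y 1) with hZ
  have hX0 : X 0 = d.t e - (d.n e 0)⁻¹ * (d.n e 1 * (y 1 - h)) := by simp [hX, pt]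
  have hX1 : X 1 = y 1 := by simp [hX, pt]
  have hZ0 : Z 0 = d.t (e + 1) - (d.n (e + 1) 0)⁻¹ * (d.n (e + 1) 1 * (y 1 - h)) := by
    simp [hZ, pt]
  have hZ1 : Z 1 = y 1 := by simp [hZ, pt]
  have hvX : d.val h e X = 0 := by
    rw [th_val, hX0, hX1]
    field_simp
    ring
  have hvZ : d.val h (e + 1) Z = 0 := by
    rw [th_val, hZ0, hZ1]
    field_simp
    ring
  have hXs : |X 1 - h| ≤ ε := by rw [hX1]; exact hy
  have hZs : |Z 1 - h| ≤ ε := by rw [hZ1]; exact hy
  -- values in terms of abscissae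
  have hvy : d.val h e y = d.n e 0 * (y 0 - X 0) := by
    rw [th_val, hX0]
    field_simp
    ring
  have hvZ' : d.val h e Z = d.n e 0 * (Z 0 - X 0) := by
    rw [th_val, hX0, hZ1]
    field_simp
    ring
  have hvy' : d.val h (e + 1) y = d.n (e + 1) 0 * (y 0 - Z 0) := by
    rw [th_val, hZ0]
    field_simp
    ring
  have hXZ : X 0 < Z 0 := by
    have h1 := hord Z hZs hvZ.ge
    rw [hvZ'] at h1
    have := (mul_pos_iff_of_pos_left ha).1 h1
    linarith
  have hXy : X 0 ≤ y 0 := by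
    rw [hvy] at hv
    have := (mul_nonneg_iff_of_pos_left ha).1 hv
    linarith
  have hyZ : y 0 ≤ Z 0 := by
    rw [hvy'] at hv'
    have := (mul_nonpos_iff_pos_imp_nonpos.1 hv').1 hb
    linarith
  set θ : ℝ := (y 0 - X 0) / (Z 0 - X 0) with hθ
  have hD : 0 < Z 0 - X 0 := by linarith
  have hθ0 : 0 ≤ θ := div_nonneg (by linarith) hD.le
  have hθ1 : θ ≤ 1 := by
    rw [hθ, div_le_one hD]
    linarith
  have hyl : y = AffineMap.lineMap X Z θ := by
    ext i
    fin_cases i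
    · simp [AffineMap.lineMap_apply, hθ]
      field_simp
      ring
    · simp [AffineMap.lineMap_apply, hX1, hZ1]
  obtain ⟨a, haO, haX⟩ := hl1 X hXs hvX
  obtain ⟨b, hbO, hbZ⟩ := hr1 Z hZs hvZ
  have hGy : c.g (d.ci (e + 1)) (AffineMap.lineMap a b θ) = d.G (e + 1) y := by
    have h1 : c.g (d.ci (e + 1)) (AffineMap.lineMap a b θ) =
        AffineMap.lineMap (c.g (d.ci (e + 1)) a) (c.g (d.ci (e + 1)) b) θ :=
      (c.g (d.ci (e + 1))).toAffineMap.apply_lineMap a b θ
    have h2 : d.G (e + 1) (AffineMap.lineMap X Z θ) =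
        AffineMap.lineMap (d.G (e + 1) X) (d.G (e + 1) Z) θ :=
      (d.G (e + 1)).toAffineMap.apply_lineMap X Z θ
    rw [h1, haX, hbZ, ← h2, ← hyl]
  have hconv := hc.convex (d.ci (e + 1))
  refine ⟨⟨_, hconv.closure.lineMap_mem haO hbO ⟨hθ0, hθ1⟩, hGy⟩, ?_⟩
  by_cases h0 : d.val h e y = 0
  · by_cases hp : d.G (e + 1) (d.p h e) ∈ c.cell (d.ci (e + 1))
    · exact Or.inl (hl2 hp y hy h0)
    · exact Or.inr (Or.inl ⟨h0, hp⟩)
  by_cases h1 : d.val h (e + 1) y = 0
  · by_cases hp : d.G (e + 1) (d.p h (e + 1)) ∈ c.cell (d.ci (e + 1))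
    · exact Or.inl (hr2 hp y hy h1)
    · exact Or.inr (Or.inr ⟨h1, hp⟩)
  left
  have hθ0' : 0 < θ := by
    refine div_pos ?_ hD
    rcases hXy.lt_or_eq with h2 | h2
    · linarith
    · exact absurd (by rw [hvy, h2, sub_self, mul_zero]) h0
  have hθ1' : θ < 1 := by
    rw [hθ, div_lt_one hD]
    rcases hyZ.lt_or_eq with h2 | h2
    · linarith
    · exact absurd (by rw [hvy', h2, sub_self, mul_zero]) h1
  have hint : interior (c.O (d.ci (e + 1))) = c.O (d.ci (e + 1)) :=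
    (hc.isOpen (d.ci (e + 1))).interior_eq
  have hseg : AffineMap.lineMap a b θ ∈ openSegment ℝ a b := by
    rw [openSegment_eq_image_lineMap]
    exact ⟨θ, ⟨hθ0', hθ1'⟩, rfl⟩
  refine ⟨_, ?_, hGy⟩
  rcases hd.inner (e + 1) (by omega) he with hp | hp
  · obtain ⟨a', ha', ha'X⟩ := hl2 hp X hXs hvX
    have : a = a' := (c.g (d.ci (e + 1))).injective (haX.trans ha'X.symm)
    subst this
    rw [← hint] at ha' ⊢
    exact hconv.openSegment_interior_closure_subset_interior ha' hbO hseg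
  · obtain ⟨b', hb', hb'Z⟩ := hr2 hp Z hZs hvZ
    have : b = b' := (c.g (d.ci (e + 1))).injective (hbZ.trans hb'Z.symm)
    subst this
    rw [← hint] at hb' ⊢
    exact hconv.openSegment_closure_interior_subset_interior haO hb' hseg

theorem th_facet {c : CData} {d : RData c} {h : ℝ} (hd : IsRoute d h) {e : ℕ} (he : e < d.M)
    {c' δ : ℝ} (hδ : 0 < δ)
    (hord : ∀ y : E2, |y 1 - c'| ≤ δ → 0 ≤ d.val h (e + 1) y → 0 < d.val h e y) :
    IsPoly2 (d.facet h c' δ (e + 1)) := by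
  have ha : 0 < d.n e 0 := by
    have := hd.dir e he.le
    rwa [th_e1] at this
  have hb : 0 < d.n (e + 1) 0 := by
    have := hd.dir (e + 1) he
    rwa [th_e1] at this
  have hsub : e + 1 - 1 = e := by omega
  constructor
  · -- polygon
    set Λ : Set (E2 × ℝ) := {(EuclideanSpace.single 1 (1 : ℝ), c' - δ),
      (-EuclideanSpace.single 1 (1 : ℝ), -(c' + δ)), (d.n e, inner ℝ (d.n e) (d.p h e)),
      (-d.n (e + 1), -inner ℝ (d.n (e + 1)) (d.p h (e + 1)))} with hΛ
    have hfac : d.facet h c' δ (e + 1) = Hull Λ := by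
      ext y
      simp only [RData.facet, hsub, mem_ofPred_eq, Hull, hΛ, mem_insert_iff, mem_singleton_iff,
        forall_eq_or_imp, forall_eq, inner_neg_left, th_single, RData.val, inner_sub_right,
        abs_le]
      constructor
      · rintro ⟨⟨h1, h2⟩, h3, h4⟩
        exact ⟨by linarith, by linarith, by linarith, by linarith⟩
      · rintro ⟨h1, h2, h3, h4⟩
        exact ⟨⟨by linarith, by linarith⟩, by linarith, by linarith⟩
    rw [hfac]
    apply isPoly_hull
    · rw [hΛ]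
      exact Set.toFinite _
    · rw [← hfac]
      -- bounded
      apply Bornology.IsBounded.subset (t := closedBall (0 : E2)
        ((|d.t e| + (d.n e 0)⁻¹ * (|c' - h| + δ) + (|d.t (e + 1)| +
          (d.n (e + 1) 0)⁻¹ * (|c' - h| + δ))) + (|c'| + δ))) isBounded_closedBall
      rintro y ⟨h1, h2, h3⟩
      rw [hsub] at h2
      have hyh : |y 1 - h| ≤ |c' - h| + δ := by
        have : y 1 - h = (y 1 - c') + (c' - h) := by ring
        rw [this]
        linarith [abs_add_le (y 1 - c') (c' - h)]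
      have hK : 0 ≤ |c' - h| + δ := by positivity
      rw [th_val] at h2 h3
      have h4 : |d.n e 1 * (y 1 - h)| ≤ |c' - h| + δ := by
        rw [abs_mul]
        have h3 := th_coord (hd.unit e he.le) 1
        nlinarith [abs_nonneg (y 1 - h), abs_nonneg (d.n e 1)]
      have h4' : |d.n (e + 1) 1 * (y 1 - h)| ≤ |c' - h| + δ := by
        rw [abs_mul]
        have h3 := th_coord (hd.unit (e + 1) he) 1
        nlinarith [abs_nonneg (y 1 - h), abs_nonneg (d.n (e + 1) 1)]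
      have h5 : -((d.n e 0)⁻¹ * (|c' - h| + δ)) ≤ y 0 - d.t e := by
        have h6 : -(|c' - h| + δ) ≤ d.n e 0 * (y 0 - d.t e) := by
          have := (abs_le.1 h4).2
          linarith
        have h7 := mul_le_mul_of_nonneg_left h6 (inv_pos.2 ha).le
        rw [inv_mul_cancel_left₀ ha.ne'] at h7
        linarith
      have h5' : y 0 - d.t (e + 1) ≤ (d.n (e + 1) 0)⁻¹ * (|c' - h| + δ) := by
        have h6 : d.n (e + 1) 0 * (y 0 - d.t (e + 1)) ≤ |c' - h| + δ := by
          have := (abs_le.1 h4').1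
          linarith
        have h7 := mul_le_mul_of_nonneg_left h6 (inv_pos.2 hb).le
        rwa [inv_mul_cancel_left₀ hb.ne'] at h7
      rw [mem_closedBall]
      have h8 := th_dist y 0 0
      have h9 : (pt 0 0 : E2) = 0 := by
        ext i
        fin_cases i <;> simp [pt]
      rw [h9, sub_zero, sub_zero] at h8
      have h10 : |y 1| ≤ |c'| + δ := by
        have : y 1 = (y 1 - c') + c' := by ring
        rw [this]
        linarith [abs_add_le (y 1 - c') c']
      have hK1 : 0 ≤ (d.n e 0)⁻¹ * (|c' - h| + δ) := mul_nonneg (inv_pos.2 ha).le hK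
      have hK2 : 0 ≤ (d.n (e + 1) 0)⁻¹ * (|c' - h| + δ) := mul_nonneg (inv_pos.2 hb).le hK
      have h11 : |y 0| ≤ |d.t e| + (d.n e 0)⁻¹ * (|c' - h| + δ) + (|d.t (e + 1)| +
          (d.n (e + 1) 0)⁻¹ * (|c' - h| + δ)) := by
        rw [abs_le]
        constructor
        · have := neg_abs_le (d.t e)
          have := abs_nonneg (d.t (e + 1))
          linarith
        · have := le_abs_self (d.t (e + 1))
          have := abs_nonneg (d.t e)
          linarith
      linarith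
  · -- interior
    set Z : E2 := pt (d.t (e + 1) - (d.n (e + 1) 0)⁻¹ * (d.n (e + 1) 1 * (c' - h))) c' with hZ
    have hZ0 : Z 0 = d.t (e + 1) - (d.n (e + 1) 0)⁻¹ * (d.n (e + 1) 1 * (c' - h)) := by
      simp [hZ, pt]
    have hZ1 : Z 1 = c' := by simp [hZ, pt]
    have hvZ : d.val h (e + 1) Z = 0 := by
      rw [th_val, hZ0, hZ1]
      field_simp
      ring
    have hvZ' : 0 < d.val h e Z := hord Z (by rw [hZ1, sub_self, abs_zero]; exact hδ.le) hvZ.ge
    have hcont : ∀ f, Continuous (d.val h f) := fun f =>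
      continuous_const.inner (continuous_id.sub continuous_const)
    set y : E2 := Z - (d.val h e Z / 2) • e1 with hy
    have hye : ∀ f, d.val h f y = d.val h f Z - d.val h e Z / 2 * d.n f 0 := by
      intro f
      simp only [hy, RData.val]
      rw [show Z - (inner ℝ (d.n e) (Z - d.p h e) / 2) • e1 - d.p h f =
        (Z - d.p h f) - (inner ℝ (d.n e) (Z - d.p h e) / 2) • e1 by abel, inner_sub_right,
        inner_smul_right, th_e1]
    have hU : IsOpen {y : E2 | |y 1 - c'| < δ ∧ 0 < d.val h e y ∧ d.val h (e + 1) y < 0} := by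
      have h1 : Continuous fun y : E2 => |y 1 - c'| := by fun_prop
      exact (isOpen_lt h1 continuous_const).inter
        ((isOpen_lt continuous_const (hcont e)).inter (isOpen_lt (hcont (e + 1))
          continuous_const))
    refine ⟨y, mem_interior.2 ⟨_, ?_, hU, ?_, ?_, ?_⟩⟩
    · rintro z ⟨h1, h2, h3⟩
      refine ⟨h1.le, ?_, h3.le⟩
      rw [hsub]
      exact h2.le
    · have : y 1 = c' := by simp [hy, e1, hZ1]
      rw [this, sub_self, abs_zero]
      exact hδ
    · rw [hye]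
      have h1 := (abs_le.1 (th_coord (hd.unit e he.le) 0)).2
      nlinarith
    · rw [hye, hvZ]
      nlinarith [mul_pos hvZ' hb]

theorem exists_thin {S : Set E3} {c : CData} (hc : IsComplex S c) {d : RData c} {h : ℝ}
    (hd : IsRoute d h) {η : ℝ} (hη : 0 < η) :
    ∃ δ0 > 0, ∀ δ c', 0 < δ → δ ≤ δ0 → |h - c'| ≤ δ → IsThin d h η c' δ := by
  have h1 : ∀ᶠ ε in 𝓝[>] (0 : ℝ), ∀ e ∈ Iio d.M, ∀ y : E2, |y 1 - h| ≤ ε →
      0 ≤ d.val h (e + 1) y → 0 < d.val h e y :=
    (Filter.eventually_all_finite (finite_Iio d.M)).2 fun e he =>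
      th_order (hd.unit e (le_of_lt he)) (hd.dir e (le_of_lt he)) (hd.unit (e + 1) he)
        (hd.dir (e + 1) he) (hd.mono e he)
  have h2 : ∀ᶠ ε in 𝓝[>] (0 : ℝ), ∀ e ∈ Iic d.M, ∀ y : E2, |y 1 - h| ≤ ε →
      d.val h e y = 0 → dist y (d.p h e) < η :=
    (Filter.eventually_all_finite (finite_Iic d.M)).2 fun e he =>
      th_near (hd.unit e he) (hd.dir e he) (by
        filter_upwards [ball_mem_nhds (d.p h e) hη] with y hy _
        exact hy)
  have h3 : ∀ᶠ ε in 𝓝[>] (0 : ℝ), ∀ e ∈ Iio d.M,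
      ((∀ y : E2, |y 1 - h| ≤ ε → d.val h e y = 0 →
        d.G (e + 1) y ∈ c.ccell (d.ci (e + 1))) ∧
      (d.G (e + 1) (d.p h e) ∈ c.cell (d.ci (e + 1)) →
        ∀ y : E2, |y 1 - h| ≤ ε → d.val h e y = 0 → d.G (e + 1) y ∈ c.cell (d.ci (e + 1)))) :=
    (Filter.eventually_all_finite (finite_Iio d.M)).2 fun e he =>
      th_strip hd (le_of_lt he) (th_left hc hd e he)
  have h4 : ∀ᶠ ε in 𝓝[>] (0 : ℝ), ∀ e ∈ Iio d.M,
      ((∀ y : E2, |y 1 - h| ≤ ε → d.val h (e + 1) y = 0 →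
        d.G (e + 1) y ∈ c.ccell (d.ci (e + 1))) ∧
      (d.G (e + 1) (d.p h (e + 1)) ∈ c.cell (d.ci (e + 1)) →
        ∀ y : E2, |y 1 - h| ≤ ε → d.val h (e + 1) y = 0 →
          d.G (e + 1) y ∈ c.cell (d.ci (e + 1)))) :=
    (Filter.eventually_all_finite (finite_Iio d.M)).2 fun e he =>
      th_strip hd he (th_right hc hd (e + 1) (by omega) he)
  have h5 : ∀ᶠ ε in 𝓝[>] (0 : ℝ), ∀ e ∈ {e | 1 ≤ e ∧ e < d.M ∧ d.IsTurn h e},
      ∀ y : E2, |y 1 - h| ≤ ε → d.val h e y = 0 → d.G e y ∈ c.cell (d.ci e) :=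
    (Filter.eventually_all_finite ((finite_Iio d.M).subset fun e he => he.2.1)).2 fun e he =>
      th_near (hd.unit e he.2.1.le) (hd.dir e he.2.1.le) (by
        filter_upwards [th_open hc (th_range hc hd e he.1 he.2.1.le) he.2.2.2.2.2] with y hy _
        exact hy)
  have h6 : ∀ᶠ ε in 𝓝[>] (0 : ℝ), ∀ e ∈ {e | e < d.M ∧ (d.IsWrap h e ∨ d.IsCross h e)},
      ∀ y : E2, |y 1 - h| ≤ ε → d.val h e y = 0 →
        c.MoveAt (d.ci e) (d.pl e) (d.ci (e + 1)) (d.pl (e + 1)) (d.G e y) :=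
    (Filter.eventually_all_finite ((finite_Iio d.M).subset fun e he => he.1)).2 fun e he =>
      th_near (hd.unit e he.1.le) (hd.dir e he.1.le)
        (he.2.elim (fun ht => ht.2.2.2) (fun ht => ht.2.2.2.2))
  have h7 := th_near (hd.unit 0 (by omega)) (hd.dir 0 (by omega)) hd.startRim
  have h8 := th_near (hd.unit d.M le_rfl) (hd.dir d.M le_rfl) hd.endRim
  obtain ⟨ε, ⟨⟨⟨⟨⟨⟨⟨⟨k1, k2⟩, k3⟩, k4⟩, k5⟩, k6⟩, k7⟩, k8⟩, hε⟩⟩ :=
    ((((((((h1.and h2).and h3).and h4).and h5).and h6).and h7).and h8).and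
      self_mem_nhdsWithin).exists
  have hε0 : 0 < ε := hε
  refine ⟨ε / 2, by positivity, fun δ c' hδ hδ2 hhc => ?_⟩
  have hst : ∀ y : E2, |y 1 - c'| ≤ δ → |y 1 - h| ≤ ε := by
    intro y hy
    have : y 1 - h = (y 1 - c') - (h - c') := by ring
    rw [this]
    linarith [abs_sub (y 1 - c') (h - c')]
  refine ⟨fun e he y hy => k1 e he y (hst y hy), fun e he y hy => k2 e he y (hst y hy), ?_,
    fun e he1 he ht y hy => k5 e ⟨he1, he, ht⟩ y (hst y hy),
    fun e _ he ht y hy => k6 e ⟨he, ht⟩ y (hst y hy), fun y hy => k7 y (hst y hy),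
    fun y hy => k8 y (hst y hy), ?_⟩
  · intro e he1 he y hy
    obtain ⟨e, rfl⟩ : ∃ f, e = f + 1 := ⟨e - 1, by omega⟩
    have he' : e ∈ Iio d.M := by
      rw [mem_Iio]
      omega
    exact th_cell hc hd he' (k1 e he') (k3 e he').1 (k3 e he').2 (k4 e he').1 (k4 e he').2
      (hst y hy.1) hy.2.1 hy.2.2
  · intro e he1 he
    obtain ⟨e, rfl⟩ : ∃ f, e = f + 1 := ⟨e - 1, by omega⟩
    have he' : e ∈ Iio d.M := by
      rw [mem_Iio]
      omega
    exact th_facet hd he' hδ fun y hy => k1 e he' y (hst y hy)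

end Pool.Agent.SeamS
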